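import Mathlib

/-!
# Definitions for the unramified Fontaine-Mazur theorems
-/

set_option autoImplicit false
open scoped NumberField

namespace Pool.Agent.Lib.MP_ca71b5_nt

/-- Every finite abelian extension of `F` of exponent dividing `p`, unramified at all finite
primes, has degree at most `p ^ r`. -/
def RankLE (p : ℕ) (F : Type) [Field F] [NumberField F] (r : ℕ) : Prop :=
  ∀ (M : Type) [Field M] [NumberField M] [Algebra F M] [IsGalois F M],
    (∀ s t : M ≃ₐ[F] M, s * t = t * s) → (∀ s : M ≃ₐ[F] M, s ^ p = 1) →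
    Algebra.Unramified (𝓞 F) (𝓞 M) → Module.finrank F M ≤ p ^ r

/-- The degrees of the finite Galois extensions of `F` of `p`-power degree, unramified at all
finite primes, are bounded. -/
def FiniteTower (p : ℕ) (F : Type) [Field F] [NumberField F] : Prop :=
  ∃ B : ℕ, ∀ (M : Type) [Field M] [NumberField M] [Algebra F M] [IsGalois F M],
    (∃ k : ℕ, Module.finrank F M = p ^ k) → Algebra.Unramified (𝓞 F) (𝓞 M) →
    Module.finrank F M ≤ B

/-- A group of matrices over `ℤ_[p]` is powerful if its commutators lie in the closed subgroup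
generated by its `p`-th powers (`4`-th powers for `p = 2`). -/
def Powerful (p : ℕ) [Fact p.Prime] {n : ℕ} (G : Subgroup (Matrix.GeneralLinearGroup (Fin n) ℤ_[p])) :
    Prop :=
  ∀ g ∈ G, ∀ h ∈ G, g * h * g⁻¹ * h⁻¹ ∈
    closure ((Subgroup.closure {x | ∃ y ∈ G, x = y ^ (if p = 2 then 4 else p)} :
      Subgroup (Matrix.GeneralLinearGroup (Fin n) ℤ_[p])) : Set (Matrix.GeneralLinearGroup (Fin n) ℤ_[p]))

/-- every finite subextension of the field cut out by `ρ` has `p`-power degree and is unramified
at all finite primes -/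
def UnrPro (p : ℕ) [Fact p.Prime] (K : Type) [Field K] [NumberField K] {n : ℕ}
    (ρ : (AlgebraicClosure K ≃ₐ[K] AlgebraicClosure K) →* Matrix.GeneralLinearGroup (Fin n) ℤ_[p]) :
    Prop :=
  ∀ L : IntermediateField K (AlgebraicClosure K),
    L ≤ IntermediateField.fixedField ρ.ker → FiniteDimensional K L →
    (∃ k : ℕ, Module.finrank K L = p ^ k) ∧ Algebra.Unramified (𝓞 K) (𝓞 L)

/-- the field cut out by `ρ` is normal over `F` -/
def CutNormal (p : ℕ) [Fact p.Prime] (F K : Type) [Field F] [Field K] [Algebra F K] {n : ℕ}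
    (ρ : (AlgebraicClosure K ≃ₐ[K] AlgebraicClosure K) →* Matrix.GeneralLinearGroup (Fin n) ℤ_[p]) :
    Prop :=
  ∀ (s : AlgebraicClosure K ≃ₐ[F] AlgebraicClosure K), ∀ x ∈ IntermediateField.fixedField ρ.ker,
    s x ∈ IntermediateField.fixedField ρ.ker

end Pool.Agent.Lib.MP_ca71b5_nt
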