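import Mathlib
import Pool.Agent.Lib.MP_ca71b5_nt.Defs

/-!
# Basic definitions: powers in groups, matrices over the p-adic numbers, the logarithm
-/

set_option autoImplicit false

namespace Pool.Agent.Lib.MP_ca71b5_nt

/-! ### groups -/

/-- exponent used in the definition of powerful groups -/
def eps (p : ℕ) : ℕ := if p = 2 then 2 else 1

theorem eps_pos (p : ℕ) : 1 ≤ eps p := by
  unfold eps; split_ifs <;> norm_num

/-- subgroup generated by the `k`-th powers of elements of `N` -/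
def PS {P : Type*} [Group P] (k : ℕ) (N : Subgroup P) : Subgroup P :=
  Subgroup.closure {z | ∃ y ∈ N, z = y ^ k}

/-- `N` is powerfully embedded in `P` -/
def PE (p : ℕ) {P : Type*} [Group P] (N : Subgroup P) : Prop :=
  N.Normal ∧ ∀ x ∈ N, ∀ g : P, x * g * x⁻¹ * g⁻¹ ∈ PS (p ^ eps p) N

section profinite

variable {Γ : Type*} [Group Γ] [TopologicalSpace Γ]

/-- the quotient by `Z` is a pro-`p` group -/
def ProP (p : ℕ) (Z : Subgroup Γ) : Prop :=
  ∀ W : Subgroup Γ, W.Normal → IsOpen (W : Set Γ) → Z ≤ W → ∃ k : ℕ, W.index = p ^ k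

/-- the finite quotients above `Z` are powerful: commutators are products of `p ^ eps p`-th powers
modulo `W` -/
def PowQ (p : ℕ) (Z : Subgroup Γ) : Prop :=
  ∀ (W : Subgroup Γ) [W.Normal], IsOpen (W : Set Γ) → Z ≤ W → PE p (⊤ : Subgroup (Γ ⧸ W))

/-- the elementary abelian quotients above `Z` have order at most `p ^ R` -/
def RankG (p R : ℕ) (Z : Subgroup Γ) : Prop :=
  ∀ W : Subgroup Γ, W.Normal → IsOpen (W : Set Γ) → Z ≤ W → (∀ a b : Γ, a * b * a⁻¹ * b⁻¹ ∈ W) →
    (∀ a : Γ, a ^ p ∈ W) → W.index ≤ p ^ R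

/-- the elementary abelian quotients above `Z` on which `φ` is trivial have order at most
`p ^ r` -/
def RankF (p r : ℕ) (Z : Subgroup Γ) (φ : Γ →* Γ) : Prop :=
  ∀ W : Subgroup Γ, W.Normal → IsOpen (W : Set Γ) → Z ≤ W → (∀ a b : Γ, a * b * a⁻¹ * b⁻¹ ∈ W) →
    (∀ a : Γ, a ^ p ∈ W) → (∀ a : Γ, φ a * a⁻¹ ∈ W) → W.index ≤ p ^ r

/-- the finite quotients above `Z` on which `φ` is trivial have bounded order -/
def TowerF (Z : Subgroup Γ) (φ : Γ →* Γ) : Prop :=
  ∃ B : ℕ, ∀ W : Subgroup Γ, W.Normal → IsOpen (W : Set Γ) → Z ≤ W → (∀ a : Γ, φ a * a⁻¹ ∈ W) →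
    W.index ≤ B

/-- open subgroups above `Z` have no non-zero continuous homomorphism to `ℚ_p` trivial on `Z` -/
def FAb (p : ℕ) [Fact p.Prime] (Z : Subgroup Γ) : Prop :=
  ∀ H : Subgroup Γ, IsOpen (H : Set Γ) → Z ≤ H → ∀ ψ : H → ℚ_[p], Continuous ψ →
    (∀ a b : H, ψ (a * b) = ψ a + ψ b) → (∀ a : H, (a : Γ) ∈ Z → ψ a = 0) → ∀ a : H, ψ a = 0

end profinite

/-! ### matrices -/

/-- `GL_ι(ℤ_p)` -/
abbrev GLZ (p : ℕ) [Fact p.Prime] (ι : Type) [Fintype ι] [DecidableEq ι] : Type :=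
  Matrix.GeneralLinearGroup ι ℤ_[p]

/-- rational matrices -/
abbrev MQ (p : ℕ) [Fact p.Prime] (ι : Type) : Type := Matrix ι ι ℚ_[p]

/-- integral matrices -/
abbrev MZ (p : ℕ) [Fact p.Prime] (ι : Type) : Type := Matrix ι ι ℤ_[p]

section matrices

variable {p : ℕ} [Fact p.Prime] {ι : Type} [Fintype ι] [DecidableEq ι]

/-- integral matrices as rational matrices -/
noncomputable def toQ : MZ p ι →+* MQ p ι := (algebraMap ℤ_[p] ℚ_[p]).mapMatrix

/-- the rational matrix of an element of `GL_ι(ℤ_p)` -/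
noncomputable def gm (g : GLZ p ι) : MQ p ι := toQ (g : MZ p ι)

omit [Fintype ι] [DecidableEq ι] in
/-- all entries are divisible by `p ^ t` -/
def Small (t : ℤ) (A : MQ p ι) : Prop := ∀ i j, ‖A i j‖ ≤ (p : ℝ) ^ (-t)

/-- `g ^ (p ^ N)` is congruent to `1` modulo `p ^ t` -/
def Deep (t N : ℕ) (g : GLZ p ι) : Prop := Small (t : ℤ) (gm g ^ (p ^ N) - 1)

/-- the logarithm, as a limit -/
noncomputable def ell (g : GLZ p ι) : MQ p ι :=
  Filter.limUnder Filter.atTop (fun m : ℕ => ((p : ℚ_[p]) ^ m)⁻¹ • (gm g ^ (p ^ m) - 1))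

/-- the `ℚ_p`-span of the logarithms -/
noncomputable def logSpan {Γ : Type*} [Group Γ] (ρ : Γ →* GLZ p ι) : Submodule ℚ_[p] (MQ p ι) :=
  Submodule.span ℚ_[p] (Set.range fun g => ell (ρ g))

attribute [local instance 100] LieRing.ofAssociativeRing

/-- the Lie algebra: the `ℚ_p`-Lie algebra generated by the logarithms -/
noncomputable def gg {Γ : Type*} [Group Γ] (ρ : Γ →* GLZ p ι) : LieSubalgebra ℚ_[p] (MQ p ι) :=
  LieSubalgebra.lieSpan ℚ_[p] (MQ p ι) (Set.range fun g => ell (ρ g))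

end matrices

/-! ### Lie algebras -/

/-- the fixed points of an automorphism -/
def fixS {k : Type*} [Field k] {L : Type*} [LieRing L] [LieAlgebra k L] (T : L ≃ₗ⁅k⁆ L) :
    Submodule k L where
  carrier := {x | T x = x}
  add_mem' := by
    intro a b (ha : T a = a) (hb : T b = b)
    change T (a + b) = a + b
    rw [map_add, ha, hb]
  zero_mem' := map_zero T
  smul_mem' := by
    intro c x (hx : T x = x)
    change T (c • x) = c • x
    rw [map_smul, hx]

theorem mem_fixS {k : Type*} [Field k] {L : Type*} [LieRing L] [LieAlgebra k L] (T : L ≃ₗ⁅k⁆ L)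
    (x : L) : x ∈ fixS T ↔ T x = x := Iff.rfl

end Pool.Agent.Lib.MP_ca71b5_nt
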