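import Mathlib
import Pool.Agent.Lib.MP_ca71b5_nt.Base

/-!
# Definitions for the theorem on cyclic extensions
-/

set_option autoImplicit false
open scoped NumberField

namespace Pool.Agent.Lib.MP_ca71b5_nt

/-- `G` is powerful of depth `c`: its commutators lie in the closed subgroup generated by the
`p ^ c`-th powers -/
def PowDeep (p c : ℕ) [Fact p.Prime] {n : ℕ}
    (G : Subgroup (Matrix.GeneralLinearGroup (Fin n) ℤ_[p])) : Prop :=
  ∀ g ∈ G, ∀ h ∈ G, g * h * g⁻¹ * h⁻¹ ∈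
    closure ((Subgroup.closure {x | ∃ y ∈ G, x = y ^ (p ^ c)} :
      Subgroup (Matrix.GeneralLinearGroup (Fin n) ℤ_[p])) :
        Set (Matrix.GeneralLinearGroup (Fin n) ℤ_[p]))

/-- the Galois groups of the finite abelian extensions of `F` of `p`-power degree, unramified at
all finite primes, have exponent dividing `p ^ s` -/
def ExpLE (p : ℕ) (F : Type) [Field F] [NumberField F] (s : ℕ) : Prop :=
  ∀ (M : Type) [Field M] [NumberField M] [Algebra F M] [IsGalois F M],
    (∀ σ τ : M ≃ₐ[F] M, σ * τ = τ * σ) → (∃ k : ℕ, Module.finrank F M = p ^ k) →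
    Algebra.Unramified (𝓞 F) (𝓞 M) → ∀ σ : M ≃ₐ[F] M, σ ^ (p ^ s) = 1

/-- the commutators of `N` with the group lie in the subgroup generated by the `p ^ c`-th powers
of elements of `N` -/
def PEc (p c : ℕ) {P : Type*} [Group P] (N : Subgroup P) : Prop :=
  N.Normal ∧ ∀ x ∈ N, ∀ g : P, x * g * x⁻¹ * g⁻¹ ∈ PS (p ^ c) N

/-- the finite quotients above `Z` satisfy `PEc p c` -/
def PowQc (p c : ℕ) {Γ : Type*} [Group Γ] [TopologicalSpace Γ] (Z : Subgroup Γ) : Prop :=
  ∀ (W : Subgroup Γ) [W.Normal], IsOpen (W : Set Γ) → Z ≤ W → PEc p c (⊤ : Subgroup (Γ ⧸ W))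

end Pool.Agent.Lib.MP_ca71b5_nt
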