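import Mathlib
import Pool.Agent.Lib.MP_ca71b5_nt.Base

/-!
# Elementary facts on `Small`
-/

set_option autoImplicit false

namespace Pool.Agent.Lib.MP_ca71b5_nt

variable {p : ℕ} [Fact p.Prime] {ι : Type}

theorem pR_pos (p : ℕ) [Fact p.Prime] : (0 : ℝ) < p := by
  exact_mod_cast (Fact.out : p.Prime).pos

theorem pR_one_lt (p : ℕ) [Fact p.Prime] : (1 : ℝ) < p := by
  exact_mod_cast (Fact.out : p.Prime).one_lt

theorem Small.zero (t : ℤ) : Small t (0 : MQ p ι) := by
  intro i j
  simp only [Matrix.zero_apply, norm_zero]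
  exact (zpow_pos (pR_pos p) _).le

theorem Small.mono {s t : ℤ} (h : s ≤ t) {A : MQ p ι} (hA : Small t A) : Small s A := by
  intro i j
  exact (hA i j).trans (zpow_le_zpow_right₀ (pR_one_lt p).le (by omega))

theorem Small.add {t : ℤ} {A B : MQ p ι} (hA : Small t A) (hB : Small t B) :
    Small t (A + B) := by
  intro i j
  exact (Padic.nonarchimedean _ _).trans (max_le (hA i j) (hB i j))

theorem Small.neg {t : ℤ} {A : MQ p ι} (hA : Small t A) : Small t (-A) := by
  intro i j
  rw [Matrix.neg_apply, norm_neg]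
  exact hA i j

theorem Small.sub {t : ℤ} {A B : MQ p ι} (hA : Small t A) (hB : Small t B) :
    Small t (A - B) := by
  rw [sub_eq_add_neg]
  exact hA.add hB.neg

theorem Small.sum {t : ℤ} {α : Type*} (s : Finset α) (f : α → MQ p ι)
    (h : ∀ i ∈ s, Small t (f i)) : Small t (∑ i ∈ s, f i) := by
  classical
  induction s using Finset.induction_on with
  | empty => simpa using Small.zero t
  | insert a s ha ih =>
    rw [Finset.sum_insert ha]
    exact (h a (by simp)).add (ih fun i hi => h i (by simp [hi]))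

theorem Small.smul {s t : ℤ} {c : ℚ_[p]} (hc : ‖c‖ ≤ (p : ℝ) ^ (-s)) {A : MQ p ι}
    (hA : Small t A) : Small (s + t) (c • A) := by
  intro i j
  rw [Matrix.smul_apply, smul_eq_mul, norm_mul, neg_add, zpow_add₀ (pR_pos p).ne']
  exact mul_le_mul hc (hA i j) (norm_nonneg _) (zpow_pos (pR_pos p) _).le

theorem norm_p_pow (m : ℕ) : ‖((p : ℚ_[p]) ^ m)‖ = (p : ℝ) ^ (-(m : ℤ)) := by
  rw [norm_pow, Padic.norm_p, zpow_neg, zpow_natCast, inv_pow]

theorem norm_p_pow_inv (m : ℕ) : ‖((p : ℚ_[p]) ^ m)⁻¹‖ = (p : ℝ) ^ (m : ℤ) := by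
  rw [norm_inv, norm_p_pow, zpow_neg, inv_inv]

theorem Small.p_smul {t : ℤ} (m : ℕ) {A : MQ p ι} (hA : Small t A) :
    Small (m + t) ((p : ℚ_[p]) ^ m • A) :=
  Small.smul (norm_p_pow m).le hA

theorem Small.p_inv_smul {t : ℤ} (m : ℕ) {A : MQ p ι} (hA : Small t A) :
    Small (t - m) (((p : ℚ_[p]) ^ m)⁻¹ • A) := by
  have := Small.smul (s := -(m : ℤ)) (c := ((p : ℚ_[p]) ^ m)⁻¹) (by rw [norm_p_pow_inv, neg_neg]) hA
  rwa [neg_add_eq_sub] at this

theorem Small.int_smul {t : ℤ} (c : ℤ) {A : MQ p ι} (hA : Small t A) :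
    Small t ((c : ℚ_[p]) • A) := by
  have := Small.smul (s := 0) (c := (c : ℚ_[p])) (by simpa using Padic.norm_int_le_one c) hA
  rwa [zero_add] at this

theorem Small.nat_smul {t : ℤ} (c : ℕ) {A : MQ p ι} (hA : Small t A) :
    Small t ((c : ℚ_[p]) • A) := by
  have := hA.int_smul (c : ℤ)
  simpa using this

theorem Small.padicInt_smul {t : ℤ} (c : ℤ_[p]) {A : MQ p ι} (hA : Small t A) :
    Small t (c • A) := by
  intro i j
  have h : (c • A) i j = (c : ℚ_[p]) * A i j := rfl
  rw [h, norm_mul]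
  calc ‖(c : ℚ_[p])‖ * ‖A i j‖ ≤ 1 * ‖A i j‖ :=
        mul_le_mul_of_nonneg_right (PadicInt.norm_le_one c) (norm_nonneg _)
    _ ≤ _ := by rw [one_mul]; exact hA i j

theorem Small.of_tendsto {t : ℤ} {α : Type*} {F : Filter α} [F.NeBot] {f : α → MQ p ι}
    {A : MQ p ι} (h : Filter.Tendsto f F (nhds A)) (hf : ∀ᶠ x in F, Small t (f x)) :
    Small t A := by
  intro i j
  have h1 : Filter.Tendsto (fun x => ‖f x i j‖) F (nhds ‖A i j‖) :=
    ((((continuous_apply j).comp (continuous_apply i)).tendsto A).comp h).norm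
  exact le_of_tendsto h1 (hf.mono fun x hx => hx i j)

theorem tendsto_zero_of_small {α : Type*} {F : Filter α} {f : α → MQ p ι}
    (h : ∀ t : ℤ, ∀ᶠ x in F, Small t (f x)) : Filter.Tendsto f F (nhds 0) := by
  refine tendsto_pi_nhds.mpr fun i => tendsto_pi_nhds.mpr fun j => ?_
  change Filter.Tendsto (fun x => f x i j) F (nhds (0 : ℚ_[p]))
  rw [Metric.tendsto_nhds]
  intro ε hε
  obtain ⟨n, hn⟩ := PadicInt.exists_pow_neg_lt p hε
  filter_upwards [h n] with x hx
  rw [dist_zero_right]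
  exact (hx i j).trans_lt hn

theorem eq_zero_of_small {A : MQ p ι} (h : ∀ t : ℕ, Small (t : ℤ) A) : A = 0 := by
  ext i j
  by_contra hne
  have hpos : 0 < ‖A i j‖ := norm_pos_iff.mpr hne
  obtain ⟨n, hn⟩ := PadicInt.exists_pow_neg_lt p hpos
  exact absurd (h n i j) (not_le.mpr hn)

theorem exists_small [Finite ι] (A : MQ p ι) : ∃ t : ℤ, Small t A := by
  classical
  have := Fintype.ofFinite ι
  have h1 : ∀ x : ℚ_[p], ∃ n : ℕ, ‖x‖ ≤ (p : ℝ) ^ (n : ℤ) := by
    intro x
    obtain ⟨n, hn⟩ := pow_unbounded_of_one_lt ‖x‖ (pR_one_lt p)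
    exact ⟨n, by rw [zpow_natCast]; exact hn.le⟩
  choose n hn using h1
  refine ⟨-((∑ i, ∑ j, n (A i j) : ℕ) : ℤ), fun i j => ?_⟩
  rw [neg_neg]
  refine (hn (A i j)).trans (zpow_le_zpow_right₀ (pR_one_lt p).le ?_)
  have h2 : n (A i j) ≤ ∑ j, n (A i j) :=
    Finset.single_le_sum (f := fun j => n (A i j)) (fun _ _ => Nat.zero_le _) (Finset.mem_univ j)
  have h3 : ∑ j, n (A i j) ≤ ∑ i, ∑ j, n (A i j) :=
    Finset.single_le_sum (f := fun i => ∑ j, n (A i j)) (fun _ _ => Nat.zero_le _)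
      (Finset.mem_univ i)
  exact_mod_cast h2.trans h3

/-- a non-zero matrix which is small is exactly divisible by some power of `p` -/
theorem exists_exact {A : MQ p ι} {s : ℕ} (hs : Small (s : ℤ) A) (hA : A ≠ 0) :
    ∃ t : ℕ, s ≤ t ∧ Small (t : ℤ) A ∧ ¬ Small ((t : ℤ) + 1) A := by
  by_contra hcon
  push Not at hcon
  apply hA
  have key : ∀ k : ℕ, Small ((s + k : ℕ) : ℤ) A := by
    intro k
    induction k with
    | zero => simpa using hs
    | succ k ih =>
      have := hcon (s + k) (by omega) ih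
      push_cast at this ⊢
      rwa [← add_assoc]
  apply eq_zero_of_small
  intro t
  exact (key t).mono (by push_cast; omega)

section fin

variable [Fintype ι]

theorem Small.mul {s t : ℤ} {A B : MQ p ι} (hA : Small s A) (hB : Small t B) :
    Small (s + t) (A * B) := by
  intro i j
  rw [Matrix.mul_apply]
  apply IsUltrametricDist.norm_sum_le_of_forall_le_of_nonneg (zpow_pos (pR_pos p) _).le
  intro k _
  rw [norm_mul, neg_add, zpow_add₀ (pR_pos p).ne']
  exact mul_le_mul (hA i k) (hB k j) (norm_nonneg _) (zpow_pos (pR_pos p) _).le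

variable [DecidableEq ι]

theorem small_toQ (Z : MZ p ι) : Small 0 (toQ Z) := by
  intro i j
  have : toQ Z i j = ((Z i j : ℤ_[p]) : ℚ_[p]) := rfl
  rw [this, neg_zero, zpow_zero]
  exact PadicInt.norm_le_one _

theorem small_gm (g : GLZ p ι) : Small 0 (gm g) := small_toQ _

theorem Small.one : Small 0 (1 : MQ p ι) := by
  have := small_toQ (1 : MZ p ι)
  rwa [map_one] at this

theorem Small.pow {A : MQ p ι} (hA : Small 0 A) (n : ℕ) : Small 0 (A ^ n) := by
  induction n with
  | zero => simpa using Small.one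
  | succ n ih =>
    rw [pow_succ]
    simpa using ih.mul hA

theorem Small.pow' {t : ℤ} {A : MQ p ι} (hA : Small t A) (n : ℕ) : Small (n * t) (A ^ n) := by
  induction n with
  | zero => simpa using Small.one
  | succ n ih =>
    rw [pow_succ]
    have := ih.mul hA
    push_cast
    rwa [add_mul, one_mul]

@[simp] theorem gm_one : gm (1 : GLZ p ι) = 1 := by
  simp [gm]

@[simp] theorem gm_mul (g h : GLZ p ι) : gm (g * h) = gm g * gm h := by
  simp [gm]

@[simp] theorem gm_pow (g : GLZ p ι) (n : ℕ) : gm (g ^ n) = gm g ^ n := by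
  simp [gm]

@[simp] theorem gm_mul_gm_inv (g : GLZ p ι) : gm g * gm g⁻¹ = 1 := by
  rw [← gm_mul, mul_inv_cancel, gm_one]

@[simp] theorem gm_inv_mul_gm (g : GLZ p ι) : gm g⁻¹ * gm g = 1 := by
  rw [← gm_mul, inv_mul_cancel, gm_one]

theorem toQ_injective : Function.Injective (toQ : MZ p ι → MQ p ι) := by
  intro A B h
  apply Matrix.ext
  intro i j
  have h1 : toQ A i j = toQ B i j := by rw [h]
  have h2 : ((A i j : ℤ_[p]) : ℚ_[p]) = ((B i j : ℤ_[p]) : ℚ_[p]) := h1
  exact Subtype.ext h2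

theorem gm_injective : Function.Injective (gm : GLZ p ι → MQ p ι) := by
  intro g h hgh
  exact Units.ext (toQ_injective hgh)

theorem gm_inj {g h : GLZ p ι} : gm g = gm h ↔ g = h := gm_injective.eq_iff

theorem continuous_toQ : Continuous (toQ : MZ p ι → MQ p ι) := by
  apply continuous_matrix
  intro i j
  have h : Continuous fun A : MZ p ι => ((A i j : ℤ_[p]) : ℚ_[p]) :=
    continuous_subtype_val.comp (Continuous.matrix_elem continuous_id i j)
  exact h

theorem continuous_gm : Continuous (gm : GLZ p ι → MQ p ι) :=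
  continuous_toQ.comp Units.continuous_val

/-- an integral rational matrix comes from an integral matrix -/
theorem exists_toQ {A : MQ p ι} (hA : Small 0 A) : ∃ Z : MZ p ι, toQ Z = A := by
  refine ⟨fun i j => ⟨A i j, by simpa using hA i j⟩, ?_⟩
  ext i j
  rfl

end fin

end Pool.Agent.Lib.MP_ca71b5_nt
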