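import Mathlib
import Pool.Agent.Lib.MP_ca71b5_nt.E0

section

/-!
# Expansion of the powers of a matrix congruent to one
-/

set_option autoImplicit false

namespace Pool.Agent.Lib.MP_ca71b5_nt

variable {p : ℕ} [Fact p.Prime] {ι : Type} [Fintype ι] [DecidableEq ι]

/-- first order expansion of a power of `1 + A` -/
theorem small_pow_expand {s : ℤ} (hs : 0 ≤ s) {A : MQ p ι} (hA : Small s A) (n : ℕ) :
    Small (2 * s) ((1 + A) ^ n - 1 - (n : ℚ_[p]) • A) := by
  have hAA : Small (2 * s) (A * A) := by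
    have := hA.mul hA
    rwa [← two_mul] at this
  have hA0 : Small 0 A := hA.mono hs
  induction n with
  | zero => simpa using Small.zero (p := p) (ι := ι) (2 * s)
  | succ n ih =>
    set E := (1 + A) ^ n - 1 - (n : ℚ_[p]) • A with hE
    have h1 : (1 + A) ^ (n + 1) - 1 - ((n + 1 : ℕ) : ℚ_[p]) • A
        = E + E * A + (n : ℚ_[p]) • (A * A) := by
      have h2 : (1 + A) ^ n = E + 1 + (n : ℚ_[p]) • A := by rw [hE]; abel
      rw [pow_succ, h2]
      push_cast
      rw [add_smul, one_smul, mul_add, mul_one, add_mul, add_mul, one_mul, smul_mul_assoc]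
      abel
    rw [h1]
    refine (ih.add ?_).add (hAA.nat_smul n)
    have := ih.mul hA0
    rwa [add_zero] at this

/-- `u ^ (p ^ m) = 1 + p ^ m ell u + O(p ^ (2 m + 2 t - 1))` if `u` is `1` modulo `p ^ t`,
`t ≥ 2` -/
theorem ell_expand (u : GLZ p ι) (t : ℕ) (ht : 2 ≤ t) (h : Small (t : ℤ) (gm u - 1)) :
    (∀ m : ℕ, Small (2 * m + 2 * t - 1 : ℤ)
      (gm u ^ (p ^ m) - 1 - ((p : ℚ_[p]) ^ m) • ell u)) ∧ Small (t : ℤ) (ell u) := by
  have hp0 : (p : ℚ_[p]) ≠ 0 := by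
    exact_mod_cast (Fact.out : p.Prime).ne_zero
  set Y : ℕ → MQ p ι := fun m => ((p : ℚ_[p]) ^ m)⁻¹ • (gm u ^ (p ^ m) - 1) with hY
  have hYm : ∀ m, gm u ^ (p ^ m) = 1 + ((p : ℚ_[p]) ^ m) • Y m := by
    intro m
    rw [hY]
    simp only
    rw [smul_smul, mul_inv_cancel₀ (pow_ne_zero m hp0), one_smul]
    abel
  have hstep : ∀ m, Small (t : ℤ) (Y m) → Small (m + 2 * t - 1 : ℤ) (Y (m + 1) - Y m) := by
    intro m hm
    have h1 : Small ((m : ℤ) + t) (((p : ℚ_[p]) ^ m) • Y m) := hm.p_smul m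
    have h2 := small_pow_expand (by positivity) h1 p
    have h3 := h2.p_inv_smul (m + 1)
    have h4 : ((p : ℚ_[p]) ^ (m + 1))⁻¹ •
        ((1 + ((p : ℚ_[p]) ^ m) • Y m) ^ p - 1 - (p : ℚ_[p]) • ((p : ℚ_[p]) ^ m) • Y m)
        = Y (m + 1) - Y m := by
      rw [smul_sub]
      congr 1
      · rw [← hYm m, ← pow_mul, ← pow_succ]
      · rw [smul_smul, smul_smul]
        have : ((p : ℚ_[p]) ^ (m + 1))⁻¹ * ((p : ℚ_[p]) * (p : ℚ_[p]) ^ m) = 1 := by
          rw [← pow_succ', inv_mul_cancel₀ (pow_ne_zero _ hp0)]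
        rw [mul_assoc, this, one_smul]
    rw [h4] at h3
    exact h3.mono (by push_cast; omega)
  have hYt : ∀ m, Small (t : ℤ) (Y m) := by
    intro m
    induction m with
    | zero =>
      have : Y 0 = gm u - 1 := by simp [hY]
      rw [this]
      exact h
    | succ m ih =>
      have h1 := ih.add ((hstep m ih).mono (s := (t : ℤ)) (by omega))
      have h2 : Y m + (Y (m + 1) - Y m) = Y (m + 1) := by abel
      rwa [h2] at h1
  have hdiff : ∀ m k : ℕ, m ≤ k → Small (m + 2 * t - 1 : ℤ) (Y k - Y m) := by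
    intro m k hk
    induction k, hk using Nat.le_induction with
    | base => rw [sub_self]; exact Small.zero _
    | succ k hk ih =>
      have h1 := (hstep k (hYt k)).mono (s := (m + 2 * t - 1 : ℤ)) (by omega)
      have h2 : (Y (k + 1) - Y k) + (Y k - Y m) = Y (k + 1) - Y m := by abel
      rw [← h2]
      exact h1.add ih
  have hcauchy : ∀ i j, CauchySeq fun m => Y m i j := by
    intro i j
    rw [Metric.cauchySeq_iff']
    intro ε hε
    obtain ⟨n, hn⟩ := PadicInt.exists_pow_neg_lt p hε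
    refine ⟨n, fun k hk => ?_⟩
    have h1 := (hdiff n k hk).mono (s := (n : ℤ)) (by omega) i j
    rw [dist_eq_norm]
    exact h1.trans_lt hn
  choose x hx using fun i j => cauchySeq_tendsto_of_complete (hcauchy i j)
  have hlim : Filter.Tendsto Y Filter.atTop (nhds (Matrix.of x)) := by
    refine tendsto_pi_nhds.mpr fun i => tendsto_pi_nhds.mpr fun j => ?_
    exact hx i j
  have hell : ell u = Matrix.of x := hlim.limUnder_eq
  have hxY : ∀ m : ℕ, Small (m + 2 * t - 1 : ℤ) (Matrix.of x - Y m) := by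
    intro m
    have h1 : Filter.Tendsto (fun k => Y k - Y m) Filter.atTop (nhds (Matrix.of x - Y m)) :=
      hlim.sub_const _
    refine Small.of_tendsto h1 ?_
    filter_upwards [Filter.eventually_ge_atTop m] with k hk
    exact hdiff m k hk
  refine ⟨fun m => ?_, ?_⟩
  · rw [hell]
    have h1 : gm u ^ (p ^ m) - 1 - ((p : ℚ_[p]) ^ m) • Matrix.of x
        = ((p : ℚ_[p]) ^ m) • (-(Matrix.of x - Y m)) := by
      rw [hYm m, smul_neg, smul_sub]
      abel
    rw [h1]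
    have h2 := (hxY m).neg.p_smul m
    exact h2.mono (by omega)
  · rw [hell]
    exact Small.of_tendsto hlim (Filter.Eventually.of_forall hYt)

end Pool.Agent.Lib.MP_ca71b5_nt
end

section

/-!
# The logarithm is injective at one
-/

set_option autoImplicit false

namespace Pool.Agent.Lib.MP_ca71b5_nt

variable {p : ℕ} [Fact p.Prime] {ι : Type} [Fintype ι] [DecidableEq ι]


theorem eq_one_of_ell_eq_zero (u : GLZ p ι) (h : Small 2 (gm u - 1)) (h0 : ell u = 0) :
    u = 1 := by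
  by_contra hne
  have hA : gm u - 1 ≠ 0 := by
    intro h1
    apply hne
    apply gm_injective
    rw [gm_one]
    exact sub_eq_zero.1 h1
  obtain ⟨t, ht2, ht, hnt⟩ := exists_exact (s := 2) (by exact_mod_cast h) hA
  have h1 := (ell_expand u t ht2 ht).1 0
  rw [h0, smul_zero, sub_zero, pow_zero, pow_one] at h1
  refine hnt (Small.mono ?_ h1)
  push_cast
  have : (2:ℤ) ≤ t := by exact_mod_cast ht2
  linarith

end Pool.Agent.Lib.MP_ca71b5_nt
end

section

/-!
# The logarithm of elements with a deep power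
-/

set_option autoImplicit false

namespace Pool.Agent.Lib.MP_ca71b5_nt

variable {p : ℕ} [Fact p.Prime] {ι : Type} [Fintype ι] [DecidableEq ι]

private theorem ell_eq_aux (g : GLZ p ι) (x : MQ p ι)
    (h : Filter.Tendsto (fun m : ℕ => ((p : ℚ_[p]) ^ m)⁻¹ • (gm g ^ (p ^ m) - 1)) Filter.atTop
      (nhds x)) : ell g = x :=
  h.limUnder_eq

/-- the sequence defining `ell` converges, with rate -/
theorem ell_tendsto (g : GLZ p ι) (N : ℕ) (hg : Deep 2 N g) :
    Filter.Tendsto (fun m : ℕ => ((p : ℚ_[p]) ^ m)⁻¹ • (gm g ^ (p ^ m) - 1)) Filter.atTop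
      (nhds (ell g)) ∧
    (∀ m : ℕ, N ≤ m → Small (2 * m - 2 * N : ℤ)
      (gm g ^ (p ^ m) - 1 - ((p : ℚ_[p]) ^ m) • ell g)) ∧
    Small (2 - N : ℤ) (ell g) := by
  have hp0 : (p : ℚ_[p]) ≠ 0 := by
    exact_mod_cast (Fact.out : p.Prime).ne_zero
  obtain ⟨h1, h2⟩ := ell_expand (g ^ (p ^ N)) 2 le_rfl (by rw [gm_pow]; exact hg)
  obtain ⟨x, hx⟩ : ∃ x, x = ((p : ℚ_[p]) ^ N)⁻¹ • ell (g ^ (p ^ N)) := ⟨_, rfl⟩
  have hxs : Small (2 - N : ℤ) x := by
    rw [hx]
    exact h2.p_inv_smul N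
  have key : ∀ m : ℕ, N ≤ m → Small (2 * m - 2 * N : ℤ)
      (gm g ^ (p ^ m) - 1 - ((p : ℚ_[p]) ^ m) • x) := by
    intro m hm
    obtain ⟨k, rfl⟩ := Nat.exists_eq_add_of_le hm
    have h3 := h1 k
    have e1 : gm g ^ (p ^ (N + k)) = gm (g ^ (p ^ N)) ^ (p ^ k) := by
      rw [gm_pow, ← pow_mul, ← pow_add]
    have e2 : ((p : ℚ_[p]) ^ (N + k)) • x = ((p : ℚ_[p]) ^ k) • ell (g ^ (p ^ N)) := by
      rw [hx, smul_smul, pow_add, mul_comm (((p : ℚ_[p]) ^ N)), mul_assoc,
        mul_inv_cancel₀ (pow_ne_zero _ hp0), mul_one]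
    rw [e1, e2]
    exact h3.mono (by push_cast; omega)
  have hsub : Filter.Tendsto (fun m : ℕ => ((p : ℚ_[p]) ^ m)⁻¹ • (gm g ^ (p ^ m) - 1) - x)
      Filter.atTop (nhds 0) := by
    refine tendsto_zero_of_small fun t => ?_
    filter_upwards [Filter.eventually_ge_atTop (N + (t + 2 * N).toNat)] with m hm
    have h3 := (key m (by omega)).p_inv_smul m
    have e1 : ((p : ℚ_[p]) ^ m)⁻¹ • (gm g ^ (p ^ m) - 1 - ((p : ℚ_[p]) ^ m) • x) =
        ((p : ℚ_[p]) ^ m)⁻¹ • (gm g ^ (p ^ m) - 1) - x := by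
      rw [smul_sub, smul_smul, inv_mul_cancel₀ (pow_ne_zero _ hp0), one_smul]
    rw [e1] at h3
    exact h3.mono (by omega)
  have hlim : Filter.Tendsto (fun m : ℕ => ((p : ℚ_[p]) ^ m)⁻¹ • (gm g ^ (p ^ m) - 1))
      Filter.atTop (nhds x) := by
    have := hsub.add_const x
    simpa using this
  have he : ell g = x := ell_eq_aux g x hlim
  rw [he]
  exact ⟨hlim, key, hxs⟩

/-- uniqueness of the limit -/
theorem ell_eq_of_tendsto (g : GLZ p ι) (x : MQ p ι)
    (h : Filter.Tendsto (fun m : ℕ => ((p : ℚ_[p]) ^ m)⁻¹ • (gm g ^ (p ^ m) - 1)) Filter.atTop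
      (nhds x)) : ell g = x :=
  ell_eq_aux g x h

end Pool.Agent.Lib.MP_ca71b5_nt
end
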