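import Mathlib
import Pool.Agent.Lib.MP_ca71b5_nt.E2

section

/-!
# Algebraic rules for the logarithm
-/

set_option autoImplicit false

namespace Pool.Agent.Lib.MP_ca71b5_nt

variable {p : ℕ} [Fact p.Prime] {ι : Type} [Fintype ι] [DecidableEq ι]

theorem ell_one : ell (1 : GLZ p ι) = 0 := by
  refine ell_eq_of_tendsto _ _ ?_
  have h : (fun m : ℕ => ((p : ℚ_[p]) ^ m)⁻¹ • (gm (1 : GLZ p ι) ^ (p ^ m) - 1)) = fun _ => 0 := by
    funext m
    rw [gm_one, one_pow, sub_self, smul_zero]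
  rw [h]
  exact tendsto_const_nhds

private theorem e3_small (g : GLZ p ι) (N : ℕ) (hg : Deep 2 N g) (t : ℤ) :
    ∀ᶠ m : ℕ in Filter.atTop, Small t (gm g ^ (p ^ m) - 1) := by
  obtain ⟨-, h2, h3⟩ := ell_tendsto g N hg
  filter_upwards [Filter.eventually_ge_atTop (N + t.toNat)] with m hm
  have e : gm g ^ (p ^ m) - 1 = (gm g ^ (p ^ m) - 1 - ((p : ℚ_[p]) ^ m) • ell g) +
      ((p : ℚ_[p]) ^ m) • ell g := by abel
  rw [e]
  refine Small.add ((h2 m (by omega)).mono ?_) ((h3.p_smul m).mono ?_)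
  · omega
  · omega

private theorem e3_tendsto_one (g : GLZ p ι) (N : ℕ) (hg : Deep 2 N g) :
    Filter.Tendsto (fun m : ℕ => gm g ^ (p ^ m)) Filter.atTop (nhds 1) := by
  have h := tendsto_zero_of_small (f := fun m : ℕ => gm g ^ (p ^ m) - 1)
    (fun t => e3_small g N hg t)
  have h2 := h.add_const (1 : MQ p ι)
  rw [zero_add] at h2
  refine h2.congr fun m => ?_
  simp

private theorem e3_tendsto_inv (g : GLZ p ι) (N : ℕ) (hg : Deep 2 N g) :
    Filter.Tendsto (fun m : ℕ => gm g⁻¹ ^ (p ^ m)) Filter.atTop (nhds 1) := by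
  have hcomm : Commute (gm g⁻¹) (gm g) := by
    show gm g⁻¹ * gm g = gm g * gm g⁻¹
    rw [gm_inv_mul_gm, gm_mul_gm_inv]
  have hz : ∀ m : ℕ, gm g⁻¹ ^ (p ^ m) - 1 = -(gm g⁻¹ ^ (p ^ m) * (gm g ^ (p ^ m) - 1)) := by
    intro m
    rw [mul_sub, ← hcomm.mul_pow, gm_inv_mul_gm, one_pow, mul_one, neg_sub]
  have h := tendsto_zero_of_small (f := fun m : ℕ => gm g⁻¹ ^ (p ^ m) - 1) (fun t => by
    filter_upwards [e3_small g N hg t] with m hm
    rw [hz m]
    have := ((small_gm g⁻¹).pow (p ^ m)).mul hm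
    rw [zero_add] at this
    exact this.neg)
  have h2 := h.add_const (1 : MQ p ι)
  rw [zero_add] at h2
  refine h2.congr fun m => ?_
  simp

theorem ell_pow (g : GLZ p ι) (N : ℕ) (hg : Deep 2 N g) (k : ℕ) :
    ell (g ^ k) = (k : ℚ_[p]) • ell g := by
  refine ell_eq_of_tendsto _ _ ?_
  have h1 := (ell_tendsto g N hg).1
  have h2 := e3_tendsto_one g N hg
  have h3 : Filter.Tendsto (fun m : ℕ => ∑ i ∈ Finset.range k, (gm g ^ (p ^ m)) ^ i) Filter.atTop
      (nhds (∑ i ∈ Finset.range k, (1 : MQ p ι) ^ i)) :=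
    tendsto_finsetSum _ fun i _ => h2.pow i
  have h4 := h3.mul h1
  have e : (∑ i ∈ Finset.range k, (1 : MQ p ι) ^ i) * ell g = (k : ℚ_[p]) • ell g := by
    simp [← Nat.cast_smul_eq_nsmul ℚ_[p]]
  rw [e] at h4
  refine h4.congr fun m => ?_
  rw [mul_smul_comm, geom_sum_mul, gm_pow, ← pow_mul, ← pow_mul, mul_comm k]

theorem ell_inv (g : GLZ p ι) (N : ℕ) (hg : Deep 2 N g) : ell g⁻¹ = -ell g := by
  refine ell_eq_of_tendsto _ _ ?_
  have h1 := (ell_tendsto g N hg).1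
  have h2 := e3_tendsto_inv g N hg
  have h4 := (h2.mul h1).neg
  rw [one_mul] at h4
  have hcomm : Commute (gm g⁻¹) (gm g) := by
    show gm g⁻¹ * gm g = gm g * gm g⁻¹
    rw [gm_inv_mul_gm, gm_mul_gm_inv]
  refine h4.congr fun m => ?_
  rw [mul_smul_comm, ← smul_neg, mul_sub, ← hcomm.mul_pow, gm_inv_mul_gm, one_pow, mul_one, neg_sub]

theorem ell_conj (g h : GLZ p ι) (N : ℕ) (hg : Deep 2 N g) :
    ell (h * g * h⁻¹) = gm h * ell g * gm h⁻¹ := by
  refine ell_eq_of_tendsto _ _ ?_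
  have h1 := (ell_tendsto g N hg).1
  have h4 := (h1.const_mul (gm h)).mul_const (gm h⁻¹)
  refine h4.congr fun m => ?_
  have e : gm (h * g * h⁻¹) ^ (p ^ m) = gm h * gm g ^ (p ^ m) * gm h⁻¹ := by
    rw [← gm_pow, conj_pow, gm_mul, gm_mul, gm_pow]
  rw [e, mul_smul_comm, smul_mul_assoc, mul_sub, sub_mul, mul_one, gm_mul_gm_inv]

/-- `ell g` commutes with `g` -/
theorem ell_comm (g : GLZ p ι) (N : ℕ) (hg : Deep 2 N g) : gm g * ell g = ell g * gm g := by
  have h1 := (ell_tendsto g N hg).1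
  have h2 := h1.const_mul (gm g)
  have h3 := h1.mul_const (gm g)
  refine tendsto_nhds_unique h2 (h3.congr fun m => ?_)
  rw [mul_smul_comm, smul_mul_assoc, mul_sub, sub_mul, mul_one, one_mul, (Commute.refl (gm g)).pow_left
    (p ^ m)]

end Pool.Agent.Lib.MP_ca71b5_nt
end

section

/-!
# Continuity of the logarithm and derivatives of conjugations
-/

set_option autoImplicit false

namespace Pool.Agent.Lib.MP_ca71b5_nt

variable {p : ℕ} [Fact p.Prime] {ι : Type} [Fintype ι] [DecidableEq ι]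

theorem ell_continuous {X : Type*} [TopologicalSpace X] (f : X → GLZ p ι) (hf : Continuous f)
    (N : ℕ) (hN : ∀ x, Deep 2 N (f x)) : Continuous fun x => ell (f x) := by
  refine continuous_matrix fun i j => ?_
  have hF : ∀ m : ℕ, Continuous fun x => (((p : ℚ_[p]) ^ m)⁻¹ • (gm (f x) ^ (p ^ m) - 1)) i j := by
    intro m
    have h0 : Continuous fun x => gm (f x) := continuous_gm.comp hf
    have h1 : Continuous fun x => ((p : ℚ_[p]) ^ m)⁻¹ • (gm (f x) ^ (p ^ m) - 1) :=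
      Continuous.const_smul ((h0.pow (p ^ m)).sub continuous_const) ((p : ℚ_[p]) ^ m)⁻¹
    exact h1.matrix_elem i j
  refine TendstoUniformly.continuous (F := fun (m : ℕ) x =>
    (((p : ℚ_[p]) ^ m)⁻¹ • (gm (f x) ^ (p ^ m) - 1)) i j) (p := Filter.atTop) ?_
    (Filter.Frequently.of_forall hF)
  rw [Metric.tendstoUniformly_iff]
  intro ε hε
  obtain ⟨n, hn⟩ := PadicInt.exists_pow_neg_lt p hε
  filter_upwards [Filter.eventually_ge_atTop (2 * N + n)] with m hm x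
  obtain ⟨-, h2, -⟩ := ell_tendsto (f x) N (hN x)
  have h3 := ((h2 m (by omega)).p_inv_smul m).mono (s := (n : ℤ)) (by omega)
  have h4 := h3 i j
  have hp : ((p : ℚ_[p]) ^ m) ≠ 0 := pow_ne_zero _ (by exact_mod_cast (Fact.out : p.Prime).ne_zero)
  have e : ((p : ℚ_[p]) ^ m)⁻¹ • (gm (f x) ^ (p ^ m) - 1 - ((p : ℚ_[p]) ^ m) • ell (f x)) =
      ((p : ℚ_[p]) ^ m)⁻¹ • (gm (f x) ^ (p ^ m) - 1) - ell (f x) := by
    rw [smul_sub, inv_smul_smul₀ hp]
  rw [e, Matrix.sub_apply] at h4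
  rw [dist_comm, dist_eq_norm]
  exact h4.trans_lt hn

private theorem e7_small (g : GLZ p ι) (N : ℕ) (hg : Deep 2 N g) (t : ℤ) :
    ∀ᶠ m : ℕ in Filter.atTop, Small t (gm g ^ (p ^ m) - 1) := by
  obtain ⟨-, h2, h3⟩ := ell_tendsto g N hg
  filter_upwards [Filter.eventually_ge_atTop (N + t.toNat)] with m hm
  have e : gm g ^ (p ^ m) - 1 = (gm g ^ (p ^ m) - 1 - ((p : ℚ_[p]) ^ m) • ell g) +
      ((p : ℚ_[p]) ^ m) • ell g := by abel
  rw [e]
  refine Small.add ((h2 m (by omega)).mono ?_) ((h3.p_smul m).mono ?_)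
  · omega
  · omega

private theorem e7_tendsto_inv (g : GLZ p ι) (N : ℕ) (hg : Deep 2 N g) :
    Filter.Tendsto (fun m : ℕ => gm g⁻¹ ^ (p ^ m)) Filter.atTop (nhds 1) := by
  have hcomm : Commute (gm g⁻¹) (gm g) := by
    show gm g⁻¹ * gm g = gm g * gm g⁻¹
    rw [gm_inv_mul_gm, gm_mul_gm_inv]
  have hz : ∀ m : ℕ, gm g⁻¹ ^ (p ^ m) - 1 = -(gm g⁻¹ ^ (p ^ m) * (gm g ^ (p ^ m) - 1)) := by
    intro m
    rw [mul_sub, ← hcomm.mul_pow, gm_inv_mul_gm, one_pow, mul_one, neg_sub]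
  have h := tendsto_zero_of_small (f := fun m : ℕ => gm g⁻¹ ^ (p ^ m) - 1) (fun t => by
    filter_upwards [e7_small g N hg t] with m hm
    rw [hz m]
    have := ((small_gm g⁻¹).pow (p ^ m)).mul hm
    rw [zero_add] at this
    exact this.neg)
  have h2 := h.add_const (1 : MQ p ι)
  rw [zero_add] at h2
  refine h2.congr fun m => ?_
  simp

/-- the derivative of the conjugation with `g` is the bracket with `ell g` -/
theorem conj_tendsto (g : GLZ p ι) (N : ℕ) (hg : Deep 2 N g) (x : MQ p ι) :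
    Filter.Tendsto
      (fun m : ℕ => ((p : ℚ_[p]) ^ m)⁻¹ • (gm g ^ (p ^ m) * x * gm g⁻¹ ^ (p ^ m) - x))
      Filter.atTop (nhds (ell g * x - x * ell g)) := by
  have h1 := (ell_tendsto g N hg).1
  have h2 := e7_tendsto_inv g N hg
  have h3 := ((h1.mul_const x).sub (h1.const_mul x)).mul h2
  rw [mul_one] at h3
  have hcomm : Commute (gm g) (gm g⁻¹) := by
    show gm g * gm g⁻¹ = gm g⁻¹ * gm g
    rw [gm_inv_mul_gm, gm_mul_gm_inv]
  refine h3.congr fun m => ?_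
  have e : gm g ^ (p ^ m) * gm g⁻¹ ^ (p ^ m) = 1 := by
    rw [← hcomm.mul_pow, gm_mul_gm_inv, one_pow]
  rw [smul_mul_assoc, mul_smul_comm, ← smul_sub, smul_mul_assoc]
  congr 1
  rw [sub_mul, sub_mul, mul_sub, sub_mul, sub_mul, mul_assoc x (gm g ^ (p ^ m)), e]
  simp

end Pool.Agent.Lib.MP_ca71b5_nt
end
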