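import Mathlib
import Pool.Agent.Lib.MP_ca71b5_nt.E7

section

/-!
# The span of the logarithms is a Lie algebra
-/

set_option autoImplicit false

namespace Pool.Agent.Lib.MP_ca71b5_nt

variable {p : ℕ} [Fact p.Prime] {ι : Type} [Fintype ι] [DecidableEq ι]
  {Γ : Type} [Group Γ] [TopologicalSpace Γ] [IsTopologicalGroup Γ] [CompactSpace Γ]


attribute [local instance 100] LieRing.ofAssociativeRing

theorem conj_mem_logSpan (ρ : Γ →* GLZ p ι) (N : ℕ) (hN : ∀ g : Γ, Deep 2 N (ρ g)) (g : Γ)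
    (x : MQ p ι) (hx : x ∈ logSpan ρ) : gm (ρ g) * x * gm (ρ g)⁻¹ ∈ logSpan ρ := by
  unfold logSpan at hx ⊢
  induction hx using Submodule.span_induction with
  | mem x hx =>
    obtain ⟨h, rfl⟩ := hx
    refine Submodule.subset_span ⟨g * h * g⁻¹, ?_⟩
    have := ell_conj (ρ h) (ρ g) N (hN h)
    simp only [map_mul, map_inv]
    exact this
  | zero => simp
  | add x y _ _ hx hy =>
    rw [mul_add, add_mul]
    exact Submodule.add_mem _ hx hy
  | smul a x _ hx =>
    rw [mul_smul_comm, smul_mul_assoc]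
    exact Submodule.smul_mem _ _ hx

theorem LI1_bracket (ρ : Γ →* GLZ p ι) (N : ℕ) (hN : ∀ g : Γ, Deep 2 N (ρ g)) (g : Γ)
    (x : MQ p ι) (hx : x ∈ logSpan ρ) : ell (ρ g) * x - x * ell (ρ g) ∈ logSpan ρ := by
  have hclosed : IsClosed (logSpan ρ : Set (MQ p ι)) := Submodule.closed_of_finiteDimensional _
  refine hclosed.mem_of_tendsto (conj_tendsto (ρ g) N (hN g) x)
    (Filter.Eventually.of_forall fun m => ?_)
  refine Submodule.smul_mem _ _ (Submodule.sub_mem _ ?_ hx)
  have := conj_mem_logSpan ρ N hN (g ^ (p ^ m)) x hx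
  rw [map_pow, gm_pow, ← inv_pow, gm_pow] at this
  exact this

theorem LI1_closed (ρ : Γ →* GLZ p ι) (N : ℕ) (hN : ∀ g : Γ, Deep 2 N (ρ g))
    (y x : MQ p ι) (hy : y ∈ logSpan ρ) (hx : x ∈ logSpan ρ) : y * x - x * y ∈ logSpan ρ := by
  unfold logSpan at hy
  induction hy using Submodule.span_induction with
  | mem y hy =>
    obtain ⟨g, rfl⟩ := hy
    exact LI1_bracket ρ N hN g x hx
  | zero => simp
  | add a b _ _ ha hb =>
    have : (a + b) * x - x * (a + b) = (a * x - x * a) + (b * x - x * b) := by noncomm_ring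
    rw [this]
    exact Submodule.add_mem _ ha hb
  | smul c a _ ha =>
    have : (c • a) * x - x * (c • a) = c • (a * x - x * a) := by
      rw [smul_mul_assoc, mul_smul_comm, smul_sub]
    rw [this]
    exact Submodule.smul_mem _ _ ha

theorem gg_eq_logSpan (ρ : Γ →* GLZ p ι) (N : ℕ) (hN : ∀ g : Γ, Deep 2 N (ρ g)) :
    (gg ρ).toSubmodule = logSpan ρ := by
  apply le_antisymm
  · let K : LieSubalgebra ℚ_[p] (MQ p ι) :=
      { logSpan ρ with
        lie_mem' := by
          intro y x hy hx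
          show ⁅y, x⁆ ∈ logSpan ρ
          rw [LieRing.of_associative_ring_bracket]
          exact LI1_closed ρ N hN y x hy hx }
    have hK : gg ρ ≤ K := by
      unfold gg
      rw [LieSubalgebra.lieSpan_le]
      rintro _ ⟨g, rfl⟩
      show ell (ρ g) ∈ logSpan ρ
      exact Submodule.subset_span ⟨g, rfl⟩
    intro x hx
    exact hK hx
  · unfold logSpan
    rw [Submodule.span_le]
    rintro _ ⟨g, rfl⟩
    exact LieSubalgebra.subset_lieSpan ⟨g, rfl⟩

end Pool.Agent.Lib.MP_ca71b5_nt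
end

section

/-!
# The automorphism of the Lie algebra
-/

set_option autoImplicit false

namespace Pool.Agent.Lib.MP_ca71b5_nt

variable {p : ℕ} [Fact p.Prime] {ι : Type} [Fintype ι] [DecidableEq ι]
  {Γ : Type} [Group Γ] [TopologicalSpace Γ] [IsTopologicalGroup Γ] [CompactSpace Γ]


attribute [local instance 100] LieRing.ofAssociativeRing

/-- conjugation by `P` on matrices -/
noncomputable def cj (P : GLZ p ι) : MQ p ι →ₗ[ℚ_[p]] MQ p ι where
  toFun := fun x => gm P * x * gm P⁻¹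
  map_add' := by
    intro x y
    rw [mul_add, add_mul]
  map_smul' := by
    intro c x
    rw [RingHom.id_apply, mul_smul_comm, smul_mul_assoc]

theorem cj_apply (P : GLZ p ι) (x : MQ p ι) : cj P x = gm P * x * gm P⁻¹ := rfl

theorem cj_cj (P Q : GLZ p ι) (x : MQ p ι) : cj P (cj Q x) = cj (P * Q) x := by
  simp only [cj_apply, mul_inv_rev, gm_mul, mul_assoc]

theorem cj_one (x : MQ p ι) : cj (1 : GLZ p ι) x = x := by
  simp [cj_apply]

theorem cj_iterate (P : GLZ p ι) (n : ℕ) (x : MQ p ι) : (cj P)^[n] x = cj (P ^ n) x := by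
  induction n with
  | zero => simp [cj_one]
  | succ n ih => rw [Function.iterate_succ_apply', ih, cj_cj, pow_succ']

theorem cj_mul (P : GLZ p ι) (x y : MQ p ι) : cj P (x * y) = cj P x * cj P y := by
  simp only [cj_apply]
  calc gm P * (x * y) * gm P⁻¹ = gm P * x * 1 * y * gm P⁻¹ := by simp only [mul_assoc, one_mul]
    _ = gm P * x * (gm P⁻¹ * gm P) * y * gm P⁻¹ := by rw [gm_inv_mul_gm]
    _ = gm P * x * gm P⁻¹ * (gm P * y * gm P⁻¹) := by simp only [mul_assoc]

theorem cj_lie (P : GLZ p ι) (x y : MQ p ι) : cj P ⁅x, y⁆ = ⁅cj P x, cj P y⁆ := by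
  rw [LieRing.of_associative_ring_bracket, LieRing.of_associative_ring_bracket, map_sub, cj_mul,
    cj_mul]

theorem exists_auto (ρ : Γ →* GLZ p ι) (N : ℕ) (hN : ∀ g : Γ, Deep 2 N (ρ g)) (l : ℕ)
    (φ : Γ →* Γ) (P : GLZ p ι) (hP : P ^ l = 1) (hφ : ∀ g : Γ, ρ (φ g) = P * ρ g * P⁻¹)
    (hl : 0 < l) :
    ∃ T : gg ρ ≃ₗ⁅ℚ_[p]⁆ gg ρ, (∀ x : gg ρ, ((T x : gg ρ) : MQ p ι) = gm P * x * gm P⁻¹) ∧
      ∀ x : gg ρ, T^[l] x = x := by
  have hmem : ∀ x : MQ p ι, x ∈ gg ρ → cj P x ∈ gg ρ := by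
    intro x hx
    rw [← LieSubalgebra.mem_toSubmodule, gg_eq_logSpan ρ N hN] at hx ⊢
    unfold logSpan at hx ⊢
    induction hx using Submodule.span_induction with
    | mem x h =>
      obtain ⟨g, rfl⟩ := h
      apply Submodule.subset_span
      refine ⟨φ g, ?_⟩
      show ell (ρ (φ g)) = cj P (ell (ρ g))
      rw [hφ, cj_apply]
      exact ell_conj (ρ g) P N (hN g)
    | zero => rw [map_zero]; exact Submodule.zero_mem _
    | add x y _ _ h1 h2 => rw [map_add]; exact Submodule.add_mem _ h1 h2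
    | smul c x _ h => rw [map_smul]; exact Submodule.smul_mem _ _ h
  have hpow : ∀ n : ℕ, ∀ x : MQ p ι, x ∈ gg ρ → cj (P ^ n) x ∈ gg ρ := by
    intro n
    induction n with
    | zero => intro x hx; rw [pow_zero, cj_one]; exact hx
    | succ n ih => intro x hx; rw [pow_succ', ← cj_cj]; exact hmem _ (ih x hx)
  let T : gg ρ ≃ₗ⁅ℚ_[p]⁆ gg ρ :=
    { toFun := fun x => ⟨cj P x, hmem x x.2⟩
      invFun := fun x => ⟨cj (P ^ (l - 1)) x, hpow (l - 1) x x.2⟩
      map_add' := by
        intro x y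
        apply Subtype.ext
        show cj P ((x : MQ p ι) + y) = cj P x + cj P y
        exact map_add _ _ _
      map_smul' := by
        intro c x
        apply Subtype.ext
        show cj P (c • (x : MQ p ι)) = c • cj P x
        exact map_smul _ _ _
      map_lie' := by
        intro x y
        apply Subtype.ext
        show cj P (⁅(x : MQ p ι), (y : MQ p ι)⁆) = ⁅cj P x, cj P y⁆
        exact cj_lie _ _ _
      left_inv := by
        intro x
        apply Subtype.ext
        show cj (P ^ (l - 1)) (cj P (x : MQ p ι)) = x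
        rw [cj_cj, ← pow_succ, Nat.sub_add_cancel hl, hP, cj_one]
      right_inv := by
        intro x
        apply Subtype.ext
        show cj P (cj (P ^ (l - 1)) (x : MQ p ι)) = x
        rw [cj_cj, ← pow_succ', Nat.sub_add_cancel hl, hP, cj_one] }
  have hT : ∀ x : gg ρ, ((T x : gg ρ) : MQ p ι) = cj P x := fun x => rfl
  refine ⟨T, fun x => rfl, ?_⟩
  intro x
  have hit : ∀ n : ℕ, (((T^[n] x : gg ρ)) : MQ p ι) = (cj P)^[n] (x : MQ p ι) := by
    intro n
    induction n with
    | zero => rfl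
    | succ n ih => rw [Function.iterate_succ_apply', Function.iterate_succ_apply', hT, ih]
  apply Subtype.ext
  rw [hit, cj_iterate, hP, cj_one]

end Pool.Agent.Lib.MP_ca71b5_nt
end
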