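import Mathlib
import Pool.Agent.Lib.MP_ca71b5_nt.Base
import Pool.Agent.Lib.MP_ca71b5_nt.E7
import Pool.Agent.Lib.MP_ca71b5_nt.LI2

section

section

/-!
# An index inequality for lattices
-/

set_option autoImplicit false

namespace Pool.Agent.Lib.MP_ca71b5_nt

variable {p : ℕ} [Fact p.Prime]

/-- a basis of a lattice -/
private theorem pa_basis {V : Type*} [AddCommGroup V] [Module ℚ_[p] V]
    (Λ : AddSubgroup V) (hsmul : ∀ (c : ℤ_[p]) (x : V), x ∈ Λ → (c : ℚ_[p]) • x ∈ Λ)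
    (hfg : ∃ s : Finset V, ∀ x ∈ Λ, ∃ c : V → ℤ_[p], x = ∑ v ∈ s, (c v : ℚ_[p]) • v) :
    ∃ (r : ℕ) (b : Fin r → V), (∀ i, b i ∈ Λ) ∧
      (∀ x ∈ Λ, ∃ c : Fin r → ℤ_[p], x = ∑ i, (c i : ℚ_[p]) • b i) ∧
      (∀ c : Fin r → ℤ_[p], ∑ i, (c i : ℚ_[p]) • b i = 0 → ∀ i, c i = 0) := by
  classical
  let : Module ℤ_[p] V := Module.compHom V (algebraMap ℤ_[p] ℚ_[p])
  have hdef : ∀ (c : ℤ_[p]) (x : V), c • x = (c : ℚ_[p]) • x := fun c x => rfl
  let M : Submodule ℤ_[p] V :=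
    { carrier := Λ
      add_mem' := fun h1 h2 => Λ.add_mem h1 h2
      zero_mem' := Λ.zero_mem
      smul_mem' := fun c x hx => hsmul c x hx }
  obtain ⟨s, hs⟩ := hfg
  have hle : M ≤ Submodule.span ℤ_[p] (s : Set V) := by
    intro x hx
    obtain ⟨c, hc⟩ := hs x hx
    rw [hc]
    refine Submodule.sum_mem _ fun v hv => ?_
    exact Submodule.smul_mem _ (c v) (Submodule.subset_span hv)
  have hN : IsNoetherian ℤ_[p] (Submodule.span ℤ_[p] (s : Set V)) :=
    isNoetherian_span_of_finite ℤ_[p] s.finite_toSet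
  have hMfg : M.FG := Submodule.FG.of_le_of_isNoetherian hle
  have hfin : Module.Finite ℤ_[p] M := Module.Finite.iff_fg.mpr hMfg
  have htf : Module.IsTorsionFree ℤ_[p] M := by
    refine ⟨fun r hr x y hxy => ?_⟩
    have hr0 : (r : ℚ_[p]) ≠ 0 := by
      have := hr.ne_zero
      intro h
      exact this (Subtype.ext h)
    have h1 : (r : ℚ_[p]) • (x : V) = (r : ℚ_[p]) • (y : V) := congrArg (Submodule.subtype M) hxy
    exact Subtype.ext (smul_right_injective V hr0 h1)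
  have hfree : Module.Free ℤ_[p] M := Module.free_of_finite_type_torsion_free'
  let B := Module.finBasis ℤ_[p] M
  refine ⟨Module.finrank ℤ_[p] M, fun i => (B i : V), fun i => (B i).2, ?_, ?_⟩
  · intro x hx
    refine ⟨fun i => B.repr ⟨x, hx⟩ i, ?_⟩
    have h1 := B.sum_repr ⟨x, hx⟩
    have h2 := congrArg (Submodule.subtype M) h1
    rw [map_sum] at h2
    rw [eq_comm]
    refine Eq.trans (Finset.sum_congr rfl fun i _ => ?_) h2
    rw [map_smul]
    rfl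
  · intro c hc i
    have h1 : ∑ i, c i • B i = 0 := by
      apply Subtype.ext
      have h2 : ((∑ i, c i • B i : M) : V) = ∑ i, (c i : ℚ_[p]) • (B i : V) := by
        rw [Submodule.coe_sum]
        exact Finset.sum_congr rfl fun i _ => rfl
      rw [h2, hc]
      rfl
    exact (Fintype.linearIndependent_iff.mp B.linearIndependent) c h1 i

/-- every element of the span of a lattice is a fraction of an element of the lattice -/
private theorem pa_frac {V : Type*} [AddCommGroup V] [Module ℚ_[p] V]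
    (Λ : AddSubgroup V) (hsmul : ∀ (c : ℤ_[p]) (x : V), x ∈ Λ → (c : ℚ_[p]) • x ∈ Λ)
    (x : V) (hx : x ∈ Submodule.span ℚ_[p] (Λ : Set V)) :
    ∃ n : ℕ, ((p : ℚ_[p]) ^ n) • x ∈ Λ := by
  have hpow : ∀ (n : ℕ) (y : V), y ∈ Λ → ((p : ℚ_[p]) ^ n) • y ∈ Λ := by
    intro n y hy
    have := hsmul ((p : ℤ_[p]) ^ n) y hy
    push_cast at this
    exact this
  refine Submodule.span_induction (p := fun x _ => ∃ n : ℕ, ((p : ℚ_[p]) ^ n) • x ∈ Λ)
    ?_ ?_ ?_ ?_ hx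
  · intro y hy
    exact ⟨0, by rw [pow_zero, one_smul]; exact hy⟩
  · exact ⟨0, by rw [smul_zero]; exact Λ.zero_mem⟩
  · rintro y z _ _ ⟨n, hn⟩ ⟨m, hm⟩
    refine ⟨n + m, ?_⟩
    rw [smul_add]
    refine Λ.add_mem ?_ ?_
    · rw [pow_add, mul_comm, mul_smul]
      exact hpow m _ hn
    · rw [pow_add, mul_smul]
      exact hpow n _ hm
  · rintro c y _ ⟨n, hn⟩
    obtain ⟨m, hm⟩ : ∃ m : ℕ, ‖(p : ℚ_[p]) ^ m * c‖ ≤ 1 := by
      obtain ⟨m, hm⟩ := pow_unbounded_of_one_lt ‖c‖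
        (by exact_mod_cast (Fact.out (p := p.Prime)).one_lt : (1 : ℝ) < (p : ℝ))
      refine ⟨m, ?_⟩
      rw [norm_mul, norm_pow, Padic.norm_p, inv_pow]
      have hpos : (0 : ℝ) < (p : ℝ) ^ m := by
        have := (Fact.out (p := p.Prime)).pos
        positivity
      rw [inv_mul_le_iff₀ hpos, mul_one]
      exact hm.le
    refine ⟨m + n, ?_⟩
    have := hsmul ⟨(p : ℚ_[p]) ^ m * c, hm⟩ _ hn
    have e : ((p : ℚ_[p]) ^ (m + n)) • c • y = ((p : ℚ_[p]) ^ m * c) • (p : ℚ_[p]) ^ n • y := by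
      rw [smul_smul, smul_smul]
      congr 1
      ring
    rw [e]
    exact this

private theorem pa_mod (x : ℤ_[p]) : ∃ n : ZMod p, ∃ y : ℤ_[p], x = (n.val : ℤ_[p]) + (p : ℤ_[p]) * y := by
  obtain ⟨n, hn, h⟩ := PadicInt.exists_mem_range x
  rw [PadicInt.maximalIdeal_eq_span_p, Ideal.mem_span_singleton] at h
  obtain ⟨y, hy⟩ := h
  refine ⟨(n : ZMod p), y, ?_⟩
  rw [ZMod.val_natCast, Nat.mod_eq_of_lt hn, ← hy]
  ring

private theorem pa_mod_inj (m n : ZMod p) (y : ℤ_[p])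
    (h : ((m.val : ℤ_[p]) - (n.val : ℤ_[p])) = (p : ℤ_[p]) * y) : m = n := by
  have h1 := congrArg (PadicInt.toZMod (p := p)) h
  rw [map_sub, map_mul, map_natCast, map_natCast, map_natCast, ZMod.natCast_self, zero_mul,
    ZMod.natCast_zmod_val, ZMod.natCast_zmod_val] at h1
  exact sub_eq_zero.mp h1

theorem lattice_index {V : Type*} [AddCommGroup V] [Module ℚ_[p] V] [FiniteDimensional ℚ_[p] V]
    (Λ : AddSubgroup V) (hsmul : ∀ (c : ℤ_[p]) (x : V), x ∈ Λ → (c : ℚ_[p]) • x ∈ Λ)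
    (hfg : ∃ s : Finset V, ∀ x ∈ Λ, ∃ c : V → ℤ_[p], x = ∑ v ∈ s, (c v : ℚ_[p]) • v)
    (T : V →ₗ[ℚ_[p]] V) (hT : ∀ x ∈ Λ, T x ∈ Λ) (Λ' : AddSubgroup V)
    (hΛ' : ∀ x : V, x ∈ Λ' ↔ ∃ y ∈ Λ, ∃ z ∈ Λ, x = T y - y + (p : ℚ_[p]) • z) :
    p ^ Module.finrank ℚ_[p]
      (Submodule.span ℚ_[p] (Λ : Set V) ⊓ LinearMap.ker (T - LinearMap.id) : Submodule ℚ_[p] V) ≤
      Λ'.relIndex Λ := by
  classical
  have hp0 : (p : ℚ_[p]) ≠ 0 := by
    exact_mod_cast (Fact.out (p := p.Prime)).ne_zero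
  obtain ⟨d, b, hb, hbs, -⟩ := pa_basis Λ hsmul hfg
  let U : AddSubgroup V := Λ ⊓ (LinearMap.ker (T - LinearMap.id)).toAddSubgroup
  have hUmem : ∀ x, x ∈ U ↔ x ∈ Λ ∧ T x = x := by
    intro x
    show x ∈ Λ ∧ x ∈ LinearMap.ker (T - LinearMap.id) ↔ _
    rw [LinearMap.mem_ker, LinearMap.sub_apply, LinearMap.id_apply, sub_eq_zero]
  obtain ⟨r, u, hu, hus, hui⟩ := pa_basis U (by
    intro c x hx
    rw [hUmem] at hx ⊢
    exact ⟨hsmul c x hx.1, by rw [map_smul, hx.2]⟩) (by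
    obtain ⟨s, hs⟩ := hfg
    exact ⟨s, fun x hx => hs x ((hUmem x).mp hx).1⟩)
  -- the rank of `U`
  have hrank : Module.finrank ℚ_[p]
      (Submodule.span ℚ_[p] (Λ : Set V) ⊓ LinearMap.ker (T - LinearMap.id) : Submodule ℚ_[p] V) ≤
      r := by
    have hle : (Submodule.span ℚ_[p] (Λ : Set V) ⊓ LinearMap.ker (T - LinearMap.id) :
        Submodule ℚ_[p] V) ≤ Submodule.span ℚ_[p] (Set.range u) := by
      rintro x ⟨hx1, hx2⟩
      obtain ⟨n, hn⟩ := pa_frac Λ hsmul x hx1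
      have hx2' : T x = x := by
        have h : x ∈ LinearMap.ker (T - LinearMap.id) := hx2
        rwa [LinearMap.mem_ker, LinearMap.sub_apply, LinearMap.id_apply, sub_eq_zero] at h
      have hxU : ((p : ℚ_[p]) ^ n) • x ∈ U := by
        rw [hUmem]
        exact ⟨hn, by rw [map_smul, hx2']⟩
      obtain ⟨c, hc⟩ := hus _ hxU
      have h1 : ((p : ℚ_[p]) ^ n) • x ∈ Submodule.span ℚ_[p] (Set.range u) := by
        rw [hc]
        exact Submodule.sum_mem _ fun i _ =>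
          Submodule.smul_mem _ _ (Submodule.subset_span ⟨i, rfl⟩)
      have h2 := Submodule.smul_mem _ (((p : ℚ_[p]) ^ n)⁻¹) h1
      rwa [smul_smul, inv_mul_cancel₀ (pow_ne_zero n hp0), one_smul] at h2
    calc _ ≤ Module.finrank ℚ_[p] (Submodule.span ℚ_[p] (Set.range u)) :=
          Submodule.finrank_mono hle
      _ ≤ Fintype.card (Fin r) := finrank_range_le_card u
      _ = r := Fintype.card_fin r
  refine (Nat.pow_le_pow_right (Fact.out (p := p.Prime)).pos hrank).trans ?_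
  -- the groups
  let pL : AddSubgroup Λ := (nsmulAddMonoidHom (α := Λ) p).range
  let N : Λ →+ Λ :=
    { toFun := fun x => ⟨T x - x, Λ.sub_mem (hT _ x.2) x.2⟩
      map_zero' := by
        apply Subtype.ext
        show T ((0 : Λ) : V) - ((0 : Λ) : V) = 0
        simp
      map_add' := by
        intro x y
        apply Subtype.ext
        show T ((x + y : Λ) : V) - ((x + y : Λ) : V) = (T x - x) + (T y - y)
        push_cast
        rw [map_add]
        abel }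
  have hNdef : ∀ x : Λ, ((N x : Λ) : V) = T x - x := fun x => rfl
  have hpL : ∀ x : Λ, x ∈ pL ↔ ∃ z : Λ, (x : V) = (p : ℚ_[p]) • (z : V) := by
    intro x
    constructor
    · rintro ⟨z, hz⟩
      refine ⟨z, ?_⟩
      rw [← hz]
      show ((p • z : Λ) : V) = _
      rw [AddSubgroup.coe_nsmul, Nat.cast_smul_eq_nsmul]
    · rintro ⟨z, hz⟩
      refine ⟨z, Subtype.ext ?_⟩
      show ((p • z : Λ) : V) = _
      rw [AddSubgroup.coe_nsmul, hz, Nat.cast_smul_eq_nsmul]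
  have hmap : pL ≤ pL.comap N := by
    intro x hx
    rw [AddSubgroup.mem_comap, hpL]
    obtain ⟨z, hz⟩ := (hpL x).mp hx
    refine ⟨N z, ?_⟩
    rw [hNdef, hNdef, hz, map_smul, smul_sub]
  let Nb : Λ ⧸ pL →+ Λ ⧸ pL := QuotientAddGroup.map pL pL N hmap
  -- finiteness
  have hfinite : Finite (Λ ⧸ pL) := by
    have hsurj : Function.Surjective (fun c : Fin d → ZMod p =>
        ((∑ i, (c i).val • (⟨b i, hb i⟩ : Λ) : Λ) : Λ ⧸ pL)) := by
      intro w
      obtain ⟨x, rfl⟩ := QuotientAddGroup.mk_surjective w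
      obtain ⟨a, ha⟩ := hbs x x.2
      choose n y hny using fun i => pa_mod (a i)
      refine ⟨n, ?_⟩
      rw [QuotientAddGroup.eq, hpL]
      refine ⟨⟨∑ i, (y i : ℚ_[p]) • b i, Λ.sum_mem fun i _ => hsmul _ _ (hb i)⟩, ?_⟩
      have e1 : ((∑ i, (n i).val • (⟨b i, hb i⟩ : Λ) : Λ) : V) =
          ∑ i, ((n i).val : ℚ_[p]) • b i := by
        rw [AddSubgroup.val_finsetSum]
        refine Finset.sum_congr rfl fun i _ => ?_
        rw [AddSubgroup.coe_nsmul, Nat.cast_smul_eq_nsmul]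
      rw [AddSubgroup.coe_add, AddSubgroup.coe_neg, e1, ha, Finset.smul_sum, neg_add_eq_sub,
        ← Finset.sum_sub_distrib]
      refine Finset.sum_congr rfl fun i _ => ?_
      rw [← sub_smul, smul_smul]
      congr 1
      rw [hny i]
      push_cast
      ring
    exact Finite.of_surjective _ hsurj
  -- many elements of the kernel
  have hker : p ^ r ≤ Nat.card Nb.ker := by
    have hUL : ∀ i, u i ∈ Λ := fun i => ((hUmem _).mp (hu i)).1
    have hUT : ∀ i, T (u i) = u i := fun i => ((hUmem _).mp (hu i)).2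
    let F : (Fin r → ZMod p) → Λ := fun c => ∑ i, (c i).val • (⟨u i, hUL i⟩ : Λ)
    have hF : ∀ c, ((F c : Λ) : V) = ∑ i, ((c i).val : ℚ_[p]) • u i := by
      intro c
      show ((∑ i, (c i).val • (⟨u i, hUL i⟩ : Λ) : Λ) : V) = _
      rw [AddSubgroup.val_finsetSum]
      refine Finset.sum_congr rfl fun i _ => ?_
      rw [AddSubgroup.coe_nsmul, Nat.cast_smul_eq_nsmul]
    have hFT : ∀ c, T (F c) = F c := by
      intro c
      rw [hF, map_sum]
      exact Finset.sum_congr rfl fun i _ => by rw [map_smul, hUT]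
    have hmem : ∀ c, ((F c : Λ) : Λ ⧸ pL) ∈ Nb.ker := by
      intro c
      rw [AddMonoidHom.mem_ker]
      show ((N (F c) : Λ) : Λ ⧸ pL) = 0
      have : N (F c) = 0 := by
        apply Subtype.ext
        rw [hNdef, hFT, sub_self]
        rfl
      rw [this]
      rfl
    have hinj : Function.Injective (fun c : Fin r → ZMod p =>
        (⟨((F c : Λ) : Λ ⧸ pL), hmem c⟩ : Nb.ker)) := by
      intro c c' h
      have h1 : ((F c : Λ) : Λ ⧸ pL) = ((F c' : Λ) : Λ ⧸ pL) := congrArg Subtype.val h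
      rw [eq_comm, QuotientAddGroup.eq, hpL] at h1
      obtain ⟨z, hz⟩ := h1
      rw [AddSubgroup.coe_add, AddSubgroup.coe_neg, hF, hF, neg_add_eq_sub,
        ← Finset.sum_sub_distrib] at hz
      have hzT : T z = z := by
        have h2 : T ((p : ℚ_[p]) • (z : V)) = (p : ℚ_[p]) • (z : V) := by
          rw [← hz, map_sum]
          exact Finset.sum_congr rfl fun i _ => by
            rw [map_sub, map_smul, map_smul, hUT]
        rw [map_smul] at h2
        exact smul_right_injective V hp0 h2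
      obtain ⟨a, ha⟩ := hus z ((hUmem _).mpr ⟨z.2, hzT⟩)
      funext i
      refine pa_mod_inj (c i) (c' i) (a i) ?_
      have h3 := hui (fun i => ((c i).val : ℤ_[p]) - ((c' i).val : ℤ_[p]) - (p : ℤ_[p]) * a i) (by
        have e : ∀ i, ((((c i).val : ℤ_[p]) - ((c' i).val : ℤ_[p]) - (p : ℤ_[p]) * a i : ℤ_[p]) :
            ℚ_[p]) • u i = (((c i).val : ℚ_[p]) • u i - ((c' i).val : ℚ_[p]) • u i) -
            (p : ℚ_[p]) • ((a i : ℚ_[p]) • u i) := by
          intro i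
          push_cast
          rw [sub_smul, sub_smul, mul_smul]
        rw [Finset.sum_congr rfl fun i _ => e i, Finset.sum_sub_distrib, hz, ha, Finset.smul_sum,
          sub_self]) i
      exact sub_eq_zero.mp h3
    have := Nat.card_le_card_of_injective _ hinj
    rwa [Nat.card_fun, Nat.card_zmod, Nat.card_fin] at this
  -- indices
  have h1 : Nb.range.index = Nat.card Nb.ker := by
    have e1 := AddSubgroup.card_mul_index Nb.range
    have e2 := AddSubgroup.card_mul_index Nb.ker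
    rw [AddSubgroup.index_ker] at e2
    have hpos : 0 < Nat.card Nb.range := Nat.card_pos
    have : Nat.card Nb.range * Nb.range.index = Nat.card Nb.range * Nat.card Nb.ker := by
      rw [e1, ← e2, mul_comm]
    exact Nat.eq_of_mul_eq_mul_left hpos this
  have h2 : Λ'.relIndex Λ = Nb.range.index := by
    rw [AddSubgroup.relIndex, ← AddSubgroup.index_comap_of_surjective Nb.range
      (QuotientAddGroup.mk'_surjective pL)]
    congr 1
    ext x
    rw [AddSubgroup.mem_addSubgroupOf, AddSubgroup.mem_comap, hΛ']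
    constructor
    · rintro ⟨y, hy, z, hz, hx⟩
      refine ⟨((⟨y, hy⟩ : Λ) : Λ ⧸ pL), ?_⟩
      show ((N ⟨y, hy⟩ : Λ) : Λ ⧸ pL) = ((x : Λ) : Λ ⧸ pL)
      rw [QuotientAddGroup.eq, hpL]
      refine ⟨⟨z, hz⟩, ?_⟩
      rw [AddSubgroup.coe_add, AddSubgroup.coe_neg, hNdef, hx]
      show -(T y - y) + (T y - y + (p : ℚ_[p]) • z) = (p : ℚ_[p]) • z
      abel
    · rintro ⟨w, hw⟩
      obtain ⟨y, rfl⟩ := QuotientAddGroup.mk_surjective w
      have hw' : ((N y : Λ) : Λ ⧸ pL) = ((x : Λ) : Λ ⧸ pL) := hw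
      rw [QuotientAddGroup.eq, hpL] at hw'
      obtain ⟨z, hz⟩ := hw'
      refine ⟨y, y.2, z, z.2, ?_⟩
      rw [← hz, AddSubgroup.coe_add, AddSubgroup.coe_neg, hNdef]
      abel
  rw [h2, h1]
  exact hker

end Pool.Agent.Lib.MP_ca71b5_nt
end

section

/-!
# The set of the logarithms is an additive group
-/

set_option autoImplicit false

namespace Pool.Agent.Lib.MP_ca71b5_nt

variable {p : ℕ} [Fact p.Prime] {ι : Type} [Fintype ι] [DecidableEq ι]
  {Γ : Type} [Group Γ] [TopologicalSpace Γ] [IsTopologicalGroup Γ] [CompactSpace Γ]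

theorem exists_ell_add (ρ : Γ →* GLZ p ι) (hρ : Continuous ρ) (N : ℕ)
    (hN : ∀ g : Γ, Deep 2 N (ρ g))
    (hmul : ∀ (k : ℕ) (g h : Γ), ∃ z : Γ, ρ g ^ (p ^ k) * ρ h ^ (p ^ k) = ρ z ^ (p ^ k))
    (g h : Γ) : ∃ z : Γ, ell (ρ z) = ell (ρ g) + ell (ρ h) := by
  have hp0 : (p : ℚ_[p]) ≠ 0 := by
    exact_mod_cast (Fact.out : p.Prime).ne_zero
  choose z hz using fun m => hmul m g h
  obtain ⟨hg1, -, -⟩ := ell_tendsto (ρ g) N (hN g)
  obtain ⟨hh1, hh2, hh3⟩ := ell_tendsto (ρ h) N (hN h)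
  -- the powers of `h` tend to one
  have hone : Filter.Tendsto (fun m : ℕ => gm (ρ h) ^ (p ^ m)) Filter.atTop (nhds 1) := by
    have h1 : Filter.Tendsto (fun m : ℕ => gm (ρ h) ^ (p ^ m) - 1) Filter.atTop (nhds 0) := by
      refine tendsto_zero_of_small fun t => ?_
      filter_upwards [Filter.eventually_ge_atTop (N + t.toNat)] with m hm
      have e : gm (ρ h) ^ (p ^ m) - 1 = (gm (ρ h) ^ (p ^ m) - 1 - ((p : ℚ_[p]) ^ m) • ell (ρ h)) +
          ((p : ℚ_[p]) ^ m) • ell (ρ h) := by abel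
      rw [e]
      refine Small.add ((hh2 m (by omega)).mono ?_) ((hh3.p_smul m).mono ?_)
      · omega
      · omega
    have h2 := h1.add_const (1 : MQ p ι)
    rw [zero_add] at h2
    refine h2.congr fun m => ?_
    simp
  have hlim1 : Filter.Tendsto
      (fun m : ℕ => ((p : ℚ_[p]) ^ m)⁻¹ • (gm (ρ (z m)) ^ (p ^ m) - 1)) Filter.atTop
      (nhds (ell (ρ g) + ell (ρ h))) := by
    have h1 := (hg1.mul hone).add hh1
    rw [mul_one] at h1
    refine h1.congr fun m => ?_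
    have e1 : gm (ρ (z m)) ^ (p ^ m) = gm (ρ g) ^ (p ^ m) * gm (ρ h) ^ (p ^ m) := by
      rw [← gm_pow, ← gm_pow, ← gm_pow, ← gm_mul, hz m]
    rw [e1, Matrix.smul_mul, ← smul_add]
    congr 1
    rw [sub_mul, one_mul]
    abel
  have hdiff : Filter.Tendsto
      (fun m : ℕ => ((p : ℚ_[p]) ^ m)⁻¹ • (gm (ρ (z m)) ^ (p ^ m) - 1) - ell (ρ (z m)))
      Filter.atTop (nhds 0) := by
    refine tendsto_zero_of_small fun t => ?_
    filter_upwards [Filter.eventually_ge_atTop (N + (t + 2 * N).toNat)] with m hm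
    obtain ⟨-, h2, -⟩ := ell_tendsto (ρ (z m)) N (hN (z m))
    have h3 := (h2 m (by omega)).p_inv_smul m
    have e1 : ((p : ℚ_[p]) ^ m)⁻¹ • (gm (ρ (z m)) ^ (p ^ m) - 1 -
        ((p : ℚ_[p]) ^ m) • ell (ρ (z m))) =
        ((p : ℚ_[p]) ^ m)⁻¹ • (gm (ρ (z m)) ^ (p ^ m) - 1) - ell (ρ (z m)) := by
      rw [smul_sub, smul_smul, inv_mul_cancel₀ (pow_ne_zero _ hp0), one_smul]
    rw [e1] at h3
    exact h3.mono (by omega)
  have hlim2 : Filter.Tendsto (fun m : ℕ => ell (ρ (z m))) Filter.atTop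
      (nhds (ell (ρ g) + ell (ρ h))) := by
    have h1 := hlim1.sub hdiff
    rw [sub_zero] at h1
    refine h1.congr fun m => ?_
    abel
  have hcl : IsClosed (Set.range fun x : Γ => ell (ρ x)) :=
    (isCompact_range (ell_continuous (fun x : Γ => ρ x) hρ N hN)).isClosed
  have hmem : ell (ρ g) + ell (ρ h) ∈ Set.range fun x : Γ => ell (ρ x) :=
    hcl.mem_of_tendsto hlim2 (Filter.Eventually.of_forall fun m => ⟨z m, rfl⟩)
  exact hmem

end Pool.Agent.Lib.MP_ca71b5_nt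
end

section

/-!
# The logarithm is additive modulo p times the logarithms
-/

set_option autoImplicit false

namespace Pool.Agent.Lib.MP_ca71b5_nt

variable {p : ℕ} [Fact p.Prime] {ι : Type} [Fintype ι] [DecidableEq ι]
  {Γ : Type} [Group Γ] [TopologicalSpace Γ] [IsTopologicalGroup Γ] [CompactSpace Γ]

omit [Fintype ι] in
/-- a sequence of matrices close to `1` tends to `1` -/
private theorem p2_tendsto_one {f : ℕ → MQ p ι}
    (h : ∀ t : ℤ, ∀ᶠ m : ℕ in Filter.atTop, Small t (f m - 1)) :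
    Filter.Tendsto f Filter.atTop (nhds 1) := by
  have h1 := tendsto_zero_of_small (f := fun m : ℕ => f m - 1) h
  have h2 := h1.add_const (1 : MQ p ι)
  rw [zero_add] at h2
  refine h2.congr fun m => ?_
  simp

/-- powers of varying deep elements are small, uniformly -/
private theorem p2_small (u : ℕ → GLZ p ι) (N : ℕ) (hu : ∀ m, Deep 2 N (u m)) (k : ℕ → ℕ)
    (hk : ∀ m, m ≤ k m) (t : ℤ) :
    ∀ᶠ m : ℕ in Filter.atTop, Small t (gm (u m) ^ (p ^ (k m)) - 1) := by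
  filter_upwards [Filter.eventually_ge_atTop (N + t.toNat)] with m hm
  obtain ⟨-, h2, h3⟩ := ell_tendsto (u m) N (hu m)
  have e : gm (u m) ^ (p ^ (k m)) - 1 = (gm (u m) ^ (p ^ (k m)) - 1 -
      ((p : ℚ_[p]) ^ (k m)) • ell (u m)) + ((p : ℚ_[p]) ^ (k m)) • ell (u m) := by abel
  have hkm := hk m
  rw [e]
  refine Small.add ((h2 (k m) (by omega)).mono ?_) ((h3.p_smul (k m)).mono ?_)
  · omega
  · omega

theorem exists_ell_mul (ρ : Γ →* GLZ p ι) (hρ : Continuous ρ) (N : ℕ)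
    (hN : ∀ g : Γ, Deep 2 N (ρ g))
    (hpow : ∀ (k : ℕ) (g h : Γ), ∃ z : Γ,
      (ρ g * ρ h) ^ (p ^ k) = ρ g ^ (p ^ k) * ρ h ^ (p ^ k) * ρ z ^ (p ^ (k + 1)))
    (g h : Γ) : ∃ z : Γ, ell (ρ (g * h)) = ell (ρ g) + ell (ρ h) + (p : ℚ_[p]) • ell (ρ z) := by
  have hp0 : (p : ℚ_[p]) ≠ 0 := by
    exact_mod_cast (Fact.out : p.Prime).ne_zero
  choose z hz using fun m => hpow m g h
  have hA : Filter.Tendsto (fun m : ℕ => gm (ρ g) ^ (p ^ m)) Filter.atTop (nhds 1) :=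
    p2_tendsto_one (p2_small (fun _ => ρ g) N (fun _ => hN g) (fun m => m) (fun _ => le_rfl))
  have hB : Filter.Tendsto (fun m : ℕ => gm (ρ h) ^ (p ^ m)) Filter.atTop (nhds 1) :=
    p2_tendsto_one (p2_small (fun _ => ρ h) N (fun _ => hN h) (fun m => m) (fun _ => le_rfl))
  have hD : Filter.Tendsto (fun m : ℕ => gm (ρ (z m)) ^ (p ^ (m + 1))) Filter.atTop (nhds 1) :=
    p2_tendsto_one (p2_small (fun m => ρ (z m)) N (fun m => hN (z m)) (fun m => m + 1)
      (fun m => Nat.le_succ m))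
  have hF := (ell_tendsto (ρ (g * h)) N (hN _)).1
  have hG := (ell_tendsto (ρ g) N (hN _)).1
  have hH := (ell_tendsto (ρ h) N (hN _)).1
  have h1 := (hF.sub (hG.mul (hB.mul hD))).sub (hH.mul hD)
  rw [mul_one, mul_one, mul_one] at h1
  -- the sequence is the last difference quotient
  have h2 : Filter.Tendsto (fun m : ℕ => ((p : ℚ_[p]) ^ m)⁻¹ • (gm (ρ (z m)) ^ (p ^ (m + 1)) - 1))
      Filter.atTop (nhds (ell (ρ (g * h)) - ell (ρ g) - ell (ρ h))) := by
    refine h1.congr fun m => ?_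
    have e : gm (ρ (g * h)) ^ (p ^ m) = gm (ρ g) ^ (p ^ m) * gm (ρ h) ^ (p ^ m) *
        gm (ρ (z m)) ^ (p ^ (m + 1)) := by
      rw [map_mul, ← gm_pow, hz m, gm_mul, gm_mul, gm_pow, gm_pow, gm_pow]
    rw [e, smul_mul_assoc, smul_mul_assoc, ← smul_sub, ← smul_sub]
    congr 1
    noncomm_ring
  have h3 : Filter.Tendsto (fun m : ℕ => ((p : ℚ_[p]) ^ m)⁻¹ • (gm (ρ (z m)) ^ (p ^ (m + 1)) - 1 -
      ((p : ℚ_[p]) ^ (m + 1)) • ell (ρ (z m)))) Filter.atTop (nhds 0) := by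
    refine tendsto_zero_of_small fun t => ?_
    filter_upwards [Filter.eventually_ge_atTop (2 * N + t.toNat)] with m hm
    have h4 := ((ell_tendsto (ρ (z m)) N (hN _)).2.1 (m + 1) (by omega)).p_inv_smul m
    refine h4.mono ?_
    push_cast
    omega
  have h4 : Filter.Tendsto (fun m : ℕ => (p : ℚ_[p]) • ell (ρ (z m))) Filter.atTop
      (nhds (ell (ρ (g * h)) - ell (ρ g) - ell (ρ h))) := by
    have h5 := h2.sub h3
    rw [sub_zero] at h5
    refine h5.congr fun m => ?_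
    rw [← smul_sub, sub_sub_cancel, smul_smul]
    congr 1
    rw [pow_succ, inv_mul_cancel_left₀ (pow_ne_zero m hp0)]
  have hcont : Continuous fun x : Γ => (p : ℚ_[p]) • ell (ρ x) := by
    have hc := ell_continuous (fun x => ρ x) hρ N hN
    exact hc.const_smul (p : ℚ_[p])
  have hclosed : IsClosed (Set.range fun x : Γ => (p : ℚ_[p]) • ell (ρ x)) :=
    (isCompact_range hcont).isClosed
  obtain ⟨w, hw⟩ := hclosed.mem_of_tendsto h4
    (Filter.Eventually.of_forall fun m => Set.mem_range_self (z m))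
  refine ⟨w, ?_⟩
  have hw' : (p : ℚ_[p]) • ell (ρ w) = ell (ρ (g * h)) - ell (ρ g) - ell (ρ h) := hw
  rw [hw']
  abel

end Pool.Agent.Lib.MP_ca71b5_nt
end

section

/-!
# A large elementary abelian quotient
-/

set_option autoImplicit false

namespace Pool.Agent.Lib.MP_ca71b5_nt

variable {p : ℕ} [Fact p.Prime] {ι : Type} [Fintype ι] [DecidableEq ι]
  {Γ : Type} [Group Γ] [TopologicalSpace Γ] [IsTopologicalGroup Γ] [CompactSpace Γ]


attribute [local instance 100] LieRing.ofAssociativeRing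

omit [TopologicalSpace Γ] [IsTopologicalGroup Γ] [CompactSpace Γ] [Group Γ] in
/-- Matrices with bounded denominators are integral combinations of finitely many matrices. -/
private theorem p3b_fg (N : ℕ) : ∃ s : Finset (MQ p ι), ∀ x : MQ p ι, Small (2 - N : ℤ) x →
    ∃ c : MQ p ι → ℤ_[p], x = ∑ v ∈ s, (c v : ℚ_[p]) • v := by
  classical
  have hp : ((p : ℚ_[p]) ^ N) ≠ 0 := pow_ne_zero _ (by exact_mod_cast (Fact.out : p.Prime).ne_zero)
  set f : ι × ι → MQ p ι := fun q => Matrix.single q.1 q.2 ((p : ℚ_[p]) ^ N)⁻¹ with hf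
  have hinj : Function.Injective f := by
    rintro ⟨i, j⟩ ⟨i', j'⟩ h
    have h1 : f (i, j) i j = f (i', j') i j := by rw [h]
    simp only [hf, Matrix.single_apply, and_self, if_true] at h1
    by_contra hne
    rw [if_neg] at h1
    · exact inv_ne_zero hp h1
    · rintro ⟨rfl, rfl⟩
      exact hne rfl
  refine ⟨Finset.univ.image f, fun x hx => ?_⟩
  have hc : ∀ q : ι × ι, ‖(p : ℚ_[p]) ^ N * x q.1 q.2‖ ≤ 1 := by
    intro q
    rw [norm_mul, norm_p_pow]
    have h2 : ‖x q.1 q.2‖ ≤ (p : ℝ) ^ (N : ℤ) :=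
      (hx q.1 q.2).trans (zpow_le_zpow_right₀ (pR_one_lt p).le (by omega))
    calc (p : ℝ) ^ (-(N : ℤ)) * ‖x q.1 q.2‖ ≤ (p : ℝ) ^ (-(N : ℤ)) * (p : ℝ) ^ (N : ℤ) :=
          mul_le_mul_of_nonneg_left h2 (zpow_pos (pR_pos p) _).le
      _ = 1 := by rw [← zpow_add₀ (pR_pos p).ne', neg_add_cancel, zpow_zero]
  refine ⟨Function.extend f (fun q => ⟨(p : ℚ_[p]) ^ N * x q.1 q.2, hc q⟩) 0, ?_⟩
  rw [Finset.sum_image (fun a _ b _ h => hinj h)]
  have e : ∀ q : ι × ι, ((Function.extend f (fun q => (⟨(p : ℚ_[p]) ^ N * x q.1 q.2, hc q⟩ : ℤ_[p])) 0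
      (f q) : ℤ_[p]) : ℚ_[p]) • f q = Matrix.single q.1 q.2 (x q.1 q.2) := by
    intro q
    rw [hinj.extend_apply]
    simp only [hf]
    rw [Matrix.smul_single]
    congr 1
    simp only [smul_eq_mul]
    field_simp
  rw [Finset.sum_congr rfl fun q _ => e q]
  rw [← Finset.univ_product_univ, Finset.sum_product]
  exact Matrix.matrix_eq_sum_single x

theorem exists_large_quotient (ρ : Γ →* GLZ p ι) (hρ : Continuous ρ) (N : ℕ)
    (hN : ∀ g : Γ, Deep 2 N (ρ g))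
    (hmul : ∀ (k : ℕ) (g h : Γ), ∃ z : Γ, ρ g ^ (p ^ k) * ρ h ^ (p ^ k) = ρ z ^ (p ^ k))
    (hpow : ∀ (k : ℕ) (g h : Γ), ∃ z : Γ,
      (ρ g * ρ h) ^ (p ^ k) = ρ g ^ (p ^ k) * ρ h ^ (p ^ k) * ρ z ^ (p ^ (k + 1)))
    (φ : Γ →* Γ) (P : GLZ p ι) (hφ : ∀ g : Γ, ρ (φ g) = P * ρ g * P⁻¹)
    (T : gg ρ ≃ₗ⁅ℚ_[p]⁆ gg ρ)
    (hT : ∀ x : gg ρ, ((T x : gg ρ) : MQ p ι) = gm P * x * gm P⁻¹) :
    ∃ W : Subgroup Γ, W.Normal ∧ IsOpen (W : Set Γ) ∧ ρ.ker ≤ W ∧
      (∀ a b : Γ, a * b * a⁻¹ * b⁻¹ ∈ W) ∧ (∀ a : Γ, a ^ p ∈ W) ∧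
      (∀ a : Γ, φ a * a⁻¹ ∈ W) ∧ p ^ Module.finrank ℚ_[p] (fixS T) ≤ W.index := by
  classical
  have hc : Continuous fun g : Γ => ell (ρ g) := ell_continuous (fun g => ρ g) hρ N hN
  have h1 : ell (ρ 1) = 0 := by rw [map_one, ell_one]
  have hinv : ∀ g : Γ, ell (ρ g⁻¹) = -ell (ρ g) := fun g => by
    rw [map_inv, ell_inv (ρ g) N (hN g)]
  -- the lattice
  let Λ : AddSubgroup (MQ p ι) :=
    { carrier := Set.range fun g : Γ => ell (ρ g)
      zero_mem' := ⟨1, h1⟩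
      add_mem' := by
        rintro _ _ ⟨g, rfl⟩ ⟨h, rfl⟩
        obtain ⟨z, hz⟩ := exists_ell_add ρ hρ N hN hmul g h
        exact ⟨z, hz⟩
      neg_mem' := by
        rintro _ ⟨g, rfl⟩
        exact ⟨g⁻¹, hinv g⟩ }
  have hΛ : ∀ x, x ∈ Λ ↔ ∃ g : Γ, ell (ρ g) = x := fun x => Iff.rfl
  have hΛc : IsCompact (Λ : Set (MQ p ι)) := isCompact_range hc
  have hmem : ∀ g : Γ, ell (ρ g) ∈ Λ := fun g => ⟨g, rfl⟩
  have hsmul : ∀ (c : ℤ_[p]) (x : MQ p ι), x ∈ Λ → (c : ℚ_[p]) • x ∈ Λ := by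
    intro c x hx
    have hcl : IsClosed {c : ℤ_[p] | (c : ℚ_[p]) • x ∈ Λ} := by
      have hcont : Continuous fun c : ℤ_[p] => (c : ℚ_[p]) • x :=
        continuous_subtype_val.smul continuous_const
      exact hΛc.isClosed.preimage hcont
    refine PadicInt.denseRange_natCast.induction_on (p := fun c : ℤ_[p] => (c : ℚ_[p]) • x ∈ Λ) c
      hcl fun n => ?_
    have e : (((n : ℤ_[p]) : ℚ_[p])) • x = n • x := by
      rw [PadicInt.coe_natCast, Nat.cast_smul_eq_nsmul]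
    rw [e]
    exact Λ.nsmul_mem hx n
  have hfg : ∃ s : Finset (MQ p ι), ∀ x ∈ Λ, ∃ c : MQ p ι → ℤ_[p],
      x = ∑ v ∈ s, (c v : ℚ_[p]) • v := by
    obtain ⟨s, hs⟩ := p3b_fg (p := p) (ι := ι) N
    refine ⟨s, ?_⟩
    rintro _ ⟨g, rfl⟩
    exact hs _ (ell_tendsto (ρ g) N (hN g)).2.2
  -- the automorphism
  let TM : MQ p ι →ₗ[ℚ_[p]] MQ p ι :=
    (LinearMap.mulRight ℚ_[p] (gm P⁻¹)).comp (LinearMap.mulLeft ℚ_[p] (gm P))
  have hTM : ∀ x, TM x = gm P * x * gm P⁻¹ := fun x => rfl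
  have hTM1 : ∀ g : Γ, TM (ell (ρ g)) = ell (ρ (φ g)) := by
    intro g
    rw [hTM, hφ, ell_conj (ρ g) P N (hN g)]
  have hTΛ : ∀ x ∈ Λ, TM x ∈ Λ := by
    rintro _ ⟨g, rfl⟩
    exact ⟨φ g, (hTM1 g).symm⟩
  let Λ' : AddSubgroup (MQ p ι) :=
    { carrier := {x | ∃ y ∈ Λ, ∃ z ∈ Λ, x = TM y - y + (p : ℚ_[p]) • z}
      zero_mem' := ⟨0, Λ.zero_mem, 0, Λ.zero_mem, by rw [map_zero, sub_self, smul_zero, add_zero]⟩
      add_mem' := by
        rintro _ _ ⟨y, hy, z, hz, rfl⟩ ⟨y', hy', z', hz', rfl⟩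
        refine ⟨y + y', Λ.add_mem hy hy', z + z', Λ.add_mem hz hz', ?_⟩
        rw [map_add, smul_add]
        abel
      neg_mem' := by
        rintro _ ⟨y, hy, z, hz, rfl⟩
        refine ⟨-y, Λ.neg_mem hy, -z, Λ.neg_mem hz, ?_⟩
        rw [map_neg, smul_neg]
        abel }
  have hΛ' : ∀ x : MQ p ι, x ∈ Λ' ↔ ∃ y ∈ Λ, ∃ z ∈ Λ, x = TM y - y + (p : ℚ_[p]) • z :=
    fun x => Iff.rfl
  have key := lattice_index Λ hsmul hfg TM hTΛ Λ' hΛ'
  have hp : ∀ z ∈ Λ, (p : ℚ_[p]) • z ∈ Λ' := fun z hz =>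
    ⟨0, Λ.zero_mem, z, hz, by rw [map_zero, sub_self, zero_add]⟩
  have hT1 : ∀ y ∈ Λ, TM y - y ∈ Λ' := fun y hy =>
    ⟨y, hy, 0, Λ.zero_mem, by rw [smul_zero, add_zero]⟩
  -- the homomorphism
  let q : MQ p ι →+ MQ p ι ⧸ Λ' := QuotientAddGroup.mk' Λ'
  have hq0 : ∀ x, q x = 0 ↔ x ∈ Λ' := fun x => QuotientAddGroup.eq_zero_iff x
  let f : Γ →* Multiplicative (MQ p ι ⧸ Λ') :=
    MonoidHom.mk' (fun g => Multiplicative.ofAdd (q (ell (ρ g)))) (by
      intro g h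
      obtain ⟨z, hz⟩ := exists_ell_mul ρ hρ N hN hpow g h
      have e : q (ell (ρ (g * h))) = q (ell (ρ g)) + q (ell (ρ h)) := by
        rw [hz, map_add, map_add, (hq0 _).2 (hp _ (hmem z)), add_zero]
      rw [← ofAdd_add, e])
  have hf : ∀ g, f g = Multiplicative.ofAdd (q (ell (ρ g))) := fun g => rfl
  have hW : ∀ g, g ∈ f.ker ↔ ell (ρ g) ∈ Λ' := by
    intro g
    rw [MonoidHom.mem_ker, hf, ← hq0]
    exact Multiplicative.ofAdd.apply_eq_iff_eq (x := q (ell (ρ g))) (y := 0)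
  have hindex : f.ker.index = Λ'.relIndex Λ := by
    rw [Subgroup.index_ker]
    have e1 : Λ'.relIndex Λ = Nat.card (Λ.map q) := by
      have := AddSubgroup.relIndex_ker Λ q
      rwa [QuotientAddGroup.ker_mk'] at this
    rw [e1]
    refine Nat.card_congr ⟨fun x => ⟨Multiplicative.toAdd x.1, ?_⟩,
      fun x => ⟨Multiplicative.ofAdd x.1, ?_⟩, fun x => rfl, fun x => rfl⟩
    · obtain ⟨g, hg⟩ := x.2
      exact ⟨ell (ρ g), hmem g, by rw [← hg]; rfl⟩
    · obtain ⟨y, ⟨g, hg⟩, hy⟩ := x.2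
      refine ⟨g, ?_⟩
      rw [hf, ← hy, ← hg]
  have hpos : 0 < f.ker.index := by
    rw [hindex]
    exact lt_of_lt_of_le (pow_pos (Fact.out : p.Prime).pos _) key
  -- openness
  have hΛ'c : IsCompact (Λ' : Set (MQ p ι)) := by
    have hcont : Continuous fun y : MQ p ι × MQ p ι =>
        gm P * y.1 * gm P⁻¹ - y.1 + (p : ℚ_[p]) • y.2 := by
      have c2 : Continuous fun y : MQ p ι × MQ p ι => (p : ℚ_[p]) • y.2 :=
        Continuous.const_smul continuous_snd (p : ℚ_[p])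
      exact ((((continuous_const.mul continuous_fst).mul continuous_const).sub
        continuous_fst)).add c2
    have := (hΛc.prod hΛc).image hcont
    convert this using 1
    ext x
    constructor
    · rintro ⟨y, hy, z, hz, rfl⟩
      exact ⟨(y, z), ⟨hy, hz⟩, rfl⟩
    · rintro ⟨⟨y, z⟩, ⟨hy, hz⟩, rfl⟩
      exact ⟨y, hy, z, hz, rfl⟩
  have hclosed : IsClosed (f.ker : Set Γ) := by
    have : (f.ker : Set Γ) = (fun g : Γ => ell (ρ g)) ⁻¹' (Λ' : Set (MQ p ι)) := by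
      ext g
      exact hW g
    rw [this]
    exact hΛ'c.isClosed.preimage hc
  have hfin : f.ker.FiniteIndex := ⟨hpos.ne'⟩
  refine ⟨f.ker, inferInstance, Subgroup.isOpen_of_isClosed_of_finiteIndex _ hclosed, ?_, ?_, ?_,
    ?_, ?_⟩
  · intro g hg
    rw [MonoidHom.mem_ker] at hg
    rw [hW, hg, ell_one]
    exact Λ'.zero_mem
  · intro a b
    rw [MonoidHom.mem_ker, map_mul, map_mul, map_mul, map_inv, map_inv, mul_comm (f a) (f b),
      mul_inv_cancel_right, mul_inv_cancel]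
  · intro a
    rw [MonoidHom.mem_ker, map_pow, hf, ← ofAdd_nsmul, ← map_nsmul]
    have e : p • ell (ρ a) = (p : ℚ_[p]) • ell (ρ a) := by rw [Nat.cast_smul_eq_nsmul]
    rw [e, (hq0 _).2 (hp _ (hmem a))]
    rfl
  · intro a
    rw [MonoidHom.mem_ker, map_mul, map_inv, mul_inv_eq_one, hf, hf, ← hTM1]
    congr 1
    rw [← sub_eq_zero, ← map_sub, hq0]
    exact hT1 _ (hmem a)
  · rw [hindex]
    refine le_trans (Nat.pow_le_pow_right (Fact.out : p.Prime).pos ?_) key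
    have hspan : Submodule.span ℚ_[p] (Λ : Set (MQ p ι)) = logSpan ρ := rfl
    have hgg := gg_eq_logSpan ρ N hN
    let J : fixS T →ₗ[ℚ_[p]] (Submodule.span ℚ_[p] (Λ : Set (MQ p ι)) ⊓
        LinearMap.ker (TM - LinearMap.id) : Submodule ℚ_[p] (MQ p ι)) :=
      LinearMap.codRestrict _ ((gg ρ).toSubmodule.subtype.comp (fixS T).subtype) (by
        intro x
        refine ⟨?_, ?_⟩
        · rw [hspan]
          show ((x : gg ρ) : MQ p ι) ∈ logSpan ρ
          rw [← hgg]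
          exact (x : gg ρ).2
        · show ((x : gg ρ) : MQ p ι) ∈ LinearMap.ker (TM - LinearMap.id)
          rw [LinearMap.mem_ker, LinearMap.sub_apply, hTM, LinearMap.id_apply, ← hT,
            (mem_fixS T _).1 x.2, sub_self])
    refine LinearMap.finrank_le_finrank_of_injective (f := J) ?_
    intro x y hxy
    apply Subtype.ext
    apply Subtype.ext
    exact congrArg (fun w => (w.1 : MQ p ι)) hxy

end Pool.Agent.Lib.MP_ca71b5_nt
end
end

section

/-!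
# The logarithm is additive modulo a power of p times the logarithms
-/

set_option autoImplicit false

namespace Pool.Agent.Lib.MP_ca71b5_nt

variable {p : ℕ} [Fact p.Prime] {ι : Type} [Fintype ι] [DecidableEq ι]
  {Γ : Type} [Group Γ] [TopologicalSpace Γ] [IsTopologicalGroup Γ] [CompactSpace Γ]

omit [Fintype ι] in
/-- a sequence of matrices close to `1` tends to `1` -/
private theorem ap2_tendsto_one {f : ℕ → MQ p ι}
    (h : ∀ t : ℤ, ∀ᶠ m : ℕ in Filter.atTop, Small t (f m - 1)) :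
    Filter.Tendsto f Filter.atTop (nhds 1) := by
  have h1 := tendsto_zero_of_small (f := fun m : ℕ => f m - 1) h
  have h2 := h1.add_const (1 : MQ p ι)
  rw [zero_add] at h2
  refine h2.congr fun m => ?_
  simp

/-- powers of varying deep elements are small, uniformly -/
private theorem ap2_small (u : ℕ → GLZ p ι) (N : ℕ) (hu : ∀ m, Deep 2 N (u m)) (k : ℕ → ℕ)
    (hk : ∀ m, m ≤ k m) (t : ℤ) :
    ∀ᶠ m : ℕ in Filter.atTop, Small t (gm (u m) ^ (p ^ (k m)) - 1) := by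
  filter_upwards [Filter.eventually_ge_atTop (N + t.toNat)] with m hm
  obtain ⟨-, h2, h3⟩ := ell_tendsto (u m) N (hu m)
  have e : gm (u m) ^ (p ^ (k m)) - 1 = (gm (u m) ^ (p ^ (k m)) - 1 -
      ((p : ℚ_[p]) ^ (k m)) • ell (u m)) + ((p : ℚ_[p]) ^ (k m)) • ell (u m) := by abel
  have hkm := hk m
  rw [e]
  refine Small.add ((h2 (k m) (by omega)).mono ?_) ((h3.p_smul (k m)).mono ?_)
  · omega
  · omega

theorem exists_ell_mul_deep (ρ : Γ →* GLZ p ι) (hρ : Continuous ρ) (N : ℕ)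
    (hN : ∀ g : Γ, Deep 2 N (ρ g)) (e : ℕ)
    (hpow : ∀ (k : ℕ) (g h : Γ), ∃ z : Γ,
      (ρ g * ρ h) ^ (p ^ k) = ρ g ^ (p ^ k) * ρ h ^ (p ^ k) * ρ z ^ (p ^ (k + e)))
    (g h : Γ) :
    ∃ z : Γ, ell (ρ (g * h)) = ell (ρ g) + ell (ρ h) + ((p : ℚ_[p]) ^ e) • ell (ρ z) := by
  have hp0 : (p : ℚ_[p]) ≠ 0 := by
    exact_mod_cast (Fact.out : p.Prime).ne_zero
  choose z hz using fun m => hpow m g h
  have hA : Filter.Tendsto (fun m : ℕ => gm (ρ g) ^ (p ^ m)) Filter.atTop (nhds 1) :=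
    ap2_tendsto_one (ap2_small (fun _ => ρ g) N (fun _ => hN g) (fun m => m) (fun _ => le_rfl))
  have hB : Filter.Tendsto (fun m : ℕ => gm (ρ h) ^ (p ^ m)) Filter.atTop (nhds 1) :=
    ap2_tendsto_one (ap2_small (fun _ => ρ h) N (fun _ => hN h) (fun m => m) (fun _ => le_rfl))
  have hD : Filter.Tendsto (fun m : ℕ => gm (ρ (z m)) ^ (p ^ (m + e))) Filter.atTop (nhds 1) :=
    ap2_tendsto_one (ap2_small (fun m => ρ (z m)) N (fun m => hN (z m)) (fun m => m + e)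
      (fun m => Nat.le_add_right m e))
  have hF := (ell_tendsto (ρ (g * h)) N (hN _)).1
  have hG := (ell_tendsto (ρ g) N (hN _)).1
  have hH := (ell_tendsto (ρ h) N (hN _)).1
  have h1 := (hF.sub (hG.mul (hB.mul hD))).sub (hH.mul hD)
  rw [mul_one, mul_one, mul_one] at h1
  -- the sequence is the last difference quotient
  have h2 : Filter.Tendsto (fun m : ℕ => ((p : ℚ_[p]) ^ m)⁻¹ • (gm (ρ (z m)) ^ (p ^ (m + e)) - 1))
      Filter.atTop (nhds (ell (ρ (g * h)) - ell (ρ g) - ell (ρ h))) := by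
    refine h1.congr fun m => ?_
    have e1 : gm (ρ (g * h)) ^ (p ^ m) = gm (ρ g) ^ (p ^ m) * gm (ρ h) ^ (p ^ m) *
        gm (ρ (z m)) ^ (p ^ (m + e)) := by
      rw [map_mul, ← gm_pow, hz m, gm_mul, gm_mul, gm_pow, gm_pow, gm_pow]
    rw [e1, smul_mul_assoc, smul_mul_assoc, ← smul_sub, ← smul_sub]
    congr 1
    noncomm_ring
  have h3 : Filter.Tendsto (fun m : ℕ => ((p : ℚ_[p]) ^ m)⁻¹ • (gm (ρ (z m)) ^ (p ^ (m + e)) - 1 -
      ((p : ℚ_[p]) ^ (m + e)) • ell (ρ (z m)))) Filter.atTop (nhds 0) := by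
    refine tendsto_zero_of_small fun t => ?_
    filter_upwards [Filter.eventually_ge_atTop (2 * N + t.toNat)] with m hm
    have h4 := ((ell_tendsto (ρ (z m)) N (hN _)).2.1 (m + e) (by omega)).p_inv_smul m
    refine h4.mono ?_
    push_cast
    omega
  have h4 : Filter.Tendsto (fun m : ℕ => ((p : ℚ_[p]) ^ e) • ell (ρ (z m))) Filter.atTop
      (nhds (ell (ρ (g * h)) - ell (ρ g) - ell (ρ h))) := by
    have h5 := h2.sub h3
    rw [sub_zero] at h5
    refine h5.congr fun m => ?_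
    rw [← smul_sub, sub_sub_cancel, smul_smul]
    congr 1
    rw [pow_add, inv_mul_cancel_left₀ (pow_ne_zero m hp0)]
  have hcont : Continuous fun x : Γ => ((p : ℚ_[p]) ^ e) • ell (ρ x) := by
    have hc := ell_continuous (fun x => ρ x) hρ N hN
    exact hc.const_smul ((p : ℚ_[p]) ^ e)
  have hclosed : IsClosed (Set.range fun x : Γ => ((p : ℚ_[p]) ^ e) • ell (ρ x)) :=
    (isCompact_range hcont).isClosed
  obtain ⟨w, hw⟩ := hclosed.mem_of_tendsto h4
    (Filter.Eventually.of_forall fun m => Set.mem_range_self (z m))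
  refine ⟨w, ?_⟩
  have hw' : ((p : ℚ_[p]) ^ e) • ell (ρ w) = ell (ρ (g * h)) - ell (ρ g) - ell (ρ h) := hw
  rw [hw']
  abel

end Pool.Agent.Lib.MP_ca71b5_nt
end
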