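import Mathlib
import Pool.Agent.Lib.MP_ca71b5_nt.Base

section

/-!
# A lattice with a free cyclic permutation action
-/

set_option autoImplicit false
open scoped NumberField

namespace Pool.Agent.Lib.MP_ca71b5_nt

namespace C1a

open Module

section abs
variable {M : Type} [AddCommGroup M]

/-- index of the range -/
theorem index_range_eq_det [Module.Free ℤ M] [Module.Finite ℤ M] (f : M →+ M)
    (hf : Function.Injective f) :
    f.range.index = (LinearMap.det f.toIntLinearMap).natAbs := by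
  let e : M ≃+ f.range.toIntSubmodule := AddMonoidHom.ofInjective hf
  have h := Submodule.natAbs_det_equiv (f.range.toIntSubmodule) e
  have h2 : ((f.range.toIntSubmodule).subtype ∘ₗ AddMonoidHom.toIntLinearMap (e : M →+ _)) =
      f.toIntLinearMap := by
    ext x
    rfl
  rw [h2] at h
  rw [h]
  rfl

theorem map_le_range' {M' : Type} [AddCommGroup M'] (f : M →+ M') (A : AddSubgroup M) :
    A.map f ≤ f.range := by
  rintro _ ⟨y, _, rfl⟩
  exact ⟨y, rfl⟩

/-- index of the image of a subgroup in the range -/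
theorem relIndex_map_range {M' : Type} [AddCommGroup M'] (f : M →+ M') (A : AddSubgroup M) :
    (A.map f).relIndex f.range = (A ⊔ f.ker).index := by
  have h := AddSubgroup.relIndex_map_map f A ⊤
  rw [top_sup_eq, AddSubgroup.relIndex_top_right] at h
  rw [← h, AddMonoidHom.range_eq_map]

theorem relIndex_nsmul [Module.Free ℤ M] [Module.Finite ℤ M] (A : AddSubgroup M) (n : ℕ)
    (hn : 0 < n) : (A.map (nsmulAddMonoidHom n)).relIndex A = n ^ finrank ℤ A := by
  have htf : IsAddTorsionFree M := Module.isTorsionFree_int_iff_isAddTorsionFree.1 inferInstance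
  have hfr : Module.Free ℤ A := by
    have : Module.Free ℤ A.toIntSubmodule := inferInstance
    exact this
  have hfi : Module.Finite ℤ A := by
    have : Module.Finite ℤ A.toIntSubmodule := inferInstance
    exact this
  have hinj : Function.Injective (nsmulAddMonoidHom (α := A) n) := by
    intro x y hxy
    have h1 : n • (x : M) = n • (y : M) := congrArg Subtype.val hxy
    exact Subtype.ext (nsmul_right_injective (M := M) hn.ne' h1)
  have h1 := index_range_eq_det (nsmulAddMonoidHom (α := A) n) hinj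
  have h2 : (nsmulAddMonoidHom (α := A) n).toIntLinearMap = (n : ℤ) • LinearMap.id := by
    ext x
    simp
  rw [h2, LinearMap.det_smul, LinearMap.det_id, mul_one, Int.natAbs_pow, Int.natAbs_natCast] at h1
  rw [← h1, AddSubgroup.relIndex]
  congr 1
  ext x
  constructor
  · intro hx
    obtain ⟨y, hy, hyx⟩ := hx
    exact ⟨⟨y, hy⟩, Subtype.ext hyx⟩
  · rintro ⟨y, hy⟩
    exact ⟨y, y.2, congrArg Subtype.val hy⟩

end abs

section herb
variable {M : Type} [AddCommGroup M] [Module.Free ℤ M] [Module.Finite ℤ M]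

set_option linter.unusedSectionVars false

/-- the index identity -/
theorem herb_identity (D N : M →+ M) (n k : ℕ) (hn : 0 < n) (hk : 0 < k)
    (hDN : ∀ x, D (N x) = 0) (hND : ∀ x, N (D x) = 0) (hDK : ∀ x, D x = 0 → N x = n • x) :
    (D + k • N).range.index * N.range.relIndex D.ker =
      (k * n) ^ finrank ℤ D.ker * D.range.relIndex N.ker * n ^ finrank ℤ D.ker := by
  have htf : IsAddTorsionFree M := Module.isTorsionFree_int_iff_isAddTorsionFree.1 inferInstance
  set S : M →+ M := D + k • N with hS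
  have hSx : ∀ x, S x = D x + k • N x := fun x => by simp [hS]
  have hNS : ∀ x, N (S x) = (k * n) • N x := by
    intro x
    rw [hSx, map_add, hND, zero_add, map_nsmul, hDK _ (hDN x), mul_nsmul']
  have hNle : N.range ≤ D.ker := by
    rintro _ ⟨y, rfl⟩
    exact hDN y
  have hDle : D.range ≤ N.ker := by
    rintro _ ⟨y, rfl⟩
    exact hND y
  -- ranks
  have hDKmap : D.ker.map N = D.ker.map (nsmulAddMonoidHom n) := by
    ext x
    constructor
    · rintro ⟨y, hy, rfl⟩
      exact ⟨y, hy, (hDK y hy).symm⟩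
    · rintro ⟨y, hy, rfl⟩
      exact ⟨y, hy, hDK y hy⟩
  have hKle : D.ker.map (nsmulAddMonoidHom n) ≤ N.range := by
    rw [← hDKmap]
    exact map_le_range' N D.ker
  have hrank : finrank ℤ N.range = finrank ℤ D.ker := by
    apply le_antisymm
    · have : N.range.toIntSubmodule ≤ D.ker.toIntSubmodule := hNle
      exact Submodule.finrank_mono this
    · have h1 : (D.ker.map (nsmulAddMonoidHom n)).toIntSubmodule ≤ N.range.toIntSubmodule := hKle
      have h2 := Submodule.finrank_mono h1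
      have h3 : finrank ℤ (D.ker.map (nsmulAddMonoidHom n)).toIntSubmodule =
          finrank ℤ D.ker.toIntSubmodule := by
        have hinj : Function.Injective (nsmulAddMonoidHom (α := M) n) := by
          intro x y hxy
          exact nsmul_right_injective (M := M) hn.ne' hxy
        let e0 : D.ker ≃+ (D.ker.map (nsmulAddMonoidHom n) : AddSubgroup M) :=
          AddSubgroup.equivMapOfInjective D.ker (nsmulAddMonoidHom n) hinj
        let e : D.ker.toIntSubmodule ≃ₗ[ℤ] (D.ker.map (nsmulAddMonoidHom n)).toIntSubmodule :=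
          { e0 with map_smul' := fun c x => map_zsmul e0 c x }
        exact (LinearEquiv.finrank_eq e).symm
      have h4 : finrank ℤ D.ker.toIntSubmodule ≤ finrank ℤ N.range.toIntSubmodule := by
        rw [← h3]; exact h2
      exact h4
  -- the first index
  have hmapN : S.range.map N = N.range.map (nsmulAddMonoidHom (k * n)) := by
    ext x
    constructor
    · rintro ⟨_, ⟨y, rfl⟩, rfl⟩
      exact ⟨N y, ⟨y, rfl⟩, (hNS y).symm⟩
    · rintro ⟨_, ⟨y, rfl⟩, rfl⟩
      exact ⟨S y, ⟨y, rfl⟩, hNS y⟩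
  have hinter : S.range ⊓ N.ker = N.ker.map D := by
    ext x
    constructor
    · rintro ⟨⟨y, rfl⟩, hy⟩
      have hy' : N (S y) = 0 := hy
      rw [hNS] at hy'
      have h0 : N y = 0 := by
        have h1 : (k * n) • N y = (k * n) • (0 : M) := by rw [hy', smul_zero]
        exact nsmul_right_injective (M := M) (Nat.mul_pos hk hn).ne' h1
      refine ⟨y, h0, ?_⟩
      rw [hSx, h0, smul_zero, add_zero]
    · rintro ⟨y, hy, rfl⟩
      have hy0 : N y = 0 := hy
      refine ⟨⟨y, ?_⟩, hND y⟩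
      rw [hSx, hy0, smul_zero, add_zero]
  have e1 : S.range.index = (N.ker.map D).relIndex N.ker *
      (N.range.map (nsmulAddMonoidHom (k * n))).relIndex N.range := by
    rw [← AddSubgroup.relIndex_mul_index (le_sup_left : S.range ≤ S.range ⊔ N.ker),
      ← hmapN, relIndex_map_range, ← hinter, AddSubgroup.inf_relIndex_right,
      sup_comm, AddSubgroup.relIndex_sup_right]
  have e2 : (N.ker.map D).relIndex N.ker =
      (N.ker.map D).relIndex D.range * D.range.relIndex N.ker :=
    (AddSubgroup.relIndex_mul_relIndex _ _ _ (map_le_range' D N.ker) hDle).symm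
  have e3 : (N.ker.map D).relIndex D.range =
      (D.ker.map (nsmulAddMonoidHom n)).relIndex N.range := by
    rw [relIndex_map_range, ← hDKmap, relIndex_map_range, sup_comm]
  have e4 : (D.ker.map (nsmulAddMonoidHom n)).relIndex D.ker =
      (D.ker.map (nsmulAddMonoidHom n)).relIndex N.range * N.range.relIndex D.ker :=
    (AddSubgroup.relIndex_mul_relIndex _ _ _ hKle hNle).symm
  have e5 := relIndex_nsmul D.ker n hn
  have e6 := relIndex_nsmul N.range (k * n) (Nat.mul_pos hk hn)
  rw [e1, e2, e3, e6, hrank]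
  rw [e4] at e5
  rw [← e5]
  ring

theorem S_injective (D N : M →+ M) (n k : ℕ) (hn : 0 < n) (hk : 0 < k)
    (hDN : ∀ x, D (N x) = 0) (hND : ∀ x, N (D x) = 0) (hDK : ∀ x, D x = 0 → N x = n • x) :
    Function.Injective (D + k • N) := by
  have htf : IsAddTorsionFree M := Module.isTorsionFree_int_iff_isAddTorsionFree.1 inferInstance
  rw [injective_iff_map_eq_zero]
  intro x hx
  have hx1 : D x + k • N x = 0 := by simpa using hx
  have h1 : (k * n) • N x = 0 := by
    have := congrArg N hx1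
    rw [map_add, hND, zero_add, map_nsmul, hDK _ (hDN x), map_zero, ← mul_nsmul'] at this
    exact this
  have h2 : N x = 0 := by
    have h3 : (k * n) • N x = (k * n) • (0 : M) := by rw [h1, smul_zero]
    exact nsmul_right_injective (M := M) (Nat.mul_pos hk hn).ne' h3
  rw [h2, smul_zero, add_zero] at hx1
  have h4 := hDK x hx1
  rw [h2] at h4
  have h5 : n • x = n • (0 : M) := by rw [← h4, smul_zero]
  exact nsmul_right_injective (M := M) hn.ne' h5

theorem herb_det (D N : M →+ M) (n k : ℕ) (hn : 0 < n) (hk : 0 < k)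
    (hDN : ∀ x, D (N x) = 0) (hND : ∀ x, N (D x) = 0) (hDK : ∀ x, D x = 0 → N x = n • x) :
    (LinearMap.det (D + k • N).toIntLinearMap).natAbs * N.range.relIndex D.ker =
      (k * n) ^ finrank ℤ D.ker * D.range.relIndex N.ker * n ^ finrank ℤ D.ker := by
  rw [← index_range_eq_det _ (S_injective D N n k hn hk hDN hND hDK)]
  exact herb_identity D N n k hn hk hDN hND hDK

theorem h0_ne_zero (D N : M →+ M) (n : ℕ) (hn : 0 < n)
    (hDN : ∀ x, D (N x) = 0) (hDK : ∀ x, D x = 0 → N x = n • x) :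
    N.range.relIndex D.ker ≠ 0 := by
  have hNle : N.range ≤ D.ker := by
    rintro _ ⟨y, rfl⟩
    exact hDN y
  have hDKmap : D.ker.map N = D.ker.map (nsmulAddMonoidHom n) := by
    ext x
    constructor
    · rintro ⟨y, hy, rfl⟩
      exact ⟨y, hy, (hDK y hy).symm⟩
    · rintro ⟨y, hy, rfl⟩
      exact ⟨y, hy, hDK y hy⟩
  have hKle : D.ker.map (nsmulAddMonoidHom n) ≤ N.range := by
    rw [← hDKmap]
    exact map_le_range' N D.ker
  have e4 : (D.ker.map (nsmulAddMonoidHom n)).relIndex N.range * N.range.relIndex D.ker =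
      (D.ker.map (nsmulAddMonoidHom n)).relIndex D.ker :=
    (AddSubgroup.relIndex_mul_relIndex _ _ _ hKle hNle)
  rw [relIndex_nsmul D.ker n hn] at e4
  intro h0
  rw [h0, mul_zero] at e4
  exact (pow_pos hn _).ne e4

end herb

/-- comparison of determinants -/
theorem det_cast {M : Type} [AddCommGroup M] {ι : Type} [Fintype ι] [DecidableEq ι]
    (b : Basis ι ℤ M) {W : Type} [AddCommGroup W] [Module ℝ W] (b' : Basis ι ℝ W) (j : M →+ W)
    (hb : ∀ i, b' i = j (b i)) (f : M →ₗ[ℤ] M) (F : W →ₗ[ℝ] W) (h : ∀ x, j (f x) = F (j x)) :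
    ((LinearMap.det f : ℤ) : ℝ) = LinearMap.det F := by
  have hrepr : ∀ (x : M) (i : ι), b'.repr (j x) i = ((b.repr x i : ℤ) : ℝ) := by
    intro x i
    have hx : j x = ∑ l, ((b.repr x l : ℤ) : ℝ) • b' l := by
      conv_lhs => rw [← b.sum_repr x]
      rw [map_sum]
      refine Finset.sum_congr rfl (fun l _ => ?_)
      rw [map_zsmul, hb, Int.cast_smul_eq_zsmul]
    rw [hx, b'.repr_sum_self]
  rw [← LinearMap.det_toMatrix b, ← LinearMap.det_toMatrix b', Int.cast_det]
  congr 1
  ext i l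
  rw [Matrix.map_apply, LinearMap.toMatrix_apply, LinearMap.toMatrix_apply, hb, ← h, hrepr]

/-! ### the permutation action -/

section perm
variable {P : Type} [Fintype P]

set_option linter.unusedSectionVars false

/-- `x ↦ x ∘ π - x` -/
def DP (R : Type) [AddCommGroup R] (π : Equiv.Perm P) : (P → R) →+ (P → R) where
  toFun x := fun w => x (π w) - x w
  map_zero' := by ext w; simp
  map_add' x y := by ext w; simp only [Pi.add_apply]; abel

/-- `x ↦ ∑ x ∘ π^i` -/
def NP (R : Type) [AddCommGroup R] (π : Equiv.Perm P) (n : ℕ) : (P → R) →+ (P → R) where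
  toFun x := fun w => ∑ i ∈ Finset.range n, x ((π ^ i) w)
  map_zero' := by ext w; simp
  map_add' x y := by ext w; simp only [Pi.add_apply, Finset.sum_add_distrib]

variable {R : Type} [AddCommGroup R] (π : Equiv.Perm P) (n : ℕ)

omit [Fintype P] in
theorem DP_apply (x : P → R) (w : P) : DP R π x w = x (π w) - x w := rfl

omit [Fintype P] in
theorem NP_apply (x : P → R) (w : P) :
    NP R π n x w = ∑ i ∈ Finset.range n, x ((π ^ i) w) := rfl

omit [Fintype P] in
theorem NP_shift (hπ : π ^ n = 1) (x : P → R) (w : P) : NP R π n x (π w) = NP R π n x w := by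
  rw [NP_apply, NP_apply]
  have h1 : ∀ i, x ((π ^ i) (π w)) = x ((π ^ (i + 1)) w) := by
    intro i
    rw [pow_succ, Equiv.Perm.mul_apply]
  simp_rw [h1]
  have h2 := Finset.sum_range_succ' (fun i => x ((π ^ i) w)) n
  have h3 := Finset.sum_range_succ (fun i => x ((π ^ i) w)) n
  rw [h2] at h3
  simp only [pow_zero, hπ] at h3
  exact add_right_cancel h3

omit [Fintype P] in
theorem DP_NP (hπ : π ^ n = 1) (x : P → R) : DP R π (NP R π n x) = 0 := by
  ext w
  rw [DP_apply, NP_shift π n hπ, sub_self]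
  rfl

omit [Fintype P] in
theorem NP_DP (hπ : π ^ n = 1) (x : P → R) : NP R π n (DP R π x) = 0 := by
  ext w
  have h := NP_shift π n hπ x w
  rw [NP_apply] at h ⊢
  rw [NP_apply] at h
  simp only [DP_apply, Finset.sum_sub_distrib, Pi.zero_apply]
  have h1 : ∀ i, x (π ((π ^ i) w)) = x ((π ^ i) (π w)) := by
    intro i
    rw [← Equiv.Perm.mul_apply, ← Equiv.Perm.mul_apply, ← pow_succ, ← pow_succ']
  simp_rw [h1, h, sub_self]

omit [Fintype P] in
theorem invariant_pow {x : P → R} (h : DP R π x = 0) (i : ℕ) (w : P) : x ((π ^ i) w) = x w := by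
  induction i generalizing w with
  | zero => simp
  | succ i ih =>
    rw [pow_succ, Equiv.Perm.mul_apply, ih]
    have := congrFun h w
    rw [DP_apply] at this
    exact sub_eq_zero.1 this

omit [Fintype P] in
theorem NP_of_invariant {x : P → R} (h : DP R π x = 0) : NP R π n x = n • x := by
  ext w
  rw [NP_apply]
  simp only [invariant_pow π h, Finset.sum_const, Finset.card_range, Pi.smul_apply]

/-- representatives of the orbits -/
theorem exists_rep (hn : 0 < n) (hπ : π ^ n = 1) (hfree : ∀ i, 0 < i → i < n → ∀ w, (π ^ i) w ≠ w) :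
    ∃ (r : P → P) (k : P → ℕ), (∀ w, r (π w) = r w) ∧ (∀ w, k w < n) ∧
      (∀ w, (π ^ k w) (r w) = w) ∧ (∀ w, ∀ i < n, k ((π ^ i) (r w)) = i) ∧
      (∀ w i, r ((π ^ i) (r w)) = r w) := by
  classical
  let s := Equiv.Perm.SameCycle.setoid π
  let r : P → P := fun w => (Quotient.mk s w).out
  have hr : ∀ w, π.SameCycle (r w) w := fun w => Quotient.mk_out (s := s) w
  have hrr : ∀ v w, π.SameCycle v w → r v = r w := by
    intro v w h
    have : Quotient.mk s v = Quotient.mk s w := Quotient.sound h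
    change (Quotient.mk s v).out = (Quotient.mk s w).out
    rw [this]
  have hk : ∀ w, ∃ k < n, (π ^ k) (r w) = w := by
    intro w
    obtain ⟨i, hi⟩ := hr w
    refine ⟨(i % n).toNat, ?_, ?_⟩
    · have h1 := Int.emod_lt_of_pos i (by exact_mod_cast hn : (0:ℤ) < n)
      have h2 := Int.emod_nonneg i (by exact_mod_cast hn.ne' : (n:ℤ) ≠ 0)
      omega
    · have h2 := Int.emod_nonneg i (by exact_mod_cast hn.ne' : (n:ℤ) ≠ 0)
      have h3 : π ^ i = π ^ (i % n).toNat := by
        rw [← zpow_natCast, Int.toNat_of_nonneg h2]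
        conv_lhs => rw [← Int.emod_add_mul_ediv i n]
        rw [zpow_add, zpow_mul, zpow_natCast, hπ, one_zpow, mul_one]
      rw [← h3]
      exact hi
  choose k hkn hkw using hk
  have huniq : ∀ a b v, a < n → b < n → (π ^ a) v = (π ^ b) v → a = b := by
    have haux : ∀ a b v, a ≤ b → b < n → (π ^ a) v = (π ^ b) v → a = b := by
      intro a b v hab hb h
      by_contra hne
      have h1 : (π ^ (b - a)) ((π ^ a) v) = (π ^ a) v := by
        rw [← Equiv.Perm.mul_apply, ← pow_add, Nat.sub_add_cancel hab, h]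
      exact hfree (b - a) (by omega) (by omega) _ h1
    intro a b v ha hb h
    rcases le_total a b with hab | hab
    · exact haux a b v hab hb h
    · exact (haux b a v hab ha h.symm).symm
  have hrpow : ∀ w i, r ((π ^ i) (r w)) = r w := by
    intro w i
    apply hrr
    have h1 : π.SameCycle (r w) ((π ^ i) (r w)) := ⟨i, by rw [zpow_natCast]⟩
    exact (h1.symm).trans (hr w)
  refine ⟨r, k, ?_, hkn, hkw, ?_, hrpow⟩
  · intro w
    apply hrr
    exact ⟨-1, by simp⟩
  · intro w i hi
    apply huniq _ _ (r w) (hkn _) hi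
    have := hkw ((π ^ i) (r w))
    rwa [hrpow] at this

theorem NP_ker_le (hn : 0 < n) (hπ : π ^ n = 1)
    (hfree : ∀ i, 0 < i → i < n → ∀ w, (π ^ i) w ≠ w) :
    (NP R π n).ker ≤ (DP R π).range := by
  intro x hx
  obtain ⟨r, k, hr, hkn, hkw, hki, hrr⟩ := exists_rep π n hn hπ hfree
  have hx0 : ∀ w, ∑ i ∈ Finset.range n, x ((π ^ i) w) = 0 := fun w => congrFun hx w
  refine ⟨fun w => ∑ i ∈ Finset.range (k w), x ((π ^ i) (r w)), ?_⟩
  ext w
  rw [DP_apply]
  simp only [hr]
  have h1 : (π ^ (k w + 1)) (r w) = π w := by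
    rw [pow_succ', Equiv.Perm.mul_apply, hkw]
  by_cases hlt : k w + 1 < n
  · have h2 : k (π w) = k w + 1 := by
      rw [← h1]
      exact hki w _ hlt
    rw [h2, Finset.sum_range_succ, hkw]
    abel
  · have h3 : k w + 1 = n := by have := hkn w; omega
    have h2 : k (π w) = 0 := by
      rw [← h1, h3, hπ]
      exact hki w 0 hn
    rw [h2, Finset.range_zero, Finset.sum_empty, zero_sub]
    have h4 := hx0 (r w)
    rw [← h3, Finset.sum_range_succ, hkw] at h4
    exact (eq_neg_of_add_eq_zero_right h4).symm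

theorem DP_ker_le (hn : 0 < n) (hπ : π ^ n = 1)
    (hfree : ∀ i, 0 < i → i < n → ∀ w, (π ^ i) w ≠ w) :
    (DP R π).ker ≤ (NP R π n).range := by
  intro x hx
  have hx' : DP R π x = 0 := hx
  obtain ⟨r, k, hr, hkn, hkw, hki, hrr⟩ := exists_rep π n hn hπ hfree
  set y : P → R := fun w => if k w = 0 then x w else 0 with hy
  refine ⟨y, ?_⟩
  have hinv : DP R π (NP R π n y) = 0 := DP_NP π n hπ y
  have h0 : ∀ w, NP R π n y (r w) = x (r w) := by
    intro w
    rw [NP_apply, Finset.sum_eq_single 0]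
    · have h1 := hki w 0 hn
      simp only [pow_zero, Equiv.Perm.coe_one, id_eq] at h1
      rw [pow_zero, Equiv.Perm.coe_one, id_eq, hy]
      simp only [h1, if_true]
    · intro i hi hi0
      have h1 := hki w i (Finset.mem_range.1 hi)
      rw [hy]
      simp only [h1, if_neg hi0]
    · intro h
      exact absurd (Finset.mem_range.2 hn) h
  ext w
  have h1 := invariant_pow π hinv (k w) (r w)
  have h2 := invariant_pow π hx' (k w) (r w)
  rw [hkw] at h1 h2
  rw [h1, h0, h2]

end perm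

section real
variable {P : Type} [Fintype P]

/-- the operator `x ∘ π - x + k N x` on real vectors -/
noncomputable def SR (π : Equiv.Perm P) (n k : ℕ) : (P → ℝ) →ₗ[ℝ] (P → ℝ) where
  toFun x := fun w => (x (π w) - x w) + k * ∑ i ∈ Finset.range n, x ((π ^ i) w)
  map_add' x y := by
    ext w
    simp only [Pi.add_apply, Finset.sum_add_distrib]
    ring
  map_smul' c x := by
    ext w
    simp only [Pi.smul_apply, smul_eq_mul, RingHom.id_apply, ← Finset.mul_sum]
    ring

omit [Fintype P] in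
theorem SR_apply' (π : Equiv.Perm P) (n k : ℕ) (x : P → ℝ) (w : P) :
    SR π n k x w = (x (π w) - x w) + k * ∑ i ∈ Finset.range n, x ((π ^ i) w) := rfl

omit [Fintype P] in
theorem SR_apply (π : Equiv.Perm P) (n k : ℕ) (x : P → ℝ) :
    SR π n k x = DP ℝ π x + k • NP ℝ π n x := by
  ext w
  rw [SR_apply', Pi.add_apply, DP_apply, Pi.smul_apply, NP_apply, nsmul_eq_mul]

/-- the hyperplane -/
def VH (P : Type) [Fintype P] : Submodule ℝ (P → ℝ) where
  carrier := {x | ∑ w, x w = 0}
  add_mem' := by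
    intro a b (ha : ∑ w, a w = 0) (hb : ∑ w, b w = 0)
    change ∑ w, (a + b) w = 0
    simp only [Pi.add_apply, Finset.sum_add_distrib, ha, hb, add_zero]
  zero_mem' := by
    change ∑ w, (0 : P → ℝ) w = 0
    simp
  smul_mem' := by
    intro c a (ha : ∑ w, a w = 0)
    change ∑ w, (c • a) w = 0
    simp only [Pi.smul_apply, smul_eq_mul, ← Finset.mul_sum, ha, mul_zero]

theorem mem_VH (x : P → ℝ) : x ∈ VH P ↔ ∑ w, x w = 0 := Iff.rfl

theorem sum_comp_perm (π : Equiv.Perm P) (x : P → ℝ) : ∑ w, x (π w) = ∑ w, x w :=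
  Equiv.sum_comp π x

theorem DP_mem (π : Equiv.Perm P) (x : P → ℝ) : DP ℝ π x ∈ VH P := by
  rw [mem_VH]
  simp only [DP_apply, Finset.sum_sub_distrib, sum_comp_perm, sub_self]

theorem NP_mem (π : Equiv.Perm P) (n : ℕ) (x : P → ℝ) (hx : x ∈ VH P) : NP ℝ π n x ∈ VH P := by
  rw [mem_VH] at hx ⊢
  simp only [NP_apply]
  rw [Finset.sum_comm]
  simp only [sum_comp_perm, hx, Finset.sum_const_zero]

theorem SR_mem (π : Equiv.Perm P) (n k : ℕ) (x : P → ℝ) (hx : x ∈ VH P) : SR π n k x ∈ VH P := by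
  rw [SR_apply]
  exact (VH P).add_mem (DP_mem π x) (nsmul_mem (NP_mem π n x hx) k)

theorem SR_one (π : Equiv.Perm P) (n k : ℕ) (c : ℝ) :
    SR π n k (fun _ => c) = fun _ => (k * n : ℝ) * c := by
  ext w
  rw [SR_apply']
  simp only [nsmul_eq_mul, sub_self, zero_add, Finset.sum_const, Finset.card_range]
  ring

/-- the decomposition of `ℝ^P` -/
noncomputable def eW (P : Type) [Fintype P] [Nonempty P] : (VH P × ℝ) ≃ₗ[ℝ] (P → ℝ) where
  toFun y := fun w => (y.1 : P → ℝ) w + y.2
  invFun x := (⟨fun w => x w - (∑ v, x v) / Fintype.card P, by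
    rw [mem_VH]
    have hc : (Fintype.card P : ℝ) ≠ 0 := by exact_mod_cast Fintype.card_ne_zero
    rw [Finset.sum_sub_distrib, Finset.sum_const, Finset.card_univ, nsmul_eq_mul,
      mul_div_cancel₀ _ hc, sub_self]⟩, (∑ v, x v) / Fintype.card P)
  left_inv := by
    rintro ⟨⟨v, hv⟩, t⟩
    have hv' : ∑ w, v w = 0 := hv
    have hc : (Fintype.card P : ℝ) ≠ 0 := by exact_mod_cast Fintype.card_ne_zero
    have h1 : (∑ w, (v w + t)) / Fintype.card P = t := by
      rw [Finset.sum_add_distrib, hv', zero_add, Finset.sum_const, Finset.card_univ,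
        nsmul_eq_mul, mul_div_cancel_left₀ _ hc]
    refine Prod.ext (Subtype.ext ?_) h1
    ext w
    change (v w + t) - (∑ w, (v w + t)) / Fintype.card P = v w
    rw [h1, add_sub_cancel_right]
  right_inv := by
    intro x
    ext w
    change x w - _ + _ = x w
    rw [sub_add_cancel]
  map_add' := by
    intro x y
    ext w
    simp only [Prod.fst_add, Prod.snd_add, Submodule.coe_add, Pi.add_apply]
    ring
  map_smul' := by
    intro c x
    ext w
    simp only [Prod.smul_fst, Prod.smul_snd, Submodule.coe_smul, Pi.smul_apply, smul_eq_mul,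
      RingHom.id_apply]
    ring

theorem det_SR [Nonempty P] (π : Equiv.Perm P) (n k : ℕ) :
    LinearMap.det (SR π n k) =
      LinearMap.det ((SR π n k).restrict (SR_mem π n k)) * (k * n : ℝ) := by
  have h1 : SR π n k = (eW P : (VH P × ℝ) →ₗ[ℝ] (P → ℝ)) ∘ₗ
      (((SR π n k).restrict (SR_mem π n k)).prodMap ((k * n : ℝ) • LinearMap.id)) ∘ₗ
        ((eW P).symm : (P → ℝ) →ₗ[ℝ] (VH P × ℝ)) := by
    apply LinearMap.ext
    intro x
    obtain ⟨y, rfl⟩ := (eW P).surjective x
    obtain ⟨v, t⟩ := y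
    simp only [LinearMap.comp_apply, LinearEquiv.coe_coe, LinearEquiv.symm_apply_apply,
      LinearMap.prodMap_apply, LinearMap.smul_apply, LinearMap.id_apply]
    have h2 : eW P (v, t) = (v : P → ℝ) + (fun _ => t) := rfl
    have h3 : eW P ((SR π n k).restrict (SR_mem π n k) v, (k * n : ℝ) • t) =
      SR π n k (v : P → ℝ) + (fun _ => (k * n : ℝ) * t) := rfl
    rw [h2, h3, map_add, SR_one]
  conv_lhs => rw [h1]
  rw [LinearMap.det_conj, LinearMap.det_prodMap, LinearMap.det_smul, LinearMap.det_id, mul_one,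
    finrank_self, pow_one]

theorem det_int [Nonempty P] (π : Equiv.Perm P) (n k : ℕ) :
    ((LinearMap.det (DP ℤ π + k • NP ℤ π n).toIntLinearMap : ℤ) : ℝ) =
      LinearMap.det (SR π n k) := by
  classical
  refine det_cast (Pi.basisFun ℤ P) (Pi.basisFun ℝ P)
    ({ toFun := fun x w => ((x w : ℤ) : ℝ), map_zero' := by ext; simp,
       map_add' := by intro x y; ext; simp } : (P → ℤ) →+ (P → ℝ)) ?_ _ _ ?_
  · intro i
    ext w
    simp only [Pi.basisFun_apply, AddMonoidHom.coe_mk, ZeroHom.coe_mk, Pi.single_apply]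
    split_ifs <;> simp
  · intro x
    ext w
    rw [SR_apply']
    simp [DP_apply, NP_apply]

/-- restriction of a homomorphism to a lattice -/
def resL (L : Submodule ℤ (VH P)) (f : (P → ℝ) →+ (P → ℝ)) (hV : ∀ x ∈ VH P, f x ∈ VH P)
    (hL : ∀ v : VH P, v ∈ L → (⟨f v, hV v v.2⟩ : VH P) ∈ L) : L →+ L where
  toFun v := ⟨⟨f (v : VH P), hV _ (v : VH P).2⟩, hL _ v.2⟩
  map_zero' := by
    apply Subtype.ext
    apply Subtype.ext
    exact map_zero f
  map_add' x y := by
    apply Subtype.ext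
    apply Subtype.ext
    exact map_add f _ _

theorem resL_coe (L : Submodule ℤ (VH P)) (f : (P → ℝ) →+ (P → ℝ)) (hV : ∀ x ∈ VH P, f x ∈ VH P)
    (hL : ∀ v : VH P, v ∈ L → (⟨f v, hV v v.2⟩ : VH P) ∈ L) (v : L) :
    ((resL L f hV hL v : VH P) : P → ℝ) = f ((v : VH P) : P → ℝ) := rfl

theorem arith (n a1 a2 h0 h1 s1 s2 : ℕ) (hn : 0 < n) (hh : h0 ≠ 0)
    (A1 : a1 * h0 = (1 * n) ^ s1 * h1 * n ^ s1) (A2 : a2 * h0 = (2 * n) ^ s1 * h1 * n ^ s1)
    (B1 : a1 * (1 * n) = (1 * n) ^ s2 * n ^ s2) (B2 : a2 * (2 * n) = (2 * n) ^ s2 * n ^ s2) :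
    n ≤ h1 := by
  rw [one_mul] at A1 B1
  rw [mul_pow] at A2 B2
  have hpos : ∀ m, 0 < n ^ m := fun m => pow_pos hn m
  have ha1 : 0 < a1 := by
    rcases Nat.eq_zero_or_pos a1 with h | h
    · rw [h, zero_mul] at B1
      have := Nat.mul_pos (hpos s2) (hpos s2)
      omega
    · exact h
  have h2 : a2 = 2 ^ s1 * a1 := by
    have : a2 * h0 = 2 ^ s1 * a1 * h0 := by
      rw [A2, mul_assoc (2 ^ s1) a1 h0, A1]; ring
    exact Nat.eq_of_mul_eq_mul_right (Nat.pos_of_ne_zero hh) this
  have h3 : 2 ^ (s1 + 1) = 2 ^ s2 := by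
    have : 2 ^ (s1 + 1) * (a1 * n) = 2 ^ s2 * (a1 * n) := by
      calc 2 ^ (s1 + 1) * (a1 * n) = a2 * (2 * n) := by rw [h2, pow_succ]; ring
        _ = 2 ^ s2 * (n ^ s2 * n ^ s2) := by rw [B2]; ring
        _ = 2 ^ s2 * (a1 * n) := by rw [B1]
    exact Nat.eq_of_mul_eq_mul_right (Nat.mul_pos ha1 hn) this
  have h4 : s2 = s1 + 1 := (Nat.pow_right_injective (le_refl 2) h3).symm
  have h5 : a1 = n ^ s1 * n ^ s1 * n := by
    have : a1 * n = n ^ s1 * n ^ s1 * n * n := by
      rw [B1, h4, pow_succ]; ring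
    exact Nat.eq_of_mul_eq_mul_right hn this
  have h6 : h1 = n * h0 := by
    have : n ^ s1 * n ^ s1 * h1 = n ^ s1 * n ^ s1 * (n * h0) := by
      calc n ^ s1 * n ^ s1 * h1 = a1 * h0 := by rw [A1]; ring
        _ = n ^ s1 * n ^ s1 * (n * h0) := by rw [h5]; ring
    exact Nat.eq_of_mul_eq_mul_left (Nat.mul_pos (hpos s1) (hpos s1)) this
  rw [h6]
  exact Nat.le_mul_of_pos_right n (Nat.pos_of_ne_zero hh)

end real

end C1a

theorem lattice_cyclic {P : Type} [Fintype P] [Nonempty P] (π : Equiv.Perm P) (n : ℕ)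
    (hn : 0 < n) (hπ : π ^ n = 1) (hfree : ∀ i, 0 < i → i < n → ∀ w, (π ^ i) w ≠ w)
    (Λ : AddSubgroup (P → ℝ)) (hdisc : DiscreteTopology Λ)
    (hspan : ∀ x : P → ℝ, x ∈ Submodule.span ℝ (Λ : Set (P → ℝ)) ↔ ∑ w, x w = 0)
    (hst : ∀ x ∈ Λ, (fun w => x (π w)) ∈ Λ) (Λ0 Λ1 : AddSubgroup (P → ℝ))
    (h0 : ∀ x : P → ℝ, x ∈ Λ0 ↔ x ∈ Λ ∧ ∀ w, ∑ i ∈ Finset.range n, x ((π ^ i) w) = 0)
    (h1 : ∀ x : P → ℝ, x ∈ Λ1 ↔ ∃ y ∈ Λ, x = fun w => y (π w) - y w) :
    n ≤ Λ1.relIndex Λ0 := by
  classical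
  let L : Submodule ℤ (C1a.VH P) :=
    { carrier := {v | (v : P → ℝ) ∈ Λ}
      add_mem' := fun {a b} (ha : (a : P → ℝ) ∈ Λ) (hb : (b : P → ℝ) ∈ Λ) => Λ.add_mem ha hb
      zero_mem' := Λ.zero_mem
      smul_mem' := fun c a (ha : (a : P → ℝ) ∈ Λ) => Λ.zsmul_mem ha c }
  have hL : ∀ v : C1a.VH P, v ∈ L ↔ (v : P → ℝ) ∈ Λ := fun v => Iff.rfl
  have hΛV : ∀ x ∈ Λ, x ∈ C1a.VH P := by
    intro x hx
    rw [C1a.mem_VH, ← hspan]
    exact Submodule.subset_span hx
  have hdL : DiscreteTopology L := by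
    let f : L → Λ := fun v => ⟨((v : C1a.VH P) : P → ℝ), v.2⟩
    have hf : Continuous f := by
      apply Continuous.subtype_mk
      exact continuous_subtype_val.comp continuous_subtype_val
    have hinj : Function.Injective f := by
      intro a b hab
      apply Subtype.ext
      apply Subtype.ext
      exact congrArg (fun z : Λ => (z : P → ℝ)) hab
    exact DiscreteTopology.of_continuous_injective hf hinj
  have hZ : IsZLattice ℝ L := by
    refine ⟨?_⟩
    rw [eq_top_iff]
    rintro ⟨x, hx⟩ -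
    have hx1 : x ∈ Submodule.span ℝ (Λ : Set (P → ℝ)) := (hspan x).2 hx
    have h2 : (Λ : Set (P → ℝ)) = (C1a.VH P).subtype '' (L : Set (C1a.VH P)) := by
      ext y
      constructor
      · intro hy
        exact ⟨⟨y, hΛV y hy⟩, hy, rfl⟩
      · rintro ⟨v, hv, rfl⟩
        exact hv
    rw [h2, ← Submodule.map_span] at hx1
    obtain ⟨v, hv, hvx⟩ := hx1
    have : v = ⟨x, hx⟩ := Subtype.ext hvx
    rw [← this]
    exact hv
  have hfin : Module.Finite ℤ L := ZLattice.module_finite ℝ L
  have hfree' : Module.Free ℤ L := ZLattice.module_free ℝ L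
  -- the operators
  have hpow : ∀ x ∈ Λ, ∀ i : ℕ, (fun w => x ((π ^ i) w)) ∈ Λ := by
    intro x hx i
    induction i with
    | zero => simpa using hx
    | succ i ih =>
      have := hst _ ih
      have h2 : (fun w => x ((π ^ i) (π w))) = fun w => x ((π ^ (i + 1)) w) := by
        ext w
        rw [pow_succ, Equiv.Perm.mul_apply]
      rw [← h2]
      exact this
  have hDΛ : ∀ x ∈ Λ, C1a.DP ℝ π x ∈ Λ := by
    intro x hx
    exact Λ.sub_mem (hst x hx) hx
  have hNΛ : ∀ x ∈ Λ, C1a.NP ℝ π n x ∈ Λ := by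
    intro x hx
    have : C1a.NP ℝ π n x = ∑ i ∈ Finset.range n, (fun w => x ((π ^ i) w)) := by
      ext w
      rw [C1a.NP_apply, Finset.sum_apply]
    rw [this]
    exact Λ.sum_mem (fun i _ => hpow x hx i)
  let D : L →+ L := C1a.resL L (C1a.DP ℝ π) (fun x _ => C1a.DP_mem π x) (fun v hv => hDΛ _ hv)
  let N : L →+ L := C1a.resL L (C1a.NP ℝ π n) (fun x hx => C1a.NP_mem π n x hx)
    (fun v hv => hNΛ _ hv)
  have hDc : ∀ v : L, ((D v : C1a.VH P) : P → ℝ) = C1a.DP ℝ π ((v : C1a.VH P) : P → ℝ) :=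
    fun v => rfl
  have hNc : ∀ v : L, ((N v : C1a.VH P) : P → ℝ) = C1a.NP ℝ π n ((v : C1a.VH P) : P → ℝ) :=
    fun v => rfl
  have hext : ∀ u v : L, ((u : C1a.VH P) : P → ℝ) = ((v : C1a.VH P) : P → ℝ) → u = v :=
    fun u v h => Subtype.ext (Subtype.ext h)
  have hDN : ∀ x, D (N x) = 0 := fun x => hext _ _ (by rw [hDc, hNc, C1a.DP_NP π n hπ]; rfl)
  have hND : ∀ x, N (D x) = 0 := fun x => hext _ _ (by rw [hNc, hDc, C1a.NP_DP π n hπ]; rfl)
  have hDK : ∀ x, D x = 0 → N x = n • x := by
    intro x hx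
    apply hext
    rw [hNc]
    have h2 : C1a.DP ℝ π ((x : C1a.VH P) : P → ℝ) = 0 := by
      rw [← hDc, hx]; rfl
    rw [C1a.NP_of_invariant π n h2]
    rfl
  -- determinants
  have hdet : ∀ k : ℕ, ((LinearMap.det (D + k • N).toIntLinearMap : ℤ) : ℝ) =
      LinearMap.det ((C1a.SR π n k).restrict (C1a.SR_mem π n k)) := by
    intro k
    let b := Module.Free.chooseBasis ℤ L
    refine C1a.det_cast b (b.ofZLatticeBasis ℝ L) L.subtype.toAddMonoidHom ?_ _ _ ?_
    · intro i
      rw [Module.Basis.ofZLatticeBasis_apply]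
      rfl
    · intro x
      apply Subtype.ext
      change _ = C1a.SR π n k ((x : C1a.VH P) : P → ℝ)
      rw [C1a.SR_apply, ← hDc, ← hNc]
      rfl
  have hb : ∀ k : ℕ, (LinearMap.det (C1a.DP ℤ π + k • C1a.NP ℤ π n).toIntLinearMap).natAbs =
      (LinearMap.det (D + k • N).toIntLinearMap).natAbs * (k * n) := by
    intro k
    have e1 := C1a.det_int π n k
    rw [C1a.det_SR, ← hdet] at e1
    have e2 : LinearMap.det (C1a.DP ℤ π + k • C1a.NP ℤ π n).toIntLinearMap =
        LinearMap.det (D + k • N).toIntLinearMap * (k * n : ℤ) := by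
      exact_mod_cast e1
    rw [e2, Int.natAbs_mul, Int.natAbs_mul, Int.natAbs_natCast, Int.natAbs_natCast]
  have hZ0 : (C1a.NP ℤ π n).range.relIndex (C1a.DP ℤ π).ker = 1 :=
    AddSubgroup.relIndex_eq_one.2 (C1a.DP_ker_le π n hn hπ hfree)
  have hZ1 : (C1a.DP ℤ π).range.relIndex (C1a.NP ℤ π n).ker = 1 :=
    AddSubgroup.relIndex_eq_one.2 (C1a.NP_ker_le π n hn hπ hfree)
  have hZk : ∀ k : ℕ, 0 < k → (LinearMap.det (D + k • N).toIntLinearMap).natAbs * (k * n) =
      (k * n) ^ Module.finrank ℤ (C1a.DP ℤ π).ker * n ^ Module.finrank ℤ (C1a.DP ℤ π).ker := by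
    intro k hk
    have := C1a.herb_det (C1a.DP ℤ π) (C1a.NP ℤ π n) n k hn hk (C1a.DP_NP π n hπ)
      (C1a.NP_DP π n hπ) (fun x hx => C1a.NP_of_invariant π n hx)
    rw [hZ0, hZ1, mul_one, mul_one, hb] at this
    exact this
  have hLk : ∀ k : ℕ, 0 < k → (LinearMap.det (D + k • N).toIntLinearMap).natAbs *
      N.range.relIndex D.ker =
      (k * n) ^ Module.finrank ℤ D.ker * D.range.relIndex N.ker * n ^ Module.finrank ℤ D.ker :=
    fun k hk => C1a.herb_det D N n k hn hk hDN hND hDK
  have hne : N.range.relIndex D.ker ≠ 0 := C1a.h0_ne_zero D N n hn hDN hDK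
  have hmain := C1a.arith n _ _ _ _ _ _ hn hne (hLk 1 one_pos) (hLk 2 two_pos) (hZk 1 one_pos)
    (hZk 2 two_pos)
  -- transfer
  let j : L →+ (P → ℝ) := (C1a.VH P).subtype.toAddMonoidHom.comp L.subtype.toAddMonoidHom
  have hj : Function.Injective j := fun u v h => hext u v h
  have ht := AddSubgroup.relIndex_map_map_of_injective (f := j) D.range N.ker hj
  have hm1 : D.range.map j = Λ1 := by
    ext x
    rw [h1]
    constructor
    · rintro ⟨_, ⟨y, rfl⟩, rfl⟩
      exact ⟨((y : C1a.VH P) : P → ℝ), y.2, rfl⟩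
    · rintro ⟨y, hy, rfl⟩
      exact ⟨D ⟨⟨y, hΛV y hy⟩, hy⟩, ⟨_, rfl⟩, rfl⟩
  have hm0 : N.ker.map j = Λ0 := by
    ext x
    rw [h0]
    constructor
    · rintro ⟨y, hy, rfl⟩
      refine ⟨y.2, fun w => ?_⟩
      have hy' : N y = 0 := hy
      have h2 : C1a.NP ℝ π n ((y : C1a.VH P) : P → ℝ) = 0 := by
        rw [← hNc, hy']; rfl
      exact congrFun h2 w
    · rintro ⟨hx, hx0⟩
      refine ⟨⟨⟨x, hΛV x hx⟩, hx⟩, ?_, rfl⟩
      change N _ = 0
      apply hext
      rw [hNc]
      ext w
      exact hx0 w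
  rw [hm1, hm0] at ht
  rw [ht]
  exact hmain

end Pool.Agent.Lib.MP_ca71b5_nt
end

section

section

/-!
# Invariant ideals in unramified extensions
-/

set_option autoImplicit false
open scoped NumberField

namespace Pool.Agent.Lib.MP_ca71b5_nt

private theorem c2a_ramIdx (E E' : Type) [Field E] [NumberField E] [Field E']
    [NumberField E'] [Algebra E E'] (hunr : Algebra.Unramified (𝓞 E) (𝓞 E')) (Q : Ideal (𝓞 E'))
    [Q.IsPrime] : Q.ramificationIdx (𝓞 E) = 1 := by
  have h1 : Algebra.FormallyUnramified (𝓞 E) (𝓞 E') := hunr.formallyUnramified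
  have h2 : Algebra.FormallyUnramified (𝓞 E') (Localization.AtPrime Q) :=
    Algebra.FormallyUnramified.of_isLocalization Q.primeCompl
  have h3 : Algebra.IsUnramifiedAt (𝓞 E) Q :=
    Algebra.FormallyUnramified.comp (𝓞 E) (𝓞 E') (Localization.AtPrime Q)
  exact Ideal.ramificationIdx_eq_one_of_isUnramifiedAt

private theorem c2a_main (E E' : Type) [Field E] [NumberField E] [Field E']
    [NumberField E'] [Algebra E E'] [IsGalois E E'] (hunr : Algebra.Unramified (𝓞 E) (𝓞 E'))
    (I : Ideal (𝓞 E')) : I ≠ ⊥ →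
    (∀ τ : E' ≃ₐ[E] E', I.map (galRestrict (𝓞 E) E E' (𝓞 E') τ) = I) →
    ∃ J : Ideal (𝓞 E), I = J.map (algebraMap (𝓞 E) (𝓞 E')) := by
  induction I using WellFoundedGT.induction with
  | ind I ih =>
    intro hI hinv
    by_cases hT : I = ⊤
    · exact ⟨⊤, by rw [hT, Ideal.map_top]⟩
    obtain ⟨Q, hQm, hIQ⟩ := Ideal.exists_le_maximal I hT
    set P : Ideal (𝓞 E) := Q.under (𝓞 E) with hP
    have hQ0 : Q ≠ ⊥ := fun h => hI (le_bot_iff.1 (h ▸ hIQ))
    have hPm : P.IsMaximal := Ideal.IsMaximal.under (𝓞 E) Q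
    have hP0 : P ≠ ⊥ := by
      intro h
      exact hQ0 (Ideal.eq_bot_of_comap_eq_bot h)
    have hcomap : ∀ τ : E' ≃ₐ[E] E', I.comap (galRestrict (𝓞 E) E E' (𝓞 E') τ) = I := by
      intro τ
      conv_lhs => rw [← hinv τ]
      exact Ideal.comap_map_of_bijective _ ((galRestrict (𝓞 E) E E' (𝓞 E') τ).bijective)
    have hQP : Q ∈ P.primesOver (𝓞 E') := ⟨hQm.isPrime, ⟨rfl⟩⟩
    have hle : ∀ Q' ∈ P.primesOver (𝓞 E'), I ≤ Q' := by
      intro Q' hQ'
      obtain ⟨σ, hσ⟩ := Ideal.exists_comap_galRestrict_eq (𝓞 E) E E' (𝓞 E') hQP hQ'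
      rw [← hσ, ← hcomap σ]
      exact Ideal.comap_mono hIQ
    have hprod := Ideal.map_algebraMap_eq_finsetProd_pow (R := 𝓞 E') (p := P) hP0
    have hdvd : P.map (algebraMap (𝓞 E) (𝓞 E')) ∣ I := by
      rw [hprod]
      have e : ∏ Q' ∈ P.primesOver (𝓞 E'), Q' ^ Q'.ramificationIdx (𝓞 E) =
          ∏ Q' ∈ P.primesOver (𝓞 E'), Q' := by
        refine Finset.prod_congr rfl fun Q' hQ' => ?_
        have : Q'.IsPrime := (Set.mem_toFinset.1 hQ').1
        rw [c2a_ramIdx E E' hunr Q', pow_one]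
      rw [e]
      refine Finset.prod_primes_dvd I ?_ ?_
      · intro Q' hQ'
        have hQ'' := Set.mem_toFinset.1 hQ'
        have h1 : Q'.IsPrime := hQ''.1
        have h2 : Q'.LiesOver P := hQ''.2
        exact Ideal.prime_of_isPrime (Ideal.ne_bot_of_liesOver_of_ne_bot hP0 Q') h1
      · intro Q' hQ'
        rw [Ideal.dvd_iff_le]
        exact hle Q' (Set.mem_toFinset.1 hQ')
    obtain ⟨I', hI'⟩ := hdvd
    have hPO : P.map (algebraMap (𝓞 E) (𝓞 E')) ≠ 0 := Ideal.map_ne_bot_of_ne_bot hP0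
    have hPQ : P.map (algebraMap (𝓞 E) (𝓞 E')) ≤ Q := Ideal.map_le_iff_le_comap.2 le_rfl
    have hI'0 : I' ≠ ⊥ := by
      rintro rfl
      rw [Ideal.mul_bot] at hI'
      exact hI hI'
    have hlt : I < I' := by
      have h0 : P.map (algebraMap (𝓞 E) (𝓞 E')) * I' ≤ I' := Ideal.mul_le_right
      refine lt_of_le_of_ne (hI'.le.trans h0) ?_
      intro h
      rw [← h] at hI'
      have h1 : (1 : Ideal (𝓞 E')) * I = P.map (algebraMap (𝓞 E) (𝓞 E')) * I := by
        rw [one_mul]; exact hI'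
      have h2 := mul_right_cancel₀ (show I ≠ 0 from hI) h1
      rw [← h2] at hPQ
      exact hQm.ne_top (top_le_iff.1 (by rwa [Ideal.one_eq_top] at hPQ))
    have hinv' : ∀ τ : E' ≃ₐ[E] E', I'.map (galRestrict (𝓞 E) E E' (𝓞 E') τ) = I' := by
      intro τ
      have h1 := hinv τ
      have h3 : (P.map (algebraMap (𝓞 E) (𝓞 E'))).map (galRestrict (𝓞 E) E E' (𝓞 E') τ) =
          P.map (algebraMap (𝓞 E) (𝓞 E')) := by
        apply le_antisymm
        · rw [Ideal.map_le_iff_le_comap, Ideal.map_le_iff_le_comap]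
          intro x hx
          rw [Ideal.mem_comap, Ideal.mem_comap, AlgEquiv.commutes]
          exact Ideal.mem_map_of_mem _ hx
        · rw [Ideal.map_le_iff_le_comap]
          intro x hx
          rw [Ideal.mem_comap, ← (galRestrict (𝓞 E) E E' (𝓞 E') τ).commutes x]
          exact Ideal.mem_map_of_mem _ (Ideal.mem_map_of_mem _ hx)
      rw [hI', Ideal.map_mul, h3] at h1
      exact mul_left_cancel₀ hPO h1
    obtain ⟨J', hJ'⟩ := ih I' hlt hI'0 hinv'
    refine ⟨P * J', ?_⟩
    rw [Ideal.map_mul, ← hJ']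
    exact hI'

theorem exists_ideal_of_invariant (E E' : Type) [Field E] [NumberField E] [Field E']
    [NumberField E'] [Algebra E E'] [IsGalois E E'] (hunr : Algebra.Unramified (𝓞 E) (𝓞 E'))
    (I : Ideal (𝓞 E')) (hI : I ≠ ⊥)
    (hinv : ∀ τ : E' ≃ₐ[E] E', ∀ x : 𝓞 E', x ∈ I → ∀ y : 𝓞 E', (y : E') = τ x → y ∈ I) :
    ∃ J : Ideal (𝓞 E), I = J.map (algebraMap (𝓞 E) (𝓞 E')) := by
  refine c2a_main E E' hunr I hI ?_
  have h1 : ∀ τ : E' ≃ₐ[E] E', ∀ x ∈ I, galRestrict (𝓞 E) E E' (𝓞 E') τ x ∈ I := fun τ x hx =>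
    hinv τ x hx _ (algebraMap_galRestrict_apply (𝓞 E) τ x)
  intro τ
  apply le_antisymm
  · rw [Ideal.map_le_iff_le_comap]
    exact fun x hx => h1 τ x hx
  · intro x hx
    have h2 := h1 τ⁻¹ x hx
    have h3 : galRestrict (𝓞 E) E E' (𝓞 E') τ (galRestrict (𝓞 E) E E' (𝓞 E') τ⁻¹ x) = x := by
      rw [← AlgEquiv.mul_apply, ← map_mul, mul_inv_cancel, map_one, AlgEquiv.one_apply]
    rw [← h3]
    exact Ideal.mem_map_of_mem _ h2

end Pool.Agent.Lib.MP_ca71b5_nt
end

section

/-!
# Unramified extensions and composita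
-/

set_option autoImplicit false
open scoped NumberField

namespace Pool.Agent.Lib.MP_ca71b5_nt

/-- The order of the inertia group is the ramification index. -/
theorem card_inertia_numberField (K L : Type) [Field K] [Field L] [NumberField K] [NumberField L]
    [Algebra K L] [IsGalois K L] (P : Ideal (𝓞 L)) [P.IsPrime] :
    Nat.card (P.inertia (L ≃ₐ[K] L)) = P.ramificationIdx (𝓞 K) := by
  rw [Ideal.card_inertia_eq_ramificationIdxIn (P.under (𝓞 K)) P,
    Ideal.ramificationIdxIn_eq_ramificationIdx (P.under (𝓞 K)) P (L ≃ₐ[K] L)]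

theorem unramified_iff_inertia (K L : Type) [Field K] [Field L] [NumberField K] [NumberField L]
    [Algebra K L] [IsGalois K L] :
    Algebra.Unramified (𝓞 K) (𝓞 L) ↔
      ∀ (P : Ideal (𝓞 L)) (_ : P.IsPrime) (s : L ≃ₐ[K] L), s ∈ P.inertia (L ≃ₐ[K] L) → s = 1 := by
  rw [Algebra.unramified_iff_forall]
  constructor
  · intro h P hP s hs
    have h1 : Algebra.IsUnramifiedAt (𝓞 K) P := h ⟨P, hP⟩
    rw [← Ideal.ramificationIdx_eq_one_iff, ← card_inertia_numberField] at h1
    have h2 : P.inertia (L ≃ₐ[K] L) = ⊥ := Subgroup.card_eq_one.mp h1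
    rw [h2] at hs
    exact hs
  · rintro h ⟨P, hP⟩
    show Algebra.IsUnramifiedAt (𝓞 K) P
    rw [← Ideal.ramificationIdx_eq_one_iff, ← card_inertia_numberField]
    have h2 : P.inertia (L ≃ₐ[K] L) = ⊥ := by
      rw [eq_bot_iff]
      intro s hs
      exact h P hP s hs
    rw [h2]
    exact Subgroup.card_bot

theorem unramified_compositum (E E' E1 E1' : Type) [Field E] [NumberField E] [Field E']
    [NumberField E'] [Field E1] [NumberField E1] [Field E1'] [NumberField E1'] [Algebra E E']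
    [Algebra E E1] [Algebra E E1'] [Algebra E' E1'] [Algebra E1 E1'] [IsScalarTower E E' E1']
    [IsScalarTower E E1 E1'] [IsGalois E E'] [IsGalois E1 E1']
    (hgen : ∀ τ : E1' ≃ₐ[E1] E1', (∀ x : E', τ (algebraMap E' E1' x) = algebraMap E' E1' x) →
      τ = 1) (h : Algebra.Unramified (𝓞 E) (𝓞 E')) : Algebra.Unramified (𝓞 E1) (𝓞 E1') := by
  rw [unramified_iff_inertia] at h ⊢
  intro Q hQ s hs
  apply hgen
  -- the restriction of s to E'
  let s0 : E1' ≃ₐ[E] E1' := s.restrictScalars E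
  let s' : E' ≃ₐ[E] E' := s0.restrictNormal E'
  have hs' : ∀ x : E', algebraMap E' E1' (s' x) = s (algebraMap E' E1' x) := fun x =>
    s0.restrictNormal_commutes E' x
  let P : Ideal (𝓞 E') := Q.under (𝓞 E')
  have hP : P.IsPrime := inferInstance
  have hmem : s' ∈ P.inertia (E' ≃ₐ[E] E') := by
    intro x
    show s' • x - x ∈ P
    show algebraMap (𝓞 E') (𝓞 E1') (s' • x - x) ∈ Q
    have e : algebraMap (𝓞 E') (𝓞 E1') (s' • x - x)
        = s • (algebraMap (𝓞 E') (𝓞 E1') x) - algebraMap (𝓞 E') (𝓞 E1') x := by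
      apply NumberField.RingOfIntegers.ext
      have := hs' (x : E')
      rw [map_sub]
      exact congrArg (fun z => z - algebraMap E' E1' (x : E')) this
    rw [e]
    exact hs _
  have h1 := h P hP s' hmem
  intro x
  rw [← hs', h1]
  rfl

end Pool.Agent.Lib.MP_ca71b5_nt
end

section

/-!
# The unit index inequality
-/

set_option autoImplicit false
open scoped NumberField

namespace Pool.Agent.Lib.MP_ca71b5_nt

theorem unit_index {A : Type} [CommGroup A] (σ : A ≃* A) {P : Type} [Fintype P] [Nonempty P]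
    (π : Equiv.Perm P) (n : ℕ) (hn : 0 < n) (hσ : ∀ a, (σ ^ n) a = a) (hπ : π ^ n = 1)
    (hfree : ∀ i, 0 < i → i < n → ∀ w, (π ^ i) w ≠ w) (f : A → P → ℝ)
    (hf : ∀ a b, f (a * b) = f a + f b) (hfσ : ∀ a w, f (σ a) w = f a (π w))
    (hker : ∀ a, f a = 0 ↔ IsOfFinOrder a) (Λ : AddSubgroup (P → ℝ))
    (hΛ : (Λ : Set (P → ℝ)) = Set.range f) (hdisc : DiscreteTopology Λ)
    (hspan : ∀ x : P → ℝ, x ∈ Submodule.span ℝ (Λ : Set (P → ℝ)) ↔ ∑ w, x w = 0) (w : ℕ)
    (hw : {a : A | IsOfFinOrder a ∧ σ a = a}.Finite)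
    (hw' : {a : A | IsOfFinOrder a ∧ σ a = a}.ncard ≤ w) (htors : {a : A | IsOfFinOrder a}.Finite)
    (U1 U2 : Subgroup A) (h1 : ∀ a, a ∈ U1 ↔ ∏ i ∈ Finset.range n, (σ ^ i) a = 1)
    (h2 : ∀ a, a ∈ U2 ↔ ∃ b, a = σ b / b) : n ≤ w * U2.relIndex U1 := by
  classical
  -- the logarithm as a homomorphism
  let F : A →* Multiplicative (P → ℝ) :=
    MonoidHom.mk' (fun a => Multiplicative.ofAdd (f a)) (fun a b => by
      rw [hf, ofAdd_add])
  have hFapp : ∀ a, F a = Multiplicative.ofAdd (f a) := fun a => rfl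
  have hf1 : f 1 = 0 := by
    have := hf 1 1
    rw [mul_one] at this
    exact left_eq_add.mp this
  have hfinv : ∀ a, f a⁻¹ = - f a := by
    intro a
    have := hf a a⁻¹
    rw [mul_inv_cancel, hf1] at this
    exact (neg_eq_of_add_eq_zero_right this.symm).symm
  have hfdiv : ∀ a b, f (a / b) = f a - f b := by
    intro a b
    rw [div_eq_mul_inv, hf, hfinv, sub_eq_add_neg]
  have hfpow : ∀ (i : ℕ) a v, f ((σ ^ i) a) v = f a ((π ^ i) v) := by
    intro i
    induction i with
    | zero => intro a v; simp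
    | succ i ih =>
      intro a v
      have e1 : (σ ^ (i + 1)) a = (σ ^ i) (σ a) := by
        rw [pow_succ]; rfl
      have e2 : (π ^ (i + 1)) v = π ((π ^ i) v) := by
        rw [pow_succ']; rfl
      rw [e1, ih, hfσ, e2]
  have hfprod : ∀ a v, f (∏ i ∈ Finset.range n, (σ ^ i) a) v
      = ∑ i ∈ Finset.range n, f a ((π ^ i) v) := by
    intro a v
    have gen : ∀ s : Finset ℕ, f (∏ i ∈ s, (σ ^ i) a) v = ∑ i ∈ s, f a ((π ^ i) v) := by
      intro s
      induction s using Finset.induction_on with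
      | empty => simp [hf1]
      | insert i s his ih =>
        rw [Finset.prod_insert his, Finset.sum_insert his, hf, Pi.add_apply, ih, hfpow]
    exact gen _
  have hmem : ∀ a, f a ∈ Λ := by
    intro a
    have : f a ∈ (Λ : Set (P → ℝ)) := by rw [hΛ]; exact ⟨a, rfl⟩
    exact this
  have hsurj : ∀ x ∈ Λ, ∃ a, f a = x := by
    intro x hx
    have : x ∈ (Λ : Set (P → ℝ)) := hx
    rw [hΛ] at this
    exact this
  -- the lattices
  let Λ0 : AddSubgroup (P → ℝ) :=
    { carrier := {x | x ∈ Λ ∧ ∀ w, ∑ i ∈ Finset.range n, x ((π ^ i) w) = 0}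
      zero_mem' := ⟨Λ.zero_mem, fun w => by simp⟩
      add_mem' := by
        rintro x y ⟨hx, hx'⟩ ⟨hy, hy'⟩
        refine ⟨Λ.add_mem hx hy, fun w => ?_⟩
        simp only [Pi.add_apply, Finset.sum_add_distrib, hx' w, hy' w, add_zero]
      neg_mem' := by
        rintro x ⟨hx, hx'⟩
        refine ⟨Λ.neg_mem hx, fun w => ?_⟩
        simp only [Pi.neg_apply, Finset.sum_neg_distrib, hx' w, neg_zero] }
  let Λ1 : AddSubgroup (P → ℝ) :=
    { carrier := {x | ∃ y ∈ Λ, x = fun w => y (π w) - y w}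
      zero_mem' := ⟨0, Λ.zero_mem, by funext w; simp⟩
      add_mem' := by
        rintro x y ⟨u, hu, rfl⟩ ⟨v, hv, rfl⟩
        refine ⟨u + v, Λ.add_mem hu hv, ?_⟩
        funext w
        simp only [Pi.add_apply]
        ring
      neg_mem' := by
        rintro x ⟨u, hu, rfl⟩
        refine ⟨-u, Λ.neg_mem hu, ?_⟩
        funext w
        simp only [Pi.neg_apply]
        ring }
  have hΛ0 : ∀ x : P → ℝ, x ∈ Λ0 ↔ x ∈ Λ ∧ ∀ w, ∑ i ∈ Finset.range n, x ((π ^ i) w) = 0 :=
    fun x => Iff.rfl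
  have hΛ1 : ∀ x : P → ℝ, x ∈ Λ1 ↔ ∃ y ∈ Λ, x = fun w => y (π w) - y w := fun x => Iff.rfl
  have hst : ∀ x ∈ Λ, (fun w => x (π w)) ∈ Λ := by
    intro x hx
    obtain ⟨a, rfl⟩ := hsurj x hx
    have : (fun w => f a (π w)) = f (σ a) := by
      funext v; rw [hfσ]
    rw [this]
    exact hmem _
  have hlat : n ≤ Λ1.relIndex Λ0 :=
    lattice_cyclic π n hn hπ hfree Λ hdisc hspan hst Λ0 Λ1 hΛ0 hΛ1
  -- the preimages
  let A' : Subgroup A := (AddSubgroup.toSubgroup Λ0).comap F
  let B' : Subgroup A := (AddSubgroup.toSubgroup Λ1).comap F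
  have hA' : ∀ a, a ∈ A' ↔ f a ∈ Λ0 := fun a => Iff.rfl
  have hB' : ∀ a, a ∈ B' ↔ f a ∈ Λ1 := fun a => Iff.rfl
  have hmapA : A'.map F = AddSubgroup.toSubgroup Λ0 := by
    apply Subgroup.map_comap_eq_self
    intro x hx
    have hx' : Multiplicative.toAdd x ∈ Λ0 := hx
    obtain ⟨a, ha⟩ := hsurj _ ((hΛ0 _).1 hx').1
    exact ⟨a, by rw [hFapp, ha]; rfl⟩
  have hBA : B'.relIndex A' = Λ1.relIndex Λ0 := by
    show ((AddSubgroup.toSubgroup Λ1).comap F).relIndex A' = _
    rw [Subgroup.relIndex_comap, hmapA]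
    exact AddSubgroup.relIndex_toSubgroup Λ1 Λ0
  -- the norm
  let N : A →* A := MonoidHom.mk' (fun a => ∏ i ∈ Finset.range n, (σ ^ i) a) (fun a b => by
    rw [← Finset.prod_mul_distrib]
    exact Finset.prod_congr rfl (fun i _ => map_mul _ _ _))
  have hNapp : ∀ a, N a = ∏ i ∈ Finset.range n, (σ ^ i) a := fun a => rfl
  have hU1 : U1 = N.ker := by
    ext a
    rw [h1, MonoidHom.mem_ker, hNapp]
  have hA'N : ∀ a, a ∈ A' ↔ IsOfFinOrder (N a) := by
    intro a
    rw [hA', hΛ0, ← hker]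
    constructor
    · rintro ⟨_, h⟩
      funext v
      rw [hNapp, hfprod]
      exact h v
    · intro h
      refine ⟨hmem a, fun v => ?_⟩
      rw [← hfprod, ← hNapp, h]
      rfl
  have hσN : ∀ a, σ (N a) = N a := by
    intro a
    rw [hNapp, map_prod]
    have e1 : ∀ i, σ ((σ ^ i) a) = (σ ^ (i + 1)) a := by
      intro i; rw [pow_succ']; rfl
    simp only [e1]
    have e2 := Finset.prod_range_succ (fun i => (σ ^ i) a) n
    have e3 := Finset.prod_range_succ' (fun i => (σ ^ i) a) n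
    rw [e2] at e3
    simp only [hσ, pow_zero, MulAut.one_apply] at e3
    exact (mul_right_cancel e3).symm
  have hU2B : U2 ≤ B' := by
    intro a ha
    obtain ⟨b, rfl⟩ := (h2 a).1 ha
    rw [hB', hΛ1]
    refine ⟨f b, hmem b, ?_⟩
    funext v
    rw [hfdiv, Pi.sub_apply, hfσ]
  have hU2U1 : U2 ≤ U1 := by
    intro a ha
    obtain ⟨b, rfl⟩ := (h2 a).1 ha
    rw [hU1, MonoidHom.mem_ker, map_div]
    have : N (σ b) = N b := by
      rw [← hσN b, hNapp, hNapp, map_prod]
      apply Finset.prod_congr rfl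
      intro i _
      have e1 : (σ ^ i) (σ b) = (σ ^ (i + 1)) b := by rw [pow_succ]; rfl
      have e2 : σ ((σ ^ i) b) = (σ ^ (i + 1)) b := by rw [pow_succ']; rfl
      rw [e1, e2]
    rw [this, div_self']
  have hU1A : U1 ≤ A' := by
    intro a ha
    rw [hA'N]
    rw [hU1, MonoidHom.mem_ker] at ha
    rw [ha]
    exact IsOfFinOrder.one
  -- torsion subgroup
  let T : Subgroup A := CommGroup.torsion A
  have hT : ∀ a, a ∈ T ↔ IsOfFinOrder a := fun a => Iff.rfl
  have hB'sup : B' ≤ U2 ⊔ T := by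
    intro a ha
    rw [hB', hΛ1] at ha
    obtain ⟨y, hy, hay⟩ := ha
    obtain ⟨b, rfl⟩ := hsurj y hy
    have hq : f (a / (σ b / b)) = 0 := by
      rw [hfdiv, hfdiv, hay]
      funext v
      simp only [Pi.sub_apply, Pi.zero_apply, hfσ]
      ring
    have hTq : a / (σ b / b) ∈ T := (hT _).2 ((hker _).1 hq)
    have hUb : σ b / b ∈ U2 := (h2 _).2 ⟨b, rfl⟩
    have : a = (σ b / b) * (a / (σ b / b)) := by rw [mul_div_cancel]
    rw [this]
    exact Subgroup.mul_mem_sup hUb hTq
  have hTfin : Finite T := by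
    have : Finite {a : A | IsOfFinOrder a} := htors
    exact this
  have hne : U2.relIndex B' ≠ 0 := by
    have e1 : U2.relIndex (U2 ⊔ T) ≠ 0 := by
      rw [Subgroup.relIndex_sup_left]
      have : Finite (T ⧸ U2.subgroupOf T) := inferInstance
      exact Subgroup.index_ne_zero_of_finite
    intro h0
    apply e1
    have := Subgroup.relIndex_mul_relIndex U2 B' (U2 ⊔ T) hU2B hB'sup
    rw [h0, zero_mul] at this
    exact this.symm
  -- the norm index
  have hNidx : U1.relIndex A' ≤ w := by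
    rw [hU1, Subgroup.relIndex_ker]
    have hsub : ((A'.map N : Subgroup A) : Set A) ⊆ {a : A | IsOfFinOrder a ∧ σ a = a} := by
      rintro _ ⟨a, ha, rfl⟩
      exact ⟨(hA'N a).1 ha, hσN a⟩
    have := Set.ncard_le_ncard hsub hw
    rw [← Nat.card_coe_set_eq] at this
    exact this.trans hw'
  have key : U2.relIndex U1 * U1.relIndex A' = U2.relIndex B' * B'.relIndex A' := by
    rw [Subgroup.relIndex_mul_relIndex U2 U1 A' hU2U1 hU1A]
    have hBA' : B' ≤ A' := by
      intro a ha
      rw [hB', hΛ1] at ha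
      obtain ⟨y, hy, hay⟩ := ha
      rw [hA', hΛ0]
      refine ⟨hmem a, fun v => ?_⟩
      rw [hay]
      rw [Finset.sum_sub_distrib]
      have e1 : ∀ i, y (π ((π ^ i) v)) = y ((π ^ (i + 1)) v) := by
        intro i; rw [pow_succ']; rfl
      simp only [e1]
      have e2 := Finset.sum_range_succ (fun i => y ((π ^ i) v)) n
      have e3 := Finset.sum_range_succ' (fun i => y ((π ^ i) v)) n
      rw [e2] at e3
      simp only [hπ, pow_zero, Equiv.Perm.one_apply] at e3
      rw [sub_eq_zero]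
      exact (add_right_cancel e3).symm
    rw [Subgroup.relIndex_mul_relIndex U2 B' A' hU2B hBA']
  calc n ≤ B'.relIndex A' := by rw [hBA]; exact hlat
    _ ≤ U2.relIndex B' * B'.relIndex A' := Nat.le_mul_of_pos_left _ (Nat.pos_of_ne_zero hne)
    _ = U2.relIndex U1 * U1.relIndex A' := key.symm
    _ ≤ U2.relIndex U1 * w := Nat.mul_le_mul_left _ hNidx
    _ = w * U2.relIndex U1 := mul_comm _ _

end Pool.Agent.Lib.MP_ca71b5_nt
end

section

/-!
# The first cohomology of the units is bounded by the class number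
-/

set_option autoImplicit false
open scoped NumberField nonZeroDivisors

namespace Pool.Agent.Lib.MP_ca71b5_nt

private theorem c2_inv (E E' : Type) [Field E] [NumberField E] [Field E'] [NumberField E']
    [Algebra E E'] [IsGalois E E'] (σ : E' ≃ₐ[E] E') (hσ : ∀ τ : E' ≃ₐ[E] E',
      τ ∈ Subgroup.zpowers σ) (a : 𝓞 E')
    (ha : Associated (galRestrict (𝓞 E) E E' (𝓞 E') σ a) a) (τ : E' ≃ₐ[E] E') :
    Associated (galRestrict (𝓞 E) E E' (𝓞 E') τ a) a := by
  let S : Subgroup (E' ≃ₐ[E] E') :=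
    { carrier := {τ | Associated (galRestrict (𝓞 E) E E' (𝓞 E') τ a) a}
      mul_mem' := by
        intro τ1 τ2 h1 h2
        have h3 : Associated (galRestrict (𝓞 E) E E' (𝓞 E') τ1 (galRestrict (𝓞 E) E E' (𝓞 E') τ2 a))
            (galRestrict (𝓞 E) E E' (𝓞 E') τ1 a) := Associated.map _ h2
        show Associated (galRestrict (𝓞 E) E E' (𝓞 E') (τ1 * τ2) a) a
        rw [map_mul]
        exact h3.trans h1
      one_mem' := by
        show Associated (galRestrict (𝓞 E) E E' (𝓞 E') 1 a) a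
        rw [map_one]
        exact Associated.refl _
      inv_mem' := by
        intro τ h
        have h3 : Associated (galRestrict (𝓞 E) E E' (𝓞 E') τ⁻¹ (galRestrict (𝓞 E) E E' (𝓞 E') τ a))
            (galRestrict (𝓞 E) E E' (𝓞 E') τ⁻¹ a) := Associated.map _ h
        have h4 : galRestrict (𝓞 E) E E' (𝓞 E') τ⁻¹ (galRestrict (𝓞 E) E E' (𝓞 E') τ a) = a := by
          rw [← AlgEquiv.mul_apply, ← map_mul, inv_mul_cancel, map_one, AlgEquiv.one_apply]
        rw [h4] at h3
        exact h3.symm }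
  have h1 : Subgroup.zpowers σ ≤ S := by
    rw [Subgroup.zpowers_le]
    exact ha
  exact h1 (hσ τ)

private theorem c2_choice (E E' : Type) [Field E] [NumberField E] [Field E'] [NumberField E']
    [Algebra E E'] [IsGalois E E'] (σ : E' ≃ₐ[E] E') (hσ : ∀ τ : E' ≃ₐ[E] E',
      τ ∈ Subgroup.zpowers σ) (hunr : Algebra.Unramified (𝓞 E) (𝓞 E')) (u : (𝓞 E')ˣ)
    (hu : Algebra.norm E ((u : 𝓞 E') : E') = 1) :
    ∃ (a : 𝓞 E') (J : (Ideal (𝓞 E))⁰), a ≠ 0 ∧ galRestrict (𝓞 E) E E' (𝓞 E') σ a = u * a ∧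
      Ideal.span {a} = (J : Ideal (𝓞 E)).map (algebraMap (𝓞 E) (𝓞 E')) := by
  have : IsCyclic (E' ≃ₐ[E] E') := ⟨σ, hσ⟩
  have h0 : Algebra.norm E (algebraMap (𝓞 E') E' ((u⁻¹ : (𝓞 E')ˣ) : 𝓞 E')) = 1 := by
    have h1 : Algebra.norm E (algebraMap (𝓞 E') E' ((u⁻¹ : (𝓞 E')ˣ) : 𝓞 E')) *
        Algebra.norm E ((u : 𝓞 E') : E') = 1 := by
      rw [← map_mul, ← map_mul, Units.inv_mul, map_one, map_one]
    rwa [hu, mul_one] at h1
  obtain ⟨a, ha0, ha⟩ := groupCohomology.exists_mul_galRestrict_of_norm_eq_one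
    (A := 𝓞 E) (K := E) (L := E') (B := 𝓞 E') hσ h0
  have ha' : galRestrict (𝓞 E) E E' (𝓞 E') σ a = u * a := by
    conv_rhs => rw [← ha]
    rw [← mul_assoc, Units.mul_inv, one_mul]
  have hass : Associated (galRestrict (𝓞 E) E E' (𝓞 E') σ a) a := by
    rw [ha', mul_comm]
    exact associated_mul_unit_left a _ u.isUnit
  have hI : Ideal.span {a} ≠ (⊥ : Ideal (𝓞 E')) := by
    rw [Ne, Ideal.span_singleton_eq_bot]
    exact ha0
  obtain ⟨J, hJ⟩ := exists_ideal_of_invariant E E' hunr (Ideal.span {a}) hI (by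
    intro τ x hx y hy
    rw [Ideal.mem_span_singleton] at hx ⊢
    have h1 := c2_inv E E' σ hσ a hass τ
    have h2 : y = galRestrict (𝓞 E) E E' (𝓞 E') τ x := by
      apply NumberField.RingOfIntegers.ext
      rw [hy]
      exact (algebraMap_galRestrict_apply (𝓞 E) τ x).symm
    rw [h2]
    exact h1.symm.dvd.trans (map_dvd _ hx))
  have hJ0 : J ≠ ⊥ := by
    rintro rfl
    rw [Ideal.map_bot] at hJ
    exact hI hJ
  exact ⟨a, ⟨J, mem_nonZeroDivisors_iff_ne_zero.2 hJ0⟩, ha0, ha', hJ⟩

theorem unit_cohomology_le (E E' : Type) [Field E] [NumberField E] [Field E'] [NumberField E']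
    [Algebra E E'] [IsGalois E E'] (σ : E' ≃ₐ[E] E') (hσ : ∀ τ : E' ≃ₐ[E] E',
      τ ∈ Subgroup.zpowers σ) (hunr : Algebra.Unramified (𝓞 E) (𝓞 E'))
    (U1 U2 : Subgroup (𝓞 E')ˣ)
    (h1 : ∀ u : (𝓞 E')ˣ, u ∈ U1 ↔ Algebra.norm E ((u : 𝓞 E') : E') = 1)
    (h2 : ∀ u : (𝓞 E')ˣ, u ∈ U2 ↔ ∃ v : (𝓞 E')ˣ,
      ((u : 𝓞 E') : E') * ((v : 𝓞 E') : E') = σ ((v : 𝓞 E') : E')) :
    U2.relIndex U1 ≤ NumberField.classNumber E := by
  classical
  have key : ∀ u : U1, ∃ (a : 𝓞 E') (J : (Ideal (𝓞 E))⁰), a ≠ 0 ∧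
      galRestrict (𝓞 E) E E' (𝓞 E') σ a = (u : (𝓞 E')ˣ) * a ∧
      Ideal.span {a} = (J : Ideal (𝓞 E)).map (algebraMap (𝓞 E) (𝓞 E')) := fun u =>
    c2_choice E E' σ hσ hunr u ((h1 u).1 u.2)
  choose a J ha0 haσ haJ using key
  have hmk : ∀ u1 u2 : U1, ClassGroup.mk0 (J u1) = ClassGroup.mk0 (J u2) →
      (u1 : (𝓞 E')ˣ)⁻¹ * u2 ∈ U2 := by
    intro u1 u2 h
    obtain ⟨x, y, hx, hy, hxy⟩ := ClassGroup.mk0_eq_mk0_iff.1 h
    have h3 := congrArg (Ideal.map (algebraMap (𝓞 E) (𝓞 E'))) hxy
    rw [Ideal.map_mul, Ideal.map_mul, Ideal.map_span, Ideal.map_span, Set.image_singleton,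
      Set.image_singleton, ← haJ u1, ← haJ u2, Ideal.span_singleton_mul_span_singleton,
      Ideal.span_singleton_mul_span_singleton, Ideal.span_singleton_eq_span_singleton] at h3
    obtain ⟨ε, hε⟩ := h3
    have h4 := congrArg (galRestrict (𝓞 E) E E' (𝓞 E') σ) hε
    rw [map_mul, map_mul, map_mul, AlgEquiv.commutes, AlgEquiv.commutes, haσ u1, haσ u2] at h4
    have hinj : Function.Injective (algebraMap (𝓞 E) (𝓞 E')) := by
      have : Function.Injective (algebraMap E E') := (algebraMap E E').injective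
      intro s t hst
      apply NumberField.RingOfIntegers.ext
      apply this
      have := congrArg (algebraMap (𝓞 E') E') hst
      rw [← IsScalarTower.algebraMap_apply, ← IsScalarTower.algebraMap_apply,
        IsScalarTower.algebraMap_apply (𝓞 E) E E', IsScalarTower.algebraMap_apply (𝓞 E) E E'] at this
      exact this
    have hx' : algebraMap (𝓞 E) (𝓞 E') x ≠ 0 := fun h => hx (hinj (by rw [h, map_zero]))
    have h5 : (algebraMap (𝓞 E) (𝓞 E') x * a u1) *
        ((u1 : (𝓞 E')ˣ) * galRestrict (𝓞 E) E E' (𝓞 E') σ ε) =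
        (algebraMap (𝓞 E) (𝓞 E') x * a u1) * ((u2 : (𝓞 E')ˣ) * (ε : 𝓞 E')) := by
      linear_combination h4 - ((u2 : (𝓞 E')ˣ) : 𝓞 E') * hε
    have h6 := mul_left_cancel₀ (mul_ne_zero hx' (ha0 u1)) h5
    rw [h2]
    refine ⟨ε, ?_⟩
    have h7 : ((((u1 : (𝓞 E')ˣ)⁻¹ * u2 : (𝓞 E')ˣ) : 𝓞 E')) * (ε : 𝓞 E') =
        galRestrict (𝓞 E) E E' (𝓞 E') σ ε := by
      rw [Units.val_mul, mul_assoc, ← h6, ← mul_assoc, Units.inv_mul, one_mul]
    have h8 := congrArg (algebraMap (𝓞 E') E') h7
    rw [map_mul, algebraMap_galRestrict_apply] at h8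
    exact h8
  have hinj : Function.Injective (fun q : U1 ⧸ U2.subgroupOf U1 => ClassGroup.mk0 (J q.out)) := by
    intro q1 q2 h
    have h3 := hmk _ _ h
    rw [← q1.out_eq', ← q2.out_eq']
    exact QuotientGroup.eq.2 h3
  have h3 := Nat.card_le_card_of_injective _ hinj
  rw [Nat.card_eq_fintype_card (α := ClassGroup (𝓞 E))] at h3
  exact h3

end Pool.Agent.Lib.MP_ca71b5_nt
end

section

/-!
# Cyclic unramified extensions of totally complex fields
-/

set_option autoImplicit false
open scoped NumberField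

namespace Pool.Agent.Lib.MP_ca71b5_nt

namespace C3aux

open NumberField NumberField.InfinitePlace NumberField.Units
open NumberField.Units.dirichletUnitTheorem

section Log

variable (K : Type) [Field K] [NumberField K]

/-- The logarithms of the absolute values of a unit at all infinite places. -/
noncomputable def fullLog : Additive (𝓞 K)ˣ →+ (InfinitePlace K → ℝ) where
  toFun x w := Real.log (w ((x.toMul : (𝓞 K)ˣ) : K))
  map_zero' := by
    ext w
    simp
  map_add' x y := by
    ext w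
    simp only [toMul_add, Units.coe_mul, map_mul, Pi.add_apply]
    exact Real.log_mul (pos_at_place _ _).ne' (pos_at_place _ _).ne'

omit [NumberField K] in
theorem fullLog_apply (x : (𝓞 K)ˣ) (w : InfinitePlace K) :
    fullLog K (Additive.ofMul x) w = Real.log (w (x : K)) := rfl

variable [IsTotallyComplex K]

theorem fullLog_sum (x : Additive (𝓞 K)ˣ) : ∑ w, fullLog K x w = 0 := by
  have h := sum_mult_mul_log (K := K) x.toMul
  simp only [IsTotallyComplex.mult_eq] at h
  rw [← Finset.mul_sum] at h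
  have h2 : ((2 : ℕ) : ℝ) ≠ 0 := by norm_num
  exact (mul_eq_zero.mp h).resolve_left h2

/-- Forget the distinguished place, and multiply by two. -/
noncomputable def dropMap : (InfinitePlace K → ℝ) →ₗ[ℝ] logSpace K where
  toFun x w := 2 * x w.1
  map_add' x y := by
    ext w
    simp [mul_add]
  map_smul' c x := by
    ext w
    simp only [Pi.smul_apply, smul_eq_mul, RingHom.id_apply]
    ring

theorem dropMap_fullLog (x : Additive (𝓞 K)ˣ) : dropMap K (fullLog K x) = logEmbedding K x := by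
  ext w
  change 2 * Real.log (w.1 ((x.toMul : (𝓞 K)ˣ) : K)) =
    mult w.val * Real.log (w.val ((x.toMul : (𝓞 K)ˣ) : K))
  rw [IsTotallyComplex.mult_eq]
  norm_num

omit [IsTotallyComplex K] in
theorem continuous_dropMap : Continuous (dropMap K) :=
  LinearMap.continuous_of_finiteDimensional _

omit [IsTotallyComplex K] in
theorem eq_zero_of_dropMap {x : InfinitePlace K → ℝ} (h : dropMap K x = 0) (hs : ∑ w, x w = 0) :
    x = 0 := by
  classical
  have h1 : ∀ w : InfinitePlace K, w ≠ w₀ → x w = 0 := by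
    intro w hw
    have := congrFun h ⟨w, hw⟩
    change 2 * x w = 0 at this
    linarith
  ext w
  by_cases hw : w = w₀
  · rw [Finset.sum_eq_single w₀ (fun b _ hb => h1 b hb) (fun h => absurd (Finset.mem_univ _) h)]
      at hs
    rw [hw, hs]
    rfl
  · exact h1 w hw

omit [IsTotallyComplex K] in
theorem exists_dropMap (y : logSpace K) :
    ∃ x : InfinitePlace K → ℝ, dropMap K x = y ∧ ∑ w, x w = 0 := by
  classical
  refine ⟨fun w => if h : w = w₀ then -(∑ v, y v) / 2 else y ⟨w, h⟩ / 2, ?_, ?_⟩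
  · ext w
    change 2 * (if h : w.1 = w₀ then -(∑ v, y v) / 2 else y ⟨w.1, h⟩ / 2) = y w
    rw [dif_neg w.2]
    ring
  · rw [Fintype.sum_eq_add_sum_subtype_ne _ w₀]
    rw [dif_pos rfl]
    have : ∑ i : {w : InfinitePlace K // w ≠ w₀}, (if h : i.1 = w₀ then -(∑ v, y v) / 2
        else y ⟨i.1, h⟩ / 2) = (∑ v, y v) / 2 := by
      rw [Finset.sum_div]
      refine Finset.sum_congr rfl ?_
      intro i _
      rw [dif_neg i.2]
    rw [this]
    ring

theorem discrete_range : DiscreteTopology (fullLog K).range := by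
  have key : ∀ x : (fullLog K).range, dropMap K x.1 ∈ unitLattice K := by
    rintro ⟨x, a, rfl⟩
    rw [dropMap_fullLog]
    exact ⟨a, trivial, rfl⟩
  let F : (fullLog K).range → unitLattice K := fun x => ⟨dropMap K x.1, key x⟩
  have hF : Continuous F :=
    ((continuous_dropMap K).comp continuous_subtype_val).subtype_mk _
  have hinj : Function.Injective F := by
    rintro ⟨x, a, rfl⟩ ⟨y, b, rfl⟩ h
    have h' : dropMap K (fullLog K a) = dropMap K (fullLog K b) := congrArg Subtype.val h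
    have h0 : fullLog K a - fullLog K b = 0 := by
      apply eq_zero_of_dropMap
      · rw [map_sub, h', sub_self]
      · simp only [Pi.sub_apply, Finset.sum_sub_distrib, fullLog_sum, sub_self]
    exact Subtype.ext (sub_eq_zero.mp h0)
  exact DiscreteTopology.of_continuous_injective hF hinj

theorem span_range (x : InfinitePlace K → ℝ) :
    x ∈ Submodule.span ℝ ((fullLog K).range : Set (InfinitePlace K → ℝ)) ↔ ∑ w, x w = 0 := by
  constructor
  · intro h
    refine Submodule.span_induction ?_ ?_ ?_ ?_ h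
    · rintro _ ⟨a, rfl⟩
      exact fullLog_sum K a
    · simp
    · intro x y _ _ hx hy
      simp only [Pi.add_apply, Finset.sum_add_distrib, hx, hy, add_zero]
    · intro c x _ hx
      simp only [Pi.smul_apply, smul_eq_mul, ← Finset.mul_sum, hx, mul_zero]
  · intro hx
    have h1 : dropMap K x ∈ Submodule.span ℝ (unitLattice K : Set (logSpace K)) := by
      rw [unitLattice_span_eq_top]
      trivial
    have h2 : (unitLattice K : Set (logSpace K)) =
        dropMap K '' ((fullLog K).range : Set (InfinitePlace K → ℝ)) := by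
      ext y
      constructor
      · rintro ⟨a, -, rfl⟩
        refine ⟨fullLog K a, ⟨a, rfl⟩, ?_⟩
        rw [dropMap_fullLog]
        rfl
      · rintro ⟨_, ⟨a, rfl⟩, rfl⟩
        refine ⟨a, trivial, ?_⟩
        rw [dropMap_fullLog]
        rfl
    rw [h2, Submodule.span_image] at h1
    obtain ⟨z, hz, hzx⟩ := h1
    have hz0 : ∑ w, z w = 0 := by
      refine Submodule.span_induction ?_ ?_ ?_ ?_ hz
      · rintro _ ⟨a, rfl⟩
        exact fullLog_sum K a
      · simp
      · intro x y _ _ hx hy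
        simp only [Pi.add_apply, Finset.sum_add_distrib, hx, hy, add_zero]
      · intro c x _ hx
        simp only [Pi.smul_apply, smul_eq_mul, ← Finset.mul_sum, hx, mul_zero]
    have : x - z = 0 := by
      apply eq_zero_of_dropMap
      · rw [map_sub, hzx, sub_self]
      · simp only [Pi.sub_apply, Finset.sum_sub_distrib, hx, hz0, sub_self]
    rw [sub_eq_zero.mp this]
    exact hz

theorem fullLog_eq_zero_iff (a : (𝓞 K)ˣ) :
    fullLog K (Additive.ofMul a) = 0 ↔ IsOfFinOrder a := by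
  have h : IsOfFinOrder a ↔ a ∈ torsion K := (CommGroup.mem_torsion _).symm
  rw [h, ← logEmbedding_eq_zero_iff, ← dropMap_fullLog]
  constructor
  · intro h
    rw [h, map_zero]
  · intro h
    exact eq_zero_of_dropMap K h (fullLog_sum K _)

end Log

section Galois

variable {E E' : Type} [Field E] [Field E'] [Algebra E E']

theorem finite_torsion (K : Type) [Field K] [NumberField K] :
    (torsion K : Set (𝓞 K)ˣ).Finite :=
  Set.finite_coe_iff.mp (inferInstanceAs (Finite (torsion K)))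

/-- The action of an automorphism on the units. -/
noncomputable def unitAut (σ : E' ≃ₐ[E] E') : (𝓞 E')ˣ ≃* (𝓞 E')ˣ :=
  Units.mapEquiv (RingOfIntegers.mapRingEquiv σ.toRingEquiv).toMulEquiv

theorem coe_unitAut (σ : E' ≃ₐ[E] E') (a : (𝓞 E')ˣ) :
    ((unitAut σ a : (𝓞 E')ˣ) : E') = σ (a : E') := rfl

theorem coe_unitAut_pow (σ : E' ≃ₐ[E] E') (i : ℕ) (a : (𝓞 E')ˣ) :
    (((unitAut σ ^ i) a : (𝓞 E')ˣ) : E') = (σ ^ i) (a : E') := by
  induction i generalizing a with
  | zero => rfl
  | succ i ih =>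
    rw [pow_succ, pow_succ, MulAut.mul_apply, ih, coe_unitAut]
    rfl

theorem norm_eq_prod_range [FiniteDimensional E E'] [IsGalois E E'] (σ : E' ≃ₐ[E] E')
    (hσ : ∀ τ : E' ≃ₐ[E] E', τ ∈ Subgroup.zpowers σ) (x : E') :
    algebraMap E E' (Algebra.norm E x) = ∏ i ∈ Finset.range (orderOf σ), (σ ^ i) x := by
  classical
  rw [Algebra.norm_eq_prod_automorphisms, ← IsCyclic.image_range_orderOf hσ,
    Finset.prod_image]
  intro i hi j hj h
  exact pow_injOn_Iio_orderOf (by simpa using hi) (by simpa using hj) h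

theorem fixed_torsion_subset [NumberField E] [NumberField E'] [IsGalois E E']
    (σ : E' ≃ₐ[E] E') (hσ : ∀ τ : E' ≃ₐ[E] E', τ ∈ Subgroup.zpowers σ) :
    {a : (𝓞 E')ˣ | IsOfFinOrder a ∧ unitAut σ a = a} ⊆
      (Units.map (algebraMap (𝓞 E) (𝓞 E')).toMonoidHom) '' (torsion E : Set (𝓞 E)ˣ) := by
  rintro a ⟨ha, hfix⟩
  have h1 : σ (a : E') = (a : E') := by
    rw [← coe_unitAut, hfix]
  have h2 : ∀ τ : E' ≃ₐ[E] E', τ (a : E') = (a : E') := by
    intro τ
    have hle : Subgroup.zpowers σ ≤ MulAction.stabilizer (E' ≃ₐ[E] E') (a : E') := by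
      rw [Subgroup.zpowers_le]
      exact h1
    exact hle (hσ τ)
  obtain ⟨e, he⟩ := (IsGalois.mem_range_algebraMap_iff_fixed (F := E) (a : E')).mpr h2
  obtain ⟨n, hn, hpow⟩ := isOfFinOrder_iff_pow_eq_one.mp ha
  have hpow' : (a : E') ^ n = 1 := by
    rw [← Units.coe_pow, hpow, Units.coe_one]
  have hen : e ^ n = 1 := by
    apply (algebraMap E E').injective
    rw [map_pow, he, hpow', map_one]
  have hint : IsIntegral ℤ e := by
    refine IsIntegral.of_pow hn ?_
    rw [hen]
    exact isIntegral_one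
  let e0 : 𝓞 E := ⟨e, hint⟩
  have he0 : e0 ^ n = 1 := by
    apply RingOfIntegers.coe_injective
    rw [map_pow, map_one]
    exact hen
  let u : (𝓞 E)ˣ := Units.ofPowEqOne e0 n he0 hn.ne'
  refine ⟨u, ?_, ?_⟩
  · refine (CommGroup.mem_torsion _).mpr (isOfFinOrder_iff_pow_eq_one.mpr ⟨n, hn, ?_⟩)
    exact Units.pow_ofPowEqOne he0 hn.ne'
  · apply Units.coe_injective
    change algebraMap (𝓞 E') E' (algebraMap (𝓞 E) (𝓞 E') e0) = _
    rw [← IsScalarTower.algebraMap_apply, IsScalarTower.algebraMap_apply (𝓞 E) E E']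
    exact he

end Galois

end C3aux

open NumberField NumberField.InfinitePlace NumberField.Units C3aux

theorem cyclic_bound_complex (E E' : Type) [Field E] [NumberField E] [Field E'] [NumberField E']
    [Algebra E E'] [IsGalois E E'] [IsCyclic (E' ≃ₐ[E] E')] [NumberField.IsTotallyComplex E]
    (hunr : Algebra.Unramified (𝓞 E) (𝓞 E')) :
    Module.finrank E E' ≤ NumberField.Units.torsionOrder E * NumberField.classNumber E := by
  classical
  have hTC : IsTotallyComplex E' := isTotallyComplex_of_algebra E E'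
  obtain ⟨σ, hσ⟩ := IsCyclic.exists_generator (α := E' ≃ₐ[E] E')
  have hord : orderOf σ = Module.finrank E E' := by
    rw [orderOf_eq_card_of_forall_mem_zpowers hσ, IsGalois.card_aut_eq_finrank]
  have hpos : 0 < Module.finrank E E' := Module.finrank_pos
  -- the subgroups
  let U1 : Subgroup (𝓞 E')ˣ :=
    { carrier := {u | Algebra.norm E ((u : 𝓞 E') : E') = 1}
      mul_mem' := by
        intro a b ha hb
        change Algebra.norm E (((a * b : (𝓞 E')ˣ) : 𝓞 E') : E') = 1
        change Algebra.norm E ((a : 𝓞 E') : E') = 1 at ha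
        change Algebra.norm E ((b : 𝓞 E') : E') = 1 at hb
        rw [NumberField.Units.coe_coe, NumberField.Units.coe_mul, map_mul]
        rw [NumberField.Units.coe_coe] at ha hb
        rw [ha, hb, one_mul]
      one_mem' := by
        simp
      inv_mem' := by
        intro a ha
        change Algebra.norm E (((a⁻¹ : (𝓞 E')ˣ) : 𝓞 E') : E') = 1
        change Algebra.norm E ((a : 𝓞 E') : E') = 1 at ha
        have h1 : Algebra.norm E (((a * a⁻¹ : (𝓞 E')ˣ) : 𝓞 E') : E') = 1 := by
          rw [mul_inv_cancel]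
          simp
        rw [NumberField.Units.coe_coe, NumberField.Units.coe_mul, map_mul] at h1
        rw [NumberField.Units.coe_coe] at ha ⊢
        rw [ha, one_mul] at h1
        exact h1 }
  let U2 : Subgroup (𝓞 E')ˣ := ((unitAut σ).toMonoidHom / MonoidHom.id _).range
  have hU2 : ∀ a, a ∈ U2 ↔ ∃ b, a = unitAut σ b / b := by
    intro a
    constructor
    · rintro ⟨b, rfl⟩
      exact ⟨b, rfl⟩
    · rintro ⟨b, rfl⟩
      exact ⟨b, rfl⟩
  have hU1 : ∀ a : (𝓞 E')ˣ, a ∈ U1 ↔
      ∏ i ∈ Finset.range (Module.finrank E E'), (unitAut σ ^ i) a = 1 := by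
    intro a
    have e1 : (((∏ i ∈ Finset.range (Module.finrank E E'), (unitAut σ ^ i) a : (𝓞 E')ˣ) :
        𝓞 E') : E') = algebraMap E E' (Algebra.norm E (a : E')) := by
      rw [norm_eq_prod_range σ hσ, hord]
      rw [Units.coe_prod]
      refine (map_prod (algebraMap (𝓞 E') E') _ _).trans ?_
      refine Finset.prod_congr rfl ?_
      intro i _
      exact coe_unitAut_pow σ i a
    constructor
    · intro h
      apply Units.coe_injective
      refine e1.trans ?_
      have h' : Algebra.norm E (a : E') = 1 := h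
      rw [h', map_one]
      rfl
    · intro h
      rw [h] at e1
      change Algebra.norm E (a : E') = 1
      apply (algebraMap E E').injective
      rw [← e1, map_one]
      simp
  have hcoh : U2.relIndex U1 ≤ NumberField.classNumber E := by
    refine unit_cohomology_le E E' σ hσ hunr U1 U2 (fun u => Iff.rfl) ?_
    intro u
    rw [hU2]
    constructor
    · rintro ⟨b, rfl⟩
      refine ⟨b, ?_⟩
      have : (unitAut σ b / b) * b = unitAut σ b := div_mul_cancel _ _
      have h2 := congrArg (fun z : (𝓞 E')ˣ => (z : E')) this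
      simp only [NumberField.Units.coe_mul] at h2
      rw [coe_unitAut] at h2
      exact h2
    · rintro ⟨v, hv⟩
      refine ⟨v, ?_⟩
      rw [eq_div_iff_mul_eq']
      apply Units.coe_injective
      exact hv
  -- the unit index inequality
  have hidx : Module.finrank E E' ≤ torsionOrder E * U2.relIndex U1 := by
    let π : Equiv.Perm (InfinitePlace E') := MulAction.toPerm (σ⁻¹)
    have hπi : ∀ (i : ℕ) (w : InfinitePlace E'), (π ^ i) w = (σ⁻¹ ^ i) • w := by
      intro i
      induction i with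
      | zero => intro w; simp
      | succ i ih =>
        intro w
        rw [pow_succ, Equiv.Perm.mul_apply, ih, pow_succ, mul_smul]
        rfl
    have hpow1 : σ ^ (Module.finrank E E') = 1 := by
      rw [← hord]
      exact pow_orderOf_eq_one σ
    refine unit_index (unitAut σ) π (Module.finrank E E') hpos ?_ ?_ ?_
      (fun a => fullLog E' (Additive.ofMul a)) ?_ ?_ (fullLog_eq_zero_iff E')
      (fullLog E').range ?_ (discrete_range E') (span_range E') (torsionOrder E) ?_ ?_ ?_ U1 U2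
      hU1 hU2
    · intro a
      apply Units.coe_injective
      refine (coe_unitAut_pow σ _ a).trans ?_
      rw [hpow1]
      rfl
    · ext w
      rw [hπi, inv_pow, hpow1]
      simp
    · intro i hi hin w hw
      rw [hπi] at hw
      have hun : IsUnramified E w := by
        rw [InfinitePlace.isUnramified_iff]
        right
        exact IsTotallyComplex.isComplex _
      have hst := IsUnramified.stabilizer_eq_bot hun
      have hmem : σ⁻¹ ^ i ∈ MulAction.stabilizer (E' ≃ₐ[E] E') w := hw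
      rw [hst, Subgroup.mem_bot, inv_pow, inv_eq_one] at hmem
      rw [← hord] at hin
      exact pow_ne_one_of_lt_orderOf hi.ne' hin hmem
    · intro a b
      rw [ofMul_mul, map_add]
    · intro a w
      change Real.log (w (σ (a : E'))) = Real.log ((σ⁻¹ • w) (a : E'))
      rfl
    · ext x
      constructor
      · rintro ⟨a, rfl⟩
        exact ⟨a.toMul, rfl⟩
      · rintro ⟨a, rfl⟩
        exact ⟨Additive.ofMul a, rfl⟩
    · exact ((finite_torsion E).image _).subset (fixed_torsion_subset σ hσ)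
    · refine (Set.ncard_le_ncard (fixed_torsion_subset σ hσ)
        ((finite_torsion E).image _)).trans ?_
      refine (Set.ncard_image_le (finite_torsion E)).trans ?_
      exact le_of_eq rfl
    · exact finite_torsion E'
  exact hidx.trans (Nat.mul_le_mul_left _ hcoh)

end Pool.Agent.Lib.MP_ca71b5_nt
end

section

/-!
# Cyclic unramified extensions have bounded degree
-/

set_option autoImplicit false
open scoped NumberField

namespace Pool.Agent.Lib.MP_ca71b5_nt

section aux

variable {E E' E1 M : Type*} [Field E] [Field E'] [Field E1] [Field M] [Algebra E E']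
  [Algebra E E1] [Algebra E M] [Algebra E' M] [Algebra E1 M] [IsScalarTower E E' M]
  [IsScalarTower E E1 M]

/-- the compositum of a Galois extension is a splitting field -/
private theorem c4_split [FiniteDimensional E E'] [IsGalois E E']
    (hM : IntermediateField.adjoin E1 (Set.range (algebraMap E' M)) = ⊤) :
    ∃ T : Polynomial E1, T.Separable ∧ T.IsSplittingField E1 M := by
  obtain ⟨T, hT₁, hT₂⟩ := IsGalois.is_separable_splitting_field E E'
  refine ⟨T.map (algebraMap E E1), hT₁.map, ?_⟩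
  rw [isSplittingField_iff_intermediateField] at hT₂ ⊢
  constructor
  · rw [Polynomial.map_map, ← IsScalarTower.algebraMap_eq]
    exact Polynomial.Splits.of_algHom hT₂.1 (IsScalarTower.toAlgHom E E' M)
  · rw [eq_top_iff, ← hM, IntermediateField.adjoin_le_iff]
    rintro _ ⟨x, rfl⟩
    have hx : x ∈ IntermediateField.adjoin E (T.rootSet E') := hT₂.2 ▸ IntermediateField.mem_top
    induction hx using IntermediateField.adjoin_induction with
    | mem x hx =>
      apply IntermediateField.subset_adjoin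
      rw [Polynomial.mem_rootSet'] at hx ⊢
      refine ⟨?_, ?_⟩
      · rw [Polynomial.map_map, ← IsScalarTower.algebraMap_eq]
        intro h0
        exact hx.1 (by
          rw [Polynomial.map_eq_zero] at h0 ⊢
          exact h0)
      · rw [Polynomial.aeval_map_algebraMap, Polynomial.aeval_algebraMap_apply, hx.2, map_zero]
    | algebraMap x =>
      rw [← IsScalarTower.algebraMap_apply, IsScalarTower.algebraMap_apply E E1 M]
      exact IntermediateField.algebraMap_mem _ _
    | add x y _ _ hx hy =>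
      rw [map_add]
      exact add_mem hx hy
    | inv x _ hx =>
      rw [map_inv₀]
      exact inv_mem hx
    | mul x y _ _ hx hy =>
      rw [map_mul]
      exact mul_mem hx hy

omit [Algebra E M] [IsScalarTower E E' M] [IsScalarTower E E1 M] [Algebra E E'] [Algebra E E1]
  [Field E] in
private theorem c4_gen (hM : IntermediateField.adjoin E1 (Set.range (algebraMap E' M)) = ⊤)
    (τ : M ≃ₐ[E1] M) (hτ : ∀ x : E', τ (algebraMap E' M x) = algebraMap E' M x) : τ = 1 := by
  apply AlgEquiv.ext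
  intro x
  have hx : x ∈ IntermediateField.adjoin E1 (Set.range (algebraMap E' M)) :=
    hM ▸ IntermediateField.mem_top
  change τ x = x
  induction hx using IntermediateField.adjoin_induction with
  | mem x hx =>
    obtain ⟨y, rfl⟩ := hx
    exact hτ y
  | algebraMap x => exact τ.commutes x
  | add x y _ _ hx hy => rw [map_add, hx, hy]
  | inv x _ hx => rw [map_inv₀, hx]
  | mul x y _ _ hx hy => rw [map_mul, hx, hy]

private theorem c4_cyclic [FiniteDimensional E E'] [IsGalois E E'] [IsCyclic (E' ≃ₐ[E] E')]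
    (hM : IntermediateField.adjoin E1 (Set.range (algebraMap E' M)) = ⊤) :
    IsCyclic (M ≃ₐ[E1] M) := by
  let f : (M ≃ₐ[E1] M) →* (E' ≃ₐ[E] E') :=
    (AlgEquiv.restrictNormalHom E').comp (AlgEquiv.restrictScalarsHom E)
  apply isCyclic_of_injective f
  rw [injective_iff_map_eq_one]
  intro τ hτ
  apply c4_gen hM
  intro x
  have h1 : algebraMap E' M (f τ x) = τ (algebraMap E' M x) :=
    AlgEquiv.restrictNormal_commutes (AlgEquiv.restrictScalars E τ) E' x
  rw [hτ] at h1
  exact h1.symm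

end aux

private theorem c4_complex (K : Type*) [Field K] [NumberField K] (i : K) (hi : i ^ 2 = -1) :
    NumberField.IsTotallyComplex K := by
  refine ⟨fun v => ?_⟩
  rw [← NumberField.InfinitePlace.not_isReal_iff_isComplex]
  intro hv
  rw [NumberField.InfinitePlace.isReal_iff, NumberField.ComplexEmbedding.isReal_iff] at hv
  have h1 : v.embedding i ^ 2 = -1 := by
    rw [← map_pow, hi, map_neg, map_one]
  have h2 : (starRingEnd ℂ) (v.embedding i) = v.embedding i := by
    have := congrArg (fun f : K →+* ℂ => f i) hv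
    exact this
  obtain ⟨r, hr⟩ := Complex.conj_eq_iff_real.mp h2
  rw [hr] at h1
  have h3 : r ^ 2 = -1 := by exact_mod_cast h1
  nlinarith [sq_nonneg r]

theorem cyclic_bound (E : Type) [Field E] [NumberField E] :
    ∃ B : ℕ, ∀ (E' : Type) [Field E'] [NumberField E'] [Algebra E E'] [IsGalois E E']
      [IsCyclic (E' ≃ₐ[E] E')], Algebra.Unramified (𝓞 E) (𝓞 E') → Module.finrank E E' ≤ B := by
  obtain ⟨i, hi⟩ := IsAlgClosed.exists_pow_nat_eq (-1 : AlgebraicClosure E) (n := 2) (by norm_num)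
  have hint : IsIntegral E i := Algebra.IsIntegral.isIntegral i
  let E1 : IntermediateField E (AlgebraicClosure E) := IntermediateField.adjoin E {i}
  have hfd : FiniteDimensional E E1 := IntermediateField.adjoin.finiteDimensional hint
  have hE1 : NumberField E1 := NumberField.of_module_finite E E1
  have hcx : NumberField.IsTotallyComplex E1 := by
    refine c4_complex E1 ⟨i, IntermediateField.mem_adjoin_simple_self E i⟩ ?_
    apply Subtype.ext
    simpa using hi
  have hdeg : Module.finrank E E1 ≤ 2 := by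
    change Module.finrank E (IntermediateField.adjoin E {i}) ≤ 2
    rw [IntermediateField.adjoin.finrank hint]
    have h1 : minpoly E i ∣ Polynomial.X ^ 2 + 1 := by
      apply minpoly.dvd
      simp [hi]
    have h2 : (Polynomial.X ^ 2 + 1 : Polynomial E).natDegree = 2 := by
      compute_degree!
    rw [← h2]
    apply Polynomial.natDegree_le_of_dvd h1
    intro h0
    rw [h0] at h2
    simp at h2
  refine ⟨2 * (NumberField.Units.torsionOrder E1 * NumberField.classNumber E1), ?_⟩
  intro E' _ _ _ _ _ hunr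
  have hfd' : FiniteDimensional E E' := Module.Finite.of_restrictScalars_finite ℚ E E'
  let φ : E' →ₐ[E] AlgebraicClosure E := IsAlgClosed.lift
  let M : IntermediateField E1 (AlgebraicClosure E) :=
    IntermediateField.adjoin E1 (Set.range φ)
  let g : E' →+* M :=
    { toFun := fun x => ⟨φ x, IntermediateField.subset_adjoin _ _ ⟨x, rfl⟩⟩
      map_one' := by apply Subtype.ext; simp
      map_zero' := by apply Subtype.ext; simp
      map_add' := fun x y => by apply Subtype.ext; simp
      map_mul' := fun x y => by apply Subtype.ext; simp }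
  letI : Algebra E' M := g.toAlgebra
  have ht : IsScalarTower E E' M := IsScalarTower.of_algebraMap_eq fun x => by
    apply Subtype.ext
    change algebraMap E (AlgebraicClosure E) x = φ (algebraMap E E' x)
    rw [φ.commutes]
  have hM : IntermediateField.adjoin E1 (Set.range (algebraMap E' M)) = ⊤ := by
    apply IntermediateField.lift_injective
    rw [IntermediateField.lift_adjoin, IntermediateField.lift_top]
    change _ = IntermediateField.adjoin E1 (Set.range φ)
    congr 1
    rw [← Set.range_comp]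
    rfl
  obtain ⟨T, hT1, hT2⟩ := c4_split (E := E) hM
  have hgal : IsGalois E1 M := IsGalois.of_separable_splitting_field hT1
  have hfM : FiniteDimensional E1 M := Polynomial.IsSplittingField.finiteDimensional M T
  have hcyc : IsCyclic (M ≃ₐ[E1] M) := c4_cyclic (E := E) hM
  have hNM : NumberField M := NumberField.of_module_finite E1 M
  have hfEM : FiniteDimensional E M := FiniteDimensional.trans E E1 M
  have hun := unramified_compositum E E' E1 M (c4_gen hM) hunr
  have h1 := cyclic_bound_complex E1 M hun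
  have h2 := Module.finrank_mul_finrank E E1 M
  have h3 := Module.finrank_mul_finrank E E' M
  have hfE'M : FiniteDimensional E' M := FiniteDimensional.right E E' M
  have h4 : 0 < Module.finrank E' M := Module.finrank_pos
  calc Module.finrank E E' ≤ Module.finrank E E' * Module.finrank E' M :=
        Nat.le_mul_of_pos_right _ h4
    _ = Module.finrank E E1 * Module.finrank E1 M := by rw [h3, h2]
    _ ≤ _ := Nat.mul_le_mul hdeg h1

end Pool.Agent.Lib.MP_ca71b5_nt
end
end
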