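import Mathlib
import Pool.Agent.Lib.MP_ca71b5_nt.Defs

/-!
# Definition for the theorem on cyclic extensions and multiples of the class group
-/

set_option autoImplicit false
open scoped NumberField

namespace Pool.Agent.Lib.MP_ca71b5_nt

/-- For every finite abelian extension `M` of `F` of `p`-power degree, unramified at all finite
primes, the group of the `p ^ s`-th powers in the Galois group of `M/F` has `p`-rank at most `r`:
it has at most `p ^ r` elements killed by `p`. -/
def RankPow (p : ℕ) (F : Type) [Field F] [NumberField F] (s r : ℕ) : Prop :=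
  ∀ (M : Type) [Field M] [NumberField M] [Algebra F M] [IsGalois F M],
    (∀ σ τ : M ≃ₐ[F] M, σ * τ = τ * σ) → (∃ k : ℕ, Module.finrank F M = p ^ k) →
    Algebra.Unramified (𝓞 F) (𝓞 M) →
    Nat.card {σ : M ≃ₐ[F] M // σ ^ p = 1 ∧ ∃ τ : M ≃ₐ[F] M, τ ^ (p ^ s) = σ} ≤ p ^ r

/-- `K/F` is totally ramified at some prime: for some maximal ideal `P` of the ring of integers of
`K` the inertia group of `P` is the whole group of automorphisms of `K/F`. -/
def TotRam (F K : Type) [Field F] [NumberField F] [Field K] [NumberField K] [Algebra F K] : Prop :=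
  ∃ P : Ideal (𝓞 K), P.IsMaximal ∧ P.inertia (K ≃ₐ[F] K) = ⊤

end Pool.Agent.Lib.MP_ca71b5_nt
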