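import Mathlib
import Pool.Agent.Lib.MP_ca71b5_nt.Base

/-!
# Definitions for the theorem on quotients of small dimension
-/

set_option autoImplicit false

namespace Pool.Agent.Lib.MP_ca71b5_nt

/-- the degree of the field of `l`-th roots of unity over `ℚ_p` -/
noncomputable def cycDeg (p l : ℕ) : ℕ := if l = p then p - 1 else orderOf (p : ZMod l)

/-- for every prime divisor `l` of `m`: `d < 3 l` and the degree of the field of `l`-th roots of
unity over `ℚ_p` does not divide the order of a matrix of finite order in `GL_j(ℤ)`,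
`1 ≤ j ≤ d / 3` -/
def GoodDim (p d m : ℕ) : Prop :=
  ∀ l : ℕ, l.Prime → l ∣ m → d < 3 * l ∧
    ∀ j : ℕ, 1 ≤ j → 3 * j ≤ d → ∀ M : Matrix (Fin j) (Fin j) ℤ, IsOfFinOrder M →
      ¬ cycDeg p l ∣ orderOf M

/-- `h` meets the open subgroup `Γ` only in the kernel of the representation -/
def Good {Γ G : Type*} [Group Γ] [Group G] (j : Γ →* G) (K : Subgroup Γ) (h : G) : Prop :=
  ∀ (k : ℕ) (g : Γ), j g = h ^ k → g ∈ K

end Pool.Agent.Lib.MP_ca71b5_nt
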