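import Mathlib
import Pool.Agent.Lib.MP_ca71b5_nt.Base

/-!
# Theorem of Kreknin with a root of unity
-/

set_option autoImplicit false

namespace Pool.Agent.Lib.MP_ca71b5_nt

namespace Kreknin

attribute [local instance 100] LieRing.ofAssociativeRing

variable {E : Type*} [Field E] {L : Type*} [LieRing L] [LieAlgebra E L]

/-- derived subalgebra of a subalgebra -/
def der (A : LieSubalgebra E L) : LieSubalgebra E L :=
  { Submodule.span E {z : L | ∃ x ∈ A, ∃ y ∈ A, ⁅x, y⁆ = z} with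
    lie_mem' := by
      intro u v hu hv
      have hle : ∀ w : L, w ∈ (Submodule.span E {z : L | ∃ x ∈ A, ∃ y ∈ A, ⁅x, y⁆ = z}) →
          w ∈ A := by
        intro w hw
        have : Submodule.span E {z : L | ∃ x ∈ A, ∃ y ∈ A, ⁅x, y⁆ = z} ≤ A.toSubmodule := by
          rw [Submodule.span_le]
          rintro z ⟨x, hx, y, hy, rfl⟩
          exact A.lie_mem hx hy
        exact this hw
      exact Submodule.subset_span ⟨u, hle u hu, v, hle v hv, rfl⟩ }

theorem mem_der {A : LieSubalgebra E L} {z : L} :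
    z ∈ der A ↔ z ∈ Submodule.span E {z : L | ∃ x ∈ A, ∃ y ∈ A, ⁅x, y⁆ = z} := Iff.rfl

theorem der_le (A : LieSubalgebra E L) : der A ≤ A := by
  intro w hw
  have : Submodule.span E {z : L | ∃ x ∈ A, ∃ y ∈ A, ⁅x, y⁆ = z} ≤ A.toSubmodule := by
    rw [Submodule.span_le]
    rintro z ⟨x, hx, y, hy, rfl⟩
    exact A.lie_mem hx hy
  exact this hw

theorem der_iter_le (A : LieSubalgebra E L) (m : ℕ) : der^[m] A ≤ A := by
  induction m with
  | zero => exact le_rfl
  | succ m ih =>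
    rw [Function.iterate_succ_apply']
    exact (der_le _).trans ih

variable (T : L ≃ₗ⁅E⁆ L) (ζ : E) (n : ℕ)

/-- the projection on the eigenspace -/
noncomputable def proj (i : ℕ) : L →ₗ[E] L :=
  (n : E)⁻¹ • ∑ j ∈ Finset.range n, (ζ⁻¹) ^ (i * j) • ((T : L →ₗ[E] L) ^ j : Module.End E L)

theorem pow_app (j : ℕ) (x : L) : ((T : L →ₗ[E] L) ^ j : Module.End E L) x = T^[j] x := by
  rw [Module.End.pow_apply]
  rfl

theorem proj_apply (i : ℕ) (x : L) :
    proj T ζ n i x = (n : E)⁻¹ • ∑ j ∈ Finset.range n, (ζ⁻¹) ^ (i * j) • T^[j] x := by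
  unfold proj
  rw [LinearMap.smul_apply, LinearMap.sum_apply]
  simp only [LinearMap.smul_apply, pow_app]

theorem iter_lie (j : ℕ) (x y : L) : T^[j] ⁅x, y⁆ = ⁅T^[j] x, T^[j] y⁆ := by
  induction j with
  | zero => rfl
  | succ j ih => rw [Function.iterate_succ_apply', Function.iterate_succ_apply',
      Function.iterate_succ_apply', ih, LieEquiv.map_lie]

theorem iter_eigen {i : ℕ} {x : L} (hx : T x = ζ ^ i • x) (j : ℕ) :
    T^[j] x = ζ ^ (i * j) • x := by
  induction j with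
  | zero => simp
  | succ j ih =>
    rw [Function.iterate_succ_apply', ih]
    rw [map_smul, hx, smul_smul, ← pow_add]
    congr 2

variable {T ζ n}

theorem proj_mem (hn : 0 < n) (hζ : IsPrimitiveRoot ζ n) (hT : ∀ x, T^[n] x = x) (i : ℕ) (x : L) :
    T (proj T ζ n i x) = ζ ^ i • proj T ζ n i x := by
  have hζ0 : ζ ≠ 0 := hζ.ne_zero hn.ne'
  rw [proj_apply, map_smul, map_sum, smul_comm (ζ ^ i)]
  congr 1
  rw [Finset.smul_sum]
  have e1 : ∀ j, T ((ζ⁻¹) ^ (i * j) • T^[j] x) = ζ ^ i • ((ζ⁻¹) ^ (i * (j + 1)) • T^[j + 1] x) := by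
    intro j
    rw [map_smul, Function.iterate_succ_apply', smul_smul]
    congr 1
    rw [mul_add, mul_one, pow_add, mul_left_comm, ← mul_pow, mul_inv_cancel₀ hζ0, one_pow, mul_one]
  simp only [e1]
  have h2 := Finset.sum_range_succ (fun j => ζ ^ i • ((ζ⁻¹) ^ (i * j) • T^[j] x)) n
  have h3 := Finset.sum_range_succ' (fun j => ζ ^ i • ((ζ⁻¹) ^ (i * j) • T^[j] x)) n
  rw [h2] at h3
  have h4 : (ζ⁻¹) ^ (i * n) = 1 := by
    rw [mul_comm, pow_mul, inv_pow, hζ.pow_eq_one, inv_one, one_pow]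
  simp only [h4, hT, one_smul, mul_zero, pow_zero, Function.iterate_zero, id_eq] at h3
  exact (add_right_cancel h3).symm

theorem sum_proj [CharZero E] (hn : 0 < n) (hζ : IsPrimitiveRoot ζ n) (x : L) :
    ∑ i ∈ Finset.range n, proj T ζ n i x = x := by
  have hn0 : (n : E) ≠ 0 := Nat.cast_ne_zero.2 hn.ne'
  simp only [proj_apply]
  rw [← Finset.smul_sum, Finset.sum_comm]
  have e1 : ∀ j ∈ Finset.range n, ∑ i ∈ Finset.range n, (ζ⁻¹) ^ (i * j) • T^[j] x =
      if j = 0 then (n : E) • x else 0 := by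
    intro j hj
    rw [← Finset.sum_smul]
    split_ifs with h
    · subst h
      simp
    · have hp : IsPrimitiveRoot ζ⁻¹ n := hζ.inv
      have h1 : (ζ⁻¹) ^ j ≠ 1 := hp.pow_ne_one_of_pos_of_lt h (Finset.mem_range.1 hj)
      have h2 : ∑ i ∈ Finset.range n, (ζ⁻¹) ^ (i * j) = 0 := by
        have h3 : ∑ i ∈ Finset.range n, (ζ⁻¹) ^ (i * j) =
            ∑ i ∈ Finset.range n, ((ζ⁻¹) ^ j) ^ i := by
          refine Finset.sum_congr rfl fun i _ => ?_
          rw [← pow_mul, mul_comm]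
        rw [h3]
        have h4 := mul_geom_sum ((ζ⁻¹) ^ j) n
        rw [← pow_mul, mul_comm j n, pow_mul, hp.pow_eq_one, one_pow, sub_self] at h4
        exact (mul_eq_zero.1 h4).resolve_left (sub_ne_zero.2 h1)
      rw [h2, zero_smul]
  rw [Finset.sum_congr rfl e1, Finset.sum_ite_eq' (Finset.range n) 0, if_pos (Finset.mem_range.2 hn),
    smul_smul, inv_mul_cancel₀ hn0, one_smul]

theorem proj_lie (hn : 0 < n) (hζ : IsPrimitiveRoot ζ n) {i k m : ℕ} {b : L}
    (hb : T b = ζ ^ i • b) (hm : ζ ^ k = ζ ^ (m + i)) (w : L) :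
    proj T ζ n k ⁅b, w⁆ = ⁅b, proj T ζ n m w⁆ := by
  have hζ0 : ζ ≠ 0 := hζ.ne_zero hn.ne'
  rw [proj_apply, proj_apply, lie_smul, lie_sum]
  congr 1
  refine Finset.sum_congr rfl fun j _ => ?_
  rw [iter_lie, iter_eigen T ζ hb, smul_lie, lie_smul, smul_smul]
  congr 1
  rw [inv_pow, inv_pow, pow_mul ζ k, hm, ← pow_mul, add_mul, pow_add, mul_inv, mul_assoc,
    inv_mul_cancel₀ (pow_ne_zero _ hζ0), mul_one]

theorem proj_self [CharZero E] (hn : 0 < n) (hζ : IsPrimitiveRoot ζ n) {i : ℕ} {x : L}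
    (hx : T x = ζ ^ i • x) : proj T ζ n i x = x := by
  have hζ0 : ζ ≠ 0 := hζ.ne_zero hn.ne'
  have hn0 : (n : E) ≠ 0 := Nat.cast_ne_zero.2 hn.ne'
  rw [proj_apply]
  have e1 : ∀ j ∈ Finset.range n, (ζ⁻¹) ^ (i * j) • T^[j] x = x := by
    intro j _
    rw [iter_eigen T ζ hx, smul_smul, inv_pow, inv_mul_cancel₀ (pow_ne_zero _ hζ0), one_smul]
  rw [Finset.sum_congr rfl e1, Finset.sum_const, Finset.card_range, ← Nat.cast_smul_eq_nsmul E,
    smul_smul, inv_mul_cancel₀ hn0, one_smul]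

/-- stability -/
def Stab (T : L ≃ₗ⁅E⁆ L) (A : LieSubalgebra E L) : Prop := ∀ x ∈ A, T x ∈ A

theorem Stab.der {A : LieSubalgebra E L} (h : Stab T A) : Stab T (der A) := by
  intro x hx
  rw [mem_der] at hx ⊢
  induction hx using Submodule.span_induction with
  | mem z hz =>
    obtain ⟨x, hx, y, hy, rfl⟩ := hz
    rw [LieEquiv.map_lie]
    exact Submodule.subset_span ⟨T x, h x hx, T y, h y hy, rfl⟩
  | zero => rw [map_zero]; exact Submodule.zero_mem _
  | add x y _ _ hx hy => rw [map_add]; exact Submodule.add_mem _ hx hy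
  | smul c x _ hx => rw [map_smul]; exact Submodule.smul_mem _ _ hx

theorem Stab.iter {A : LieSubalgebra E L} (h : Stab T A) (m : ℕ) :
    Stab T (Kreknin.der^[m] A) := by
  induction m with
  | zero => exact h
  | succ m ih => rw [Function.iterate_succ_apply']; exact ih.der

theorem Stab.pow {A : LieSubalgebra E L} (h : Stab T A) (j : ℕ) {x : L} (hx : x ∈ A) :
    T^[j] x ∈ A := by
  induction j with
  | zero => exact hx
  | succ j ih => rw [Function.iterate_succ_apply']; exact h _ ih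

theorem Stab.proj {A : LieSubalgebra E L} (h : Stab T A) (i : ℕ) {x : L} (hx : x ∈ A) :
    proj T ζ n i x ∈ A := by
  rw [proj_apply]
  refine A.smul_mem _ ?_
  have : ∀ s : Finset ℕ, ∑ j ∈ s, (ζ⁻¹) ^ (i * j) • T^[j] x ∈ A := by
    intro s
    exact sum_mem fun j _ => A.smul_mem _ (h.pow j hx)
  exact this _

variable (T ζ n)

/-- generators -/
def gens (A : LieSubalgebra E L) (k : ℕ) : Set L :=
  {x | x ∈ A ∧ ∃ i, k ≤ i ∧ i < n ∧ T x = ζ ^ i • x}

/-- the subalgebra generated by the eigenspaces -/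
def B (A : LieSubalgebra E L) (k : ℕ) : LieSubalgebra E L :=
  LieSubalgebra.lieSpan E L (gens T ζ n A k)

variable {T ζ n}

theorem B_le (A : LieSubalgebra E L) (k : ℕ) : B T ζ n A k ≤ A := by
  unfold B
  rw [LieSubalgebra.lieSpan_le]
  intro x hx
  exact hx.1

/-- operators -/
def J (T : L ≃ₗ⁅E⁆ L) (ζ : E) (n : ℕ) (A : LieSubalgebra E L) (k : ℕ) :
    Submodule E (Module.End E L) :=
  Submodule.span E {φ | ∃ b ∈ gens T ζ n A k, ∃ ψ : Module.End E L, (∀ y ∈ A, ψ y ∈ A) ∧
    φ = LieAlgebra.ad E L b * ψ}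

theorem J_mul {A : LieSubalgebra E L} {k : ℕ} {φ ψ : Module.End E L} (hφ : φ ∈ J T ζ n A k)
    (hψ : ∀ y ∈ A, ψ y ∈ A) : φ * ψ ∈ J T ζ n A k := by
  unfold J at hφ ⊢
  induction hφ using Submodule.span_induction with
  | mem z hz =>
    obtain ⟨b, hb, ψ', h', rfl⟩ := hz
    exact Submodule.subset_span ⟨b, hb, ψ' * ψ, fun y hy => h' _ (hψ y hy), mul_assoc _ _ _⟩
  | zero => rw [zero_mul]; exact Submodule.zero_mem _
  | add x y _ _ hx hy => rw [add_mul]; exact Submodule.add_mem _ hx hy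
  | smul c x _ hx => rw [smul_mul_assoc]; exact Submodule.smul_mem _ _ hx

/-- the subalgebra of the elements whose adjoint map is in `J` -/
def adJ (T : L ≃ₗ⁅E⁆ L) (ζ : E) (n : ℕ) (A : LieSubalgebra E L) (k : ℕ) : LieSubalgebra E L :=
  { A.toSubmodule ⊓ (J T ζ n A k).comap (LieAlgebra.ad E L : L →ₗ[E] Module.End E L) with
    lie_mem' := by
      rintro x y ⟨hx1, hx2⟩ ⟨hy1, hy2⟩
      refine ⟨A.lie_mem hx1 hy1, ?_⟩
      change LieAlgebra.ad E L ⁅x, y⁆ ∈ J T ζ n A k
      rw [LieHom.map_lie, LieRing.of_associative_ring_bracket]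
      exact Submodule.sub_mem _ (J_mul hx2 fun z hz => A.lie_mem hy1 hz)
        (J_mul hy2 fun z hz => A.lie_mem hx1 hz) }

theorem B_le_adJ (A : LieSubalgebra E L) (k : ℕ) : B T ζ n A k ≤ adJ T ζ n A k := by
  unfold B
  rw [LieSubalgebra.lieSpan_le]
  intro x hx
  refine ⟨hx.1, ?_⟩
  change LieAlgebra.ad E L x ∈ J T ζ n A k
  exact Submodule.subset_span ⟨x, hx, 1, fun y hy => hy, (mul_one _).symm⟩

theorem K1 (hn : 0 < n) (hζ : IsPrimitiveRoot ζ n) (hT : ∀ x, T^[n] x = x)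
    (hf : ∀ x : L, T x = x → x = 0) {A : LieSubalgebra E L} (hA : Stab T A) {k : ℕ}
    {x y : L} (hx : x ∈ B T ζ n A k) (hy : y ∈ A) :
    proj T ζ n k ⁅x, y⁆ ∈ B T ζ n A (k + 1) := by
  have h1 : LieAlgebra.ad E L x ∈ J T ζ n A k := (B_le_adJ A k hx).2
  have h2 : ∀ φ ∈ J T ζ n A k, proj T ζ n k (φ y) ∈ B T ζ n A (k + 1) := by
    intro φ hφ
    unfold J at hφ
    induction hφ using Submodule.span_induction with
    | mem z hz =>
      obtain ⟨b, ⟨hbA, i, hki, hin, hb⟩, ψ, hψ, rfl⟩ := hz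
      change proj T ζ n k ⁅b, ψ y⁆ ∈ _
      rcases Nat.eq_or_lt_of_le hki with rfl | hlt
      · rw [proj_lie (m := 0) hn hζ hb (by rw [Nat.zero_add])]
        have : proj T ζ n 0 (ψ y) = 0 := by
          apply hf
          rw [proj_mem hn hζ hT, pow_zero, one_smul]
        rw [this, lie_zero]
        exact LieSubalgebra.zero_mem _
      · rw [proj_lie (m := n + k - i) hn hζ hb (by
          have : n + k - i + i = n + k := by omega
          rw [this, pow_add, hζ.pow_eq_one, one_mul])]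
        apply LieSubalgebra.lie_mem
        · exact LieSubalgebra.subset_lieSpan ⟨hbA, i, hlt, hin, hb⟩
        · exact LieSubalgebra.subset_lieSpan ⟨hA.proj _ (hψ y hy), n + k - i, by omega, by omega,
            proj_mem hn hζ hT _ _⟩
    | zero => rw [LinearMap.zero_apply, map_zero]; exact LieSubalgebra.zero_mem _
    | add x y _ _ hx hy =>
      rw [LinearMap.add_apply, map_add]; exact LieSubalgebra.add_mem _ hx hy
    | smul c x _ hx =>
      rw [LinearMap.smul_apply, map_smul]; exact LieSubalgebra.smul_mem _ _ hx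
  exact h2 _ h1

/-- the bound of Kreknin -/
def f : ℕ → ℕ
  | 0 => 0
  | k + 1 => 2 * f k + 1

theorem K2 [CharZero E] (hn : 0 < n) (hζ : IsPrimitiveRoot ζ n) (hT : ∀ x, T^[n] x = x)
    (hf : ∀ x : L, T x = x → x = 0) (k : ℕ) (hk : k < n) :
    ∀ A : LieSubalgebra E L, Stab T A → der^[f k] A ≤ B T ζ n A (k + 1) := by
  induction k with
  | zero =>
    intro A hA x hx
    change x ∈ A at hx
    rw [← sum_proj (T := T) hn hζ x]
    refine sum_mem fun i hi => ?_
    rcases Nat.eq_zero_or_pos i with rfl | hi0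
    · have : proj T ζ n 0 x = 0 := by
        apply hf
        rw [proj_mem hn hζ hT, pow_zero, one_smul]
      rw [this]
      exact LieSubalgebra.zero_mem _
    · exact LieSubalgebra.subset_lieSpan ⟨hA.proj _ hx, i, hi0, Finset.mem_range.1 hi,
        proj_mem hn hζ hT _ _⟩
  | succ k ih =>
    intro A hA
    have hk' : k < n := by omega
    have ih' := ih hk'
    set A0 : LieSubalgebra E L := der^[f k] A with hA0
    have h1 : A0 ≤ B T ζ n A (k + 1) := ih' A hA
    have hS : Stab T (der A0) := (hA.iter _).der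
    have h2 := ih' (der A0) hS
    have h3 : der^[f (k + 1)] A = der^[f k] (der A0) := by
      rw [hA0, ← Function.iterate_succ_apply' der, ← Function.iterate_add_apply]
      congr 1
      change 2 * f k + 1 = _
      omega
    rw [h3]
    refine h2.trans ?_
    have hA0A : A0 ≤ A := der_iter_le A _
    unfold B
    rw [LieSubalgebra.lieSpan_le]
    rintro z ⟨hz, i, hki, hin, hzi⟩
    rcases Nat.eq_or_lt_of_le hki with rfl | hlt
    · have h4 : ∀ z' ∈ der A0, proj T ζ n (k + 1) z' ∈ B T ζ n A (k + 1 + 1) := by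
        intro z' hz'
        rw [mem_der] at hz'
        induction hz' using Submodule.span_induction with
        | mem w hw =>
          obtain ⟨x, hx, y, hy, rfl⟩ := hw
          exact K1 hn hζ hT hf hA (h1 hx) (hA0A hy)
        | zero => rw [map_zero]; exact LieSubalgebra.zero_mem _
        | add x y _ _ hx hy => rw [map_add]; exact LieSubalgebra.add_mem _ hx hy
        | smul c x _ hx => rw [map_smul]; exact LieSubalgebra.smul_mem _ _ hx
      have h5 := h4 z hz
      rw [proj_self hn hζ hzi] at h5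
      exact h5
    · exact LieSubalgebra.subset_lieSpan ⟨hA0A (der_le _ hz), i, hlt, hin, hzi⟩

theorem derivedSeries_le (m : ℕ) :
    ∀ x ∈ LieAlgebra.derivedSeries E L m, x ∈ der^[m] (⊤ : LieSubalgebra E L) := by
  induction m with
  | zero => intro x _; exact LieSubalgebra.mem_top x
  | succ m ih =>
    intro x hx
    rw [Function.iterate_succ_apply', mem_der]
    rw [LieAlgebra.derivedSeries_def, LieAlgebra.derivedSeriesOfIdeal_succ] at hx
    rw [← LieSubmodule.mem_toSubmodule, LieSubmodule.lieIdeal_oper_eq_linear_span'] at hx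
    refine Submodule.span_mono ?_ hx
    rintro z ⟨a, ha, b, hb, rfl⟩
    exact ⟨a, ih a ha, b, ih b hb, rfl⟩

end Kreknin

theorem kreknin_of_root {E : Type*} [Field E] [CharZero E] {L : Type*} [LieRing L]
    [LieAlgebra E L] (n : ℕ) (hn : 0 < n) (ζ : E) (hζ : IsPrimitiveRoot ζ n) (T : L ≃ₗ⁅E⁆ L)
    (hT : ∀ x, T^[n] x = x) (hf : ∀ x : L, T x = x → x = 0) : LieAlgebra.IsSolvable L := by
  have h := Kreknin.K2 hn hζ hT hf (n - 1) (by omega) (⊤ : LieSubalgebra E L)
    (fun x _ => LieSubalgebra.mem_top _)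
  have h1 : Kreknin.B T ζ n (⊤ : LieSubalgebra E L) (n - 1 + 1) ≤ ⊥ := by
    unfold Kreknin.B
    rw [LieSubalgebra.lieSpan_le]
    rintro x ⟨_, i, hi, hi2, _⟩
    omega
  have h2 : LieAlgebra.derivedSeries E L (Kreknin.f (n - 1)) = ⊥ := by
    rw [eq_bot_iff]
    intro x hx
    have h3 := h1 (h (Kreknin.derivedSeries_le _ x hx))
    rw [LieSubalgebra.mem_bot] at h3
    rw [h3]
    exact LieSubmodule.zero_mem _
  exact LieAlgebra.IsSolvable.mk h2

end Pool.Agent.Lib.MP_ca71b5_nt
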