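import Mathlib
import Pool.Agent.Lib.MP_ca71b5_nt.Base

section

section

/-!
# Galois groups: conjugation by automorphisms of the algebraic closure
-/

set_option autoImplicit false
open scoped NumberField

namespace Pool.Agent.Lib.MP_ca71b5_nt

/-- the absolute Galois group of `K` -/
abbrev GK (K : Type) [Field K] : Type := AlgebraicClosure K ≃ₐ[K] AlgebraicClosure K

/-- the automorphisms over `F` of the algebraic closure of `K` -/
abbrev GF (F K : Type) [Field F] [Field K] [Algebra F K] : Type :=
  AlgebraicClosure K ≃ₐ[F] AlgebraicClosure K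

section

variable (F K : Type) [Field F] [NumberField F] [Field K] [NumberField K] [Algebra F K]

/-- restriction of scalars -/
noncomputable def toGF : GK K →* GF F K := AlgEquiv.restrictScalarsHom F

@[simp] theorem toGF_apply (g : GK K) (x : AlgebraicClosure K) : toGF F K g x = g x := rfl

theorem toGF_injective : Function.Injective (toGF F K) := by
  intro g h hgh
  ext x
  have : toGF F K g x = toGF F K h x := by rw [hgh]
  exact this

variable {F K}

theorem exists_restrict [IsGalois F K] (τ : GF F K) (a : K) :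
    ∃ b : K, τ (algebraMap K (AlgebraicClosure K) a) = algebraMap K (AlgebraicClosure K) b :=
  ⟨τ.restrictNormal K a, (τ.restrictNormal_commutes K a).symm⟩

/-- conjugation by `τ`, as a ring automorphism fixing `K` -/
noncomputable def conjK [IsGalois F K] (τ : GF F K) : GK K →* GK K where
  toFun g := AlgEquiv.ofRingEquiv (f := ((τ.symm.trans (toGF F K g)).trans τ).toRingEquiv) (by
    intro a
    change τ (g (τ.symm (algebraMap K (AlgebraicClosure K) a))) = _
    obtain ⟨b, hb⟩ := exists_restrict τ.symm a
    rw [hb, g.commutes, ← hb, AlgEquiv.apply_symm_apply])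
  map_one' := by
    ext x
    change τ ((1 : GK K) (τ.symm x)) = x
    simp
  map_mul' g h := by
    ext x
    change τ ((g * h) (τ.symm x)) = τ (g (τ.symm (τ (h (τ.symm x)))))
    simp

theorem conjK_apply [IsGalois F K] (τ : GF F K) (g : GK K) (x : AlgebraicClosure K) :
    conjK τ g x = τ (g (τ.symm x)) := rfl

theorem toGF_conjK [IsGalois F K] (τ : GF F K) (g : GK K) :
    toGF F K (conjK τ g) = τ * toGF F K g * τ⁻¹ := by
  ext x
  rfl

end

instance isGaloisGF (F K : Type) [Field F] [NumberField F] [Field K] [NumberField K]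
    [Algebra F K] : IsGalois F (AlgebraicClosure K) := by
  have h1 : Algebra.IsAlgebraic F K := inferInstance
  have h2 : Algebra.IsAlgebraic F (AlgebraicClosure K) := Algebra.IsAlgebraic.trans F K _
  have h3 : Normal F (AlgebraicClosure K) := by
    constructor
    · intro x
      exact IsAlgClosed.splits _
  exact { }

example (K : Type) [Field K] [NumberField K] : CompactSpace (GK K) := inferInstance
example (K : Type) [Field K] [NumberField K] : T2Space (GK K) := inferInstance
example (K : Type) [Field K] [NumberField K] : IsTopologicalGroup (GK K) := inferInstance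
example (K : Type) [Field K] [NumberField K] : TotallyDisconnectedSpace (GK K) := inferInstance
example (F K : Type) [Field F] [NumberField F] [Field K] [NumberField K]
    [Algebra F K] : CompactSpace (GF F K) := inferInstance

end Pool.Agent.Lib.MP_ca71b5_nt
end

section

/-!
# Open subgroups of the absolute Galois group
-/

set_option autoImplicit false
open scoped NumberField

namespace Pool.Agent.Lib.MP_ca71b5_nt

/-- infinite Galois theory for open subgroups: the fixing subgroup of the fixed field -/
theorem fixing_fixed_of_isOpen {k E : Type} [Field k] [Field E] [Algebra k E] [IsGalois k E]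
    (W : Subgroup (E ≃ₐ[k] E)) (hW : IsOpen (W : Set (E ≃ₐ[k] E))) :
    (IntermediateField.fixedField W).fixingSubgroup = W := by
  have hc : IsClosed (W : Set (E ≃ₐ[k] E)) := Subgroup.isClosed_of_isOpen W hW
  exact InfiniteGalois.fixingSubgroup_fixedField (⟨W, hc⟩ : ClosedSubgroup (E ≃ₐ[k] E))

theorem fixedField_open_gen {k E : Type} [Field k] [Field E] [Algebra k E] [IsGalois k E]
    (W : Subgroup (E ≃ₐ[k] E)) (hW : IsOpen (W : Set (E ≃ₐ[k] E))) :
    FiniteDimensional k (IntermediateField.fixedField W) ∧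
      Module.finrank k (IntermediateField.fixedField W) = W.index ∧
      ∀ g : E ≃ₐ[k] E, g ∈ W ↔ ∀ x ∈ IntermediateField.fixedField W, g x = x := by
  have h := fixing_fixed_of_isOpen W hW
  refine ⟨?_, ?_, ?_⟩
  · rw [← InfiniteGalois.isOpen_iff_finite, h]
    exact hW
  · rw [IntermediateField.finrank_eq_fixingSubgroup_index, h]
  · intro g
    conv_lhs => rw [← h]
    rw [IntermediateField.mem_fixingSubgroup_iff]

theorem fixedField_open_normal_gen {k E : Type} [Field k] [Field E] [Algebra k E] [IsGalois k E]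
    (W : Subgroup (E ≃ₐ[k] E)) [W.Normal] (hW : IsOpen (W : Set (E ≃ₐ[k] E))) :
    IsGalois k (IntermediateField.fixedField W) ∧
      Nonempty (((IntermediateField.fixedField W) ≃ₐ[k] (IntermediateField.fixedField W)) ≃*
        ((E ≃ₐ[k] E) ⧸ W)) := by
  have h := fixing_fixed_of_isOpen W hW
  have hc : IsClosed (W : Set (E ≃ₐ[k] E)) := Subgroup.isClosed_of_isOpen W hW
  refine ⟨?_, ?_⟩
  · rw [← InfiniteGalois.normal_iff_isGalois, h]
    infer_instance
  · have : (⟨W, hc⟩ : ClosedSubgroup (E ≃ₐ[k] E)).Normal := ‹W.Normal›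
    exact ⟨(InfiniteGalois.normalAutEquivQuotient
      (⟨W, hc⟩ : ClosedSubgroup (E ≃ₐ[k] E))).symm⟩

variable (K : Type) [Field K] [NumberField K]

theorem fixedField_open (W : Subgroup (GK K)) (hW : IsOpen (W : Set (GK K))) :
    FiniteDimensional K (IntermediateField.fixedField W) ∧
      Module.finrank K (IntermediateField.fixedField W) = W.index ∧
      ∀ g : GK K, g ∈ W ↔ ∀ x ∈ IntermediateField.fixedField W, g x = x :=
  fixedField_open_gen W hW

theorem fixedField_open_normal (W : Subgroup (GK K)) [W.Normal] (hW : IsOpen (W : Set (GK K))) :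
    IsGalois K (IntermediateField.fixedField W) ∧
      Nonempty (((IntermediateField.fixedField W) ≃ₐ[K] (IntermediateField.fixedField W)) ≃*
        (GK K ⧸ W)) :=
  fixedField_open_normal_gen W hW

end Pool.Agent.Lib.MP_ca71b5_nt
end
end

section

/-!
# Flags for solvable Lie algebras
-/

set_option autoImplicit false

namespace Pool.Agent.Lib.MP_ca71b5_nt

/-- Induction on the dimension. -/
theorem exists_flag_aux {k : Type*} [Field k] [IsAlgClosed k] [CharZero k] {L : Type*} [LieRing L]
    [LieAlgebra k L] [LieAlgebra.IsSolvable L] (n : ℕ) : ∀ (V : Type*) [AddCommGroup V] [Module k V]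
    [FiniteDimensional k V] [LieRingModule L V] [LieModule k L V], Module.finrank k V = n →
    ∃ F : ℕ → Submodule k V, F 0 = ⊥ ∧ F n = ⊤ ∧ (∀ i, F i ≤ F (i + 1)) ∧
      (∀ (x : L) (i : ℕ), ∀ v ∈ F i, ⁅x, v⁆ ∈ F i) ∧
      (∀ (i : ℕ) (x : L), ∃ c : k, ∀ v ∈ F (i + 1), ⁅x, v⁆ - c • v ∈ F i) := by
  induction n with
  | zero =>
    intro V _ _ _ _ _ hV
    have hs : Subsingleton V := Module.finrank_zero_iff.1 hV
    refine ⟨fun _ => ⊥, rfl, Subsingleton.elim _ _, fun _ => le_rfl, ?_, ?_⟩
    · intro x i v _
      rw [Subsingleton.elim ⁅x, v⁆ (0 : V)]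
      exact Submodule.zero_mem _
    · intro i x
      refine ⟨0, fun v _ => ?_⟩
      rw [Subsingleton.elim (⁅x, v⁆ - (0 : k) • v) (0 : V)]
      exact Submodule.zero_mem _
  | succ n ih =>
    intro V _ _ _ _ _ hV
    have : Nontrivial V := Module.nontrivial_of_finrank_pos (R := k) (by omega)
    obtain ⟨χ, hχ⟩ := LieModule.exists_nontrivial_weightSpace_of_isSolvable k L V
    obtain ⟨⟨v₀, hv₀⟩, hne⟩ := exists_ne (0 : LieModule.weightSpace V χ)
    have hv0 : v₀ ≠ 0 := fun h => hne (by simp [h])
    have hxv : ∀ x : L, ⁅x, v₀⁆ = χ x • v₀ := (LieModule.mem_weightSpace (χ := (χ : L → k)) v₀).1 hv₀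
    -- the line
    let N : LieSubmodule k L V :=
      { (Submodule.span k {v₀} : Submodule k V) with
        lie_mem := by
          intro x m hm
          have hm' : m ∈ Submodule.span k {v₀} := hm
          obtain ⟨c, rfl⟩ := Submodule.mem_span_singleton.1 hm'
          show ⁅x, c • v₀⁆ ∈ Submodule.span k {v₀}
          rw [lie_smul, hxv]
          exact Submodule.smul_mem _ _ (Submodule.smul_mem _ _
            (Submodule.mem_span_singleton_self v₀)) }
    have hNmem : ∀ m : V, m ∈ N ↔ m ∈ Submodule.span k {v₀} := fun m => Iff.rfl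
    have hNs : (N : Submodule k V) = Submodule.span k {v₀} := rfl
    have hdimN : Module.finrank k (N : Submodule k V) = 1 := by
      rw [hNs]; exact finrank_span_singleton hv0
    have hdimQ : Module.finrank k (V ⧸ N) = n := by
      have h1 := Submodule.finrank_quotient_add_finrank (N : Submodule k V)
      have h2 : Module.finrank k (V ⧸ N) = Module.finrank k (V ⧸ (N : Submodule k V)) := rfl
      omega
    have : FiniteDimensional k (V ⧸ N) :=
      inferInstanceAs (FiniteDimensional k (V ⧸ (N : Submodule k V)))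
    obtain ⟨F', h0, h1, h2, h3, h4⟩ := ih (V ⧸ N) hdimQ
    let π : V →ₗ[k] (V ⧸ N) := (LieSubmodule.Quotient.mk' N : V →ₗ⁅k,L⁆ V ⧸ N)
    have hπ : ∀ (x : L) (v : V), π ⁅x, v⁆ = ⁅x, π v⁆ := fun x v =>
      LieModuleHom.map_lie (LieSubmodule.Quotient.mk' N : V →ₗ⁅k,L⁆ V ⧸ N) x v
    have hker : ∀ v : V, π v = 0 ↔ v ∈ Submodule.span k {v₀} := fun v =>
      LieSubmodule.Quotient.mk_eq_zero (N := N) (m := v)
    let F : ℕ → Submodule k V := fun i => match i with
      | 0 => ⊥
      | (j + 1) => (F' j).comap π
    have hF0 : F 0 = ⊥ := rfl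
    have hFs : ∀ j, F (j + 1) = (F' j).comap π := fun j => rfl
    have hF1 : ∀ v, v ∈ F 1 ↔ v ∈ Submodule.span k {v₀} := by
      intro v
      rw [hFs 0, h0, Submodule.mem_comap, Submodule.mem_bot, hker]
    refine ⟨F, hF0, ?_, ?_, ?_, ?_⟩
    · rw [hFs, h1, Submodule.comap_top]
    · intro i
      rcases i with _ | j
      · rw [hF0]; exact bot_le
      · rw [hFs, hFs]
        exact Submodule.comap_mono (h2 j)
    · intro x i v hv
      rcases i with _ | j
      · rw [hF0, Submodule.mem_bot] at hv ⊢
        rw [hv, lie_zero]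
      · rw [hFs, Submodule.mem_comap] at hv ⊢
        rw [hπ]
        exact h3 x j _ hv
    · intro i x
      rcases i with _ | j
      · refine ⟨χ x, fun v hv => ?_⟩
        rw [hF0, Submodule.mem_bot]
        obtain ⟨c, rfl⟩ := Submodule.mem_span_singleton.1 ((hF1 v).1 hv)
        rw [lie_smul, hxv, smul_comm, sub_self]
      · obtain ⟨c, hc⟩ := h4 j x
        refine ⟨c, fun v hv => ?_⟩
        rw [hFs, Submodule.mem_comap] at hv ⊢
        rw [map_sub, map_smul, hπ]
        exact hc _ hv

theorem exists_flag {k : Type*} [Field k] [IsAlgClosed k] [CharZero k] {L : Type*} [LieRing L]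
    [LieAlgebra k L] [LieAlgebra.IsSolvable L] {V : Type*} [AddCommGroup V] [Module k V]
    [FiniteDimensional k V] [LieRingModule L V] [LieModule k L V] :
    ∃ F : ℕ → Submodule k V, F 0 = ⊥ ∧ F (Module.finrank k V) = ⊤ ∧ (∀ i, F i ≤ F (i + 1)) ∧
      (∀ (x : L) (i : ℕ), ∀ v ∈ F i, ⁅x, v⁆ ∈ F i) ∧
      (∀ (i : ℕ) (x : L), ∃ c : k, ∀ v ∈ F (i + 1), ⁅x, v⁆ - c • v ∈ F i) :=
  exists_flag_aux (Module.finrank k V) V rfl

end Pool.Agent.Lib.MP_ca71b5_nt
end

section

section

/-!
# A basis of roots and the dimension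
-/

set_option autoImplicit false

namespace Pool.Agent.Lib.MP_ca71b5_nt

variable {E : Type*} [Field E] [CharZero E] [IsAlgClosed E] {L : Type*} [LieRing L]
  [LieAlgebra E L] [FiniteDimensional E L] [LieAlgebra.IsKilling E L]
  (H : LieSubalgebra E L) [H.IsCartanSubalgebra]


/-- a basis of the dual of the Cartan subalgebra consisting of roots, such that all the roots are
integral combinations -/
theorem exists_root_basis :
    ∃ b : Module.Basis (Fin (Module.finrank E H)) E (Module.Dual E H),
      (∀ j, ∃ α : LieModule.Weight E H L, α.IsNonZero ∧ (b j : H → E) = α) ∧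
      ∀ α : LieModule.Weight E H L, ∃ c : Fin (Module.finrank E H) → ℤ,
        ∀ h : H, α h = ∑ j, (c j : E) * b j h := by
  classical
  obtain ⟨b⟩ := RootPairing.nonempty_base (LieAlgebra.IsKilling.rootSystem H)
  have hc : Fintype.card b.support = Module.finrank E H := by
    rw [← Module.finrank_eq_card_basis b.toWeightBasis, Subspace.dual_finrank_eq]
  let e : b.support ≃ Fin (Module.finrank E H) := Fintype.equivFinOfCardEq hc
  refine ⟨b.toWeightBasis.reindex e, ?_, ?_⟩
  · intro j
    refine ⟨(((e.symm j : b.support) : H.root) : LieModule.Weight E H L), ?_, ?_⟩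
    · exact (Finset.mem_filter.1 ((e.symm j : b.support) : H.root).2).2
    · rw [Module.Basis.reindex_apply, RootPairing.Base.toWeightBasis_apply,
        LieAlgebra.IsKilling.rootSystem_root_apply]
      rfl
  · intro α
    by_cases hα : α.IsZero
    · refine ⟨0, fun h => ?_⟩
      rw [hα.eq]
      simp
    · let i : H.root := ⟨α, by simpa [LieSubalgebra.root] using hα⟩
      obtain ⟨f, _, _, hf⟩ := b.exists_root_eq_sum_int i
      refine ⟨fun j => f (e.symm j), fun h => ?_⟩
      have h1 := congrArg (fun φ : Module.Dual E H => φ h) hf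
      have h2 : (LieAlgebra.IsKilling.rootSystem H).root i h = α h := by
        rw [LieAlgebra.IsKilling.rootSystem_root_apply]
        rfl
      have h1' : (LieAlgebra.IsKilling.rootSystem H).root i h
          = (∑ j ∈ b.support, f j • (LieAlgebra.IsKilling.rootSystem H).root j) h := h1
      rw [h2] at h1'
      rw [h1', LinearMap.sum_apply, ← Finset.sum_coe_sort b.support, ← e.sum_comp]
      refine Finset.sum_congr rfl fun j _ => ?_
      rw [Module.Basis.reindex_apply, Equiv.symm_apply_apply,
        RootPairing.Base.toWeightBasis_apply, LinearMap.smul_apply, zsmul_eq_mul]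
      show _ = ((f (e.symm (e j)) : ℤ) : E) * _
      rw [Equiv.symm_apply_apply]

theorem three_mul_rank_le : 3 * Module.finrank E H ≤ Module.finrank E L := by
  classical
  obtain ⟨b, hb, _⟩ := exists_root_basis H
  choose α hα hbα using hb
  let w : Option (Fin (Module.finrank E H) ⊕ Fin (Module.finrank E H)) → (H → E) := fun o =>
    match o with
    | none => 0
    | some (Sum.inl j) => α j
    | some (Sum.inr j) => -(α j : H → E)
  have hαb : ∀ j, (α j : H → E) = b j := fun j => (hbα j).symm
  have hinj : ∀ i j, (α i : H → E) = α j → i = j := by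
    intro i j h
    apply b.injective
    apply DFunLike.coe_injective
    rw [hbα, hbα, h]
  have hneg : ∀ i j, (α i : H → E) ≠ -(α j : H → E) := by
    intro i j h
    have h1 : b i + b j = 0 := by
      apply DFunLike.coe_injective
      ext x
      have := congrFun h x
      rw [hαb, hαb] at this
      simp only [Pi.neg_apply] at this
      simp only [LinearMap.add_apply, LinearMap.zero_apply]
      rw [this, neg_add_cancel]
    have h2 := congrArg (fun v => b.repr v i) h1
    simp only [map_add, Module.Basis.repr_self, Finsupp.add_apply, Finsupp.single_eq_same,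
      map_zero, Finsupp.zero_apply] at h2
    by_cases hij : j = i
    · subst hij
      simp only [Finsupp.single_eq_same] at h2
      norm_num at h2
    · rw [Finsupp.single_eq_of_ne' hij, add_zero] at h2
      exact one_ne_zero h2
  have hne : ∀ i, (α i : H → E) ≠ 0 := by
    intro i h
    exact hα i h
  have hw : Function.Injective w := by
    intro x y hxy
    rcases x with _ | (i | i) <;> rcases y with _ | (j | j)
    · rfl
    · exact absurd hxy.symm (hne j)
    · exact absurd (neg_eq_zero.1 (Eq.symm hxy : -(α j : H → E) = 0)) (hne j)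
    · exact absurd hxy (hne i)
    · rw [hinj i j hxy]
    · exact absurd hxy (hneg i j)
    · exact absurd (neg_eq_zero.1 (hxy : -(α i : H → E) = 0)) (hne i)
    · exact absurd (Eq.symm hxy) (hneg j i)
    · rw [hinj i j (neg_injective hxy)]
  let V : Option (Fin (Module.finrank E H) ⊕ Fin (Module.finrank E H)) → Submodule E L := fun i =>
    (LieAlgebra.rootSpace H (w i)).toSubmodule
  have hind : iSupIndep V := by
    have h1 := (LieModule.iSupIndep_genWeightSpace E H L).comp hw
    exact LieSubmodule.iSupIndep_toSubmodule.2 h1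
  have hle : Module.finrank E (DirectSum _ fun i => V i) ≤ Module.finrank E L :=
    LinearMap.finrank_le_finrank_of_injective hind.dfinsupp_lsum_injective
  rw [Module.finrank_directSum, Fintype.sum_option, Fintype.sum_sum_type] at hle
  have h0 : Module.finrank E (V none) = Module.finrank E H := by
    have : V none = H.toSubmodule := by
      show (LieAlgebra.rootSpace H (0 : H → E)).toSubmodule = _
      rw [LieAlgebra.rootSpace_zero_eq]
      rfl
    rw [this]
    rfl
  have h1 : ∀ j, Module.finrank E (V (some (Sum.inl j))) = 1 := fun j =>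
    LieAlgebra.IsKilling.finrank_rootSpace_eq_one (α j) (hα j)
  have h2 : ∀ j, Module.finrank E (V (some (Sum.inr j))) = 1 := by
    intro j
    have h3 : (-(α j)).IsNonZero := by
      intro h
      apply hne j
      have : ((-(α j) : LieModule.Weight E H L) : H → E) = 0 := h
      rw [LieModule.Weight.coe_neg] at this
      exact neg_eq_zero.1 this
    have h4 := LieAlgebra.IsKilling.finrank_rootSpace_eq_one (-(α j)) h3
    rw [LieModule.Weight.coe_neg] at h4
    exact h4
  rw [h0, Finset.sum_congr rfl (fun j _ => h1 j), Finset.sum_congr rfl (fun j _ => h2 j)] at hle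
  simp only [Finset.sum_const, Finset.card_univ, Fintype.card_fin, smul_eq_mul, mul_one] at hle
  omega

end Pool.Agent.Lib.MP_ca71b5_nt
end

section

/-!
# Semilinear automorphisms permute the roots
-/

set_option autoImplicit false

namespace Pool.Agent.Lib.MP_ca71b5_nt

variable {E : Type*} [Field E] [CharZero E] [IsAlgClosed E] {L : Type*} [LieRing L]
  [LieAlgebra E L] [FiniteDimensional E L] [LieAlgebra.IsKilling E L]
  (H : LieSubalgebra E L) [H.IsCartanSubalgebra]

omit [CharZero E] [IsAlgClosed E] [FiniteDimensional E L] [LieAlgebra.IsKilling E L] in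
theorem rootSpace_image (σ : E ≃+* E) (S : L ≃+ L)
    (hS1 : ∀ (c : E) (x : L), S (c • x) = σ c • S x) (hS2 : ∀ x y : L, S ⁅x, y⁆ = ⁅S x, S y⁆)
    (hSH' : ∀ x ∈ H, S.symm x ∈ H) (χ : H → E) (x : L) (hx : x ∈ LieAlgebra.rootSpace H χ) :
    S x ∈ LieAlgebra.rootSpace H (fun h : H => σ (χ ⟨S.symm h, hSH' h h.2⟩)) := by
  rw [LieModule.mem_genWeightSpace] at hx ⊢
  intro h
  obtain ⟨n, hn⟩ := hx ⟨S.symm h, hSH' h h.2⟩
  refine ⟨n, ?_⟩
  have key : ∀ (n : ℕ) (y : L),
      S (((LieModule.toEnd E H L ⟨S.symm h, hSH' h h.2⟩ -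
        χ ⟨S.symm h, hSH' h h.2⟩ • (1 : Module.End E L)) ^ n) y) =
      ((LieModule.toEnd E H L h - σ (χ ⟨S.symm h, hSH' h h.2⟩) • (1 : Module.End E L)) ^ n)
        (S y) := by
    intro n
    induction n with
    | zero => intro y; rfl
    | succ n ih =>
      intro y
      rw [pow_succ, pow_succ, Module.End.mul_apply, Module.End.mul_apply, ih]
      congr 1
      have e1 : (LieModule.toEnd E H L ⟨S.symm h, hSH' h h.2⟩ -
          χ ⟨S.symm h, hSH' h h.2⟩ • (1 : Module.End E L)) y =
          ⁅S.symm (h : L), y⁆ - χ ⟨S.symm h, hSH' h h.2⟩ • y := rfl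
      have e2 : (LieModule.toEnd E H L h -
          σ (χ ⟨S.symm h, hSH' h h.2⟩) • (1 : Module.End E L)) (S y) =
          ⁅(h : L), S y⁆ - σ (χ ⟨S.symm h, hSH' h h.2⟩) • S y := rfl
      rw [e1, e2, map_sub, hS1, hS2, AddEquiv.apply_symm_apply]
  have h1 := key n x
  rw [hn, map_zero] at h1
  exact h1.symm

/-- a semilinear automorphism preserving the Cartan subalgebra permutes the root spaces -/
theorem exists_weight_map (σ : E ≃+* E) (S : L ≃+ L)
    (hS1 : ∀ (c : E) (x : L), S (c • x) = σ c • S x) (hS2 : ∀ x y : L, S ⁅x, y⁆ = ⁅S x, S y⁆)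
    (hSH : ∀ x ∈ H, S x ∈ H) (hSH' : ∀ x ∈ H, S.symm x ∈ H) :
    ∃ π : Equiv.Perm (LieModule.Weight E H L),
      (∀ (α : LieModule.Weight E H L) (h : H), π α ⟨S h, hSH h h.2⟩ = σ (α h)) ∧
      (∀ (α : LieModule.Weight E H L) (x : L), x ∈ LieAlgebra.rootSpace H α →
        S x ∈ LieAlgebra.rootSpace H (π α)) := by
  have hne : ∀ α : LieModule.Weight E H L,
      LieModule.genWeightSpace L (fun h : H => σ (α ⟨S.symm h, hSH' h h.2⟩)) ≠ ⊥ := by
    intro α hbot
    obtain ⟨x, hx, hx0⟩ := α.exists_ne_zero
    have h1 := rootSpace_image H σ S hS1 hS2 hSH' α x hx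
    have h2 : S x ∈ LieModule.genWeightSpace L
      (fun h : H => σ (α ⟨S.symm h, hSH' h h.2⟩)) := h1
    rw [hbot, LieSubmodule.mem_bot] at h2
    exact hx0 ((map_eq_zero_iff S S.injective).mp h2)
  let f : LieModule.Weight E H L → LieModule.Weight E H L := fun α =>
    ⟨fun h : H => σ (α ⟨S.symm h, hSH' h h.2⟩), hne α⟩
  have hf : ∀ (α : LieModule.Weight E H L) (h : H), f α h = σ (α ⟨S.symm h, hSH' h h.2⟩) :=
    fun α h => rfl
  have hsh : ∀ h : H, (⟨S.symm (S h), hSH' _ (hSH h h.2)⟩ : H) = h := fun h =>
    Subtype.ext (S.symm_apply_apply _)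
  have hf' : ∀ (α : LieModule.Weight E H L) (h : H), f α ⟨S h, hSH h h.2⟩ = σ (α h) := by
    intro α h
    have h1 := hf α ⟨S h, hSH h h.2⟩
    have h2 : (⟨S.symm ((⟨S h, hSH h h.2⟩ : H) : L), hSH' _ (hSH h h.2)⟩ : H) = h := hsh h
    rw [h1, h2]
  have hinj : Function.Injective f := by
    intro α β hαβ
    apply LieModule.Weight.ext
    intro h
    have h1 := hf' α h
    rw [hαβ, hf' β h] at h1
    exact (σ.injective h1).symm
  refine ⟨Equiv.ofBijective f (Finite.injective_iff_bijective.mp hinj), ?_, ?_⟩
  · intro α h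
    exact hf' α h
  · intro α x hx
    exact rootSpace_image H σ S hS1 hS2 hSH' α x hx

end Pool.Agent.Lib.MP_ca71b5_nt
end
end
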