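import Mathlib
import Pool.Agent.Lib.MP_ca71b5_nt.Base
import Pool.Agent.Lib.MP_ca71b5_nt.LPM

section

/-!
# The quotient by the radical
-/

set_option autoImplicit false

namespace Pool.Agent.Lib.MP_ca71b5_nt

variable {k : Type*} [Field k] [CharZero k] {L : Type*} [LieRing L] [LieAlgebra k L]
  [FiniteDimensional k L]

/-- the quotient map as a morphism of Lie algebras -/
noncomputable def quotHom (k : Type*) [Field k] {L : Type*} [LieRing L] [LieAlgebra k L]
    (I : LieIdeal k L) : L →ₗ⁅k⁆ (L ⧸ I) :=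
  { (LieSubmodule.Quotient.mk' I : L →ₗ[k] L ⧸ I) with
    map_lie' := fun {x y} => LieSubmodule.Quotient.mk_bracket I x y }

omit [CharZero k] [FiniteDimensional k L] in
theorem quotHom_apply (I : LieIdeal k L) (x : L) :
    quotHom k I x = LieSubmodule.Quotient.mk x := rfl

omit [CharZero k] [FiniteDimensional k L] in
theorem quotHom_eq_zero (I : LieIdeal k L) (x : L) : quotHom k I x = 0 ↔ x ∈ I :=
  LieSubmodule.Quotient.mk_eq_zero I

omit [CharZero k] [FiniteDimensional k L] in
theorem quotHom_surj (I : LieIdeal k L) (y : L ⧸ I) : ∃ x, quotHom k I x = y :=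
  LieSubmodule.Quotient.surjective_mk' I y

theorem quot_radical_trivial :
    LieAlgebra.HasTrivialRadical k (L ⧸ LieAlgebra.radical k L) := by
  rw [LieAlgebra.hasTrivialRadical_iff_no_abelian_ideals]
  generalize hR : LieAlgebra.radical k L = R
  intro I hI
  have hsolv : LieAlgebra.IsSolvable R := by rw [← hR]; infer_instance
  set J : LieIdeal k L := LieIdeal.comap (quotHom k R) I with hJ
  have h1 : LieAlgebra.derivedSeriesOfIdeal k L 1 J ≤ R := by
    rw [LieAlgebra.derivedSeriesOfIdeal_succ, LieAlgebra.derivedSeriesOfIdeal_zero,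
      LieSubmodule.lie_le_iff]
    intro x hx y hy
    rw [← quotHom_eq_zero, LieHom.map_lie]
    have hx' : quotHom k R x ∈ I := hx
    have hy' : quotHom k R y ∈ I := hy
    have := hI.trivial (⟨_, hx'⟩ : I) (⟨_, hy'⟩ : I)
    exact congrArg Subtype.val this
  obtain ⟨m, hm⟩ := LieAlgebra.IsSolvable.solvable k R
  rw [LieIdeal.derivedSeries_eq_bot_iff] at hm
  have h2 : LieAlgebra.derivedSeriesOfIdeal k L (m + 1) J = ⊥ := by
    rw [LieAlgebra.derivedSeriesOfIdeal_add, eq_bot_iff, ← hm]
    exact LieAlgebra.derivedSeriesOfIdeal_mono h1 m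
  have h3 : LieAlgebra.IsSolvable J :=
    LieAlgebra.IsSolvable.mk (R := k) ((LieIdeal.derivedSeries_eq_bot_iff J (m + 1)).2 h2)
  have h4 : J ≤ R := by
    rw [← hR]
    exact (LieAlgebra.LieIdeal.solvable_iff_le_radical k L J).1 h3
  rw [eq_bot_iff]
  intro y hy
  obtain ⟨x, rfl⟩ := quotHom_surj R y
  have : x ∈ R := h4 hy
  rw [LieSubmodule.mem_bot, quotHom_eq_zero]
  exact this

theorem solvable_of_quot_subsingleton (h : ∀ y : L ⧸ LieAlgebra.radical k L, y = 0) :
    LieAlgebra.IsSolvable L := by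
  have h1 : LieAlgebra.radical k L = ⊤ := by
    rw [eq_top_iff]
    intro x _
    rw [← quotHom_eq_zero]
    exact h _
  have h2 : LieAlgebra.IsSolvable (LieAlgebra.radical k L) := inferInstance
  rw [h1] at h2
  exact (LieAlgebra.solvable_iff_equiv_solvable LieIdeal.topEquiv).1 h2

theorem radical_of_auto (T : L ≃ₗ⁅k⁆ L) (x : L) (hx : T x ∈ LieAlgebra.radical k L) :
    x ∈ LieAlgebra.radical k L := by
  set R := LieAlgebra.radical k L with hR
  set J : LieIdeal k L := LieIdeal.comap (T : L →ₗ⁅k⁆ L) R with hJ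
  let f : J →ₗ⁅k⁆ R :=
    { toFun := fun x => ⟨T x.1, x.2⟩
      map_add' := fun a b => Subtype.ext (map_add T a.1 b.1)
      map_smul' := fun c a => Subtype.ext (map_smul T c a.1)
      map_lie' := fun {a b} => Subtype.ext (LieEquiv.map_lie T a.1 b.1) }
  have hf : Function.Injective f := by
    intro a b hab
    apply Subtype.ext
    apply T.injective
    exact congrArg Subtype.val hab
  have h3 : LieAlgebra.IsSolvable J := hf.lieAlgebra_isSolvable
  have h4 : J ≤ R := (LieAlgebra.LieIdeal.solvable_iff_le_radical k L J).1 h3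
  exact h4 hx

theorem exists_quot_auto (l : ℕ) (hl : 0 < l) (T : L ≃ₗ⁅k⁆ L) (hT : ∀ x, T^[l] x = x) :
    ∃ T' : (L ⧸ LieAlgebra.radical k L) ≃ₗ⁅k⁆ (L ⧸ LieAlgebra.radical k L),
      (∀ x : L, T' (LieSubmodule.Quotient.mk x) = LieSubmodule.Quotient.mk (T x)) ∧
      (∀ y, T'^[l] y = y) ∧
      (∀ y, T' y = y → ∃ x : L, T x = x ∧ LieSubmodule.Quotient.mk x = y) ∧
      Module.finrank k (fixS T') ≤ Module.finrank k (fixS T) := by
  have hmem0 : ∀ x, x ∈ LieAlgebra.radical k L → T x ∈ LieAlgebra.radical k L := by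
    intro x hx
    apply radical_of_auto T.symm
    rwa [LieEquiv.symm_apply_apply]
  have hmem1 : ∀ x, T x ∈ LieAlgebra.radical k L → x ∈ LieAlgebra.radical k L :=
    fun x hx => radical_of_auto T x hx
  generalize hR : LieAlgebra.radical k L = R at hmem0 hmem1 ⊢
  clear hR
  have hmap : Submodule.map (T.toLinearEquiv : L →ₗ[k] L) R.toSubmodule = R.toSubmodule := by
    apply le_antisymm
    · rintro _ ⟨x, hx, rfl⟩
      exact hmem0 x hx
    · intro y hy
      refine ⟨T.symm y, ?_, LieEquiv.apply_symm_apply T y⟩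
      apply hmem1
      rw [LieEquiv.apply_symm_apply]
      exact hy
  let E := Submodule.Quotient.equiv R.toSubmodule R.toSubmodule T.toLinearEquiv hmap
  have hE : ∀ x : L, E (quotHom k R x) = quotHom k R (T x) := fun x => rfl
  let T' : (L ⧸ R) ≃ₗ⁅k⁆ (L ⧸ R) :=
    { E with
      map_lie' := by
        intro a b
        obtain ⟨x, rfl⟩ := quotHom_surj R a
        obtain ⟨y, rfl⟩ := quotHom_surj R b
        change quotHom k R (T ⁅x, y⁆) = (⁅quotHom k R (T x), quotHom k R (T y)⁆ : L ⧸ R)
        rw [LieEquiv.map_lie, LieHom.map_lie] }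
  have hT' : ∀ x : L, T' (quotHom k R x) = quotHom k R (T x) := fun x => rfl
  have hiter : ∀ (i : ℕ) (x : L), T'^[i] (quotHom k R x) = quotHom k R (T^[i] x) := by
    intro i
    induction i with
    | zero => intro x; rfl
    | succ i ih => intro x; rw [Function.iterate_succ_apply, Function.iterate_succ_apply, hT', ih]
  have hfix : ∀ y, T' y = y → ∃ x : L, T x = x ∧ quotHom k R x = y := by
    intro y hy
    obtain ⟨x, rfl⟩ := quotHom_surj R y
    have hl0 : (l : k) ≠ 0 := by exact_mod_cast hl.ne'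
    refine ⟨(l : k)⁻¹ • ∑ i ∈ Finset.range l, T^[i] x, ?_, ?_⟩
    · rw [map_smul, map_sum]
      congr 1
      have h1 : ∀ i, T (T^[i] x) = T^[i + 1] x := fun i => (Function.iterate_succ_apply' T i x).symm
      rw [Finset.sum_congr rfl fun i _ => h1 i]
      have h2 := Finset.sum_range_succ (fun i => T^[i] x) l
      have h3 := Finset.sum_range_succ' (fun i => T^[i] x) l
      rw [h3] at h2
      simp only [hT, Function.iterate_zero, id_eq] at h2
      exact add_right_cancel h2
    · rw [map_smul, map_sum]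
      have h1 : ∀ i, quotHom k R (T^[i] x) = quotHom k R x := by
        intro i
        rw [← hiter]
        exact Function.iterate_fixed hy i
      rw [Finset.sum_congr rfl fun i _ => h1 i, Finset.sum_const, Finset.card_range,
        ← Nat.cast_smul_eq_nsmul k, smul_smul, inv_mul_cancel₀ hl0, one_smul]
  refine ⟨T', hT', ?_, hfix, ?_⟩
  · intro y
    obtain ⟨x, rfl⟩ := quotHom_surj R y
    rw [hiter, hT]
  · let f : fixS T →ₗ[k] fixS T' :=
      { toFun := fun x => ⟨quotHom k R x.1, by
          rw [mem_fixS, hT', (mem_fixS T _).1 x.2]⟩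
        map_add' := fun a b => Subtype.ext (map_add (quotHom k R) a.1 b.1)
        map_smul' := fun c a => Subtype.ext (map_smul (quotHom k R) c a.1) }
    have hf : Function.Surjective f := by
      rintro ⟨y, hy⟩
      obtain ⟨x, hx, hxy⟩ := hfix y hy
      exact ⟨⟨x, hx⟩, Subtype.ext hxy⟩
    exact LinearMap.finrank_le_finrank_of_surjective hf

end Pool.Agent.Lib.MP_ca71b5_nt
end

section

/-!
# The Killing form on solvable subalgebras
-/

set_option autoImplicit false

namespace Pool.Agent.Lib.MP_ca71b5_nt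

open scoped TensorProduct

theorem flag_isNilpotent {K : Type*} [Field K] {V : Type*} [AddCommGroup V] [Module K V]
    (n : ℕ) (F : ℕ → Submodule K V) (h0 : F 0 = ⊥) (hn : F n = ⊤) (W : Module.End K V)
    (hW : ∀ i, ∀ v ∈ F (i + 1), W v ∈ F i) : IsNilpotent W := by
  have key : ∀ (j i : ℕ) (v : V), v ∈ F (i + j) → (W ^ j) v ∈ F i := by
    intro j
    induction j with
    | zero => intro i v hv; simpa using hv
    | succ j ih =>
      intro i v hv
      rw [pow_succ, Module.End.mul_apply]
      exact ih i _ (hW (i + j) v hv)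
  refine ⟨n, ?_⟩
  apply LinearMap.ext
  intro v
  have h1 := key n 0 v (by rw [zero_add, hn]; trivial)
  rw [h0, Submodule.mem_bot] at h1
  simpa using h1

variable {k : Type*} [Field k] [CharZero k] {L : Type*} [LieRing L] [LieAlgebra k L]
  [FiniteDimensional k L]


theorem killing_solvable (c : LieSubalgebra k L) (hc : LieAlgebra.IsSolvable c) (x y z : L)
    (hx : x ∈ c) (hy : y ∈ c) (hz : z ∈ c) : killingForm k L ⁅x, y⁆ z = 0 := by
  classical
  have : CharZero (AlgebraicClosure k) := charZero_of_injective_algebraMap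
    (algebraMap k (AlgebraicClosure k)).injective
  have : LieAlgebra.IsSolvable (AlgebraicClosure k ⊗[k] c) := inferInstance
  obtain ⟨F, h0, hn, -, hinv, hsc⟩ := exists_flag (k := AlgebraicClosure k)
    (L := AlgebraicClosure k ⊗[k] c) (V := AlgebraicClosure k ⊗[k] L)
  set X : Module.End (AlgebraicClosure k) (AlgebraicClosure k ⊗[k] L) :=
    (LieAlgebra.ad k L x).baseChange (AlgebraicClosure k) with hX
  set Y : Module.End (AlgebraicClosure k) (AlgebraicClosure k ⊗[k] L) :=
    (LieAlgebra.ad k L y).baseChange (AlgebraicClosure k) with hY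
  set Z : Module.End (AlgebraicClosure k) (AlgebraicClosure k ⊗[k] L) :=
    (LieAlgebra.ad k L z).baseChange (AlgebraicClosure k) with hZ
  have hact : ∀ (w : L) (hw : w ∈ c) (v : AlgebraicClosure k ⊗[k] L),
      (LieAlgebra.ad k L w).baseChange (AlgebraicClosure k) v =
        LieModule.toEnd (AlgebraicClosure k) (AlgebraicClosure k ⊗[k] c)
          (AlgebraicClosure k ⊗[k] L) ((1 : AlgebraicClosure k) ⊗ₜ[k] (⟨w, hw⟩ : c)) v := by
    intro w hw v
    rw [LieModule.toEnd_baseChange]
    rfl
  have hpres : ∀ (w : L) (hw : w ∈ c) (i : ℕ), ∀ v ∈ F i,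
      (LieAlgebra.ad k L w).baseChange (AlgebraicClosure k) v ∈ F i := by
    intro w hw i v hv
    rw [hact w hw]
    exact hinv _ i v hv
  have hscal : ∀ (w : L) (hw : w ∈ c) (i : ℕ), ∃ a : AlgebraicClosure k, ∀ v ∈ F (i + 1),
      (LieAlgebra.ad k L w).baseChange (AlgebraicClosure k) v - a • v ∈ F i := by
    intro w hw i
    obtain ⟨a, ha⟩ := hsc i ((1 : AlgebraicClosure k) ⊗ₜ[k] (⟨w, hw⟩ : c))
    exact ⟨a, fun v hv => by rw [hact w hw]; exact ha v hv⟩
  have hW : ∀ i, ∀ v ∈ F (i + 1), ((X * Y - Y * X) * Z) v ∈ F i := by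
    intro i v hv
    have hv' : Z v ∈ F (i + 1) := hpres z hz _ v hv
    rw [Module.End.mul_apply]
    generalize Z v = u at hv'
    obtain ⟨a, ha⟩ := hscal x hx i
    obtain ⟨b, hb⟩ := hscal y hy i
    have h1 : X (Y u - b • u) - a • (Y u - b • u) ∈ F i :=
      ha _ ((F (i + 1)).sub_mem (hpres y hy _ u hv') ((F (i + 1)).smul_mem b hv'))
    have h2 : Y (X u - a • u) - b • (X u - a • u) ∈ F i :=
      hb _ ((F (i + 1)).sub_mem (hpres x hx _ u hv') ((F (i + 1)).smul_mem a hv'))
    have e : (X * Y - Y * X) u = (X (Y u - b • u) - a • (Y u - b • u))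
        - (Y (X u - a • u) - b • (X u - a • u)) := by
      simp only [LinearMap.sub_apply, Module.End.mul_apply, map_sub, map_smul, smul_sub, smul_smul]
      rw [mul_comm a b]
      abel
    rw [e]
    exact (F i).sub_mem h1 h2
  have hnil := flag_isNilpotent _ F h0 hn _ hW
  have htr := (LinearMap.isNilpotent_trace_of_isNilpotent hnil).eq_zero
  have hbc : (X * Y - Y * X) * Z = (((LieAlgebra.ad k L x) * (LieAlgebra.ad k L y) -
      (LieAlgebra.ad k L y) * (LieAlgebra.ad k L x)) * (LieAlgebra.ad k L z)).baseChange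
        (AlgebraicClosure k) := by
    rw [LinearMap.baseChange_mul, LinearMap.baseChange_sub, LinearMap.baseChange_mul,
      LinearMap.baseChange_mul]
  rw [hbc, LinearMap.trace_baseChange] at htr
  have h3 := (FaithfulSMul.algebraMap_injective k (AlgebraicClosure k))
    (htr.trans (map_zero _).symm)
  rw [killingForm_apply_apply]
  have h4 : LieAlgebra.ad k L ⁅x, y⁆ = (LieAlgebra.ad k L x) * (LieAlgebra.ad k L y) -
      (LieAlgebra.ad k L y) * (LieAlgebra.ad k L x) := by
    apply LinearMap.ext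
    intro v
    simp [LieAlgebra.ad_apply]
  rw [h4]
  exact h3

end Pool.Agent.Lib.MP_ca71b5_nt
end

section

/-!
# Ad-nilpotent fixed points vanish
-/

set_option autoImplicit false

namespace Pool.Agent.Lib.MP_ca71b5_nt

variable {k : Type*} [Field k] [CharZero k] {L : Type*} [LieRing L] [LieAlgebra k L]
  [FiniteDimensional k L] [LieAlgebra.IsKilling k L]

attribute [local instance 100] LieRing.ofAssociativeRing

/-- the fixed points as a Lie subalgebra -/
def fixLie (T : L ≃ₗ⁅k⁆ L) : LieSubalgebra k L where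
  carrier := {x | T x = x}
  add_mem' := by
    intro a b (ha : T a = a) (hb : T b = b)
    change T (a + b) = a + b
    rw [map_add, ha, hb]
  zero_mem' := map_zero T
  smul_mem' := by
    intro c a (ha : T a = a)
    change T (c • a) = c • a
    rw [map_smul, ha]
  lie_mem' := by
    intro a b (ha : T a = a) (hb : T b = b)
    change T ⁅a, b⁆ = ⁅a, b⁆
    rw [LieEquiv.map_lie, ha, hb]

omit [CharZero k] in
theorem killing_iterate (T : L ≃ₗ⁅k⁆ L) (x y : L) (hx : T x = x) (i : ℕ) :
    killingForm k L x (T^[i] y) = killingForm k L x y := by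
  induction i with
  | zero => rfl
  | succ i ih =>
    rw [Function.iterate_succ_apply', ← ih]
    conv_lhs => rw [← hx]
    rw [LieAlgebra.killingForm_of_equiv_apply]

theorem fixed_eq_zero_of_nilpotent (l : ℕ) (hl : 0 < l) (T : L ≃ₗ⁅k⁆ L)
    (hT : ∀ x, T^[l] x = x) (hn : ∀ x : L, T x = x → IsNilpotent (LieAlgebra.ad k L x))
    (x : L) (hx : T x = x) : x = 0 := by
  have h1 : LieModule.IsNilpotent (fixLie T) L := by
    rw [LieModule.isNilpotent_iff_forall' (R := k)]
    intro y
    exact hn y.1 y.2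
  have h2 : LieModule.traceForm k (fixLie T) L = 0 :=
    LieModule.traceForm_eq_zero_of_isNilpotent k (fixLie T) L
  have h3 : ∀ y : L, T y = y → killingForm k L x y = 0 := by
    intro y hy
    have h4 := LinearMap.congr_fun (LinearMap.congr_fun h2 ⟨x, hx⟩) ⟨y, hy⟩
    exact h4
  have h5 : ∀ y : L, killingForm k L x y = 0 := by
    intro y
    have h6 : T (∑ i ∈ Finset.range l, T^[i] y) = ∑ i ∈ Finset.range l, T^[i] y := by
      rw [map_sum]
      have h7 : ∑ i ∈ Finset.range l, T (T^[i] y) = ∑ i ∈ Finset.range l, T^[i + 1] y :=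
        Finset.sum_congr rfl fun i _ => by rw [Function.iterate_succ_apply']
      rw [h7]
      have h8 := Finset.sum_range_succ (fun i => T^[i] y) l
      have h9 := Finset.sum_range_succ' (fun i => T^[i] y) l
      have h10 : ∑ i ∈ Finset.range l, T^[i + 1] y + T^[0] y =
          ∑ i ∈ Finset.range l, T^[i] y + T^[l] y := by rw [← h8, ← h9]
      rw [hT y] at h10
      exact add_right_cancel h10
    have h11 := h3 _ h6
    rw [map_sum, Finset.sum_congr rfl fun i _ => killing_iterate T x y hx i, Finset.sum_const,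
      Finset.card_range, nsmul_eq_mul] at h11
    rcases mul_eq_zero.mp h11 with h12 | h12
    · exact absurd (Nat.cast_eq_zero.mp h12) hl.ne'
    · exact h12
  have h6 : x ∈ LinearMap.ker (killingForm k L) := by
    rw [LinearMap.mem_ker]
    ext y
    exact h5 y
  rw [LieAlgebra.IsKilling.ker_killingForm_eq_bot] at h6
  exact h6

end Pool.Agent.Lib.MP_ca71b5_nt
end
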