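import Mathlib
import Pool.Agent.Lib.MP_ca71b5_nt.Base
import Pool.Agent.Lib.MP_ca71b5_nt.LPM
import Pool.Agent.Lib.MP_ca71b5_nt.E0

section

/-!
# Powers of powerfully embedded subgroups, p odd
-/

set_option autoImplicit false

open scoped commutatorElement

namespace Pool.Agent.Lib.MP_ca71b5_nt

section aux

theorem ga1_PS_le {G : Type*} [Group G] (k : ℕ) (N : Subgroup G) : PS k N ≤ N := by
  unfold PS
  rw [Subgroup.closure_le]
  rintro z ⟨y, hy, rfl⟩
  exact N.pow_mem hy k

theorem ga1_pow_mem_PS {G : Type*} [Group G] (k : ℕ) (N : Subgroup G) {y : G} (hy : y ∈ N) :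
    y ^ k ∈ PS k N :=
  Subgroup.subset_closure ⟨y, hy, rfl⟩

theorem ga1_PS_normal {G : Type*} [Group G] (k : ℕ) (N : Subgroup G) (hN : N.Normal) :
    (PS k N).Normal := by
  have key : Subgroup.normalClosure {z | ∃ y ∈ N, z = y ^ k} = PS k N := by
    apply le_antisymm
    · unfold PS Subgroup.normalClosure
      rw [Subgroup.closure_le]
      intro z hz
      rw [Group.mem_conjugatesOfSet_iff] at hz
      obtain ⟨a, ⟨y, hy, rfl⟩, hconj⟩ := hz
      rw [isConj_iff] at hconj
      obtain ⟨c, rfl⟩ := hconj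
      apply Subgroup.subset_closure
      refine ⟨c * y * c⁻¹, hN.conj_mem y hy c, ?_⟩
      rw [conj_pow]
    · unfold PS
      exact Subgroup.closure_le_normalClosure
  rw [← key]
  exact Subgroup.normalClosure_normal

theorem ga1_mul_pow_central {G : Type*} [Group G] (c x z : G) (h : x * c = z * (c * x))
    (hzc : Commute z c) (hzx : Commute z x) (n : ℕ) :
    (c * x) ^ n = z ^ (n.choose 2) * (c ^ n * x ^ n) := by
  have hxn : ∀ n : ℕ, x ^ n * c = z ^ n * (c * x ^ n) := by
    intro n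
    induction n with
    | zero => simp
    | succ n ih =>
      calc x ^ (n + 1) * c = x * (x ^ n * c) := by rw [pow_succ', mul_assoc]
        _ = x * (z ^ n * (c * x ^ n)) := by rw [ih]
        _ = (x * z ^ n) * (c * x ^ n) := by rw [mul_assoc]
        _ = (z ^ n * x) * (c * x ^ n) := by rw [(hzx.pow_left n).eq]
        _ = z ^ n * ((x * c) * x ^ n) := by simp only [mul_assoc]
        _ = z ^ n * ((z * (c * x)) * x ^ n) := by rw [h]
        _ = (z ^ n * z) * (c * (x * x ^ n)) := by simp only [mul_assoc]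
        _ = z ^ (n + 1) * (c * x ^ (n + 1)) := by rw [← pow_succ, ← pow_succ']
  induction n with
  | zero => simp
  | succ n ih =>
    have hch : (n + 1).choose 2 = n.choose 2 + n := by
      rw [Nat.choose_succ_succ' n 1, Nat.choose_one_right, add_comm]
    calc (c * x) ^ (n + 1) = (c * x) ^ n * (c * x) := pow_succ _ _
      _ = z ^ (n.choose 2) * (c ^ n * x ^ n) * (c * x) := by rw [ih]
      _ = z ^ (n.choose 2) * (c ^ n * ((x ^ n * c) * x)) := by simp only [mul_assoc]
      _ = z ^ (n.choose 2) * (c ^ n * ((z ^ n * (c * x ^ n)) * x)) := by rw [hxn]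
      _ = z ^ (n.choose 2) * ((c ^ n * z ^ n) * (c * (x ^ n * x))) := by simp only [mul_assoc]
      _ = z ^ (n.choose 2) * ((z ^ n * c ^ n) * (c * (x ^ n * x))) := by
          rw [(hzc.pow_pow n n).eq]
      _ = (z ^ (n.choose 2) * z ^ n) * ((c ^ n * c) * (x ^ n * x)) := by simp only [mul_assoc]
      _ = z ^ ((n + 1).choose 2) * (c ^ (n + 1) * x ^ (n + 1)) := by
          rw [← pow_add, ← pow_succ, ← pow_succ, hch]

theorem ga1_eq_bot_of_le_commutator {G : Type*} [Group G] [Group.IsNilpotent G] (C : Subgroup G)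
    (h : C ≤ ⁅C, (⊤ : Subgroup G)⁆) : C = ⊥ := by
  have key : ∀ n : ℕ, C ≤ (⊤ : Subgroup G).lowerCentralSeries n := by
    intro n
    induction n with
    | zero => simp
    | succ n ih =>
      refine h.trans ?_
      rw [Subgroup.lowerCentralSeries_succ]
      exact Subgroup.commutator_mono ih le_rfl
  obtain ⟨n, hn⟩ := Subgroup.nilpotent_iff_lowerCentralSeries.mp
    (inferInstance : Group.IsNilpotent G)
  rw [eq_bot_iff, ← hn]
  exact key n

end aux

variable {p : ℕ} [Fact p.Prime] {P : Type*} [Group P] [Finite P]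

/-- if `N` is powerfully embedded in the finite `p`-group `P`, so is the subgroup generated by the
`p`-th powers; `p` odd -/
theorem PE_PS_odd (hp : p ≠ 2) (hP : IsPGroup p P) (N : Subgroup P) (hN : PE p N) :
    PE p (PS p N) := by
  have hpp : p.Prime := Fact.out
  have heps : p ^ eps p = p := by
    unfold eps
    rw [if_neg hp, pow_one]
  obtain ⟨hNn, hNc⟩ := hN
  rw [heps] at hNc
  have hMn : (PS p N).Normal := ga1_PS_normal p N hNn
  have hKn : (PS p (PS p N)).Normal := ga1_PS_normal p _ hMn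
  refine ⟨hMn, ?_⟩
  rw [heps]
  set M := PS p N with hM
  set K := PS p M with hK
  have hCn : (⁅M, (⊤ : Subgroup P)⁆).Normal := Subgroup.commutator_normal _ _
  set C := ⁅M, (⊤ : Subgroup P)⁆ with hC
  have hDn : (⁅C, (⊤ : Subgroup P)⁆).Normal := Subgroup.commutator_normal _ _
  set D := ⁅C, (⊤ : Subgroup P)⁆ with hD
  have hLn : (K ⊔ D).Normal := Subgroup.sup_normal _ _
  have hCM : C ≤ M := Subgroup.commutator_le_left _ _
  -- step A
  have hA : C ≤ K ⊔ D := by
    have hcen : ∀ x ∈ C, ∀ g : P, Commute ((QuotientGroup.mk' (K ⊔ D)) x)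
        ((QuotientGroup.mk' (K ⊔ D)) g) := by
      intro x hx g
      rw [← commutatorElement_eq_one_iff_commute, ← map_commutatorElement]
      have h1 : ⁅x, g⁆ ∈ K ⊔ D := by
        apply Subgroup.mem_sup_right
        exact Subgroup.commutator_mem_commutator hx (Subgroup.mem_top g)
      exact (QuotientGroup.eq_one_iff _).mpr h1
    have hpow : ∀ x ∈ M, ((QuotientGroup.mk' (K ⊔ D)) x) ^ p = 1 := by
      intro x hx
      rw [← map_pow]
      have h1 : x ^ p ∈ K ⊔ D := Subgroup.mem_sup_left (ga1_pow_mem_PS p M hx)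
      exact (QuotientGroup.eq_one_iff _).mpr h1
    have hgen : ∀ x ∈ N, ∀ g : P, Commute ((QuotientGroup.mk' (K ⊔ D)) g)
        ((QuotientGroup.mk' (K ⊔ D)) (x ^ p)) := by
      intro x hx g
      set φ := QuotientGroup.mk' (K ⊔ D) with hφ
      have hc : g * x * g⁻¹ * x⁻¹ ∈ M := by
        have := M.inv_mem (hNc x hx g)
        have e : (x * g * x⁻¹ * g⁻¹)⁻¹ = g * x * g⁻¹ * x⁻¹ := by group
        rwa [e] at this
      set c := g * x * g⁻¹ * x⁻¹ with hcdef
      have hz : x * c * x⁻¹ * c⁻¹ ∈ C := by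
        have h1 : ⁅c, x⁆ ∈ C := Subgroup.commutator_mem_commutator hc (Subgroup.mem_top x)
        have h2 := C.inv_mem h1
        rw [commutatorElement_def] at h2
        have e : (c * x * c⁻¹ * x⁻¹)⁻¹ = x * c * x⁻¹ * c⁻¹ := by group
        rwa [e] at h2
      set z := x * c * x⁻¹ * c⁻¹ with hzdef
      have hrel : φ x * φ c = φ z * (φ c * φ x) := by
        rw [← map_mul, ← map_mul, ← map_mul]
        congr 1
        rw [hzdef]
        group
      have hmain := ga1_mul_pow_central (φ c) (φ x) (φ z) hrel (hcen z hz c) (hcen z hz x) p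
      have hzp : (φ z) ^ (p.choose 2) = 1 := by
        obtain ⟨k, hk⟩ : p ∣ p.choose 2 := by
          apply hpp.dvd_choose_self (by norm_num)
          exact lt_of_le_of_ne hpp.two_le (Ne.symm hp)
        rw [hk, pow_mul, hpow z (hCM hz), one_pow]
      rw [hzp, hpow c hc, one_mul, one_mul] at hmain
      have hcx : φ c * φ x = φ g * φ x * (φ g)⁻¹ := by
        rw [← map_mul, ← map_inv, ← map_mul, ← map_mul]
        congr 1
        rw [hcdef]
        group
      rw [hcx, conj_pow] at hmain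
      rw [map_pow]
      change φ g * φ x ^ p = φ x ^ p * φ g
      exact (mul_inv_eq_iff_eq_mul.mp hmain)
    have hMle : M ≤ (Subgroup.center (P ⧸ (K ⊔ D))).comap (QuotientGroup.mk' (K ⊔ D)) := by
      rw [hM]
      unfold PS
      rw [Subgroup.closure_le]
      rintro y ⟨x, hx, rfl⟩
      simp only [SetLike.mem_coe, Subgroup.mem_comap, Subgroup.mem_center_iff]
      intro h
      obtain ⟨g, rfl⟩ := QuotientGroup.mk'_surjective (K ⊔ D) h
      exact (hgen x hx g).eq
    rw [hC, Subgroup.commutator_le]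
    intro m hm g _
    have h1 := hMle hm
    simp only [Subgroup.mem_comap, Subgroup.mem_center_iff] at h1
    have h2 : Commute ((QuotientGroup.mk' (K ⊔ D)) m) ((QuotientGroup.mk' (K ⊔ D)) g) :=
      (h1 ((QuotientGroup.mk' (K ⊔ D)) g)).symm
    rw [← commutatorElement_eq_one_iff_commute, ← map_commutatorElement] at h2
    exact (QuotientGroup.eq_one_iff _).mp h2
  -- step B
  have hB : C ≤ K := by
    have hnil : Group.IsNilpotent (P ⧸ K) := (hP.to_quotient K).isNilpotent
    have h1 : C.map (QuotientGroup.mk' K) ≤ ⁅C.map (QuotientGroup.mk' K), (⊤ : Subgroup (P ⧸ K))⁆ := by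
      have h2 : C.map (QuotientGroup.mk' K) ≤ (K ⊔ D).map (QuotientGroup.mk' K) :=
        Subgroup.map_mono hA
      refine h2.trans ?_
      rw [Subgroup.map_sup, hD, Subgroup.map_commutator,
        Subgroup.map_top_of_surjective _ (QuotientGroup.mk'_surjective K)]
      apply sup_le _ le_rfl
      have h3 : K.map (QuotientGroup.mk' K) = ⊥ := by
        rw [Subgroup.map_eq_bot_iff, QuotientGroup.ker_mk']
      rw [h3]
      exact bot_le
    have h4 := ga1_eq_bot_of_le_commutator _ h1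
    rwa [Subgroup.map_eq_bot_iff, QuotientGroup.ker_mk'] at h4
  intro x hx g
  apply hB
  have := Subgroup.commutator_mem_commutator hx (Subgroup.mem_top g) (H₂ := (⊤ : Subgroup P))
  rwa [commutatorElement_def] at this

end Pool.Agent.Lib.MP_ca71b5_nt
end

section

section

/-!
# Powers of powerfully embedded subgroups, p even
-/

set_option autoImplicit false

open scoped commutatorElement

namespace Pool.Agent.Lib.MP_ca71b5_nt

section general

variable {G Q : Type*} [Group G] [Group Q]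

private theorem ga2_mem {k : ℕ} {N : Subgroup G} {y : G} (hy : y ∈ N) : y ^ k ∈ PS k N :=
  Subgroup.subset_closure ⟨y, hy, rfl⟩

private theorem ga2_normal (k : ℕ) {N : Subgroup G} (hN : N.Normal) : (PS k N).Normal := by
  refine ⟨fun n hn g => ?_⟩
  have h : PS k N ≤ (PS k N).comap (MulAut.conj g).toMonoidHom := by
    refine (Subgroup.closure_le _).2 ?_
    rintro z ⟨y, hy, rfl⟩
    show g * y ^ k * g⁻¹ ∈ PS k N
    rw [← conj_pow]
    exact ga2_mem (hN.conj_mem y hy g)
  exact h hn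

private theorem ga2_map (f : G →* Q) (k : ℕ) (N : Subgroup G) :
    (PS k N).map f = PS k (N.map f) := by
  unfold PS
  rw [MonoidHom.map_closure]
  congr 1
  ext z
  constructor
  · rintro ⟨_, ⟨y, hy, rfl⟩, rfl⟩
    exact ⟨f y, ⟨y, hy, rfl⟩, map_pow f y k⟩
  · rintro ⟨_, ⟨y, hy, rfl⟩, rfl⟩
    exact ⟨y ^ k, ⟨y, hy, rfl⟩, map_pow f y k⟩

private theorem ga2_four_le (N : Subgroup G) : PS 4 N ≤ PS 2 N := by
  refine (Subgroup.closure_le _).2 ?_
  rintro z ⟨y, hy, rfl⟩
  have h : y ^ 4 = (y ^ 2) ^ 2 := by rw [← pow_mul]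
  rw [SetLike.mem_coe, h]
  exact Subgroup.pow_mem _ (ga2_mem hy) 2

/-- reduction to the central case, in nilpotent groups -/
private theorem ga2_nilp [Group.IsNilpotent G] {K M : Subgroup G} (hK : K.Normal)
    (h : ⁅M, (⊤ : Subgroup G)⁆ ≤ K ⊔ ⁅⁅M, (⊤ : Subgroup G)⁆, (⊤ : Subgroup G)⁆) :
    ⁅M, (⊤ : Subgroup G)⁆ ≤ K := by
  have key : ∀ i : ℕ, ⁅M, (⊤ : Subgroup G)⁆ ≤ K ⊔ (⊤ : Subgroup G).lowerCentralSeries i := by
    intro i
    induction i with
    | zero =>
      rw [Subgroup.lowerCentralSeries_zero]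
      exact le_top.trans le_sup_right
    | succ i ih =>
      refine h.trans (sup_le le_sup_left ?_)
      rw [Subgroup.commutator_le]
      intro x hx g _
      obtain ⟨y, hy, z, hz, rfl⟩ := Subgroup.mem_sup_of_normal_left.1 (ih hx)
      have e : ⁅y * z, g⁆ = (y * ⁅z, g⁆ * y⁻¹) * ⁅y, g⁆ := by
        simp only [commutatorElement_def]
        group
      rw [e]
      refine Subgroup.mul_mem _ ?_ ?_
      · refine (Subgroup.mem_sup_right ?_ : _ ∈ K ⊔ (⊤ : Subgroup G).lowerCentralSeries (i + 1))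
        refine (inferInstance : ((⊤ : Subgroup G).lowerCentralSeries (i + 1)).Normal).conj_mem _ ?_ y
        exact Subgroup.commutator_mem_commutator hz (Subgroup.mem_top g)
      · refine Subgroup.mem_sup_left ?_
        have h1 : g * y⁻¹ * g⁻¹ ∈ K := hK.conj_mem _ (K.inv_mem hy) g
        have h2 := K.mul_mem hy h1
        rw [commutatorElement_def]
        rwa [mul_assoc, mul_assoc, ← mul_assoc g] 
  obtain ⟨n, hn⟩ := Subgroup.nilpotent_iff_lowerCentralSeries.1 (inferInstance : Group.IsNilpotent G)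
  have h1 := key n
  rwa [hn, sup_bot_eq] at h1

/-- the central case -/
private theorem ga2_central (N : Subgroup G) (hN : ∀ x ∈ N, ∀ g : G, ⁅x, g⁆ ∈ PS 4 N)
    (h1 : ∀ m ∈ PS 2 N, m ^ 4 = 1) (h2 : ∀ m ∈ PS 2 N, ∀ g h : G, ⁅m, g⁆ * h = h * ⁅m, g⁆) :
    ∀ m ∈ PS 2 N, ∀ g : G, ⁅m, g⁆ = 1 := by
  set M := PS 2 N with hM
  have hlin : ∀ m ∈ M, ∀ m' ∈ M, ∀ g : G, ⁅m * m', g⁆ = ⁅m', g⁆ * ⁅m, g⁆ := by
    intro m hm m' hm' g
    have e : ⁅m * m', g⁆ = (m * ⁅m', g⁆ * m⁻¹) * ⁅m, g⁆ := by
      simp only [commutatorElement_def]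
      group
    rw [e, ← h2 m' hm' g m, mul_inv_cancel_right]
  have hinv : ∀ m ∈ M, ∀ g : G, ⁅m⁻¹, g⁆ = ⁅m, g⁆⁻¹ := by
    intro m hm g
    have h3 := hlin m hm m⁻¹ (M.inv_mem hm) g
    rw [mul_inv_cancel, commutatorElement_one_left] at h3
    exact eq_inv_of_mul_eq_one_left h3.symm
  -- the subgroup of central elements generated by the commutators
  set C : Subgroup G := Subgroup.closure {z | ∃ m ∈ M, ∃ g : G, z = ⁅m, g⁆} with hC
  have hCc : ∀ c ∈ C, ∀ h : G, c * h = h * c := by
    intro c hc h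
    have h3 : C ≤ Subgroup.center G := by
      refine (Subgroup.closure_le _).2 ?_
      rintro z ⟨m, hm, g, rfl⟩
      exact Subgroup.mem_center_iff.2 fun h => (h2 m hm g h).symm
    exact (Subgroup.mem_center_iff.1 (h3 hc) h).symm
  have hCm : ∀ m ∈ M, ∀ g : G, ⁅m, g⁆ ∈ C := fun m hm g =>
    Subgroup.subset_closure ⟨m, hm, g, rfl⟩
  let C2 : Subgroup G :=
    { carrier := {z | ∃ c ∈ C, z = c ^ 2}
      mul_mem' := by
        rintro _ _ ⟨c, hc, rfl⟩ ⟨d, hd, rfl⟩
        refine ⟨c * d, C.mul_mem hc hd, ?_⟩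
        exact (Commute.mul_pow (hCc c hc d) 2).symm
      one_mem' := ⟨1, C.one_mem, (one_pow 2).symm⟩
      inv_mem' := by
        rintro _ ⟨c, hc, rfl⟩
        exact ⟨c⁻¹, C.inv_mem hc, (inv_pow c 2).symm⟩ }
  have hP4 : PS 4 N ≤ M := ga2_four_le N
  -- (1)
  have s1 : ∀ n ∈ PS 4 N, ∀ g : G, ⁅n, g⁆ ∈ C2 := by
    intro n hn g
    have h3 : n ∈ M ∧ ⁅n, g⁆ ∈ C2 := by
      refine Subgroup.closure_induction (p := fun n _ => n ∈ M ∧ ⁅n, g⁆ ∈ C2) ?_ ?_ ?_ ?_ hn
      · rintro _ ⟨a, ha, rfl⟩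
        have h4 : a ^ 2 ∈ M := ga2_mem ha
        have e : a ^ 4 = a ^ 2 * a ^ 2 := by rw [← pow_add]
        rw [e]
        refine ⟨M.mul_mem h4 h4, ?_⟩
        rw [hlin _ h4 _ h4]
        exact ⟨⁅a ^ 2, g⁆, hCm _ h4 g, (sq _).symm⟩
      · refine ⟨M.one_mem, ?_⟩
        rw [commutatorElement_one_left]
        exact C2.one_mem
      · rintro x y _ _ ⟨hx, hx'⟩ ⟨hy, hy'⟩
        refine ⟨M.mul_mem hx hy, ?_⟩
        rw [hlin x hx y hy]
        exact C2.mul_mem hy' hx'
      · rintro x _ ⟨hx, hx'⟩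
        refine ⟨M.inv_mem hx, ?_⟩
        rw [hinv x hx]
        exact C2.inv_mem hx'
    exact h3.2
  -- (2)
  have s2 : ∀ n ∈ PS 4 N, n ^ 2 ∈ C2 := by
    intro n hn
    refine Subgroup.closure_induction (p := fun n _ => n ^ 2 ∈ C2) ?_ ?_ ?_ ?_ hn
    · rintro _ ⟨a, ha, rfl⟩
      have h4 : a ^ 2 ∈ M := ga2_mem ha
      have e : (a ^ 4) ^ 2 = (a ^ 2) ^ 4 := by rw [← pow_mul, ← pow_mul]
      rw [e, h1 _ h4]
      exact C2.one_mem
    · rw [one_pow]
      exact C2.one_mem
    · intro x y hx hy hx' hy'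
      have e : (x * y) ^ 2 = x ^ 2 * ⁅x⁻¹, y⁆ * y ^ 2 := by
        simp only [commutatorElement_def, sq]
        group
      rw [e]
      exact C2.mul_mem (C2.mul_mem hx' (s1 _ ((PS 4 N).inv_mem hx) y)) hy'
    · intro x _ hx'
      rw [inv_pow]
      exact C2.inv_mem hx'
  -- (3)
  have s3 : ∀ x ∈ N, ∀ g : G, ⁅x ^ 2, g⁆ ∈ C2 := by
    intro x hx g
    have hc : ⁅g, x⁆ ∈ PS 4 N := by
      rw [← commutatorElement_inv]
      exact (PS 4 N).inv_mem (hN x hx g)
    have e : ⁅g, x ^ 2⁆ = ⁅g, x⁆ ^ 2 * ⁅⁅g, x⁆⁻¹, x⁆ := by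
      simp only [commutatorElement_def, sq]
      group
    have h3 : ⁅g, x ^ 2⁆ ∈ C2 := by
      rw [e]
      exact C2.mul_mem (s2 _ hc) (s1 _ ((PS 4 N).inv_mem hc) x)
    rw [← commutatorElement_inv]
    exact C2.inv_mem h3
  -- (4)
  have s4 : ∀ m ∈ M, ∀ g : G, ⁅m, g⁆ ∈ C2 := by
    intro n hn g
    have h3 : n ∈ M ∧ ⁅n, g⁆ ∈ C2 := by
      refine Subgroup.closure_induction (p := fun n _ => n ∈ M ∧ ⁅n, g⁆ ∈ C2) ?_ ?_ ?_ ?_ hn
      · rintro _ ⟨a, ha, rfl⟩
        exact ⟨ga2_mem ha, s3 a ha g⟩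
      · refine ⟨M.one_mem, ?_⟩
        rw [commutatorElement_one_left]
        exact C2.one_mem
      · rintro x y _ _ ⟨hx, hx'⟩ ⟨hy, hy'⟩
        refine ⟨M.mul_mem hx hy, ?_⟩
        rw [hlin x hx y hy]
        exact C2.mul_mem hy' hx'
      · rintro x _ ⟨hx, hx'⟩
        refine ⟨M.inv_mem hx, ?_⟩
        rw [hinv x hx]
        exact C2.inv_mem hx'
    exact h3.2
  -- all elements of `C` are squares in `C`, and fourth powers are trivial
  have hCC : C ≤ C2 := by
    refine (Subgroup.closure_le _).2 ?_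
    rintro z ⟨m, hm, g, rfl⟩
    exact s4 m hm g
  have hpow : ∀ m ∈ M, ∀ g : G, ∀ k : ℕ, ⁅m ^ k, g⁆ = ⁅m, g⁆ ^ k := by
    intro m hm g k
    induction k with
    | zero => rw [pow_zero, pow_zero, commutatorElement_one_left]
    | succ k ih => rw [pow_succ, hlin _ (M.pow_mem hm k) _ hm, ih, pow_succ']
  have h4 : ∀ c ∈ C, c ^ 4 = 1 := by
    intro c hc
    have h5 : c ∈ C ∧ c ^ 4 = 1 := by
      refine Subgroup.closure_induction (p := fun c _ => c ∈ C ∧ c ^ 4 = 1) ?_ ?_ ?_ ?_ hc
      · rintro _ ⟨m, hm, g, rfl⟩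
        refine ⟨hCm m hm g, ?_⟩
        rw [← hpow m hm, h1 m hm, commutatorElement_one_left]
      · exact ⟨C.one_mem, one_pow 4⟩
      · rintro x y _ _ ⟨hx, hx'⟩ ⟨hy, hy'⟩
        refine ⟨C.mul_mem hx hy, ?_⟩
        rw [Commute.mul_pow (hCc x hx y), hx', hy', one_mul]
      · rintro x _ ⟨hx, hx'⟩
        exact ⟨C.inv_mem hx, by rw [inv_pow, hx', inv_one]⟩
    exact h5.2
  intro m hm g
  obtain ⟨d, hd, h5⟩ := hCC (hCm m hm g)
  obtain ⟨e, he, h6⟩ := hCC hd
  rw [h5, h6, ← pow_mul]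
  exact h4 e he

end general

variable {P : Type*} [Group P] [Finite P]


/-- if `N` is powerfully embedded in the finite `2`-group `P`, so is the subgroup generated by the
squares -/
theorem PE_PS_two (hP : IsPGroup 2 P) (N : Subgroup P) (hN : PE 2 N) : PE 2 (PS 2 N) := by
  have h22 : 2 ^ eps 2 = 4 := by rw [eps, if_pos rfl]; norm_num
  obtain ⟨hNn, hNc⟩ := hN
  rw [h22] at hNc
  have hMn : (PS 2 N).Normal := ga2_normal 2 hNn
  refine ⟨hMn, ?_⟩
  rw [h22]
  have : Group.IsNilpotent P := hP.isNilpotent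
  have hKn : (PS 4 (PS 2 N)).Normal := ga2_normal 4 hMn
  set K := PS 4 (PS 2 N) with hK
  set M := PS 2 N with hM
  set D : Subgroup P := ⁅⁅M, (⊤ : Subgroup P)⁆, (⊤ : Subgroup P)⁆ with hD
  have hDn : D.Normal := inferInstance
  have hRn : (K ⊔ D).Normal := inferInstance
  set π : P →* P ⧸ (K ⊔ D) := QuotientGroup.mk' (K ⊔ D) with hπ
  have hπs : Function.Surjective π := QuotientGroup.mk'_surjective _
  have hπ1 : ∀ x : P, π x = 1 ↔ x ∈ K ⊔ D := fun x => QuotientGroup.eq_one_iff x
  have hcent := ga2_central (N.map π) (by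
    rintro _ ⟨x, hx, rfl⟩ g
    obtain ⟨g, rfl⟩ := hπs g
    rw [← map_commutatorElement, ← ga2_map]
    exact ⟨_, hNc x hx g, rfl⟩) (by
    intro m hm
    rw [← ga2_map] at hm
    obtain ⟨m, hm, rfl⟩ := hm
    rw [← map_pow, hπ1]
    exact Subgroup.mem_sup_left (ga2_mem hm)) (by
    intro m hm g h
    rw [← ga2_map] at hm
    obtain ⟨m, hm, rfl⟩ := hm
    obtain ⟨g, rfl⟩ := hπs g
    obtain ⟨h, rfl⟩ := hπs h
    rw [← map_commutatorElement]
    have h3 : π ⁅⁅m, g⁆, h⁆ = 1 := by
      rw [hπ1]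
      exact Subgroup.mem_sup_right (Subgroup.commutator_mem_commutator
        (Subgroup.commutator_mem_commutator hm (Subgroup.mem_top g)) (Subgroup.mem_top h))
    rw [map_commutatorElement] at h3
    exact commutatorElement_eq_one_iff_mul_comm.1 h3)
  have hle : ⁅M, (⊤ : Subgroup P)⁆ ≤ K ⊔ D := by
    rw [Subgroup.commutator_le]
    intro m hm g _
    rw [← hπ1, map_commutatorElement]
    refine hcent _ ?_ _
    rw [← ga2_map]
    exact ⟨m, hm, rfl⟩
  have hfin := ga2_nilp hKn hle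
  intro x hx g
  exact hfin (Subgroup.commutator_mem_commutator hx (Subgroup.mem_top g))

end Pool.Agent.Lib.MP_ca71b5_nt
end

section

/-!
# The p-th power map on a powerfully embedded subgroup
-/

set_option autoImplicit false

namespace Pool.Agent.Lib.MP_ca71b5_nt

variable {p : ℕ} [Fact p.Prime] {P : Type*} [Group P] [Finite P]


theorem PE_PS (hP : IsPGroup p P) (N : Subgroup P) (hN : PE p N) : PE p (PS p N) := by
  by_cases hp : p = 2
  · subst hp
    exact PE_PS_two hP N hN
  · exact PE_PS_odd hp hP N hN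

theorem GB_PS_normal {Q : Type*} [Group Q] (k : ℕ) (M : Subgroup Q) (hM : M.Normal) :
    (PS k M).Normal := by
  unfold PS
  constructor
  intro n hn g
  induction hn using Subgroup.closure_induction with
  | mem z hz =>
    obtain ⟨y, hy, rfl⟩ := hz
    refine Subgroup.subset_closure ⟨g * y * g⁻¹, hM.conj_mem y hy g, ?_⟩
    exact (conj_pow).symm
  | one => simp
  | mul a b _ _ ha hb =>
    have h := Subgroup.mul_mem _ ha hb
    have e : g * a * g⁻¹ * (g * b * g⁻¹) = g * (a * b) * g⁻¹ := by group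
    rwa [e] at h
  | inv a _ ha =>
    have h := Subgroup.inv_mem _ ha
    have e : (g * a * g⁻¹)⁻¹ = g * a⁻¹ * g⁻¹ := by group
    rwa [e] at h

theorem GB_pow_identity {Q : Type*} [Group Q] (a b d : Q) (h : b * a = a * b * d)
    (hda : d * a = a * d) (hdb : d * b = b * d) (n : ℕ) :
    (a * b) ^ n = a ^ n * b ^ n * d ^ (n.choose 2) := by
  have h1 : ∀ n : ℕ, b ^ n * a = a * b ^ n * d ^ n := by
    intro n
    induction n with
    | zero => simp
    | succ n ih =>
      have hc : Commute d b := hdb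
      calc b ^ (n + 1) * a = b ^ n * (b * a) := by rw [pow_succ, mul_assoc]
        _ = b ^ n * a * (b * d) := by rw [h]; group
        _ = a * b ^ n * (d ^ n * b) * d := by rw [ih]; group
        _ = a * b ^ n * (b * d ^ n) * d := by rw [(hc.pow_left n).eq]
        _ = a * b ^ (n + 1) * d ^ (n + 1) := by rw [pow_succ b, pow_succ d]; group
  induction n with
  | zero => simp
  | succ n ih =>
    have hca : Commute d a := hda
    have hcb : Commute d b := hdb
    have hcab : Commute d (a * b) := hca.mul_right hcb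
    have e : (n + 1).choose 2 = n + n.choose 2 := by
      rw [Nat.choose_succ_succ' n 1, Nat.choose_one_right]
    have hb' : d ^ n * b = b * d ^ n := (hcb.pow_left n).eq
    calc (a * b) ^ (n + 1) = (a * b) ^ n * (a * b) := pow_succ _ _
      _ = a ^ n * b ^ n * (d ^ (n.choose 2) * (a * b)) := by rw [ih]; group
      _ = a ^ n * b ^ n * ((a * b) * d ^ (n.choose 2)) := by rw [(hcab.pow_left _).eq]
      _ = a ^ n * (b ^ n * a) * b * d ^ (n.choose 2) := by group
      _ = a ^ n * (a * b ^ n) * (d ^ n * b) * d ^ (n.choose 2) := by rw [h1 n]; group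
      _ = a ^ n * (a * b ^ n) * (b * d ^ n) * d ^ (n.choose 2) := by rw [hb']
      _ = a ^ (n + 1) * b ^ (n + 1) * (d ^ n * d ^ (n.choose 2)) := by
        rw [pow_succ a, pow_succ b]; group
      _ = a ^ (n + 1) * b ^ (n + 1) * d ^ ((n + 1).choose 2) := by rw [e, pow_add d]

theorem mul_pow_mod (hP : IsPGroup p P) (N : Subgroup P) (hN : PE p N) (x y : P) (hx : x ∈ N)
    (hy : y ∈ N) : ∃ z ∈ PS p (PS p N), (x * y) ^ p = x ^ p * y ^ p * z := by
  have hM : PE p (PS p N) := PE_PS hP N hN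
  have hpp : p.Prime := Fact.out
  have hK : (PS p (PS p N)).Normal := GB_PS_normal p _ hM.1
  have hin : ∀ g ∈ N, g ^ p ∈ PS p N := fun g hg => Subgroup.subset_closure ⟨g, hg, rfl⟩
  have hin2 : ∀ g ∈ PS p N, g ^ p ∈ PS p (PS p N) := fun g hg =>
    Subgroup.subset_closure ⟨g, hg, rfl⟩
  set K := PS p (PS p N) with hKdef
  -- the commutator
  have hcomm : y⁻¹ * x⁻¹ * y * x ∈ PS (p ^ eps p) N := by
    have h := hN.2 y⁻¹ (N.inv_mem hy) x⁻¹
    simpa using h
  have key : (QuotientGroup.mk ((x * y) ^ p) : P ⧸ K) = QuotientGroup.mk (x ^ p * y ^ p) := by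
    have hrel : (QuotientGroup.mk y : P ⧸ K) * QuotientGroup.mk x
        = QuotientGroup.mk x * QuotientGroup.mk y * QuotientGroup.mk (y⁻¹ * x⁻¹ * y * x) := by
      rw [← QuotientGroup.mk_mul, ← QuotientGroup.mk_mul, ← QuotientGroup.mk_mul]
      congr 1
      group
    by_cases hp : p = 2
    · -- the commutator is trivial
      have hd : y⁻¹ * x⁻¹ * y * x ∈ K := by
        have hle : PS (p ^ eps p) N ≤ K := by
          unfold PS
          rw [Subgroup.closure_le]
          rintro z ⟨g, hg, rfl⟩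
          have e : eps p = 2 := by simp [eps, hp]
          rw [e, pow_two, pow_mul]
          exact hin2 _ (hin g hg)
        exact hle hcomm
      have hd1 : (QuotientGroup.mk (y⁻¹ * x⁻¹ * y * x) : P ⧸ K) = 1 :=
        (QuotientGroup.eq_one_iff _).2 hd
      rw [hd1, mul_one] at hrel
      have hc : Commute (QuotientGroup.mk x : P ⧸ K) (QuotientGroup.mk y) := hrel.symm
      rw [QuotientGroup.mk_mul, QuotientGroup.mk_pow, QuotientGroup.mk_mul, hc.mul_pow,
        QuotientGroup.mk_pow, QuotientGroup.mk_pow]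
    · have e : eps p = 1 := by simp [eps, hp]
      rw [e, pow_one] at hcomm
      have hcen : ∀ g : P, (QuotientGroup.mk (y⁻¹ * x⁻¹ * y * x) : P ⧸ K) * QuotientGroup.mk g
          = QuotientGroup.mk g * QuotientGroup.mk (y⁻¹ * x⁻¹ * y * x) := by
        intro g
        have h := hM.2 _ hcomm g
        rw [e, pow_one] at h
        have h1 := (QuotientGroup.eq_one_iff (N := K) _).2 h
        rw [QuotientGroup.mk_mul, QuotientGroup.mk_mul, QuotientGroup.mk_mul,
          QuotientGroup.mk_inv, QuotientGroup.mk_inv, mul_inv_eq_one, mul_inv_eq_iff_eq_mul] at h1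
        exact h1
      have hdp : (QuotientGroup.mk (y⁻¹ * x⁻¹ * y * x) : P ⧸ K) ^ p = 1 := by
        rw [← QuotientGroup.mk_pow]
        exact (QuotientGroup.eq_one_iff _).2 (hin2 _ hcomm)
      have hdc : (QuotientGroup.mk (y⁻¹ * x⁻¹ * y * x) : P ⧸ K) ^ (p.choose 2) = 1 := by
        have h2p : 2 < p := lt_of_le_of_ne hpp.two_le (Ne.symm hp)
        obtain ⟨m, hm⟩ := hpp.dvd_choose_self (by norm_num : (2 : ℕ) ≠ 0) h2p
        rw [hm, pow_mul, hdp, one_pow]
      have h3 := GB_pow_identity (QuotientGroup.mk x : P ⧸ K) (QuotientGroup.mk y)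
        (QuotientGroup.mk (y⁻¹ * x⁻¹ * y * x)) hrel (hcen x) (hcen y) p
      rw [hdc, mul_one] at h3
      rw [QuotientGroup.mk_pow, QuotientGroup.mk_mul, QuotientGroup.mk_mul, h3,
        QuotientGroup.mk_pow, QuotientGroup.mk_pow]
  refine ⟨(x ^ p * y ^ p)⁻¹ * (x * y) ^ p, ?_, by group⟩
  exact QuotientGroup.eq.1 key.symm

end Pool.Agent.Lib.MP_ca71b5_nt
end

section

/-!
# In a powerful p-group the products of p-th powers are p-th powers
-/

set_option autoImplicit false

namespace Pool.Agent.Lib.MP_ca71b5_nt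

universe u

private theorem gc_PS_mono {P : Type u} [Group P] (k : ℕ) {N M : Subgroup P} (h : N ≤ M) :
    PS k N ≤ PS k M := by
  unfold PS
  apply Subgroup.closure_mono
  rintro z ⟨y, hy, rfl⟩
  exact ⟨y, h hy, rfl⟩

private theorem gc_PS_normal {P : Type u} [Group P] (k : ℕ) {N : Subgroup P} (h : N.Normal) :
    (PS k N).Normal := by
  refine ⟨fun n hn g => ?_⟩
  unfold PS at *
  refine Subgroup.closure_induction (p := fun n _ => g * n * g⁻¹ ∈ _) ?_ ?_ ?_ ?_ hn
  · rintro z ⟨y, hy, rfl⟩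
    apply Subgroup.subset_closure
    refine ⟨g * y * g⁻¹, h.conj_mem y hy g, ?_⟩
    rw [conj_pow]
  · simp
  · intro a b _ _ ha hb
    have := mul_mem ha hb
    have e : g * a * g⁻¹ * (g * b * g⁻¹) = g * (a * b) * g⁻¹ := by group
    rwa [e] at this
  · intro a _ ha
    have := inv_mem ha
    have e : (g * a * g⁻¹)⁻¹ = g * a⁻¹ * g⁻¹ := by group
    rwa [e] at this

/-- elements of `PS k` of a subgroup, seen in the subgroup -/
private theorem gc_PS_sub {P : Type u} [Group P] (k : ℕ) (H : Subgroup P) (z : P)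
    (hz : z ∈ PS k H) : ∃ z' : H, z' ∈ PS k (⊤ : Subgroup H) ∧ (z' : P) = z := by
  unfold PS at hz
  refine Subgroup.closure_induction (p := fun z _ => ∃ z' : H, z' ∈ PS k (⊤ : Subgroup H) ∧
    (z' : P) = z) ?_ ?_ ?_ ?_ hz
  · rintro z ⟨y, hy, rfl⟩
    refine ⟨⟨y, hy⟩ ^ k, ?_, rfl⟩
    exact Subgroup.subset_closure ⟨⟨y, hy⟩, Subgroup.mem_top _, rfl⟩
  · exact ⟨1, one_mem _, rfl⟩
  · rintro a b _ _ ⟨a', ha, rfl⟩ ⟨b', hb, rfl⟩
    exact ⟨a' * b', mul_mem ha hb, rfl⟩
  · rintro a _ ⟨a', ha, rfl⟩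
    exact ⟨a'⁻¹, inv_mem ha, rfl⟩

/-- maximal subgroups of finite `p`-groups contain all `p`-th powers -/
private theorem gc_coatom {p : ℕ} [Fact p.Prime] {P : Type u} [Group P] [Finite P]
    (hP : IsPGroup p P) (M : Subgroup P) (hM : IsCoatom M) (y : P) : y ^ p ∈ M := by
  have hnil : Group.IsNilpotent P := hP.isNilpotent
  have hMn : M.Normal :=
    Subgroup.NormalizerCondition.normal_of_coatom M Group.normalizerCondition_of_isNilpotent hM
  have key : ∀ z : P ⧸ M, z ≠ 1 → Subgroup.zpowers z = ⊤ := by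
    intro z hz
    have h1 : M < (Subgroup.zpowers z).comap (QuotientGroup.mk' M) := by
      obtain ⟨w, rfl⟩ := QuotientGroup.mk_surjective z
      refine lt_of_le_of_ne ?_ ?_
      · intro m hm
        rw [Subgroup.mem_comap]
        have : (QuotientGroup.mk' M) m = 1 := (QuotientGroup.eq_one_iff m).mpr hm
        rw [this]
        exact one_mem _
      · intro h
        apply hz
        rw [QuotientGroup.eq_one_iff, h, Subgroup.mem_comap]
        exact Subgroup.mem_zpowers _
    have h2 := hM.2 _ h1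
    rw [eq_top_iff]
    rintro w -
    obtain ⟨v, rfl⟩ := QuotientGroup.mk_surjective w
    have : v ∈ (Subgroup.zpowers z).comap (QuotientGroup.mk' M) := by rw [h2]; trivial
    exact this
  have hQ : IsPGroup p (P ⧸ M) := hP.to_quotient M
  by_contra hy
  have h1 : ((y : P) : P ⧸ M) ^ p ≠ 1 := by
    rw [← QuotientGroup.mk_pow]
    intro h
    exact hy ((QuotientGroup.eq_one_iff _).mp h)
  have h2 : ((y : P) : P ⧸ M) ≠ 1 := by
    intro h
    apply h1
    rw [h, one_pow]
  have h3 := key _ h1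
  have h4 := key _ h2
  have h5 : orderOf (((y : P) : P ⧸ M) ^ p) = orderOf ((y : P) : P ⧸ M) := by
    rw [← Nat.card_zpowers, ← Nat.card_zpowers, h3, h4]
  have h6 : p ∣ orderOf ((y : P) : P ⧸ M) := by
    obtain ⟨k, hk⟩ := (IsPGroup.iff_orderOf.mp hQ) ((y : P) : P ⧸ M)
    rw [hk]
    rcases Nat.eq_zero_or_pos k with h | h
    · exfalso
      rw [h, pow_zero, orderOf_eq_one_iff] at hk
      exact h2 hk
    · exact dvd_pow_self p h.ne'
  have h7 : 0 < orderOf ((y : P) : P ⧸ M) := orderOf_pos _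
  rw [orderOf_pow_of_dvd (Fact.out (p := p.Prime)).ne_zero h6] at h5
  have h8 := Nat.div_lt_self h7 (Fact.out (p := p.Prime)).one_lt
  omega

private theorem gc_cyclic {p : ℕ} {P : Type u} [Group P] (x : P) (h : Subgroup.zpowers x = ⊤)
    (g : P) (hg : g ∈ PS p (⊤ : Subgroup P)) : ∃ y : P, g = y ^ p := by
  have hcomm : ∀ a b : P, Commute a b := by
    intro a b
    have ha : a ∈ Subgroup.zpowers x := by rw [h]; trivial
    have hb : b ∈ Subgroup.zpowers x := by rw [h]; trivial
    obtain ⟨m, rfl⟩ := Subgroup.mem_zpowers_iff.mp ha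
    obtain ⟨n, rfl⟩ := Subgroup.mem_zpowers_iff.mp hb
    exact (Commute.refl x).zpow_zpow m n
  unfold PS at hg
  refine Subgroup.closure_induction (p := fun g _ => ∃ y : P, g = y ^ p) ?_ ?_ ?_ ?_ hg
  · rintro z ⟨y, -, rfl⟩
    exact ⟨y, rfl⟩
  · exact ⟨1, (one_pow p).symm⟩
  · rintro a b _ _ ⟨a', rfl⟩ ⟨b', rfl⟩
    exact ⟨a' * b', ((hcomm a' b').mul_pow p).symm⟩
  · rintro a _ ⟨a', rfl⟩
    exact ⟨a'⁻¹, (inv_pow a' p).symm⟩

/-- commutators of elements of the subgroup generated by `T` and `x` -/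
private theorem gc_comm {P : Type u} [Group P] (T N : Subgroup P) (hN : N.Normal) (x : P)
    (hT : ∀ a ∈ T, ∀ b : P, a * b * a⁻¹ * b⁻¹ ∈ N) (a b : P)
    (ha : a ∈ T ⊔ Subgroup.zpowers x) (hb : b ∈ T ⊔ Subgroup.zpowers x) :
    a * b * a⁻¹ * b⁻¹ ∈ N := by
  have e : ∀ a b : P, a * b * a⁻¹ * b⁻¹ ∈ N ↔ Commute (a : P ⧸ N) (b : P ⧸ N) := by
    intro a b
    rw [← QuotientGroup.eq_one_iff, QuotientGroup.mk_mul, QuotientGroup.mk_mul,
      QuotientGroup.mk_mul, QuotientGroup.mk_inv, QuotientGroup.mk_inv]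
    constructor
    · intro h
      show (a : P ⧸ N) * b = b * a
      have h1 : (a : P ⧸ N) * b * (a : P ⧸ N)⁻¹ = b := mul_inv_eq_one.mp h
      exact mul_inv_eq_iff_eq_mul.mp h1
    · intro h
      have h1 : (a : P ⧸ N) * b = b * a := h
      rw [h1, mul_inv_cancel_right, mul_inv_cancel]
  rw [e]
  have hT' : ∀ a ∈ T, ∀ b : P, Commute (a : P ⧸ N) (b : P ⧸ N) := fun a ha b => (e a b).mp (hT a ha b)
  have dec : ∀ c ∈ T ⊔ Subgroup.zpowers x, ∀ d : P, Commute (x : P ⧸ N) (d : P ⧸ N) →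
      Commute (c : P ⧸ N) (d : P ⧸ N) := by
    intro c hc d hd
    rw [Subgroup.sup_eq_closure] at hc
    refine Subgroup.closure_induction (p := fun (c : P) _ => Commute (c : P ⧸ N) (d : P ⧸ N))
      ?_ ?_ ?_ ?_ hc
    · rintro z (hz | hz)
      · exact hT' z hz d
      · obtain ⟨m, rfl⟩ := Subgroup.mem_zpowers_iff.mp hz
        rw [QuotientGroup.mk_zpow]
        exact hd.zpow_left m
    · exact Commute.one_left _
    · intro a b _ _ h1 h2
      rw [QuotientGroup.mk_mul]
      exact h1.mul_left h2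
    · intro a _ h1
      rw [QuotientGroup.mk_inv]
      exact h1.inv_left
  exact dec a ha b (dec b hb x (Commute.refl _)).symm

private theorem gc_main {p : ℕ} [Fact p.Prime] (n : ℕ) : ∀ (P : Type u) [Group P] [Finite P],
    Nat.card P = n → IsPGroup p P → PE p (⊤ : Subgroup P) → ∀ g ∈ PS p (⊤ : Subgroup P),
      ∃ y : P, g = y ^ p := by
  induction n using Nat.strong_induction_on with
  | _ n ih =>
    intro P _ _ hcard hP hPE g hg
    set T : Subgroup P := PS p (⊤ : Subgroup P) with hT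
    have hPT : PE p T := PE_PS hP ⊤ hPE
    have hPT2 : PE p (PS p T) := PE_PS hP T hPT
    have hT2n : (PS p T).Normal := hPT2.1
    -- step 1
    have step1 : ∃ x y : P, y ∈ PS p T ∧ g = x ^ p * y := by
      have hg' := hg
      rw [hT] at hg'
      unfold PS at hg'
      refine Subgroup.closure_induction (p := fun g _ => ∃ x y : P, y ∈ PS p T ∧ g = x ^ p * y)
        ?_ ?_ ?_ ?_ hg'
      · rintro z ⟨y, -, rfl⟩
        exact ⟨y, 1, one_mem _, by simp⟩
      · exact ⟨1, 1, one_mem _, by simp⟩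
      · rintro a b _ _ ⟨x, y, hy, rfl⟩ ⟨x', y', hy', rfl⟩
        obtain ⟨z, hz, hz2⟩ := mul_pow_mod hP ⊤ hPE x x' (Subgroup.mem_top _) (Subgroup.mem_top _)
        refine ⟨x * x', z⁻¹ * ((x' ^ p)⁻¹ * y * x' ^ p * y'), ?_, ?_⟩
        · refine mul_mem (inv_mem hz) (mul_mem ?_ hy')
          have := hT2n.conj_mem y hy (x' ^ p)⁻¹
          rwa [inv_inv] at this
        · rw [hz2]
          group
      · rintro a _ ⟨x, y, hy, rfl⟩
        refine ⟨x⁻¹, x ^ p * y⁻¹ * (x ^ p)⁻¹, hT2n.conj_mem _ (inv_mem hy) _, ?_⟩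
        rw [inv_pow]
        group
    obtain ⟨x, y, hy, rfl⟩ := step1
    set H : Subgroup P := T ⊔ Subgroup.zpowers x with hH
    have hTH : T ≤ H := le_sup_left
    have hxH : x ∈ H := (le_sup_right : Subgroup.zpowers x ≤ H) (Subgroup.mem_zpowers x)
    have hNn : (PS (p ^ eps p) T).Normal := gc_PS_normal _ hPT.1
    have hHPE : PE p (⊤ : Subgroup H) := by
      refine ⟨inferInstance, ?_⟩
      rintro a - b
      have h1 := gc_comm T (PS (p ^ eps p) T) hNn x hPT.2 a b a.2 b.2
      obtain ⟨z', hz', hz''⟩ := gc_PS_sub _ H _ (gc_PS_mono _ hTH h1)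
      have : z' = a * b * a⁻¹ * b⁻¹ := Subtype.ext hz''
      rwa [this] at hz'
    have hgH : x ^ p * y ∈ PS p H := by
      refine mul_mem ?_ (gc_PS_mono p hTH hy)
      exact Subgroup.subset_closure ⟨x, hxH, rfl⟩
    obtain ⟨g', hg', hg''⟩ := gc_PS_sub p H _ hgH
    by_cases htop : H = ⊤
    · -- the cyclic case
      have hz : Subgroup.zpowers x = ⊤ := by
        by_contra hne
        obtain ⟨M, hM, hxM⟩ := (IsCoatomic.eq_top_or_exists_le_coatom (Subgroup.zpowers x)).resolve_left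
          hne
        apply hM.1
        rw [eq_top_iff, ← htop, hH]
        refine sup_le ?_ hxM
        rw [hT]
        unfold PS
        rw [Subgroup.closure_le]
        rintro z ⟨w, -, rfl⟩
        exact gc_coatom hP M hM w
      exact gc_cyclic x hz _ hg
    · have hlt : Nat.card H < n := by
        rw [← hcard]
        exact lt_of_le_of_ne (Subgroup.card_le_card_group H) (fun h => htop
          (Subgroup.eq_top_of_card_eq H h))
      obtain ⟨w, hw⟩ := ih (Nat.card H) hlt H rfl (hP.to_subgroup H) hHPE g' hg'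
      exact ⟨w, by rw [← hg'', hw]; rfl⟩

variable {p : ℕ} [Fact p.Prime] {P : Type*} [Group P] [Finite P]


theorem exists_pow_of_mem_PS (hP : IsPGroup p P) (h : PE p (⊤ : Subgroup P)) (x : P)
    (hx : x ∈ PS p (⊤ : Subgroup P)) : ∃ y : P, x = y ^ p :=
  gc_main (Nat.card P) P rfl hP h x hx

end Pool.Agent.Lib.MP_ca71b5_nt
end

section

/-!
# Iterated p-th powers in powerful p-groups
-/

set_option autoImplicit false

namespace Pool.Agent.Lib.MP_ca71b5_nt

/-- iterated subgroups of `p`-th powers -/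
private def gdPI (P : Type*) [Group P] (p : ℕ) : ℕ → Subgroup P
  | 0 => ⊤
  | k + 1 => PS p (gdPI P p k)

private theorem gd_pow_mem_PS {P : Type*} [Group P] (k : ℕ) (N : Subgroup P) {y : P} (hy : y ∈ N) :
    y ^ k ∈ PS k N := Subgroup.subset_closure ⟨y, hy, rfl⟩

private theorem gd_PS_le_self {P : Type*} [Group P] (k : ℕ) (N : Subgroup P) : PS k N ≤ N := by
  unfold PS
  rw [Subgroup.closure_le]
  rintro z ⟨y, hy, rfl⟩
  exact N.pow_mem hy k

private theorem gd_PS_map_subtype {P : Type*} [Group P] (k : ℕ) (N : Subgroup P) :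
    (PS k (⊤ : Subgroup N)).map N.subtype = PS k N := by
  unfold PS
  rw [MonoidHom.map_closure]
  congr 1
  ext z
  constructor
  · rintro ⟨w, ⟨y, -, rfl⟩, rfl⟩
    exact ⟨y, y.2, by simp⟩
  · rintro ⟨y, hy, rfl⟩
    exact ⟨⟨y, hy⟩ ^ k, ⟨⟨y, hy⟩, Subgroup.mem_top _, rfl⟩, by simp⟩

private theorem gd_PE_top_of_PE {P : Type*} [Group P] (p : ℕ) (N : Subgroup P) (h : PE p N) :
    PE p (⊤ : Subgroup N) := by
  refine ⟨inferInstance, fun x _ g => ?_⟩
  have h1 := h.2 (x : P) x.2 (g : P)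
  rw [← gd_PS_map_subtype] at h1
  obtain ⟨w, hw, hwe⟩ := Subgroup.mem_map.1 h1
  have : w = x * g * x⁻¹ * g⁻¹ := by
    apply Subtype.ext
    simpa using hwe
  rw [← this]
  exact hw

variable {p : ℕ} [Fact p.Prime] {P : Type*} [Group P] [Finite P]

private theorem gd_PI_PE (hP : IsPGroup p P) (h : PE p (⊤ : Subgroup P)) (k : ℕ) :
    PE p (gdPI P p k) := by
  induction k with
  | zero => exact h
  | succ k ih => exact PE_PS hP _ ih

private theorem gd_mem_PI (hP : IsPGroup p P) (h : PE p (⊤ : Subgroup P)) (k : ℕ) (x : P) :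
    x ∈ gdPI P p k ↔ ∃ y : P, x = y ^ (p ^ k) := by
  induction k generalizing x with
  | zero =>
    constructor
    · intro _
      exact ⟨x, by simp⟩
    · intro _
      exact Subgroup.mem_top x
  | succ k ih =>
    constructor
    · intro hx
      have hx' : x ∈ PS p (gdPI P p k) := hx
      rw [← gd_PS_map_subtype] at hx'
      obtain ⟨w, hw, hwe⟩ := Subgroup.mem_map.1 hx'
      obtain ⟨y, hy⟩ := exists_pow_of_mem_PS (p := p) (P := gdPI P p k) (hP.to_subgroup _)
        (gd_PE_top_of_PE p _ (gd_PI_PE hP h k)) w hw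
      obtain ⟨t, ht⟩ := (ih (y : P)).1 y.2
      refine ⟨t, ?_⟩
      rw [← hwe, hy, pow_succ, pow_mul, ← ht]
      simp
    · rintro ⟨y, rfl⟩
      rw [pow_succ, pow_mul]
      exact gd_pow_mem_PS p _ ((ih _).2 ⟨y, rfl⟩)

private theorem gd_mul_pow_PI (hP : IsPGroup p P) (h : PE p (⊤ : Subgroup P)) (k : ℕ) (x y : P) :
    ∃ z ∈ gdPI P p (k + 1), (x * y) ^ (p ^ k) = x ^ (p ^ k) * y ^ (p ^ k) * z := by
  induction k with
  | zero => exact ⟨1, Subgroup.one_mem _, by simp⟩
  | succ k ih =>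
    obtain ⟨z, hz, he⟩ := ih
    have ha : x ^ (p ^ k) ∈ gdPI P p k := (gd_mem_PI hP h k _).2 ⟨x, rfl⟩
    have hb : y ^ (p ^ k) ∈ gdPI P p k := (gd_mem_PI hP h k _).2 ⟨y, rfl⟩
    have hz' : z ∈ gdPI P p k := gd_PS_le_self p (gdPI P p k) hz
    obtain ⟨w, hw, hwe⟩ := mul_pow_mod hP (gdPI P p k) (gd_PI_PE hP h k) _ _
      (Subgroup.mul_mem _ ha hb) hz'
    obtain ⟨w', hw', hwe'⟩ := mul_pow_mod hP (gdPI P p k) (gd_PI_PE hP h k) _ _ ha hb
    refine ⟨w' * z ^ p * w, ?_, ?_⟩
    · exact Subgroup.mul_mem _ (Subgroup.mul_mem _ hw' (gd_pow_mem_PS p _ hz)) hw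
    · rw [pow_succ, pow_mul, he, hwe, hwe', ← pow_mul, ← pow_mul]
      simp only [mul_assoc]

theorem powerful_props (hP : IsPGroup p P) (h : PE p (⊤ : Subgroup P)) :
    (∀ (k : ℕ) (x y : P), ∃ z : P, x ^ (p ^ k) * y ^ (p ^ k) = z ^ (p ^ k)) ∧
    (∀ (k : ℕ) (x y : P), ∃ z : P,
      (x * y) ^ (p ^ k) = x ^ (p ^ k) * y ^ (p ^ k) * z ^ (p ^ (k + 1))) := by
  refine ⟨fun k x y => ?_, fun k x y => ?_⟩
  · have ha : x ^ (p ^ k) ∈ gdPI P p k := (gd_mem_PI hP h k _).2 ⟨x, rfl⟩
    have hb : y ^ (p ^ k) ∈ gdPI P p k := (gd_mem_PI hP h k _).2 ⟨y, rfl⟩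
    exact (gd_mem_PI hP h k _).1 (Subgroup.mul_mem _ ha hb)
  · obtain ⟨z, hz, he⟩ := gd_mul_pow_PI hP h k x y
    obtain ⟨t, ht⟩ := (gd_mem_PI hP h (k + 1) z).1 hz
    exact ⟨t, by rw [he, ht]⟩

end Pool.Agent.Lib.MP_ca71b5_nt
end
end

section

section

/-!
# Rational matrices of prime order with a fixed vector
-/

set_option autoImplicit false

namespace Pool.Agent.Lib.MP_ca71b5_nt

theorem prime_le_of_fixed (l m : ℕ) [Fact l.Prime] (M : Matrix (Fin m) (Fin m) ℚ)
    (hM : M ^ l = 1) (hM1 : M ≠ 1) (v : Fin m → ℚ) (hv : v ≠ 0) (hMv : M.mulVec v = v) :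
    l ≤ m := by
  classical
  have hl : l.Prime := Fact.out
  have hirr : Irreducible (Polynomial.cyclotomic l ℚ) :=
    Polynomial.cyclotomic.irreducible_rat hl.pos
  have hfac : Polynomial.cyclotomic l ℚ * (Polynomial.X - 1) = Polynomial.X ^ l - 1 :=
    Polynomial.cyclotomic_prime_mul_X_sub_one ℚ l
  have hmin : minpoly ℚ M ∣ Polynomial.X ^ l - 1 := by
    apply minpoly.dvd
    simp [hM]
  have hmc : minpoly ℚ M ∣ M.charpoly := Matrix.minpoly_dvd_charpoly M
  -- the cyclotomic polynomial divides the characteristic polynomial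
  have h1 : Polynomial.cyclotomic l ℚ ∣ M.charpoly := by
    refine dvd_trans ?_ hmc
    rcases (EuclideanDomain.dvd_or_coprime (Polynomial.cyclotomic l ℚ) (minpoly ℚ M) hirr) with h | h
    · exact h
    · exfalso
      rw [← hfac] at hmin
      have h2 : minpoly ℚ M ∣ Polynomial.X - 1 := h.symm.dvd_of_dvd_mul_left hmin
      have h3 : Polynomial.aeval M (Polynomial.X - 1 : Polynomial ℚ) = 0 := by
        obtain ⟨q, hq⟩ := h2
        rw [hq, map_mul, minpoly.aeval, zero_mul]
      rw [map_sub, Polynomial.aeval_X, map_one, sub_eq_zero] at h3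
      exact hM1 h3
  have h2 : (Polynomial.X - 1 : Polynomial ℚ) ∣ M.charpoly := by
    have : (Polynomial.X - 1 : Polynomial ℚ) = Polynomial.X - Polynomial.C 1 := by simp
    rw [this, Polynomial.dvd_iff_isRoot, Polynomial.IsRoot.def, Matrix.eval_charpoly]
    apply Matrix.exists_mulVec_eq_zero_iff.1
    refine ⟨v, hv, ?_⟩
    rw [Matrix.sub_mulVec, hMv, map_one, Matrix.one_mulVec, sub_self]
  have hcop : IsCoprime (Polynomial.cyclotomic l ℚ) (Polynomial.X - 1 : Polynomial ℚ) := by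
    have h3 : Irreducible (Polynomial.X - 1 : Polynomial ℚ) := by
      have : (Polynomial.X - 1 : Polynomial ℚ) = Polynomial.X - Polynomial.C 1 := by simp
      rw [this]
      exact Polynomial.irreducible_X_sub_C 1
    refine (Irreducible.coprime_iff_not_dvd h3).2 ?_ |>.symm
    intro h4
    have : (Polynomial.X - 1 : Polynomial ℚ) = Polynomial.X - Polynomial.C 1 := by simp
    rw [this, Polynomial.dvd_iff_isRoot, Polynomial.IsRoot.def,
      Polynomial.eval_one_cyclotomic_prime] at h4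
    exact hl.ne_zero (by exact_mod_cast h4)
  have h3 : (Polynomial.X ^ l - 1 : Polynomial ℚ) ∣ M.charpoly := by
    rw [← hfac]
    exact hcop.mul_dvd h1 h2
  have h4 := Polynomial.natDegree_le_of_dvd h3 (M.charpoly_monic.ne_zero)
  rw [Matrix.charpoly_natDegree_eq_dim, Fintype.card_fin] at h4
  have h5 : (Polynomial.X ^ l - 1 : Polynomial ℚ).natDegree = l := by
    have := Polynomial.natDegree_X_pow_sub_C (R := ℚ) (n := l) (r := 1)
    simpa using this
  rw [h5] at h4
  exact h4

end Pool.Agent.Lib.MP_ca71b5_nt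
end

section

/-!
# Automorphisms non-trivial on a Cartan subalgebra
-/

set_option autoImplicit false

namespace Pool.Agent.Lib.MP_ca71b5_nt

open LieModule LieAlgebra Module

/-- orbits of prime length -/
private theorem l4_orbit_inj {X : Type*} (l : ℕ) (hl : l.Prime) (f : X → X)
    (hf : ∀ x, f^[l] x = x) (x : X) (hx : f x ≠ x) {i j : ℕ} (hi : i < l) (hj : j < l)
    (h : f^[i] x = f^[j] x) : i = j := by
  have h1 : Function.minimalPeriod f x = l := by
    have h2 : Function.minimalPeriod f x ∣ l :=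
      Function.IsPeriodicPt.minimalPeriod_dvd (hf x)
    rcases (Nat.dvd_prime hl).1 h2 with h3 | h3
    · exact absurd (Function.minimalPeriod_eq_one_iff_isFixedPt.1 h3) hx
    · exact h3
  exact Function.iterate_injOn_Iio_minimalPeriod (f := f) (x := x) (by rw [h1]; exact hi)
    (by rw [h1]; exact hj) h

/-- powers of a function of prime order -/
private theorem l4_fix_of_pow {X : Type*} (l : ℕ) (hl : l.Prime) (f : X → X)
    (hf : ∀ x, f^[l] x = x) (x : X) (k : ℕ) (hk : ¬ l ∣ k) (h : f^[k] x = x) : f x = x := by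
  have h1 : Function.minimalPeriod f x ∣ l := Function.IsPeriodicPt.minimalPeriod_dvd (hf x)
  have h2 : Function.minimalPeriod f x ∣ k := Function.IsPeriodicPt.minimalPeriod_dvd h
  rcases (Nat.dvd_prime hl).1 h1 with h3 | h3
  · exact Function.minimalPeriod_eq_one_iff_isFixedPt.1 h3
  · exact absurd (h3 ▸ h2) hk

private theorem l4_shift {A : Type*} [AddCommGroup A] (l : ℕ) (g : ℕ → A) (hg : g l = g 0) :
    ∑ k ∈ Finset.range l, g (k + 1) = ∑ k ∈ Finset.range l, g k := by
  have h1 := Finset.sum_range_succ g l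
  rw [Finset.sum_range_succ' g l, hg] at h1
  exact add_right_cancel h1

/-- An endomorphism of prime order of a vector space, with an integral matrix, which is not the
identity and has a fixed vector. -/
private theorem l4_rank {E : Type*} [Field E] [CharZero E] {V : Type*} [AddCommGroup V] [Module E V]
    {n : ℕ} (b : Basis (Fin n) E V) (l : ℕ) [Fact l.Prime] (φ : V →ₗ[E] V) (hφ : φ ^ l = 1)
    (hφ1 : φ ≠ 1) (M : Matrix (Fin n) (Fin n) ℤ)
    (hM : ∀ j, φ (b j) = ∑ i, (M i j : E) • b i) (v : V) (hv : v ≠ 0) (hfv : φ v = v) : l ≤ n := by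
  classical
  have e1 : LinearMap.toMatrix b b φ = M.map (Int.castRingHom E) := by
    ext i j
    rw [LinearMap.toMatrix_apply, hM j]
    simp [Basis.repr_self, Finsupp.single_apply]
  have inj : Function.Injective (Int.castRingHom E) := by
    intro x y hxy
    simpa using hxy
  have injM : Function.Injective ((Int.castRingHom E).mapMatrix : Matrix (Fin n) (Fin n) ℤ → _) :=
    Matrix.map_injective inj
  have e2 : M ^ l = 1 := by
    apply injM
    rw [map_pow, map_one]
    change (M.map (Int.castRingHom E)) ^ l = 1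
    rw [← e1, LinearMap.toMatrix_pow, hφ, LinearMap.toMatrix_one]
  have e3 : M ≠ 1 := by
    intro h
    apply hφ1
    apply (LinearMap.toMatrix b b).injective
    rw [e1, h, LinearMap.toMatrix_one]
    exact map_one ((Int.castRingHom E).mapMatrix (m := Fin n))
  have e4 : (M - 1).det = 0 := by
    apply inj
    rw [map_zero, RingHom.map_det, map_sub, map_one]
    change (M.map (Int.castRingHom E) - 1).det = 0
    have h1 : (M.map (Int.castRingHom E) - 1 : Matrix (Fin n) (Fin n) E).mulVec (b.repr v) = 0 := by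
      rw [Matrix.sub_mulVec, Matrix.one_mulVec, ← e1, LinearMap.toMatrix_mulVec_repr, hfv, sub_self]
    apply Matrix.exists_mulVec_eq_zero_iff.1
    refine ⟨b.repr v, ?_, h1⟩
    intro h2
    apply hv
    apply b.repr.injective
    rw [map_zero]
    exact DFunLike.coe_injective h2
  -- over the rationals
  have injQ : Function.Injective ((Int.castRingHom ℚ).mapMatrix : Matrix (Fin n) (Fin n) ℤ → _) :=
    Matrix.map_injective (fun x y hxy => by simpa using hxy)
  have e5 : ((Int.castRingHom ℚ).mapMatrix M - 1).det = 0 := by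
    have h := congrArg (Int.castRingHom ℚ) e4
    rw [map_zero, RingHom.map_det, map_sub, map_one] at h
    exact h
  obtain ⟨w, hw, hMw⟩ := Matrix.exists_mulVec_eq_zero_iff.2 e5
  refine prime_le_of_fixed l n ((Int.castRingHom ℚ).mapMatrix M) ?_ ?_ w hw ?_
  · rw [← map_pow, e2, map_one]
  · intro h
    apply e3
    apply injQ
    rw [h, map_one]
  · rw [Matrix.sub_mulVec, Matrix.one_mulVec, sub_eq_zero] at hMw
    exact hMw

variable {E : Type*} [Field E] [CharZero E] [IsAlgClosed E] {L : Type*} [LieRing L]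
  [LieAlgebra E L] [FiniteDimensional E L] [LieAlgebra.IsKilling E L]
  (H : LieSubalgebra E L) [H.IsCartanSubalgebra]

theorem dim_of_nontrivial (l : ℕ) [Fact l.Prime] (hl : l ≠ 2) (T : L ≃ₗ⁅E⁆ L)
    (hTl : ∀ x, T^[l] x = x) (hTH : ∀ x ∈ H, T x ∈ H) (hne : ∃ x ∈ H, T x ≠ x)
    (hfix : ∃ a ∈ H, a ≠ 0 ∧ T a = a) :
    3 * l ≤ Module.finrank E L ∧ 3 ≤ Module.finrank E (fixS T) := by
  classical
  have hlp : l.Prime := Fact.out
  have hl0 : l ≠ 0 := hlp.ne_zero
  have hTT : ∀ x, T (T^[l-1] x) = x := by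
    intro x
    have h1 := Function.iterate_succ_apply' T (l-1) x
    rw [Nat.succ_eq_add_one, Nat.sub_add_cancel (Nat.one_le_iff_ne_zero.2 hl0), hTl] at h1
    exact h1.symm
  have hsymm : ∀ x, T.symm x = T^[l-1] x := by
    intro x
    conv_lhs => rw [← hTT x]
    exact T.symm_apply_apply _
  have hTk : ∀ k : ℕ, ∀ x ∈ H, T^[k] x ∈ H := by
    intro k
    induction k with
    | zero => intro x hx; exact hx
    | succ k ih =>
      intro x hx
      rw [Function.iterate_succ_apply']
      exact hTH _ (ih x hx)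
  have hTH' : ∀ x ∈ H, T.symm x ∈ H := by
    intro x hx
    rw [hsymm]
    exact hTk _ x hx
  obtain ⟨π, hπ1, hπ2⟩ := exists_weight_map H (RingEquiv.refl E) T.toLinearEquiv.toAddEquiv
    (fun c x => by simp) (fun x y => by
      change T ⁅x, y⁆ = ⁅T x, T y⁆
      exact T.map_lie x y) hTH hTH'
  have hπ1' : ∀ (α : Weight E H L) (h : H), π α ⟨T h, hTH h h.2⟩ = α h := hπ1
  have hπ2' : ∀ (α : Weight E H L) (x : L), x ∈ rootSpace H α → T x ∈ rootSpace H (π α) := hπ2
  -- the inverse on the Cartan subalgebra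
  let U : H →ₗ[E] H :=
    { toFun := fun h => ⟨T.symm h, hTH' h h.2⟩
      map_add' := fun x y => by
        apply Subtype.ext
        exact map_add T.symm (x : L) (y : L)
      map_smul' := fun c x => by
        apply Subtype.ext
        exact map_smul T.symm c (x : L) }
  have hU : ∀ h : H, ((U h : H) : L) = T.symm h := fun h => rfl
  have hTsl : ∀ x, T.symm^[l] x = x := by
    intro x
    have h1 : Function.LeftInverse (T.symm)^[l] (T)^[l] :=
      Function.LeftInverse.iterate (fun x => T.symm_apply_apply x) l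
    have h2 := h1 x
    rwa [hTl] at h2
  have hUk : ∀ k : ℕ, ∀ h : H, (((U ^ k) h : H) : L) = T.symm^[k] h := by
    intro k
    induction k with
    | zero => intro h; rfl
    | succ k ih =>
      intro h
      rw [pow_succ', Module.End.mul_apply, hU, ih, Function.iterate_succ_apply']
  have hπU : ∀ (α : Weight E H L) (h : H), π α h = α (U h) := by
    intro α h
    have h1 := hπ1' α (U h)
    rw [← h1]
    congr 1
    apply Subtype.ext
    exact (T.apply_symm_apply (h : L)).symm
  have hπk : ∀ (k : ℕ) (α : Weight E H L) (h : H), π^[k] α h = α ((U ^ k) h) := by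
    intro k
    induction k with
    | zero => intro α h; rfl
    | succ k ih =>
      intro α h
      rw [Function.iterate_succ_apply', hπU, ih, pow_succ, Module.End.mul_apply]
  have hUl : U ^ l = 1 := by
    ext h
    rw [hUk, hTsl]
    rfl
  have hπl : ∀ α, π^[l] α = α := by
    intro α
    apply Weight.ext
    intro h
    rw [hπk, hUl]
    rfl
  -- the action on the dual
  set φ : Module.Dual E H →ₗ[E] Module.Dual E H := U.dualMap with hφ
  have hφa : ∀ f h, φ f h = f (U h) := fun f h => rfl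
  have hφk : ∀ (k : ℕ) (f : Module.Dual E H) (h : H), (φ ^ k) f h = f ((U ^ k) h) := by
    intro k
    induction k with
    | zero => intro f h; rfl
    | succ k ih =>
      intro f h
      rw [pow_succ', Module.End.mul_apply, hφa, ih, pow_succ, Module.End.mul_apply]
  have hφl : φ ^ l = 1 := by
    ext f h
    rw [hφk, hUl]
    rfl
  obtain ⟨b, hb1, hb2⟩ := exists_root_basis H
  choose r hr1 hr2 using hb1
  choose c hc using hb2
  have hφb : ∀ j, φ (b j) = ∑ i, ((c (π (r j)) i : ℤ) : E) • b i := by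
    intro j
    ext h
    rw [hφa, congrFun (hr2 j) (U h), ← hπU, hc (π (r j)) h]
    simp
  -- non-trivial on the dual
  obtain ⟨x0, hx0, hx0'⟩ := hne
  have hU1 : U ⟨x0, hx0⟩ ≠ ⟨x0, hx0⟩ := by
    intro h
    apply hx0'
    have h1 := congrArg Subtype.val h
    change T.symm x0 = x0 at h1
    conv_lhs => rw [← h1]
    exact T.apply_symm_apply x0
  have hφ1 : φ ≠ 1 := by
    intro h
    apply hU1
    rw [← sub_eq_zero, ← Module.forall_dual_apply_eq_zero_iff E]
    intro f
    rw [map_sub, ← hφa, h]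
    exact sub_self _
  -- a fixed functional
  obtain ⟨a, haH, ha0, hTa⟩ := hfix
  have hUa : U ⟨a, haH⟩ = ⟨a, haH⟩ := by
    apply Subtype.ext
    change T.symm a = a
    conv_lhs => rw [← hTa]
    exact T.symm_apply_apply a
  have hUka : ∀ k : ℕ, (U ^ k) ⟨a, haH⟩ = ⟨a, haH⟩ := by
    intro k
    induction k with
    | zero => rfl
    | succ k ih => rw [pow_succ, Module.End.mul_apply, hUa, ih]
  obtain ⟨f0, hf0⟩ : ∃ f0 : Module.Dual E H, f0 ⟨a, haH⟩ ≠ 0 := by
    by_contra hcon
    push Not at hcon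
    have := (Module.forall_dual_apply_eq_zero_iff E (⟨a, haH⟩ : H)).1 hcon
    exact ha0 (congrArg Subtype.val this)
  set F : Module.Dual E H := ∑ k ∈ Finset.range l, (φ ^ k) f0 with hF
  have hFa : F ⟨a, haH⟩ = l * f0 ⟨a, haH⟩ := by
    rw [hF, LinearMap.sum_apply]
    simp only [hφk, hUka, Finset.sum_const, Finset.card_range, nsmul_eq_mul]
  have hF0 : F ≠ 0 := by
    intro h
    rw [h, LinearMap.zero_apply] at hFa
    have := mul_ne_zero (Nat.cast_ne_zero.2 hl0 : (l : E) ≠ 0) hf0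
    exact this hFa.symm
  have hφF : φ F = F := by
    rw [hF, map_sum]
    have h1 : ∀ k, φ ((φ ^ k) f0) = (φ ^ (k + 1)) f0 := fun k => by
      rw [pow_succ', Module.End.mul_apply]
    simp only [h1]
    exact l4_shift l (fun k => (φ ^ k) f0) (by rw [hφl]; rfl)
  have hrank : l ≤ Module.finrank E H := l4_rank b l φ hφl hφ1 (fun i j => c (π (r j)) i) hφb F hF0 hφF
  -- a root which is moved
  obtain ⟨j, hj⟩ : ∃ j, π (r j) ≠ r j := by
    by_contra hcon
    push Not at hcon
    apply hφ1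
    apply b.ext
    intro j
    ext h
    rw [hφa, congrFun (hr2 j) (U h), ← hπU, hcon j, ← congrFun (hr2 j) h]
    rfl
  set α := r j with hα
  have hα0 : α.IsNonZero := hr1 j
  have hπneg : ∀ β : Weight E H L, π (-β) = -(π β) := by
    intro β
    apply Weight.ext
    intro h
    rw [hπU, Weight.coe_neg, Weight.coe_neg, Pi.neg_apply, Pi.neg_apply, hπU]
  have hπnegk : ∀ (k : ℕ) (β : Weight E H L), π^[k] (-β) = -(π^[k] β) := by
    intro k
    induction k with
    | zero => intro β; rfl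
    | succ k ih =>
      intro β
      rw [Function.iterate_succ_apply', ih, hπneg, Function.iterate_succ_apply']
  have hnz : ∀ k : ℕ, (π^[k] α).IsNonZero := by
    intro k h0
    apply hα0
    have h1 : ∀ h, π^[k] α h = 0 := fun h => congrFun h0 h
    funext h
    have h2 := h1 ((U ^ ((l - 1) * k)) h)
    rw [hπk, ← Module.End.mul_apply, ← pow_add] at h2
    have h3 : k + (l - 1) * k = l * k := by
      have : l = (l - 1) + 1 := (Nat.sub_add_cancel (Nat.one_le_iff_ne_zero.2 hl0)).symm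
      conv_rhs => rw [this]
      ring
    rw [h3, pow_mul, hUl, one_pow] at h2
    exact h2
  have hopp : ∀ i k : ℕ, i < l → k < l → π^[i] α ≠ -(π^[k] α) := by
    intro i k hi hk h
    have h1 : π^[l - k + i] α = -α := by
      rw [Function.iterate_add_apply, h, hπnegk, ← Function.iterate_add_apply,
        Nat.sub_add_cancel hk.le, hπl]
    have h2 : π^[(l - k + i) + (l - k + i)] α = α := by
      rw [Function.iterate_add_apply, h1, hπnegk, h1, neg_neg]
    have h3 : l ∣ (l - k + i) + (l - k + i) := by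
      by_contra hcon
      exact hj (l4_fix_of_pow l hlp π hπl α _ hcon h2)
    rw [← two_mul] at h3
    have h4 : l ∣ l - k + i := by
      rcases (Nat.Prime.dvd_mul hlp).1 h3 with h5 | h5
      · exact absurd ((Nat.prime_dvd_prime_iff_eq hlp Nat.prime_two).1 h5) hl
      · exact h5
    obtain ⟨q, hq⟩ := h4
    have h5 : π^[l - k + i] α = α := by
      rw [hq, Function.iterate_mul]
      exact Function.iterate_fixed (hπl α) q
    rw [h1] at h5
    apply hα0
    funext h
    have h6 : (-α : Weight E H L) h = α h := by rw [h5]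
    rw [Weight.coe_neg, Pi.neg_apply] at h6
    have h7 : (2 : E) * α h = 0 := by linear_combination -h6
    simpa using h7
  -- the weights
  let W : Option (Fin l × Bool) → (H → E) := fun o => match o with
    | none => 0
    | some (k, true) => (π^[(k : ℕ)] α : Weight E H L)
    | some (k, false) => (-(π^[(k : ℕ)] α) : Weight E H L)
  have winj : ∀ {β γ : Weight E H L}, (β : H → E) = γ → β = γ := fun h => Weight.ext (fun x => congrFun h x)
  have oinj : ∀ i k : Fin l, π^[(i : ℕ)] α = π^[(k : ℕ)] α → i = k := fun i k h =>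
    Fin.ext (l4_orbit_inj l hlp π hπl α hj i.2 k.2 h)
  have hW : Function.Injective W := by
    rintro (_ | ⟨i, _ | _⟩) (_ | ⟨k, _ | _⟩) h
    · rfl
    · exact absurd (show (-(π^[(k : ℕ)] α) : Weight E H L).IsZero from h.symm) (hnz k).neg
    · exact absurd (show (π^[(k : ℕ)] α : Weight E H L).IsZero from h.symm) (hnz k)
    · exact absurd (show (-(π^[(i : ℕ)] α) : Weight E H L).IsZero from h) (hnz i).neg
    · have h1 : (-(π^[(i : ℕ)] α) : Weight E H L) = -(π^[(k : ℕ)] α) := winj h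
      rw [neg_inj] at h1
      rw [oinj i k h1]
    · exact absurd (winj h).symm (hopp k i k.2 i.2)
    · exact absurd (show (π^[(i : ℕ)] α : Weight E H L).IsZero from h) (hnz i)
    · exact absurd (winj h) (hopp i k i.2 k.2)
    · rw [oinj i k (winj h)]
  have hind : iSupIndep fun o => ((genWeightSpace L (W o) : LieSubmodule E H L) : Submodule E L) :=
    (LieSubmodule.iSupIndep_toSubmodule.mpr (iSupIndep_genWeightSpace E H L)).comp hW
  obtain ⟨x, hx, hx0⟩ := α.exists_ne_zero
  obtain ⟨y, hy, hy0⟩ := (-α).exists_ne_zero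
  let v : Option (Fin l × Bool) → L := fun o => match o with
    | none => a
    | some (k, true) => T^[(k : ℕ)] x
    | some (k, false) => T^[(k : ℕ)] y
  have hTmem : ∀ (k : ℕ) (β : Weight E H L) (z : L), z ∈ rootSpace H β →
      T^[k] z ∈ rootSpace H (π^[k] β) := by
    intro k
    induction k with
    | zero => intro β z hz; exact hz
    | succ k ih =>
      intro β z hz
      rw [Function.iterate_succ_apply', Function.iterate_succ_apply']
      exact hπ2' _ _ (ih β z hz)
  have hTne : ∀ (k : ℕ) (z : L), z ≠ 0 → T^[k] z ≠ 0 := by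
    intro k
    induction k with
    | zero => intro z hz; exact hz
    | succ k ih =>
      intro z hz
      rw [Function.iterate_succ_apply']
      exact fun h => ih z hz (by simpa using h)
  have hv : ∀ o, v o ∈ ((genWeightSpace L (W o) : LieSubmodule E H L) : Submodule E L) := by
    rintro (_ | ⟨i, _ | _⟩)
    · change a ∈ rootSpace H (0 : H → E)
      rw [rootSpace_zero_eq]
      exact haH
    · change T^[(i : ℕ)] y ∈ rootSpace H (-(π^[(i : ℕ)] α) : Weight E H L)
      rw [← hπnegk]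
      exact hTmem _ _ _ hy
    · exact hTmem _ _ _ hx
  have hv0 : ∀ o, v o ≠ 0 := by
    rintro (_ | ⟨i, _ | _⟩)
    · exact ha0
    · exact hTne _ _ hy0
    · exact hTne _ _ hx0
  have hlin : LinearIndependent E v := hind.linearIndependent _ hv hv0
  constructor
  · -- the dimension
    have h1 : LinearIndependent E (v ∘ some) := hlin.comp _ (Option.some_injective _)
    have h2 : Module.finrank E (Submodule.span E (Set.range (v ∘ some))) = Fintype.card (Fin l × Bool) :=
      finrank_span_eq_card h1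
    have h3 : Disjoint H.toSubmodule (Submodule.span E (Set.range (v ∘ some))) := by
      have h4 := hind none
      have h5 : ((genWeightSpace L (W none) : LieSubmodule E H L) : Submodule E L) = H.toSubmodule := by
        change ((rootSpace H (0 : H → E) : LieSubmodule E H L) : Submodule E L) = _
        rw [rootSpace_zero_eq]
        rfl
      simp only [h5] at h4
      refine h4.mono_right ?_
      rw [Submodule.span_le]
      rintro _ ⟨q, rfl⟩
      exact Submodule.mem_iSup_of_mem (some q) (Submodule.mem_iSup_of_mem (Option.some_ne_none q) (hv (some q)))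
    have h6 := Submodule.finrank_add_finrank_le_of_disjoint h3
    rw [h2] at h6
    simp only [Fintype.card_prod, Fintype.card_fin, Fintype.card_bool] at h6
    have h7 : Module.finrank E H.toSubmodule = Module.finrank E H := rfl
    omega
  · -- the fixed points
    let w : Fin 3 → fixS T := ![⟨a, hTa⟩, ⟨∑ k ∈ Finset.range l, T^[k] x, by
      rw [mem_fixS, map_sum]
      simp only [← Function.iterate_succ_apply' T]
      exact l4_shift l (fun k => T^[k] x) (hTl x)⟩, ⟨∑ k ∈ Finset.range l, T^[k] y, by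
      rw [mem_fixS, map_sum]
      simp only [← Function.iterate_succ_apply' T]
      exact l4_shift l (fun k => T^[k] y) (hTl y)⟩]
    have hw : LinearIndependent E w := by
      rw [Fintype.linearIndependent_iff]
      intro g hg
      rw [Fintype.linearIndependent_iff] at hlin
      have h1 := congrArg Subtype.val hg
      rw [Fin.sum_univ_three] at h1
      have h2 : g 0 • a + g 1 • (∑ k ∈ Finset.range l, T^[k] x) +
          g 2 • (∑ k ∈ Finset.range l, T^[k] y) = 0 := h1
      let G : Option (Fin l × Bool) → E := fun o => match o with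
        | none => g 0
        | some (_, true) => g 1
        | some (_, false) => g 2
      have h3 : ∑ o, G o • v o = 0 := by
        rw [Fintype.sum_option, Fintype.sum_prod_type]
        simp only [Fintype.sum_bool]
        rw [Finset.sum_add_distrib, ← add_assoc]
        rw [Finset.smul_sum, Finset.smul_sum, ← Fin.sum_univ_eq_sum_range (fun k => g 1 • T^[k] x),
          ← Fin.sum_univ_eq_sum_range (fun k => g 2 • T^[k] y)] at h2
        exact h2
      have h4 := hlin G h3
      have hlpos : 0 < l := hlp.pos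
      intro i
      fin_cases i
      · exact h4 none
      · exact h4 (some (⟨0, hlpos⟩, true))
      · exact h4 (some (⟨0, hlpos⟩, false))
    have := hw.fintype_card_le_finrank
    simpa using this

end Pool.Agent.Lib.MP_ca71b5_nt
end
end

section

/-!
# Consequences of the hypotheses over K
-/

set_option autoImplicit false
open scoped NumberField

namespace Pool.Agent.Lib.MP_ca71b5_nt

variable {p : ℕ} [Fact p.Prime] (K : Type) [Field K] [NumberField K]

omit [NumberField K] in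
theorem fixedField_le_of_ker_le {n : ℕ}
    (ρ : GK K →* Matrix.GeneralLinearGroup (Fin n) ℤ_[p]) (W : Subgroup (GK K))
    (hW : ρ.ker ≤ W) :
    IntermediateField.fixedField W ≤ IntermediateField.fixedField ρ.ker := by
  intro x hx
  rw [IntermediateField.mem_fixedField_iff] at hx ⊢
  intro f hf
  exact hx f (hW hf)

theorem proP_of_unrPro {n : ℕ} (ρ : GK K →* Matrix.GeneralLinearGroup (Fin n) ℤ_[p])
    (h : UnrPro p K ρ) : ProP p ρ.ker := by
  intro W hWn hWo hker
  obtain ⟨h1, h2, -⟩ := fixedField_open K W hWo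
  obtain ⟨⟨k, hk⟩, -⟩ := h _ (fixedField_le_of_ker_le K ρ W hker) h1
  exact ⟨k, by rw [← h2, hk]⟩

theorem rankG_of_unrPro {n : ℕ} (ρ : GK K →* Matrix.GeneralLinearGroup (Fin n) ℤ_[p])
    (h : UnrPro p K ρ) (R : ℕ) (hR : RankLE p K R) : RankG p R ρ.ker := by
  intro W hWn hWo hker hcomm hpow
  obtain ⟨h1, h2, -⟩ := fixedField_open K W hWo
  obtain ⟨-, hunr⟩ := h _ (fixedField_le_of_ker_le K ρ W hker) h1
  obtain ⟨hgal, ⟨e⟩⟩ := fixedField_open_normal K W hWo
  have hnf : NumberField (IntermediateField.fixedField W) := NumberField.of_module_finite K _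
  rw [← h2]
  apply hR (IntermediateField.fixedField W)
  · intro s t
    apply e.injective
    rw [map_mul, map_mul]
    obtain ⟨a, ha⟩ := QuotientGroup.mk_surjective (e s)
    obtain ⟨b, hb⟩ := QuotientGroup.mk_surjective (e t)
    rw [← ha, ← hb, ← QuotientGroup.mk_mul, ← QuotientGroup.mk_mul, QuotientGroup.eq]
    have h3 := hcomm b⁻¹ a⁻¹
    rw [inv_inv, inv_inv] at h3
    have h4 : (a * b)⁻¹ * (b * a) = b⁻¹ * a⁻¹ * b * a := by group
    rw [h4]
    exact h3
  · intro s
    apply e.injective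
    rw [map_pow, map_one]
    obtain ⟨a, ha⟩ := QuotientGroup.mk_surjective (e s)
    rw [← ha, ← QuotientGroup.mk_pow, QuotientGroup.eq_one_iff]
    exact hpow a
  · exact hunr

end Pool.Agent.Lib.MP_ca71b5_nt
end

section

/-!
# Products of powers in the image, by compactness
-/

set_option autoImplicit false
set_option linter.unusedSectionVars false

namespace Pool.Agent.Lib.MP_ca71b5_nt

variable {p : ℕ} [Fact p.Prime] {ι : Type} [Fintype ι] [DecidableEq ι]
  {Γ : Type} [Group Γ] [TopologicalSpace Γ] [IsTopologicalGroup Γ] [CompactSpace Γ]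

omit [Fintype ι] [DecidableEq ι] in
private theorem q2_isOpen_small [Finite ι] (t : ℕ) : IsOpen {A : MQ p ι | Small (t : ℤ) A} := by
  have h : {A : MQ p ι | Small (t : ℤ) A} =
      ⋂ i : ι, ⋂ j : ι, {A : MQ p ι | ‖A i j‖ ≤ (p : ℝ) ^ (-(t : ℤ))} := by
    ext A
    simp only [Set.mem_iInter, Set.mem_ofPred_eq]
    rfl
  rw [h]
  refine isOpen_iInter_of_finite fun i => isOpen_iInter_of_finite fun j => ?_
  have h1 : IsOpen (Metric.closedBall (0 : ℚ_[p]) ((p : ℝ) ^ (-(t : ℤ)))) :=
    IsUltrametricDist.isOpen_closedBall _ (zpow_pos (pR_pos p) _).ne'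
  have h2 : Continuous fun A : MQ p ι => A i j := continuous_id.matrix_elem i j
  have h3 := h1.preimage h2
  have e : {A : MQ p ι | ‖A i j‖ ≤ (p : ℝ) ^ (-(t : ℤ))} =
      (fun A : MQ p ι => A i j) ⁻¹' Metric.closedBall (0 : ℚ_[p]) ((p : ℝ) ^ (-(t : ℤ))) := by
    ext A
    rw [Set.mem_preimage, mem_closedBall_zero_iff]
    rfl
  rw [e]
  exact h3

omit [Fintype ι] [DecidableEq ι] in
private theorem q2_isClosed_small (t : ℕ) : IsClosed {A : MQ p ι | Small (t : ℤ) A} := by
  have h : {A : MQ p ι | Small (t : ℤ) A} =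
      ⋂ i : ι, ⋂ j : ι, {A : MQ p ι | ‖A i j‖ ≤ (p : ℝ) ^ (-(t : ℤ))} := by
    ext A
    simp only [Set.mem_iInter, Set.mem_ofPred_eq]
    rfl
  rw [h]
  refine isClosed_iInter fun i => isClosed_iInter fun j => ?_
  exact isClosed_le (continuous_id.matrix_elem i j).norm continuous_const

/-- the kernel of the reduction modulo `p ^ t` -/
theorem exists_open_reduction (ρ : Γ →* GLZ p ι) (hρ : Continuous ρ) (t : ℕ) :
    ∃ W : Subgroup Γ, W.Normal ∧ IsOpen (W : Set Γ) ∧ ρ.ker ≤ W ∧
      ∀ g : Γ, g ∈ W ↔ Small (t : ℤ) (gm (ρ g) - 1) := by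
  let W : Subgroup Γ :=
    { carrier := {g | Small (t : ℤ) (gm (ρ g) - 1)}
      one_mem' := by
        show Small (t : ℤ) (gm (ρ 1) - 1)
        rw [map_one, gm_one, sub_self]
        exact Small.zero _
      mul_mem' := by
        intro a b ha hb
        show Small (t : ℤ) (gm (ρ (a * b)) - 1)
        have h1 : gm (ρ (a * b)) - 1 = gm (ρ a) * (gm (ρ b) - 1) + (gm (ρ a) - 1) := by
          rw [map_mul, gm_mul, mul_sub, mul_one]
          abel
        rw [h1]
        have h2 := (small_gm (ρ a)).mul hb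
        rw [zero_add] at h2
        exact h2.add ha
      inv_mem' := by
        intro a ha
        show Small (t : ℤ) (gm (ρ a⁻¹) - 1)
        have h1 : gm (ρ a⁻¹) - 1 = -(gm (ρ a)⁻¹ * (gm (ρ a) - 1)) := by
          rw [map_inv, mul_sub, mul_one, gm_inv_mul_gm]
          abel
        rw [h1]
        have h2 := (small_gm (ρ a)⁻¹).mul ha
        rw [zero_add] at h2
        exact h2.neg }
  refine ⟨W, ⟨?_⟩, ?_, ?_, fun g => Iff.rfl⟩
  · intro n hn g
    show Small (t : ℤ) (gm (ρ (g * n * g⁻¹)) - 1)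
    have h1 : gm (ρ (g * n * g⁻¹)) - 1 = gm (ρ g) * (gm (ρ n) - 1) * gm (ρ g)⁻¹ := by
      rw [map_mul, map_mul, map_inv, gm_mul, gm_mul, mul_sub, sub_mul, mul_one, gm_mul_gm_inv]
    rw [h1]
    have h2 := ((small_gm (ρ g)).mul hn).mul (small_gm (ρ g)⁻¹)
    rw [zero_add, add_zero] at h2
    exact h2
  · exact (q2_isOpen_small t).preimage ((continuous_gm.comp hρ).sub continuous_const)
  · intro g hg
    show Small (t : ℤ) (gm (ρ g) - 1)
    rw [MonoidHom.mem_ker.1 hg, gm_one, sub_self]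
    exact Small.zero _

omit [TopologicalSpace Γ] [IsTopologicalGroup Γ] [CompactSpace Γ] in
private theorem q2_close (ρ : Γ →* GLZ p ι) {t : ℕ} {W : Subgroup Γ}
    (hW : ∀ g : Γ, g ∈ W ↔ Small (t : ℤ) (gm (ρ g) - 1)) {a b : Γ}
    (h : (a : Γ ⧸ W) = (b : Γ ⧸ W)) : Small (t : ℤ) (gm (ρ b) - gm (ρ a)) := by
  rw [QuotientGroup.eq, hW] at h
  have h1 : gm (ρ b) - gm (ρ a) = gm (ρ a) * (gm (ρ (a⁻¹ * b)) - 1) := by
    rw [map_mul, map_inv, gm_mul, mul_sub, ← mul_assoc, gm_mul_gm_inv, one_mul, mul_one]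
  rw [h1]
  have h2 := (small_gm (ρ a)).mul h
  rwa [zero_add] at h2

private theorem q2_compact (F : Γ → MQ p ι) (hF : Continuous F)
    (h : ∀ t : ℕ, ∃ z, Small (t : ℤ) (F z)) : ∃ z, F z = 0 := by
  have h1 := IsCompact.nonempty_iInter_of_sequence_nonempty_isCompact_isClosed
    (fun t : ℕ => {z | Small (t : ℤ) (F z)})
    (fun t z hz => Small.mono (by push_cast; omega) hz) (fun t => h t)
    (((q2_isClosed_small 0).preimage hF).isCompact)
    (fun t => (q2_isClosed_small t).preimage hF)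
  obtain ⟨z, hz⟩ := h1
  refine ⟨z, eq_zero_of_small fun t => ?_⟩
  exact Set.mem_iInter.1 hz t

theorem pow_props (ρ : Γ →* GLZ p ι) (hρ : Continuous ρ) (hpro : ProP p ρ.ker)
    (hpow : PowQ p ρ.ker) :
    (∀ (k : ℕ) (g h : Γ), ∃ z : Γ, ρ g ^ (p ^ k) * ρ h ^ (p ^ k) = ρ z ^ (p ^ k)) ∧
    (∀ (k : ℕ) (g h : Γ), ∃ z : Γ,
      (ρ g * ρ h) ^ (p ^ k) = ρ g ^ (p ^ k) * ρ h ^ (p ^ k) * ρ z ^ (p ^ (k + 1))) := by
  have hc : Continuous fun z : Γ => gm (ρ z) := continuous_gm.comp hρ
  have hfin : ∀ t : ℕ, ∃ W : Subgroup Γ, ∃ _ : W.Normal,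
      (∀ g : Γ, g ∈ W ↔ Small (t : ℤ) (gm (ρ g) - 1)) ∧ Finite (Γ ⧸ W) ∧
      IsPGroup p (Γ ⧸ W) ∧ PE p (⊤ : Subgroup (Γ ⧸ W)) := by
    intro t
    obtain ⟨W, hn, ho, hk, hW⟩ := exists_open_reduction ρ hρ t
    obtain ⟨k, hk'⟩ := hpro W hn ho hk
    have hp : p ^ k ≠ 0 := pow_ne_zero _ (Fact.out : p.Prime).ne_zero
    have hcard : Nat.card (Γ ⧸ W) = p ^ k := hk'
    have hf : Finite (Γ ⧸ W) := Nat.finite_of_card_ne_zero (by rw [hcard]; exact hp)
    exact ⟨W, hn, hW, hf, IsPGroup.of_card hcard, hpow W ho hk⟩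
  constructor
  · intro k g h
    obtain ⟨z, hz⟩ := q2_compact
      (fun z => gm (ρ g) ^ (p ^ k) * gm (ρ h) ^ (p ^ k) - gm (ρ z) ^ (p ^ k))
      (continuous_const.sub (hc.pow _)) (by
        intro t
        obtain ⟨W, hn, hW, hf, hP, hPE⟩ := hfin t
        obtain ⟨z', hz'⟩ := (powerful_props hP hPE).1 k (g : Γ ⧸ W) (h : Γ ⧸ W)
        obtain ⟨z, rfl⟩ := QuotientGroup.mk_surjective z'
        refine ⟨z, ?_⟩
        have h1 := q2_close ρ hW (a := z ^ (p ^ k)) (b := g ^ (p ^ k) * h ^ (p ^ k)) hz'.symm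
        simpa using h1)
    refine ⟨z, gm_injective ?_⟩
    have := sub_eq_zero.1 hz
    simpa using this
  · intro k g h
    obtain ⟨z, hz⟩ := q2_compact
      (fun z => (gm (ρ g) * gm (ρ h)) ^ (p ^ k) -
        gm (ρ g) ^ (p ^ k) * gm (ρ h) ^ (p ^ k) * gm (ρ z) ^ (p ^ (k + 1)))
      (continuous_const.sub (continuous_const.mul (hc.pow _))) (by
        intro t
        obtain ⟨W, hn, hW, hf, hP, hPE⟩ := hfin t
        obtain ⟨z', hz'⟩ := (powerful_props hP hPE).2 k (g : Γ ⧸ W) (h : Γ ⧸ W)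
        obtain ⟨z, rfl⟩ := QuotientGroup.mk_surjective z'
        refine ⟨z, ?_⟩
        have h1 := q2_close ρ hW (a := g ^ (p ^ k) * h ^ (p ^ k) * z ^ (p ^ (k + 1)))
          (b := (g * h) ^ (p ^ k)) hz'.symm
        simpa using h1)
    refine ⟨z, gm_injective ?_⟩
    have := sub_eq_zero.1 hz
    simpa using this

theorem exists_deep (ρ : Γ →* GLZ p ι) (hρ : Continuous ρ) (hpro : ProP p ρ.ker) :
    ∃ N : ℕ, ∀ g : Γ, Deep 2 N (ρ g) := by
  obtain ⟨W, hn, ho, hk, hW⟩ := exists_open_reduction ρ hρ 2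
  obtain ⟨N, hN⟩ := hpro W hn ho hk
  refine ⟨N, fun g => ?_⟩
  have h1 : g ^ W.index ∈ W := Subgroup.pow_index_mem W g
  rw [hN, hW, map_pow, gm_pow] at h1
  exact h1

end Pool.Agent.Lib.MP_ca71b5_nt
end
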