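import Mathlib
import Pool.Agent.Lib.MP_ca71b5_nt.Base
import Pool.Agent.Lib.MP_ca71b5_nt.LPM
import Pool.Agent.Lib.MP_ca71b5_nt.L1a
import Pool.Agent.Lib.MP_ca71b5_nt.Q2
import Pool.Agent.Lib.MP_ca71b5_nt.KR1

section

section

/-!
# An automorphism of prime order without fixed points, with a root of unity
-/

set_option autoImplicit false

namespace Pool.Agent.Lib.MP_ca71b5_nt

attribute [local instance 100] LieRing.ofAssociativeRing

variable {E : Type*} [Field E] [CharZero E] {L : Type*} [LieRing L] [LieAlgebra E L]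
  [FiniteDimensional E L] [LieAlgebra.IsKilling E L]

omit [FiniteDimensional E L] [LieAlgebra.IsKilling E L] in
/-- induction on the decomposition into eigenvectors of an operator of prime order -/
theorem eigen_induction (l : ℕ) [Fact l.Prime] (ζ : E) (hζ : IsPrimitiveRoot ζ l)
    (T : L ≃ₗ⁅E⁆ L) (hT : ∀ x, T^[l] x = x) (P : L → Prop) (h0 : P 0)
    (hadd : ∀ a b, P a → P b → P (a + b))
    (heig : ∀ (j : ℕ) (y : L), T y = ζ ^ j • y → P y) (y : L) : P y := by
  have hl : l.Prime := Fact.out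
  have hl0 : (l : E) ≠ 0 := Nat.cast_ne_zero.2 hl.ne_zero
  have hζ0 : ζ ≠ 0 := hζ.ne_zero hl.ne_zero
  have hζi : (ζ⁻¹) ^ l = 1 := by rw [inv_pow, hζ.pow_eq_one, inv_one]
  let p : ℕ → L := fun j => ∑ i ∈ Finset.range l, (ζ⁻¹) ^ (i * j) • (T^[i] y)
  have hp : ∀ j, T (p j) = ζ ^ j • p j := by
    intro j
    let f : ℕ → L := fun i => (ζ⁻¹) ^ (i * j) • (T^[i] y)
    have e1 : T (p j) = ζ ^ j • ∑ i ∈ Finset.range l, f (i + 1) := by
      show T (∑ i ∈ Finset.range l, (ζ⁻¹) ^ (i * j) • (T^[i] y)) = _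
      rw [map_sum, Finset.smul_sum]
      refine Finset.sum_congr rfl fun i _ => ?_
      show T ((ζ⁻¹) ^ (i * j) • (T^[i] y)) = ζ ^ j • ((ζ⁻¹) ^ ((i + 1) * j) • (T^[i + 1] y))
      rw [map_smul, Function.iterate_succ_apply', smul_smul]
      congr 1
      have h1 : ζ ^ j * (ζ⁻¹) ^ j = 1 := by rw [← mul_pow, mul_inv_cancel₀ hζ0, one_pow]
      rw [add_mul, one_mul, pow_add, mul_left_comm, h1, mul_one]
    have e2 : ∑ i ∈ Finset.range l, f (i + 1) = ∑ i ∈ Finset.range l, f i := by
      have h1 := Finset.sum_range_succ f l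
      have h2 := Finset.sum_range_succ' f l
      have h3 : f l = f 0 := by
        show (ζ⁻¹) ^ (l * j) • (T^[l] y) = (ζ⁻¹) ^ (0 * j) • (T^[0] y)
        rw [hT, pow_mul, hζi]
        simp
      rw [h1, h3] at h2
      exact (add_right_cancel h2).symm
    rw [e1, e2]
  have hsum : ∑ j ∈ Finset.range l, p j = (l : E) • y := by
    show ∑ j ∈ Finset.range l, ∑ i ∈ Finset.range l, (ζ⁻¹) ^ (i * j) • (T^[i] y) = _
    rw [Finset.sum_comm, Finset.sum_eq_single 0]
    · simp only [Nat.zero_mul, pow_zero, one_smul, Function.iterate_zero, id, Finset.sum_const,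
        Finset.card_range]
      rw [Nat.cast_smul_eq_nsmul]
    · intro i hi hi0
      rw [← Finset.sum_smul]
      have hcop : i.Coprime l := by
        rw [Nat.coprime_comm, hl.coprime_iff_not_dvd]
        intro h
        exact hi0 (Nat.eq_zero_of_dvd_of_lt h (Finset.mem_range.1 hi))
      have hpr : IsPrimitiveRoot ((ζ⁻¹) ^ i) l := hζ.inv.pow_of_coprime i hcop
      have := hpr.geom_sum_eq_zero hl.one_lt
      have h2 : ∑ j ∈ Finset.range l, (ζ⁻¹) ^ (i * j) = 0 := by
        rw [← this]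
        exact Finset.sum_congr rfl fun j _ => by rw [pow_mul]
      rw [h2, zero_smul]
    · intro h
      exact absurd (Finset.mem_range.2 hl.pos) h
  have hy : y = ∑ j ∈ Finset.range l, (l : E)⁻¹ • p j := by
    rw [← Finset.smul_sum, hsum, smul_smul, inv_mul_cancel₀ hl0, one_smul]
  rw [hy]
  refine Finset.sum_induction _ P hadd h0 fun j _ => heig j _ ?_
  rw [map_smul, hp, smul_comm]

theorem eq_zero_of_no_fixed_of_root (l : ℕ) [Fact l.Prime] (ζ : E) (hζ : IsPrimitiveRoot ζ l)
    (T : L ≃ₗ⁅E⁆ L) (hT : ∀ x, T^[l] x = x) (hf : ∀ x : L, T x = x → x = 0) (x : L) : x = 0 := by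
  have hl : l.Prime := Fact.out
  -- elements of degree divisible by l vanish
  have hz : ∀ (j : ℕ) (y : L), l ∣ j → T y = ζ ^ j • y → y = 0 := by
    intro j y hj hy
    apply hf
    rw [hy, (hζ.pow_eq_one_iff_dvd j).2 hj, one_smul]
  have hbr : ∀ (i j : ℕ) (a b : L), T a = ζ ^ i • a → T b = ζ ^ j • b →
      T ⁅a, b⁆ = ζ ^ (i + j) • ⁅a, b⁆ := by
    intro i j a b ha hb
    rw [LieEquiv.map_lie, ha, hb, smul_lie, lie_smul, smul_smul, pow_add]
  -- main claim
  have main : ∀ (d : ℕ) (x : L), T x = ζ ^ d • x → x = 0 := by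
    intro d x hx
    by_cases hd : l ∣ d
    · exact hz d x hd hx
    · have hnil : IsNilpotent (LieAlgebra.ad E L x) := by
        refine ⟨l, LinearMap.ext fun y => ?_⟩
        refine eigen_induction l ζ hζ T hT
          (fun y => ((LieAlgebra.ad E L x) ^ l) y = (0 : Module.End E L) y) ?_ ?_ ?_ y
        · simp
        · intro a b ha hb
          rw [map_add, ha, hb]
          simp
        · intro j y hy
          have hpow : ∀ m : ℕ, T (((LieAlgebra.ad E L x) ^ m) y)
              = ζ ^ (m * d + j) • (((LieAlgebra.ad E L x) ^ m) y) := by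
            intro m
            induction m with
            | zero => simpa using hy
            | succ m ih =>
              rw [pow_succ', Module.End.mul_apply, LieAlgebra.ad_apply, hbr _ _ _ _ hx ih]
              congr 2
              ring
          obtain ⟨m, hm, hdv⟩ : ∃ m < l, l ∣ m * d + j := by
            have hd0 : (d : ZMod l) ≠ 0 := by
              intro h
              exact hd ((ZMod.natCast_eq_zero_iff d l).1 h)
            refine ⟨(-(j : ZMod l) * (d : ZMod l)⁻¹).val, ZMod.val_lt _, ?_⟩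
            rw [← ZMod.natCast_eq_zero_iff]
            push_cast
            rw [ZMod.natCast_zmod_val, mul_assoc, inv_mul_cancel₀ hd0]
            ring
          have h0 := hz _ _ hdv (hpow m)
          have : l = (l - m) + m := by omega
          rw [this, pow_add, Module.End.mul_apply, h0, map_zero]
          simp
      have hB : ∀ y, killingForm E L x y = 0 := by
        refine eigen_induction l ζ hζ T hT (fun y => killingForm E L x y = 0) (by simp) ?_ ?_
        · intro a b ha hb
          rw [map_add, ha, hb, add_zero]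
        · intro j y hy
          by_cases hdj : l ∣ d + j
          · have h0 : ⁅x, y⁆ = 0 := hz _ _ hdj (hbr _ _ _ _ hx hy)
            have hcomm : Commute (LieAlgebra.ad E L x) (LieAlgebra.ad E L y) := by
              have h1 : LieAlgebra.ad E L ⁅x, y⁆ = 0 := by rw [h0, map_zero]
              rw [LieHom.map_lie, LieRing.of_associative_ring_bracket, sub_eq_zero] at h1
              exact h1
            rw [killingForm_apply_apply]
            have h2 : IsNilpotent ((LieAlgebra.ad E L x) * (LieAlgebra.ad E L y)) :=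
              hcomm.isNilpotent_mul_right hnil
            exact (LinearMap.isNilpotent_trace_of_isNilpotent h2).eq_zero
          · have h1 : killingForm E L (T x) (T y) = killingForm E L x y :=
              LieAlgebra.killingForm_of_equiv_apply T x y
            rw [hx, hy, map_smul, map_smul, LinearMap.smul_apply, smul_smul, ← pow_add,
              smul_eq_mul] at h1
            have h2 : ζ ^ (j + d) ≠ 1 := by
              intro h
              rw [add_comm] at h
              exact hdj ((hζ.pow_eq_one_iff_dvd _).1 h)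
            have h3 : (ζ ^ (j + d) - 1) * killingForm E L x y = 0 := by
              rw [sub_mul, one_mul, h1, sub_self]
            rcases mul_eq_zero.1 h3 with h | h
            · exact absurd (sub_eq_zero.1 h) h2
            · exact h
      have h4 : x ∈ LinearMap.ker (killingForm E L) := by
        rw [LinearMap.mem_ker]
        exact LinearMap.ext hB
      rw [LieAlgebra.IsKilling.ker_killingForm_eq_bot] at h4
      exact h4
  exact eigen_induction l ζ hζ T hT (fun y => y = 0) rfl
    (by rintro a b rfl rfl; exact add_zero 0) main x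

end Pool.Agent.Lib.MP_ca71b5_nt
end

section

/-!
# Base change of automorphisms and of the Killing form
-/

set_option autoImplicit false

namespace Pool.Agent.Lib.MP_ca71b5_nt

open TensorProduct

variable {k : Type*} [Field k] [CharZero k] {L : Type*} [LieRing L] [LieAlgebra k L]
  [FiniteDimensional k L] {E : Type*} [Field E] [Algebra k E]

theorem isKilling_baseChange [LieAlgebra.IsKilling k L] : LieAlgebra.IsKilling E (E ⊗[k] L) := by
  classical
  refine ⟨?_⟩
  rw [eq_bot_iff]
  intro y hy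
  rw [LieIdeal.mem_killingCompl] at hy
  have hy' : ∀ z : E ⊗[k] L, killingForm E (E ⊗[k] L) z y = 0 := fun z => hy z trivial
  have hk : killingForm E (E ⊗[k] L) = LinearMap.BilinForm.baseChange E (killingForm k L) :=
    LieModule.traceForm_baseChange k L L E
  let b := Module.finBasis k L
  have hnd : (killingForm k L).Nondegenerate := LieAlgebra.IsKilling.killingForm_nondegenerate k L
  let b' := LinearMap.BilinForm.dualBasis (killingForm k L) hnd b
  let bE := Algebra.TensorProduct.basis E b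
  rw [LieSubmodule.mem_bot]
  have hrepr : ∀ i, bE.repr y i = 0 := by
    intro i
    have h1 := hy' (1 ⊗ₜ b' i)
    rw [hk] at h1
    rw [← bE.sum_repr y, map_sum] at h1
    simp only [map_smul, smul_eq_mul] at h1
    rw [Finset.sum_eq_single i] at h1
    · have h2 : bE i = 1 ⊗ₜ b i := Algebra.TensorProduct.basis_apply b i
      rw [h2, LinearMap.BilinForm.baseChange_tmul,
        LinearMap.BilinForm.apply_dualBasis_left] at h1
      simpa using h1
    · intro j _ hji
      have h2 : bE j = 1 ⊗ₜ b j := Algebra.TensorProduct.basis_apply b j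
      rw [h2, LinearMap.BilinForm.baseChange_tmul,
        LinearMap.BilinForm.apply_dualBasis_left, if_neg hji]
      simp
    · intro h; exact absurd (Finset.mem_univ i) h
  apply bE.repr.injective
  ext i
  rw [hrepr i]; simp

theorem exists_auto_baseChange (T : L ≃ₗ⁅k⁆ L) :
    ∃ T' : (E ⊗[k] L) ≃ₗ⁅E⁆ (E ⊗[k] L), (∀ (c : E) (x : L), T' (c ⊗ₜ[k] x) = c ⊗ₜ[k] T x) ∧
      Module.finrank E (fixS T') = Module.finrank k (fixS T) := by
  let e : (E ⊗[k] L) ≃ₗ[E] (E ⊗[k] L) := LinearEquiv.baseChange k E L L T.toLinearEquiv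
  have he : ∀ (c : E) (x : L), e (c ⊗ₜ[k] x) = c ⊗ₜ[k] T x := fun c x => rfl
  have hlie : ∀ x y : E ⊗[k] L, e ⁅x, y⁆ = ⁅e x, e y⁆ := by
    intro x y
    induction x using TensorProduct.induction_on with
    | zero => simp
    | add x₁ x₂ h₁ h₂ => rw [add_lie, map_add, h₁, h₂, map_add, add_lie]
    | tmul c x =>
      induction y using TensorProduct.induction_on with
      | zero => simp
      | add y₁ y₂ h₁ h₂ => rw [lie_add, map_add, h₁, h₂, map_add, lie_add]
      | tmul d y =>
        rw [LieAlgebra.ExtendScalars.bracket_tmul, he, he, he,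
          LieAlgebra.ExtendScalars.bracket_tmul, LieEquiv.map_lie]
  let T' : (E ⊗[k] L) ≃ₗ⁅E⁆ (E ⊗[k] L) := { e with map_lie' := fun {x y} => hlie x y }
  have hT' : ∀ y, T' y = e y := fun y => rfl
  refine ⟨T', fun c x => he c x, ?_⟩
  let f : L →ₗ[k] L := T.toLinearEquiv.toLinearMap - LinearMap.id
  have hf : LinearMap.ker f = fixS T := by
    ext x
    rw [LinearMap.mem_ker, mem_fixS, LinearMap.sub_apply, sub_eq_zero]
    rfl
  let g : E ⊗[k] (LinearMap.ker f) →ₗ[E] E ⊗[k] L := (LinearMap.ker f).subtype.baseChange E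
  have hg : Function.Injective g := by
    have := Module.Flat.lTensor_preserves_injective_linearMap (M := E) (LinearMap.ker f).subtype
      (Submodule.injective_subtype _)
    exact this
  have hex : Function.Exact ((LinearMap.ker f).subtype.lTensor E) (f.lTensor E) :=
    Module.Flat.lTensor_exact E (LinearMap.exact_subtype_ker_map f)
  have hfe : ∀ y, f.lTensor E y = e y - y := by
    intro y
    induction y using TensorProduct.induction_on with
    | zero => simp
    | add y₁ y₂ h₁ h₂ => rw [map_add, h₁, h₂, map_add]; abel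
    | tmul c x =>
      rw [LinearMap.lTensor_tmul, he, ← TensorProduct.tmul_sub]
      rfl
  have hrange : LinearMap.range g = fixS T' := by
    ext y
    rw [mem_fixS, hT', ← sub_eq_zero, ← hfe, hex y]
    rfl
  rw [← hrange, LinearMap.finrank_range_of_inj hg, Module.finrank_baseChange, hf]

omit [FiniteDimensional k L] in
theorem iterate_baseChange (T : L ≃ₗ⁅k⁆ L) (T' : (E ⊗[k] L) ≃ₗ⁅E⁆ (E ⊗[k] L))
    (h : ∀ (c : E) (x : L), T' (c ⊗ₜ[k] x) = c ⊗ₜ[k] T x) (l : ℕ) (hT : ∀ x, T^[l] x = x)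
    (y : E ⊗[k] L) : T'^[l] y = y := by
  have key : ∀ (m : ℕ) (c : E) (x : L), T'^[m] (c ⊗ₜ[k] x) = c ⊗ₜ[k] (T^[m] x) := by
    intro m
    induction m with
    | zero => intro c x; rfl
    | succ m ih =>
      intro c x
      rw [Function.iterate_succ_apply, h, ih, Function.iterate_succ_apply]
  have hz : ∀ m : ℕ, T'^[m] 0 = 0 := by
    intro m
    induction m with
    | zero => rfl
    | succ m ih => rw [Function.iterate_succ_apply, map_zero, ih]
  have hadd : ∀ (m : ℕ) (u v : E ⊗[k] L), T'^[m] (u + v) = T'^[m] u + T'^[m] v := by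
    intro m
    induction m with
    | zero => intro u v; rfl
    | succ m ih =>
      intro u v
      rw [Function.iterate_succ_apply, map_add, ih, Function.iterate_succ_apply,
        Function.iterate_succ_apply]
  induction y using TensorProduct.induction_on with
  | zero => exact hz l
  | add y₁ y₂ h₁ h₂ => rw [hadd, h₁, h₂]
  | tmul c x => rw [key, hT]

/-- an automorphism of prime order of a non-zero semisimple Lie algebra has a non-zero fixed
point -/
theorem eq_zero_of_no_fixed [LieAlgebra.IsKilling k L] (l : ℕ) [Fact l.Prime] (T : L ≃ₗ⁅k⁆ L)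
    (hT : ∀ x, T^[l] x = x) (hf : ∀ x : L, T x = x → x = 0) (x : L) : x = 0 := by
  let E := AlgebraicClosure k
  haveI : CharZero E := charZero_of_injective_algebraMap (algebraMap k E).injective
  haveI : LieAlgebra.IsKilling E (E ⊗[k] L) := isKilling_baseChange
  obtain ⟨T', hT', hfin⟩ := exists_auto_baseChange (E := E) T
  have hl : (l : E) ≠ 0 := by
    exact_mod_cast (Fact.out : l.Prime).ne_zero
  haveI : NeZero (l : E) := ⟨hl⟩
  obtain ⟨ζ, hζ⟩ := HasEnoughRootsOfUnity.exists_primitiveRoot E l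
  have h0 : Module.finrank k (fixS T) = 0 := by
    have : fixS T = ⊥ := by
      rw [eq_bot_iff]
      intro z hz
      exact hf z hz
    rw [this, finrank_bot]
  rw [h0] at hfin
  have hbot : fixS T' = ⊥ := Submodule.finrank_eq_zero.mp hfin
  have hf' : ∀ y : E ⊗[k] L, T' y = y → y = 0 := by
    intro y hy
    have : y ∈ fixS T' := hy
    rw [hbot] at this
    exact this
  have h1 := eq_zero_of_no_fixed_of_root l ζ hζ T' (iterate_baseChange T T' hT' l hT) hf'
    (1 ⊗ₜ x)
  have hinj : Function.Injective (TensorProduct.mk k E L 1) :=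
    Module.FaithfullyFlat.tensorProduct_mk_injective (A := k) (B := E) L
  apply hinj
  simpa using h1

end Pool.Agent.Lib.MP_ca71b5_nt
end
end

section

/-!
# The Killing form on Engel subalgebras
-/

set_option autoImplicit false

namespace Pool.Agent.Lib.MP_ca71b5_nt

variable {k : Type*} [Field k] [CharZero k] {L : Type*} [LieRing L] [LieAlgebra k L]
  [FiniteDimensional k L] [LieAlgebra.IsKilling k L]

theorem killing_engel_nondeg (a x : L) (hx : x ∈ LieSubalgebra.engel k a)
    (h : ∀ y ∈ LieSubalgebra.engel k a, killingForm k L x y = 0) : x = 0 := by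
  -- skew-adjointness of powers of `ad a`
  have hskew : ∀ (n : ℕ) (u v : L), killingForm k L u (((LieAlgebra.ad k L a) ^ n) v) =
      (-1) ^ n * killingForm k L (((LieAlgebra.ad k L a) ^ n) u) v := by
    intro n
    induction n with
    | zero => intro u v; simp
    | succ n ih =>
      intro u v
      have h0 : ((LieAlgebra.ad k L a) ^ (n + 1)) v =
          LieAlgebra.ad k L a (((LieAlgebra.ad k L a) ^ n) v) := by
        rw [pow_succ', Module.End.mul_apply]
      have h2 : ((LieAlgebra.ad k L a) ^ (n + 1)) u =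
          ((LieAlgebra.ad k L a) ^ n) (LieAlgebra.ad k L a u) := by
        rw [pow_succ, Module.End.mul_apply]
      rw [h0, h2]
      have h1 : killingForm k L u (LieAlgebra.ad k L a (((LieAlgebra.ad k L a) ^ n) v)) =
          - killingForm k L (LieAlgebra.ad k L a u) (((LieAlgebra.ad k L a) ^ n) v) := by
        rw [LieAlgebra.ad_apply, LieAlgebra.ad_apply]
        have := LieModule.traceForm_apply_lie_apply' k L L a u (((LieAlgebra.ad k L a) ^ n) v)
        change LieModule.traceForm k L L u _ = - LieModule.traceForm k L L _ _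
        rw [this, neg_neg]
      rw [h1, ih]
      ring
  obtain ⟨m, hm⟩ := (LieSubalgebra.mem_engel_iff k a x).1 hx
  obtain ⟨n0, hn0⟩ := Filter.eventually_atTop.1
    (LinearMap.eventually_isCompl_ker_pow_range_pow (LieAlgebra.ad k L a))
  have hc := hn0 (max n0 m) (le_max_left _ _)
  set n := max n0 m with hn
  have hxn : ((LieAlgebra.ad k L a) ^ n) x = 0 := by
    have h1 : n = (n - m) + m := (Nat.sub_add_cancel (le_max_right _ _)).symm
    rw [h1, pow_add, Module.End.mul_apply, hm, map_zero]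
  have hall : ∀ y : L, killingForm k L x y = 0 := by
    intro y
    have hy : y ∈ LinearMap.ker ((LieAlgebra.ad k L a) ^ n) ⊔
        LinearMap.range ((LieAlgebra.ad k L a) ^ n) := by
      rw [hc.sup_eq_top]; trivial
    obtain ⟨y1, hy1, y2, hy2, rfl⟩ := Submodule.mem_sup.1 hy
    obtain ⟨z, rfl⟩ := hy2
    rw [map_add, h y1 ((LieSubalgebra.mem_engel_iff k a y1).2 ⟨n, hy1⟩), hskew, hxn]
    simp
  have := (LieAlgebra.IsKilling.killingForm_nondegenerate k L).1 x hall
  exact this

end Pool.Agent.Lib.MP_ca71b5_nt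
end

section

section

/-!
# Base change of Cartan subalgebras
-/

set_option autoImplicit false

namespace Pool.Agent.Lib.MP_ca71b5_nt

open TensorProduct

variable {k : Type*} [Field k] [CharZero k] {L : Type*} [LieRing L] [LieAlgebra k L]
  [FiniteDimensional k L] [LieAlgebra.IsKilling k L] {E : Type*} [Field E] [Algebra k E]

theorem L5_ker (f : L →ₗ[k] L) :
    LinearMap.ker (f.baseChange E) = (LinearMap.ker f).baseChange E :=
  Module.Flat.ker_lTensor_eq E E f

theorem L5_ad (a : L) (n : ℕ) : (LieAlgebra.ad E (E ⊗[k] L) ((1 : E) ⊗ₜ[k] a)) ^ n =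
    ((LieAlgebra.ad k L a) ^ n).baseChange E := by
  have h1 : LieAlgebra.ad E (E ⊗[k] L) ((1 : E) ⊗ₜ[k] a) = (LieAlgebra.ad k L a).baseChange E :=
    LieModule.toEnd_baseChange (R := k) (A := E) (L := L) (M := L) a
  rw [h1, LinearMap.baseChange_pow]

theorem engel_baseChange (a : L) (y : E ⊗[k] L) :
    y ∈ LieSubalgebra.engel E ((1 : E) ⊗ₜ[k] a) ↔
      y ∈ (LieSubalgebra.engel k a).toSubmodule.baseChange E := by
  constructor
  · intro hy
    obtain ⟨n, hn⟩ := (LieSubalgebra.mem_engel_iff E _ y).1 hy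
    rw [L5_ad] at hn
    have h1 : y ∈ LinearMap.ker (((LieAlgebra.ad k L a) ^ n).baseChange E) := hn
    rw [L5_ker] at h1
    have h2 : LinearMap.ker ((LieAlgebra.ad k L a) ^ n) ≤ (LieSubalgebra.engel k a).toSubmodule := by
      intro x hx
      exact (LieSubalgebra.mem_engel_iff k a x).2 ⟨n, hx⟩
    exact Submodule.baseChange_mono E h2 h1
  · intro hy
    rw [Submodule.baseChange_eq_span] at hy
    have hle : Submodule.span E ((LieSubalgebra.engel k a).toSubmodule.map (TensorProduct.mk k E L 1) :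
        Set (E ⊗[k] L)) ≤ (LieSubalgebra.engel E ((1 : E) ⊗ₜ[k] a)).toSubmodule := by
      rw [Submodule.span_le]
      rintro _ ⟨x, hx, rfl⟩
      obtain ⟨n, hn⟩ := (LieSubalgebra.mem_engel_iff k a x).1 hx
      refine (LieSubalgebra.mem_engel_iff E _ _).2 ⟨n, ?_⟩
      rw [L5_ad]
      change (((LieAlgebra.ad k L a) ^ n).baseChange E) ((1 : E) ⊗ₜ[k] x) = 0
      rw [LinearMap.baseChange_tmul, hn, TensorProduct.tmul_zero]
    exact hle hy

theorem cartan_baseChange (a : L) (ha : (LieSubalgebra.engel k a).IsCartanSubalgebra) :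
    (LieSubalgebra.engel E ((1 : E) ⊗ₜ[k] a)).IsCartanSubalgebra := by
  have hab : IsLieAbelian (LieSubalgebra.engel k a) := inferInstance
  have hab' : ∀ x ∈ LieSubalgebra.engel k a, ∀ y ∈ LieSubalgebra.engel k a, ⁅x, y⁆ = 0 := by
    intro x hx y hy
    have h1 := hab.trivial (⟨x, hx⟩ : LieSubalgebra.engel k a) (⟨y, hy⟩ : LieSubalgebra.engel k a)
    exact congrArg Subtype.val h1
  have key : ∀ y ∈ (LieSubalgebra.engel k a).toSubmodule.baseChange E,
      ∀ z ∈ (LieSubalgebra.engel k a).toSubmodule.baseChange E, ⁅y, z⁆ = 0 := by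
    intro y hy z hz
    rw [Submodule.baseChange_eq_span] at hy hz
    induction hy using Submodule.span_induction with
    | mem y hy =>
      obtain ⟨x, hx, rfl⟩ := hy
      induction hz using Submodule.span_induction with
      | mem z hz =>
        obtain ⟨x', hx', rfl⟩ := hz
        change ⁅(1 : E) ⊗ₜ[k] x, (1 : E) ⊗ₜ[k] x'⁆ = 0
        rw [LieAlgebra.ExtendScalars.bracket_tmul, hab' x hx x' hx', TensorProduct.tmul_zero]
      | zero => exact lie_zero _
      | add u v _ _ hu hv => rw [lie_add, hu, hv, add_zero]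
      | smul c u _ hu => rw [lie_smul, hu, smul_zero]
    | zero => exact zero_lie _
    | add u v _ _ hu hv => rw [add_lie, hu, hv, add_zero]
    | smul c u _ hu => rw [smul_lie, hu, smul_zero]
  have habE : IsLieAbelian (LieSubalgebra.engel E ((1 : E) ⊗ₜ[k] a)) := by
    refine ⟨fun y z => ?_⟩
    apply Subtype.ext
    exact key y ((engel_baseChange a _).1 y.2) z ((engel_baseChange a _).1 z.2)
  exact ⟨inferInstance, LieSubalgebra.normalizer_engel E _⟩

end Pool.Agent.Lib.MP_ca71b5_nt
end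

section

/-!
# The Frobenius on roots of unity
-/

set_option autoImplicit false

namespace Pool.Agent.Lib.MP_ca71b5_nt

open Polynomial

theorem exists_frobenius (p l : ℕ) [Fact p.Prime] [Fact l.Prime] (hpl : p ≠ l) :
    ∃ (ζ : AlgebraicClosure ℚ_[p]) (σ : AlgebraicClosure ℚ_[p] ≃ₐ[ℚ_[p]] AlgebraicClosure ℚ_[p]),
      IsPrimitiveRoot ζ l ∧ σ ζ = ζ ^ p := by
  have hl0 : l ≠ 0 := (Fact.out : l.Prime).ne_zero
  have hlz : NeZero (l : AlgebraicClosure ℚ_[p]) := ⟨by exact_mod_cast hl0⟩
  obtain ⟨ζ, hζ⟩ := HasEnoughRootsOfUnity.exists_primitiveRoot (AlgebraicClosure ℚ_[p]) l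
  have hroot : aeval ζ ((X : ℤ_[p][X]) ^ l - 1) = 0 := by
    simp [hζ.pow_eq_one]
  have hint : IsIntegral ℤ_[p] ζ :=
    ⟨X ^ l - 1, monic_X_pow_sub_C 1 hl0, by
      have := hroot
      rwa [aeval_def] at this⟩
  have htf : Module.IsTorsionFree ℤ_[p] (AlgebraicClosure ℚ_[p]) := by
    rw [Module.isTorsionFree_iff_algebraMap_injective,
      IsScalarTower.algebraMap_eq ℤ_[p] ℚ_[p] (AlgebraicClosure ℚ_[p])]
    exact (algebraMap ℚ_[p] (AlgebraicClosure ℚ_[p])).injective.comp
      (IsFractionRing.injective ℤ_[p] ℚ_[p])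
  obtain ⟨h, hh⟩ := minpoly.isIntegrallyClosed_dvd hint hroot
  have hmon : (minpoly ℤ_[p] ζ).Monic := minpoly.monic hint
  have hkey : aeval (ζ ^ p) (minpoly ℤ_[p] ζ) = 0 := by
    by_contra hne
    have h1 : aeval (ζ ^ p) ((X : ℤ_[p][X]) ^ l - 1) = 0 := by
      have : (ζ ^ p) ^ l = 1 := by rw [← pow_mul, mul_comm, pow_mul, hζ.pow_eq_one, one_pow]
      simp [this]
    rw [hh, map_mul] at h1
    have h2 : aeval (ζ ^ p) h = 0 := (mul_eq_zero.1 h1).resolve_left hne
    have h3 : aeval ζ (expand ℤ_[p] p h) = 0 := by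
      rw [expand_aeval]
      exact h2
    have h4 : minpoly ℤ_[p] ζ ∣ expand ℤ_[p] p h := minpoly.isIntegrallyClosed_dvd hint h3
    have h5 : (minpoly ℤ_[p] ζ).map (PadicInt.toZMod (p := p)) ∣
        (h.map (PadicInt.toZMod (p := p))) ^ p := by
      rw [← ZMod.expand_card, ← map_expand]
      exact Polynomial.map_dvd _ h4
    have h6 : (X : (ZMod p)[X]) ^ l - 1 = (minpoly ℤ_[p] ζ).map (PadicInt.toZMod (p := p)) *
        h.map (PadicInt.toZMod (p := p)) := by
      rw [← Polynomial.map_mul, ← hh]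
      simp
    have hlp : (l : ZMod p) ≠ 0 := by
      intro h0
      rw [ZMod.natCast_eq_zero_iff] at h0
      exact hpl ((Nat.prime_dvd_prime_iff_eq Fact.out Fact.out).1 h0)
    have hsf : Squarefree ((X : (ZMod p)[X]) ^ l - 1) :=
      (separable_X_pow_sub_C 1 hlp one_ne_zero).squarefree
    rw [h6, squarefree_mul_iff] at hsf
    have h7 : IsUnit ((minpoly ℤ_[p] ζ).map (PadicInt.toZMod (p := p))) :=
      (hsf.1.pow_right (n := p)).isUnit_of_dvd h5
    have h8 := degree_eq_zero_of_isUnit h7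
    rw [hmon.degree_map] at h8
    exact (minpoly.degree_pos hint).ne' h8
  have hintQ : IsIntegral ℚ_[p] ζ := hint.tower_top
  have hconj : IsConjRoot ℚ_[p] ζ (ζ ^ p) := by
    apply isConjRoot_of_aeval_eq_zero hintQ
    rw [minpoly.isIntegrallyClosed_eq_field_fractions' ℚ_[p] hint, aeval_map_algebraMap]
    exact hkey
  obtain ⟨σ, hσ⟩ := hconj.symm.exists_algEquiv
  exact ⟨ζ, σ, hζ, hσ⟩

end Pool.Agent.Lib.MP_ca71b5_nt
end

section

/-!
# A generator of the Galois group of the p-th roots of unity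
-/

set_option autoImplicit false

namespace Pool.Agent.Lib.MP_ca71b5_nt

open Polynomial

theorem cyclotomic_irreducible_padic (p : ℕ) [hp : Fact p.Prime] :
    Irreducible (cyclotomic p ℚ_[p]) := by
  have h0 := cyclotomic_comp_X_add_one_isEisensteinAt p
  set f0 : ℤ[X] := (cyclotomic p ℤ).comp (X + 1) with hf0
  set f : ℤ_[p][X] := f0.map (Int.castRingHom ℤ_[p]) with hf
  have hf' : f = taylor 1 (cyclotomic p ℤ_[p]) := by
    rw [hf, hf0, map_comp, map_cyclotomic, taylor_apply]
    simp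
  have hmon0 : f0.Monic := by
    rw [hf0, show (X + 1 : ℤ[X]) = X + C 1 by simp]
    refine (cyclotomic.monic p ℤ).comp (monic_X_add_C 1) fun h => ?_
    rw [natDegree_X_add_C] at h
    exact zero_ne_one h.symm
  have hmon : f.Monic := hmon0.map _
  have hdeg : f.natDegree = p - 1 := by
    rw [hf', natDegree_taylor, natDegree_cyclotomic, Nat.totient_prime hp.out]
  have hdeg0 : f0.natDegree = f.natDegree := (hmon0.natDegree_map _).symm
  have hprime : Prime (p : ℤ_[p]) := PadicInt.prime_p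
  have hpI : (Ideal.span {(p : ℤ_[p])}).IsPrime :=
    (Ideal.span_singleton_prime hprime.ne_zero).2 hprime
  have hE : f.IsEisensteinAt (Ideal.span {(p : ℤ_[p])}) := by
    refine Monic.isEisensteinAt_of_mem_of_notMem hmon hpI.ne_top (fun {i} hi => ?_) ?_
    · have h1 : f0.coeff i ∈ (Ideal.span {(p : ℤ)} : Ideal ℤ) := h0.mem (by rw [hdeg0]; exact hi)
      rw [Ideal.mem_span_singleton] at h1 ⊢
      rw [hf, coeff_map]
      have h2 := map_dvd (Int.castRingHom ℤ_[p]) h1
      simpa using h2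
    · have h1 : f.coeff 0 = (p : ℤ_[p]) := by
        rw [hf', coeff_zero_eq_eval_zero, taylor_eval, zero_add, eval_one_cyclotomic_prime]
      rw [h1, Ideal.span_singleton_pow, Ideal.mem_span_singleton]
      intro h2
      have h3 : (p : ℤ_[p]) * (p : ℤ_[p]) ∣ (p : ℤ_[p]) * 1 := by
        rw [mul_one, ← pow_two]; exact h2
      have h4 := (mul_dvd_mul_iff_left hprime.ne_zero).1 h3
      exact hprime.not_unit (isUnit_of_dvd_one h4)
  have hpos : 0 < f.natDegree := by
    rw [hdeg]; have := hp.out.two_le; omega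
  have hirr : Irreducible f := hE.irreducible hpI hmon.isPrimitive hpos
  have hirr2 : Irreducible (cyclotomic p ℤ_[p]) := by
    rw [hf'] at hirr
    exact (MulEquiv.irreducible_iff (taylorEquiv (1 : ℤ_[p]))).1 hirr
  have h5 := ((cyclotomic.monic p ℤ_[p]).irreducible_iff_irreducible_map_fraction_map
    (K := ℚ_[p])).1 hirr2
  rwa [map_cyclotomic] at h5

theorem exists_generator (p : ℕ) [Fact p.Prime] :
    ∃ (a : ℕ) (ζ : AlgebraicClosure ℚ_[p])
      (σ : AlgebraicClosure ℚ_[p] ≃ₐ[ℚ_[p]] AlgebraicClosure ℚ_[p]),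
      IsPrimitiveRoot ζ p ∧ σ ζ = ζ ^ a ∧ orderOf (a : ZMod p) = p - 1 := by
  have hp : p.Prime := Fact.out
  have hp0 : p ≠ 0 := hp.ne_zero
  have hlz : NeZero (p : AlgebraicClosure ℚ_[p]) := ⟨by exact_mod_cast hp0⟩
  obtain ⟨ζ, hζ⟩ := HasEnoughRootsOfUnity.exists_primitiveRoot (AlgebraicClosure ℚ_[p]) p
  obtain ⟨g, hg⟩ := IsCyclic.exists_generator (α := (ZMod p)ˣ)
  have hord : orderOf g = p - 1 := by
    rw [orderOf_eq_card_of_forall_mem_zpowers hg, Nat.card_eq_fintype_card, ZMod.card_units]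
  set a : ℕ := (g : ZMod p).val with ha
  have hag : ((a : ℕ) : ZMod p) = g := by rw [ha, ZMod.natCast_val, ZMod.cast_id]
  have hcop : a.Coprime p := (ZMod.isUnit_iff_coprime a p).1 (by rw [hag]; exact g.isUnit)
  have hζa : IsPrimitiveRoot (ζ ^ a) p := hζ.pow_of_coprime a hcop
  have hirr := cyclotomic_irreducible_padic p
  have hmin : cyclotomic p ℚ_[p] = minpoly ℚ_[p] ζ :=
    minpoly.eq_of_irreducible_of_monic hirr (by
      rw [aeval_def, ← eval_map, map_cyclotomic]
      exact hζ.isRoot_cyclotomic hp.pos) (cyclotomic.monic p ℚ_[p])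
  have hint : IsIntegral ℚ_[p] ζ := Algebra.IsIntegral.isIntegral ζ
  have hconj : IsConjRoot ℚ_[p] ζ (ζ ^ a) := by
    apply isConjRoot_of_aeval_eq_zero hint
    rw [← hmin, aeval_def, ← eval_map, map_cyclotomic]
    exact hζa.isRoot_cyclotomic hp.pos
  obtain ⟨σ, hσ⟩ := hconj.symm.exists_algEquiv
  refine ⟨a, ζ, σ, hζ, hσ, ?_⟩
  rw [hag, orderOf_units, hord]

end Pool.Agent.Lib.MP_ca71b5_nt
end

section

/-!
# Automorphisms trivial on a Cartan subalgebra
-/

set_option autoImplicit false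
set_option linter.unusedSectionVars false

namespace Pool.Agent.Lib.MP_ca71b5_nt

variable {E : Type*} [Field E] [CharZero E] [IsAlgClosed E] {L : Type*} [LieRing L]
  [LieAlgebra E L] [FiniteDimensional E L] [LieAlgebra.IsKilling E L]
  (H : LieSubalgebra E L) [H.IsCartanSubalgebra]

open LieAlgebra LieModule LieAlgebra.IsKilling

/-- fixed vectors of an automorphism trivial on `H` -/
private def fixL (T : L ≃ₗ⁅E⁆ L) (hTH : ∀ x ∈ H, T x = x) : LieSubmodule E H L where
  carrier := {x | T x = x}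
  add_mem' := fun {x y} hx hy => by
    show T (x + y) = x + y
    rw [map_add, hx, hy]
  zero_mem' := map_zero T
  smul_mem' := fun c x hx => by
    show T (c • x) = c • x
    rw [map_smul, hx]
  lie_mem := fun {h x} hx => by
    show T ⁅(h : L), x⁆ = ⁅(h : L), x⁆
    rw [LieEquiv.map_lie, hTH _ h.2, hx]

private theorem exists_moved (T : L ≃ₗ⁅E⁆ L) (hTH : ∀ x ∈ H, T x = x) (hT1 : ∃ x, T x ≠ x) :
    ∃ α : Weight E H L, α.IsNonZero ∧ ∃ x ∈ rootSpace H α, T x ≠ x := by
  by_contra hcon
  push Not at hcon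
  obtain ⟨x, hx⟩ := hT1
  apply hx
  have h1 : (⊤ : LieSubmodule E H L) ≤ fixL H T hTH := by
    rw [← cartan_sup_iSup_rootSpace_eq_top (H := H)]
    refine sup_le (fun y hy => hTH y hy) ?_
    refine iSup_le fun α => iSup_le fun hα => fun y hy => ?_
    exact hcon α hα y hy
  exact h1 (LieSubmodule.mem_top x)

private theorem rootSpace_stable (T : L ≃ₗ⁅E⁆ L) (hTH : ∀ x ∈ H, T x = x)
    (α : Weight E H L) {x : L} (hx : x ∈ rootSpace H α) : T x ∈ rootSpace H α := by
  apply weightSpace_le_genWeightSpace L α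
  rw [mem_weightSpace]
  intro h
  have h1 := lie_eq_smul_of_mem_rootSpace hx h
  have h2 : ⁅(h : L), x⁆ = α h • x := h1
  show ⁅(h : L), T x⁆ = α h • T x
  rw [← map_smul, ← h2, LieEquiv.map_lie, hTH _ h.2]

private theorem iter_T (T : L ≃ₗ⁅E⁆ L) {x : L} {μ : E} (h : T x = μ • x) (n : ℕ) :
    T^[n] x = μ ^ n • x := by
  induction n with
  | zero => simp
  | succ n ih => rw [Function.iterate_succ_apply', ih, map_smul, h, smul_smul, pow_succ]

private theorem iter_S (σ : E ≃+* E) (S : L ≃+ L)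
    (hS1 : ∀ (c : E) (x : L), S (c • x) = σ c • S x) (c : E) (x : L) (n : ℕ) :
    S^[n] (c • x) = (σ^[n] c) • S^[n] x := by
  induction n with
  | zero => rfl
  | succ n ih => rw [Function.iterate_succ_apply', ih, hS1, Function.iterate_succ_apply',
      Function.iterate_succ_apply']

private theorem iter_σ (σ : E ≃+* E) {ζ : E} {p : ℕ} (hσ : σ ζ = ζ ^ p) (j n : ℕ) :
    σ^[n] (ζ ^ j) = ζ ^ (j * p ^ n) := by
  induction n with
  | zero => simp
  | succ n ih =>
    rw [Function.iterate_succ_apply', ih, map_pow, hσ, ← pow_mul]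
    congr 1
    ring

theorem exists_matrix_of_trivial (p l : ℕ) [Fact l.Prime] (T : L ≃ₗ⁅E⁆ L)
    (hTl : ∀ x, T^[l] x = x) (hTH : ∀ x ∈ H, T x = x) (hT1 : ∃ x, T x ≠ x) (σ : E ≃+* E)
    (ζ : E) (hζ : IsPrimitiveRoot ζ l) (hσ : σ ζ = ζ ^ p) (S : L ≃+ L)
    (hS1 : ∀ (c : E) (x : L), S (c • x) = σ c • S x) (hS2 : ∀ x y : L, S ⁅x, y⁆ = ⁅S x, S y⁆)
    (hST : ∀ x, S (T x) = T (S x)) (hSH : ∀ x ∈ H, S x ∈ H) (hSH' : ∀ x ∈ H, S.symm x ∈ H) :
    ∃ M : Matrix (Fin (Module.finrank E H)) (Fin (Module.finrank E H)) ℤ,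
      IsOfFinOrder M ∧ orderOf (p : ZMod l) ∣ orderOf M := by
  classical
  obtain ⟨π, hπ1, hπ2⟩ := exists_weight_map H σ S hS1 hS2 hSH hSH'
  obtain ⟨b, hb1, hb2⟩ := exists_root_basis (E := E) H
  choose c hc using hb2
  choose a ha0 ha using hb1
  have hl : l.Prime := Fact.out
  have huniq : ∀ d d' : Fin (Module.finrank E H) → ℤ,
      (∀ h : H, ∑ j, (d j : E) * b j h = ∑ j, (d' j : E) * b j h) → d = d' := by
    intro d d' h
    have h1 : ∑ j, (d j : E) • b j = ∑ j, (d' j : E) • b j := by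
      refine LinearMap.ext fun x => ?_
      simpa using h x
    have h2 : (fun j => (d j : E)) = fun j => (d' j : E) := by
      rw [← b.repr_sum_self (fun j => (d j : E)), ← b.repr_sum_self (fun j => (d' j : E)), h1]
    funext j
    exact Int.cast_injective (congrFun h2 j)
  set M : Matrix (Fin (Module.finrank E H)) (Fin (Module.finrank E H)) ℤ :=
    fun i j => c (π (a j)) i with hMdef
  have hM : ∀ α, c (π α) = M.mulVec (c α) := by
    intro α
    apply huniq
    intro h
    rw [← hc (π α) h]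
    have hx : h = ⟨S (S.symm h), hSH _ (hSH' _ h.2)⟩ := Subtype.ext (S.apply_symm_apply _).symm
    set x : H := ⟨S.symm h, hSH' _ h.2⟩ with hxd
    have hx' : h = ⟨S (x : L), hSH _ x.2⟩ := hx
    rw [hx', hπ1 α x, hc α x, map_sum]
    have h1 : ∀ j, σ ((c α j : E) * b j x) =
        (c α j : E) * ∑ i, (M i j : E) * b i ⟨S (x : L), hSH _ x.2⟩ := by
      intro j
      rw [map_mul, map_intCast]
      congr 1
      have h2 : b j x = a j x := congrFun (ha j) x
      rw [h2, ← hπ1 (a j) x, hc (π (a j))]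
    rw [Finset.sum_congr rfl fun j _ => h1 j]
    simp only [Matrix.mulVec, dotProduct, Int.cast_sum, Int.cast_mul, Finset.mul_sum,
      Finset.sum_mul]
    rw [Finset.sum_comm]
    refine Finset.sum_congr rfl fun i _ => Finset.sum_congr rfl fun j _ => ?_
    ring
  have hiter : ∀ (n : ℕ) (α : Weight E H L), c ((π ^ n) α) = (M ^ n).mulVec (c α) := by
    intro n
    induction n with
    | zero => intro α; simp
    | succ n ih =>
      intro α
      rw [pow_succ', Equiv.Perm.mul_apply, hM, ih, Matrix.mulVec_mulVec, pow_succ']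
  have hca : ∀ j, c (a j) = Pi.single j 1 := by
    intro j
    apply huniq
    intro h
    rw [← hc (a j) h]
    have h2 : b j h = a j h := congrFun (ha j) h
    rw [← h2]
    rw [Finset.sum_eq_single j]
    · simp
    · intro i _ hi
      simp [Pi.single_eq_of_ne hi]
    · intro hj
      exact absurd (Finset.mem_univ j) hj
  have hfin : IsOfFinOrder M := by
    rw [isOfFinOrder_iff_pow_eq_one]
    refine ⟨orderOf π, orderOf_pos π, ?_⟩
    ext i j
    have h1 := hiter (orderOf π) (a j)
    rw [pow_orderOf_eq_one, Equiv.Perm.one_apply, hca j, Matrix.mulVec_single_one] at h1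
    have h2 := congrFun h1 i
    rw [Matrix.col_apply] at h2
    rw [← h2, Matrix.one_apply, Pi.single_apply]
  refine ⟨M, hfin, ?_⟩
  set n := orderOf M with hn
  have hπn : ∀ α : Weight E H L, (π ^ n) α = α := by
    intro α
    apply Weight.ext
    intro h
    rw [hc ((π ^ n) α) h, hc α h, hiter n α, hn, pow_orderOf_eq_one, Matrix.one_mulVec]
  obtain ⟨α, hα, x, hx, hTx⟩ := exists_moved H T hTH hT1
  have hx0 : x ≠ 0 := by
    rintro rfl
    exact hTx (map_zero T)
  have hone : ∀ y ∈ rootSpace H α, ∃ k : E, y = k • x := by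
    intro y hy
    obtain ⟨k, hk⟩ := (finrank_eq_one_iff_of_nonzero' (⟨x, hx⟩ : rootSpace H α)
        (by rwa [ne_eq, LieSubmodule.mk_eq_zero])).mp (finrank_rootSpace_eq_one α hα) ⟨y, hy⟩
    exact ⟨k, by simpa using hk.symm⟩
  obtain ⟨μ, hμ⟩ := hone _ (rootSpace_stable H T hTH α hx)
  have hμ1 : μ ≠ 1 := by
    rintro rfl
    exact hTx (by rw [hμ, one_smul])
  have hμl : μ ^ l = 1 := by
    have h1 := iter_T T hμ l
    rw [hTl] at h1
    have h2 : (μ ^ l - 1) • x = 0 := by rw [sub_smul, one_smul, ← h1, sub_self]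
    rcases smul_eq_zero.1 h2 with h3 | h3
    · exact sub_eq_zero.1 h3
    · exact absurd h3 hx0
  have : NeZero l := ⟨hl.ne_zero⟩
  obtain ⟨j, hj, hjμ⟩ := hζ.eq_pow_of_pow_eq_one hμl
  have hjl : ¬ l ∣ j := by
    intro h
    apply hμ1
    rw [← hjμ]
    exact (hζ.pow_eq_one_iff_dvd j).2 h
  have hSn : ∀ (m : ℕ) (y : L) (β : Weight E H L), y ∈ rootSpace H β →
      S^[m] y ∈ rootSpace H ((π ^ m) β) := by
    intro m
    induction m with
    | zero => intro y β hy; simpa using hy
    | succ m ih =>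
      intro y β hy
      rw [Function.iterate_succ_apply', pow_succ', Equiv.Perm.mul_apply]
      exact hπ2 _ _ (ih y β hy)
  have hSx := hSn n x α hx
  rw [hπn α] at hSx
  obtain ⟨k, hk⟩ := hone _ hSx
  have hk0 : k ≠ 0 := by
    rintro rfl
    rw [zero_smul] at hk
    apply hx0
    have h1 : Function.Injective S^[n] := S.injective.iterate n
    apply h1
    rw [hk]
    have h2 : ∀ m : ℕ, S^[m] (0 : L) = 0 := by
      intro m
      induction m with
      | zero => rfl
      | succ m ih => rw [Function.iterate_succ_apply', ih, map_zero]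
    exact (h2 n).symm
  have hTS : ∀ (m : ℕ) (y : L), T (S^[m] y) = S^[m] (T y) := by
    intro m
    induction m with
    | zero => intro y; rfl
    | succ m ih =>
      intro y
      rw [Function.iterate_succ_apply', ← hST, ih, Function.iterate_succ_apply']
  have h1 : T (S^[n] x) = (σ^[n] μ) • (k • x) := by
    rw [hTS, hμ, iter_S σ S hS1, hk]
  have h2 : T (S^[n] x) = μ • (k • x) := by
    rw [hk, map_smul, hμ, smul_comm]
  have h3 : σ^[n] μ = μ := by
    rw [h1] at h2
    have h4 : (σ^[n] μ - μ) • (k • x) = 0 := by rw [sub_smul, h2, sub_self]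
    rcases smul_eq_zero.1 h4 with h5 | h5
    · exact sub_eq_zero.1 h5
    · exact absurd h5 (smul_ne_zero hk0 hx0)
  rw [← hjμ, iter_σ σ hσ] at h3
  have h4 : (j * p ^ n : ℕ) ≡ j [MOD l] := by
    have hu : IsPrimitiveRoot (Units.mk0 ζ (hζ.ne_zero hl.ne_zero)) l :=
      IsPrimitiveRoot.coe_units_iff.1 hζ
    have h6 : (Units.mk0 ζ (hζ.ne_zero hl.ne_zero)) ^ (j * p ^ n) =
        (Units.mk0 ζ (hζ.ne_zero hl.ne_zero)) ^ j := Units.ext (by simpa using h3)
    rw [pow_eq_pow_iff_modEq, ← hu.eq_orderOf] at h6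
    exact h6
  have h5 := (ZMod.natCast_eq_natCast_iff _ _ _).2 h4
  push_cast at h5
  apply orderOf_dvd_of_pow_eq_one
  have hj0 : (j : ZMod l) ≠ 0 := by
    intro h
    exact hjl ((ZMod.natCast_eq_zero_iff _ _).1 h)
  exact mul_left_cancel₀ hj0 (by rw [h5, mul_one])

end Pool.Agent.Lib.MP_ca71b5_nt
end

section

/-!
# Solvability from ad-nilpotent fixed points
-/

set_option autoImplicit false

namespace Pool.Agent.Lib.MP_ca71b5_nt

variable {k : Type*} [Field k] [CharZero k] {L : Type*} [LieRing L] [LieAlgebra k L]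
  [FiniteDimensional k L]


attribute [local instance 100] LieRing.ofAssociativeRing

theorem solvable_of_fixed_nilpotent (l : ℕ) [Fact l.Prime] (T : L ≃ₗ⁅k⁆ L)
    (hT : ∀ x, T^[l] x = x) (hn : ∀ x : L, T x = x → IsNilpotent (LieAlgebra.ad k L x)) :
    LieAlgebra.IsSolvable L := by
  have hl : 0 < l := (Fact.out : l.Prime).pos
  obtain ⟨T', hT1, hT2, hT3, -⟩ := exists_quot_auto l hl T hT
  have := quot_radical_trivial (k := k) (L := L)
  have : FiniteDimensional k (L ⧸ LieAlgebra.radical k L) := inferInstance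
  have : LieAlgebra.IsKilling k (L ⧸ LieAlgebra.radical k L) := inferInstance
  apply solvable_of_quot_subsingleton (k := k)
  refine eq_zero_of_no_fixed l T' hT2 ?_
  refine fixed_eq_zero_of_nilpotent l hl T' hT2 ?_
  intro y hy
  obtain ⟨x, hx, rfl⟩ := hT3 y hy
  obtain ⟨n, hn'⟩ := hn x hx
  refine ⟨n, ?_⟩
  have key : ∀ (m : ℕ) (z : L), (LieAlgebra.ad k (L ⧸ LieAlgebra.radical k L)
      (LieSubmodule.Quotient.mk x) ^ m) (LieSubmodule.Quotient.mk z) =
        LieSubmodule.Quotient.mk ((LieAlgebra.ad k L x ^ m) z) := by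
    intro m z
    induction m with
    | zero => rfl
    | succ m ih =>
      rw [pow_succ', pow_succ', Module.End.mul_apply, Module.End.mul_apply, ih]
      rfl
  ext y
  obtain ⟨z, rfl⟩ := LieSubmodule.Quotient.surjective_mk' _ y
  have h1 := key n z
  rw [hn'] at h1
  exact h1

end Pool.Agent.Lib.MP_ca71b5_nt
end

section

/-!
# A Cartan subalgebra stable under an automorphism
-/

set_option autoImplicit false

namespace Pool.Agent.Lib.MP_ca71b5_nt

variable {k : Type*} [Field k] [CharZero k] {L : Type*} [LieRing L] [LieAlgebra k L]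
  [FiniteDimensional k L] [LieAlgebra.IsKilling k L]

section aux

variable {k : Type*} [Field k] {L : Type*} [LieRing L] [LieAlgebra k L]

/-- the fixed points as a Lie subalgebra -/
private def fixLieL2 (T : L ≃ₗ⁅k⁆ L) : LieSubalgebra k L :=
  { fixS T with
    lie_mem' := by
      intro x y hx hy
      have hx' : T x = x := hx
      have hy' : T y = y := hy
      show T ⁅x, y⁆ = ⁅x, y⁆
      rw [LieEquiv.map_lie, hx', hy'] }

private theorem mem_fixLieL2 (T : L ≃ₗ⁅k⁆ L) (x : L) : x ∈ fixLieL2 T ↔ T x = x := Iff.rfl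

private theorem map_ad_pow (T : L ≃ₗ⁅k⁆ L) (a x : L) (n : ℕ) :
    T ((LieAlgebra.ad k L a ^ n) x) = (LieAlgebra.ad k L (T a) ^ n) (T x) := by
  induction n with
  | zero => rfl
  | succ n ih =>
    rw [pow_succ', pow_succ', Module.End.mul_apply, Module.End.mul_apply, ← ih,
      LieAlgebra.ad_apply, LieAlgebra.ad_apply, LieEquiv.map_lie]

private theorem engel_map (T : L ≃ₗ⁅k⁆ L) {a x : L} (ha : T a = a)
    (hx : x ∈ LieSubalgebra.engel k a) : T x ∈ LieSubalgebra.engel k a := by
  rw [LieSubalgebra.mem_engel_iff] at hx ⊢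
  obtain ⟨n, hn⟩ := hx
  refine ⟨n, ?_⟩
  rw [← map_zero T, ← hn, map_ad_pow, ha]

/-- the restriction of an automorphism to an Engel subalgebra -/
private def engelEquiv (T : L ≃ₗ⁅k⁆ L) {a : L} (ha : T a = a) :
    LieSubalgebra.engel k a ≃ₗ⁅k⁆ LieSubalgebra.engel k a where
  toFun x := ⟨T x, engel_map T ha x.2⟩
  map_add' x y := Subtype.ext (map_add T (x : L) (y : L))
  map_smul' c x := Subtype.ext (map_smul T c (x : L))
  map_lie' := by
    intro x y
    exact Subtype.ext (LieEquiv.map_lie T (x : L) (y : L))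
  invFun x := ⟨T.symm x, engel_map T.symm (by rw [LieEquiv.symm_apply_eq]; exact ha.symm) x.2⟩
  left_inv x := Subtype.ext (T.symm_apply_apply x)
  right_inv x := Subtype.ext (T.apply_symm_apply x)

private theorem engelEquiv_iterate (T : L ≃ₗ⁅k⁆ L) {a : L} (ha : T a = a) (n : ℕ)
    (x : LieSubalgebra.engel k a) : (((engelEquiv T ha)^[n] x : _) : L) = T^[n] x := by
  induction n generalizing x with
  | zero => rfl
  | succ n ih => rw [Function.iterate_succ_apply, Function.iterate_succ_apply, ih]; rfl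

end aux

theorem exists_cartan [Nontrivial L] (l : ℕ) [Fact l.Prime] (T : L ≃ₗ⁅k⁆ L)
    (hT : ∀ x, T^[l] x = x) :
    ∃ a : L, a ≠ 0 ∧ T a = a ∧ (LieSubalgebra.engel k a).IsCartanSubalgebra := by
  classical
  let U : LieSubalgebra k L := fixLieL2 T
  obtain ⟨x0, hx0⟩ := LieAlgebra.exists_isCartanSubalgebra_engel k U
  let A : LieSubalgebra k U := LieSubalgebra.engel k x0
  have hAnil : LieRing.IsNilpotent A := hx0.nilpotent
  let A' : LieSubalgebra k L := A.map U.incl
  have hmemA' : ∀ y : L, y ∈ A' ↔ ∃ y0 : A, ((y0 : U) : L) = y := by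
    intro y
    constructor
    · rintro ⟨y0, hy0, rfl⟩
      exact ⟨⟨y0, hy0⟩, rfl⟩
    · rintro ⟨y0, rfl⟩
      exact ⟨y0, y0.2, rfl⟩
  have hA'engel : ∀ y ∈ A', A' ≤ LieSubalgebra.engel k y := by
    intro y hy z hz
    obtain ⟨y0, rfl⟩ := (hmemA' y).1 hy
    obtain ⟨z0, rfl⟩ := (hmemA' z).1 hz
    rw [LieSubalgebra.mem_engel_iff]
    obtain ⟨n, hn⟩ := (LieAlgebra.isNilpotent_iff_forall (R := k)).1 hAnil y0
    refine ⟨n, ?_⟩
    have h1 : (((LieAlgebra.ad k A y0 ^ n) z0 : A) : U) = 0 := by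
      rw [hn]
      rfl
    rw [LieSubalgebra.coe_ad_pow] at h1
    have h2 := congrArg (fun u : U => (u : L)) h1
    simp only [LieSubalgebra.coe_ad_pow] at h2
    exact h2
  obtain ⟨a, haA, hamin⟩ : ∃ a ∈ A', ∀ y ∈ A', Module.finrank k (LieSubalgebra.engel k a) ≤
      Module.finrank k (LieSubalgebra.engel k y) := by
    have hex : ∃ n, ∃ a ∈ A', Module.finrank k (LieSubalgebra.engel k a) = n :=
      ⟨_, 0, A'.zero_mem, rfl⟩
    obtain ⟨a, haA, han⟩ := Nat.find_spec hex
    refine ⟨a, haA, fun y hy => ?_⟩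
    rw [han]
    exact Nat.find_min' hex ⟨y, hy, rfl⟩
  have hcard : (Module.finrank k L : Cardinal) ≤ Cardinal.mk k :=
    Cardinal.natCast_le_aleph0.trans (Cardinal.infinite_iff.mp inferInstance)
  have hbot : ∀ y ∈ A', LieSubalgebra.engel k a ≤ LieSubalgebra.engel k y := by
    let E : {LieSubalgebra.engel k x | x ∈ A'} := ⟨LieSubalgebra.engel k a, a, haA, rfl⟩
    have h1 : IsBot E := by
      refine LieAlgebra.engel_isBot_of_isMin hcard A' E (hA'engel a haA) ?_
      rintro ⟨_, y, hy, rfl⟩ hyx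
      have h2 : LieSubalgebra.engel k y = LieSubalgebra.engel k a := by
        apply LieSubalgebra.toSubmodule_injective
        exact Submodule.eq_of_le_of_finrank_le hyx (hamin y hy)
      show LieSubalgebra.engel k a ≤ LieSubalgebra.engel k y
      exact h2.ge
    intro y hy
    exact h1 ⟨LieSubalgebra.engel k y, y, hy, rfl⟩
  have hTa : T a = a := by
    obtain ⟨a0, rfl⟩ := (hmemA' a).1 haA
    exact (a0 : U).2
  have hx0A : ((x0 : U) : L) ∈ A' :=
    (hmemA' _).2 ⟨⟨x0, LieSubalgebra.self_mem_engel k x0⟩, rfl⟩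
  -- fixed points in the Engel subalgebra
  have hfix : ∀ x ∈ LieSubalgebra.engel k a, T x = x → x ∈ A' := by
    intro x hx hTx
    have h1 := hbot _ hx0A hx
    rw [LieSubalgebra.mem_engel_iff] at h1
    obtain ⟨n, hn⟩ := h1
    have h2 : (⟨x, hTx⟩ : U) ∈ A := by
      show (⟨x, hTx⟩ : U) ∈ LieSubalgebra.engel k x0
      rw [LieSubalgebra.mem_engel_iff]
      refine ⟨n, ?_⟩
      apply Subtype.ext
      rw [LieSubalgebra.coe_ad_pow]
      exact hn
    exact (hmemA' x).2 ⟨⟨⟨x, hTx⟩, h2⟩, rfl⟩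
  have hsolv : LieAlgebra.IsSolvable (LieSubalgebra.engel k a) := by
    refine solvable_of_fixed_nilpotent l (engelEquiv T hTa) ?_ ?_
    · intro x
      apply Subtype.ext
      rw [engelEquiv_iterate, hT]
    · intro x hx
      rw [Module.End.isNilpotent_iff_of_finite]
      intro z
      have h1 : T (x : L) = x := congrArg (fun u : LieSubalgebra.engel k a => (u : L)) hx
      have h2 := hbot _ (hfix x x.2 h1) z.2
      rw [LieSubalgebra.mem_engel_iff] at h2
      obtain ⟨n, hn⟩ := h2
      refine ⟨n, Subtype.ext ?_⟩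
      rw [LieSubalgebra.coe_ad_pow]
      exact hn
  have habel : ∀ x ∈ LieSubalgebra.engel k a, ∀ y ∈ LieSubalgebra.engel k a, ⁅x, y⁆ = 0 := by
    intro x hx y hy
    refine killing_engel_nondeg a ⁅x, y⁆ ((LieSubalgebra.engel k a).lie_mem hx hy) ?_
    intro z hz
    exact killing_solvable _ hsolv x y z hx hy hz
  refine ⟨a, ?_, hTa, ⟨?_, LieSubalgebra.normalizer_engel k a⟩⟩
  · rintro rfl
    obtain ⟨x, hx⟩ := exists_ne (0 : L)
    apply hx
    have htop : ∀ y : L, y ∈ LieSubalgebra.engel k (0 : L) := by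
      intro y
      rw [LieSubalgebra.engel_zero]
      exact LieSubalgebra.mem_top y
    refine killing_engel_nondeg 0 x (htop x) ?_
    intro y _
    have had : LieAlgebra.ad k L x = 0 := by
      ext z
      exact habel x (htop x) z (htop z)
    rw [killingForm_apply_apply, had, LinearMap.zero_comp, map_zero]
  · have : IsLieAbelian (LieSubalgebra.engel k a) :=
      ⟨fun x y => Subtype.ext (habel x x.2 y y.2)⟩
    infer_instance

end Pool.Agent.Lib.MP_ca71b5_nt
end

section

/-!
# The main theorem on automorphisms of prime order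
-/

set_option autoImplicit false

namespace Pool.Agent.Lib.MP_ca71b5_nt

open TensorProduct

theorem LM_engel_map {E : Type*} [Field E] {L : Type*} [LieRing L] [LieAlgebra E L]
    (S : L →+ L) (hS : ∀ x y : L, S ⁅x, y⁆ = ⁅S x, S y⁆) (a : L) (ha : S a = a) (x : L)
    (hx : x ∈ LieSubalgebra.engel E a) : S x ∈ LieSubalgebra.engel E a := by
  rw [LieSubalgebra.mem_engel_iff] at hx ⊢
  obtain ⟨n, hn⟩ := hx
  refine ⟨n, ?_⟩
  have key : ∀ (n : ℕ) (y : L), S ((LieAlgebra.ad E L a ^ n) y) = (LieAlgebra.ad E L a ^ n) (S y) := by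
    intro n
    induction n with
    | zero => intro y; rfl
    | succ n ih =>
      intro y
      rw [pow_succ', Module.End.mul_apply, Module.End.mul_apply, ← ih, LieAlgebra.ad_apply,
        LieAlgebra.ad_apply, hS, ha]
  rw [← key, hn, map_zero]

theorem auto_main (p l : ℕ) [Fact p.Prime] [Fact l.Prime] (hpl : p ≠ l) (hl2 : l ≠ 2)
    {L : Type} [LieRing L] [LieAlgebra ℚ_[p] L] [FiniteDimensional ℚ_[p] L]
    [LieAlgebra.IsKilling ℚ_[p] L] (T : L ≃ₗ⁅ℚ_[p]⁆ L) (hT : ∀ x, T^[l] x = x)
    (hT1 : ∃ x, T x ≠ x) :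
    (∃ m : ℕ, 1 ≤ m ∧ m ≤ Module.finrank ℚ_[p] (fixS T) ∧ 3 * m ≤ Module.finrank ℚ_[p] L ∧
      ∃ M : Matrix (Fin m) (Fin m) ℤ, IsOfFinOrder M ∧ orderOf (p : ZMod l) ∣ orderOf M) ∨
    (3 * l ≤ Module.finrank ℚ_[p] L ∧ 3 ≤ Module.finrank ℚ_[p] (fixS T)) := by
  classical
  obtain ⟨x₀, hx₀⟩ := hT1
  have hnt : Nontrivial L := ⟨⟨T x₀, x₀, hx₀⟩⟩
  obtain ⟨a, ha0, hTa, hac⟩ := exists_cartan l T hT
  have hch : CharZero (AlgebraicClosure ℚ_[p]) := charZero_of_injective_algebraMap
    (algebraMap ℚ_[p] (AlgebraicClosure ℚ_[p])).injective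
  have hK : LieAlgebra.IsKilling (AlgebraicClosure ℚ_[p]) (AlgebraicClosure ℚ_[p] ⊗[ℚ_[p]] L) :=
    isKilling_baseChange
  obtain ⟨T', hT'1, hT'2⟩ := exists_auto_baseChange (E := AlgebraicClosure ℚ_[p]) T
  have hT'l := iterate_baseChange T T' hT'1 l hT
  have hH := cartan_baseChange (E := AlgebraicClosure ℚ_[p]) a hac
  set aE : AlgebraicClosure ℚ_[p] ⊗[ℚ_[p]] L := (1 : AlgebraicClosure ℚ_[p]) ⊗ₜ[ℚ_[p]] a with haE
  set H := LieSubalgebra.engel (AlgebraicClosure ℚ_[p]) aE with hHdef
  have hinj : Function.Injective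
      (fun x : L => ((1 : AlgebraicClosure ℚ_[p]) ⊗ₜ[ℚ_[p]] x : AlgebraicClosure ℚ_[p] ⊗[ℚ_[p]] L)) :=
    Module.FaithfullyFlat.tensorProduct_mk_injective (A := ℚ_[p]) (B := AlgebraicClosure ℚ_[p]) L
  have haE0 : aE ≠ 0 := by
    intro h
    apply ha0
    apply hinj
    show ((1 : AlgebraicClosure ℚ_[p]) ⊗ₜ[ℚ_[p]] a : AlgebraicClosure ℚ_[p] ⊗[ℚ_[p]] L) =
      (1 : AlgebraicClosure ℚ_[p]) ⊗ₜ[ℚ_[p]] (0 : L)
    rw [TensorProduct.tmul_zero]
    exact h
  have haH : aE ∈ H := LieSubalgebra.self_mem_engel _ aE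
  have hTaE : T' aE = aE := by rw [haE, hT'1, hTa]
  have hdim : Module.finrank (AlgebraicClosure ℚ_[p]) (AlgebraicClosure ℚ_[p] ⊗[ℚ_[p]] L) =
      Module.finrank ℚ_[p] L := Module.finrank_baseChange
  have hT'ne : ∃ x, T' x ≠ x := by
    refine ⟨(1 : AlgebraicClosure ℚ_[p]) ⊗ₜ[ℚ_[p]] x₀, fun h => hx₀ (hinj ?_)⟩
    rw [hT'1] at h
    exact h
  by_cases hcase : ∀ x ∈ H, T' x = x
  · left
    refine ⟨Module.finrank (AlgebraicClosure ℚ_[p]) H, ?_, ?_, ?_, ?_⟩
    · rw [Nat.one_le_iff_ne_zero]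
      intro h0
      have h1 : Subsingleton H := Module.finrank_zero_iff.1 h0
      have h2 : (⟨aE, haH⟩ : H) = 0 := Subsingleton.elim _ _
      exact haE0 (congrArg Subtype.val h2)
    · rw [← hT'2]
      exact Submodule.finrank_mono (s := H.toSubmodule) (t := fixS T') fun x hx => hcase x hx
    · rw [← hdim]
      exact three_mul_rank_le H
    · obtain ⟨ζ, σ, hζ, hσ⟩ := exists_frobenius p l hpl
      let S₀ : (AlgebraicClosure ℚ_[p] ⊗[ℚ_[p]] L) ≃ₗ[ℚ_[p]] (AlgebraicClosure ℚ_[p] ⊗[ℚ_[p]] L) :=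
        TensorProduct.congr σ.toLinearEquiv (LinearEquiv.refl ℚ_[p] L)
      have hS0 : ∀ (c : AlgebraicClosure ℚ_[p]) (x : L), S₀ (c ⊗ₜ[ℚ_[p]] x) = σ c ⊗ₜ[ℚ_[p]] x :=
        fun c x => rfl
      let S : (AlgebraicClosure ℚ_[p] ⊗[ℚ_[p]] L) ≃+ (AlgebraicClosure ℚ_[p] ⊗[ℚ_[p]] L) :=
        S₀.toAddEquiv
      have hSp : ∀ (c : AlgebraicClosure ℚ_[p]) (x : L), S (c ⊗ₜ[ℚ_[p]] x) = σ c ⊗ₜ[ℚ_[p]] x :=
        fun c x => rfl
      have hS1 : ∀ (c : AlgebraicClosure ℚ_[p]) (x : AlgebraicClosure ℚ_[p] ⊗[ℚ_[p]] L),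
          S (c • x) = (σ : AlgebraicClosure ℚ_[p] ≃+* AlgebraicClosure ℚ_[p]) c • S x := by
        intro c x
        induction x using TensorProduct.induction_on with
        | zero => rw [smul_zero, map_zero, smul_zero]
        | tmul s y =>
          rw [TensorProduct.smul_tmul', hSp, hSp, smul_eq_mul, map_mul, TensorProduct.smul_tmul']
          rfl
        | add u v hu hv => rw [smul_add, map_add, hu, hv, map_add, smul_add]
      have hS2 : ∀ x y : AlgebraicClosure ℚ_[p] ⊗[ℚ_[p]] L, S ⁅x, y⁆ = ⁅S x, S y⁆ := by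
        intro x y
        induction x using TensorProduct.induction_on with
        | zero => rw [zero_lie, map_zero, zero_lie]
        | tmul s u =>
          induction y using TensorProduct.induction_on with
          | zero => rw [lie_zero, map_zero, lie_zero]
          | tmul t v =>
            rw [LieAlgebra.ExtendScalars.bracket_tmul, hSp, hSp, hSp,
              LieAlgebra.ExtendScalars.bracket_tmul, map_mul]
          | add y z hy hz => rw [lie_add, map_add, hy, hz, map_add, lie_add]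
        | add u v hu hv => rw [add_lie, map_add, hu, hv, map_add, add_lie]
      have hST : ∀ x, S (T' x) = T' (S x) := by
        intro x
        induction x using TensorProduct.induction_on with
        | zero => simp only [map_zero]
        | tmul s y => rw [hT'1, hSp, hSp, hT'1]
        | add u v hu hv => rw [map_add, map_add, map_add, map_add, hu, hv]
      have hSa : S aE = aE := by rw [haE, hSp, map_one]
      refine exists_matrix_of_trivial H p l T' hT'l hcase hT'ne
        (σ : AlgebraicClosure ℚ_[p] ≃+* AlgebraicClosure ℚ_[p]) ζ hζ hσ S hS1 hS2 hST ?_ ?_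
      · intro x hx
        exact LM_engel_map (S : (AlgebraicClosure ℚ_[p] ⊗[ℚ_[p]] L) →+ _) hS2 aE hSa x hx
      · intro x hx
        refine LM_engel_map (S.symm : (AlgebraicClosure ℚ_[p] ⊗[ℚ_[p]] L) →+ _) ?_ aE ?_ x hx
        · intro x y
          show S.symm ⁅x, y⁆ = ⁅S.symm x, S.symm y⁆
          rw [AddEquiv.symm_apply_eq, hS2, AddEquiv.apply_symm_apply, AddEquiv.apply_symm_apply]
        · show S.symm aE = aE
          rw [AddEquiv.symm_apply_eq]
          exact hSa.symm
  · right
    push Not at hcase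
    have hTH : ∀ x ∈ H, T' x ∈ H := by
      intro x hx
      refine LM_engel_map (AddMonoidHomClass.toAddMonoidHom T') ?_ aE hTaE x hx
      intro x y
      exact LieEquiv.map_lie T' x y
    have h1 := dim_of_nontrivial H l hl2 T' hT'l hTH hcase ⟨aE, haH, haE0, hTaE⟩
    rw [hdim, hT'2] at h1
    exact h1

end Pool.Agent.Lib.MP_ca71b5_nt
end

section

/-!
# Automorphisms of finite order without fixed points
-/

set_option autoImplicit false

namespace Pool.Agent.Lib.MP_ca71b5_nt

open TensorProduct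

theorem solvable_of_fixed_point_free {k : Type*} [Field k] [CharZero k] {L : Type*} [LieRing L]
    [LieAlgebra k L] [FiniteDimensional k L] (n : ℕ) (hn : 0 < n) (T : L ≃ₗ⁅k⁆ L)
    (hT : ∀ x, T^[n] x = x) (hf : ∀ x : L, T x = x → x = 0) : LieAlgebra.IsSolvable L := by
  let E := AlgebraicClosure k
  have : CharZero E := charZero_of_injective_algebraMap (algebraMap k E).injective
  obtain ⟨T', hT', hfin⟩ := exists_auto_baseChange (E := E) T
  have hl : (n : E) ≠ 0 := by
    exact_mod_cast hn.ne'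
  have : NeZero (n : E) := ⟨hl⟩
  obtain ⟨ζ, hζ⟩ := HasEnoughRootsOfUnity.exists_primitiveRoot E n
  have h0 : Module.finrank k (fixS T) = 0 := by
    have : fixS T = ⊥ := by
      rw [eq_bot_iff]
      intro z hz
      exact hf z hz
    rw [this, finrank_bot]
  rw [h0] at hfin
  have hbot : fixS T' = ⊥ := Submodule.finrank_eq_zero.mp hfin
  have hf' : ∀ y : E ⊗[k] L, T' y = y → y = 0 := by
    intro y hy
    have : y ∈ fixS T' := hy
    rw [hbot] at this
    exact this
  have h1 : LieAlgebra.IsSolvable (E ⊗[k] L) :=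
    kreknin_of_root n hn ζ hζ T' (iterate_baseChange T T' hT' n hT) hf'
  exact (LieAlgebra.isSolvable_tensorProduct_iff (A := E) (R := k) (L := L)).mp h1

end Pool.Agent.Lib.MP_ca71b5_nt
end
end
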