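import Mathlib
import Pool.Agent.Lib.MP_ca71b5_nt.Defs2
import Pool.Agent.Lib.MP_ca71b5_nt.LPM
import Pool.Agent.Lib.MP_ca71b5_nt.Q2
import Pool.Agent.Lib.MP_ca71b5_ntW.AR2
import Pool.Agent.Lib.MP_ca71b5_nt.ADefs
import Pool.Agent.Lib.MP_ca71b5_nt.Base

section

section

/-!
# Quotients killed by all the elements meeting an open subgroup trivially
-/

set_option autoImplicit false

namespace Pool.Agent.Lib.MP_ca71b5_nt

/-- a closed subgroup of a profinite group is the intersection of the open normal subgroups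
above it -/
theorem G6a_mem_of_forall {Γ : Type} [Group Γ] [TopologicalSpace Γ] [IsTopologicalGroup Γ]
    [CompactSpace Γ] [T2Space Γ] [TotallyDisconnectedSpace Γ] (K : Subgroup Γ)
    (hK : IsClosed (K : Set Γ)) (hKn : K.Normal) (w : Γ)
    (hw : ∀ W : Subgroup Γ, W.Normal → IsOpen (W : Set Γ) → K ≤ W → w ∈ W) : w ∈ K := by
  by_contra hwK
  have hopen : IsOpen {x : Γ | w * x ∈ (K : Set Γ)ᶜ} :=
    hK.isOpen_compl.preimage (continuous_const_mul w)
  have hone : (1 : Γ) ∈ {x : Γ | w * x ∈ (K : Set Γ)ᶜ} := by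
    show w * 1 ∈ (K : Set Γ)ᶜ
    rw [mul_one]
    exact hwK
  obtain ⟨V, hV⟩ := ProfiniteGrp.exist_openNormalSubgroup_sub_open_nhds_of_one hopen hone
  have hVn : V.toSubgroup.Normal := V.isNormal'
  have hgs := hw (V.toSubgroup ⊔ K) inferInstance
    (Subgroup.isOpen_mono (le_sup_left : V.toSubgroup ≤ V.toSubgroup ⊔ K) V.toOpenSubgroup.isOpen)
    le_sup_right
  rw [Subgroup.mem_sup_of_normal_right] at hgs
  obtain ⟨v, hv, z, hz, hvz⟩ := hgs
  have h1 : (v⁻¹ : Γ) ∈ V.toSubgroup := V.toSubgroup.inv_mem hv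
  have h2 : w⁻¹ * v⁻¹ * w⁻¹⁻¹ ∈ V.toSubgroup := hVn.conj_mem v⁻¹ h1 w⁻¹
  have h3 : w * (w⁻¹ * v⁻¹ * w⁻¹⁻¹) ∈ (K : Set Γ)ᶜ := hV h2
  apply h3
  have h4 : w * (w⁻¹ * v⁻¹ * w⁻¹⁻¹) = z := by
    rw [inv_inv, ← hvz]
    group
  rw [h4]
  exact hz

/-- coprime powers in a subgroup -/
theorem G6a_coprime {Γ : Type} [Group Γ] (W : Subgroup Γ) (g : Γ) (a b : ℕ) (hab : a.Coprime b)
    (ha : g ^ a ∈ W) (hb : g ^ b ∈ W) : g ∈ W := by
  have h1 : ((g ^ a) ^ (Nat.gcdA a b) * (g ^ b) ^ (Nat.gcdB a b) : Γ) = g := by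
    rw [← zpow_natCast, ← zpow_natCast, ← zpow_mul, ← zpow_mul, ← zpow_add,
      ← Nat.gcd_eq_gcd_ab, Nat.Coprime.gcd_eq_one hab]
    simp
  rw [← h1]
  exact W.mul_mem (W.zpow_mem ha _) (W.zpow_mem hb _)

theorem index_of_good {p : ℕ} [Fact p.Prime] {Γ G : Type} [Group Γ] [TopologicalSpace Γ]
    [IsTopologicalGroup Γ] [CompactSpace Γ] [T2Space Γ] [TotallyDisconnectedSpace Γ] [Group G] [TopologicalSpace G] [IsTopologicalGroup G]
    [CompactSpace G] [T2Space G] [TotallyDisconnectedSpace G] (j : Γ →* G)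
    (hj : Function.Injective j) (hjc : Continuous j) (hjo : IsOpenMap j) (hn : j.range.Normal)
    (K : Subgroup Γ) (hK : IsClosed (K : Set Γ)) (hKn : K.Normal)
    (hpro : ProP p K) (V : Subgroup G) [V.Normal] (hV : IsOpen (V : Set G))
    (hKV : ∀ g ∈ K, j g ∈ V) (hgood : ∀ h : G, Good j K h → h ∈ V) :
    ∃ k : ℕ, V.index = p ^ k := by
  classical
  have hp : p.Prime := Fact.out
  have hVfin : Finite (G ⧸ V) := Subgroup.quotient_finite_of_isOpen V hV
  have hV0 : V.index ≠ 0 := (Subgroup.finiteIndex_of_finite_quotient (H := V)).index_ne_zero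
  have hVc : IsClosed (V : Set G) := V.isClosed_of_isOpen hV
  by_contra hcon
  have hex : ∃ l : ℕ, l.Prime ∧ l ∣ V.index ∧ l ≠ p := by
    by_contra h
    push Not at h
    exact hcon ⟨_, Nat.eq_prime_pow_of_unique_prime_dvd hV0 (fun {d} hd hdv => h d hd hdv)⟩
  obtain ⟨l, hl, hlV, hlp⟩ := hex
  haveI : Fact l.Prime := ⟨hl⟩
  have hcard : l ∣ Nat.card (G ⧸ V) := hlV
  obtain ⟨x, hx⟩ := exists_prime_orderOf_dvd_card' l hcard
  obtain ⟨y, rfl⟩ := QuotientGroup.mk_surjective x
  have hyl : y ^ l ∈ V := by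
    rw [← QuotientGroup.eq_one_iff, QuotientGroup.mk_pow, ← hx]
    exact pow_orderOf_eq_one _
  have hyV : y ∉ V := by
    intro h
    rw [← QuotientGroup.eq_one_iff] at h
    rw [h, orderOf_one] at hx
    exact hl.one_lt.ne hx
  -- the range of `j`
  have hRo : IsOpen (j.range : Set G) := by
    rw [MonoidHom.coe_range]
    exact hjo.isOpen_range
  have hRfin : Finite (G ⧸ j.range) := Subgroup.quotient_finite_of_isOpen j.range hRo
  have hR0 : j.range.index ≠ 0 :=
    (Subgroup.finiteIndex_of_finite_quotient (H := j.range)).index_ne_zero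
  obtain ⟨a, m', hm', hm⟩ := Nat.exists_eq_pow_mul_and_not_dvd hR0 p hp.one_lt.ne'
  have hm'0 : m' ≠ 0 := by
    rintro rfl
    exact hm' (dvd_zero p)
  have hcop : p.Coprime (l * m') := by
    apply Nat.Coprime.mul_right
    · rw [Nat.coprime_primes hp hl]
      exact hlp.symm
    · exact (Nat.Prime.coprime_iff_not_dvd hp).2 hm'
  have hphi : 1 ≤ Nat.totient (l * m') := by
    rw [Nat.succ_le_iff, Nat.totient_pos]
    exact Nat.mul_pos hl.pos (Nat.pos_of_ne_zero hm'0)
  have hmod : ∀ i : ℕ, p ^ (i * Nat.totient (l * m')) ≡ 1 [MOD l] := by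
    intro i
    have h1 : p ^ (Nat.totient (l * m')) ≡ 1 [MOD l * m'] := Nat.ModEq.pow_totient hcop
    have h2 : p ^ (Nat.totient (l * m')) ≡ 1 [MOD l] := Nat.ModEq.of_mul_right m' h1
    have h3 := h2.pow i
    rw [one_pow, ← pow_mul, mul_comm] at h3
    exact h3
  obtain ⟨g0, hg0⟩ : ∃ g0 : Γ, j g0 = y ^ j.range.index := by
    have h := Subgroup.pow_index_mem j.range y
    exact h
  -- the cluster point
  obtain ⟨z, hz⟩ := exists_clusterPt_of_compactSpace
    (Filter.map (fun i : ℕ => y ^ (p ^ (i * Nat.totient (l * m')))) Filter.atTop)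
  have hzC : ∀ C : Set G, IsClosed C →
      (∃ i0 : ℕ, ∀ i ≥ i0, y ^ (p ^ (i * Nat.totient (l * m'))) ∈ C) → z ∈ C := by
    rintro C hC ⟨i0, hi0⟩
    have h1 : Filter.map (fun i : ℕ => y ^ (p ^ (i * Nat.totient (l * m')))) Filter.atTop ≤
        Filter.principal C := by
      rw [Filter.le_principal_iff, Filter.mem_map]
      exact Filter.mem_atTop_sets.2 ⟨i0, hi0⟩
    have h2 : z ∈ closure C := mem_closure_iff_clusterPt.2 (hz.mono h1)
    rwa [hC.closure_eq] at h2
  have hz1 : z ∈ {u : G | y⁻¹ * u ∈ V} := by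
    apply hzC
    · exact hVc.preimage (continuous_const_mul y⁻¹)
    · refine ⟨0, fun i _ => ?_⟩
      show y⁻¹ * y ^ (p ^ (i * Nat.totient (l * m'))) ∈ V
      have h1 : 1 ≤ p ^ (i * Nat.totient (l * m')) := Nat.one_le_pow _ _ hp.pos
      have h2 : l ∣ p ^ (i * Nat.totient (l * m')) - 1 :=
        (Nat.modEq_iff_dvd' h1).1 (hmod i).symm
      obtain ⟨t, ht⟩ := h2
      have h3 : p ^ (i * Nat.totient (l * m')) = l * t + 1 := by omega
      rw [h3, pow_succ', ← mul_assoc, inv_mul_cancel, one_mul, pow_mul]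
      exact V.pow_mem hyl t
  have hz2 : ∀ W : Subgroup Γ, W.Normal → IsOpen (W : Set Γ) → K ≤ W →
      z ∈ {u : G | u ^ m' ∈ j '' (W : Set Γ)} := by
    intro W hWn hWo hKW
    have hWc : IsClosed (W : Set Γ) := W.isClosed_of_isOpen hWo
    have hjW : IsClosed (j '' (W : Set Γ)) := (hWc.isCompact.image hjc).isClosed
    obtain ⟨b, hb⟩ := hpro W hWn hWo hKW
    apply hzC
    · exact hjW.preimage (continuous_pow m')
    · refine ⟨a + b, fun i hi => ?_⟩
      show (y ^ (p ^ (i * Nat.totient (l * m')))) ^ m' ∈ j '' (W : Set Γ)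
      have h1 : a + b ≤ i * Nat.totient (l * m') := hi.trans (Nat.le_mul_of_pos_right i hphi)
      obtain ⟨t, ht⟩ := Nat.exists_eq_add_of_le h1
      have h2 : (y ^ (p ^ (i * Nat.totient (l * m')))) ^ m' = j (g0 ^ (p ^ (b + t))) := by
        rw [map_pow, hg0, ← pow_mul, ← pow_mul, ht, hm]
        congr 1
        rw [pow_add, pow_add, pow_add]
        ring
      rw [h2]
      refine ⟨_, ?_, rfl⟩
      show g0 ^ (p ^ (b + t)) ∈ W
      rw [pow_add, pow_mul, ← hb]
      exact W.pow_mem (Subgroup.pow_index_mem W g0) _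
  obtain ⟨w, -, hw⟩ := hz2 ⊤ inferInstance isOpen_univ le_top
  have hwK : w ∈ K := by
    refine G6a_mem_of_forall K hK hKn w fun W hWn hWo hKW => ?_
    obtain ⟨w', hw', hjw'⟩ := hz2 W hWn hWo hKW
    have : w = w' := hj (hw.trans hjw'.symm)
    rw [this]
    exact hw'
  have hgd : Good j K z := by
    intro k g hg
    have h1 : g ^ m' = w ^ k := by
      apply hj
      rw [map_pow, map_pow, hg, hw, ← pow_mul, ← pow_mul, mul_comm]
    have h2 : g ^ m' ∈ K := by
      rw [h1]
      exact K.pow_mem hwK k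
    refine G6a_mem_of_forall K hK hKn g fun W hWn hWo hKW => ?_
    obtain ⟨b, hb⟩ := hpro W hWn hWo hKW
    refine G6a_coprime W g m' (p ^ b) ?_ (hKW h2) ?_
    · exact (Nat.Coprime.pow_left b ((Nat.Prime.coprime_iff_not_dvd hp).2 hm')).symm
    · rw [← hb]
      exact Subgroup.pow_index_mem W g
  have hzV : z ∈ V := hgood z hgd
  apply hyV
  have h1 : y⁻¹ * z ∈ V := hz1
  have h2 : z * (y⁻¹ * z)⁻¹ ∈ V := V.mul_mem hzV (V.inv_mem h1)
  have h3 : z * (y⁻¹ * z)⁻¹ = y := by group
  rwa [h3] at h2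

end Pool.Agent.Lib.MP_ca71b5_nt
end

section

/-!
# Conjugation by an automorphism
-/

set_option autoImplicit false
open scoped NumberField

namespace Pool.Agent.Lib.MP_ca71b5_nt

variable {p : ℕ} [Fact p.Prime] {F K : Type} [Field F] [NumberField F] [Field K] [NumberField K]
  [Algebra F K] [IsGalois F K]

/-- the preimage of a subfield under `τ` -/
noncomputable def pullField (τ : GF F K) (E : IntermediateField K (AlgebraicClosure K)) :
    IntermediateField K (AlgebraicClosure K) where
  carrier := {x | τ x ∈ E}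
  mul_mem' {a b} ha hb := by
    change τ (a * b) ∈ E
    rw [map_mul]
    exact E.mul_mem ha hb
  one_mem' := by
    change τ 1 ∈ E
    rw [map_one]
    exact E.one_mem
  add_mem' {a b} ha hb := by
    change τ (a + b) ∈ E
    rw [map_add]
    exact E.add_mem ha hb
  zero_mem' := by
    change τ 0 ∈ E
    rw [map_zero]
    exact E.zero_mem
  algebraMap_mem' a := by
    change τ (algebraMap K (AlgebraicClosure K) a) ∈ E
    obtain ⟨b, hb⟩ := exists_restrict τ a
    rw [hb]
    exact E.algebraMap_mem b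
  inv_mem' a ha := by
    change τ a⁻¹ ∈ E
    rw [map_inv₀]
    exact E.inv_mem ha

theorem mem_pullField (τ : GF F K) (E : IntermediateField K (AlgebraicClosure K))
    (x : AlgebraicClosure K) : x ∈ pullField τ E ↔ τ x ∈ E := Iff.rfl

theorem pullField_finite (τ : GF F K) (E : IntermediateField K (AlgebraicClosure K))
    [FiniteDimensional K E] : FiniteDimensional K (pullField τ E) := by
  have h1 : FiniteDimensional F E := FiniteDimensional.trans F K E
  let f : pullField τ E →ₗ[F] E :=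
    { toFun := fun x => ⟨τ x.1, x.2⟩
      map_add' := fun x y => Subtype.ext (map_add τ x.1 y.1)
      map_smul' := fun a x => Subtype.ext (by
        change τ (a • x.1) = a • τ x.1
        rw [Algebra.smul_def, Algebra.smul_def, map_mul, τ.commutes]) }
  have hf : Function.Injective f := by
    intro x y hxy
    have : τ x.1 = τ y.1 := congrArg Subtype.val hxy
    exact Subtype.ext (τ.injective this)
  have h2 : FiniteDimensional F (pullField τ E) := FiniteDimensional.of_injective f hf
  exact FiniteDimensional.right F K (pullField τ E)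

theorem conjK_continuous (τ : GF F K) : Continuous (conjK τ) := by
  apply continuous_of_continuousAt_one
  rw [ContinuousAt, map_one, Filter.tendsto_def]
  intro s hs
  rw [krullTopology_mem_nhds_one_iff] at hs ⊢
  obtain ⟨E, hE, hs⟩ := hs
  have hE'' := pullField_finite τ E
  refine ⟨pullField τ E, hE'', ?_⟩
  intro g hg
  apply hs
  rw [SetLike.mem_coe, IntermediateField.mem_fixingSubgroup_iff] at hg ⊢
  intro x hx
  rw [conjK_apply, hg (τ.symm x) (by
    rw [mem_pullField, AlgEquiv.apply_symm_apply]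
    exact hx), AlgEquiv.apply_symm_apply]

theorem conjK_ker {n : ℕ} (ρ : GK K →* Matrix.GeneralLinearGroup (Fin n) ℤ_[p])
    (hρ : Continuous ρ) (h : CutNormal p F K ρ) (τ : GF F K) (g : GK K) (hg : ρ g = 1) :
    ρ (conjK τ g) = 1 := by
  have hcl : IsClosed (ρ.ker : Set (GK K)) := by
    have : (ρ.ker : Set (GK K)) = ρ ⁻¹' {1} := rfl
    rw [this]
    exact isClosed_singleton.preimage hρ
  have hfix := InfiniteGalois.fixingSubgroup_fixedField (⟨ρ.ker, hcl⟩ : ClosedSubgroup (GK K))
  have hfix' : ∀ g : GK K, g ∈ ρ.ker ↔ ∀ x ∈ IntermediateField.fixedField ρ.ker, g x = x := by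
    intro g
    rw [← IntermediateField.mem_fixingSubgroup_iff]
    have : (IntermediateField.fixedField ρ.ker).fixingSubgroup = ρ.ker := hfix
    rw [this]
  have hg' : g ∈ ρ.ker := hg
  rw [hfix'] at hg'
  change conjK τ g ∈ ρ.ker
  rw [hfix']
  intro x hx
  rw [conjK_apply, hg' _ (h τ.symm x hx), AlgEquiv.apply_symm_apply]

end Pool.Agent.Lib.MP_ca71b5_nt
end
end

section

section

/-!
# The inclusion of the absolute Galois groups
-/

set_option autoImplicit false
open scoped NumberField

namespace Pool.Agent.Lib.MP_ca71b5_nt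

variable {F K : Type} [Field F] [NumberField F] [Field K] [NumberField K] [Algebra F K]

theorem toGF_continuous : Continuous (toGF F K) := by
  apply continuous_of_continuousAt_one
  rw [ContinuousAt, map_one]
  intro U hU
  rw [krullTopology_mem_nhds_one_iff] at hU
  obtain ⟨E, hE, hEU⟩ := hU
  let b := Module.finBasis F E
  rw [Filter.mem_map]
  have h1 : (⋂ i, (MulAction.stabilizer (GK K) ((b i : E) : AlgebraicClosure K) : Set (GK K))) ∈
      nhds (1 : GK K) := by
    apply Filter.iInter_mem.mpr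
    intro i
    exact (stabilizer_isOpen_of_isIntegral (K := K)
      ((b i : E) : AlgebraicClosure K)).mem_nhds (Subgroup.one_mem _)
  refine Filter.mem_of_superset h1 ?_
  intro g hg
  apply hEU
  rw [Set.mem_iInter] at hg
  change toGF F K g ∈ E.fixingSubgroup
  rw [IntermediateField.mem_fixingSubgroup_iff]
  intro x hx
  have h2 : ((toGF F K g : GF F K).toAlgHom.toLinearMap.comp E.val.toLinearMap) =
      E.val.toLinearMap := by
    apply b.ext
    intro i
    exact hg i
  exact LinearMap.congr_fun h2 ⟨x, hx⟩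

/-- the image of `K` in the algebraic closure, as an extension of `F` -/
noncomputable def imK (F K : Type) [Field F] [NumberField F] [Field K] [NumberField K]
    [Algebra F K] : IntermediateField F (AlgebraicClosure K) :=
  (IsScalarTower.toAlgHom F K (AlgebraicClosure K)).fieldRange

theorem mem_imK (x : AlgebraicClosure K) :
    x ∈ imK F K ↔ ∃ a : K, algebraMap K (AlgebraicClosure K) a = x := Iff.rfl

theorem range_toGF : (toGF F K).range = (imK F K).fixingSubgroup := by
  ext g
  rw [IntermediateField.mem_fixingSubgroup_iff]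
  constructor
  · rintro ⟨h, rfl⟩ x ⟨a, rfl⟩
    exact h.commutes a
  · intro hg
    refine ⟨AlgEquiv.ofRingEquiv (f := g.toRingEquiv) ?_, ?_⟩
    · intro a
      exact hg _ ⟨a, rfl⟩
    · ext x
      rfl

noncomputable def imKEquiv (F K : Type) [Field F] [NumberField F] [Field K] [NumberField K]
    [Algebra F K] : K ≃ₐ[F] imK F K :=
  AlgEquiv.ofInjectiveField (IsScalarTower.toAlgHom F K (AlgebraicClosure K))

instance finiteDimensional_imK : FiniteDimensional F (imK F K) :=
  (imKEquiv F K).toLinearEquiv.finiteDimensional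

theorem toGF_isOpenMap : IsOpenMap (toGF F K) := by
  have h1 : Topology.IsClosedEmbedding (toGF F K) :=
    toGF_continuous.isClosedEmbedding (toGF_injective F K)
  have h2 : IsOpen (Set.range (toGF F K)) := by
    have h3 : Set.range (toGF F K) = ((imK F K).fixingSubgroup : Set (GF F K)) := by
      rw [← range_toGF]
      rfl
    rw [h3]
    exact IntermediateField.fixingSubgroup_isOpen _
  exact (Topology.IsOpenEmbedding.mk h1.isEmbedding h2).isOpenMap

theorem toGF_index : (toGF F K).range.index = Module.finrank F K := by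
  rw [range_toGF, ← IntermediateField.finrank_eq_fixingSubgroup_index]
  exact (imKEquiv F K).toLinearEquiv.finrank_eq.symm

theorem toGF_range_normal [IsGalois F K] : (toGF F K).range.Normal := by
  constructor
  rintro _ ⟨g, rfl⟩ τ
  exact ⟨conjK τ g, toGF_conjK τ g⟩

/-- open subgroups of `GF F K` -/
theorem fixedField_openF (V : Subgroup (GF F K)) [V.Normal] (hV : IsOpen (V : Set (GF F K))) :
    FiniteDimensional F (IntermediateField.fixedField V) ∧
      Module.finrank F (IntermediateField.fixedField V) = V.index ∧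
      IsGalois F (IntermediateField.fixedField V) ∧
      ∀ g : GF F K, g ∈ V ↔ ∀ x ∈ IntermediateField.fixedField V, g x = x := by
  obtain ⟨h1, h2, h3⟩ := fixedField_open_gen V hV
  exact ⟨h1, h2, (fixedField_open_normal_gen V hV).1, h3⟩

end Pool.Agent.Lib.MP_ca71b5_nt
end

section

/-!
# Bounded quotients from the tower
-/

set_option autoImplicit false
open scoped NumberField

namespace Pool.Agent.Lib.MP_ca71b5_nt

variable {p : ℕ} [Fact p.Prime] {F K : Type} [Field F] [NumberField F] [Field K] [NumberField K]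
  [Algebra F K] [IsGalois F K]

omit [NumberField F] [Algebra F K] [IsGalois F K] [Field F] in
/-- inertial automorphisms over `K` lie in the kernel of an unramified representation -/
theorem inertial_mem_ker {n : ℕ} (ρ : GK K →* Matrix.GeneralLinearGroup (Fin n) ℤ_[p])
    (hρ : Continuous ρ) (h : UnrPro p K ρ) (g : GK K)
    (hg : Pool.Agent.MPca71W.Inertial (AlgebraicClosure K) g.toRingEquiv) : g ∈ ρ.ker := by
  have hcl : IsClosed (ρ.ker : Set (GK K)) := by
    have : (ρ.ker : Set (GK K)) = ρ ⁻¹' {1} := rfl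
    rw [this]
    exact isClosed_singleton.preimage hρ
  have hfix : (IntermediateField.fixedField ρ.ker).fixingSubgroup = ρ.ker :=
    InfiniteGalois.fixingSubgroup_fixedField (⟨ρ.ker, hcl⟩ : ClosedSubgroup (GK K))
  have hgal : IsGalois K (IntermediateField.fixedField ρ.ker) := by
    rw [← InfiniteGalois.normal_iff_isGalois, hfix]
    infer_instance
  have hle : ∀ x ∈ IntermediateField.fixedField ρ.ker, g x = x := by
    intro x hx
    have hint : IsIntegral K x := (Algebra.IsAlgebraic.isAlgebraic x).isIntegral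
    have hfd : FiniteDimensional K (IntermediateField.adjoin K {x}) :=
      IntermediateField.adjoin.finiteDimensional hint
    let L : IntermediateField K (AlgebraicClosure K) :=
      IntermediateField.normalClosure K (IntermediateField.adjoin K {x}) (AlgebraicClosure K)
    have hxL : x ∈ L := by
      have h1 : IntermediateField.adjoin K {x} ≤ L := IntermediateField.le_normalClosure _
      exact h1 (IntermediateField.mem_adjoin_simple_self K x)
    have hLE : L ≤ IntermediateField.fixedField ρ.ker := by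
      have h1 : IntermediateField.adjoin K {x} ≤ IntermediateField.fixedField ρ.ker := by
        rw [IntermediateField.adjoin_simple_le_iff]
        exact hx
      exact IntermediateField.normalClosure_le_iff_of_normal.2 h1
    have hLfd : FiniteDimensional K L := inferInstance
    have hLgal : IsGalois K L := { }
    exact Pool.Agent.MPca71W.inertial_fixes L (h L hLE hLfd).2 g hg ⟨x, hxL⟩
  rw [← hfix, IntermediateField.mem_fixingSubgroup_iff]
  exact hle

theorem bounded_of_tower {n : ℕ} (ρ : GK K →* Matrix.GeneralLinearGroup (Fin n) ℤ_[p])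
    (hρ : Continuous ρ) (h : UnrPro p K ρ) (hT : FiniteTower p F) :
    ∃ B : ℕ, ∀ V : Subgroup (GF F K), V.Normal → IsOpen (V : Set (GF F K)) →
      (∀ g ∈ ρ.ker, toGF F K g ∈ V) → (∀ h : GF F K, Good (toGF F K) ρ.ker h → h ∈ V) →
      V.index ≤ B := by
  obtain ⟨B, hB⟩ := hT
  refine ⟨B, ?_⟩
  intro V hVn hV hKV hgood
  have hcl : IsClosed (ρ.ker : Set (GK K)) := by
    have : (ρ.ker : Set (GK K)) = ρ ⁻¹' {1} := rfl
    rw [this]
    exact isClosed_singleton.preimage hρ
  have hpro := proP_of_unrPro K ρ h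
  obtain ⟨k, hk⟩ := index_of_good (toGF F K) (toGF_injective F K) toGF_continuous
    toGF_isOpenMap toGF_range_normal ρ.ker hcl inferInstance hpro V hV hKV hgood
  obtain ⟨h1, h2, h3, h4⟩ := fixedField_openF V hV
  have hnf : NumberField (IntermediateField.fixedField V) := NumberField.of_module_finite F _
  have halg : Algebra.IsAlgebraic F (AlgebraicClosure K) := Algebra.IsAlgebraic.trans F K _
  rw [← h2]
  apply hB
  · exact ⟨k, by rw [h2, hk]⟩
  · apply Pool.Agent.MPca71W.unramified_of_inertial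
    intro f hf x
    have hfV : f ∈ V := by
      apply hgood
      intro m g hg
      have hfm := Pool.Agent.MPca71W.inertial_pow f hf m
      rw [← hg] at hfm
      exact inertial_mem_ker ρ hρ h g hfm
    exact (h4 f).1 hfV x x.2

end Pool.Agent.Lib.MP_ca71b5_nt
end
end

section

section

/-!
# Quotients on which a generator acts trivially
-/

set_option autoImplicit false
open scoped NumberField

namespace Pool.Agent.Lib.MP_ca71b5_nt

/-- the elements of a commutative group killed by `k` times a number prime to `p` -/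
private def killed (p k : ℕ) {Q : Type} [Group Q] (hc : ∀ x y : Q, x * y = y * x) :
    Subgroup Q where
  carrier := {x | ∃ r : ℕ, Nat.Coprime r p ∧ x ^ (k * r) = 1}
  one_mem' := ⟨1, Nat.coprime_one_left p, one_pow _⟩
  mul_mem' := by
    rintro x y ⟨r, hr, hx⟩ ⟨s, hs, hy⟩
    refine ⟨r * s, Nat.Coprime.mul_left hr hs, ?_⟩
    have h : Commute x y := hc x y
    rw [h.mul_pow]
    have e1 : k * (r * s) = (k * r) * s := by ring
    have e2 : k * (r * s) = (k * s) * r := by ring
    have h1 : x ^ (k * (r * s)) = 1 := by rw [e1, pow_mul, hx, one_pow]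
    have h2 : y ^ (k * (r * s)) = 1 := by rw [e2, pow_mul, hy, one_pow]
    rw [h1, h2, one_mul]
  inv_mem' := by
    rintro x ⟨r, hr, hx⟩
    exact ⟨r, hr, by rw [inv_pow, hx, inv_one]⟩

private theorem mem_killed {p k : ℕ} {Q : Type} [Group Q] (hc : ∀ x y : Q, x * y = y * x) (x : Q) :
    x ∈ killed p k hc ↔ ∃ r : ℕ, Nat.Coprime r p ∧ x ^ (k * r) = 1 := Iff.rfl

variable {p : ℕ} [Fact p.Prime] {F K : Type} [Field F] [NumberField F] [Field K] [NumberField K]
  [Algebra F K] [IsGalois F K]

omit [Fact p.Prime] in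
private theorem map_normal (τ : GF F K)
    (hτ : ∀ σ : GF F K, ∃ (k : ℕ) (g : GK K), σ = τ ^ k * toGF F K g)
    (W : Subgroup (GK K)) (hWn : W.Normal)
    (hconj : ∀ a : GK K, conjK τ a * a⁻¹ ∈ W) : (W.map (toGF F K)).Normal := by
  have hstep : ∀ w ∈ W, τ * toGF F K w * τ⁻¹ ∈ W.map (toGF F K) := by
    intro w hw
    rw [← toGF_conjK]
    refine Subgroup.mem_map_of_mem _ ?_
    have h := W.mul_mem (hconj w) hw
    rwa [inv_mul_cancel_right] at h
  have hpow : ∀ (k : ℕ), ∀ w ∈ W, τ ^ k * toGF F K w * (τ ^ k)⁻¹ ∈ W.map (toGF F K) := by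
    intro k
    induction k with
    | zero =>
      intro w hw
      rw [pow_zero, one_mul, inv_one, mul_one]
      exact Subgroup.mem_map_of_mem _ hw
    | succ k ih =>
      intro w hw
      obtain ⟨w', hw', he⟩ := ih w hw
      have h := hstep w' hw'
      have e : τ ^ (k + 1) * toGF F K w * (τ ^ (k + 1))⁻¹ =
          τ * (τ ^ k * toGF F K w * (τ ^ k)⁻¹) * τ⁻¹ := by
        rw [pow_succ']
        group
      rw [e, ← he]
      exact h
  constructor
  rintro _ ⟨w, hw, rfl⟩ x
  obtain ⟨k, g, rfl⟩ := hτ x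
  have e : τ ^ k * toGF F K g * toGF F K w * (τ ^ k * toGF F K g)⁻¹ =
      τ ^ k * toGF F K (g * w * g⁻¹) * (τ ^ k)⁻¹ := by
    rw [map_mul, map_mul, map_inv]
    group
  rw [e]
  exact hpow k _ (hWn.conj_mem w hw g)

omit [Fact p.Prime] in
private theorem quot_comm (τ : GF F K)
    (hτ : ∀ σ : GF F K, ∃ (k : ℕ) (g : GK K), σ = τ ^ k * toGF F K g)
    (W : Subgroup (GK K)) [hN : (W.map (toGF F K)).Normal]
    (hcomm : ∀ a b : GK K, a * b * a⁻¹ * b⁻¹ ∈ W) (hconj : ∀ a : GK K, conjK τ a * a⁻¹ ∈ W)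
    (x y : GF F K ⧸ W.map (toGF F K)) : x * y = y * x := by
  obtain ⟨x, rfl⟩ := QuotientGroup.mk_surjective x
  obtain ⟨y, rfl⟩ := QuotientGroup.mk_surjective y
  obtain ⟨k, a, rfl⟩ := hτ x
  obtain ⟨l, b, rfl⟩ := hτ y
  have hab : ∀ a b : GK K, Commute ((toGF F K a : GF F K) : GF F K ⧸ W.map (toGF F K))
      ((toGF F K b : GF F K) : GF F K ⧸ W.map (toGF F K)) := by
    intro a b
    have h := Subgroup.mem_map_of_mem (toGF F K) (hcomm a b)
    rw [← QuotientGroup.eq_one_iff, map_mul, map_mul, map_mul, map_inv, map_inv] at h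
    simp only [QuotientGroup.mk_mul, QuotientGroup.mk_inv] at h
    rw [mul_inv_eq_one, mul_inv_eq_iff_eq_mul] at h
    exact h
  have hta : ∀ a : GK K, Commute ((τ : GF F K) : GF F K ⧸ W.map (toGF F K))
      ((toGF F K a : GF F K) : GF F K ⧸ W.map (toGF F K)) := by
    intro a
    have h := Subgroup.mem_map_of_mem (toGF F K) (hconj a)
    rw [← QuotientGroup.eq_one_iff, map_mul, map_inv, toGF_conjK] at h
    simp only [QuotientGroup.mk_mul, QuotientGroup.mk_inv] at h
    rw [mul_inv_eq_one, mul_inv_eq_iff_eq_mul] at h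
    exact h
  rw [← QuotientGroup.mk_mul, ← QuotientGroup.mk_mul]
  simp only [QuotientGroup.mk_mul, QuotientGroup.mk_pow]
  have h1 := ((hta b).pow_left k)
  have h2 := ((hta a).pow_left l)
  have h3 := hab a b
  have h4 : Commute (((τ : GF F K) : GF F K ⧸ W.map (toGF F K)) ^ k)
      (((τ : GF F K) : GF F K ⧸ W.map (toGF F K)) ^ l) := (Commute.refl _).pow_pow k l
  exact (h4.mul_right h1).mul_left ((h2.symm).mul_right h3)

theorem exp_of_expLE {n : ℕ} (ρ : GK K →* Matrix.GeneralLinearGroup (Fin n) ℤ_[p])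
    (hρ : Continuous ρ) (h : UnrPro p K ρ) (s : ℕ) (hs : ExpLE p F s) (τ : GF F K)
    (hτ : ∀ σ : GF F K, ∃ (k : ℕ) (g : GK K), σ = τ ^ k * toGF F K g)
    (W : Subgroup (GK K)) (hWn : W.Normal) (hWo : IsOpen (W : Set (GK K))) (hW : ρ.ker ≤ W)
    (hcomm : ∀ a b : GK K, a * b * a⁻¹ * b⁻¹ ∈ W) (hconj : ∀ a : GK K, conjK τ a * a⁻¹ ∈ W)
    (a : GK K) : a ^ (p ^ (s + padicValNat p (Module.finrank F K))) ∈ W := by
  have hp : p.Prime := Fact.out
  have hm0 : Module.finrank F K ≠ 0 := Module.finrank_pos.ne'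
  obtain ⟨v, hv⟩ : ∃ v, v = padicValNat p (Module.finrank F K) := ⟨_, rfl⟩
  obtain ⟨m', hm', hm⟩ : ∃ m', Nat.Coprime m' p ∧ Module.finrank F K = p ^ v * m' := by
    refine ⟨Module.finrank F K / p ^ v, ?_, ?_⟩
    · rw [Nat.coprime_comm, hv, ← Nat.factorization_def _ hp]
      exact Nat.coprime_ordCompl hp hm0
    · rw [hv, ← Nat.factorization_def _ hp]
      exact (Nat.ordProj_mul_ordCompl_eq_self _ p).symm
  rw [← hv]
  have hN : (W.map (toGF F K)).Normal := map_normal τ hτ W hWn hconj
  have hc := quot_comm τ hτ W hcomm hconj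
  -- the subgroup V
  let V : Subgroup (GF F K) :=
    (killed p (p ^ v) hc).comap (QuotientGroup.mk' (W.map (toGF F K)))
  have hV : ∀ x : GF F K, x ∈ V ↔ ∃ r : ℕ, Nat.Coprime r p ∧
      x ^ (p ^ v * r) ∈ W.map (toGF F K) := by
    intro x
    change QuotientGroup.mk' (W.map (toGF F K)) x ∈ killed p (p ^ v) hc ↔ _
    rw [mem_killed]
    refine exists_congr fun r => and_congr_right fun _ => ?_
    rw [← map_pow, QuotientGroup.mk'_apply, QuotientGroup.eq_one_iff]
  have hWV : W.map (toGF F K) ≤ V := by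
    intro x hx
    rw [hV]
    exact ⟨1, Nat.coprime_one_left p, Subgroup.pow_mem _ hx _⟩
  have hVn : V.Normal := by
    constructor
    intro x hx y
    have e : y * x * y⁻¹ = y * x * y⁻¹ * x⁻¹ * x := by group
    rw [e]
    refine V.mul_mem (hWV ?_) hx
    rw [← QuotientGroup.eq_one_iff]
    simp only [QuotientGroup.mk_mul, QuotientGroup.mk_inv]
    rw [hc (y : GF F K ⧸ W.map (toGF F K)) x, mul_inv_cancel_right, mul_inv_cancel]
  have hVcomm : ∀ x y : GF F K ⧸ V, x * y = y * x := by
    intro x y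
    obtain ⟨x, rfl⟩ := QuotientGroup.mk_surjective x
    obtain ⟨y, rfl⟩ := QuotientGroup.mk_surjective y
    rw [← QuotientGroup.mk_mul, ← QuotientGroup.mk_mul, QuotientGroup.eq]
    refine hWV ?_
    rw [← QuotientGroup.eq, QuotientGroup.mk_mul, QuotientGroup.mk_mul]
    exact hc _ _
  have hWo' : IsOpen ((W.map (toGF F K) : Subgroup (GF F K)) : Set (GF F K)) := by
    rw [Subgroup.coe_map]
    exact toGF_isOpenMap _ hWo
  have hVo : IsOpen (V : Set (GF F K)) := Subgroup.isOpen_mono hWV hWo'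
  -- the index of V
  have hVfin : Finite (GF F K ⧸ V) := Subgroup.quotient_finite_of_isOpen V hVo
  have hV0 : V.index ≠ 0 := (Subgroup.finiteIndex_of_finite_quotient (H := V)).index_ne_zero
  have hidx : ∃ k : ℕ, V.index = p ^ k := by
    by_contra hcon
    have hex : ∃ l : ℕ, l.Prime ∧ l ∣ V.index ∧ l ≠ p := by
      by_contra h
      push Not at h
      exact hcon ⟨_, Nat.eq_prime_pow_of_unique_prime_dvd hV0 (fun {d} hd hdv => h d hd hdv)⟩
    obtain ⟨l, hl, hlV, hlp⟩ := hex
    have : Fact l.Prime := ⟨hl⟩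
    have hcard : l ∣ Nat.card (GF F K ⧸ V) := hlV
    obtain ⟨x, hx⟩ := exists_prime_orderOf_dvd_card' l hcard
    obtain ⟨y, rfl⟩ := QuotientGroup.mk_surjective x
    have hyl : y ^ l ∈ V := by
      rw [← QuotientGroup.eq_one_iff, QuotientGroup.mk_pow, ← hx]
      exact pow_orderOf_eq_one _
    have hyV : y ∉ V := by
      intro h
      rw [← QuotientGroup.eq_one_iff] at h
      rw [h, orderOf_one] at hx
      exact hl.one_lt.ne hx
    apply hyV
    rw [hV] at hyl ⊢
    obtain ⟨r, hr, hyr⟩ := hyl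
    refine ⟨l * r, Nat.Coprime.mul_left ((Nat.coprime_primes hl hp).2 hlp) hr, ?_⟩
    rw [← pow_mul] at hyr
    have e : p ^ v * (l * r) = l * (p ^ v * r) := by ring
    rw [e]
    exact hyr
  -- inertial elements
  have hin : ∀ f : GF F K, Pool.Agent.MPca71W.Inertial (AlgebraicClosure K) f.toRingEquiv →
      f ∈ V := by
    intro f hf
    have halg : Algebra.IsAlgebraic F (AlgebraicClosure K) := Algebra.IsAlgebraic.trans F K _
    have hnr : (toGF F K).range.Normal := toGF_range_normal
    have h1 := Subgroup.pow_index_mem (toGF F K).range f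
    rw [toGF_index] at h1
    obtain ⟨g, hg⟩ := h1
    have hfm := Pool.Agent.MPca71W.inertial_pow f hf (Module.finrank F K)
    rw [← hg] at hfm
    have hgk := hW (inertial_mem_ker ρ hρ h g hfm)
    rw [hV]
    refine ⟨m', hm', ?_⟩
    rw [← hm, ← hg]
    exact Subgroup.mem_map_of_mem _ hgk
  -- the extension cut out by V
  obtain ⟨h1, h2, h3, h4⟩ := fixedField_openF V hVo
  have hnf : NumberField (IntermediateField.fixedField V) := NumberField.of_module_finite F _
  have halg : Algebra.IsAlgebraic F (AlgebraicClosure K) := Algebra.IsAlgebraic.trans F K _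
  obtain ⟨-, ⟨e⟩⟩ := fixedField_open_normal_gen V hVo
  have hunr : Algebra.Unramified (𝓞 F) (𝓞 (IntermediateField.fixedField V)) := by
    apply Pool.Agent.MPca71W.unramified_of_inertial
    intro f hf x
    exact (h4 f).1 (hin f hf) x x.2
  have hexp := hs (IntermediateField.fixedField V)
    (fun x y => by
      apply e.injective
      rw [map_mul, map_mul]
      exact hVcomm _ _)
    (by
      obtain ⟨k, hk⟩ := hidx
      exact ⟨k, by rw [h2, hk]⟩) hunr
  have haV : (toGF F K a) ^ (p ^ s) ∈ V := by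
    rw [← QuotientGroup.eq_one_iff, QuotientGroup.mk_pow]
    have h5 := hexp (e.symm ((toGF F K a : GF F K) : GF F K ⧸ V))
    have h6 := congrArg e h5
    rwa [map_pow, MulEquiv.apply_symm_apply, map_one] at h6
  rw [hV] at haV
  obtain ⟨r, hr, har⟩ := haV
  rw [← map_pow, ← map_pow] at har
  obtain ⟨w, hw, hwe⟩ := har
  have hw2 := toGF_injective F K hwe
  rw [hw2] at hw
  obtain ⟨k, hk⟩ := proP_of_unrPro K ρ h W hWn hWo hW
  refine G6a_coprime W _ r (p ^ k) (Nat.Coprime.pow_right k hr) ?_ ?_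
  · rw [← pow_mul] at hw ⊢
    rw [pow_add, mul_assoc]
    exact hw
  · rw [← hk]
    exact Subgroup.pow_index_mem W _

end Pool.Agent.Lib.MP_ca71b5_nt
end

section

/-!
# Semisimple Lie algebras have dimension at least three
-/

set_option autoImplicit false

namespace Pool.Agent.Lib.MP_ca71b5_nt

variable {k : Type*} [Field k] [CharZero k] {L : Type*} [LieRing L] [LieAlgebra k L]
  [FiniteDimensional k L] [LieAlgebra.IsKilling k L]

theorem three_le_finrank [Nontrivial L] : 3 ≤ Module.finrank k L := by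
  by_contra hcon
  push Not at hcon
  have hpos : 0 < Module.finrank k L := Module.finrank_pos
  -- two generators
  obtain ⟨a, b, hab⟩ : ∃ a b : L, ∀ x : L, ∃ s t : k, x = s • a + t • b := by
    have h12 : Module.finrank k L = 1 ∨ Module.finrank k L = 2 := by omega
    rcases h12 with h1 | h2
    · obtain ⟨v, _, hv⟩ := finrank_eq_one_iff'.1 h1
      refine ⟨v, 0, fun x => ?_⟩
      obtain ⟨c, hc⟩ := hv x
      exact ⟨c, 0, by rw [hc, smul_zero, add_zero]⟩
    · let B := Module.finBasisOfFinrankEq k L h2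
      refine ⟨B 0, B 1, fun x => ⟨B.repr x 0, B.repr x 1, ?_⟩⟩
      conv_lhs => rw [← B.sum_repr x]
      rw [Fin.sum_univ_two]
  have hbr : ∀ x y : L, ⁅x, y⁆ ∈ Submodule.span k {⁅a, b⁆} := by
    intro x y
    obtain ⟨s, t, rfl⟩ := hab x
    obtain ⟨s', t', rfl⟩ := hab y
    have h1 : ⁅s • a + t • b, s' • a + t' • b⁆ = (s * t' - t * s') • ⁅a, b⁆ := by
      have h2 : ⁅b, a⁆ = -⁅a, b⁆ := (lie_skew b a).symm
      simp only [add_lie, lie_add, smul_lie, lie_smul, lie_self, smul_zero, zero_add, add_zero, h2,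
        smul_neg, smul_smul, sub_smul]
      rw [mul_comm s' t, mul_comm t' s]
      abel
    rw [h1]
    exact Submodule.smul_mem _ _ (Submodule.mem_span_singleton_self _)
  have hD1 : ∀ x ∈ LieAlgebra.derivedSeries k L 1, x ∈ Submodule.span k {⁅a, b⁆} := by
    intro x hx
    have h1 : x ∈ Submodule.span k {z : L | ∃ u v : L, ⁅u, v⁆ = z} := by
      rw [← LieAlgebra.coe_derivedSeries_one_eq]
      exact hx
    refine Submodule.span_le.2 ?_ h1
    rintro _ ⟨u, v, rfl⟩
    exact hbr u v
  have hD2 : LieAlgebra.derivedSeries k L 2 = ⊥ := by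
    rw [LieAlgebra.derivedSeries_def, LieAlgebra.derivedSeriesOfIdeal_succ, LieSubmodule.lie_eq_bot_iff]
    intro x hx y hy
    obtain ⟨c, hc⟩ := Submodule.mem_span_singleton.1 (hD1 x hx)
    obtain ⟨d, hd⟩ := Submodule.mem_span_singleton.1 (hD1 y hy)
    rw [← hc, ← hd, smul_lie, lie_smul, lie_self, smul_zero, smul_zero]
  have hsol : LieAlgebra.IsSolvable L := LieAlgebra.IsSolvable.mk hD2
  have htop : (⊤ : LieIdeal k L) = ⊥ := LieAlgebra.HasTrivialRadical.eq_bot_of_isSolvable _
  obtain ⟨x, hx⟩ := exists_ne (0 : L)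
  have h1 : x ∈ (⊤ : LieIdeal k L) := LieSubmodule.mem_top x
  rw [htop, LieSubmodule.mem_bot] at h1
  exact hx h1

end Pool.Agent.Lib.MP_ca71b5_nt
end
end
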