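import Mathlib
import Pool.Agent.Lib.MP_ca71b5_nt.LI2
import Pool.Agent.Lib.MP_ca71b5_nt.AP2
import Pool.Agent.Lib.MP_ca71b5_nt.LD
import Pool.Agent.Lib.MP_ca71b5_nt.CPDefs
import Pool.Agent.Lib.MP_ca71b5_nt.KR2
import Pool.Agent.Lib.MP_ca71b5_nt.Defs2
import Pool.Agent.Lib.MP_ca71b5_nt.L1a

section

/-!
# The automorphism has no fixed points
-/

set_option autoImplicit false

namespace Pool.Agent.Lib.MP_ca71b5_nt

variable {p : ℕ} [Fact p.Prime] {ι : Type} [Fintype ι] [DecidableEq ι]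
  {Γ : Type} [Group Γ] [TopologicalSpace Γ] [IsTopologicalGroup Γ] [CompactSpace Γ]


attribute [local instance 100] LieRing.ofAssociativeRing

/-- the subgroup of `p ^ i`-multiples of a lattice has finite index -/
private theorem ap3_index {V : Type*} [AddCommGroup V] [Module ℚ_[p] V]
    [FiniteDimensional ℚ_[p] V]
    (Λ : AddSubgroup V) (hsmul : ∀ (c : ℤ_[p]) (x : V), x ∈ Λ → (c : ℚ_[p]) • x ∈ Λ)
    (hfg : ∃ s : Finset V, ∀ x ∈ Λ, ∃ c : V → ℤ_[p], x = ∑ v ∈ s, (c v : ℚ_[p]) • v)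
    (e : ℕ) (Λ' : AddSubgroup V) (hΛ' : ∀ z ∈ Λ, ((p : ℚ_[p]) ^ e) • z ∈ Λ') :
    Λ'.relIndex Λ ≠ 0 := by
  induction e generalizing Λ' with
  | zero =>
    have : Λ ≤ Λ' := fun z hz => by simpa using hΛ' z hz
    rw [AddSubgroup.relIndex_eq_one.2 this]
    exact one_ne_zero
  | succ e ih =>
    -- the multiples of `p ^ e`
    let M : AddSubgroup V :=
      { carrier := {x | ∃ z ∈ Λ, x = ((p : ℚ_[p]) ^ e) • z}
        zero_mem' := ⟨0, Λ.zero_mem, by rw [smul_zero]⟩
        add_mem' := by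
          rintro _ _ ⟨z, hz, rfl⟩ ⟨z', hz', rfl⟩
          exact ⟨z + z', Λ.add_mem hz hz', by rw [smul_add]⟩
        neg_mem' := by
          rintro _ ⟨z, hz, rfl⟩
          exact ⟨-z, Λ.neg_mem hz, by rw [smul_neg]⟩ }
    have hM : ∀ x, x ∈ M ↔ ∃ z ∈ Λ, x = ((p : ℚ_[p]) ^ e) • z := fun x => Iff.rfl
    have hML : M ≤ Λ := by
      rintro x ⟨z, hz, rfl⟩
      have := hsmul ((p : ℤ_[p]) ^ e) z hz
      rwa [PadicInt.coe_pow, PadicInt.coe_natCast] at this
    have h1 : M.relIndex Λ ≠ 0 := ih M fun z hz => ⟨z, hz, rfl⟩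
    have hMs : ∀ (c : ℤ_[p]) (x : V), x ∈ M → (c : ℚ_[p]) • x ∈ M := by
      rintro c x ⟨z, hz, rfl⟩
      exact ⟨(c : ℚ_[p]) • z, hsmul c z hz, by rw [smul_comm]⟩
    have hMf : ∃ s : Finset V, ∀ x ∈ M, ∃ c : V → ℤ_[p], x = ∑ v ∈ s, (c v : ℚ_[p]) • v := by
      obtain ⟨s, hs⟩ := hfg
      exact ⟨s, fun x hx => hs x (hML hx)⟩
    let M' : AddSubgroup V :=
      { carrier := {x | ∃ z ∈ M, x = (p : ℚ_[p]) • z}
        zero_mem' := ⟨0, M.zero_mem, by rw [smul_zero]⟩
        add_mem' := by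
          rintro _ _ ⟨z, hz, rfl⟩ ⟨z', hz', rfl⟩
          exact ⟨z + z', M.add_mem hz hz', by rw [smul_add]⟩
        neg_mem' := by
          rintro _ ⟨z, hz, rfl⟩
          exact ⟨-z, M.neg_mem hz, by rw [smul_neg]⟩ }
    have key := lattice_index (p := p) M hMs hMf LinearMap.id (fun x hx => hx) M' (by
      intro x
      constructor
      · rintro ⟨z, hz, rfl⟩
        exact ⟨0, M.zero_mem, z, hz, by simp⟩
      · rintro ⟨y, _, z, hz, rfl⟩
        exact ⟨z, hz, by simp⟩)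
    have h2 : M'.relIndex M ≠ 0 :=
      (lt_of_lt_of_le (pow_pos (Fact.out : p.Prime).pos _) key).ne'
    have h3 : M'.relIndex Λ ≠ 0 := AddSubgroup.relIndex_ne_zero_trans h2 h1
    have h4 : M' ≤ Λ' := by
      rintro _ ⟨_, ⟨z, hz, rfl⟩, rfl⟩
      rw [smul_smul, ← pow_succ']
      exact hΛ' z hz
    exact fun h => h3 (AddSubgroup.relIndex_eq_zero_of_le_left h4 h)

omit [TopologicalSpace Γ] [IsTopologicalGroup Γ] [CompactSpace Γ] [Group Γ] in
/-- Matrices with bounded denominators are integral combinations of finitely many matrices. -/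
private theorem ap3_fg (N : ℕ) : ∃ s : Finset (MQ p ι), ∀ x : MQ p ι, Small (2 - N : ℤ) x →
    ∃ c : MQ p ι → ℤ_[p], x = ∑ v ∈ s, (c v : ℚ_[p]) • v := by
  classical
  have hp : ((p : ℚ_[p]) ^ N) ≠ 0 := pow_ne_zero _ (by exact_mod_cast (Fact.out : p.Prime).ne_zero)
  set f : ι × ι → MQ p ι := fun q => Matrix.single q.1 q.2 ((p : ℚ_[p]) ^ N)⁻¹ with hf
  have hinj : Function.Injective f := by
    rintro ⟨i, j⟩ ⟨i', j'⟩ h
    have h1 : f (i, j) i j = f (i', j') i j := by rw [h]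
    simp only [hf, Matrix.single_apply, and_self, if_true] at h1
    by_contra hne
    rw [if_neg] at h1
    · exact inv_ne_zero hp h1
    · rintro ⟨rfl, rfl⟩
      exact hne rfl
  refine ⟨Finset.univ.image f, fun x hx => ?_⟩
  have hc : ∀ q : ι × ι, ‖(p : ℚ_[p]) ^ N * x q.1 q.2‖ ≤ 1 := by
    intro q
    rw [norm_mul, norm_p_pow]
    have h2 : ‖x q.1 q.2‖ ≤ (p : ℝ) ^ (N : ℤ) :=
      (hx q.1 q.2).trans (zpow_le_zpow_right₀ (pR_one_lt p).le (by omega))
    calc (p : ℝ) ^ (-(N : ℤ)) * ‖x q.1 q.2‖ ≤ (p : ℝ) ^ (-(N : ℤ)) * (p : ℝ) ^ (N : ℤ) :=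
          mul_le_mul_of_nonneg_left h2 (zpow_pos (pR_pos p) _).le
      _ = 1 := by rw [← zpow_add₀ (pR_pos p).ne', neg_add_cancel, zpow_zero]
  refine ⟨Function.extend f (fun q => ⟨(p : ℚ_[p]) ^ N * x q.1 q.2, hc q⟩) 0, ?_⟩
  rw [Finset.sum_image (fun a _ b _ h => hinj h)]
  have e : ∀ q : ι × ι, ((Function.extend f (fun q => (⟨(p : ℚ_[p]) ^ N * x q.1 q.2, hc q⟩ : ℤ_[p])) 0
      (f q) : ℤ_[p]) : ℚ_[p]) • f q = Matrix.single q.1 q.2 (x q.1 q.2) := by
    intro q
    rw [hinj.extend_apply]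
    simp only [hf]
    rw [Matrix.smul_single]
    congr 1
    simp only [smul_eq_mul]
    field_simp
  rw [Finset.sum_congr rfl fun q _ => e q]
  rw [← Finset.univ_product_univ, Finset.sum_product]
  exact Matrix.matrix_eq_sum_single x

theorem no_fixed_points (ρ : Γ →* GLZ p ι) (hρ : Continuous ρ) (N : ℕ)
    (hN : ∀ g : Γ, Deep 2 N (ρ g)) (e t : ℕ) (het : t + 1 ≤ e)
    (hmul : ∀ (k : ℕ) (g h : Γ), ∃ z : Γ, ρ g ^ (p ^ k) * ρ h ^ (p ^ k) = ρ z ^ (p ^ k))
    (hpow : ∀ (k : ℕ) (g h : Γ), ∃ z : Γ,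
      (ρ g * ρ h) ^ (p ^ k) = ρ g ^ (p ^ k) * ρ h ^ (p ^ k) * ρ z ^ (p ^ (k + e)))
    (φ : Γ →* Γ) (P : GLZ p ι) (hφ : ∀ g : Γ, ρ (φ g) = P * ρ g * P⁻¹)
    (hexp : ∀ W : Subgroup Γ, W.Normal → IsOpen (W : Set Γ) → ρ.ker ≤ W →
      (∀ a b : Γ, a * b * a⁻¹ * b⁻¹ ∈ W) → (∀ a : Γ, φ a * a⁻¹ ∈ W) → ∀ a : Γ, a ^ (p ^ t) ∈ W)
    (x : MQ p ι) (hx : x ∈ gg ρ) (hfix : gm P * x * gm P⁻¹ = x) : x = 0 := by
  classical
  have hp0 : (p : ℚ_[p]) ≠ 0 := by
    exact_mod_cast (Fact.out : p.Prime).ne_zero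
  have hc : Continuous fun g : Γ => ell (ρ g) := ell_continuous (fun g => ρ g) hρ N hN
  have h1 : ell (ρ 1) = 0 := by rw [map_one, ell_one]
  have hinv : ∀ g : Γ, ell (ρ g⁻¹) = -ell (ρ g) := fun g => by
    rw [map_inv, ell_inv (ρ g) N (hN g)]
  -- the lattice
  let Λ : AddSubgroup (MQ p ι) :=
    { carrier := Set.range fun g : Γ => ell (ρ g)
      zero_mem' := ⟨1, h1⟩
      add_mem' := by
        rintro _ _ ⟨g, rfl⟩ ⟨h, rfl⟩
        obtain ⟨z, hz⟩ := exists_ell_add ρ hρ N hN hmul g h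
        exact ⟨z, hz⟩
      neg_mem' := by
        rintro _ ⟨g, rfl⟩
        exact ⟨g⁻¹, hinv g⟩ }
  have hΛ : ∀ x, x ∈ Λ ↔ ∃ g : Γ, ell (ρ g) = x := fun x => Iff.rfl
  have hΛc : IsCompact (Λ : Set (MQ p ι)) := isCompact_range hc
  have hmem : ∀ g : Γ, ell (ρ g) ∈ Λ := fun g => ⟨g, rfl⟩
  have hsmul : ∀ (c : ℤ_[p]) (x : MQ p ι), x ∈ Λ → (c : ℚ_[p]) • x ∈ Λ := by
    intro c x hx
    have hcl : IsClosed {c : ℤ_[p] | (c : ℚ_[p]) • x ∈ Λ} := by
      have hcont : Continuous fun c : ℤ_[p] => (c : ℚ_[p]) • x :=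
        continuous_subtype_val.smul continuous_const
      exact hΛc.isClosed.preimage hcont
    refine PadicInt.denseRange_natCast.induction_on (p := fun c : ℤ_[p] => (c : ℚ_[p]) • x ∈ Λ) c
      hcl fun n => ?_
    have e : (((n : ℤ_[p]) : ℚ_[p])) • x = n • x := by
      rw [PadicInt.coe_natCast, Nat.cast_smul_eq_nsmul]
    rw [e]
    exact Λ.nsmul_mem hx n
  have hsmulp : ∀ (k : ℕ) (x : MQ p ι), x ∈ Λ → ((p : ℚ_[p]) ^ k) • x ∈ Λ := by
    intro k x hx
    have := hsmul ((p : ℤ_[p]) ^ k) x hx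
    rwa [PadicInt.coe_pow, PadicInt.coe_natCast] at this
  have hsm : ∀ x ∈ Λ, Small (2 - N : ℤ) x := by
    rintro _ ⟨g, rfl⟩
    exact (ell_tendsto (ρ g) N (hN g)).2.2
  have hfg : ∃ s : Finset (MQ p ι), ∀ x ∈ Λ, ∃ c : MQ p ι → ℤ_[p],
      x = ∑ v ∈ s, (c v : ℚ_[p]) • v := by
    obtain ⟨s, hs⟩ := ap3_fg (p := p) (ι := ι) N
    exact ⟨s, fun x hx => hs _ (hsm x hx)⟩
  -- the automorphism
  let TM : MQ p ι →ₗ[ℚ_[p]] MQ p ι :=
    (LinearMap.mulRight ℚ_[p] (gm P⁻¹)).comp (LinearMap.mulLeft ℚ_[p] (gm P))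
  have hTM : ∀ x, TM x = gm P * x * gm P⁻¹ := fun x => rfl
  have hTM1 : ∀ g : Γ, TM (ell (ρ g)) = ell (ρ (φ g)) := by
    intro g
    rw [hTM, hφ, ell_conj (ρ g) P N (hN g)]
  have hTΛ : ∀ x ∈ Λ, TM x ∈ Λ := by
    rintro _ ⟨g, rfl⟩
    exact ⟨φ g, (hTM1 g).symm⟩
  let Λ' : AddSubgroup (MQ p ι) :=
    { carrier := {x | ∃ y ∈ Λ, ∃ z ∈ Λ, x = TM y - y + ((p : ℚ_[p]) ^ e) • z}
      zero_mem' := ⟨0, Λ.zero_mem, 0, Λ.zero_mem, by rw [map_zero, sub_self, smul_zero, add_zero]⟩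
      add_mem' := by
        rintro _ _ ⟨y, hy, z, hz, rfl⟩ ⟨y', hy', z', hz', rfl⟩
        refine ⟨y + y', Λ.add_mem hy hy', z + z', Λ.add_mem hz hz', ?_⟩
        rw [map_add, smul_add]
        abel
      neg_mem' := by
        rintro _ ⟨y, hy, z, hz, rfl⟩
        refine ⟨-y, Λ.neg_mem hy, -z, Λ.neg_mem hz, ?_⟩
        rw [map_neg, smul_neg]
        abel }
  have hΛ' : ∀ x : MQ p ι, x ∈ Λ' ↔ ∃ y ∈ Λ, ∃ z ∈ Λ, x = TM y - y + ((p : ℚ_[p]) ^ e) • z :=
    fun x => Iff.rfl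
  have hp : ∀ z ∈ Λ, ((p : ℚ_[p]) ^ e) • z ∈ Λ' := fun z hz =>
    ⟨0, Λ.zero_mem, z, hz, by rw [map_zero, sub_self, zero_add]⟩
  have hT1 : ∀ y ∈ Λ, TM y - y ∈ Λ' := fun y hy =>
    ⟨y, hy, 0, Λ.zero_mem, by rw [smul_zero, add_zero]⟩
  have key : Λ'.relIndex Λ ≠ 0 := ap3_index Λ hsmul hfg e Λ' hp
  -- the homomorphism
  let q : MQ p ι →+ MQ p ι ⧸ Λ' := QuotientAddGroup.mk' Λ'
  have hq0 : ∀ x, q x = 0 ↔ x ∈ Λ' := fun x => QuotientAddGroup.eq_zero_iff x
  let f : Γ →* Multiplicative (MQ p ι ⧸ Λ') :=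
    MonoidHom.mk' (fun g => Multiplicative.ofAdd (q (ell (ρ g)))) (by
      intro g h
      obtain ⟨z, hz⟩ := exists_ell_mul_deep ρ hρ N hN e hpow g h
      have e : q (ell (ρ (g * h))) = q (ell (ρ g)) + q (ell (ρ h)) := by
        rw [hz, map_add, map_add, (hq0 _).2 (hp _ (hmem z)), add_zero]
      rw [← ofAdd_add, e])
  have hf : ∀ g, f g = Multiplicative.ofAdd (q (ell (ρ g))) := fun g => rfl
  have hW : ∀ g, g ∈ f.ker ↔ ell (ρ g) ∈ Λ' := by
    intro g
    rw [MonoidHom.mem_ker, hf, ← hq0]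
    exact Multiplicative.ofAdd.apply_eq_iff_eq (x := q (ell (ρ g))) (y := 0)
  have hindex : f.ker.index = Λ'.relIndex Λ := by
    rw [Subgroup.index_ker]
    have e1 : Λ'.relIndex Λ = Nat.card (Λ.map q) := by
      have := AddSubgroup.relIndex_ker Λ q
      rwa [QuotientAddGroup.ker_mk'] at this
    rw [e1]
    refine Nat.card_congr ⟨fun x => ⟨Multiplicative.toAdd x.1, ?_⟩,
      fun x => ⟨Multiplicative.ofAdd x.1, ?_⟩, fun x => rfl, fun x => rfl⟩
    · obtain ⟨g, hg⟩ := x.2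
      exact ⟨ell (ρ g), hmem g, by rw [← hg]; rfl⟩
    · obtain ⟨y, ⟨g, hg⟩, hy⟩ := x.2
      refine ⟨g, ?_⟩
      rw [hf, ← hy, ← hg]
  -- openness
  have hΛ'c : IsCompact (Λ' : Set (MQ p ι)) := by
    have hcont : Continuous fun y : MQ p ι × MQ p ι =>
        gm P * y.1 * gm P⁻¹ - y.1 + ((p : ℚ_[p]) ^ e) • y.2 := by
      have c2 : Continuous fun y : MQ p ι × MQ p ι => ((p : ℚ_[p]) ^ e) • y.2 :=
        Continuous.const_smul continuous_snd ((p : ℚ_[p]) ^ e)
      exact ((((continuous_const.mul continuous_fst).mul continuous_const).sub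
        continuous_fst)).add c2
    have := (hΛc.prod hΛc).image hcont
    convert this using 1
    ext x
    constructor
    · rintro ⟨y, hy, z, hz, rfl⟩
      exact ⟨(y, z), ⟨hy, hz⟩, rfl⟩
    · rintro ⟨⟨y, z⟩, ⟨hy, hz⟩, rfl⟩
      exact ⟨y, hy, z, hz, rfl⟩
  have hclosed : IsClosed (f.ker : Set Γ) := by
    have : (f.ker : Set Γ) = (fun g : Γ => ell (ρ g)) ⁻¹' (Λ' : Set (MQ p ι)) := by
      ext g
      exact hW g
    rw [this]
    exact hΛ'c.isClosed.preimage hc
  have hfin : f.ker.FiniteIndex := ⟨by rw [hindex]; exact key⟩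
  have hpt : ∀ a : Γ, a ^ (p ^ t) ∈ f.ker := by
    refine hexp f.ker inferInstance (Subgroup.isOpen_of_isClosed_of_finiteIndex _ hclosed) ?_ ?_ ?_
    · intro g hg
      rw [MonoidHom.mem_ker] at hg
      rw [hW, hg, ell_one]
      exact Λ'.zero_mem
    · intro a b
      rw [MonoidHom.mem_ker, map_mul, map_mul, map_mul, map_inv, map_inv, mul_comm (f a) (f b),
        mul_inv_cancel_right, mul_inv_cancel]
    · intro a
      rw [MonoidHom.mem_ker, map_mul, map_inv, mul_inv_eq_one, hf, hf, ← hTM1]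
      congr 1
      rw [← sub_eq_zero, ← map_sub, hq0]
      exact hT1 _ (hmem a)
  -- one step
  have hstep : ∀ x ∈ Λ, ∃ y ∈ Λ, ∃ z ∈ Λ, ((p : ℚ_[p]) ^ t) • x =
      TM y - y + (p : ℚ_[p]) • (((p : ℚ_[p]) ^ t) • z) := by
    rintro _ ⟨g, rfl⟩
    have h2 := (hW _).1 (hpt g)
    rw [map_pow, ell_pow (ρ g) N (hN g)] at h2
    obtain ⟨y, hy, z, hz, h3⟩ := h2
    refine ⟨y, hy, ((p : ℚ_[p]) ^ (e - t - 1)) • z, hsmulp _ z hz, ?_⟩
    rw [Nat.cast_pow] at h3
    show ((p : ℚ_[p]) ^ t) • ell (ρ g) = _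
    rw [h3, smul_smul, smul_smul]
    congr 2
    rw [mul_comm (p : ℚ_[p]), mul_assoc, ← pow_succ', ← pow_add]
    congr 1
    omega
  -- iterate
  have hiter : ∀ (k : ℕ), ∀ x ∈ Λ, ∃ y ∈ Λ, ∃ z ∈ Λ, ((p : ℚ_[p]) ^ t) • x =
      TM y - y + ((p : ℚ_[p]) ^ k) • (((p : ℚ_[p]) ^ t) • z) := by
    intro k
    induction k with
    | zero =>
      intro x hx
      exact ⟨0, Λ.zero_mem, x, hx, by simp⟩
    | succ k ih =>
      intro x hx
      obtain ⟨y, hy, z, hz, h3⟩ := ih x hx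
      obtain ⟨y', hy', z', hz', h4⟩ := hstep z hz
      refine ⟨y + ((p : ℚ_[p]) ^ k) • y', Λ.add_mem hy (hsmulp k y' hy'), z', hz', ?_⟩
      rw [h3, h4, smul_add, smul_sub, map_add, map_smul, smul_smul, ← pow_succ]
      abel
  -- the image of `TM - 1` is closed
  have hIc : IsClosed ((fun y : MQ p ι => TM y - y) '' (Λ : Set (MQ p ι))) := by
    have hcont : Continuous fun y : MQ p ι => gm P * y * gm P⁻¹ - y :=
      ((continuous_const.mul continuous_id).mul continuous_const).sub continuous_id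
    exact (hΛc.image hcont).isClosed
  have hdiv : ∀ x ∈ Λ, ∃ y ∈ Λ, TM y - y = ((p : ℚ_[p]) ^ t) • x := by
    intro x hx
    choose y hy z hz h3 using fun k => hiter k x hx
    have hlim : Filter.Tendsto (fun k : ℕ => TM (y k) - y k) Filter.atTop
        (nhds (((p : ℚ_[p]) ^ t) • x)) := by
      have h5 : Filter.Tendsto (fun k : ℕ => ((p : ℚ_[p]) ^ k) • (((p : ℚ_[p]) ^ t) • z k))
          Filter.atTop (nhds 0) := by
        refine tendsto_zero_of_small fun s => ?_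
        filter_upwards [Filter.eventually_ge_atTop (N + s.toNat)] with k hk
        refine (((hsm (z k) (hz k)).p_smul t).p_smul k).mono ?_
        omega
      have h6 := h5.const_sub (((p : ℚ_[p]) ^ t) • x)
      rw [sub_zero] at h6
      refine h6.congr fun k => ?_
      rw [h3 k]
      abel
    exact hIc.mem_of_tendsto hlim (Filter.Eventually.of_forall fun k => ⟨y k, hy k, rfl⟩)
  -- linear algebra
  have hspan : Submodule.span ℚ_[p] (Λ : Set (MQ p ι)) = logSpan ρ := rfl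
  have hgg := gg_eq_logSpan ρ N hN
  have hTV : ∀ y ∈ logSpan ρ, (TM - LinearMap.id : MQ p ι →ₗ[ℚ_[p]] MQ p ι) y ∈ logSpan ρ := by
    intro y hy
    rw [← hspan] at hy ⊢
    induction hy using Submodule.span_induction with
    | mem y hy =>
      exact Submodule.sub_mem _ (Submodule.subset_span (hTΛ y hy)) (Submodule.subset_span hy)
    | zero => rw [map_zero]; exact Submodule.zero_mem _
    | add a b _ _ ha hb => rw [map_add]; exact Submodule.add_mem _ ha hb
    | smul c a _ ha => rw [map_smul]; exact Submodule.smul_mem _ _ ha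
  let F : logSpan ρ →ₗ[ℚ_[p]] logSpan ρ :=
    (TM - LinearMap.id : MQ p ι →ₗ[ℚ_[p]] MQ p ι).restrict hTV
  have hF : ∀ y, ((F y : logSpan ρ) : MQ p ι) = TM y - y := fun y => rfl
  have hsurj : Function.Surjective F := by
    have hmap : logSpan ρ ≤ (LinearMap.range F).map (logSpan ρ).subtype := by
      refine Submodule.span_le.2 ?_
      intro x hx
      obtain ⟨y, hy, h7⟩ := hdiv x hx
      have hyV : y ∈ logSpan ρ := by
        rw [← hspan]
        exact Submodule.subset_span hy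
      refine ⟨F (((p : ℚ_[p]) ^ t)⁻¹ • ⟨y, hyV⟩), ⟨_, rfl⟩, ?_⟩
      show ((F (((p : ℚ_[p]) ^ t)⁻¹ • ⟨y, hyV⟩) : logSpan ρ) : MQ p ι) = x
      rw [map_smul]
      show ((p : ℚ_[p]) ^ t)⁻¹ • (TM y - y) = x
      rw [h7, smul_smul, inv_mul_cancel₀ (pow_ne_zero _ hp0), one_smul]
    intro v
    obtain ⟨w, ⟨u, hu⟩, hw⟩ := hmap v.2
    refine ⟨u, ?_⟩
    rw [hu]
    exact Subtype.ext hw
  have hinj : Function.Injective F := LinearMap.injective_iff_surjective.2 hsurj
  have hxV : x ∈ logSpan ρ := by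
    rw [← hgg]
    exact hx
  have h8 : F ⟨x, hxV⟩ = F 0 := by
    rw [map_zero]
    apply Subtype.ext
    show TM x - x = 0
    rw [hTM, hfix, sub_self]
  exact congrArg Subtype.val (hinj h8)

end Pool.Agent.Lib.MP_ca71b5_nt
end

section

/-!
# Quotients on which a generator acts trivially, and multiples of the class group

Proof of `index_of_rankPow`. This is a modification of the proof of `exp_of_expLE` in `AN.lean`:
copy the private definitions and lemmas `killed`, `mem_killed`, `map_normal`, `quot_comm` and the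
proof down to the line `have hunr : Algebra.Unramified ...` (with `v` and `m'` as there; write `D`
for the subgroup called `V` there, so that `x ∈ D ↔ ∃ c coprime to p, x ^ (p^v * c) ∈ W.map toGF`).
Let `M = fixedField D` and `e : (M ≃ₐ[F] M) ≃* GF F K ⧸ D`; by `hs` the set
`X = {σ : M ≃ₐ[F] M // σ ^ p = 1 ∧ ∃ τ, τ ^ (p ^ s) = σ}` has at most `p ^ r` elements.
Define `Φ : GK K → X`, `Φ a = e.symm [toGF a ^ (p ^ s)]`: its `p`-th power is `1` because
`(toGF a) ^ (p ^ (s+1)) ∈ D` (take `c = 1` and `hexp`). If `Φ a = Φ b` then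
`(toGF (a⁻¹ * b)) ^ (p ^ s) ∈ D` (the quotient is commutative), hence
`(a⁻¹ * b) ^ (p ^ (s+v) * c) ∈ W` for some `c` coprime to `p` (`toGF_injective`), hence
`(a⁻¹ * b) ^ (p ^ (s+v)) ∈ W` by `G6a_coprime` as at the end of `exp_of_expLE`, i.e.
`a⁻¹ * b ∈ V`. So `Φ` induces an injection `GK K ⧸ V → X` (choose representatives:
`fun q => Φ q.out`), and `V.index = Nat.card (GK K ⧸ V) ≤ Nat.card X ≤ p ^ r`
(`Nat.card_le_card_of_injective`, `X` is finite).
-/

set_option autoImplicit false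
open scoped NumberField

namespace Pool.Agent.Lib.MP_ca71b5_nt

/-- the elements of a commutative group killed by `k` times a number prime to `p` -/
private def killed (p k : ℕ) {Q : Type} [Group Q] (hc : ∀ x y : Q, x * y = y * x) :
    Subgroup Q where
  carrier := {x | ∃ r : ℕ, Nat.Coprime r p ∧ x ^ (k * r) = 1}
  one_mem' := ⟨1, Nat.coprime_one_left p, one_pow _⟩
  mul_mem' := by
    rintro x y ⟨r, hr, hx⟩ ⟨s, hs, hy⟩
    refine ⟨r * s, Nat.Coprime.mul_left hr hs, ?_⟩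
    have h : Commute x y := hc x y
    rw [h.mul_pow]
    have e1 : k * (r * s) = (k * r) * s := by ring
    have e2 : k * (r * s) = (k * s) * r := by ring
    have h1 : x ^ (k * (r * s)) = 1 := by rw [e1, pow_mul, hx, one_pow]
    have h2 : y ^ (k * (r * s)) = 1 := by rw [e2, pow_mul, hy, one_pow]
    rw [h1, h2, one_mul]
  inv_mem' := by
    rintro x ⟨r, hr, hx⟩
    exact ⟨r, hr, by rw [inv_pow, hx, inv_one]⟩

private theorem mem_killed {p k : ℕ} {Q : Type} [Group Q] (hc : ∀ x y : Q, x * y = y * x) (x : Q) :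
    x ∈ killed p k hc ↔ ∃ r : ℕ, Nat.Coprime r p ∧ x ^ (k * r) = 1 := Iff.rfl

variable {p : ℕ} [Fact p.Prime] {F K : Type} [Field F] [NumberField F] [Field K] [NumberField K]
  [Algebra F K] [IsGalois F K]

omit [Fact p.Prime] in
private theorem map_normal (τ : GF F K)
    (hτ : ∀ σ : GF F K, ∃ (k : ℕ) (g : GK K), σ = τ ^ k * toGF F K g)
    (W : Subgroup (GK K)) (hWn : W.Normal)
    (hconj : ∀ a : GK K, conjK τ a * a⁻¹ ∈ W) : (W.map (toGF F K)).Normal := by
  have hstep : ∀ w ∈ W, τ * toGF F K w * τ⁻¹ ∈ W.map (toGF F K) := by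
    intro w hw
    rw [← toGF_conjK]
    refine Subgroup.mem_map_of_mem _ ?_
    have h := W.mul_mem (hconj w) hw
    rwa [inv_mul_cancel_right] at h
  have hpow : ∀ (k : ℕ), ∀ w ∈ W, τ ^ k * toGF F K w * (τ ^ k)⁻¹ ∈ W.map (toGF F K) := by
    intro k
    induction k with
    | zero =>
      intro w hw
      rw [pow_zero, one_mul, inv_one, mul_one]
      exact Subgroup.mem_map_of_mem _ hw
    | succ k ih =>
      intro w hw
      obtain ⟨w', hw', he⟩ := ih w hw
      have h := hstep w' hw'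
      have e : τ ^ (k + 1) * toGF F K w * (τ ^ (k + 1))⁻¹ =
          τ * (τ ^ k * toGF F K w * (τ ^ k)⁻¹) * τ⁻¹ := by
        rw [pow_succ']
        group
      rw [e, ← he]
      exact h
  constructor
  rintro _ ⟨w, hw, rfl⟩ x
  obtain ⟨k, g, rfl⟩ := hτ x
  have e : τ ^ k * toGF F K g * toGF F K w * (τ ^ k * toGF F K g)⁻¹ =
      τ ^ k * toGF F K (g * w * g⁻¹) * (τ ^ k)⁻¹ := by
    rw [map_mul, map_mul, map_inv]
    group
  rw [e]
  exact hpow k _ (hWn.conj_mem w hw g)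

omit [Fact p.Prime] in
private theorem quot_comm (τ : GF F K)
    (hτ : ∀ σ : GF F K, ∃ (k : ℕ) (g : GK K), σ = τ ^ k * toGF F K g)
    (W : Subgroup (GK K)) [hN : (W.map (toGF F K)).Normal]
    (hcomm : ∀ a b : GK K, a * b * a⁻¹ * b⁻¹ ∈ W) (hconj : ∀ a : GK K, conjK τ a * a⁻¹ ∈ W)
    (x y : GF F K ⧸ W.map (toGF F K)) : x * y = y * x := by
  obtain ⟨x, rfl⟩ := QuotientGroup.mk_surjective x
  obtain ⟨y, rfl⟩ := QuotientGroup.mk_surjective y
  obtain ⟨k, a, rfl⟩ := hτ x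
  obtain ⟨l, b, rfl⟩ := hτ y
  have hab : ∀ a b : GK K, Commute ((toGF F K a : GF F K) : GF F K ⧸ W.map (toGF F K))
      ((toGF F K b : GF F K) : GF F K ⧸ W.map (toGF F K)) := by
    intro a b
    have h := Subgroup.mem_map_of_mem (toGF F K) (hcomm a b)
    rw [← QuotientGroup.eq_one_iff, map_mul, map_mul, map_mul, map_inv, map_inv] at h
    simp only [QuotientGroup.mk_mul, QuotientGroup.mk_inv] at h
    rw [mul_inv_eq_one, mul_inv_eq_iff_eq_mul] at h
    exact h
  have hta : ∀ a : GK K, Commute ((τ : GF F K) : GF F K ⧸ W.map (toGF F K))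
      ((toGF F K a : GF F K) : GF F K ⧸ W.map (toGF F K)) := by
    intro a
    have h := Subgroup.mem_map_of_mem (toGF F K) (hconj a)
    rw [← QuotientGroup.eq_one_iff, map_mul, map_inv, toGF_conjK] at h
    simp only [QuotientGroup.mk_mul, QuotientGroup.mk_inv] at h
    rw [mul_inv_eq_one, mul_inv_eq_iff_eq_mul] at h
    exact h
  rw [← QuotientGroup.mk_mul, ← QuotientGroup.mk_mul]
  simp only [QuotientGroup.mk_mul, QuotientGroup.mk_pow]
  have h1 := ((hta b).pow_left k)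
  have h2 := ((hta a).pow_left l)
  have h3 := hab a b
  have h4 : Commute (((τ : GF F K) : GF F K ⧸ W.map (toGF F K)) ^ k)
      (((τ : GF F K) : GF F K ⧸ W.map (toGF F K)) ^ l) := (Commute.refl _).pow_pow k l
  exact (h4.mul_right h1).mul_left ((h2.symm).mul_right h3)

theorem index_of_rankPow {n : ℕ} (ρ : GK K →* Matrix.GeneralLinearGroup (Fin n) ℤ_[p])
    (hρ : Continuous ρ) (h : UnrPro p K ρ) (s r : ℕ) (hs : RankPow p F s r) (τ : GF F K)
    (hτ : ∀ σ : GF F K, ∃ (k : ℕ) (g : GK K), σ = τ ^ k * toGF F K g)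
    (W V : Subgroup (GK K)) (hWn : W.Normal) (hWo : IsOpen (W : Set (GK K))) (hW : ρ.ker ≤ W)
    (hcomm : ∀ a b : GK K, a * b * a⁻¹ * b⁻¹ ∈ W) (hconj : ∀ a : GK K, conjK τ a * a⁻¹ ∈ W)
    (hexp : ∀ a : GK K, a ^ (p ^ (s + padicValNat p (Module.finrank F K) + 1)) ∈ W)
    (hV : ∀ a : GK K, a ∈ V ↔ a ^ (p ^ (s + padicValNat p (Module.finrank F K))) ∈ W) :
    V.index ≤ p ^ r := by
  have hp : p.Prime := Fact.out
  have hm0 : Module.finrank F K ≠ 0 := Module.finrank_pos.ne'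
  obtain ⟨v, hv⟩ : ∃ v, v = padicValNat p (Module.finrank F K) := ⟨_, rfl⟩
  obtain ⟨m', hm', hm⟩ : ∃ m', Nat.Coprime m' p ∧ Module.finrank F K = p ^ v * m' := by
    refine ⟨Module.finrank F K / p ^ v, ?_, ?_⟩
    · rw [Nat.coprime_comm, hv, ← Nat.factorization_def _ hp]
      exact Nat.coprime_ordCompl hp hm0
    · rw [hv, ← Nat.factorization_def _ hp]
      exact (Nat.ordProj_mul_ordCompl_eq_self _ p).symm
  rw [← hv] at hexp hV
  have hN : (W.map (toGF F K)).Normal := map_normal τ hτ W hWn hconj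
  have hc := quot_comm τ hτ W hcomm hconj
  -- the subgroup D
  let D : Subgroup (GF F K) :=
    (killed p (p ^ v) hc).comap (QuotientGroup.mk' (W.map (toGF F K)))
  have hD : ∀ x : GF F K, x ∈ D ↔ ∃ r : ℕ, Nat.Coprime r p ∧
      x ^ (p ^ v * r) ∈ W.map (toGF F K) := by
    intro x
    change QuotientGroup.mk' (W.map (toGF F K)) x ∈ killed p (p ^ v) hc ↔ _
    rw [mem_killed]
    refine exists_congr fun r => and_congr_right fun _ => ?_
    rw [← map_pow, QuotientGroup.mk'_apply, QuotientGroup.eq_one_iff]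
  have hWD : W.map (toGF F K) ≤ D := by
    intro x hx
    rw [hD]
    exact ⟨1, Nat.coprime_one_left p, Subgroup.pow_mem _ hx _⟩
  have hDn : D.Normal := by
    constructor
    intro x hx y
    have e : y * x * y⁻¹ = y * x * y⁻¹ * x⁻¹ * x := by group
    rw [e]
    refine D.mul_mem (hWD ?_) hx
    rw [← QuotientGroup.eq_one_iff]
    simp only [QuotientGroup.mk_mul, QuotientGroup.mk_inv]
    rw [hc (y : GF F K ⧸ W.map (toGF F K)) x, mul_inv_cancel_right, mul_inv_cancel]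
  have hDcomm : ∀ x y : GF F K ⧸ D, x * y = y * x := by
    intro x y
    obtain ⟨x, rfl⟩ := QuotientGroup.mk_surjective x
    obtain ⟨y, rfl⟩ := QuotientGroup.mk_surjective y
    rw [← QuotientGroup.mk_mul, ← QuotientGroup.mk_mul, QuotientGroup.eq]
    refine hWD ?_
    rw [← QuotientGroup.eq, QuotientGroup.mk_mul, QuotientGroup.mk_mul]
    exact hc _ _
  have hWo' : IsOpen ((W.map (toGF F K) : Subgroup (GF F K)) : Set (GF F K)) := by
    rw [Subgroup.coe_map]
    exact toGF_isOpenMap _ hWo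
  have hDo : IsOpen (D : Set (GF F K)) := Subgroup.isOpen_mono hWD hWo'
  -- the index of D
  have hDfin : Finite (GF F K ⧸ D) := Subgroup.quotient_finite_of_isOpen D hDo
  have hD0 : D.index ≠ 0 := (Subgroup.finiteIndex_of_finite_quotient (H := D)).index_ne_zero
  have hidx : ∃ k : ℕ, D.index = p ^ k := by
    by_contra hcon
    have hex : ∃ l : ℕ, l.Prime ∧ l ∣ D.index ∧ l ≠ p := by
      by_contra h
      push Not at h
      exact hcon ⟨_, Nat.eq_prime_pow_of_unique_prime_dvd hD0 (fun {d} hd hdv => h d hd hdv)⟩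
    obtain ⟨l, hl, hlV, hlp⟩ := hex
    have : Fact l.Prime := ⟨hl⟩
    have hcard : l ∣ Nat.card (GF F K ⧸ D) := hlV
    obtain ⟨x, hx⟩ := exists_prime_orderOf_dvd_card' l hcard
    obtain ⟨y, rfl⟩ := QuotientGroup.mk_surjective x
    have hyl : y ^ l ∈ D := by
      rw [← QuotientGroup.eq_one_iff, QuotientGroup.mk_pow, ← hx]
      exact pow_orderOf_eq_one _
    have hyD : y ∉ D := by
      intro h
      rw [← QuotientGroup.eq_one_iff] at h
      rw [h, orderOf_one] at hx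
      exact hl.one_lt.ne hx
    apply hyD
    rw [hD] at hyl ⊢
    obtain ⟨r, hr, hyr⟩ := hyl
    refine ⟨l * r, Nat.Coprime.mul_left ((Nat.coprime_primes hl hp).2 hlp) hr, ?_⟩
    rw [← pow_mul] at hyr
    have e : p ^ v * (l * r) = l * (p ^ v * r) := by ring
    rw [e]
    exact hyr
  -- inertial elements
  have hin : ∀ f : GF F K, Pool.Agent.MPca71W.Inertial (AlgebraicClosure K) f.toRingEquiv →
      f ∈ D := by
    intro f hf
    have halg : Algebra.IsAlgebraic F (AlgebraicClosure K) := Algebra.IsAlgebraic.trans F K _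
    have hnr : (toGF F K).range.Normal := toGF_range_normal
    have h1 := Subgroup.pow_index_mem (toGF F K).range f
    rw [toGF_index] at h1
    obtain ⟨g, hg⟩ := h1
    have hfm := Pool.Agent.MPca71W.inertial_pow f hf (Module.finrank F K)
    rw [← hg] at hfm
    have hgk := hW (inertial_mem_ker ρ hρ h g hfm)
    rw [hD]
    refine ⟨m', hm', ?_⟩
    rw [← hm, ← hg]
    exact Subgroup.mem_map_of_mem _ hgk
  -- the extension cut out by D
  obtain ⟨h1, h2, h3, h4⟩ := fixedField_openF D hDo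
  have hnf : NumberField (IntermediateField.fixedField D) := NumberField.of_module_finite F _
  have halg : Algebra.IsAlgebraic F (AlgebraicClosure K) := Algebra.IsAlgebraic.trans F K _
  obtain ⟨-, ⟨e⟩⟩ := fixedField_open_normal_gen D hDo
  have hunr : Algebra.Unramified (𝓞 F) (𝓞 (IntermediateField.fixedField D)) := by
    apply Pool.Agent.MPca71W.unramified_of_inertial
    intro f hf x
    exact (h4 f).1 (hin f hf) x x.2
  have hcommM : ∀ x y : IntermediateField.fixedField D ≃ₐ[F] IntermediateField.fixedField D,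
      x * y = y * x := by
    intro x y
    apply e.injective
    rw [map_mul, map_mul]
    exact hDcomm _ _
  have hcardX := hs (IntermediateField.fixedField D) hcommM
    (by
      obtain ⟨k, hk⟩ := hidx
      exact ⟨k, by rw [h2, hk]⟩) hunr
  -- the map
  have hq1 : ∀ a : GK K, (((toGF F K a : GF F K) : GF F K ⧸ D) ^ (p ^ s)) ^ p = 1 := by
    intro a
    rw [← pow_mul, ← QuotientGroup.mk_pow, QuotientGroup.eq_one_iff, hD]
    refine ⟨1, Nat.coprime_one_left p, ?_⟩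
    rw [← pow_mul, ← map_pow]
    refine Subgroup.mem_map_of_mem _ ?_
    have e1 : p ^ s * p * (p ^ v * 1) = p ^ (s + v + 1) := by ring
    rw [e1]
    exact hexp a
  let X := {σ : IntermediateField.fixedField D ≃ₐ[F] IntermediateField.fixedField D //
    σ ^ p = 1 ∧ ∃ τ : IntermediateField.fixedField D ≃ₐ[F] IntermediateField.fixedField D,
      τ ^ (p ^ s) = σ}
  let Φ : GK K → X := fun a => ⟨e.symm (((toGF F K a : GF F K) : GF F K ⧸ D) ^ (p ^ s)), by
    rw [← map_pow, hq1, map_one], e.symm ((toGF F K a : GF F K) : GF F K ⧸ D), by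
    rw [map_pow]⟩
  have hΦ : ∀ a b : GK K, Φ a = Φ b → a⁻¹ * b ∈ V := by
    intro a b hab
    have h5 : e.symm (((toGF F K a : GF F K) : GF F K ⧸ D) ^ (p ^ s)) =
        e.symm (((toGF F K b : GF F K) : GF F K ⧸ D) ^ (p ^ s)) := congrArg Subtype.val hab
    have h6 := e.symm.injective h5
    have haD : (toGF F K (a⁻¹ * b)) ^ (p ^ s) ∈ D := by
      rw [← QuotientGroup.eq_one_iff, QuotientGroup.mk_pow, map_mul, map_inv]
      rw [QuotientGroup.mk_mul, QuotientGroup.mk_inv]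
      have hcm : Commute (((toGF F K a : GF F K) : GF F K ⧸ D)⁻¹)
          ((toGF F K b : GF F K) : GF F K ⧸ D) := hDcomm _ _
      rw [hcm.mul_pow, inv_pow, h6, inv_mul_cancel]
    rw [hD] at haD
    obtain ⟨r', hr', har⟩ := haD
    rw [← map_pow, ← map_pow] at har
    obtain ⟨w, hw, hwe⟩ := har
    have hw2 := toGF_injective F K hwe
    rw [hw2] at hw
    obtain ⟨k, hk⟩ := proP_of_unrPro K ρ h W hWn hWo hW
    rw [hV]
    refine G6a_coprime W _ r' (p ^ k) (Nat.Coprime.pow_right k hr') ?_ ?_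
    · rw [← pow_mul] at hw ⊢
      rw [pow_add, mul_assoc]
      exact hw
    · rw [← hk]
      exact Subgroup.pow_index_mem W _
  have hXfin : Finite (IntermediateField.fixedField D ≃ₐ[F] IntermediateField.fixedField D) := by
    infer_instance
  have hXf : Finite X := by
    show Finite {σ : IntermediateField.fixedField D ≃ₐ[F] IntermediateField.fixedField D //
      σ ^ p = 1 ∧ ∃ τ : IntermediateField.fixedField D ≃ₐ[F] IntermediateField.fixedField D,
      τ ^ (p ^ s) = σ}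
    infer_instance
  have hinj : Function.Injective fun q : GK K ⧸ V => Φ q.out := by
    intro q1 q2 h12
    have h7 := hΦ _ _ h12
    have h8 : ((q1.out : GK K) : GK K ⧸ V) = ((q2.out : GK K) : GK K ⧸ V) := QuotientGroup.eq.2 h7
    rwa [QuotientGroup.out_eq', QuotientGroup.out_eq'] at h8
  exact (Nat.card_le_card_of_injective _ hinj).trans hcardX

end Pool.Agent.Lib.MP_ca71b5_nt
end

section

/-!
# The main theorem on automorphisms of prime order, with a given element of the Galois group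
-/

set_option autoImplicit false

namespace Pool.Agent.Lib.MP_ca71b5_nt

open TensorProduct

theorem auto_main_gen (p l a : ℕ) [Fact p.Prime] [Fact l.Prime] (hl2 : l ≠ 2)
    (ζ : AlgebraicClosure ℚ_[p]) (σ : AlgebraicClosure ℚ_[p] ≃ₐ[ℚ_[p]] AlgebraicClosure ℚ_[p])
    (hζ : IsPrimitiveRoot ζ l) (hσ : σ ζ = ζ ^ a) {L : Type} [LieRing L] [LieAlgebra ℚ_[p] L] [FiniteDimensional ℚ_[p] L]
    [LieAlgebra.IsKilling ℚ_[p] L] (T : L ≃ₗ⁅ℚ_[p]⁆ L) (hT : ∀ x, T^[l] x = x)
    (hT1 : ∃ x, T x ≠ x) :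
    (∃ m : ℕ, 1 ≤ m ∧ m ≤ Module.finrank ℚ_[p] (fixS T) ∧ 3 * m ≤ Module.finrank ℚ_[p] L ∧
      ∃ M : Matrix (Fin m) (Fin m) ℤ, IsOfFinOrder M ∧ orderOf (a : ZMod l) ∣ orderOf M) ∨
    (3 * l ≤ Module.finrank ℚ_[p] L ∧ 3 ≤ Module.finrank ℚ_[p] (fixS T)) := by
  classical
  obtain ⟨x₀, hx₀⟩ := hT1
  have hnt : Nontrivial L := ⟨⟨T x₀, x₀, hx₀⟩⟩
  obtain ⟨a₀, ha0, hTa, hac⟩ := exists_cartan l T hT
  have hch : CharZero (AlgebraicClosure ℚ_[p]) := charZero_of_injective_algebraMap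
    (algebraMap ℚ_[p] (AlgebraicClosure ℚ_[p])).injective
  have hK : LieAlgebra.IsKilling (AlgebraicClosure ℚ_[p]) (AlgebraicClosure ℚ_[p] ⊗[ℚ_[p]] L) :=
    isKilling_baseChange
  obtain ⟨T', hT'1, hT'2⟩ := exists_auto_baseChange (E := AlgebraicClosure ℚ_[p]) T
  have hT'l := iterate_baseChange T T' hT'1 l hT
  have hH := cartan_baseChange (E := AlgebraicClosure ℚ_[p]) a₀ hac
  set aE : AlgebraicClosure ℚ_[p] ⊗[ℚ_[p]] L := (1 : AlgebraicClosure ℚ_[p]) ⊗ₜ[ℚ_[p]] a₀ with haE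
  set H := LieSubalgebra.engel (AlgebraicClosure ℚ_[p]) aE with hHdef
  have hinj : Function.Injective
      (fun x : L => ((1 : AlgebraicClosure ℚ_[p]) ⊗ₜ[ℚ_[p]] x : AlgebraicClosure ℚ_[p] ⊗[ℚ_[p]] L)) :=
    Module.FaithfullyFlat.tensorProduct_mk_injective (A := ℚ_[p]) (B := AlgebraicClosure ℚ_[p]) L
  have haE0 : aE ≠ 0 := by
    intro h
    apply ha0
    apply hinj
    show ((1 : AlgebraicClosure ℚ_[p]) ⊗ₜ[ℚ_[p]] a₀ : AlgebraicClosure ℚ_[p] ⊗[ℚ_[p]] L) =
      (1 : AlgebraicClosure ℚ_[p]) ⊗ₜ[ℚ_[p]] (0 : L)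
    rw [TensorProduct.tmul_zero]
    exact h
  have haH : aE ∈ H := LieSubalgebra.self_mem_engel _ aE
  have hTaE : T' aE = aE := by rw [haE, hT'1, hTa]
  have hdim : Module.finrank (AlgebraicClosure ℚ_[p]) (AlgebraicClosure ℚ_[p] ⊗[ℚ_[p]] L) =
      Module.finrank ℚ_[p] L := Module.finrank_baseChange
  have hT'ne : ∃ x, T' x ≠ x := by
    refine ⟨(1 : AlgebraicClosure ℚ_[p]) ⊗ₜ[ℚ_[p]] x₀, fun h => hx₀ (hinj ?_)⟩
    rw [hT'1] at h
    exact h
  by_cases hcase : ∀ x ∈ H, T' x = x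
  · left
    refine ⟨Module.finrank (AlgebraicClosure ℚ_[p]) H, ?_, ?_, ?_, ?_⟩
    · rw [Nat.one_le_iff_ne_zero]
      intro h0
      have h1 : Subsingleton H := Module.finrank_zero_iff.1 h0
      have h2 : (⟨aE, haH⟩ : H) = 0 := Subsingleton.elim _ _
      exact haE0 (congrArg Subtype.val h2)
    · rw [← hT'2]
      exact Submodule.finrank_mono (s := H.toSubmodule) (t := fixS T') fun x hx => hcase x hx
    · rw [← hdim]
      exact three_mul_rank_le H
    · let S₀ : (AlgebraicClosure ℚ_[p] ⊗[ℚ_[p]] L) ≃ₗ[ℚ_[p]] (AlgebraicClosure ℚ_[p] ⊗[ℚ_[p]] L) :=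
        TensorProduct.congr σ.toLinearEquiv (LinearEquiv.refl ℚ_[p] L)
      have hS0 : ∀ (c : AlgebraicClosure ℚ_[p]) (x : L), S₀ (c ⊗ₜ[ℚ_[p]] x) = σ c ⊗ₜ[ℚ_[p]] x :=
        fun c x => rfl
      let S : (AlgebraicClosure ℚ_[p] ⊗[ℚ_[p]] L) ≃+ (AlgebraicClosure ℚ_[p] ⊗[ℚ_[p]] L) :=
        S₀.toAddEquiv
      have hSp : ∀ (c : AlgebraicClosure ℚ_[p]) (x : L), S (c ⊗ₜ[ℚ_[p]] x) = σ c ⊗ₜ[ℚ_[p]] x :=
        fun c x => rfl
      have hS1 : ∀ (c : AlgebraicClosure ℚ_[p]) (x : AlgebraicClosure ℚ_[p] ⊗[ℚ_[p]] L),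
          S (c • x) = (σ : AlgebraicClosure ℚ_[p] ≃+* AlgebraicClosure ℚ_[p]) c • S x := by
        intro c x
        induction x using TensorProduct.induction_on with
        | zero => rw [smul_zero, map_zero, smul_zero]
        | tmul s y =>
          rw [TensorProduct.smul_tmul', hSp, hSp, smul_eq_mul, map_mul, TensorProduct.smul_tmul']
          rfl
        | add u v hu hv => rw [smul_add, map_add, hu, hv, map_add, smul_add]
      have hS2 : ∀ x y : AlgebraicClosure ℚ_[p] ⊗[ℚ_[p]] L, S ⁅x, y⁆ = ⁅S x, S y⁆ := by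
        intro x y
        induction x using TensorProduct.induction_on with
        | zero => rw [zero_lie, map_zero, zero_lie]
        | tmul s u =>
          induction y using TensorProduct.induction_on with
          | zero => rw [lie_zero, map_zero, lie_zero]
          | tmul t v =>
            rw [LieAlgebra.ExtendScalars.bracket_tmul, hSp, hSp, hSp,
              LieAlgebra.ExtendScalars.bracket_tmul, map_mul]
          | add y z hy hz => rw [lie_add, map_add, hy, hz, map_add, lie_add]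
        | add u v hu hv => rw [add_lie, map_add, hu, hv, map_add, add_lie]
      have hST : ∀ x, S (T' x) = T' (S x) := by
        intro x
        induction x using TensorProduct.induction_on with
        | zero => simp only [map_zero]
        | tmul s y => rw [hT'1, hSp, hSp, hT'1]
        | add u v hu hv => rw [map_add, map_add, map_add, map_add, hu, hv]
      have hSa : S aE = aE := by rw [haE, hSp, map_one]
      refine exists_matrix_of_trivial H a l T' hT'l hcase hT'ne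
        (σ : AlgebraicClosure ℚ_[p] ≃+* AlgebraicClosure ℚ_[p]) ζ hζ hσ S hS1 hS2 hST ?_ ?_
      · intro x hx
        exact LM_engel_map (S : (AlgebraicClosure ℚ_[p] ⊗[ℚ_[p]] L) →+ _) hS2 aE hSa x hx
      · intro x hx
        refine LM_engel_map (S.symm : (AlgebraicClosure ℚ_[p] ⊗[ℚ_[p]] L) →+ _) ?_ aE ?_ x hx
        · intro x y
          show S.symm ⁅x, y⁆ = ⁅S.symm x, S.symm y⁆
          rw [AddEquiv.symm_apply_eq, hS2, AddEquiv.apply_symm_apply, AddEquiv.apply_symm_apply]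
        · show S.symm aE = aE
          rw [AddEquiv.symm_apply_eq]
          exact hSa.symm
  · right
    push Not at hcase
    have hTH : ∀ x ∈ H, T' x ∈ H := by
      intro x hx
      refine LM_engel_map (AddMonoidHomClass.toAddMonoidHom T') ?_ aE hTaE x hx
      intro x y
      exact LieEquiv.map_lie T' x y
    have h1 := dim_of_nontrivial H l hl2 T' hT'l hTH hcase ⟨aE, haH, haE0, hTaE⟩
    rw [hdim, hT'2] at h1
    exact h1

end Pool.Agent.Lib.MP_ca71b5_nt
end

section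

/-!
# Automorphisms of finite order of small semisimple Lie algebras
-/

set_option autoImplicit false

namespace Pool.Agent.Lib.MP_ca71b5_nt

private theorem G4_exists_iterate {k : Type*} [CommRing k] {L : Type*} [LieRing L]
    [LieAlgebra k L] (T : L ≃ₗ⁅k⁆ L) (n : ℕ) : ∃ S : L ≃ₗ⁅k⁆ L, ∀ x, S x = T^[n] x := by
  induction n with
  | zero => exact ⟨LieEquiv.refl, fun x => rfl⟩
  | succ n ih =>
    obtain ⟨S, hS⟩ := ih
    refine ⟨T.trans S, fun x => ?_⟩
    rw [LieEquiv.trans_apply, hS, Function.iterate_succ_apply]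

private theorem G4_iterate_iterate {k : Type*} [CommRing k] {L : Type*} [LieRing L]
    [LieAlgebra k L] (T S : L ≃ₗ⁅k⁆ L) (n : ℕ) (hS : ∀ x, S x = T^[n] x) (l : ℕ) (x : L) :
    S^[l] x = T^[n * l] x := by
  induction l generalizing x with
  | zero => simp
  | succ l ih =>
    rw [Function.iterate_succ_apply, ih, hS, ← Function.iterate_add_apply, Nat.mul_succ]

/-- an automorphism of finite order, not the identity, has a power of prime order -/
private theorem G4_exists_prime {k : Type*} [CommRing k] {L : Type*} [LieRing L]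
    [LieAlgebra k L] (m : ℕ) (hm : 0 < m) (T : L ≃ₗ⁅k⁆ L) (hT : ∀ x, T^[m] x = x)
    (hne : ∃ x, T x ≠ x) :
    ∃ (l : ℕ) (S : L ≃ₗ⁅k⁆ L), l.Prime ∧ l ∣ m ∧ (∀ x, S^[l] x = x) ∧ ∃ x, S x ≠ x := by
  classical
  have hex : ∃ N : ℕ, 0 < N ∧ ∀ x, T^[N] x = x := ⟨m, hm, hT⟩
  set N := Nat.find hex with hN
  obtain ⟨hN0, hNT⟩ : 0 < N ∧ ∀ x, T^[N] x = x := Nat.find_spec hex
  have hmin : ∀ N' : ℕ, 0 < N' → (∀ x, T^[N'] x = x) → N ≤ N' := fun N' h1 h2 =>
    Nat.find_min' hex ⟨h1, h2⟩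
  have hmul : ∀ q x, T^[N * q] x = x := by
    intro q
    induction q with
    | zero => intro x; simp
    | succ q ih =>
      intro x
      rw [Nat.mul_succ, Function.iterate_add_apply, hNT, ih]
  have hNm : N ∣ m := by
    rw [Nat.dvd_iff_mod_eq_zero]
    by_contra hr
    have h1 : 0 < m % N := Nat.pos_of_ne_zero hr
    have h2 : ∀ x, T^[m % N] x = x := by
      intro x
      have h3 := hT x
      rw [← Nat.mod_add_div m N, Function.iterate_add_apply, hmul] at h3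
      exact h3
    have h4 := hmin _ h1 h2
    have h5 := Nat.mod_lt m hN0
    omega
  have hN1 : N ≠ 1 := by
    intro h
    obtain ⟨x, hx⟩ := hne
    have := hNT x
    rw [h] at this
    exact hx this
  obtain ⟨l, hl, hlN⟩ := Nat.exists_prime_and_dvd hN1
  obtain ⟨q, hq⟩ := hlN
  obtain ⟨S, hS⟩ := G4_exists_iterate T q
  refine ⟨l, S, hl, (Dvd.intro q hq.symm).trans hNm, ?_, ?_⟩
  · intro x
    rw [G4_iterate_iterate T S q hS, mul_comm, ← hq]
    exact hNT x
  · by_contra hcon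
    push Not at hcon
    have hq0 : 0 < q := by
      rcases Nat.eq_zero_or_pos q with h | h
      · rw [h, mul_zero] at hq
        omega
      · exact h
    have h6 := hmin q hq0 fun x => by rw [← hS, hcon]
    have h7 : 2 ≤ l := hl.two_le
    nlinarith

private theorem G4_zmod_two : ∀ y : ZMod 2, y ≠ 0 → y = 1 := by decide

theorem auto_trivial (p m d : ℕ) [Fact p.Prime] (hm : 0 < m) {L : Type} [LieRing L]
    [LieAlgebra ℚ_[p] L] [FiniteDimensional ℚ_[p] L] [LieAlgebra.IsKilling ℚ_[p] L]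
    (hL : Module.finrank ℚ_[p] L ≤ d) (hd : GoodDim p d m) (T : L ≃ₗ⁅ℚ_[p]⁆ L)
    (hT : ∀ x, T^[m] x = x) (x : L) : T x = x := by
  by_contra hx
  obtain ⟨l, S, hl, hlm, hSl, hSne⟩ := G4_exists_prime m hm T hT ⟨x, hx⟩
  have hnt : Nontrivial L := ⟨⟨T x, x, hx⟩⟩
  have h3 : 3 ≤ Module.finrank ℚ_[p] L := three_le_finrank
  obtain ⟨hdl, hmat⟩ := hd l hl hlm
  have hfl : Fact l.Prime := ⟨hl⟩
  by_cases hl2 : l = 2
  · subst hl2
    refine hmat 1 le_rfl (by omega) 1 IsOfFinOrder.one ?_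
    have hc : cycDeg p 2 = 1 := by
      unfold cycDeg
      split_ifs with hp
      · omega
      · have hp2 : (p : ZMod 2) = 1 := by
          have hodd : ¬ 2 ∣ p := by
            intro h
            exact hp ((Nat.prime_dvd_prime_iff_eq Nat.prime_two (Fact.out : p.Prime)).1 h)
          have h1 : (p : ZMod 2) ≠ 0 := by
            intro h
            exact hodd ((ZMod.natCast_eq_zero_iff p 2).1 h)
          exact G4_zmod_two _ h1
        rw [hp2, orderOf_one]
    rw [hc]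
    exact one_dvd _
  · obtain ⟨a, ζ, σ, hζ, hσ, ha⟩ : ∃ (a : ℕ) (ζ : AlgebraicClosure ℚ_[p])
        (σ : AlgebraicClosure ℚ_[p] ≃ₐ[ℚ_[p]] AlgebraicClosure ℚ_[p]),
        IsPrimitiveRoot ζ l ∧ σ ζ = ζ ^ a ∧ orderOf (a : ZMod l) = cycDeg p l := by
      by_cases hlp : l = p
      · obtain ⟨a, ζ, σ, h1, h2, h4⟩ := exists_generator p
        subst hlp
        exact ⟨a, ζ, σ, h1, h2, by rw [h4, cycDeg, if_pos rfl]⟩
      · obtain ⟨ζ, σ, h1, h2⟩ := exists_frobenius p l (fun h => hlp h.symm)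
        exact ⟨p, ζ, σ, h1, h2, by rw [cycDeg, if_neg hlp]⟩
    rcases auto_main_gen p l a hl2 ζ σ hζ hσ S hSl hSne with ⟨j, hj1, -, hj3, M, hM, hdvd⟩ | ⟨h4, -⟩
    · rw [ha] at hdvd
      exact hmat j hj1 (hj3.trans hL) M hM hdvd
    · omega

end Pool.Agent.Lib.MP_ca71b5_nt
end

section

/-!
# A Cartan subalgebra stable under an automorphism of finite order
-/

set_option autoImplicit false

namespace Pool.Agent.Lib.MP_ca71b5_nt

section nilp

variable {k : Type*} [Field k] [CharZero k] {L : Type*} [LieRing L] [LieAlgebra k L]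
  [FiniteDimensional k L]

attribute [local instance 100] LieRing.ofAssociativeRing

/-- an automorphism of finite order of a non-zero semisimple Lie algebra has a non-zero fixed
point -/
theorem eq_zero_of_no_fixed_gen [LieAlgebra.IsKilling k L] (l : ℕ) (hl : 0 < l) (T : L ≃ₗ⁅k⁆ L)
    (hT : ∀ x, T^[l] x = x) (hf : ∀ x : L, T x = x → x = 0) (x : L) : x = 0 := by
  have hsol : LieAlgebra.IsSolvable L := solvable_of_fixed_point_free (k := k) l hl T hT hf
  have htop : (⊤ : LieIdeal k L) = ⊥ := LieAlgebra.HasTrivialRadical.eq_bot_of_isSolvable _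
  have h1 : x ∈ (⊤ : LieIdeal k L) := LieSubmodule.mem_top x
  rw [htop, LieSubmodule.mem_bot] at h1
  exact h1

theorem solvable_of_fixed_nilpotent_gen (l : ℕ) (hl : 0 < l) (T : L ≃ₗ⁅k⁆ L)
    (hT : ∀ x, T^[l] x = x) (hn : ∀ x : L, T x = x → IsNilpotent (LieAlgebra.ad k L x)) :
    LieAlgebra.IsSolvable L := by
  obtain ⟨T', hT1, hT2, hT3, -⟩ := exists_quot_auto l hl T hT
  have := quot_radical_trivial (k := k) (L := L)
  have : FiniteDimensional k (L ⧸ LieAlgebra.radical k L) := inferInstance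
  have : LieAlgebra.IsKilling k (L ⧸ LieAlgebra.radical k L) := inferInstance
  apply solvable_of_quot_subsingleton (k := k)
  refine eq_zero_of_no_fixed_gen l hl T' hT2 ?_
  refine fixed_eq_zero_of_nilpotent l hl T' hT2 ?_
  intro y hy
  obtain ⟨x, hx, rfl⟩ := hT3 y hy
  obtain ⟨n, hn'⟩ := hn x hx
  refine ⟨n, ?_⟩
  have key : ∀ (m : ℕ) (z : L), (LieAlgebra.ad k (L ⧸ LieAlgebra.radical k L)
      (LieSubmodule.Quotient.mk x) ^ m) (LieSubmodule.Quotient.mk z) =
        LieSubmodule.Quotient.mk ((LieAlgebra.ad k L x ^ m) z) := by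
    intro m z
    induction m with
    | zero => rfl
    | succ m ih =>
      rw [pow_succ', pow_succ', Module.End.mul_apply, Module.End.mul_apply, ih]
      rfl
  ext y
  obtain ⟨z, rfl⟩ := LieSubmodule.Quotient.surjective_mk' _ y
  have h1 := key n z
  rw [hn'] at h1
  exact h1

end nilp

variable {k : Type*} [Field k] [CharZero k] {L : Type*} [LieRing L] [LieAlgebra k L]
  [FiniteDimensional k L] [LieAlgebra.IsKilling k L]

section aux

variable {k : Type*} [Field k] {L : Type*} [LieRing L] [LieAlgebra k L]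

/-- the fixed points as a Lie subalgebra -/
private def fixLieL2 (T : L ≃ₗ⁅k⁆ L) : LieSubalgebra k L :=
  { fixS T with
    lie_mem' := by
      intro x y hx hy
      have hx' : T x = x := hx
      have hy' : T y = y := hy
      show T ⁅x, y⁆ = ⁅x, y⁆
      rw [LieEquiv.map_lie, hx', hy'] }

private theorem mem_fixLieL2 (T : L ≃ₗ⁅k⁆ L) (x : L) : x ∈ fixLieL2 T ↔ T x = x := Iff.rfl

private theorem map_ad_pow (T : L ≃ₗ⁅k⁆ L) (a x : L) (n : ℕ) :
    T ((LieAlgebra.ad k L a ^ n) x) = (LieAlgebra.ad k L (T a) ^ n) (T x) := by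
  induction n with
  | zero => rfl
  | succ n ih =>
    rw [pow_succ', pow_succ', Module.End.mul_apply, Module.End.mul_apply, ← ih,
      LieAlgebra.ad_apply, LieAlgebra.ad_apply, LieEquiv.map_lie]

private theorem engel_map (T : L ≃ₗ⁅k⁆ L) {a x : L} (ha : T a = a)
    (hx : x ∈ LieSubalgebra.engel k a) : T x ∈ LieSubalgebra.engel k a := by
  rw [LieSubalgebra.mem_engel_iff] at hx ⊢
  obtain ⟨n, hn⟩ := hx
  refine ⟨n, ?_⟩
  rw [← map_zero T, ← hn, map_ad_pow, ha]

/-- the restriction of an automorphism to an Engel subalgebra -/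
private def engelEquiv (T : L ≃ₗ⁅k⁆ L) {a : L} (ha : T a = a) :
    LieSubalgebra.engel k a ≃ₗ⁅k⁆ LieSubalgebra.engel k a where
  toFun x := ⟨T x, engel_map T ha x.2⟩
  map_add' x y := Subtype.ext (map_add T (x : L) (y : L))
  map_smul' c x := Subtype.ext (map_smul T c (x : L))
  map_lie' := by
    intro x y
    exact Subtype.ext (LieEquiv.map_lie T (x : L) (y : L))
  invFun x := ⟨T.symm x, engel_map T.symm (by rw [LieEquiv.symm_apply_eq]; exact ha.symm) x.2⟩
  left_inv x := Subtype.ext (T.symm_apply_apply x)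
  right_inv x := Subtype.ext (T.apply_symm_apply x)

private theorem engelEquiv_iterate (T : L ≃ₗ⁅k⁆ L) {a : L} (ha : T a = a) (n : ℕ)
    (x : LieSubalgebra.engel k a) : (((engelEquiv T ha)^[n] x : _) : L) = T^[n] x := by
  induction n generalizing x with
  | zero => rfl
  | succ n ih => rw [Function.iterate_succ_apply, Function.iterate_succ_apply, ih]; rfl

end aux

theorem exists_cartan_gen [Nontrivial L] (l : ℕ) (hl : 0 < l) (T : L ≃ₗ⁅k⁆ L)
    (hT : ∀ x, T^[l] x = x) :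
    ∃ a : L, a ≠ 0 ∧ T a = a ∧ (LieSubalgebra.engel k a).IsCartanSubalgebra := by
  classical
  let U : LieSubalgebra k L := fixLieL2 T
  obtain ⟨x0, hx0⟩ := LieAlgebra.exists_isCartanSubalgebra_engel k U
  let A : LieSubalgebra k U := LieSubalgebra.engel k x0
  have hAnil : LieRing.IsNilpotent A := hx0.nilpotent
  let A' : LieSubalgebra k L := A.map U.incl
  have hmemA' : ∀ y : L, y ∈ A' ↔ ∃ y0 : A, ((y0 : U) : L) = y := by
    intro y
    constructor
    · rintro ⟨y0, hy0, rfl⟩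
      exact ⟨⟨y0, hy0⟩, rfl⟩
    · rintro ⟨y0, rfl⟩
      exact ⟨y0, y0.2, rfl⟩
  have hA'engel : ∀ y ∈ A', A' ≤ LieSubalgebra.engel k y := by
    intro y hy z hz
    obtain ⟨y0, rfl⟩ := (hmemA' y).1 hy
    obtain ⟨z0, rfl⟩ := (hmemA' z).1 hz
    rw [LieSubalgebra.mem_engel_iff]
    obtain ⟨n, hn⟩ := (LieAlgebra.isNilpotent_iff_forall (R := k)).1 hAnil y0
    refine ⟨n, ?_⟩
    have h1 : (((LieAlgebra.ad k A y0 ^ n) z0 : A) : U) = 0 := by
      rw [hn]
      rfl
    rw [LieSubalgebra.coe_ad_pow] at h1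
    have h2 := congrArg (fun u : U => (u : L)) h1
    simp only [LieSubalgebra.coe_ad_pow] at h2
    exact h2
  obtain ⟨a, haA, hamin⟩ : ∃ a ∈ A', ∀ y ∈ A', Module.finrank k (LieSubalgebra.engel k a) ≤
      Module.finrank k (LieSubalgebra.engel k y) := by
    have hex : ∃ n, ∃ a ∈ A', Module.finrank k (LieSubalgebra.engel k a) = n :=
      ⟨_, 0, A'.zero_mem, rfl⟩
    obtain ⟨a, haA, han⟩ := Nat.find_spec hex
    refine ⟨a, haA, fun y hy => ?_⟩
    rw [han]
    exact Nat.find_min' hex ⟨y, hy, rfl⟩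
  have hcard : (Module.finrank k L : Cardinal) ≤ Cardinal.mk k :=
    Cardinal.natCast_le_aleph0.trans (Cardinal.infinite_iff.mp inferInstance)
  have hbot : ∀ y ∈ A', LieSubalgebra.engel k a ≤ LieSubalgebra.engel k y := by
    let E : {LieSubalgebra.engel k x | x ∈ A'} := ⟨LieSubalgebra.engel k a, a, haA, rfl⟩
    have h1 : IsBot E := by
      refine LieAlgebra.engel_isBot_of_isMin hcard A' E (hA'engel a haA) ?_
      rintro ⟨_, y, hy, rfl⟩ hyx
      have h2 : LieSubalgebra.engel k y = LieSubalgebra.engel k a := by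
        apply LieSubalgebra.toSubmodule_injective
        exact Submodule.eq_of_le_of_finrank_le hyx (hamin y hy)
      show LieSubalgebra.engel k a ≤ LieSubalgebra.engel k y
      exact h2.ge
    intro y hy
    exact h1 ⟨LieSubalgebra.engel k y, y, hy, rfl⟩
  have hTa : T a = a := by
    obtain ⟨a0, rfl⟩ := (hmemA' a).1 haA
    exact (a0 : U).2
  have hx0A : ((x0 : U) : L) ∈ A' :=
    (hmemA' _).2 ⟨⟨x0, LieSubalgebra.self_mem_engel k x0⟩, rfl⟩
  -- fixed points in the Engel subalgebra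
  have hfix : ∀ x ∈ LieSubalgebra.engel k a, T x = x → x ∈ A' := by
    intro x hx hTx
    have h1 := hbot _ hx0A hx
    rw [LieSubalgebra.mem_engel_iff] at h1
    obtain ⟨n, hn⟩ := h1
    have h2 : (⟨x, hTx⟩ : U) ∈ A := by
      show (⟨x, hTx⟩ : U) ∈ LieSubalgebra.engel k x0
      rw [LieSubalgebra.mem_engel_iff]
      refine ⟨n, ?_⟩
      apply Subtype.ext
      rw [LieSubalgebra.coe_ad_pow]
      exact hn
    exact (hmemA' x).2 ⟨⟨⟨x, hTx⟩, h2⟩, rfl⟩
  have hsolv : LieAlgebra.IsSolvable (LieSubalgebra.engel k a) := by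
    refine solvable_of_fixed_nilpotent_gen l hl (engelEquiv T hTa) ?_ ?_
    · intro x
      apply Subtype.ext
      rw [engelEquiv_iterate, hT]
    · intro x hx
      rw [Module.End.isNilpotent_iff_of_finite]
      intro z
      have h1 : T (x : L) = x := congrArg (fun u : LieSubalgebra.engel k a => (u : L)) hx
      have h2 := hbot _ (hfix x x.2 h1) z.2
      rw [LieSubalgebra.mem_engel_iff] at h2
      obtain ⟨n, hn⟩ := h2
      refine ⟨n, Subtype.ext ?_⟩
      rw [LieSubalgebra.coe_ad_pow]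
      exact hn
  have habel : ∀ x ∈ LieSubalgebra.engel k a, ∀ y ∈ LieSubalgebra.engel k a, ⁅x, y⁆ = 0 := by
    intro x hx y hy
    refine killing_engel_nondeg a ⁅x, y⁆ ((LieSubalgebra.engel k a).lie_mem hx hy) ?_
    intro z hz
    exact killing_solvable _ hsolv x y z hx hy hz
  refine ⟨a, ?_, hTa, ⟨?_, LieSubalgebra.normalizer_engel k a⟩⟩
  · rintro rfl
    obtain ⟨x, hx⟩ := exists_ne (0 : L)
    apply hx
    have htop : ∀ y : L, y ∈ LieSubalgebra.engel k (0 : L) := by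
      intro y
      rw [LieSubalgebra.engel_zero]
      exact LieSubalgebra.mem_top y
    refine killing_engel_nondeg 0 x (htop x) ?_
    intro y _
    have had : LieAlgebra.ad k L x = 0 := by
      ext z
      exact habel x (htop x) z (htop z)
    rw [killingForm_apply_apply, had, LinearMap.zero_comp, map_zero]
  · have : IsLieAbelian (LieSubalgebra.engel k a) :=
      ⟨fun x y => Subtype.ext (habel x x.2 y y.2)⟩
    infer_instance

end Pool.Agent.Lib.MP_ca71b5_nt
end
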