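import Mathlib
import Pool.Agent.Lib.MP_ca71b5_nt.Base
import Pool.Agent.Lib.MP_ca71b5_nt.LPM
import Pool.Agent.Lib.MP_ca71b5_nt.Q2
import Pool.Agent.Lib.MP_ca71b5_nt.LI2
import Pool.Agent.Lib.MP_ca71b5_nt.AP2

section

/-!
# Descent of unramifiedness
-/

set_option autoImplicit false
open scoped NumberField

namespace Pool.Agent.Lib.MP_ca71b5_nt

/-- in a Galois extension of number fields the ramification indices divide the degree -/
theorem ramificationIdx_dvd_finrank (F K : Type) [Field F] [NumberField F] [Field K] [NumberField K]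
    [Algebra F K] [IsGalois F K] (Q : Ideal (𝓞 K)) [Q.IsPrime] :
    Q.ramificationIdx (𝓞 F) ∣ Module.finrank F K := by
  have h1 := Ideal.ncard_primesOver_mul_ramificationIdxIn_mul_inertiaDegIn (Q.under (𝓞 F)) (𝓞 K)
    (K ≃ₐ[F] K)
  have h2 := Ideal.ramificationIdxIn_eq_ramificationIdx (Q.under (𝓞 F)) Q (K ≃ₐ[F] K)
  rw [h2, IsGalois.card_aut_eq_finrank] at h1
  rw [← h1]
  exact Dvd.dvd.mul_left (Dvd.intro _ rfl) _

theorem unramified_descend (F K L M : Type) [Field F] [NumberField F] [Field K] [NumberField K]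
    [Field L] [NumberField L] [Field M] [NumberField M] [Algebra F K] [Algebra K L] [Algebra F L]
    [IsScalarTower F K L] [Algebra F M] [Algebra M L] [IsScalarTower F M L] [IsGalois F K]
    [IsGalois F M] (p l : ℕ) [Fact p.Prime] [Fact l.Prime] (hpl : p ≠ l)
    (hK : Module.finrank F K = l) (hM : ∃ k : ℕ, Module.finrank F M = p ^ k)
    (h : Algebra.Unramified (𝓞 K) (𝓞 L)) : Algebra.Unramified (𝓞 F) (𝓞 M) := by
  rw [Algebra.unramified_iff_forall]
  rintro ⟨Q, hQ⟩
  change Algebra.IsUnramifiedAt (𝓞 F) Q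
  rw [← Ideal.ramificationIdx_eq_one_iff]
  obtain ⟨⟨QL, hQL, hQL'⟩⟩ := (inferInstance : Nonempty (Q.primesOver (𝓞 L)))
  have e1 : QL.ramificationIdx (𝓞 F) = Q.ramificationIdx (𝓞 F) * QL.ramificationIdx (𝓞 M) :=
    Ideal.ramificationIdx_tower Q QL
  have e2 : QL.ramificationIdx (𝓞 F) =
      (QL.under (𝓞 K)).ramificationIdx (𝓞 F) * QL.ramificationIdx (𝓞 K) :=
    Ideal.ramificationIdx_tower (QL.under (𝓞 K)) QL
  have e3 : QL.ramificationIdx (𝓞 K) = 1 := by
    rw [Ideal.ramificationIdx_eq_one_iff]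
    exact Algebra.unramified_iff_forall.mp h ⟨QL, hQL⟩
  rw [e3, mul_one] at e2
  obtain ⟨k, hk⟩ := hM
  have d1 : Q.ramificationIdx (𝓞 F) ∣ p ^ k := hk ▸ ramificationIdx_dvd_finrank F M Q
  have d2 : Q.ramificationIdx (𝓞 F) ∣ l := by
    have : Q.ramificationIdx (𝓞 F) ∣ (QL.under (𝓞 K)).ramificationIdx (𝓞 F) := by
      rw [← e2, e1]
      exact Dvd.intro _ rfl
    exact this.trans (hK ▸ ramificationIdx_dvd_finrank F K _)
  have hc : Nat.Coprime (p ^ k) l :=
    Nat.Coprime.pow_left k ((Nat.coprime_primes Fact.out Fact.out).mpr hpl)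
  exact Nat.eq_one_of_dvd_coprimes hc d1 d2

end Pool.Agent.Lib.MP_ca71b5_nt
end

section

/-!
# Descent of a Galois extension
-/

set_option autoImplicit false
open scoped NumberField

namespace Pool.Agent.Lib.MP_ca71b5_nt

variable {F K : Type} [Field F] [NumberField F] [Field K] [NumberField K] [Algebra F K]
  [IsGalois F K]

theorem conjK_one (g : GK K) : conjK (1 : GF F K) g = g := by
  apply toGF_injective F K
  rw [toGF_conjK]
  group

theorem conjK_mul (s t : GF F K) (g : GK K) : conjK (s * t) g = conjK s (conjK t g) := by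
  apply toGF_injective F K
  rw [toGF_conjK, toGF_conjK, toGF_conjK]
  group

/-- automorphisms acting trivially on `GK / W` -/
theorem conj_trivial_zpow (τ : GF F K) (W : Subgroup (GK K)) [W.Normal]
    (hτW : ∀ g : GK K, conjK τ g * g⁻¹ ∈ W) (i : ℤ) (g : GK K) :
    conjK (τ ^ i) g * g⁻¹ ∈ W := by
  let S : Subgroup (GF F K) :=
    { carrier := {s | ∀ g : GK K, conjK s g * g⁻¹ ∈ W}
      one_mem' := by
        intro g
        rw [conjK_one, mul_inv_cancel]
        exact W.one_mem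
      mul_mem' := by
        intro s t hs ht g
        have h1 := W.mul_mem (hs (conjK t g)) (ht g)
        rw [conjK_mul]
        convert h1 using 1
        group
      inv_mem' := by
        intro s hs g
        have h1 := W.inv_mem (hs (conjK s⁻¹ g))
        rw [← conjK_mul, mul_inv_cancel, conjK_one] at h1
        convert h1 using 1
        group }
  have h1 : τ ^ i ∈ S := S.zpow_mem (show τ ∈ S from hτW) i
  exact h1 g

theorem range_toGF_mem (s : GF F K) :
    s ∈ (toGF F K).range ↔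
      ∀ a : K, s (algebraMap K (AlgebraicClosure K) a) = algebraMap K (AlgebraicClosure K) a := by
  constructor
  · rintro ⟨g, rfl⟩ a
    exact g.commutes a
  · intro h
    refine ⟨AlgEquiv.ofRingEquiv (f := s.toRingEquiv) h, ?_⟩
    ext x
    rfl

instance range_toGF_normal : ((toGF F K).range).Normal := by
  constructor
  rintro _ ⟨g, rfl⟩ s
  exact ⟨conjK s g, toGF_conjK s g⟩

theorem range_toGF_index : ((toGF F K).range).index = Module.finrank F K := by
  let E : IntermediateField F (AlgebraicClosure K) :=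
    (IsScalarTower.toAlgHom F K (AlgebraicClosure K)).fieldRange
  have h1 : E.fixingSubgroup = (toGF F K).range := by
    ext s
    rw [range_toGF_mem, IntermediateField.mem_fixingSubgroup_iff]
    constructor
    · intro h a
      exact h _ ⟨a, rfl⟩
    · rintro h _ ⟨a, rfl⟩
      exact h a
  rw [← h1, ← IntermediateField.finrank_eq_fixingSubgroup_index]
  exact ((AlgEquiv.ofInjectiveField
    (IsScalarTower.toAlgHom F K (AlgebraicClosure K))).toLinearEquiv.finrank_eq).symm

theorem descend_field (l : ℕ) [Fact l.Prime] (hl : Module.finrank F K = l) (τ : GF F K)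
    (hτ : ∃ a : K, τ (algebraMap K (AlgebraicClosure K) a) ≠ algebraMap K (AlgebraicClosure K) a)
    (W : Subgroup (GK K)) [W.Normal] (hW : IsOpen (W : Set (GK K)))
    (hτW : ∀ g : GK K, conjK τ g * g⁻¹ ∈ W) (ht : ∃ t ∈ W, toGF F K t = τ ^ l) :
    ∃ M : IntermediateField F (AlgebraicClosure K), FiniteDimensional F M ∧ IsGalois F M ∧
      Nonempty ((M ≃ₐ[F] M) ≃* (GK K ⧸ W)) ∧
      ∀ x ∈ M, x ∈ IntermediateField.fixedField W := by
  have hlp : l.Prime := Fact.out
  -- the quotient by the range has prime order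
  have hcard : Nat.card (GF F K ⧸ (toGF F K).range) = l := by
    have := range_toGF_index (F := F) (K := K)
    rw [hl] at this
    exact this
  have hτN : τ ∉ (toGF F K).range := by
    rw [range_toGF_mem]
    obtain ⟨a, ha⟩ := hτ
    exact fun h => ha (h a)
  have hτ1 : ((τ : GF F K) : GF F K ⧸ (toGF F K).range) ≠ 1 := by
    intro h
    exact hτN ((QuotientGroup.eq_one_iff τ).1 h)
  have hord : orderOf ((τ : GF F K) : GF F K ⧸ (toGF F K).range) = l := by
    have h1 : orderOf ((τ : GF F K) : GF F K ⧸ (toGF F K).range) ∣ l := by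
      rw [← hcard]
      exact orderOf_dvd_natCard _
    rcases (Nat.dvd_prime hlp).1 h1 with h2 | h2
    · exact absurd (orderOf_eq_one_iff.1 h2) hτ1
    · exact h2
  have hgen : ∀ s : GF F K, ∃ (j : ℤ) (g : GK K), s = τ ^ j * toGF F K g := by
    intro s
    have h1 : ((s : GF F K) : GF F K ⧸ (toGF F K).range) ∈
        Subgroup.zpowers ((τ : GF F K) : GF F K ⧸ (toGF F K).range) := by
      exact mem_zpowers_of_prime_card hcard hτ1
    obtain ⟨j, hj⟩ := h1
    have h2 : ((τ ^ j : GF F K) : GF F K ⧸ (toGF F K).range) = (s : GF F K) := by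
      rw [QuotientGroup.mk_zpow]
      exact hj
    have h3 : (τ ^ j)⁻¹ * s ∈ (toGF F K).range := QuotientGroup.eq.1 h2
    obtain ⟨g, hg⟩ := h3
    refine ⟨j, g, ?_⟩
    rw [hg]
    group
  have hconj := conj_trivial_zpow τ W hτW
  have hconjW : ∀ (i : ℤ) (w : GK K), w ∈ W → conjK (τ ^ i) w ∈ W := by
    intro i w hw
    have h1 := W.mul_mem (hconj i w) hw
    rwa [inv_mul_cancel_right] at h1
  have hmove : ∀ (i : ℤ) (g : GK K), toGF F K g * τ ^ i = τ ^ i * toGF F K (conjK (τ ^ (-i)) g) := by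
    intro i g
    rw [toGF_conjK]
    group
  let N' : Subgroup (GF F K) :=
    { carrier := {s | ∃ (i : ℤ) (w : GK K), w ∈ W ∧ s = τ ^ i * toGF F K w}
      one_mem' := ⟨0, 1, W.one_mem, by simp⟩
      mul_mem' := by
        rintro _ _ ⟨i, w, hw, rfl⟩ ⟨j, v, hv, rfl⟩
        refine ⟨i + j, conjK (τ ^ (-j)) w * v, W.mul_mem (hconjW _ _ hw) hv, ?_⟩
        calc τ ^ i * toGF F K w * (τ ^ j * toGF F K v)
            = τ ^ i * (toGF F K w * τ ^ j) * toGF F K v := by group
          _ = τ ^ i * (τ ^ j * toGF F K (conjK (τ ^ (-j)) w)) * toGF F K v := by rw [hmove]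
          _ = _ := by rw [map_mul, zpow_add]; group
      inv_mem' := by
        rintro _ ⟨i, w, hw, rfl⟩
        refine ⟨-i, conjK (τ ^ (- -i)) w⁻¹, hconjW _ _ (W.inv_mem hw), ?_⟩
        rw [← hmove, mul_inv_rev, map_inv, zpow_neg] }
  have hN'mem : ∀ s : GF F K, s ∈ N' ↔ ∃ (i : ℤ) (w : GK K), w ∈ W ∧ s = τ ^ i * toGF F K w :=
    fun s => Iff.rfl
  have hN'inter : ∀ g : GK K, toGF F K g ∈ N' ↔ g ∈ W := by
    intro g
    constructor
    · rintro ⟨i, w, hw, hg⟩
      have h1 : (τ ^ i : GF F K) = toGF F K (g * w⁻¹) := by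
        rw [map_mul, map_inv, hg]
        group
      have h2 : ((τ : GF F K) : GF F K ⧸ (toGF F K).range) ^ i = 1 := by
        rw [← QuotientGroup.mk_zpow, QuotientGroup.eq_one_iff, h1]
        exact ⟨_, rfl⟩
      have h3 : (l : ℤ) ∣ i := by
        rw [← hord]
        exact orderOf_dvd_iff_zpow_eq_one.2 h2
      obtain ⟨k, rfl⟩ := h3
      obtain ⟨t, htW, ht⟩ := ht
      have h4 : toGF F K (t ^ k) = toGF F K (g * w⁻¹) := by
        rw [← h1, map_zpow, ht, zpow_mul, zpow_natCast]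
      have h5 : t ^ k = g * w⁻¹ := toGF_injective F K h4
      have h6 : g = t ^ k * w := by rw [h5]; group
      rw [h6]
      exact W.mul_mem (W.zpow_mem htW k) hw
    · intro hg
      exact ⟨0, g, hg, by simp⟩
  have hN'normal : N'.Normal := by
    constructor
    rintro _ ⟨i, w, hw, rfl⟩ s
    obtain ⟨j, g, rfl⟩ := hgen s
    -- first conjugate by the element of `GK`
    have h1 : toGF F K g * (τ ^ i * toGF F K w) * (toGF F K g)⁻¹ =
        τ ^ i * toGF F K (conjK (τ ^ (-i)) g * w * g⁻¹) := by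
      calc toGF F K g * (τ ^ i * toGF F K w) * (toGF F K g)⁻¹
          = (toGF F K g * τ ^ i) * toGF F K w * (toGF F K g)⁻¹ := by group
        _ = _ := by rw [hmove, map_mul, map_mul, map_inv]; group
    have h2 : conjK (τ ^ (-i)) g * w * g⁻¹ ∈ W := by
      have h3 : conjK (τ ^ (-i)) g * w * g⁻¹ = (conjK (τ ^ (-i)) g * g⁻¹) * (g * w * g⁻¹) := by
        group
      rw [h3]
      exact W.mul_mem (hconj _ _) (Subgroup.Normal.conj_mem inferInstance _ hw _)
    refine ⟨i, conjK (τ ^ j) (conjK (τ ^ (-i)) g * w * g⁻¹), hconjW _ _ h2, ?_⟩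
    calc τ ^ j * toGF F K g * (τ ^ i * toGF F K w) * (τ ^ j * toGF F K g)⁻¹
        = τ ^ j * (toGF F K g * (τ ^ i * toGF F K w) * (toGF F K g)⁻¹) * (τ ^ j)⁻¹ := by group
      _ = τ ^ j * (τ ^ i * toGF F K (conjK (τ ^ (-i)) g * w * g⁻¹)) * (τ ^ j)⁻¹ := by rw [h1]
      _ = _ := by
          rw [toGF_conjK]
          have h5 : τ ^ j * τ ^ i = τ ^ i * τ ^ j := by
            rw [← zpow_add, ← zpow_add, add_comm]
          rw [← mul_assoc, h5]
          group
  have hN'open : IsOpen (N' : Set (GF F K)) := by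
    have hfd : FiniteDimensional K (IntermediateField.fixedField W) := (fixedField_open K W hW).1
    have hfix := (fixedField_open K W hW).2.2
    let L : IntermediateField F (AlgebraicClosure K) :=
      IntermediateField.restrictScalars F (IntermediateField.fixedField W)
    have hL : FiniteDimensional F L := by
      have h1 : FiniteDimensional F K := inferInstance
      exact FiniteDimensional.trans F K (IntermediateField.fixedField W)
    have hLo : IsOpen (L.fixingSubgroup : Set (GF F K)) := IntermediateField.fixingSubgroup_isOpen L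
    refine Subgroup.isOpen_mono (H₁ := L.fixingSubgroup) ?_ hLo
    intro s hs
    rw [IntermediateField.mem_fixingSubgroup_iff] at hs
    have h1 : s ∈ (toGF F K).range := by
      rw [range_toGF_mem]
      intro a
      exact hs _ ((IntermediateField.fixedField W).algebraMap_mem a)
    obtain ⟨g, rfl⟩ := h1
    rw [hN'inter, hfix]
    intro x hx
    exact hs x hx
  refine ⟨IntermediateField.fixedField N', (fixedField_open_gen N' hN'open).1,
    (fixedField_open_normal_gen N' hN'open).1, ?_, ?_⟩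
  · obtain ⟨e⟩ := (fixedField_open_normal_gen N' hN'open).2
    let f : GK K →* (GF F K ⧸ N') := (QuotientGroup.mk' N').comp (toGF F K)
    have hker : f.ker = W := by
      ext g
      rw [MonoidHom.mem_ker]
      change ((toGF F K g : GF F K) : GF F K ⧸ N') = 1 ↔ _
      rw [QuotientGroup.eq_one_iff, hN'inter]
    have hsurj : Function.Surjective f := by
      intro q
      obtain ⟨s, rfl⟩ := QuotientGroup.mk_surjective q
      obtain ⟨j, g, rfl⟩ := hgen s
      refine ⟨g, ?_⟩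
      change ((toGF F K g : GF F K) : GF F K ⧸ N') = _
      rw [QuotientGroup.mk_mul]
      have h1 : ((τ ^ j : GF F K) : GF F K ⧸ N') = 1 := by
        rw [QuotientGroup.eq_one_iff]
        exact ⟨j, 1, W.one_mem, by simp⟩
      rw [h1, one_mul]
    let e2 : (GK K ⧸ f.ker) ≃* (GF F K ⧸ N') := QuotientGroup.quotientKerEquivOfSurjective f hsurj
    exact ⟨e.trans (e2.symm.trans (QuotientGroup.quotientMulEquivOfEq hker))⟩
  · intro x hx
    rw [IntermediateField.mem_fixedField_iff] at hx ⊢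
    intro g hg
    exact hx (toGF F K g) ((hN'inter g).2 hg)

end Pool.Agent.Lib.MP_ca71b5_nt
end

section

/-!
# The dimension when a power of the automorphism acts with prime order on a Cartan subalgebra

Proof of `three_mul_le_of_nontrivial`: this is the first conclusion of `dim_of_nontrivial` in
`L4.lean`, where the hypothesis `∀ x, T^[l] x = x` is weakened to `x ∈ H`. Copy that proof (and the
private lemmas `l4_fix_of_pow`, `l4_orbit_inj`, `l4_shift`, `l4_rank`) with these changes. First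
`T` maps `H` onto `H` (`hTl` on `H`: `T (T^[l-1] x) = x`), so `T.symm x = T^[l-1] x ∈ H` for
`x ∈ H`. The facts `hUl : U ^ l = 1` (`U h = T.symm h` on `H`) and `hπl : π^[l] α = α` only use `hTl` on
`H`. The part on the dimension (with `hlin` for the vectors `T^[k] x`, `T^[k] y`, `k < l`, in the
distinct root spaces) is unchanged; the part on the fixed points is dropped.
-/

set_option autoImplicit false

namespace Pool.Agent.Lib.MP_ca71b5_nt

open LieModule LieAlgebra Module

/-- orbits of prime length -/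
private theorem cpc_orbit_inj {X : Type*} (l : ℕ) (hl : l.Prime) (f : X → X)
    (hf : ∀ x, f^[l] x = x) (x : X) (hx : f x ≠ x) {i j : ℕ} (hi : i < l) (hj : j < l)
    (h : f^[i] x = f^[j] x) : i = j := by
  have h1 : Function.minimalPeriod f x = l := by
    have h2 : Function.minimalPeriod f x ∣ l :=
      Function.IsPeriodicPt.minimalPeriod_dvd (hf x)
    rcases (Nat.dvd_prime hl).1 h2 with h3 | h3
    · exact absurd (Function.minimalPeriod_eq_one_iff_isFixedPt.1 h3) hx
    · exact h3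
  exact Function.iterate_injOn_Iio_minimalPeriod (f := f) (x := x) (by rw [h1]; exact hi)
    (by rw [h1]; exact hj) h

/-- powers of a function of prime order -/
private theorem cpc_fix_of_pow {X : Type*} (l : ℕ) (hl : l.Prime) (f : X → X)
    (hf : ∀ x, f^[l] x = x) (x : X) (k : ℕ) (hk : ¬ l ∣ k) (h : f^[k] x = x) : f x = x := by
  have h1 : Function.minimalPeriod f x ∣ l := Function.IsPeriodicPt.minimalPeriod_dvd (hf x)
  have h2 : Function.minimalPeriod f x ∣ k := Function.IsPeriodicPt.minimalPeriod_dvd h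
  rcases (Nat.dvd_prime hl).1 h1 with h3 | h3
  · exact Function.minimalPeriod_eq_one_iff_isFixedPt.1 h3
  · exact absurd (h3 ▸ h2) hk

private theorem cpc_shift {A : Type*} [AddCommGroup A] (l : ℕ) (g : ℕ → A) (hg : g l = g 0) :
    ∑ k ∈ Finset.range l, g (k + 1) = ∑ k ∈ Finset.range l, g k := by
  have h1 := Finset.sum_range_succ g l
  rw [Finset.sum_range_succ' g l, hg] at h1
  exact add_right_cancel h1

/-- An endomorphism of prime order of a vector space, with an integral matrix, which is not the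
identity and has a fixed vector. -/
private theorem cpc_rank {E : Type*} [Field E] [CharZero E] {V : Type*} [AddCommGroup V] [Module E V]
    {n : ℕ} (b : Basis (Fin n) E V) (l : ℕ) [Fact l.Prime] (φ : V →ₗ[E] V) (hφ : φ ^ l = 1)
    (hφ1 : φ ≠ 1) (M : Matrix (Fin n) (Fin n) ℤ)
    (hM : ∀ j, φ (b j) = ∑ i, (M i j : E) • b i) (v : V) (hv : v ≠ 0) (hfv : φ v = v) : l ≤ n := by
  classical
  have e1 : LinearMap.toMatrix b b φ = M.map (Int.castRingHom E) := by
    ext i j
    rw [LinearMap.toMatrix_apply, hM j]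
    simp [Basis.repr_self, Finsupp.single_apply]
  have inj : Function.Injective (Int.castRingHom E) := by
    intro x y hxy
    simpa using hxy
  have injM : Function.Injective ((Int.castRingHom E).mapMatrix : Matrix (Fin n) (Fin n) ℤ → _) :=
    Matrix.map_injective inj
  have e2 : M ^ l = 1 := by
    apply injM
    rw [map_pow, map_one]
    change (M.map (Int.castRingHom E)) ^ l = 1
    rw [← e1, LinearMap.toMatrix_pow, hφ, LinearMap.toMatrix_one]
  have e3 : M ≠ 1 := by
    intro h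
    apply hφ1
    apply (LinearMap.toMatrix b b).injective
    rw [e1, h, LinearMap.toMatrix_one]
    exact map_one ((Int.castRingHom E).mapMatrix (m := Fin n))
  have e4 : (M - 1).det = 0 := by
    apply inj
    rw [map_zero, RingHom.map_det, map_sub, map_one]
    change (M.map (Int.castRingHom E) - 1).det = 0
    have h1 : (M.map (Int.castRingHom E) - 1 : Matrix (Fin n) (Fin n) E).mulVec (b.repr v) = 0 := by
      rw [Matrix.sub_mulVec, Matrix.one_mulVec, ← e1, LinearMap.toMatrix_mulVec_repr, hfv, sub_self]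
    apply Matrix.exists_mulVec_eq_zero_iff.1
    refine ⟨b.repr v, ?_, h1⟩
    intro h2
    apply hv
    apply b.repr.injective
    rw [map_zero]
    exact DFunLike.coe_injective h2
  -- over the rationals
  have injQ : Function.Injective ((Int.castRingHom ℚ).mapMatrix : Matrix (Fin n) (Fin n) ℤ → _) :=
    Matrix.map_injective (fun x y hxy => by simpa using hxy)
  have e5 : ((Int.castRingHom ℚ).mapMatrix M - 1).det = 0 := by
    have h := congrArg (Int.castRingHom ℚ) e4
    rw [map_zero, RingHom.map_det, map_sub, map_one] at h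
    exact h
  obtain ⟨w, hw, hMw⟩ := Matrix.exists_mulVec_eq_zero_iff.2 e5
  refine prime_le_of_fixed l n ((Int.castRingHom ℚ).mapMatrix M) ?_ ?_ w hw ?_
  · rw [← map_pow, e2, map_one]
  · intro h
    apply e3
    apply injQ
    rw [h, map_one]
  · rw [Matrix.sub_mulVec, Matrix.one_mulVec, sub_eq_zero] at hMw
    exact hMw

variable {E : Type*} [Field E] [CharZero E] [IsAlgClosed E] {L : Type*} [LieRing L]
  [LieAlgebra E L] [FiniteDimensional E L] [LieAlgebra.IsKilling E L]
  (H : LieSubalgebra E L) [H.IsCartanSubalgebra]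

theorem three_mul_le_of_nontrivial (l : ℕ) [Fact l.Prime] (hl : l ≠ 2) (T : L ≃ₗ⁅E⁆ L)
    (hTl : ∀ x ∈ H, T^[l] x = x) (hTH : ∀ x ∈ H, T x ∈ H) (hne : ∃ x ∈ H, T x ≠ x)
    (hfix : ∃ a ∈ H, a ≠ 0 ∧ T a = a) :
    3 * l ≤ Module.finrank E L := by
  classical
  have hlp : l.Prime := Fact.out
  have hl0 : l ≠ 0 := hlp.ne_zero
  have hTT : ∀ x ∈ H, T (T^[l-1] x) = x := by
    intro x hx
    have h1 := Function.iterate_succ_apply' T (l-1) x
    rw [Nat.succ_eq_add_one, Nat.sub_add_cancel (Nat.one_le_iff_ne_zero.2 hl0), hTl x hx] at h1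
    exact h1.symm
  have hsymm : ∀ x ∈ H, T.symm x = T^[l-1] x := by
    intro x hx
    conv_lhs => rw [← hTT x hx]
    exact T.symm_apply_apply _
  have hTk : ∀ k : ℕ, ∀ x ∈ H, T^[k] x ∈ H := by
    intro k
    induction k with
    | zero => intro x hx; exact hx
    | succ k ih =>
      intro x hx
      rw [Function.iterate_succ_apply']
      exact hTH _ (ih x hx)
  have hTH' : ∀ x ∈ H, T.symm x ∈ H := by
    intro x hx
    rw [hsymm x hx]
    exact hTk _ x hx
  obtain ⟨π, hπ1, hπ2⟩ := exists_weight_map H (RingEquiv.refl E) T.toLinearEquiv.toAddEquiv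
    (fun c x => by simp) (fun x y => by
      change T ⁅x, y⁆ = ⁅T x, T y⁆
      exact T.map_lie x y) hTH hTH'
  have hπ1' : ∀ (α : Weight E H L) (h : H), π α ⟨T h, hTH h h.2⟩ = α h := hπ1
  have hπ2' : ∀ (α : Weight E H L) (x : L), x ∈ rootSpace H α → T x ∈ rootSpace H (π α) := hπ2
  -- the inverse on the Cartan subalgebra
  let U : H →ₗ[E] H :=
    { toFun := fun h => ⟨T.symm h, hTH' h h.2⟩
      map_add' := fun x y => by
        apply Subtype.ext
        exact map_add T.symm (x : L) (y : L)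
      map_smul' := fun c x => by
        apply Subtype.ext
        exact map_smul T.symm c (x : L) }
  have hU : ∀ h : H, ((U h : H) : L) = T.symm h := fun h => rfl
  have hTsl : ∀ x ∈ H, T.symm^[l] x = x := by
    intro x hx
    have h1 : Function.LeftInverse (T.symm)^[l] (T)^[l] :=
      Function.LeftInverse.iterate (fun x => T.symm_apply_apply x) l
    have h2 := h1 x
    rwa [hTl x hx] at h2
  have hUk : ∀ k : ℕ, ∀ h : H, (((U ^ k) h : H) : L) = T.symm^[k] h := by
    intro k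
    induction k with
    | zero => intro h; rfl
    | succ k ih =>
      intro h
      rw [pow_succ', Module.End.mul_apply, hU, ih, Function.iterate_succ_apply']
  have hπU : ∀ (α : Weight E H L) (h : H), π α h = α (U h) := by
    intro α h
    have h1 := hπ1' α (U h)
    rw [← h1]
    congr 1
    apply Subtype.ext
    exact (T.apply_symm_apply (h : L)).symm
  have hπk : ∀ (k : ℕ) (α : Weight E H L) (h : H), π^[k] α h = α ((U ^ k) h) := by
    intro k
    induction k with
    | zero => intro α h; rfl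
    | succ k ih =>
      intro α h
      rw [Function.iterate_succ_apply', hπU, ih, pow_succ, Module.End.mul_apply]
  have hUl : U ^ l = 1 := by
    ext h
    rw [hUk, hTsl _ h.2]
    rfl
  have hπl : ∀ α, π^[l] α = α := by
    intro α
    apply Weight.ext
    intro h
    rw [hπk, hUl]
    rfl
  -- the action on the dual
  set φ : Module.Dual E H →ₗ[E] Module.Dual E H := U.dualMap with hφ
  have hφa : ∀ f h, φ f h = f (U h) := fun f h => rfl
  have hφk : ∀ (k : ℕ) (f : Module.Dual E H) (h : H), (φ ^ k) f h = f ((U ^ k) h) := by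
    intro k
    induction k with
    | zero => intro f h; rfl
    | succ k ih =>
      intro f h
      rw [pow_succ', Module.End.mul_apply, hφa, ih, pow_succ, Module.End.mul_apply]
  have hφl : φ ^ l = 1 := by
    ext f h
    rw [hφk, hUl]
    rfl
  obtain ⟨b, hb1, hb2⟩ := exists_root_basis H
  choose r hr1 hr2 using hb1
  choose c hc using hb2
  have hφb : ∀ j, φ (b j) = ∑ i, ((c (π (r j)) i : ℤ) : E) • b i := by
    intro j
    ext h
    rw [hφa, congrFun (hr2 j) (U h), ← hπU, hc (π (r j)) h]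
    simp
  -- non-trivial on the dual
  obtain ⟨x0, hx0, hx0'⟩ := hne
  have hU1 : U ⟨x0, hx0⟩ ≠ ⟨x0, hx0⟩ := by
    intro h
    apply hx0'
    have h1 := congrArg Subtype.val h
    change T.symm x0 = x0 at h1
    conv_lhs => rw [← h1]
    exact T.apply_symm_apply x0
  have hφ1 : φ ≠ 1 := by
    intro h
    apply hU1
    rw [← sub_eq_zero, ← Module.forall_dual_apply_eq_zero_iff E]
    intro f
    rw [map_sub, ← hφa, h]
    exact sub_self _
  -- a fixed functional
  obtain ⟨a, haH, ha0, hTa⟩ := hfix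
  have hUa : U ⟨a, haH⟩ = ⟨a, haH⟩ := by
    apply Subtype.ext
    change T.symm a = a
    conv_lhs => rw [← hTa]
    exact T.symm_apply_apply a
  have hUka : ∀ k : ℕ, (U ^ k) ⟨a, haH⟩ = ⟨a, haH⟩ := by
    intro k
    induction k with
    | zero => rfl
    | succ k ih => rw [pow_succ, Module.End.mul_apply, hUa, ih]
  obtain ⟨f0, hf0⟩ : ∃ f0 : Module.Dual E H, f0 ⟨a, haH⟩ ≠ 0 := by
    by_contra hcon
    push Not at hcon
    have := (Module.forall_dual_apply_eq_zero_iff E (⟨a, haH⟩ : H)).1 hcon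
    exact ha0 (congrArg Subtype.val this)
  set F : Module.Dual E H := ∑ k ∈ Finset.range l, (φ ^ k) f0 with hF
  have hFa : F ⟨a, haH⟩ = l * f0 ⟨a, haH⟩ := by
    rw [hF, LinearMap.sum_apply]
    simp only [hφk, hUka, Finset.sum_const, Finset.card_range, nsmul_eq_mul]
  have hF0 : F ≠ 0 := by
    intro h
    rw [h, LinearMap.zero_apply] at hFa
    have := mul_ne_zero (Nat.cast_ne_zero.2 hl0 : (l : E) ≠ 0) hf0
    exact this hFa.symm
  have hφF : φ F = F := by
    rw [hF, map_sum]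
    have h1 : ∀ k, φ ((φ ^ k) f0) = (φ ^ (k + 1)) f0 := fun k => by
      rw [pow_succ', Module.End.mul_apply]
    simp only [h1]
    exact cpc_shift l (fun k => (φ ^ k) f0) (by rw [hφl]; rfl)
  have hrank : l ≤ Module.finrank E H := cpc_rank b l φ hφl hφ1 (fun i j => c (π (r j)) i) hφb F hF0 hφF
  -- a root which is moved
  obtain ⟨j, hj⟩ : ∃ j, π (r j) ≠ r j := by
    by_contra hcon
    push Not at hcon
    apply hφ1
    apply b.ext
    intro j
    ext h
    rw [hφa, congrFun (hr2 j) (U h), ← hπU, hcon j, ← congrFun (hr2 j) h]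
    rfl
  set α := r j with hα
  have hα0 : α.IsNonZero := hr1 j
  have hπneg : ∀ β : Weight E H L, π (-β) = -(π β) := by
    intro β
    apply Weight.ext
    intro h
    rw [hπU, Weight.coe_neg, Weight.coe_neg, Pi.neg_apply, Pi.neg_apply, hπU]
  have hπnegk : ∀ (k : ℕ) (β : Weight E H L), π^[k] (-β) = -(π^[k] β) := by
    intro k
    induction k with
    | zero => intro β; rfl
    | succ k ih =>
      intro β
      rw [Function.iterate_succ_apply', ih, hπneg, Function.iterate_succ_apply']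
  have hnz : ∀ k : ℕ, (π^[k] α).IsNonZero := by
    intro k h0
    apply hα0
    have h1 : ∀ h, π^[k] α h = 0 := fun h => congrFun h0 h
    funext h
    have h2 := h1 ((U ^ ((l - 1) * k)) h)
    rw [hπk, ← Module.End.mul_apply, ← pow_add] at h2
    have h3 : k + (l - 1) * k = l * k := by
      have : l = (l - 1) + 1 := (Nat.sub_add_cancel (Nat.one_le_iff_ne_zero.2 hl0)).symm
      conv_rhs => rw [this]
      ring
    rw [h3, pow_mul, hUl, one_pow] at h2
    exact h2
  have hopp : ∀ i k : ℕ, i < l → k < l → π^[i] α ≠ -(π^[k] α) := by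
    intro i k hi hk h
    have h1 : π^[l - k + i] α = -α := by
      rw [Function.iterate_add_apply, h, hπnegk, ← Function.iterate_add_apply,
        Nat.sub_add_cancel hk.le, hπl]
    have h2 : π^[(l - k + i) + (l - k + i)] α = α := by
      rw [Function.iterate_add_apply, h1, hπnegk, h1, neg_neg]
    have h3 : l ∣ (l - k + i) + (l - k + i) := by
      by_contra hcon
      exact hj (cpc_fix_of_pow l hlp π hπl α _ hcon h2)
    rw [← two_mul] at h3
    have h4 : l ∣ l - k + i := by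
      rcases (Nat.Prime.dvd_mul hlp).1 h3 with h5 | h5
      · exact absurd ((Nat.prime_dvd_prime_iff_eq hlp Nat.prime_two).1 h5) hl
      · exact h5
    obtain ⟨q, hq⟩ := h4
    have h5 : π^[l - k + i] α = α := by
      rw [hq, Function.iterate_mul]
      exact Function.iterate_fixed (hπl α) q
    rw [h1] at h5
    apply hα0
    funext h
    have h6 : (-α : Weight E H L) h = α h := by rw [h5]
    rw [Weight.coe_neg, Pi.neg_apply] at h6
    have h7 : (2 : E) * α h = 0 := by linear_combination -h6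
    simpa using h7
  -- the weights
  let W : Option (Fin l × Bool) → (H → E) := fun o => match o with
    | none => 0
    | some (k, true) => (π^[(k : ℕ)] α : Weight E H L)
    | some (k, false) => (-(π^[(k : ℕ)] α) : Weight E H L)
  have winj : ∀ {β γ : Weight E H L}, (β : H → E) = γ → β = γ := fun h => Weight.ext (fun x => congrFun h x)
  have oinj : ∀ i k : Fin l, π^[(i : ℕ)] α = π^[(k : ℕ)] α → i = k := fun i k h =>
    Fin.ext (cpc_orbit_inj l hlp π hπl α hj i.2 k.2 h)
  have hW : Function.Injective W := by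
    rintro (_ | ⟨i, _ | _⟩) (_ | ⟨k, _ | _⟩) h
    · rfl
    · exact absurd (show (-(π^[(k : ℕ)] α) : Weight E H L).IsZero from h.symm) (hnz k).neg
    · exact absurd (show (π^[(k : ℕ)] α : Weight E H L).IsZero from h.symm) (hnz k)
    · exact absurd (show (-(π^[(i : ℕ)] α) : Weight E H L).IsZero from h) (hnz i).neg
    · have h1 : (-(π^[(i : ℕ)] α) : Weight E H L) = -(π^[(k : ℕ)] α) := winj h
      rw [neg_inj] at h1
      rw [oinj i k h1]
    · exact absurd (winj h).symm (hopp k i k.2 i.2)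
    · exact absurd (show (π^[(i : ℕ)] α : Weight E H L).IsZero from h) (hnz i)
    · exact absurd (winj h) (hopp i k i.2 k.2)
    · rw [oinj i k (winj h)]
  have hind : iSupIndep fun o => ((genWeightSpace L (W o) : LieSubmodule E H L) : Submodule E L) :=
    (LieSubmodule.iSupIndep_toSubmodule.mpr (iSupIndep_genWeightSpace E H L)).comp hW
  obtain ⟨x, hx, hx0⟩ := α.exists_ne_zero
  obtain ⟨y, hy, hy0⟩ := (-α).exists_ne_zero
  let v : Option (Fin l × Bool) → L := fun o => match o with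
    | none => a
    | some (k, true) => T^[(k : ℕ)] x
    | some (k, false) => T^[(k : ℕ)] y
  have hTmem : ∀ (k : ℕ) (β : Weight E H L) (z : L), z ∈ rootSpace H β →
      T^[k] z ∈ rootSpace H (π^[k] β) := by
    intro k
    induction k with
    | zero => intro β z hz; exact hz
    | succ k ih =>
      intro β z hz
      rw [Function.iterate_succ_apply', Function.iterate_succ_apply']
      exact hπ2' _ _ (ih β z hz)
  have hTne : ∀ (k : ℕ) (z : L), z ≠ 0 → T^[k] z ≠ 0 := by
    intro k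
    induction k with
    | zero => intro z hz; exact hz
    | succ k ih =>
      intro z hz
      rw [Function.iterate_succ_apply']
      exact fun h => ih z hz (by simpa using h)
  have hv : ∀ o, v o ∈ ((genWeightSpace L (W o) : LieSubmodule E H L) : Submodule E L) := by
    rintro (_ | ⟨i, _ | _⟩)
    · change a ∈ rootSpace H (0 : H → E)
      rw [rootSpace_zero_eq]
      exact haH
    · change T^[(i : ℕ)] y ∈ rootSpace H (-(π^[(i : ℕ)] α) : Weight E H L)
      rw [← hπnegk]
      exact hTmem _ _ _ hy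
    · exact hTmem _ _ _ hx
  have hv0 : ∀ o, v o ≠ 0 := by
    rintro (_ | ⟨i, _ | _⟩)
    · exact ha0
    · exact hTne _ _ hy0
    · exact hTne _ _ hx0
  have hlin : LinearIndependent E v := hind.linearIndependent _ hv hv0
  have h1 : LinearIndependent E (v ∘ some) := hlin.comp _ (Option.some_injective _)
  have h2 : Module.finrank E (Submodule.span E (Set.range (v ∘ some))) = Fintype.card (Fin l × Bool) :=
    finrank_span_eq_card h1
  have h3 : Disjoint H.toSubmodule (Submodule.span E (Set.range (v ∘ some))) := by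
    have h4 := hind none
    have h5 : ((genWeightSpace L (W none) : LieSubmodule E H L) : Submodule E L) = H.toSubmodule := by
      change ((rootSpace H (0 : H → E) : LieSubmodule E H L) : Submodule E L) = _
      rw [rootSpace_zero_eq]
      rfl
    simp only [h5] at h4
    refine h4.mono_right ?_
    rw [Submodule.span_le]
    rintro _ ⟨q, rfl⟩
    exact Submodule.mem_iSup_of_mem (some q) (Submodule.mem_iSup_of_mem (Option.some_ne_none q) (hv (some q)))
  have h6 := Submodule.finrank_add_finrank_le_of_disjoint h3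
  rw [h2] at h6
  simp only [Fintype.card_prod, Fintype.card_fin, Fintype.card_bool] at h6
  have h7 : Module.finrank E H.toSubmodule = Module.finrank E H := rfl
  omega

end Pool.Agent.Lib.MP_ca71b5_nt
end

section

/-!
# The fixed points and the p^t-th powers in the quotients with trivial action

Proof of `fix_le_of_index`. Copy the beginning of the proof of `no_fixed_points` in `AP3.lean`
(with `e = t + 1`): the lattice `Λ = {ell (ρ g)}`, compact, stable under `ℤ_p`, contained in a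
finitely generated one (`ap3_fg`; it is private there, copy it), the linear map
`TM x = gm P * x * gm P⁻¹`, `TM (ell (ρ g)) = ell (ρ (φ g))`, the subgroup
`Λ' = (TM - 1) Λ + p ^ (t+1) Λ`, the homomorphism `f : Γ → (MQ p ι ⧸ Λ')`, `f g = [ell (ρ g)]`
(additive by `exists_ell_mul_deep ρ hρ N hN (t+1) hpow`), `W = f.ker`, which is open (closed, of
finite index by `ap3_index`), contains `ρ.ker` and the `a * b * a⁻¹ * b⁻¹` and `φ a * a⁻¹`; moreover
`a ^ (p ^ (t+1)) ∈ W` since `ell (ρ (a ^ (p^(t+1)))) = p^(t+1) • ell (ρ a)` (`ell_pow`).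
`V = {a | a ^ (p ^ t) ∈ W}` is a subgroup since `Γ ⧸ W` is commutative. Let
`D = (TM - 1) (logSpan ρ)` (a subspace of `logSpan ρ`) and `π : MQ p ι → MQ p ι ⧸ D`. By rank
nullity `finrank (π (logSpan ρ)) = finrank (logSpan ρ ⊓ ker (TM - 1)) = finrank (fixS T)` (see the
end of the proof of `exists_large_quotient` in `P3b.lean`; only `≥` is needed). Apply `lattice_index`
(P3a.lean) to the lattice `Λ.map π` and the identity: `p ^ finrank (span (Λ.map π))` is at most the
relative index of `p (Λ.map π)` in `Λ.map π`, which is `(AddSubgroup.comap π (p (Λ.map π))).relIndex Λ`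
(`AddSubgroup.relIndex_comap`), and this is the index of the kernel `V'` of
`Γ → MQ p ι ⧸ comap π (p (Λ.map π))`, `g ↦ [ell (ρ g)]` (again a homomorphism, by
`exists_ell_mul_deep`; compare `hindex` in `P3b.lean`). Finally `V ≤ V'`: if `a ^ (p ^ t) ∈ W` then
`p^t • ell (ρ a) = TM y - y + p^(t+1) • z` with `y, z ∈ Λ`, so
`π (ell (ρ a)) = p • π z` (as `p^(-t) • (TM y - y) ∈ D`). Hence `V'.index ∣ V.index`, `V.index ≠ 0`
(as `W ≤ V` has finite index), and `p ^ finrank (fixS T) ≤ V'.index ≤ V.index ≤ p ^ r`.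
-/

set_option autoImplicit false

namespace Pool.Agent.Lib.MP_ca71b5_nt

variable {p : ℕ} [Fact p.Prime] {ι : Type} [Fintype ι] [DecidableEq ι]
  {Γ : Type} [Group Γ] [TopologicalSpace Γ] [IsTopologicalGroup Γ] [CompactSpace Γ]

attribute [local instance 100] LieRing.ofAssociativeRing

/-- the subgroup of `p ^ i`-multiples of a lattice has finite index -/
private theorem cp1_index {V : Type*} [AddCommGroup V] [Module ℚ_[p] V]
    [FiniteDimensional ℚ_[p] V]
    (Λ : AddSubgroup V) (hsmul : ∀ (c : ℤ_[p]) (x : V), x ∈ Λ → (c : ℚ_[p]) • x ∈ Λ)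
    (hfg : ∃ s : Finset V, ∀ x ∈ Λ, ∃ c : V → ℤ_[p], x = ∑ v ∈ s, (c v : ℚ_[p]) • v)
    (e : ℕ) (Λ' : AddSubgroup V) (hΛ' : ∀ z ∈ Λ, ((p : ℚ_[p]) ^ e) • z ∈ Λ') :
    Λ'.relIndex Λ ≠ 0 := by
  induction e generalizing Λ' with
  | zero =>
    have : Λ ≤ Λ' := fun z hz => by simpa using hΛ' z hz
    rw [AddSubgroup.relIndex_eq_one.2 this]
    exact one_ne_zero
  | succ e ih =>
    -- the multiples of `p ^ e`
    let M : AddSubgroup V :=
      { carrier := {x | ∃ z ∈ Λ, x = ((p : ℚ_[p]) ^ e) • z}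
        zero_mem' := ⟨0, Λ.zero_mem, by rw [smul_zero]⟩
        add_mem' := by
          rintro _ _ ⟨z, hz, rfl⟩ ⟨z', hz', rfl⟩
          exact ⟨z + z', Λ.add_mem hz hz', by rw [smul_add]⟩
        neg_mem' := by
          rintro _ ⟨z, hz, rfl⟩
          exact ⟨-z, Λ.neg_mem hz, by rw [smul_neg]⟩ }
    have hM : ∀ x, x ∈ M ↔ ∃ z ∈ Λ, x = ((p : ℚ_[p]) ^ e) • z := fun x => Iff.rfl
    have hML : M ≤ Λ := by
      rintro x ⟨z, hz, rfl⟩
      have := hsmul ((p : ℤ_[p]) ^ e) z hz
      rwa [PadicInt.coe_pow, PadicInt.coe_natCast] at this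
    have h1 : M.relIndex Λ ≠ 0 := ih M fun z hz => ⟨z, hz, rfl⟩
    have hMs : ∀ (c : ℤ_[p]) (x : V), x ∈ M → (c : ℚ_[p]) • x ∈ M := by
      rintro c x ⟨z, hz, rfl⟩
      exact ⟨(c : ℚ_[p]) • z, hsmul c z hz, by rw [smul_comm]⟩
    have hMf : ∃ s : Finset V, ∀ x ∈ M, ∃ c : V → ℤ_[p], x = ∑ v ∈ s, (c v : ℚ_[p]) • v := by
      obtain ⟨s, hs⟩ := hfg
      exact ⟨s, fun x hx => hs x (hML hx)⟩
    let M' : AddSubgroup V :=
      { carrier := {x | ∃ z ∈ M, x = (p : ℚ_[p]) • z}
        zero_mem' := ⟨0, M.zero_mem, by rw [smul_zero]⟩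
        add_mem' := by
          rintro _ _ ⟨z, hz, rfl⟩ ⟨z', hz', rfl⟩
          exact ⟨z + z', M.add_mem hz hz', by rw [smul_add]⟩
        neg_mem' := by
          rintro _ ⟨z, hz, rfl⟩
          exact ⟨-z, M.neg_mem hz, by rw [smul_neg]⟩ }
    have key := lattice_index (p := p) M hMs hMf LinearMap.id (fun x hx => hx) M' (by
      intro x
      constructor
      · rintro ⟨z, hz, rfl⟩
        exact ⟨0, M.zero_mem, z, hz, by simp⟩
      · rintro ⟨y, _, z, hz, rfl⟩
        exact ⟨z, hz, by simp⟩)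
    have h2 : M'.relIndex M ≠ 0 :=
      (lt_of_lt_of_le (pow_pos (Fact.out : p.Prime).pos _) key).ne'
    have h3 : M'.relIndex Λ ≠ 0 := AddSubgroup.relIndex_ne_zero_trans h2 h1
    have h4 : M' ≤ Λ' := by
      rintro _ ⟨_, ⟨z, hz, rfl⟩, rfl⟩
      rw [smul_smul, ← pow_succ']
      exact hΛ' z hz
    exact fun h => h3 (AddSubgroup.relIndex_eq_zero_of_le_left h4 h)

omit [TopologicalSpace Γ] [IsTopologicalGroup Γ] [CompactSpace Γ] [Group Γ] in
/-- Matrices with bounded denominators are integral combinations of finitely many matrices. -/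
private theorem cp1_fg (N : ℕ) : ∃ s : Finset (MQ p ι), ∀ x : MQ p ι, Small (2 - N : ℤ) x →
    ∃ c : MQ p ι → ℤ_[p], x = ∑ v ∈ s, (c v : ℚ_[p]) • v := by
  classical
  have hp : ((p : ℚ_[p]) ^ N) ≠ 0 := pow_ne_zero _ (by exact_mod_cast (Fact.out : p.Prime).ne_zero)
  set f : ι × ι → MQ p ι := fun q => Matrix.single q.1 q.2 ((p : ℚ_[p]) ^ N)⁻¹ with hf
  have hinj : Function.Injective f := by
    rintro ⟨i, j⟩ ⟨i', j'⟩ h
    have h1 : f (i, j) i j = f (i', j') i j := by rw [h]
    simp only [hf, Matrix.single_apply, and_self, if_true] at h1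
    by_contra hne
    rw [if_neg] at h1
    · exact inv_ne_zero hp h1
    · rintro ⟨rfl, rfl⟩
      exact hne rfl
  refine ⟨Finset.univ.image f, fun x hx => ?_⟩
  have hc : ∀ q : ι × ι, ‖(p : ℚ_[p]) ^ N * x q.1 q.2‖ ≤ 1 := by
    intro q
    rw [norm_mul, norm_p_pow]
    have h2 : ‖x q.1 q.2‖ ≤ (p : ℝ) ^ (N : ℤ) :=
      (hx q.1 q.2).trans (zpow_le_zpow_right₀ (pR_one_lt p).le (by omega))
    calc (p : ℝ) ^ (-(N : ℤ)) * ‖x q.1 q.2‖ ≤ (p : ℝ) ^ (-(N : ℤ)) * (p : ℝ) ^ (N : ℤ) :=
          mul_le_mul_of_nonneg_left h2 (zpow_pos (pR_pos p) _).le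
      _ = 1 := by rw [← zpow_add₀ (pR_pos p).ne', neg_add_cancel, zpow_zero]
  refine ⟨Function.extend f (fun q => ⟨(p : ℚ_[p]) ^ N * x q.1 q.2, hc q⟩) 0, ?_⟩
  rw [Finset.sum_image (fun a _ b _ h => hinj h)]
  have e : ∀ q : ι × ι, ((Function.extend f (fun q => (⟨(p : ℚ_[p]) ^ N * x q.1 q.2, hc q⟩ : ℤ_[p])) 0
      (f q) : ℤ_[p]) : ℚ_[p]) • f q = Matrix.single q.1 q.2 (x q.1 q.2) := by
    intro q
    rw [hinj.extend_apply]
    simp only [hf]
    rw [Matrix.smul_single]
    congr 1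
    simp only [smul_eq_mul]
    field_simp
  rw [Finset.sum_congr rfl fun q _ => e q]
  rw [← Finset.univ_product_univ, Finset.sum_product]
  exact Matrix.matrix_eq_sum_single x

/-- the homomorphism to the quotient by a subgroup containing the `p ^ e`-multiples -/
private theorem cp1_hom (ρ : Γ →* GLZ p ι) (hρ : Continuous ρ) (N : ℕ)
    (hN : ∀ g : Γ, Deep 2 N (ρ g)) (e : ℕ)
    (hpow : ∀ (k : ℕ) (g h : Γ), ∃ z : Γ,
      (ρ g * ρ h) ^ (p ^ k) = ρ g ^ (p ^ k) * ρ h ^ (p ^ k) * ρ z ^ (p ^ (k + e)))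
    (Λ Λ' : AddSubgroup (MQ p ι)) (hΛ : ∀ x, x ∈ Λ ↔ ∃ g : Γ, ell (ρ g) = x)
    (hp : ∀ z ∈ Λ, ((p : ℚ_[p]) ^ e) • z ∈ Λ') :
    ∃ f : Γ →* Multiplicative (MQ p ι ⧸ Λ'),
      (∀ g, f g = Multiplicative.ofAdd (QuotientAddGroup.mk' Λ' (ell (ρ g)))) ∧
      (∀ g, g ∈ f.ker ↔ ell (ρ g) ∈ Λ') ∧ f.ker.index = Λ'.relIndex Λ := by
  have hmem : ∀ g : Γ, ell (ρ g) ∈ Λ := fun g => (hΛ _).2 ⟨g, rfl⟩
  let q : MQ p ι →+ MQ p ι ⧸ Λ' := QuotientAddGroup.mk' Λ'
  have hq0 : ∀ x, q x = 0 ↔ x ∈ Λ' := fun x => QuotientAddGroup.eq_zero_iff x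
  let f : Γ →* Multiplicative (MQ p ι ⧸ Λ') :=
    MonoidHom.mk' (fun g => Multiplicative.ofAdd (q (ell (ρ g)))) (by
      intro g h
      obtain ⟨z, hz⟩ := exists_ell_mul_deep ρ hρ N hN e hpow g h
      have e : q (ell (ρ (g * h))) = q (ell (ρ g)) + q (ell (ρ h)) := by
        rw [hz, map_add, map_add, (hq0 _).2 (hp _ (hmem z)), add_zero]
      rw [← ofAdd_add, e])
  have hf : ∀ g, f g = Multiplicative.ofAdd (q (ell (ρ g))) := fun g => rfl
  have hW : ∀ g, g ∈ f.ker ↔ ell (ρ g) ∈ Λ' := by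
    intro g
    rw [MonoidHom.mem_ker, hf, ← hq0]
    exact Multiplicative.ofAdd.apply_eq_iff_eq (x := q (ell (ρ g))) (y := 0)
  have hindex : f.ker.index = Λ'.relIndex Λ := by
    rw [Subgroup.index_ker]
    have e1 : Λ'.relIndex Λ = Nat.card (Λ.map q) := by
      have := AddSubgroup.relIndex_ker Λ q
      rwa [QuotientAddGroup.ker_mk'] at this
    rw [e1]
    refine Nat.card_congr ⟨fun x => ⟨Multiplicative.toAdd x.1, ?_⟩,
      fun x => ⟨Multiplicative.ofAdd x.1, ?_⟩, fun x => rfl, fun x => rfl⟩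
    · obtain ⟨g, hg⟩ := x.2
      exact ⟨ell (ρ g), hmem g, by rw [← hg]; rfl⟩
    · obtain ⟨y, hg, hy⟩ := x.2
      obtain ⟨g, hg⟩ := (hΛ y).1 hg
      refine ⟨g, ?_⟩
      rw [hf, ← hy, ← hg]
  exact ⟨f, hf, hW, hindex⟩

theorem fix_le_of_index (ρ : Γ →* GLZ p ι) (hρ : Continuous ρ) (N : ℕ)
    (hN : ∀ g : Γ, Deep 2 N (ρ g)) (t : ℕ)
    (hmul : ∀ (k : ℕ) (g h : Γ), ∃ z : Γ, ρ g ^ (p ^ k) * ρ h ^ (p ^ k) = ρ z ^ (p ^ k))
    (hpow : ∀ (k : ℕ) (g h : Γ), ∃ z : Γ,
      (ρ g * ρ h) ^ (p ^ k) = ρ g ^ (p ^ k) * ρ h ^ (p ^ k) * ρ z ^ (p ^ (k + (t + 1))))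
    (φ : Γ →* Γ) (P : GLZ p ι) (hφ : ∀ g : Γ, ρ (φ g) = P * ρ g * P⁻¹)
    (T : gg ρ ≃ₗ⁅ℚ_[p]⁆ gg ρ)
    (hT : ∀ x : gg ρ, ((T x : gg ρ) : MQ p ι) = gm P * x * gm P⁻¹) (r : ℕ)
    (hexp : ∀ W V : Subgroup Γ, W.Normal → IsOpen (W : Set Γ) → ρ.ker ≤ W →
      (∀ a b : Γ, a * b * a⁻¹ * b⁻¹ ∈ W) → (∀ a : Γ, φ a * a⁻¹ ∈ W) →
      (∀ a : Γ, a ^ (p ^ (t + 1)) ∈ W) → (∀ a : Γ, a ∈ V ↔ a ^ (p ^ t) ∈ W) →
      V.index ≤ p ^ r) : Module.finrank ℚ_[p] (fixS T) ≤ r := by
  classical
  have hp0 : (p : ℚ_[p]) ≠ 0 := by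
    exact_mod_cast (Fact.out : p.Prime).ne_zero
  have hc : Continuous fun g : Γ => ell (ρ g) := ell_continuous (fun g => ρ g) hρ N hN
  have h1 : ell (ρ 1) = 0 := by rw [map_one, ell_one]
  have hinv : ∀ g : Γ, ell (ρ g⁻¹) = -ell (ρ g) := fun g => by
    rw [map_inv, ell_inv (ρ g) N (hN g)]
  -- the lattice
  let Λ : AddSubgroup (MQ p ι) :=
    { carrier := Set.range fun g : Γ => ell (ρ g)
      zero_mem' := ⟨1, h1⟩
      add_mem' := by
        rintro _ _ ⟨g, rfl⟩ ⟨h, rfl⟩
        obtain ⟨z, hz⟩ := exists_ell_add ρ hρ N hN hmul g h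
        exact ⟨z, hz⟩
      neg_mem' := by
        rintro _ ⟨g, rfl⟩
        exact ⟨g⁻¹, hinv g⟩ }
  have hΛ : ∀ x, x ∈ Λ ↔ ∃ g : Γ, ell (ρ g) = x := fun x => Iff.rfl
  have hΛc : IsCompact (Λ : Set (MQ p ι)) := isCompact_range hc
  have hmem : ∀ g : Γ, ell (ρ g) ∈ Λ := fun g => ⟨g, rfl⟩
  have hsmul : ∀ (c : ℤ_[p]) (x : MQ p ι), x ∈ Λ → (c : ℚ_[p]) • x ∈ Λ := by
    intro c x hx
    have hcl : IsClosed {c : ℤ_[p] | (c : ℚ_[p]) • x ∈ Λ} := by
      have hcont : Continuous fun c : ℤ_[p] => (c : ℚ_[p]) • x :=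
        continuous_subtype_val.smul continuous_const
      exact hΛc.isClosed.preimage hcont
    refine PadicInt.denseRange_natCast.induction_on (p := fun c : ℤ_[p] => (c : ℚ_[p]) • x ∈ Λ) c
      hcl fun n => ?_
    have e : (((n : ℤ_[p]) : ℚ_[p])) • x = n • x := by
      rw [PadicInt.coe_natCast, Nat.cast_smul_eq_nsmul]
    rw [e]
    exact Λ.nsmul_mem hx n
  have hsmulp : ∀ (k : ℕ) (x : MQ p ι), x ∈ Λ → ((p : ℚ_[p]) ^ k) • x ∈ Λ := by
    intro k x hx
    have := hsmul ((p : ℤ_[p]) ^ k) x hx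
    rwa [PadicInt.coe_pow, PadicInt.coe_natCast] at this
  have hsm : ∀ x ∈ Λ, Small (2 - N : ℤ) x := by
    rintro _ ⟨g, rfl⟩
    exact (ell_tendsto (ρ g) N (hN g)).2.2
  have hfg : ∃ s : Finset (MQ p ι), ∀ x ∈ Λ, ∃ c : MQ p ι → ℤ_[p],
      x = ∑ v ∈ s, (c v : ℚ_[p]) • v := by
    obtain ⟨s, hs⟩ := cp1_fg (p := p) (ι := ι) N
    exact ⟨s, fun x hx => hs _ (hsm x hx)⟩
  -- the automorphism
  let TM : MQ p ι →ₗ[ℚ_[p]] MQ p ι :=
    (LinearMap.mulRight ℚ_[p] (gm P⁻¹)).comp (LinearMap.mulLeft ℚ_[p] (gm P))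
  have hTM : ∀ x, TM x = gm P * x * gm P⁻¹ := fun x => rfl
  have hTM1 : ∀ g : Γ, TM (ell (ρ g)) = ell (ρ (φ g)) := by
    intro g
    rw [hTM, hφ, ell_conj (ρ g) P N (hN g)]
  have hTΛ : ∀ x ∈ Λ, TM x ∈ Λ := by
    rintro _ ⟨g, rfl⟩
    exact ⟨φ g, (hTM1 g).symm⟩
  let Λ' : AddSubgroup (MQ p ι) :=
    { carrier := {x | ∃ y ∈ Λ, ∃ z ∈ Λ, x = TM y - y + ((p : ℚ_[p]) ^ (t + 1)) • z}
      zero_mem' := ⟨0, Λ.zero_mem, 0, Λ.zero_mem, by rw [map_zero, sub_self, smul_zero, add_zero]⟩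
      add_mem' := by
        rintro _ _ ⟨y, hy, z, hz, rfl⟩ ⟨y', hy', z', hz', rfl⟩
        refine ⟨y + y', Λ.add_mem hy hy', z + z', Λ.add_mem hz hz', ?_⟩
        rw [map_add, smul_add]
        abel
      neg_mem' := by
        rintro _ ⟨y, hy, z, hz, rfl⟩
        refine ⟨-y, Λ.neg_mem hy, -z, Λ.neg_mem hz, ?_⟩
        rw [map_neg, smul_neg]
        abel }
  have hp : ∀ z ∈ Λ, ((p : ℚ_[p]) ^ (t + 1)) • z ∈ Λ' := fun z hz =>
    ⟨0, Λ.zero_mem, z, hz, by rw [map_zero, sub_self, zero_add]⟩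
  have hT1 : ∀ y ∈ Λ, TM y - y ∈ Λ' := fun y hy =>
    ⟨y, hy, 0, Λ.zero_mem, by rw [smul_zero, add_zero]⟩
  have key : Λ'.relIndex Λ ≠ 0 := cp1_index Λ hsmul hfg (t + 1) Λ' hp
  -- the homomorphism
  obtain ⟨f, hf, hW, hindex⟩ := cp1_hom ρ hρ N hN (t + 1) hpow Λ Λ' hΛ hp
  -- openness
  have hΛ'c : IsCompact (Λ' : Set (MQ p ι)) := by
    have hcont : Continuous fun y : MQ p ι × MQ p ι =>
        gm P * y.1 * gm P⁻¹ - y.1 + ((p : ℚ_[p]) ^ (t + 1)) • y.2 := by
      have c2 : Continuous fun y : MQ p ι × MQ p ι => ((p : ℚ_[p]) ^ (t + 1)) • y.2 :=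
        Continuous.const_smul continuous_snd ((p : ℚ_[p]) ^ (t + 1))
      exact ((((continuous_const.mul continuous_fst).mul continuous_const).sub
        continuous_fst)).add c2
    have := (hΛc.prod hΛc).image hcont
    convert this using 1
    ext x
    constructor
    · rintro ⟨y, hy, z, hz, rfl⟩
      exact ⟨(y, z), ⟨hy, hz⟩, rfl⟩
    · rintro ⟨⟨y, z⟩, ⟨hy, hz⟩, rfl⟩
      exact ⟨y, hy, z, hz, rfl⟩
  have hclosed : IsClosed (f.ker : Set Γ) := by
    have : (f.ker : Set Γ) = (fun g : Γ => ell (ρ g)) ⁻¹' (Λ' : Set (MQ p ι)) := by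
      ext g
      exact hW g
    rw [this]
    exact hΛ'c.isClosed.preimage hc
  have hfin : f.ker.FiniteIndex := ⟨by rw [hindex]; exact key⟩
  -- the subgroup of the elements whose `p ^ t`-th power is in the kernel
  let V : Subgroup Γ := ((powMonoidHom (p ^ t)).comp f).ker
  have hV : ∀ a : Γ, a ∈ V ↔ a ^ (p ^ t) ∈ f.ker := by
    intro a
    rw [MonoidHom.mem_ker, MonoidHom.mem_ker, MonoidHom.comp_apply, powMonoidHom_apply, map_pow]
  have hVr : V.index ≤ p ^ r := by
    refine hexp f.ker V inferInstance (Subgroup.isOpen_of_isClosed_of_finiteIndex _ hclosed)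
      ?_ ?_ ?_ ?_ hV
    · intro g hg
      rw [MonoidHom.mem_ker] at hg
      rw [hW, hg, ell_one]
      exact Λ'.zero_mem
    · intro a b
      rw [MonoidHom.mem_ker, map_mul, map_mul, map_mul, map_inv, map_inv, mul_comm (f a) (f b),
        mul_inv_cancel_right, mul_inv_cancel]
    · intro a
      rw [MonoidHom.mem_ker, map_mul, map_inv, mul_inv_eq_one, hf, hf, ← hTM1]
      congr 1
      rw [← sub_eq_zero, ← map_sub]
      exact (QuotientAddGroup.eq_zero_iff _).2 (hT1 _ (hmem a))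
    · intro a
      rw [hW, map_pow, ell_pow (ρ a) N (hN a), Nat.cast_pow]
      exact hp _ (hmem a)
  have hWV : f.ker ≤ V := by
    intro a ha
    rw [hV]
    exact f.ker.pow_mem ha _
  have hVfin : V.index ≠ 0 := by
    intro h0
    have := Subgroup.index_dvd_of_le hWV
    rw [h0, zero_dvd_iff] at this
    exact hfin.index_ne_zero this
  -- linear algebra
  have hspan : Submodule.span ℚ_[p] (Λ : Set (MQ p ι)) = logSpan ρ := rfl
  have hgg := gg_eq_logSpan ρ N hN
  have hTV : ∀ y ∈ logSpan ρ, (TM - LinearMap.id : MQ p ι →ₗ[ℚ_[p]] MQ p ι) y ∈ logSpan ρ := by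
    intro y hy
    rw [← hspan] at hy ⊢
    induction hy using Submodule.span_induction with
    | mem y hy =>
      exact Submodule.sub_mem _ (Submodule.subset_span (hTΛ y hy)) (Submodule.subset_span hy)
    | zero => rw [map_zero]; exact Submodule.zero_mem _
    | add a b _ _ ha hb => rw [map_add]; exact Submodule.add_mem _ ha hb
    | smul c a _ ha => rw [map_smul]; exact Submodule.smul_mem _ _ ha
  let F : logSpan ρ →ₗ[ℚ_[p]] logSpan ρ :=
    (TM - LinearMap.id : MQ p ι →ₗ[ℚ_[p]] MQ p ι).restrict hTV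
  have hF : ∀ y, ((F y : logSpan ρ) : MQ p ι) = TM y - y := fun y => rfl
  let D : Submodule ℚ_[p] (MQ p ι) := (logSpan ρ).map (TM - LinearMap.id)
  have hD : ∀ y ∈ logSpan ρ, TM y - y ∈ D := fun y hy => ⟨y, hy, rfl⟩
  let G : logSpan ρ →ₗ[ℚ_[p]] MQ p ι ⧸ D := D.mkQ.comp (logSpan ρ).subtype
  have hG : LinearMap.ker G = LinearMap.range F := by
    ext x
    rw [LinearMap.mem_ker, LinearMap.comp_apply, Submodule.mkQ_apply,
      Submodule.Quotient.mk_eq_zero, Submodule.subtype_apply]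
    constructor
    · rintro ⟨y, hy, hyx⟩
      exact ⟨⟨y, hy⟩, Subtype.ext hyx⟩
    · rintro ⟨y, hy⟩
      exact ⟨y, y.2, congrArg Subtype.val hy⟩
  have hrank : Module.finrank ℚ_[p] (LinearMap.range G) =
      Module.finrank ℚ_[p] (LinearMap.ker F) := by
    have e1 := LinearMap.finrank_range_add_finrank_ker G
    have e2 := LinearMap.finrank_range_add_finrank_ker F
    rw [hG] at e1
    omega
  have hfix : Module.finrank ℚ_[p] (fixS T) ≤ Module.finrank ℚ_[p] (LinearMap.ker F) := by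
    have hmem' : ∀ x : fixS T, ((x : gg ρ) : MQ p ι) ∈ logSpan ρ := by
      intro x
      rw [← hgg]
      exact (x : gg ρ).2
    let J0 : fixS T →ₗ[ℚ_[p]] logSpan ρ :=
      LinearMap.codRestrict _ ((gg ρ).toSubmodule.subtype.comp (fixS T).subtype) hmem'
    let J : fixS T →ₗ[ℚ_[p]] LinearMap.ker F :=
      LinearMap.codRestrict _ J0 (by
        intro x
        rw [LinearMap.mem_ker]
        apply Subtype.ext
        rw [hF]
        show TM ((x : gg ρ) : MQ p ι) - ((x : gg ρ) : MQ p ι) = 0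
        rw [hTM, ← hT, (mem_fixS T _).1 x.2, sub_self])
    refine LinearMap.finrank_le_finrank_of_injective (f := J) ?_
    intro x y hxy
    apply Subtype.ext
    apply Subtype.ext
    exact congrArg (fun w => ((w.1 : logSpan ρ) : MQ p ι)) hxy
  -- the lattice in the quotient
  let π : MQ p ι →+ MQ p ι ⧸ D := D.mkQ.toAddMonoidHom
  have hπs : ∀ (c : ℚ_[p]) (x : MQ p ι), π (c • x) = c • π x := fun c x => D.mkQ.map_smul c x
  have hπD : ∀ x ∈ D, π x = 0 := fun x hx => (Submodule.Quotient.mk_eq_zero D).2 hx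
  let L : AddSubgroup (MQ p ι ⧸ D) := Λ.map π
  let M : AddSubgroup (MQ p ι ⧸ D) :=
    { carrier := {x | ∃ z ∈ L, x = (p : ℚ_[p]) • z}
      zero_mem' := ⟨0, L.zero_mem, by rw [smul_zero]⟩
      add_mem' := by
        rintro _ _ ⟨z, hz, rfl⟩ ⟨z', hz', rfl⟩
        exact ⟨z + z', L.add_mem hz hz', by rw [smul_add]⟩
      neg_mem' := by
        rintro _ ⟨z, hz, rfl⟩
        exact ⟨-z, L.neg_mem hz, by rw [smul_neg]⟩ }
  have hLs : ∀ (c : ℤ_[p]) (x : MQ p ι ⧸ D), x ∈ L → (c : ℚ_[p]) • x ∈ L := by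
    rintro c _ ⟨z, hz, rfl⟩
    exact ⟨(c : ℚ_[p]) • z, hsmul c z hz, hπs _ _⟩
  have hLf : ∃ s : Finset (MQ p ι ⧸ D), ∀ x ∈ L, ∃ c : MQ p ι ⧸ D → ℤ_[p],
      x = ∑ v ∈ s, (c v : ℚ_[p]) • v := by
    obtain ⟨s, hs⟩ := hfg
    refine ⟨s.image π, ?_⟩
    rintro _ ⟨x, hx, rfl⟩
    obtain ⟨c, hc⟩ := hs x hx
    refine ⟨fun v => ∑ u ∈ s with π u = v, c u, ?_⟩
    have e1 : π x = ∑ v ∈ s, (c v : ℚ_[p]) • π v := by
      conv_lhs => rw [hc]
      rw [map_sum]
      exact Finset.sum_congr rfl fun v _ => hπs _ _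
    rw [e1, ← Finset.sum_fiberwise_of_maps_to (g := fun v => π v) (t := s.image π)
      (fun v hv => Finset.mem_image_of_mem _ hv)]
    refine Finset.sum_congr rfl fun v _ => ?_
    rw [PadicInt.coe_sum, Finset.sum_smul]
    refine Finset.sum_congr rfl fun u hu => ?_
    rw [(Finset.mem_filter.1 hu).2]
  have key2 := lattice_index (p := p) L hLs hLf LinearMap.id (fun x hx => hx) M (by
    intro x
    constructor
    · rintro ⟨z, hz, rfl⟩
      exact ⟨0, L.zero_mem, z, hz, by simp⟩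
    · rintro ⟨y, _, z, hz, rfl⟩
      exact ⟨z, hz, by simp⟩)
  rw [sub_self, LinearMap.ker_zero, inf_top_eq] at key2
  have hLspan : Submodule.span ℚ_[p] (L : Set (MQ p ι ⧸ D)) = LinearMap.range G := by
    have e1 : (L : Set (MQ p ι ⧸ D)) = D.mkQ '' (Λ : Set (MQ p ι)) := rfl
    rw [e1, Submodule.span_image, hspan, LinearMap.range_comp, Submodule.range_subtype]
  rw [hLspan, hrank] at key2
  -- the second homomorphism
  have hpL : ∀ z ∈ Λ, ((p : ℚ_[p]) ^ (t + 1)) • z ∈ M.comap π := by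
    intro z hz
    refine ⟨π (((p : ℚ_[p]) ^ t) • z), ⟨_, hsmulp t z hz, rfl⟩, ?_⟩
    rw [hπs, hπs, smul_smul, ← pow_succ']
  obtain ⟨f', -, hW', hindex'⟩ := cp1_hom ρ hρ N hN (t + 1) hpow Λ (M.comap π) hΛ hpL
  rw [AddSubgroup.relIndex_comap] at hindex'
  have hVV : V ≤ f'.ker := by
    intro a ha
    rw [hV, hW, map_pow, ell_pow (ρ a) N (hN a), Nat.cast_pow] at ha
    obtain ⟨y, hy, z, hz, h3⟩ := ha
    rw [hW']
    refine ⟨π z, ⟨z, hz, rfl⟩, ?_⟩
    have h4 : π (((p : ℚ_[p]) ^ t) • ell (ρ a)) = ((p : ℚ_[p]) ^ (t + 1)) • π z := by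
      rw [h3, map_add, hπD _ (hD y (Submodule.subset_span hy)), zero_add, hπs]
    rw [hπs] at h4
    have hpt : ((p : ℚ_[p]) ^ t) ≠ 0 := pow_ne_zero _ hp0
    have h5 := congrArg (fun w => (((p : ℚ_[p]) ^ t)⁻¹) • w) h4
    simp only [smul_smul] at h5
    rw [inv_mul_cancel₀ hpt, one_smul, pow_succ, inv_mul_cancel_left₀ hpt] at h5
    exact h5
  have hdvd : f'.ker.index ≤ V.index :=
    Nat.le_of_dvd (Nat.pos_of_ne_zero hVfin) (Subgroup.index_dvd_of_le hVV)
  have hfinal : p ^ Module.finrank ℚ_[p] (fixS T) ≤ p ^ r :=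
    calc p ^ Module.finrank ℚ_[p] (fixS T) ≤ p ^ Module.finrank ℚ_[p] (LinearMap.ker F) :=
          Nat.pow_le_pow_right (Fact.out : p.Prime).pos hfix
      _ ≤ M.relIndex L := key2
      _ = f'.ker.index := hindex'.symm
      _ ≤ V.index := hdvd
      _ ≤ p ^ r := hVr
  exact (Nat.pow_le_pow_iff_right (Fact.out : p.Prime).one_lt).1 hfinal

end Pool.Agent.Lib.MP_ca71b5_nt
end

section

/-!
# Quotients on which conjugation is trivial
-/

set_option autoImplicit false
open scoped NumberField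

namespace Pool.Agent.Lib.MP_ca71b5_nt

variable {p : ℕ} [Fact p.Prime] {F K : Type} [Field F] [NumberField F] [Field K] [NumberField K]
  [Algebra F K] [IsGalois F K]

/-- the descended extension is unramified of the same degree -/
private theorem d3_field (l : ℕ) [Fact l.Prime] (hpl : p ≠ l) (hl : Module.finrank F K = l)
    {n : ℕ} (ρ : GK K →* Matrix.GeneralLinearGroup (Fin n) ℤ_[p]) (h : UnrPro p K ρ)
    (τ : GF F K)
    (hτ : ∃ a : K, τ (algebraMap K (AlgebraicClosure K) a) ≠ algebraMap K (AlgebraicClosure K) a)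
    (ht : ∃ t : GK K, toGF F K t = τ ^ l ∧ ρ t = 1) (W : Subgroup (GK K)) [W.Normal]
    (hW : IsOpen (W : Set (GK K))) (hker : ρ.ker ≤ W)
    (hτW : ∀ g : GK K, conjK τ g * g⁻¹ ∈ W) :
    ∃ (M : Type) (_ : Field M) (_ : NumberField M) (_ : Algebra F M) (_ : IsGalois F M),
      Nonempty ((M ≃ₐ[F] M) ≃* (GK K ⧸ W)) ∧ Module.finrank F M = W.index ∧
      (∃ k : ℕ, Module.finrank F M = p ^ k) ∧ Algebra.Unramified (𝓞 F) (𝓞 M) := by
  obtain ⟨t, ht1, ht2⟩ := ht
  obtain ⟨M, hMfin, hMgal, ⟨e⟩, hML⟩ := descend_field l hl τ hτ W hW hτW ⟨t, hker ht2, ht1⟩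
  obtain ⟨hLfin, hLrank, -⟩ := fixedField_open K W hW
  have hLle : IntermediateField.fixedField W ≤ IntermediateField.fixedField ρ.ker :=
    IntermediateField.fixedField_le hker
  obtain ⟨⟨k, hk⟩, hunr⟩ := h _ hLle hLfin
  have hMnf : NumberField M := NumberField.of_module_finite F M
  have hLnf : NumberField (IntermediateField.fixedField W) := NumberField.of_module_finite K _
  have hrank : Module.finrank F M = W.index := by
    rw [← IsGalois.card_aut_eq_finrank, Nat.card_congr e.toEquiv]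
    rfl
  let i : M →+* IntermediateField.fixedField W :=
    { toFun := fun x => ⟨(x : AlgebraicClosure K), hML x x.2⟩
      map_one' := rfl
      map_mul' := fun _ _ => rfl
      map_zero' := rfl
      map_add' := fun _ _ => rfl }
  let _ : Algebra M (IntermediateField.fixedField W) := i.toAlgebra
  have hsc : IsScalarTower F M (IntermediateField.fixedField W) :=
    IsScalarTower.of_algebraMap_eq fun x => by
      apply Subtype.ext
      rfl
  refine ⟨M, inferInstance, hMnf, inferInstance, hMgal, ⟨e⟩, hrank, ⟨k, ?_⟩, ?_⟩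
  · rw [hrank, ← hLrank, hk]
  · exact unramified_descend F K (IntermediateField.fixedField W) M p l hpl hl
      ⟨k, by rw [hrank, ← hLrank, hk]⟩ hunr

theorem rankF_of_rankLE (l : ℕ) [Fact l.Prime] (hpl : p ≠ l) (hl : Module.finrank F K = l)
    {n : ℕ} (ρ : GK K →* Matrix.GeneralLinearGroup (Fin n) ℤ_[p]) (h : UnrPro p K ρ)
    (τ : GF F K)
    (hτ : ∃ a : K, τ (algebraMap K (AlgebraicClosure K) a) ≠ algebraMap K (AlgebraicClosure K) a)
    (ht : ∃ t : GK K, toGF F K t = τ ^ l ∧ ρ t = 1) (r : ℕ) (hr : RankLE p F r) :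
    RankF p r ρ.ker (conjK τ) := by
  intro W hWn hW hker hcomm hpow hτW
  obtain ⟨M, _, _, _, _, ⟨e⟩, hrank, -, hunr⟩ := d3_field l hpl hl ρ h τ hτ ht W hW hker hτW
  rw [← hrank]
  refine hr M ?_ ?_ hunr
  · intro s t
    apply e.injective
    rw [map_mul, map_mul]
    obtain ⟨a, ha⟩ := QuotientGroup.mk_surjective (e s)
    obtain ⟨b, hb⟩ := QuotientGroup.mk_surjective (e t)
    rw [← ha, ← hb, ← QuotientGroup.mk_mul, ← QuotientGroup.mk_mul, QuotientGroup.eq]
    have h1 := hcomm b⁻¹ a⁻¹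
    have h2 : (a * b)⁻¹ * (b * a) = b⁻¹ * a⁻¹ * b⁻¹⁻¹ * a⁻¹⁻¹ := by group
    rw [h2]
    exact h1
  · intro s
    apply e.injective
    rw [map_pow, map_one]
    obtain ⟨a, ha⟩ := QuotientGroup.mk_surjective (e s)
    rw [← ha, ← QuotientGroup.mk_pow]
    exact (QuotientGroup.eq_one_iff _).2 (hpow a)

theorem towerF_of_finiteTower (l : ℕ) [Fact l.Prime] (hpl : p ≠ l)
    (hl : Module.finrank F K = l) {n : ℕ}
    (ρ : GK K →* Matrix.GeneralLinearGroup (Fin n) ℤ_[p]) (h : UnrPro p K ρ) (τ : GF F K)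
    (hτ : ∃ a : K, τ (algebraMap K (AlgebraicClosure K) a) ≠ algebraMap K (AlgebraicClosure K) a)
    (ht : ∃ t : GK K, toGF F K t = τ ^ l ∧ ρ t = 1) (hT : FiniteTower p F) :
    TowerF ρ.ker (conjK τ) := by
  obtain ⟨B, hB⟩ := hT
  refine ⟨B, fun W hWn hW hker hτW => ?_⟩
  obtain ⟨M, _, _, _, _, -, hrank, hk, hunr⟩ := d3_field l hpl hl ρ h τ hτ ht W hW hker hτW
  rw [← hrank]
  exact hB M hk hunr

end Pool.Agent.Lib.MP_ca71b5_nt
end
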