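import Mathlib
import Pool.Agent.Lib.MP_ca71b5_nt.E2
import Pool.Agent.Lib.MP_ca71b5_nt.ADefs
import Pool.Agent.Lib.MP_ca71b5_nt.Q2
import Pool.Agent.Lib.MP_ca71b5_nt.LPM

section

section

/-!
# A matrix lies in every subalgebra containing its logarithm
-/

set_option autoImplicit false

namespace Pool.Agent.Lib.MP_ca71b5_nt

variable {p : ℕ} [Fact p.Prime] {ι : Type} [Fintype ι] [DecidableEq ι]

/-- `A` is congruent to an element of `C` modulo `p ^ t`. -/
def E5_CS (C : Subalgebra ℚ_[p] (MQ p ι)) (t : ℤ) (A : MQ p ι) : Prop :=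
  ∃ c ∈ C, Small t (A - c)

theorem E5_CS.mono {C : Subalgebra ℚ_[p] (MQ p ι)} {s t : ℤ} {A : MQ p ι}
    (h : E5_CS C t A) (hst : s ≤ t) : E5_CS C s A := by
  obtain ⟨c, hc, h⟩ := h
  exact ⟨c, hc, h.mono hst⟩

theorem E5_pow_sub {t : ℕ} {Z c : MQ p ι} (hZ : Small 2 Z) (hc : Small 2 c)
    (he : Small (t : ℤ) (Z - c)) (j : ℕ) :
    Small ((t : ℤ) + 2 * j) (Z ^ (j + 1) - c ^ (j + 1)) := by
  induction j with
  | zero => simpa using he
  | succ j ih =>
    have h1 : Z ^ (j + 1 + 1) - c ^ (j + 1 + 1) =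
        Z ^ (j + 1) * (Z - c) + (Z ^ (j + 1) - c ^ (j + 1)) * c := by
      rw [pow_succ Z (j + 1), pow_succ c (j + 1)]
      noncomm_ring
    rw [h1]
    refine Small.add ?_ ?_
    · refine ((Small.pow' hZ (j + 1)).mul he).mono ?_
      push_cast
      omega
    · refine (ih.mul hc).mono ?_
      push_cast
      omega

theorem E5_expand (V : MQ p ι) :
    V ^ p - 1 = ∑ j ∈ Finset.range p, ((p.choose (j + 1) : ℕ) : ℚ_[p]) • (V - 1) ^ (j + 1) := by
  have h : V ^ p = ((V - 1) + 1) ^ p := by rw [sub_add_cancel]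
  rw [h, (Commute.one_right (V - 1)).add_pow, Finset.sum_range_succ']
  simp only [one_pow, mul_one, pow_zero, Nat.choose_zero_right, Nat.cast_one]
  rw [add_sub_cancel_right]
  refine Finset.sum_congr rfl fun j _ => ?_
  rw [← Nat.cast_comm, ← nsmul_eq_mul, Nat.cast_smul_eq_nsmul]

theorem E5_step (C : Subalgebra ℚ_[p] (MQ p ι)) (V : MQ p ι) (t : ℕ) (ht : 2 ≤ t)
    (hV : Small 2 (V - 1)) (h1 : E5_CS C t (V - 1)) (h2 : ¬ E5_CS C (t + 1) (V - 1)) :
    Small 2 (V ^ p - 1) ∧ E5_CS C (t + 1) (V ^ p - 1) ∧ ¬ E5_CS C (t + 2) (V ^ p - 1) := by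
  obtain ⟨c, hcC, he⟩ := h1
  set Z := V - 1 with hZ
  have hc2 : Small 2 c := by
    have : c = Z - (Z - c) := by abel
    rw [this]
    exact hV.sub (he.mono (by exact_mod_cast ht))
  have hp2 : 2 ≤ p := (Fact.out : p.Prime).two_le
  have hexp := E5_expand V
  rw [← hZ] at hexp
  set c' : MQ p ι := ∑ j ∈ Finset.range p, ((p.choose (j + 1) : ℕ) : ℚ_[p]) • c ^ (j + 1)
    with hc'
  have hc'C : c' ∈ C := by
    rw [hc']
    exact C.sum_mem fun j _ => C.smul_mem (C.pow_mem hcC _) _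
  obtain ⟨q, hq⟩ : ∃ q, p = q + 1 := ⟨p - 1, by omega⟩
  obtain ⟨w, hw, hdiff⟩ : ∃ w : MQ p ι, Small ((t : ℤ) + 2) w ∧
      V ^ p - 1 - c' = (p : ℚ_[p]) • (Z - c) + w := by
    refine ⟨∑ j ∈ Finset.range q, ((p.choose (j + 1 + 1) : ℕ) : ℚ_[p]) •
      (Z ^ (j + 1 + 1) - c ^ (j + 1 + 1)), ?_, ?_⟩
    · refine Small.sum _ _ fun j _ => ?_
      refine Small.nat_smul _ ((E5_pow_sub hV hc2 he (j + 1)).mono ?_)
      push_cast
      omega
    · rw [hexp, hc', ← Finset.sum_sub_distrib]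
      have h3 : ∀ j, ((p.choose (j + 1) : ℕ) : ℚ_[p]) • Z ^ (j + 1) -
          ((p.choose (j + 1) : ℕ) : ℚ_[p]) • c ^ (j + 1) =
          ((p.choose (j + 1) : ℕ) : ℚ_[p]) • (Z ^ (j + 1) - c ^ (j + 1)) := fun j => by
        rw [smul_sub]
      rw [Finset.sum_congr rfl fun j _ => h3 j]
      have h4 : Finset.range p = Finset.range (q + 1) := by rw [← hq]
      rw [h4, Finset.sum_range_succ', add_comm]
      congr 1
      rw [zero_add, Nat.choose_one_right, pow_one, pow_one]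
  have hpe : Small ((t : ℤ) + 1) ((p : ℚ_[p]) • (Z - c)) := by
    have := Small.p_smul 1 he
    rw [pow_one] at this
    refine this.mono ?_
    push_cast
    omega
  refine ⟨?_, ⟨c', hc'C, ?_⟩, ?_⟩
  · rw [hexp]
    refine Small.sum _ _ fun j _ => ?_
    refine Small.nat_smul _ ((Small.pow' hV (j + 1)).mono ?_)
    push_cast
    omega
  · rw [hdiff]
    exact hpe.add (hw.mono (by omega))
  · rintro ⟨c'', hc''C, h5⟩
    apply h2
    have hp0 : (p : ℚ_[p]) ≠ 0 := by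
      exact_mod_cast (Fact.out : p.Prime).ne_zero
    refine ⟨c + (p : ℚ_[p])⁻¹ • (c'' - c'), C.add_mem hcC (C.smul_mem (C.sub_mem hc''C hc'C) _), ?_⟩
    have h6 : Z - (c + (p : ℚ_[p])⁻¹ • (c'' - c')) =
        (p : ℚ_[p])⁻¹ • ((V ^ p - 1 - c'') - w) := by
      have h7 : V ^ p - 1 - c'' - w = (p : ℚ_[p]) • (Z - c) - (c'' - c') := by
        have : V ^ p - 1 - c'' - w = (V ^ p - 1 - c') - w - (c'' - c') := by abel
        rw [this, hdiff]
        abel
      rw [h7, smul_sub (p : ℚ_[p])⁻¹ ((p : ℚ_[p]) • (Z - c)), smul_smul, inv_mul_cancel₀ hp0,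
        one_smul]
      abel
    rw [h6]
    have := Small.p_inv_smul 1 (h5.sub hw)
    rw [pow_one] at this
    refine this.mono ?_
    push_cast
    omega

theorem gm_mem_of_ell_mem (C : Subalgebra ℚ_[p] (MQ p ι)) (u : GLZ p ι)
    (h : Small 2 (gm u - 1)) (hu : ell u ∈ C) : gm u ∈ C := by
  have hE := (ell_expand u 2 le_rfl (by exact_mod_cast h)).1
  -- all the powers
  have key : ∀ t : ℕ, 2 ≤ t → E5_CS C t (gm u - 1) → E5_CS C (t + 1) (gm u - 1) := by
    intro t ht h1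
    by_contra h2
    have hm : ∀ m : ℕ, Small 2 (gm u ^ (p ^ m) - 1) ∧
        E5_CS C ((t + m : ℕ) : ℤ) (gm u ^ (p ^ m) - 1) ∧
        ¬ E5_CS C (((t + m : ℕ) : ℤ) + 1) (gm u ^ (p ^ m) - 1) := by
      intro m
      induction m with
      | zero => simpa using ⟨h, h1, h2⟩
      | succ m ih =>
        obtain ⟨i1, i2, i3⟩ := ih
        have := E5_step C (gm u ^ (p ^ m)) (t + m) (by omega) i1 i2 i3
        rw [← pow_mul, ← pow_succ] at this
        refine ⟨this.1, this.2.1.mono (by push_cast; omega), fun h8 => this.2.2 (h8.mono ?_)⟩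
        push_cast
        omega
    refine (hm t).2.2 (E5_CS.mono (t := 2 * (t : ℤ) + 2 * ((2 : ℕ) : ℤ) - 1)
      ⟨((p : ℚ_[p]) ^ t) • ell u, C.smul_mem hu _, hE t⟩ ?_)
    push_cast
    omega
  have hall : ∀ k : ℕ, E5_CS C ((2 + k : ℕ) : ℤ) (gm u - 1) := by
    intro k
    induction k with
    | zero => exact ⟨0, C.zero_mem, by simpa using h⟩
    | succ k ih =>
      have := key (2 + k) (by omega) ih
      refine this.mono ?_
      push_cast
      omega
  choose c hcC hc using hall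
  have hlim : Filter.Tendsto c Filter.atTop (nhds (gm u - 1)) := by
    have h9 : Filter.Tendsto (fun k => (gm u - 1) - c k) Filter.atTop (nhds 0) := by
      refine tendsto_zero_of_small fun t => ?_
      filter_upwards [Filter.eventually_ge_atTop t.toNat] with k hk
      refine (hc k).mono ?_
      have : t ≤ (t.toNat : ℤ) := Int.self_le_toNat t
      push_cast
      omega
    have h10 := (tendsto_const_nhds (x := gm u - 1)).sub h9
    simpa using h10
  have hclosed : IsClosed (C.toSubmodule : Set (MQ p ι)) :=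
    Submodule.closed_of_finiteDimensional _
  have h11 : gm u - 1 ∈ (C.toSubmodule : Set (MQ p ι)) :=
    hclosed.mem_of_tendsto hlim (Filter.Eventually.of_forall fun k => hcC k)
  have h12 : gm u - 1 ∈ C := h11
  have := C.add_mem h12 C.one_mem
  rwa [sub_add_cancel] at this

end Pool.Agent.Lib.MP_ca71b5_nt
end

section

/-!
# The logarithm is additive modulo an ideal with commutative quotient
-/

set_option autoImplicit false

namespace Pool.Agent.Lib.MP_ca71b5_nt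

variable {p : ℕ} [Fact p.Prime] {ι : Type} [Fintype ι] [DecidableEq ι]

private theorem e6_p_pow_zero :
    Filter.Tendsto (fun m : ℕ => (p : ℚ_[p]) ^ m) Filter.atTop (nhds 0) := by
  apply tendsto_pow_atTop_nhds_zero_of_norm_lt_one
  exact Padic.norm_p_lt_one

/-- `g ^ (p ^ m)` tends to one -/
private theorem e6_gm_pow_tendsto_one (g : GLZ p ι) (N : ℕ) (hg : Deep 2 N g) :
    Filter.Tendsto (fun m : ℕ => gm g ^ (p ^ m)) Filter.atTop (nhds 1) := by
  have h1 := (ell_tendsto g N hg).1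
  have h2 := (e6_p_pow_zero (p := p)).smul h1
  have h3 : Filter.Tendsto (fun m : ℕ => (1 : MQ p ι) + (p : ℚ_[p]) ^ m •
      (((p : ℚ_[p]) ^ m)⁻¹ • (gm g ^ (p ^ m) - 1))) Filter.atTop (nhds 1) := by
    have h4 := h2.const_add (1 : MQ p ι)
    rwa [zero_smul, add_zero] at h4
  refine h3.congr fun m => ?_
  have hp : (p : ℚ_[p]) ^ m ≠ 0 :=
    pow_ne_zero _ (by exact_mod_cast (Fact.out : p.Prime).ne_zero)
  rw [smul_inv_smul₀ hp, add_sub_cancel]

theorem ell_mul_mem_ideal (C : Subalgebra ℚ_[p] (MQ p ι)) (I : Submodule ℚ_[p] (MQ p ι))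
    (hl : ∀ a ∈ C, ∀ x ∈ I, a * x ∈ I) (hr : ∀ a ∈ C, ∀ x ∈ I, x * a ∈ I)
    (hc : ∀ a ∈ C, ∀ b ∈ C, a * b - b * a ∈ I) (u v : GLZ p ι) (N : ℕ)
    (hu : gm u ∈ C) (hv : gm v ∈ C) (du : Deep 2 N u) (dv : Deep 2 N v)
    (duv : Deep 2 N (u * v)) :
    ell (u * v) - ell u - ell v ∈ I := by
  have key : ∀ k : ℕ, gm (u * v) ^ k - gm u ^ k * gm v ^ k ∈ I := by
    intro k
    induction k with
    | zero =>
      rw [pow_zero, pow_zero, pow_zero, one_mul, sub_self]
      exact I.zero_mem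
    | succ k ih =>
      have e : gm (u * v) ^ (k + 1) - gm u ^ (k + 1) * gm v ^ (k + 1) =
          (gm (u * v) ^ k - gm u ^ k * gm v ^ k) * (gm u * gm v) +
            (gm u ^ k * (gm v ^ k * gm u - gm u * gm v ^ k)) * gm v := by
        rw [gm_mul, pow_succ, pow_succ, pow_succ]
        noncomm_ring
      rw [e]
      exact I.add_mem (hr _ (C.mul_mem hu hv) _ ih)
        (hr _ hv _ (hl _ (C.pow_mem hu k) _ (hc _ (C.pow_mem hv k) _ hu)))
  have hmem : ∀ m : ℕ, ((p : ℚ_[p]) ^ m)⁻¹ • (gm (u * v) ^ (p ^ m) - 1) -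
      (((p : ℚ_[p]) ^ m)⁻¹ • (gm u ^ (p ^ m) - 1)) * gm v ^ (p ^ m) -
      ((p : ℚ_[p]) ^ m)⁻¹ • (gm v ^ (p ^ m) - 1) ∈ I := by
    intro m
    have e : ((p : ℚ_[p]) ^ m)⁻¹ • (gm (u * v) ^ (p ^ m) - 1) -
        (((p : ℚ_[p]) ^ m)⁻¹ • (gm u ^ (p ^ m) - 1)) * gm v ^ (p ^ m) -
        ((p : ℚ_[p]) ^ m)⁻¹ • (gm v ^ (p ^ m) - 1) =
        ((p : ℚ_[p]) ^ m)⁻¹ • (gm (u * v) ^ (p ^ m) - gm u ^ (p ^ m) * gm v ^ (p ^ m)) := by
      rw [smul_mul_assoc, ← smul_sub, ← smul_sub]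
      congr 1
      noncomm_ring
    rw [e]
    exact I.smul_mem _ (key _)
  have hlim : Filter.Tendsto (fun m : ℕ => ((p : ℚ_[p]) ^ m)⁻¹ • (gm (u * v) ^ (p ^ m) - 1) -
      (((p : ℚ_[p]) ^ m)⁻¹ • (gm u ^ (p ^ m) - 1)) * gm v ^ (p ^ m) -
      ((p : ℚ_[p]) ^ m)⁻¹ • (gm v ^ (p ^ m) - 1)) Filter.atTop
      (nhds (ell (u * v) - ell u - ell v)) := by
    have h1 := (ell_tendsto (u * v) N duv).1
    have h2 := (ell_tendsto u N du).1
    have h3 := (ell_tendsto v N dv).1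
    have h4 := e6_gm_pow_tendsto_one v N dv
    have h5 := (h1.sub (h2.mul h4)).sub h3
    rwa [mul_one] at h5
  have hclosed : IsClosed (I : Set (MQ p ι)) := Submodule.closed_of_finiteDimensional I
  exact hclosed.mem_of_tendsto hlim (Filter.Eventually.of_forall hmem)

end Pool.Agent.Lib.MP_ca71b5_nt
end
end

section

section

/-!
# Powers of deeply embedded subgroups, p even
-/

set_option autoImplicit false

open scoped commutatorElement

namespace Pool.Agent.Lib.MP_ca71b5_nt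

section general

variable {G Q : Type*} [Group G] [Group Q]

private theorem aga2_mem {k : ℕ} {N : Subgroup G} {y : G} (hy : y ∈ N) : y ^ k ∈ PS k N :=
  Subgroup.subset_closure ⟨y, hy, rfl⟩

private theorem aga2_normal (k : ℕ) {N : Subgroup G} (hN : N.Normal) : (PS k N).Normal := by
  refine ⟨fun n hn g => ?_⟩
  have h : PS k N ≤ (PS k N).comap (MulAut.conj g).toMonoidHom := by
    refine (Subgroup.closure_le _).2 ?_
    rintro z ⟨y, hy, rfl⟩
    show g * y ^ k * g⁻¹ ∈ PS k N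
    rw [← conj_pow]
    exact aga2_mem (hN.conj_mem y hy g)
  exact h hn

private theorem aga2_map (f : G →* Q) (k : ℕ) (N : Subgroup G) :
    (PS k N).map f = PS k (N.map f) := by
  unfold PS
  rw [MonoidHom.map_closure]
  congr 1
  ext z
  constructor
  · rintro ⟨_, ⟨y, hy, rfl⟩, rfl⟩
    exact ⟨f y, ⟨y, hy, rfl⟩, map_pow f y k⟩
  · rintro ⟨_, ⟨y, hy, rfl⟩, rfl⟩
    exact ⟨y ^ k, ⟨y, hy, rfl⟩, map_pow f y k⟩

private theorem aga2_four_le (r : ℕ) (N : Subgroup G) : PS (4 * r) N ≤ PS 2 N := by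
  refine (Subgroup.closure_le _).2 ?_
  rintro z ⟨y, hy, rfl⟩
  have h : y ^ (4 * r) = (y ^ 2) ^ (2 * r) := by
    rw [← pow_mul]
    congr 1
    ring
  rw [SetLike.mem_coe, h]
  exact Subgroup.pow_mem _ (aga2_mem hy) _

/-- reduction to the central case, in nilpotent groups -/
private theorem aga2_nilp [Group.IsNilpotent G] {K M : Subgroup G} (hK : K.Normal)
    (h : ⁅M, (⊤ : Subgroup G)⁆ ≤ K ⊔ ⁅⁅M, (⊤ : Subgroup G)⁆, (⊤ : Subgroup G)⁆) :
    ⁅M, (⊤ : Subgroup G)⁆ ≤ K := by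
  have key : ∀ i : ℕ, ⁅M, (⊤ : Subgroup G)⁆ ≤ K ⊔ (⊤ : Subgroup G).lowerCentralSeries i := by
    intro i
    induction i with
    | zero =>
      rw [Subgroup.lowerCentralSeries_zero]
      exact le_top.trans le_sup_right
    | succ i ih =>
      refine h.trans (sup_le le_sup_left ?_)
      rw [Subgroup.commutator_le]
      intro x hx g _
      obtain ⟨y, hy, z, hz, rfl⟩ := Subgroup.mem_sup_of_normal_left.1 (ih hx)
      have e : ⁅y * z, g⁆ = (y * ⁅z, g⁆ * y⁻¹) * ⁅y, g⁆ := by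
        simp only [commutatorElement_def]
        group
      rw [e]
      refine Subgroup.mul_mem _ ?_ ?_
      · refine (Subgroup.mem_sup_right ?_ : _ ∈ K ⊔ (⊤ : Subgroup G).lowerCentralSeries (i + 1))
        refine (inferInstance : ((⊤ : Subgroup G).lowerCentralSeries (i + 1)).Normal).conj_mem _ ?_ y
        exact Subgroup.commutator_mem_commutator hz (Subgroup.mem_top g)
      · refine Subgroup.mem_sup_left ?_
        have h1 : g * y⁻¹ * g⁻¹ ∈ K := hK.conj_mem _ (K.inv_mem hy) g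
        have h2 := K.mul_mem hy h1
        rw [commutatorElement_def]
        rwa [mul_assoc, mul_assoc, ← mul_assoc g] 
  obtain ⟨n, hn⟩ := Subgroup.nilpotent_iff_lowerCentralSeries.1 (inferInstance : Group.IsNilpotent G)
  have h1 := key n
  rwa [hn, sup_bot_eq] at h1

/-- the central case -/
private theorem aga2_central (c r : ℕ) (hcr : 2 ^ c = 4 * r) (N : Subgroup G) (hN : ∀ x ∈ N, ∀ g : G, ⁅x, g⁆ ∈ PS (4 * r) N)
    (h1 : ∀ m ∈ PS 2 N, m ^ (4 * r) = 1) (h2 : ∀ m ∈ PS 2 N, ∀ g h : G, ⁅m, g⁆ * h = h * ⁅m, g⁆) :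
    ∀ m ∈ PS 2 N, ∀ g : G, ⁅m, g⁆ = 1 := by
  set M := PS 2 N with hM
  have hlin : ∀ m ∈ M, ∀ m' ∈ M, ∀ g : G, ⁅m * m', g⁆ = ⁅m', g⁆ * ⁅m, g⁆ := by
    intro m hm m' hm' g
    have e : ⁅m * m', g⁆ = (m * ⁅m', g⁆ * m⁻¹) * ⁅m, g⁆ := by
      simp only [commutatorElement_def]
      group
    rw [e, ← h2 m' hm' g m, mul_inv_cancel_right]
  have hinv : ∀ m ∈ M, ∀ g : G, ⁅m⁻¹, g⁆ = ⁅m, g⁆⁻¹ := by
    intro m hm g
    have h3 := hlin m hm m⁻¹ (M.inv_mem hm) g
    rw [mul_inv_cancel, commutatorElement_one_left] at h3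
    exact eq_inv_of_mul_eq_one_left h3.symm
  -- the subgroup of central elements generated by the commutators
  set C : Subgroup G := Subgroup.closure {z | ∃ m ∈ M, ∃ g : G, z = ⁅m, g⁆} with hC
  have hCc : ∀ c ∈ C, ∀ h : G, c * h = h * c := by
    intro c hc h
    have h3 : C ≤ Subgroup.center G := by
      refine (Subgroup.closure_le _).2 ?_
      rintro z ⟨m, hm, g, rfl⟩
      exact Subgroup.mem_center_iff.2 fun h => (h2 m hm g h).symm
    exact (Subgroup.mem_center_iff.1 (h3 hc) h).symm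
  have hCm : ∀ m ∈ M, ∀ g : G, ⁅m, g⁆ ∈ C := fun m hm g =>
    Subgroup.subset_closure ⟨m, hm, g, rfl⟩
  let C2 : Subgroup G :=
    { carrier := {z | ∃ c ∈ C, z = c ^ 2}
      mul_mem' := by
        rintro _ _ ⟨c, hc, rfl⟩ ⟨d, hd, rfl⟩
        refine ⟨c * d, C.mul_mem hc hd, ?_⟩
        exact (Commute.mul_pow (hCc c hc d) 2).symm
      one_mem' := ⟨1, C.one_mem, (one_pow 2).symm⟩
      inv_mem' := by
        rintro _ ⟨c, hc, rfl⟩
        exact ⟨c⁻¹, C.inv_mem hc, (inv_pow c 2).symm⟩ }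
  have hP4 : PS (4 * r) N ≤ M := aga2_four_le r N
  -- (1)
  have s1 : ∀ n ∈ PS (4 * r) N, ∀ g : G, ⁅n, g⁆ ∈ C2 := by
    intro n hn g
    have h3 : n ∈ M ∧ ⁅n, g⁆ ∈ C2 := by
      refine Subgroup.closure_induction (p := fun n _ => n ∈ M ∧ ⁅n, g⁆ ∈ C2) ?_ ?_ ?_ ?_ hn
      · rintro _ ⟨a, ha, rfl⟩
        have h4 : (a ^ 2) ^ r ∈ M := M.pow_mem (aga2_mem ha) r
        have e : a ^ (4 * r) = (a ^ 2) ^ r * (a ^ 2) ^ r := by
          rw [← pow_mul, ← pow_add]
          congr 1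
          ring
        rw [e]
        refine ⟨M.mul_mem h4 h4, ?_⟩
        rw [hlin _ h4 _ h4]
        exact ⟨⁅(a ^ 2) ^ r, g⁆, hCm _ h4 g, (sq _).symm⟩
      · refine ⟨M.one_mem, ?_⟩
        rw [commutatorElement_one_left]
        exact C2.one_mem
      · rintro x y _ _ ⟨hx, hx'⟩ ⟨hy, hy'⟩
        refine ⟨M.mul_mem hx hy, ?_⟩
        rw [hlin x hx y hy]
        exact C2.mul_mem hy' hx'
      · rintro x _ ⟨hx, hx'⟩
        refine ⟨M.inv_mem hx, ?_⟩
        rw [hinv x hx]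
        exact C2.inv_mem hx'
    exact h3.2
  -- (2)
  have s2 : ∀ n ∈ PS (4 * r) N, n ^ 2 ∈ C2 := by
    intro n hn
    refine Subgroup.closure_induction (p := fun n _ => n ^ 2 ∈ C2) ?_ ?_ ?_ ?_ hn
    · rintro _ ⟨a, ha, rfl⟩
      have h4 : a ^ 2 ∈ M := aga2_mem ha
      have e : (a ^ (4 * r)) ^ 2 = (a ^ 2) ^ (4 * r) := by
        rw [← pow_mul, ← pow_mul, Nat.mul_comm]
      rw [e, h1 _ h4]
      exact C2.one_mem
    · rw [one_pow]
      exact C2.one_mem
    · intro x y hx hy hx' hy'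
      have e : (x * y) ^ 2 = x ^ 2 * ⁅x⁻¹, y⁆ * y ^ 2 := by
        simp only [commutatorElement_def, sq]
        group
      rw [e]
      exact C2.mul_mem (C2.mul_mem hx' (s1 _ ((PS (4 * r) N).inv_mem hx) y)) hy'
    · intro x _ hx'
      rw [inv_pow]
      exact C2.inv_mem hx'
  -- (3)
  have s3 : ∀ x ∈ N, ∀ g : G, ⁅x ^ 2, g⁆ ∈ C2 := by
    intro x hx g
    have hc : ⁅g, x⁆ ∈ PS (4 * r) N := by
      rw [← commutatorElement_inv]
      exact (PS (4 * r) N).inv_mem (hN x hx g)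
    have e : ⁅g, x ^ 2⁆ = ⁅g, x⁆ ^ 2 * ⁅⁅g, x⁆⁻¹, x⁆ := by
      simp only [commutatorElement_def, sq]
      group
    have h3 : ⁅g, x ^ 2⁆ ∈ C2 := by
      rw [e]
      exact C2.mul_mem (s2 _ hc) (s1 _ ((PS (4 * r) N).inv_mem hc) x)
    rw [← commutatorElement_inv]
    exact C2.inv_mem h3
  -- (4)
  have s4 : ∀ m ∈ M, ∀ g : G, ⁅m, g⁆ ∈ C2 := by
    intro n hn g
    have h3 : n ∈ M ∧ ⁅n, g⁆ ∈ C2 := by
      refine Subgroup.closure_induction (p := fun n _ => n ∈ M ∧ ⁅n, g⁆ ∈ C2) ?_ ?_ ?_ ?_ hn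
      · rintro _ ⟨a, ha, rfl⟩
        exact ⟨aga2_mem ha, s3 a ha g⟩
      · refine ⟨M.one_mem, ?_⟩
        rw [commutatorElement_one_left]
        exact C2.one_mem
      · rintro x y _ _ ⟨hx, hx'⟩ ⟨hy, hy'⟩
        refine ⟨M.mul_mem hx hy, ?_⟩
        rw [hlin x hx y hy]
        exact C2.mul_mem hy' hx'
      · rintro x _ ⟨hx, hx'⟩
        refine ⟨M.inv_mem hx, ?_⟩
        rw [hinv x hx]
        exact C2.inv_mem hx'
    exact h3.2
  -- all elements of `C` are squares in `C`, and fourth powers are trivial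
  have hCC : C ≤ C2 := by
    refine (Subgroup.closure_le _).2 ?_
    rintro z ⟨m, hm, g, rfl⟩
    exact s4 m hm g
  have hpow : ∀ m ∈ M, ∀ g : G, ∀ k : ℕ, ⁅m ^ k, g⁆ = ⁅m, g⁆ ^ k := by
    intro m hm g k
    induction k with
    | zero => rw [pow_zero, pow_zero, commutatorElement_one_left]
    | succ k ih => rw [pow_succ, hlin _ (M.pow_mem hm k) _ hm, ih, pow_succ']
  have h4 : ∀ c ∈ C, c ^ (4 * r) = 1 := by
    intro c hc
    have h5 : c ∈ C ∧ c ^ (4 * r) = 1 := by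
      refine Subgroup.closure_induction (p := fun c _ => c ∈ C ∧ c ^ (4 * r) = 1) ?_ ?_ ?_ ?_ hc
      · rintro _ ⟨m, hm, g, rfl⟩
        refine ⟨hCm m hm g, ?_⟩
        rw [← hpow m hm, h1 m hm, commutatorElement_one_left]
      · exact ⟨C.one_mem, one_pow _⟩
      · rintro x y _ _ ⟨hx, hx'⟩ ⟨hy, hy'⟩
        refine ⟨C.mul_mem hx hy, ?_⟩
        rw [Commute.mul_pow (hCc x hx y), hx', hy', one_mul]
      · rintro x _ ⟨hx, hx'⟩
        exact ⟨C.inv_mem hx, by rw [inv_pow, hx', inv_one]⟩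
    exact h5.2
  have hroot : ∀ k : ℕ, ∀ x ∈ C, ∃ d ∈ C, x = d ^ (2 ^ k) := by
    intro k
    induction k with
    | zero => exact fun x hx => ⟨x, hx, by rw [pow_zero, pow_one]⟩
    | succ k ih =>
      intro x hx
      obtain ⟨d, hd, h5⟩ := ih x hx
      obtain ⟨e, he, h6⟩ := hCC hd
      exact ⟨e, he, by rw [h5, h6, ← pow_mul, ← pow_succ']⟩
  intro m hm g
  obtain ⟨d, hd, h5⟩ := hroot c _ (hCm m hm g)
  rw [h5, hcr]
  exact h4 d hd

end general

variable {P : Type*} [Group P] [Finite P]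


theorem PEc_PS_two (hP : IsPGroup 2 P) (c : ℕ) (hc : 2 ≤ c) (N : Subgroup P)
    (hN : PEc 2 c N) : PEc 2 c (PS 2 N) := by
  obtain ⟨r, h22⟩ : ∃ r, 2 ^ c = 4 * r := by
    obtain ⟨b, rfl⟩ := Nat.exists_eq_add_of_le hc
    exact ⟨2 ^ b, by rw [pow_add]; norm_num⟩
  obtain ⟨hNn, hNc⟩ := hN
  rw [h22] at hNc
  have hMn : (PS 2 N).Normal := aga2_normal 2 hNn
  refine ⟨hMn, ?_⟩
  rw [h22]
  have : Group.IsNilpotent P := hP.isNilpotent
  have hKn : (PS (4 * r) (PS 2 N)).Normal := aga2_normal (4 * r) hMn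
  set K := PS (4 * r) (PS 2 N) with hK
  set M := PS 2 N with hM
  set D : Subgroup P := ⁅⁅M, (⊤ : Subgroup P)⁆, (⊤ : Subgroup P)⁆ with hD
  have hDn : D.Normal := inferInstance
  have hRn : (K ⊔ D).Normal := inferInstance
  set π : P →* P ⧸ (K ⊔ D) := QuotientGroup.mk' (K ⊔ D) with hπ
  have hπs : Function.Surjective π := QuotientGroup.mk'_surjective _
  have hπ1 : ∀ x : P, π x = 1 ↔ x ∈ K ⊔ D := fun x => QuotientGroup.eq_one_iff x
  have hcent := aga2_central c r h22 (N.map π) (by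
    rintro _ ⟨x, hx, rfl⟩ g
    obtain ⟨g, rfl⟩ := hπs g
    rw [← map_commutatorElement, ← aga2_map]
    exact ⟨_, hNc x hx g, rfl⟩) (by
    intro m hm
    rw [← aga2_map] at hm
    obtain ⟨m, hm, rfl⟩ := hm
    rw [← map_pow, hπ1]
    exact Subgroup.mem_sup_left (aga2_mem hm)) (by
    intro m hm g h
    rw [← aga2_map] at hm
    obtain ⟨m, hm, rfl⟩ := hm
    obtain ⟨g, rfl⟩ := hπs g
    obtain ⟨h, rfl⟩ := hπs h
    rw [← map_commutatorElement]
    have h3 : π ⁅⁅m, g⁆, h⁆ = 1 := by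
      rw [hπ1]
      exact Subgroup.mem_sup_right (Subgroup.commutator_mem_commutator
        (Subgroup.commutator_mem_commutator hm (Subgroup.mem_top g)) (Subgroup.mem_top h))
    rw [map_commutatorElement] at h3
    exact commutatorElement_eq_one_iff_mul_comm.1 h3)
  have hle : ⁅M, (⊤ : Subgroup P)⁆ ≤ K ⊔ D := by
    rw [Subgroup.commutator_le]
    intro m hm g _
    rw [← hπ1, map_commutatorElement]
    refine hcent _ ?_ _
    rw [← aga2_map]
    exact ⟨m, hm, rfl⟩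
  have hfin := aga2_nilp hKn hle
  intro x hx g
  exact hfin (Subgroup.commutator_mem_commutator hx (Subgroup.mem_top g))

end Pool.Agent.Lib.MP_ca71b5_nt
end

section

/-!
# Powers of deeply embedded subgroups, p odd
-/

set_option autoImplicit false

open scoped commutatorElement

namespace Pool.Agent.Lib.MP_ca71b5_nt

section aux

theorem aga1_left {G : Type*} [Group G] (c x z : G) (h : x * c = z * (c * x))
    (hzx : Commute z x) (n : ℕ) : x ^ n * c = z ^ n * (c * x ^ n) := by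
  induction n with
  | zero => simp
  | succ n ih =>
    calc x ^ (n + 1) * c = x * (x ^ n * c) := by rw [pow_succ', mul_assoc]
      _ = x * (z ^ n * (c * x ^ n)) := by rw [ih]
      _ = (x * z ^ n) * (c * x ^ n) := by rw [mul_assoc]
      _ = (z ^ n * x) * (c * x ^ n) := by rw [(hzx.pow_left n).eq]
      _ = z ^ n * ((x * c) * x ^ n) := by simp only [mul_assoc]
      _ = z ^ n * ((z * (c * x)) * x ^ n) := by rw [h]
      _ = (z ^ n * z) * (c * (x * x ^ n)) := by simp only [mul_assoc]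
      _ = z ^ (n + 1) * (c * x ^ (n + 1)) := by rw [← pow_succ, ← pow_succ']

theorem aga1_right {G : Type*} [Group G] (c x z : G) (h : x * c = z * (c * x))
    (hzc : Commute z c) (n : ℕ) : x * c ^ n = z ^ n * (c ^ n * x) := by
  induction n with
  | zero => simp
  | succ n ih =>
    calc x * c ^ (n + 1) = (x * c ^ n) * c := by rw [pow_succ, mul_assoc]
      _ = z ^ n * (c ^ n * (x * c)) := by rw [ih]; simp only [mul_assoc]
      _ = z ^ n * (c ^ n * (z * (c * x))) := by rw [h]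
      _ = z ^ n * ((c ^ n * z) * (c * x)) := by simp only [mul_assoc]
      _ = z ^ n * ((z * c ^ n) * (c * x)) := by rw [(hzc.pow_right n).eq]
      _ = (z ^ n * z) * ((c ^ n * c) * x) := by simp only [mul_assoc]
      _ = z ^ (n + 1) * (c ^ (n + 1) * x) := by rw [← pow_succ, ← pow_succ]

end aux

variable {p : ℕ} [Fact p.Prime] {P : Type*} [Group P] [Finite P]


theorem PEc_PS_odd (hp : p ≠ 2) (hP : IsPGroup p P) (c : ℕ) (hc : 1 ≤ c) (N : Subgroup P)
    (hN : PEc p c N) : PEc p c (PS p N) := by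
  have hpp : p.Prime := Fact.out
  obtain ⟨hNn, hNc⟩ := hN
  have hMn : (PS p N).Normal := ga1_PS_normal p N hNn
  have hKn : (PS (p ^ c) (PS p N)).Normal := ga1_PS_normal _ _ hMn
  refine ⟨hMn, ?_⟩
  set M := PS p N with hM
  set K := PS (p ^ c) M with hK
  have hCn : (⁅M, (⊤ : Subgroup P)⁆).Normal := Subgroup.commutator_normal _ _
  set C := ⁅M, (⊤ : Subgroup P)⁆ with hC
  have hDn : (⁅C, (⊤ : Subgroup P)⁆).Normal := Subgroup.commutator_normal _ _
  set D := ⁅C, (⊤ : Subgroup P)⁆ with hD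
  have hLn : (K ⊔ D).Normal := Subgroup.sup_normal _ _
  have hCM : C ≤ M := Subgroup.commutator_le_left _ _
  -- step A
  have hA : C ≤ K ⊔ D := by
    have hcen : ∀ x ∈ C, ∀ g : P, Commute ((QuotientGroup.mk' (K ⊔ D)) x)
        ((QuotientGroup.mk' (K ⊔ D)) g) := by
      intro x hx g
      rw [← commutatorElement_eq_one_iff_commute, ← map_commutatorElement]
      have h1 : ⁅x, g⁆ ∈ K ⊔ D := by
        apply Subgroup.mem_sup_right
        exact Subgroup.commutator_mem_commutator hx (Subgroup.mem_top g)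
      exact (QuotientGroup.eq_one_iff _).mpr h1
    have hrelz : ∀ x m : P, m ∈ M → ∃ z ∈ C, ∀ φ : P →* (P ⧸ (K ⊔ D)),
        φ x * φ m = φ z * (φ m * φ x) := by
      intro x m hm
      refine ⟨x * m * x⁻¹ * m⁻¹, ?_, fun φ => ?_⟩
      · have h1 : ⁅m, x⁆ ∈ C := Subgroup.commutator_mem_commutator hm (Subgroup.mem_top x)
        have h2 := C.inv_mem h1
        rw [commutatorElement_def] at h2
        have e : (m * x * m⁻¹ * x⁻¹)⁻¹ = x * m * x⁻¹ * m⁻¹ := by group
        rwa [e] at h2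
      · rw [← map_mul, ← map_mul, ← map_mul]
        congr 1
        group
    have hdvd : p ∣ p.choose 2 := by
      apply hpp.dvd_choose_self (by norm_num)
      exact lt_of_le_of_ne hpp.two_le (Ne.symm hp)
    -- elements of `M` of order `p` modulo `K ⊔ D` form a subgroup
    have hpowM : ∀ y ∈ PS (p ^ c) N, y ∈ M ∧ ((QuotientGroup.mk' (K ⊔ D)) y) ^ p = 1 := by
      intro y hy
      refine Subgroup.closure_induction (p := fun y _ => y ∈ M ∧
        ((QuotientGroup.mk' (K ⊔ D)) y) ^ p = 1) ?_ ?_ ?_ ?_ hy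
      · rintro y ⟨a, ha, rfl⟩
        obtain ⟨d, rfl⟩ : ∃ d, c = d + 1 := ⟨c - 1, by omega⟩
        have e : a ^ (p ^ (d + 1)) = (a ^ (p ^ d)) ^ p := by rw [← pow_mul, pow_succ]
        refine ⟨?_, ?_⟩
        · rw [e]
          exact ga1_pow_mem_PS p N (N.pow_mem ha _)
        · have h1 : (a ^ p) ^ (p ^ (d + 1)) ∈ K ⊔ D :=
            Subgroup.mem_sup_left (ga1_pow_mem_PS _ M (ga1_pow_mem_PS p N ha))
          rw [← map_pow, ← pow_mul, mul_comm, pow_mul]
          exact (QuotientGroup.eq_one_iff _).mpr h1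
      · exact ⟨M.one_mem, by simp⟩
      · rintro m m' _ _ ⟨hm, h1⟩ ⟨hm', h2⟩
        refine ⟨M.mul_mem hm hm', ?_⟩
        obtain ⟨z, hz, hrel⟩ := hrelz m' m hm
        have hrel := hrel (QuotientGroup.mk' (K ⊔ D))
        have hmain := ga1_mul_pow_central _ _ _ hrel (hcen z hz m) (hcen z hz m') p
        have hzp : ((QuotientGroup.mk' (K ⊔ D)) z) ^ p = 1 := by
          have h3 := aga1_left _ _ _ hrel (hcen z hz m') p
          rw [h2, one_mul, mul_one] at h3
          exact (mul_eq_right.mp h3.symm)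
        obtain ⟨k, hk⟩ := hdvd
        rw [hk, pow_mul, hzp, one_pow, h1, h2, one_mul, one_mul] at hmain
        rw [map_mul]
        exact hmain
      · rintro m _ ⟨hm, h1⟩
        exact ⟨M.inv_mem hm, by rw [map_inv, inv_pow, h1, inv_one]⟩
    have hgen : ∀ x ∈ N, ∀ g : P, Commute ((QuotientGroup.mk' (K ⊔ D)) g)
        ((QuotientGroup.mk' (K ⊔ D)) (x ^ p)) := by
      intro x hx g
      have hc : g * x * g⁻¹ * x⁻¹ ∈ PS (p ^ c) N := by
        have := (PS (p ^ c) N).inv_mem (hNc x hx g)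
        have e : (x * g * x⁻¹ * g⁻¹)⁻¹ = g * x * g⁻¹ * x⁻¹ := by group
        rwa [e] at this
      set c1 := g * x * g⁻¹ * x⁻¹ with hcdef
      obtain ⟨hcM, hcp⟩ := hpowM c1 hc
      obtain ⟨z, hz, hrel⟩ := hrelz x c1 hcM
      have hrel := hrel (QuotientGroup.mk' (K ⊔ D))
      set φ := QuotientGroup.mk' (K ⊔ D) with hφ
      have hmain := ga1_mul_pow_central (φ c1) (φ x) (φ z) hrel (hcen z hz c1) (hcen z hz x) p
      have hzp : (φ z) ^ p = 1 := by
        have h3 := aga1_right _ _ _ hrel (hcen z hz c1) p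
        rw [hcp, one_mul, mul_one] at h3
        exact (mul_eq_right.mp h3.symm)
      obtain ⟨k, hk⟩ := hdvd
      rw [hk, pow_mul, hzp, one_pow, hcp, one_mul, one_mul] at hmain
      have hcx : φ c1 * φ x = φ g * φ x * (φ g)⁻¹ := by
        rw [← map_mul, ← map_inv, ← map_mul, ← map_mul]
        congr 1
        rw [hcdef]
        group
      rw [hcx, conj_pow] at hmain
      rw [map_pow]
      change φ g * φ x ^ p = φ x ^ p * φ g
      exact (mul_inv_eq_iff_eq_mul.mp hmain)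
    have hMle : M ≤ (Subgroup.center (P ⧸ (K ⊔ D))).comap (QuotientGroup.mk' (K ⊔ D)) := by
      rw [hM]
      unfold PS
      rw [Subgroup.closure_le]
      rintro y ⟨x, hx, rfl⟩
      simp only [SetLike.mem_coe, Subgroup.mem_comap, Subgroup.mem_center_iff]
      intro h
      obtain ⟨g, rfl⟩ := QuotientGroup.mk'_surjective (K ⊔ D) h
      exact (hgen x hx g).eq
    rw [hC, Subgroup.commutator_le]
    intro m hm g _
    have h1 := hMle hm
    simp only [Subgroup.mem_comap, Subgroup.mem_center_iff] at h1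
    have h2 : Commute ((QuotientGroup.mk' (K ⊔ D)) m) ((QuotientGroup.mk' (K ⊔ D)) g) :=
      (h1 ((QuotientGroup.mk' (K ⊔ D)) g)).symm
    rw [← commutatorElement_eq_one_iff_commute, ← map_commutatorElement] at h2
    exact (QuotientGroup.eq_one_iff _).mp h2
  -- step B
  have hB : C ≤ K := by
    have hnil : Group.IsNilpotent (P ⧸ K) := (hP.to_quotient K).isNilpotent
    have h1 : C.map (QuotientGroup.mk' K) ≤ ⁅C.map (QuotientGroup.mk' K), (⊤ : Subgroup (P ⧸ K))⁆ := by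
      have h2 : C.map (QuotientGroup.mk' K) ≤ (K ⊔ D).map (QuotientGroup.mk' K) :=
        Subgroup.map_mono hA
      refine h2.trans ?_
      rw [Subgroup.map_sup, hD, Subgroup.map_commutator,
        Subgroup.map_top_of_surjective _ (QuotientGroup.mk'_surjective K)]
      apply sup_le _ le_rfl
      have h3 : K.map (QuotientGroup.mk' K) = ⊥ := by
        rw [Subgroup.map_eq_bot_iff, QuotientGroup.ker_mk']
      rw [h3]
      exact bot_le
    have h4 := ga1_eq_bot_of_le_commutator _ h1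
    rwa [Subgroup.map_eq_bot_iff, QuotientGroup.ker_mk'] at h4
  intro x hx g
  apply hB
  have := Subgroup.commutator_mem_commutator hx (Subgroup.mem_top g) (H₂ := (⊤ : Subgroup P))
  rwa [commutatorElement_def] at this

end Pool.Agent.Lib.MP_ca71b5_nt
end

section

/-!
# Powers of products in deeply powerful p-groups
-/

set_option autoImplicit false

namespace Pool.Agent.Lib.MP_ca71b5_nt

/-- iterated subgroups of `p`-th powers -/
private def agPI (P : Type*) [Group P] (p : ℕ) : ℕ → Subgroup P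
  | 0 => ⊤
  | k + 1 => PS p (agPI P p k)

private theorem ag_PS_map_subtype {P : Type*} [Group P] (k : ℕ) (N : Subgroup P) :
    (PS k (⊤ : Subgroup N)).map N.subtype = PS k N := by
  unfold PS
  rw [MonoidHom.map_closure]
  congr 1
  ext z
  constructor
  · rintro ⟨w, ⟨y, -, rfl⟩, rfl⟩
    exact ⟨y, y.2, by simp⟩
  · rintro ⟨y, hy, rfl⟩
    exact ⟨⟨y, hy⟩ ^ k, ⟨⟨y, hy⟩, Subgroup.mem_top _, rfl⟩, by simp⟩

private theorem ag_PE_top_of_PE {P : Type*} [Group P] (p : ℕ) (N : Subgroup P) (h : PE p N) :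
    PE p (⊤ : Subgroup N) := by
  refine ⟨inferInstance, fun x _ g => ?_⟩
  have h1 := h.2 (x : P) x.2 (g : P)
  rw [← ag_PS_map_subtype] at h1
  obtain ⟨w, hw, hwe⟩ := Subgroup.mem_map.1 h1
  have : w = x * g * x⁻¹ * g⁻¹ := by
    apply Subtype.ext
    simpa using hwe
  rw [← this]
  exact hw

private theorem ag_antitone {P : Type*} [Group P] (p : ℕ) {i j : ℕ} (h : i ≤ j) :
    agPI P p j ≤ agPI P p i := by
  induction j, h using Nat.le_induction with
  | base => exact le_rfl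
  | succ j _ ih => exact (ga1_PS_le p (agPI P p j)).trans ih

variable {p : ℕ} [Fact p.Prime] {P : Type*} [Group P] [Finite P]

private theorem ag_PI_PE (hP : IsPGroup p P) (h : PE p (⊤ : Subgroup P)) (k : ℕ) :
    PE p (agPI P p k) := by
  induction k with
  | zero => exact h
  | succ k ih => exact PE_PS hP _ ih

private theorem ag_mem_PI (hP : IsPGroup p P) (h : PE p (⊤ : Subgroup P)) (k : ℕ) (x : P) :
    x ∈ agPI P p k ↔ ∃ y : P, x = y ^ (p ^ k) := by
  induction k generalizing x with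
  | zero =>
    constructor
    · intro _
      exact ⟨x, by simp⟩
    · intro _
      exact Subgroup.mem_top x
  | succ k ih =>
    constructor
    · intro hx
      have hx' : x ∈ PS p (agPI P p k) := hx
      rw [← ag_PS_map_subtype] at hx'
      obtain ⟨w, hw, hwe⟩ := Subgroup.mem_map.1 hx'
      obtain ⟨y, hy⟩ := exists_pow_of_mem_PS (p := p) (P := agPI P p k) (hP.to_subgroup _)
        (ag_PE_top_of_PE p _ (ag_PI_PE hP h k)) w hw
      obtain ⟨t, ht⟩ := (ih (y : P)).1 y.2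
      refine ⟨t, ?_⟩
      rw [← hwe, hy, pow_succ, pow_mul, ← ht]
      simp
    · rintro ⟨y, rfl⟩
      rw [pow_succ, pow_mul]
      exact ga1_pow_mem_PS p _ ((ih _).2 ⟨y, rfl⟩)

omit [Fact p.Prime] [Finite P] in
private theorem ag_PE_of_PEc {c : ℕ} (hc : eps p ≤ c) (h : PEc p c (⊤ : Subgroup P)) :
    PE p (⊤ : Subgroup P) := by
  refine ⟨h.1, fun x hx g => ?_⟩
  have h1 := h.2 x hx g
  have h2 : PS (p ^ c) (⊤ : Subgroup P) ≤ PS (p ^ eps p) (⊤ : Subgroup P) := by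
    rw [PS, Subgroup.closure_le]
    rintro z ⟨y, -, rfl⟩
    have e : y ^ (p ^ c) = (y ^ (p ^ (c - eps p))) ^ (p ^ eps p) := by
      rw [← pow_mul, ← pow_add]
      congr 2
      omega
    rw [e]
    exact ga1_pow_mem_PS _ _ (Subgroup.mem_top _)
  exact h2 h1

private theorem ag_PI_PEc (hP : IsPGroup p P) {c : ℕ} (hc : eps p ≤ c)
    (h : PEc p c (⊤ : Subgroup P)) (k : ℕ) : PEc p c (agPI P p k) := by
  induction k with
  | zero => exact h
  | succ k ih =>
    by_cases hp : p = 2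
    · subst hp
      exact PEc_PS_two hP c (by simpa [eps] using hc) _ ih
    · exact PEc_PS_odd hp hP c ((eps_pos p).trans hc) _ ih

private theorem ag_comm (hP : IsPGroup p P) {c : ℕ} (hc : eps p ≤ c)
    (h : PEc p c (⊤ : Subgroup P)) (k : ℕ) (x g : P) (hx : x ∈ agPI P p k) :
    x * g * x⁻¹ * g⁻¹ ∈ agPI P p (k + c) := by
  have hPE := ag_PE_of_PEc hc h
  have h1 := (ag_PI_PEc hP hc h k).2 x hx g
  have h2 : PS (p ^ c) (agPI P p k) ≤ agPI P p (k + c) := by
    rw [PS, Subgroup.closure_le]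
    rintro z ⟨y, hy, rfl⟩
    obtain ⟨t, rfl⟩ := (ag_mem_PI hP hPE k y).1 hy
    rw [← pow_mul, ← pow_add]
    exact (ag_mem_PI hP hPE (k + c) _).2 ⟨t, rfl⟩
  exact h2 h1

/-- claim 1 -/
private theorem ag_one (hP : IsPGroup p P) (e : ℕ) (he : 1 ≤ e)
    (h : PEc p (e + eps p - 1) (⊤ : Subgroup P)) (k : ℕ) (x y : P) (hx : x ∈ agPI P p k)
    (hy : y ∈ agPI P p k) :
    ∃ z ∈ agPI P p (k + 1 + e), (x * y) ^ p = x ^ p * y ^ p * z := by
  have heps := eps_pos p
  have hc : eps p ≤ e + eps p - 1 := by omega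
  have hnorm : ∀ k, (agPI P p k).Normal := fun k => (ag_PI_PEc hP hc h k).1
  have hcomm := fun k x g hx => ag_comm hP hc h k x g hx
  by_cases hp : p = 2
  · subst hp
    have h2 : eps 2 = 2 := rfl
    rw [h2] at hcomm
    have hw := hcomm k x⁻¹ y ((agPI P 2 k).inv_mem hx)
    rw [show k + (e + 2 - 1) = k + 1 + e by omega, inv_inv] at hw
    refine ⟨(y ^ 2)⁻¹ * (x⁻¹ * y * x * y⁻¹) * y ^ 2, ?_, ?_⟩
    · have := (hnorm (k + 1 + e)).conj_mem _ hw (y ^ 2)⁻¹
      rwa [inv_inv] at this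
    · rw [pow_two (x * y)]
      group
  · have h1 : eps p = 1 := by unfold eps; rw [if_neg hp]
    rw [h1] at hcomm
    simp only [Nat.add_sub_cancel] at hcomm
    have hLn := hnorm (k + 1 + e)
    set L := agPI P p (k + 1 + e) with hL
    set z0 := y * x * y⁻¹ * x⁻¹ with hz0
    have hz : z0 ∈ agPI P p (k + e) := hcomm k y x hy
    have hcen : ∀ g : P, Commute (QuotientGroup.mk' L z0) (QuotientGroup.mk' L g) := by
      intro g
      have h2 := hcomm (k + e) z0 g hz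
      have h3 : z0 * g * z0⁻¹ * g⁻¹ ∈ L := ag_antitone p (by omega) h2
      have h4 : QuotientGroup.mk' L (z0 * g * z0⁻¹ * g⁻¹) = 1 :=
        (QuotientGroup.eq_one_iff _).mpr h3
      rw [map_mul, map_mul, map_mul, map_inv, map_inv, mul_inv_eq_one,
        mul_inv_eq_iff_eq_mul] at h4
      exact h4
    have hrel : QuotientGroup.mk' L y * QuotientGroup.mk' L x =
        QuotientGroup.mk' L z0 * (QuotientGroup.mk' L x * QuotientGroup.mk' L y) := by
      rw [← map_mul, ← map_mul, ← map_mul]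
      congr 1
      rw [hz0]
      group
    have hmain := ga1_mul_pow_central _ _ _ hrel (hcen x) (hcen y) p
    have hzp : (QuotientGroup.mk' L z0) ^ p = 1 := by
      rw [← map_pow]
      refine (QuotientGroup.eq_one_iff _).mpr ?_
      have h5 : z0 ^ p ∈ agPI P p (k + e + 1) := ga1_pow_mem_PS p _ hz
      rwa [show k + e + 1 = k + 1 + e by omega] at h5
    have hpp : p.Prime := Fact.out
    obtain ⟨m, hm⟩ : p ∣ p.choose 2 := by
      apply hpp.dvd_choose_self (by norm_num)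
      exact lt_of_le_of_ne hpp.two_le (Ne.symm hp)
    rw [hm, pow_mul, hzp, one_pow, one_mul, ← map_mul, ← map_pow, ← map_pow, ← map_pow,
      ← map_mul] at hmain
    have h6 := QuotientGroup.eq.1 hmain.symm
    exact ⟨_, h6, by group⟩

/-- claim 2 -/
private theorem ag_two (hP : IsPGroup p P) (e : ℕ) (he : 1 ≤ e)
    (h : PEc p (e + eps p - 1) (⊤ : Subgroup P)) (k : ℕ) (x y : P) :
    ∃ z ∈ agPI P p (k + e), (x * y) ^ (p ^ k) = x ^ (p ^ k) * y ^ (p ^ k) * z := by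
  have heps := eps_pos p
  have hc : eps p ≤ e + eps p - 1 := by omega
  have hPE := ag_PE_of_PEc hc h
  induction k with
  | zero => exact ⟨1, Subgroup.one_mem _, by simp⟩
  | succ k ih =>
    obtain ⟨z, hz, he'⟩ := ih
    have ha : x ^ (p ^ k) ∈ agPI P p k := (ag_mem_PI hP hPE k _).2 ⟨x, rfl⟩
    have hb : y ^ (p ^ k) ∈ agPI P p k := (ag_mem_PI hP hPE k _).2 ⟨y, rfl⟩
    have hz' : z ∈ agPI P p k := ag_antitone p (by omega) hz
    obtain ⟨w, hw, hwe⟩ := ag_one hP e he h k _ _ (Subgroup.mul_mem _ ha hb) hz'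
    obtain ⟨w', hw', hwe'⟩ := ag_one hP e he h k _ _ ha hb
    have hzp : z ^ p ∈ agPI P p (k + 1 + e) := by
      have h5 : z ^ p ∈ agPI P p (k + e + 1) := ga1_pow_mem_PS p _ hz
      rwa [show k + e + 1 = k + 1 + e by omega] at h5
    refine ⟨w' * z ^ p * w, ?_, ?_⟩
    · exact Subgroup.mul_mem _ (Subgroup.mul_mem _ hw' hzp) hw
    · rw [pow_succ, pow_mul, he', hwe, hwe', ← pow_mul, ← pow_mul]
      simp only [mul_assoc]

theorem deep_props (hP : IsPGroup p P) (e : ℕ) (he : 1 ≤ e)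
    (h : PEc p (e + eps p - 1) (⊤ : Subgroup P)) (k : ℕ) (x y : P) :
    ∃ z : P, (x * y) ^ (p ^ k) = x ^ (p ^ k) * y ^ (p ^ k) * z ^ (p ^ (k + e)) := by
  have heps := eps_pos p
  have hc : eps p ≤ e + eps p - 1 := by omega
  have hPE := ag_PE_of_PEc hc h
  obtain ⟨z, hz, h1⟩ := ag_two hP e he h k x y
  obtain ⟨t, rfl⟩ := (ag_mem_PI hP hPE (k + e) z).1 hz
  exact ⟨t, h1⟩

end Pool.Agent.Lib.MP_ca71b5_nt
end

section

/-!
# Products of powers in the image, deep case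
-/

set_option autoImplicit false

namespace Pool.Agent.Lib.MP_ca71b5_nt

variable {p : ℕ} [Fact p.Prime] {ι : Type} [Fintype ι] [DecidableEq ι]
  {Γ : Type} [Group Γ] [TopologicalSpace Γ] [IsTopologicalGroup Γ] [CompactSpace Γ]

private theorem aq2_isClosed_small (t : ℕ) : IsClosed {A : MQ p ι | Small (t : ℤ) A} := by
  have h : {A : MQ p ι | Small (t : ℤ) A} = ⋂ i, ⋂ j, {A : MQ p ι | ‖A i j‖ ≤ (p : ℝ) ^ (-(t : ℤ))} := by
    ext A
    simp only [Small, Set.mem_setOf_eq, Set.mem_iInter]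
  rw [h]
  refine isClosed_iInter fun i => isClosed_iInter fun j => ?_
  exact isClosed_le (continuous_id.matrix_elem i j).norm continuous_const

omit [TopologicalSpace Γ] [IsTopologicalGroup Γ] [CompactSpace Γ] in
private theorem aq2_close (ρ : Γ →* GLZ p ι) {t : ℕ} {W : Subgroup Γ}
    (hW : ∀ g : Γ, g ∈ W ↔ Small (t : ℤ) (gm (ρ g) - 1)) {a b : Γ}
    (h : (a : Γ ⧸ W) = (b : Γ ⧸ W)) : Small (t : ℤ) (gm (ρ b) - gm (ρ a)) := by
  rw [QuotientGroup.eq, hW] at h
  have h1 : gm (ρ b) - gm (ρ a) = gm (ρ a) * (gm (ρ (a⁻¹ * b)) - 1) := by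
    rw [map_mul, map_inv, gm_mul, mul_sub, ← mul_assoc, gm_mul_gm_inv, one_mul, mul_one]
  rw [h1]
  have h2 := (small_gm (ρ a)).mul h
  rwa [zero_add] at h2

private theorem aq2_compact (F : Γ → MQ p ι) (hF : Continuous F)
    (h : ∀ t : ℕ, ∃ z, Small (t : ℤ) (F z)) : ∃ z, F z = 0 := by
  have h1 := IsCompact.nonempty_iInter_of_sequence_nonempty_isCompact_isClosed
    (fun t : ℕ => {z | Small (t : ℤ) (F z)})
    (fun t z hz => Small.mono (by push_cast; omega) hz) (fun t => h t)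
    (((aq2_isClosed_small 0).preimage hF).isCompact)
    (fun t => (aq2_isClosed_small t).preimage hF)
  obtain ⟨z, hz⟩ := h1
  refine ⟨z, eq_zero_of_small fun t => ?_⟩
  exact Set.mem_iInter.1 hz t

theorem pow_props_deep (ρ : Γ →* GLZ p ι) (hρ : Continuous ρ) (hpro : ProP p ρ.ker) (e : ℕ)
    (he : 1 ≤ e) (hpow : PowQc p (e + eps p - 1) ρ.ker) (k : ℕ) (g h : Γ) :
    ∃ z : Γ, (ρ g * ρ h) ^ (p ^ k) = ρ g ^ (p ^ k) * ρ h ^ (p ^ k) * ρ z ^ (p ^ (k + e)) := by
  have hc : Continuous fun z : Γ => gm (ρ z) := continuous_gm.comp hρ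
  obtain ⟨z, hz⟩ := aq2_compact
    (fun z => (gm (ρ g) * gm (ρ h)) ^ (p ^ k) -
      gm (ρ g) ^ (p ^ k) * gm (ρ h) ^ (p ^ k) * gm (ρ z) ^ (p ^ (k + e)))
    (continuous_const.sub (continuous_const.mul (hc.pow _))) (by
      intro t
      obtain ⟨W, hn, ho, hk, hW⟩ := exists_open_reduction ρ hρ t
      obtain ⟨k', hk'⟩ := hpro W hn ho hk
      have hp : p ^ k' ≠ 0 := pow_ne_zero _ (Fact.out : p.Prime).ne_zero
      have hcard : Nat.card (Γ ⧸ W) = p ^ k' := hk'
      have hf : Finite (Γ ⧸ W) := Nat.finite_of_card_ne_zero (by rw [hcard]; exact hp)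
      obtain ⟨z', hz'⟩ := deep_props (IsPGroup.of_card hcard) e he (hpow W ho hk) k
        (g : Γ ⧸ W) (h : Γ ⧸ W)
      obtain ⟨z, rfl⟩ := QuotientGroup.mk_surjective z'
      refine ⟨z, ?_⟩
      have h1 := aq2_close ρ hW (a := g ^ (p ^ k) * h ^ (p ^ k) * z ^ (p ^ (k + e)))
        (b := (g * h) ^ (p ^ k)) hz'.symm
      simpa using h1)
  refine ⟨z, gm_injective ?_⟩
  have := sub_eq_zero.1 hz
  simpa using this

end Pool.Agent.Lib.MP_ca71b5_nt
end
end

section

/-!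
# A chain of subalgebras and ideals for a solvable Lie algebra of matrices
-/

set_option autoImplicit false

namespace Pool.Agent.Lib.MP_ca71b5_nt

namespace S2b

section flag

variable {K V : Type*} [Field K] [AddCommGroup V] [Module K V]

/-- endomorphisms lowering the flag by `d` -/
def NF (F : ℕ → Submodule K V) (d : ℕ) : Submodule K (Module.End K V) where
  carrier := {f | ∀ t, ∀ v ∈ F t, f v ∈ F (t - d)}
  add_mem' := by
    intro f g hf hg t v hv
    exact (F (t - d)).add_mem (hf t v hv) (hg t v hv)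
  zero_mem' := by
    intro t v _
    exact (F (t - d)).zero_mem
  smul_mem' := by
    intro c f hf t v hv
    exact (F (t - d)).smul_mem c (hf t v hv)

theorem mem_NF (F : ℕ → Submodule K V) (d : ℕ) (f : Module.End K V) :
    f ∈ NF F d ↔ ∀ t, ∀ v ∈ F t, f v ∈ F (t - d) := Iff.rfl

theorem NF_mul (F : ℕ → Submodule K V) (d e : ℕ) {f g : Module.End K V} (hf : f ∈ NF F d)
    (hg : g ∈ NF F e) : f * g ∈ NF F (e + d) := by
  intro t v hv
  have := hf (t - e) _ (hg t v hv)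
  rw [Nat.sub_sub] at this
  exact this

theorem NF_anti (F : ℕ → Submodule K V) (hF : Monotone F) {d e : ℕ} (hde : d ≤ e)
    {f : Module.End K V} (hf : f ∈ NF F e) : f ∈ NF F d := by
  intro t v hv
  exact hF (Nat.sub_le_sub_left hde t) (hf t v hv)

theorem one_mem_NF (F : ℕ → Submodule K V) : (1 : Module.End K V) ∈ NF F 0 := by
  intro t v hv
  exact hv

/-- scalars plus endomorphisms lowering the flag by `d` -/
def CF (F : ℕ → Submodule K V) (hF : Monotone F) (d : ℕ) : Subalgebra K (Module.End K V) where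
  carrier := {f | ∃ c : K, f - c • (1 : Module.End K V) ∈ NF F d}
  add_mem' := by
    rintro f g ⟨c, hc⟩ ⟨c', hc'⟩
    refine ⟨c + c', ?_⟩
    have : f + g - (c + c') • (1 : Module.End K V) = (f - c • 1) + (g - c' • 1) := by
      rw [add_smul]; abel
    rw [this]
    exact (NF F d).add_mem hc hc'
  mul_mem' := by
    rintro f g ⟨c, hc⟩ ⟨c', hc'⟩
    refine ⟨c * c', ?_⟩
    have : f * g - (c * c') • (1 : Module.End K V) = (f - c • 1) * (g - c' • 1) +
        (c • (g - c' • 1) + c' • (f - c • 1)) := by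
      rw [sub_mul, mul_sub, mul_sub]
      simp only [mul_smul_comm, mul_one, smul_mul_assoc, one_mul, smul_sub, smul_smul,
        mul_comm c' c]
      abel
    rw [this]
    refine (NF F d).add_mem (NF_anti F hF (Nat.le_add_left d d) (NF_mul F d d hc hc'))
      ((NF F d).add_mem ((NF F d).smul_mem c hc') ((NF F d).smul_mem c' hc))
  algebraMap_mem' := by
    intro c
    refine ⟨c, ?_⟩
    have : (algebraMap K (Module.End K V)) c - c • (1 : Module.End K V) = 0 := by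
      rw [Algebra.algebraMap_eq_smul_one, sub_self]
    rw [this]
    exact (NF F d).zero_mem

theorem mem_CF (F : ℕ → Submodule K V) (hF : Monotone F) (d : ℕ) (f : Module.End K V) :
    f ∈ CF F hF d ↔ ∃ c : K, f - c • (1 : Module.End K V) ∈ NF F d := Iff.rfl

theorem CF_mem_NF (F : ℕ → Submodule K V) (hF : Monotone F) (d : ℕ) {f : Module.End K V}
    (hf : f ∈ CF F hF d) : f ∈ NF F 0 := by
  obtain ⟨c, hc⟩ := hf
  have : f = (f - c • 1) + c • 1 := by abel
  rw [this]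
  exact (NF F 0).add_mem (NF_anti F hF (Nat.zero_le d) hc)
    ((NF F 0).smul_mem c (one_mem_NF F))

theorem CF_comm (F : ℕ → Submodule K V) (hF : Monotone F) (d : ℕ) (hd : 1 ≤ d)
    {f g : Module.End K V} (hf : f ∈ CF F hF d) (hg : g ∈ CF F hF d) :
    f * g - g * f ∈ NF F (d + 1) := by
  obtain ⟨c, hc⟩ := hf
  obtain ⟨c', hc'⟩ := hg
  have : f * g - g * f = (f - c • 1) * (g - c' • 1) - (g - c' • 1) * (f - c • 1) := by
    simp only [sub_mul, mul_sub, mul_smul_comm, mul_one, smul_mul_assoc, one_mul, smul_sub,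
      smul_smul, mul_comm c' c]
    abel
  rw [this]
  refine (NF F (d + 1)).sub_mem ?_ ?_
  · exact NF_anti F hF (by omega) (NF_mul F d d hc hc')
  · exact NF_anti F hF (by omega) (NF_mul F d d hc' hc)

/-- endomorphisms preserving the flag and acting by scalars on the quotients -/
def DF (F : ℕ → Submodule K V) (hF : Monotone F) : Subalgebra K (Module.End K V) where
  carrier := {f | f ∈ NF F 0 ∧ ∀ t, ∃ c : K, ∀ v ∈ F (t + 1), f v - c • v ∈ F t}
  add_mem' := by
    rintro f g ⟨hf, hf'⟩ ⟨hg, hg'⟩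
    refine ⟨(NF F 0).add_mem hf hg, fun t => ?_⟩
    obtain ⟨c, hc⟩ := hf' t
    obtain ⟨c', hc'⟩ := hg' t
    refine ⟨c + c', fun v hv => ?_⟩
    have : (f + g) v - (c + c') • v = (f v - c • v) + (g v - c' • v) := by
      rw [add_smul, LinearMap.add_apply]; abel
    rw [this]
    exact (F t).add_mem (hc v hv) (hc' v hv)
  mul_mem' := by
    rintro f g ⟨hf, hf'⟩ ⟨hg, hg'⟩
    refine ⟨NF_mul F 0 0 hf hg, fun t => ?_⟩
    obtain ⟨c, hc⟩ := hf' t
    obtain ⟨c', hc'⟩ := hg' t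
    refine ⟨c * c', fun v hv => ?_⟩
    have : (f * g) v - (c * c') • v = f (g v - c' • v) + c' • (f v - c • v) := by
      rw [map_sub, map_smul, smul_sub, smul_smul, mul_comm c' c]
      change f (g v) - (c * c') • v = _
      abel
    rw [this]
    refine (F t).add_mem ?_ ((F t).smul_mem c' (hc v hv))
    have := hf t _ (hc' v hv)
    simpa using this
  algebraMap_mem' := by
    intro c
    refine ⟨?_, fun t => ⟨c, fun v _ => ?_⟩⟩
    · rw [Algebra.algebraMap_eq_smul_one]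
      exact (NF F 0).smul_mem c (one_mem_NF F)
    · rw [Module.algebraMap_end_apply, sub_self]
      exact (F t).zero_mem

theorem mem_DF (F : ℕ → Submodule K V) (hF : Monotone F) (f : Module.End K V) :
    f ∈ DF F hF ↔ f ∈ NF F 0 ∧ ∀ t, ∃ c : K, ∀ v ∈ F (t + 1), f v - c • v ∈ F t := Iff.rfl

theorem DF_comm (F : ℕ → Submodule K V) (hF : Monotone F) (h0 : F 0 = ⊥)
    {f g : Module.End K V} (hf : f ∈ DF F hF) (hg : g ∈ DF F hF) :
    f * g - g * f ∈ NF F 1 := by
  obtain ⟨hf, hf'⟩ := hf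
  obtain ⟨hg, hg'⟩ := hg
  intro t v hv
  rcases t with _ | t
  · rw [h0, Submodule.mem_bot] at hv
    rw [hv, map_zero]
    exact Submodule.zero_mem _
  · obtain ⟨c, hc⟩ := hf' t
    obtain ⟨c', hc'⟩ := hg' t
    have h1 := hc v hv
    have h2 := hc' v hv
    have h3 : f (g v - c' • v) ∈ F t := by simpa using hf t _ h2
    have h4 : g (f v - c • v) ∈ F t := by simpa using hg t _ h1
    have : (f * g - g * f) v = f (g v - c' • v) - g (f v - c • v) + c' • (f v - c • v)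
        - c • (g v - c' • v) := by
      rw [map_sub, map_smul, map_sub, map_smul, smul_sub, smul_sub, smul_smul, smul_smul,
        mul_comm c' c]
      change f (g v) - g (f v) = _
      abel
    rw [this]
    change _ ∈ F t
    exact (F t).sub_mem ((F t).add_mem ((F t).sub_mem h3 h4) ((F t).smul_mem c' h1))
      ((F t).smul_mem c h2)

end flag

end S2b

variable {p : ℕ} [Fact p.Prime] {ι : Type} [Fintype ι] [DecidableEq ι]

attribute [local instance 100] LieRing.ofAssociativeRing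

open S2b TensorProduct in
theorem exists_chain (s : LieSubalgebra ℚ_[p] (MQ p ι)) (hs : LieAlgebra.IsSolvable s) :
    ∃ (m : ℕ) (C : ℕ → Subalgebra ℚ_[p] (MQ p ι)) (I : ℕ → Submodule ℚ_[p] (MQ p ι)),
      (∀ x ∈ s, x ∈ C 0) ∧ (∀ j, ∀ a ∈ C j, ∀ x ∈ I j, a * x ∈ I j) ∧
      (∀ j, ∀ a ∈ C j, ∀ x ∈ I j, x * a ∈ I j) ∧
      (∀ j, ∀ a ∈ C j, ∀ b ∈ C j, a * b - b * a ∈ I j) ∧
      (∀ j, ∀ x ∈ I j, x ∈ C (j + 1)) ∧ (∀ x ∈ I m, x = 0) := by
  obtain ⟨F, hF0, hFn, hFs, hF1, hF2⟩ := exists_flag (k := AlgebraicClosure ℚ_[p])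
    (L := AlgebraicClosure ℚ_[p] ⊗[ℚ_[p]] s) (V := AlgebraicClosure ℚ_[p] ⊗[ℚ_[p]] (ι → ℚ_[p]))
  have hF : Monotone F := monotone_nat_of_le_succ hFs
  let φ : MQ p ι →ₐ[ℚ_[p]]
      Module.End (AlgebraicClosure ℚ_[p]) (AlgebraicClosure ℚ_[p] ⊗[ℚ_[p]] (ι → ℚ_[p])) :=
    (Module.End.baseChangeHom ℚ_[p] (AlgebraicClosure ℚ_[p]) (ι → ℚ_[p])).comp
      (Matrix.toLinAlgEquiv' : MQ p ι ≃ₐ[ℚ_[p]] _).toAlgHom
  have hφinj : Function.Injective φ := by
    have h1 : Function.Injective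
        (Module.End.baseChangeHom ℚ_[p] (AlgebraicClosure ℚ_[p]) (ι → ℚ_[p])) :=
      LinearMap.baseChangeHom_injective _ _ _
    exact h1.comp (Matrix.toLinAlgEquiv' : MQ p ι ≃ₐ[ℚ_[p]] _).injective
  have hφs : ∀ (x : s) (v : AlgebraicClosure ℚ_[p] ⊗[ℚ_[p]] (ι → ℚ_[p])),
      φ (x : MQ p ι) v = ⁅((1 : AlgebraicClosure ℚ_[p]) ⊗ₜ[ℚ_[p]] x), v⁆ := by
    intro x v
    have h1 := LieModule.toEnd_baseChange (A := AlgebraicClosure ℚ_[p]) ℚ_[p] s (ι → ℚ_[p]) x
    have h2 := LinearMap.congr_fun h1 v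
    exact h2.symm
  let C : ℕ → Subalgebra ℚ_[p] (MQ p ι) := fun j => match j with
    | 0 => ((DF F hF).restrictScalars ℚ_[p]).comap φ
    | j + 1 => ((CF F hF (j + 1)).restrictScalars ℚ_[p]).comap φ
  let I : ℕ → Submodule ℚ_[p] (MQ p ι) := fun j =>
    ((NF F (j + 1)).restrictScalars ℚ_[p]).comap φ.toLinearMap
  have hI : ∀ j x, x ∈ I j ↔ φ x ∈ NF F (j + 1) := fun j x => Iff.rfl
  have hC0 : ∀ x, x ∈ C 0 ↔ φ x ∈ DF F hF := fun x => Iff.rfl
  have hCs : ∀ j x, x ∈ C (j + 1) ↔ φ x ∈ CF F hF (j + 1) := fun j x => Iff.rfl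
  have hCN : ∀ j x, x ∈ C j → φ x ∈ NF F 0 := by
    intro j x hx
    rcases j with _ | j
    · exact ((hC0 x).1 hx).1
    · exact CF_mem_NF F hF _ ((hCs j x).1 hx)
  refine ⟨Module.finrank (AlgebraicClosure ℚ_[p]) (AlgebraicClosure ℚ_[p] ⊗[ℚ_[p]] (ι → ℚ_[p])),
    C, I, ?_, ?_, ?_, ?_, ?_, ?_⟩
  · intro x hx
    rw [hC0]
    refine ⟨fun t v hv => ?_, fun t => ?_⟩
    · rw [hφs ⟨x, hx⟩]
      exact hF1 _ t v hv
    · obtain ⟨c, hc⟩ := hF2 t ((1 : AlgebraicClosure ℚ_[p]) ⊗ₜ[ℚ_[p]] (⟨x, hx⟩ : s))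
      refine ⟨c, fun v hv => ?_⟩
      rw [hφs ⟨x, hx⟩]
      exact hc v hv
  · intro j a ha x hx
    rw [hI] at hx ⊢
    rw [map_mul]
    exact NF_mul F 0 (j + 1) (hCN j a ha) hx
  · intro j a ha x hx
    rw [hI] at hx ⊢
    rw [map_mul]
    have := NF_mul F (j + 1) 0 hx (hCN j a ha)
    rwa [Nat.zero_add] at this
  · intro j a ha b hb
    rw [hI, map_sub, map_mul, map_mul]
    rcases j with _ | j
    · exact DF_comm F hF hF0 ((hC0 a).1 ha) ((hC0 b).1 hb)
    · exact CF_comm F hF (j + 1) (by omega) ((hCs j a).1 ha) ((hCs j b).1 hb)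
  · intro j x hx
    rw [hCs]
    refine ⟨0, ?_⟩
    rw [zero_smul, sub_zero]
    exact (hI j x).1 hx
  · intro x hx
    have hx' := (hI _ x).1 hx
    apply hφinj
    rw [map_zero]
    refine LinearMap.ext (fun v => ?_)
    have h1 := hx' _ v (by rw [hFn]; exact Submodule.mem_top)
    have h2 : Module.finrank (AlgebraicClosure ℚ_[p])
        (AlgebraicClosure ℚ_[p] ⊗[ℚ_[p]] (ι → ℚ_[p])) -
        (Module.finrank (AlgebraicClosure ℚ_[p])
        (AlgebraicClosure ℚ_[p] ⊗[ℚ_[p]] (ι → ℚ_[p])) + 1) = 0 := by omega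
    rw [h2, hF0, Submodule.mem_bot] at h1
    rw [h1]
    rfl

end Pool.Agent.Lib.MP_ca71b5_nt
end
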