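import Mathlib
import Pool.Agent.Lib.MP_ca71b5_nt.Base
import Pool.Agent.Lib.MP_ca71b5_nt.LI2
import Pool.Agent.Lib.MP_ca71b5_nt.E0
import Pool.Agent.Lib.MP_ca71b5_nt.ADefs
import Pool.Agent.Lib.MP_ca71b5_nt.L1a
import Pool.Agent.Lib.MP_ca71b5_nt.LD
import Pool.Agent.Lib.MP_ca71b5_nt.C4
import Pool.Agent.Lib.MP_ca71b5_nt.Q2
import Pool.Agent.Lib.MP_ca71b5_nt.Defs2
import Pool.Agent.Lib.MP_ca71b5_nt.E7
import Pool.Agent.Lib.MP_ca71b5_nt.S2b

section

section

/-!
# Bounded finite quotients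
-/

set_option autoImplicit false

namespace Pool.Agent.Lib.MP_ca71b5_nt

theorem finiteIndex_of_bounded {Γ : Type} [Group Γ] [TopologicalSpace Γ] [IsTopologicalGroup Γ]
    [CompactSpace Γ] [T2Space Γ] [TotallyDisconnectedSpace Γ] (Z : Subgroup Γ) (hZ : Z.Normal)
    (hc : IsClosed (Z : Set Γ)) (B : ℕ)
    (hB : ∀ W : Subgroup Γ, W.Normal → IsOpen (W : Set Γ) → Z ≤ W → W.index ≤ B) :
    Z.index ≠ 0 := by
  classical
  have hfin : ∀ W : Subgroup Γ, IsOpen (W : Set Γ) → W.index ≠ 0 := by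
    intro W hW
    have : Finite (Γ ⧸ W) := Subgroup.quotient_finite_of_isOpen W hW
    exact (Subgroup.finiteIndex_of_finite_quotient (H := W)).index_ne_zero
  let S : Set ℕ := {n | ∃ W : Subgroup Γ, W.Normal ∧ IsOpen (W : Set Γ) ∧ Z ≤ W ∧ W.index = n}
  have hSne : S.Nonempty := ⟨_, ⊤, inferInstance, isOpen_univ, le_top, rfl⟩
  have hSb : BddAbove S := ⟨B, by
    rintro n ⟨W, h1, h2, h3, rfl⟩
    exact hB W h1 h2 h3⟩
  obtain ⟨W, hWn, hWo, hZW, hWi⟩ := Nat.sSup_mem hSne hSb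
  have hmax : ∀ W2 : Subgroup Γ, W2.Normal → IsOpen (W2 : Set Γ) → Z ≤ W2 → W ≤ W2 := by
    intro W2 h1 h2 h3
    have h4 : (W ⊓ W2).Normal := inferInstance
    have h5 : IsOpen ((W ⊓ W2 : Subgroup Γ) : Set Γ) := by
      rw [Subgroup.coe_inf]
      exact hWo.inter h2
    have h6 : (W ⊓ W2).index ≤ W.index := by
      rw [hWi]
      exact le_csSup hSb ⟨_, h4, h5, le_inf hZW h3, rfl⟩
    have h7 : (W ⊓ W2).relIndex W * W.index = (W ⊓ W2).index :=
      Subgroup.relIndex_mul_index inf_le_left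
    have h8 : (W ⊓ W2).relIndex W = 1 := by
      have h9 := hfin W hWo
      have h10 := hfin _ h5
      have h11 : (W ⊓ W2).relIndex W ≠ 0 := by
        intro h
        rw [h, zero_mul] at h7
        exact h10 h7.symm
      have h12 : (W ⊓ W2).relIndex W * W.index ≤ 1 * W.index := by
        rw [h7, one_mul]
        exact h6
      have h13 := Nat.le_of_mul_le_mul_right h12 (Nat.pos_of_ne_zero h9)
      omega
    rw [Subgroup.relIndex_eq_one] at h8
    exact h8.trans inf_le_right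
  have hWZ : W ≤ Z := by
    intro g hg
    by_contra hgZ
    have hopen : IsOpen {x : Γ | g * x ∈ (Z : Set Γ)ᶜ} :=
      hc.isOpen_compl.preimage (continuous_const_mul g)
    have hone : (1 : Γ) ∈ {x : Γ | g * x ∈ (Z : Set Γ)ᶜ} := by
      show g * 1 ∈ (Z : Set Γ)ᶜ
      rw [mul_one]
      exact hgZ
    obtain ⟨V, hV⟩ := ProfiniteGrp.exist_openNormalSubgroup_sub_open_nhds_of_one hopen hone
    have hVn : V.toSubgroup.Normal := V.isNormal'
    have hle := hmax (V.toSubgroup ⊔ Z) inferInstance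
      (Subgroup.isOpen_mono (le_sup_left : V.toSubgroup ≤ V.toSubgroup ⊔ Z) V.toOpenSubgroup.isOpen)
      le_sup_right
    have hgs := hle hg
    rw [Subgroup.mem_sup_of_normal_right] at hgs
    obtain ⟨v, hv, z, hz, hvz⟩ := hgs
    have h1 : (v⁻¹ : Γ) ∈ V.toSubgroup := V.toSubgroup.inv_mem hv
    have h2 : g⁻¹ * v⁻¹ * g⁻¹⁻¹ ∈ V.toSubgroup := hVn.conj_mem v⁻¹ h1 g⁻¹
    have h3 : g * (g⁻¹ * v⁻¹ * g⁻¹⁻¹) ∈ (Z : Set Γ)ᶜ := hV h2
    apply h3
    have h4 : g * (g⁻¹ * v⁻¹ * g⁻¹⁻¹) = z := by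
      rw [inv_inv, ← hvz]
      group
    rw [h4]
    exact hz
  have : W = Z := le_antisymm hWZ hZW
  rw [← this]
  exact hfin W hWo

end Pool.Agent.Lib.MP_ca71b5_nt
end

section

/-!
# Conjugations of the Lie algebra
-/

set_option autoImplicit false

namespace Pool.Agent.Lib.MP_ca71b5_nt

variable {p : ℕ} [Fact p.Prime] {ι : Type} [Fintype ι] [DecidableEq ι]
  {Γ : Type} [Group Γ] [TopologicalSpace Γ] [IsTopologicalGroup Γ] [CompactSpace Γ]


attribute [local instance 100] LieRing.ofAssociativeRing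

theorem exists_conj_auto (ρ : Γ →* GLZ p ι) (N : ℕ) (hN : ∀ g : Γ, Deep 2 N (ρ g))
    (P : GLZ p ι) (hP : ∀ g : Γ, ∃ g' : Γ, ρ g' = P * ρ g * P⁻¹) :
    ∃ T : gg ρ ≃ₗ⁅ℚ_[p]⁆ gg ρ, ∀ x : gg ρ, ((T x : gg ρ) : MQ p ι) = gm P * x * gm P⁻¹ := by
  have hmem : ∀ x : MQ p ι, x ∈ gg ρ → cj P x ∈ gg ρ := by
    intro x hx
    rw [← LieSubalgebra.mem_toSubmodule, gg_eq_logSpan ρ N hN] at hx ⊢
    unfold logSpan at hx ⊢
    induction hx using Submodule.span_induction with
    | mem x h =>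
      obtain ⟨g, rfl⟩ := h
      obtain ⟨g', hg'⟩ := hP g
      apply Submodule.subset_span
      refine ⟨g', ?_⟩
      show ell (ρ g') = cj P (ell (ρ g))
      rw [hg', cj_apply]
      exact ell_conj (ρ g) P N (hN g)
    | zero => rw [map_zero]; exact Submodule.zero_mem _
    | add x y _ _ h1 h2 => rw [map_add]; exact Submodule.add_mem _ h1 h2
    | smul c x _ h => rw [map_smul]; exact Submodule.smul_mem _ _ h
  let T : gg ρ →ₗ⁅ℚ_[p]⁆ gg ρ :=
    { toFun := fun x => ⟨cj P x, hmem x x.2⟩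
      map_add' := by
        intro x y
        apply Subtype.ext
        show cj P ((x : MQ p ι) + y) = cj P x + cj P y
        exact map_add _ _ _
      map_smul' := by
        intro c x
        apply Subtype.ext
        show cj P (c • (x : MQ p ι)) = c • cj P x
        exact map_smul _ _ _
      map_lie' := by
        intro x y
        apply Subtype.ext
        show cj P (⁅(x : MQ p ι), (y : MQ p ι)⁆) = ⁅cj P x, cj P y⁆
        exact cj_lie _ _ _ }
  have hT : ∀ x : gg ρ, ((T x : gg ρ) : MQ p ι) = cj P x := fun x => rfl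
  have hinj : Function.Injective T := by
    intro x y hxy
    apply Subtype.ext
    have h1 : cj P (x : MQ p ι) = cj P (y : MQ p ι) := by
      rw [← hT, ← hT, hxy]
    have h2 := congrArg (cj P⁻¹) h1
    rw [cj_cj, cj_cj, inv_mul_cancel, cj_one, cj_one] at h2
    exact h2
  have hsurj : Function.Surjective T := by
    have h1 : Function.Injective (T : gg ρ →ₗ[ℚ_[p]] gg ρ) := hinj
    exact LinearMap.injective_iff_surjective.1 h1
  refine ⟨LieEquiv.ofBijective T ⟨hinj, hsurj⟩, fun x => ?_⟩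
  rfl

end Pool.Agent.Lib.MP_ca71b5_nt
end

section

/-!
# If the automorphism is trivial modulo the radical
-/

set_option autoImplicit false

namespace Pool.Agent.Lib.MP_ca71b5_nt

variable {p : ℕ} [Fact p.Prime] {ι : Type} [Fintype ι] [DecidableEq ι]
  {Γ : Type} [Group Γ] [TopologicalSpace Γ] [IsTopologicalGroup Γ] [CompactSpace Γ]
  [T2Space Γ] [TotallyDisconnectedSpace Γ]


attribute [local instance 100] LieRing.ofAssociativeRing

/-- the radical of a Lie algebra of matrices, as a space of matrices -/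
private noncomputable def T2R (L : LieSubalgebra ℚ_[p] (MQ p ι)) : Submodule ℚ_[p] (MQ p ι) :=
  ((LieAlgebra.radical ℚ_[p] L).toSubmodule).map L.toSubmodule.subtype

omit [Fact p.Prime] in
private theorem T2R_mem [Fact p.Prime] (L : LieSubalgebra ℚ_[p] (MQ p ι)) (y : MQ p ι) :
    y ∈ T2R L ↔ ∃ h : y ∈ L, (⟨y, h⟩ : L) ∈ LieAlgebra.radical ℚ_[p] L := by
  unfold T2R
  constructor
  · rintro ⟨z, hz, rfl⟩
    exact ⟨z.2, hz⟩
  · rintro ⟨h, hy⟩
    exact ⟨⟨y, h⟩, hy, rfl⟩

/-- an injective Lie endomorphism does not send elements outside the radical into the radical -/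
private theorem T2_inj {L : Type} [LieRing L] [LieAlgebra ℚ_[p] L] [IsNoetherian ℚ_[p] L]
    (f : L →ₗ⁅ℚ_[p]⁆ L) (hf : Function.Injective f) (x : L)
    (hx : f x ∈ LieAlgebra.radical ℚ_[p] L) : x ∈ LieAlgebra.radical ℚ_[p] L := by
  let J : LieIdeal ℚ_[p] L := LieIdeal.comap f (LieAlgebra.radical ℚ_[p] L)
  have hmem : ∀ y : J, f (y : L) ∈ LieAlgebra.radical ℚ_[p] L := fun y =>
    LieIdeal.mem_comap.mp y.2
  let g : J →ₗ⁅ℚ_[p]⁆ (LieAlgebra.radical ℚ_[p] L) :=
    { toFun := fun y => ⟨f (y : L), hmem y⟩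
      map_add' := fun a b => Subtype.ext (by simp)
      map_smul' := fun c a => Subtype.ext (by simp)
      map_lie' := fun {a b} => Subtype.ext (by simp) }
  have hg : Function.Injective g := by
    intro a b hab
    apply Subtype.ext
    apply hf
    exact congrArg Subtype.val hab
  have hs : LieAlgebra.IsSolvable J := hg.lieAlgebra_isSolvable
  have hle : J ≤ LieAlgebra.radical ℚ_[p] L := (LieAlgebra.LieIdeal.solvable_iff_le_radical ℚ_[p] L J).mp hs
  exact hle (LieIdeal.mem_comap.mpr hx)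

private theorem T2_conj (L : LieSubalgebra ℚ_[p] (MQ p ι)) (A A' : MQ p ι) (h1 : A * A' = 1)
    (h2 : A' * A = 1) (hA : ∀ x ∈ L, A * x * A' ∈ L) (hA' : ∀ x ∈ L, A' * x * A ∈ L)
    (y : MQ p ι) (hy : y ∈ T2R L) : A * y * A' ∈ T2R L := by
  rw [T2R_mem] at hy ⊢
  obtain ⟨hyL, hyR⟩ := hy
  refine ⟨hA y hyL, ?_⟩
  let f : L →ₗ⁅ℚ_[p]⁆ L :=
    { toFun := fun x => ⟨A' * (x : MQ p ι) * A, hA' x x.2⟩
      map_add' := fun a b => Subtype.ext (by
        show A' * ((a : MQ p ι) + b) * A = A' * a * A + A' * b * A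
        rw [mul_add, add_mul])
      map_smul' := fun c a => Subtype.ext (by
        show A' * (c • (a : MQ p ι)) * A = c • (A' * a * A)
        rw [mul_smul_comm, smul_mul_assoc])
      map_lie' := fun {a b} => Subtype.ext (by
        show A' * ((a : MQ p ι) * b - b * a) * A =
          (A' * a * A) * (A' * b * A) - (A' * b * A) * (A' * a * A)
        have e : ∀ u v : MQ p ι, (A' * u * A) * (A' * v * A) = A' * (u * v) * A := by
          intro u v
          calc (A' * u * A) * (A' * v * A) = A' * u * (A * A') * v * A := by noncomm_ring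
            _ = A' * (u * v) * A := by rw [h1, mul_one]; noncomm_ring
        rw [e, e, mul_sub, sub_mul]) }
  have hf : Function.Injective f := by
    intro a b hab
    apply Subtype.ext
    have h3 : A' * (a : MQ p ι) * A = A' * b * A := congrArg Subtype.val hab
    have h4 : A * (A' * (a : MQ p ι) * A) * A' = A * (A' * b * A) * A' := by rw [h3]
    have e : ∀ u : MQ p ι, A * (A' * u * A) * A' = u := by
      intro u
      calc A * (A' * u * A) * A' = (A * A') * u * (A * A') := by noncomm_ring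
        _ = u := by rw [h1, one_mul, mul_one]
    rw [e, e] at h4
    exact h4
  apply T2_inj f hf
  have e : f ⟨A * y * A', hA y hyL⟩ = ⟨y, hyL⟩ := by
    apply Subtype.ext
    show A' * (A * y * A') * A = y
    calc A' * (A * y * A') * A = (A' * A) * y * (A' * A) := by noncomm_ring
      _ = y := by rw [h2, one_mul, mul_one]
  rw [e]
  exact hyR

/-- solvability from brackets in the radical -/
private theorem T2_solv {L : Type} [LieRing L] [LieAlgebra ℚ_[p] L] [IsNoetherian ℚ_[p] L]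
    (h : ∀ x y : L, ⁅x, y⁆ ∈ LieAlgebra.radical ℚ_[p] L) : LieAlgebra.IsSolvable L := by
  obtain ⟨k, hk⟩ := LieAlgebra.IsSolvable.solvable ℚ_[p] (LieAlgebra.radical ℚ_[p] L)
  rw [LieIdeal.derivedSeries_eq_bot_iff] at hk
  refine LieAlgebra.IsSolvable.mk (R := ℚ_[p]) (k := k + 1) ?_
  rw [LieAlgebra.derivedSeries_def, LieAlgebra.derivedSeriesOfIdeal_add, eq_bot_iff, ← hk]
  apply LieAlgebra.derivedSeriesOfIdeal_mono
  rw [LieAlgebra.derivedSeriesOfIdeal_succ, LieAlgebra.derivedSeriesOfIdeal_zero,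
    LieSubmodule.lie_le_iff]
  intro x _ y _
  exact h x y

theorem solvable_of_tower (ρ : Γ →* GLZ p ι) (hρ : Continuous ρ) (N : ℕ)
    (hN : ∀ g : Γ, Deep 2 N (ρ g)) (φ : Γ →* Γ) (P : GLZ p ι)
    (hφ : ∀ g : Γ, ρ (φ g) = P * ρ g * P⁻¹) (T : gg ρ ≃ₗ⁅ℚ_[p]⁆ gg ρ)
    (hT : ∀ x : gg ρ, ((T x : gg ρ) : MQ p ι) = gm P * x * gm P⁻¹)
    (hrad : ∀ x : gg ρ, T x - x ∈ LieAlgebra.radical ℚ_[p] (gg ρ))
    (htow : TowerF ρ.ker φ) : LieAlgebra.IsSolvable (gg ρ) := by
  have hgg : ∀ x : MQ p ι, x ∈ gg ρ ↔ x ∈ logSpan ρ := by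
    intro x
    rw [← gg_eq_logSpan ρ N hN]
    rfl
  set R' : Submodule ℚ_[p] (MQ p ι) := T2R (gg ρ) with hR'
  have hRclosed : IsClosed (R' : Set (MQ p ι)) := Submodule.closed_of_finiteDimensional _
  -- conjugation by the image preserves the Lie algebra and its radical
  have cg : ∀ a : Γ, ∀ x ∈ gg ρ, gm (ρ a) * x * gm (ρ a)⁻¹ ∈ gg ρ := fun a x hx =>
    (hgg _).mpr (conj_mem_logSpan ρ N hN a x ((hgg x).mp hx))
  have cg' : ∀ a : Γ, ∀ x ∈ gg ρ, gm (ρ a)⁻¹ * x * gm (ρ a) ∈ gg ρ := fun a x hx => by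
    have := cg a⁻¹ x hx
    rw [map_inv, inv_inv] at this
    exact this
  have cR : ∀ a : Γ, ∀ x ∈ R', gm (ρ a) * x * gm (ρ a)⁻¹ ∈ R' := fun a x hx =>
    T2_conj (gg ρ) _ _ (gm_mul_gm_inv _) (gm_inv_mul_gm _) (cg a) (cg' a) x hx
  -- the conjugation by `P`
  have cP : ∀ x ∈ gg ρ, gm P * x * gm P⁻¹ - x ∈ R' := fun x hx => by
    have h1 := hrad ⟨x, hx⟩
    rw [hR', T2R_mem]
    have e : ((T ⟨x, hx⟩ - ⟨x, hx⟩ : gg ρ) : MQ p ι) = gm P * x * gm P⁻¹ - x := by
      show ((T ⟨x, hx⟩ : gg ρ) : MQ p ι) - x = _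
      rw [hT]
    refine ⟨by rw [← e]; exact (T ⟨x, hx⟩ - ⟨x, hx⟩ : gg ρ).2, ?_⟩
    convert h1 using 1
    exact Subtype.ext e.symm
  have cP' : ∀ x ∈ gg ρ, gm P⁻¹ * x * gm P ∈ gg ρ := fun x hx => by
    have h1 := hT (T.symm ⟨x, hx⟩)
    rw [LieEquiv.apply_symm_apply] at h1
    have h2 : gm P⁻¹ * x * gm P = ((T.symm ⟨x, hx⟩ : gg ρ) : MQ p ι) := by
      have h3 : x = gm P * ((T.symm ⟨x, hx⟩ : gg ρ) : MQ p ι) * gm P⁻¹ := h1
      conv_lhs => rw [h3]
      calc gm P⁻¹ * (gm P * ((T.symm ⟨x, hx⟩ : gg ρ) : MQ p ι) * gm P⁻¹) * gm P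
          = (gm P⁻¹ * gm P) * ((T.symm ⟨x, hx⟩ : gg ρ) : MQ p ι) * (gm P⁻¹ * gm P) := by
            noncomm_ring
        _ = _ := by rw [gm_inv_mul_gm, one_mul, mul_one]
    rw [h2]
    exact (T.symm ⟨x, hx⟩ : gg ρ).2
  -- composition
  have comp : ∀ (A B : GLZ p ι) (x : MQ p ι),
      gm (A * B) * x * gm (A * B)⁻¹ = gm A * (gm B * x * gm B⁻¹) * gm A⁻¹ := by
    intro A B x
    rw [mul_inv_rev, gm_mul, gm_mul]
    noncomm_ring
  -- the subgroup `Z`
  let Z : Subgroup Γ :=
    { carrier := {a | ∀ x ∈ gg ρ, gm (ρ a) * x * gm (ρ a)⁻¹ - x ∈ R'}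
      mul_mem' := by
        intro a b ha hb x hx
        have e : gm (ρ (a * b)) * x * gm (ρ (a * b))⁻¹ - x =
            gm (ρ a) * (gm (ρ b) * x * gm (ρ b)⁻¹ - x) * gm (ρ a)⁻¹ +
              (gm (ρ a) * x * gm (ρ a)⁻¹ - x) := by
          rw [map_mul, comp]
          noncomm_ring
        show gm (ρ (a * b)) * x * gm (ρ (a * b))⁻¹ - x ∈ R'
        rw [e]
        exact R'.add_mem (cR a _ (hb x hx)) (ha x hx)
      one_mem' := by
        intro x _
        rw [map_one, inv_one, gm_one, one_mul, mul_one, sub_self]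
        exact R'.zero_mem
      inv_mem' := by
        intro a ha x hx
        have e : gm (ρ a⁻¹) * x * gm (ρ a⁻¹)⁻¹ - x =
            -(gm (ρ a⁻¹) * (gm (ρ a) * x * gm (ρ a)⁻¹ - x) * gm (ρ a⁻¹)⁻¹) := by
          rw [mul_sub, sub_mul, ← comp, ← map_mul, inv_mul_cancel, map_one, inv_one, gm_one,
            one_mul, mul_one, neg_sub]
        show gm (ρ a⁻¹) * x * gm (ρ a⁻¹)⁻¹ - x ∈ R'
        rw [e]
        exact R'.neg_mem (cR a⁻¹ _ (ha x hx)) }
  have hZmem : ∀ a : Γ, a ∈ Z ↔ ∀ x ∈ gg ρ, gm (ρ a) * x * gm (ρ a)⁻¹ - x ∈ R' := fun a => Iff.rfl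
  have hZn : Z.Normal := by
    refine ⟨fun a ha b => ?_⟩
    rw [hZmem] at ha ⊢
    intro x hx
    set y : MQ p ι := gm (ρ b⁻¹) * x * gm (ρ b⁻¹)⁻¹ with hy
    have hyg : y ∈ gg ρ := cg b⁻¹ x hx
    have hxy : x = gm (ρ b) * y * gm (ρ b)⁻¹ := by
      rw [hy, ← comp, ← map_mul, mul_inv_cancel, map_one, inv_one, gm_one, one_mul, mul_one]
    have e : gm (ρ (b * a * b⁻¹)) * x * gm (ρ (b * a * b⁻¹))⁻¹ - x =
        gm (ρ b) * (gm (ρ a) * y * gm (ρ a)⁻¹ - y) * gm (ρ b)⁻¹ := by
      rw [map_mul, map_mul, comp, ← hy, comp, mul_sub, sub_mul, ← hxy]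
    rw [e]
    exact cR b _ (ha y hyg)
  have hZc : IsClosed (Z : Set Γ) := by
    have e : (Z : Set Γ) = ⋂ x ∈ (gg ρ : Set (MQ p ι)),
        {a : Γ | gm (ρ a) * x * gm (ρ a)⁻¹ - x ∈ (R' : Set (MQ p ι))} := by
      ext a
      simp only [SetLike.mem_coe, hZmem, Set.mem_iInter, Set.mem_setOf_eq]
    rw [e]
    refine isClosed_biInter fun x _ => ?_
    refine hRclosed.preimage (f := fun a : Γ => gm (ρ a) * x * gm (ρ a)⁻¹ - x) ?_
    have h1 : Continuous fun a : Γ => gm (ρ a) := continuous_gm.comp hρ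
    have h2 : Continuous fun a : Γ => gm (ρ a)⁻¹ := continuous_gm.comp hρ.inv
    exact ((h1.mul continuous_const).mul h2).sub continuous_const
  have hker : ρ.ker ≤ Z := by
    intro a ha
    rw [hZmem]
    intro x _
    rw [MonoidHom.mem_ker] at ha
    rw [ha, inv_one, gm_one, one_mul, mul_one, sub_self]
    exact R'.zero_mem
  have hφZ : ∀ a : Γ, φ a * a⁻¹ ∈ Z := by
    intro a
    rw [hZmem]
    intro x hx
    set y : MQ p ι := gm (ρ a⁻¹) * x * gm (ρ a⁻¹)⁻¹ with hy
    have hyg : y ∈ gg ρ := cg a⁻¹ x hx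
    have hxy : x = gm (ρ a) * y * gm (ρ a)⁻¹ := by
      rw [hy, ← comp, ← map_mul, mul_inv_cancel, map_one, inv_one, gm_one, one_mul, mul_one]
    set u : MQ p ι := gm P⁻¹ * y * gm P with hu
    have hug : u ∈ gg ρ := cP' y hyg
    have hyu : y = gm P * u * gm P⁻¹ := by
      rw [hu]
      calc y = (gm P * gm P⁻¹) * y * (gm P * gm P⁻¹) := by rw [gm_mul_gm_inv, one_mul, mul_one]
        _ = _ := by noncomm_ring
    have e1 : gm (ρ (φ a * a⁻¹)) * x * gm (ρ (φ a * a⁻¹))⁻¹ =
        gm P * (gm (ρ a) * u * gm (ρ a)⁻¹) * gm P⁻¹ := by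
      rw [map_mul, comp, ← hy, hφ, comp, comp, inv_inv]
    have e2 : gm (ρ (φ a * a⁻¹)) * x * gm (ρ (φ a * a⁻¹))⁻¹ - x =
        (gm P * (gm (ρ a) * u * gm (ρ a)⁻¹) * gm P⁻¹ - gm (ρ a) * u * gm (ρ a)⁻¹) -
          gm (ρ a) * (gm P * u * gm P⁻¹ - u) * gm (ρ a)⁻¹ := by
      rw [e1, ← hyu, mul_sub, sub_mul, ← hxy]
      abel
    rw [e2]
    exact R'.sub_mem (cP _ (cg a u hug)) (cR a _ (cP u hug))
  obtain ⟨B, hB⟩ := htow
  have hidx : Z.index ≠ 0 := finiteIndex_of_bounded Z hZn hZc B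
    (fun W hWn hWo hZW => hB W hWn hWo (hker.trans hZW) (fun a => hZW (hφZ a)))
  haveI : Z.Normal := hZn
  haveI : Z.FiniteIndex := ⟨hidx⟩
  have hpow : ∀ a : Γ, a ^ Z.index ∈ Z := fun a => Z.pow_index_mem a
  -- the bracket with a logarithm is in the radical
  have hbr : ∀ a : Γ, ∀ x ∈ gg ρ, ell (ρ a) * x - x * ell (ρ a) ∈ R' := by
    intro a x hx
    set b : Γ := a ^ Z.index with hb
    have hlim := conj_tendsto (ρ b) N (hN b) x
    have hmem : ell (ρ b) * x - x * ell (ρ b) ∈ (R' : Set (MQ p ι)) := by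
      refine hRclosed.mem_of_tendsto hlim (Filter.Eventually.of_forall fun m => ?_)
      refine R'.smul_mem _ ?_
      have h1 : b ^ (p ^ m) ∈ Z := Z.pow_mem (hpow a) _
      have h2 := (hZmem _).mp h1 x hx
      rw [map_pow, gm_pow, ← inv_pow, gm_pow] at h2
      exact h2
    have hell : ell (ρ b) = (Z.index : ℚ_[p]) • ell (ρ a) := by
      rw [hb, map_pow]
      exact ell_pow (ρ a) N (hN a) _
    rw [hell, smul_mul_assoc, mul_smul_comm, ← smul_sub] at hmem
    have hne : (Z.index : ℚ_[p]) ≠ 0 := by exact_mod_cast hidx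
    have h3 := R'.smul_mem ((Z.index : ℚ_[p])⁻¹) hmem
    rw [inv_smul_smul₀ hne] at h3
    exact h3
  have hall : ∀ y ∈ logSpan ρ, ∀ x ∈ gg ρ, y * x - x * y ∈ R' := by
    intro y hy x hx
    unfold logSpan at hy
    induction hy using Submodule.span_induction with
    | mem y hy =>
      obtain ⟨a, rfl⟩ := hy
      exact hbr a x hx
    | zero => simp
    | add c d _ _ hc hd =>
      have e : (c + d) * x - x * (c + d) = (c * x - x * c) + (d * x - x * d) := by noncomm_ring
      rw [e]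
      exact R'.add_mem hc hd
    | smul t c _ hc =>
      have e : (t • c) * x - x * (t • c) = t • (c * x - x * c) := by
        rw [smul_mul_assoc, mul_smul_comm, smul_sub]
      rw [e]
      exact R'.smul_mem _ hc
  apply T2_solv (p := p)
  intro x y
  have h1 := hall x ((hgg _).mp x.2) y y.2
  rw [hR', T2R_mem] at h1
  obtain ⟨h2, h3⟩ := h1
  exact h3

end Pool.Agent.Lib.MP_ca71b5_nt
end

section

/-!
# Finite quotients of a group with powerful image
-/

set_option autoImplicit false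

namespace Pool.Agent.Lib.MP_ca71b5_nt

variable {p : ℕ} [Fact p.Prime]
  {Γ : Type} [Group Γ] [TopologicalSpace Γ] [IsTopologicalGroup Γ] [CompactSpace Γ]


theorem powQ_of_powerful {n : ℕ} (ρ : Γ →* Matrix.GeneralLinearGroup (Fin n) ℤ_[p])
    (hρ : Continuous ρ) (h : Powerful p ρ.range) : PowQ p ρ.ker := by
  intro W hWn hWo hker
  refine ⟨inferInstance, ?_⟩
  intro x _ g
  obtain ⟨a, rfl⟩ := QuotientGroup.mk_surjective x
  obtain ⟨b, rfl⟩ := QuotientGroup.mk_surjective g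
  have hq : (if p = 2 then 4 else p) = p ^ eps p := by
    unfold eps
    by_cases h2 : p = 2
    · subst h2; simp
    · simp [h2]
  set O : Set (Matrix.GeneralLinearGroup (Fin n) ℤ_[p]) := (ρ '' ((W : Set Γ)ᶜ))ᶜ with hO
  have hOo : IsOpen O := by
    rw [hO, isOpen_compl_iff]
    have h1 : IsClosed ((W : Set Γ)ᶜ) := hWo.isClosed_compl
    have h2 : IsCompact ((W : Set Γ)ᶜ) := h1.isCompact
    exact (h2.image hρ).isClosed
  have hO1 : (1 : Matrix.GeneralLinearGroup (Fin n) ℤ_[p]) ∈ O := by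
    rw [hO]
    rintro ⟨w, hw, hw1⟩
    exact hw (hker hw1)
  have hOW : ∀ t : Γ, ρ t ∈ O → t ∈ W := by
    intro t ht
    by_contra hc
    exact ht ⟨t, hc, rfl⟩
  have hc := h (ρ a) ⟨a, rfl⟩ (ρ b) ⟨b, rfl⟩
  rw [hq] at hc
  set c : Matrix.GeneralLinearGroup (Fin n) ℤ_[p] := ρ a * ρ b * (ρ a)⁻¹ * (ρ b)⁻¹ with hcdef
  have hcont : Continuous fun s : Matrix.GeneralLinearGroup (Fin n) ℤ_[p] => s⁻¹ * c :=
    continuous_inv.mul continuous_const
  obtain ⟨s, hsU, hsS⟩ := mem_closure_iff.mp hc _ (hOo.preimage hcont) (by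
    show c⁻¹ * c ∈ O
    rw [inv_mul_cancel]
    exact hO1)
  have hle : (Subgroup.closure {x | ∃ y ∈ ρ.range, x = y ^ (p ^ eps p)} :
      Subgroup (Matrix.GeneralLinearGroup (Fin n) ℤ_[p])) ≤
      (PS (p ^ eps p) (⊤ : Subgroup Γ)).map ρ := by
    rw [Subgroup.closure_le]
    rintro z ⟨y, ⟨y', rfl⟩, rfl⟩
    refine ⟨y' ^ (p ^ eps p), Subgroup.subset_closure ⟨y', Subgroup.mem_top _, rfl⟩, ?_⟩
    rw [map_pow]
  obtain ⟨s', hs', rfl⟩ := hle hsS
  have hW : s'⁻¹ * (a * b * a⁻¹ * b⁻¹) ∈ W := by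
    apply hOW
    have e : ρ (s'⁻¹ * (a * b * a⁻¹ * b⁻¹)) = (ρ s')⁻¹ * c := by
      simp [hcdef, mul_assoc]
    rw [e]
    exact hsU
  have hmk : (QuotientGroup.mk a * QuotientGroup.mk b * (QuotientGroup.mk a)⁻¹ *
      (QuotientGroup.mk b)⁻¹ : Γ ⧸ W) = QuotientGroup.mk s' := by
    have e : (QuotientGroup.mk a * QuotientGroup.mk b * (QuotientGroup.mk a)⁻¹ *
      (QuotientGroup.mk b)⁻¹ : Γ ⧸ W) = QuotientGroup.mk (a * b * a⁻¹ * b⁻¹) := rfl
    rw [e]
    exact (QuotientGroup.eq.mpr hW).symm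
  rw [hmk]
  have hle2 : PS (p ^ eps p) (⊤ : Subgroup Γ) ≤
      (PS (p ^ eps p) (⊤ : Subgroup (Γ ⧸ W))).comap (QuotientGroup.mk' W) := by
    unfold PS
    rw [Subgroup.closure_le]
    rintro z ⟨y, _, rfl⟩
    refine Subgroup.subset_closure ⟨QuotientGroup.mk' W y, Subgroup.mem_top _, ?_⟩
    rw [map_pow]
  exact hle2 hs'

end Pool.Agent.Lib.MP_ca71b5_nt
end
end

section

section

/-!
# The induced representation
-/

set_option autoImplicit false

namespace Pool.Agent.Lib.MP_ca71b5_nt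

variable {p : ℕ} [Fact p.Prime] {l : ℕ} [Fact l.Prime]
  {Γ : Type} [Group Γ] [TopologicalSpace Γ] [IsTopologicalGroup Γ]

omit [TopologicalSpace Γ] [IsTopologicalGroup Γ] in
/-- iterates as homomorphisms -/
theorem ind_iter_hom (φ : Γ →* Γ) (k : ℕ) : ∃ f : Γ →* Γ, ∀ g, f g = φ^[k] g := by
  induction k with
  | zero => exact ⟨MonoidHom.id Γ, fun g => rfl⟩
  | succ k ih =>
    obtain ⟨f, hf⟩ := ih
    refine ⟨φ.comp f, fun g => ?_⟩
    rw [MonoidHom.comp_apply, hf, Function.iterate_succ_apply']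

omit [TopologicalSpace Γ] [IsTopologicalGroup Γ] [Fact l.Prime] in
theorem ind_mod {n : ℕ} (ρ : Γ →* Matrix.GeneralLinearGroup (Fin n) ℤ_[p]) (φ : Γ →* Γ)
    (hl : ∀ g : Γ, ρ (φ^[l] g) = ρ g) (k m : ℕ) (g : Γ) :
    ρ (φ^[k + l * m] g) = ρ (φ^[k] g) := by
  induction m with
  | zero => simp
  | succ m ih =>
    rw [show k + l * (m + 1) = l + (k + l * m) by ring, Function.iterate_add_apply, hl, ih]

omit [TopologicalSpace Γ] [IsTopologicalGroup Γ] [Fact l.Prime] in
theorem ind_mod' {n : ℕ} (ρ : Γ →* Matrix.GeneralLinearGroup (Fin n) ℤ_[p]) (φ : Γ →* Γ)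
    (hl : ∀ g : Γ, ρ (φ^[l] g) = ρ g) (k : ℕ) (g : Γ) :
    ρ (φ^[k % l] g) = ρ (φ^[k] g) := by
  conv_rhs => rw [← Nat.mod_add_div k l]
  rw [ind_mod ρ φ hl]

theorem exists_induced {n : ℕ} (ρ : Γ →* Matrix.GeneralLinearGroup (Fin n) ℤ_[p])
    (hρ : Continuous ρ) (φ : Γ →* Γ) (hφ : Continuous φ)
    (hl : ∀ g : Γ, ρ (φ^[l] g) = ρ g) (hker : ∀ g : Γ, ρ g = 1 → ρ (φ g) = 1) :
    ∃ (ι : Type) (_ : Fintype ι) (_ : DecidableEq ι) (ρ' : Γ →* GLZ p ι) (P : GLZ p ι),
      Continuous ρ' ∧ ρ'.ker = ρ.ker ∧ P ^ l = 1 ∧ ∀ g : Γ, ρ' (φ g) = P * ρ' g * P⁻¹ := by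
  classical
  have hl1 : 1 < l := (Fact.out : l.Prime).one_lt
  have : NeZero l := ⟨by omega⟩
  have hiter : ∀ k : ℕ, Continuous (φ^[k]) := fun k => hφ.iterate k
  choose f hf using fun k => ind_iter_hom φ k
  let D := Matrix.blockDiagonalRingHom (Fin n) (ZMod l) ℤ_[p]
  let F : Γ →* (ZMod l → Matrix (Fin n) (Fin n) ℤ_[p]) :=
    Pi.monoidHom fun i : ZMod l => (Units.coeHom _).comp (ρ.comp (f i.val))
  let G : Γ →* Matrix (Fin n × ZMod l) (Fin n × ZMod l) ℤ_[p] := D.toMonoidHom.comp F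
  let ρ' : Γ →* GLZ p (Fin n × ZMod l) := G.toHomUnits
  have hval : ∀ g : Γ, ((ρ' g : GLZ p (Fin n × ZMod l)) : MZ p (Fin n × ZMod l)) =
      Matrix.blockDiagonal fun i : ZMod l =>
        ((ρ (φ^[i.val] g) : Matrix.GeneralLinearGroup (Fin n) ℤ_[p]) :
          Matrix (Fin n) (Fin n) ℤ_[p]) := by
    intro g
    change Matrix.blockDiagonal (fun i : ZMod l =>
        ((ρ (f i.val g) : Matrix.GeneralLinearGroup (Fin n) ℤ_[p]) :
          Matrix (Fin n) (Fin n) ℤ_[p])) = _
    congr 1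
    funext i
    rw [hf]
  have hcont : Continuous fun g : Γ =>
      ((ρ' g : GLZ p (Fin n × ZMod l)) : MZ p (Fin n × ZMod l)) := by
    simp only [hval]
    apply Continuous.matrix_blockDiagonal
    apply continuous_pi
    intro i
    exact Units.continuous_val.comp (hρ.comp (hiter _))
  have hρ' : Continuous ρ' := by
    rw [Units.continuous_iff]
    refine ⟨hcont, ?_⟩
    have h1 : (fun g : Γ => ((ρ' g)⁻¹ : GLZ p (Fin n × ZMod l)).val) =
        fun g : Γ => (ρ' g⁻¹ : GLZ p (Fin n × ZMod l)).val := by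
      funext g
      rw [map_inv]
    rw [h1]
    exact hcont.comp continuous_inv
  let σ : Equiv.Perm (Fin n × ZMod l) := Equiv.prodCongr (Equiv.refl _) (Equiv.addRight 1)
  have hσ : ∀ (a : Fin n) (i : ZMod l), σ (a, i) = (a, i + 1) := fun a i => rfl
  let H : Equiv.Perm (Fin n × ZMod l) →* MZ p (Fin n × ZMod l) := Matrix.permMatrixHom
  let P : GLZ p (Fin n × ZMod l) := H.toHomUnits σ⁻¹
  have hσl : σ ^ l = 1 := by
    have h1 : ∀ (k : ℕ) (a : Fin n) (i : ZMod l), (σ ^ k) (a, i) = (a, i + k) := by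
      intro k
      induction k with
      | zero => intro a i; simp
      | succ k ih =>
        intro a i
        rw [pow_succ', Equiv.Perm.mul_apply, ih, hσ]
        push_cast
        rw [add_assoc]
    apply Equiv.ext
    rintro ⟨a, i⟩
    rw [h1]
    simp
  refine ⟨Fin n × ZMod l, inferInstance, inferInstance, ρ', P, hρ', ?_, ?_, ?_⟩
  · ext g
    rw [MonoidHom.mem_ker, MonoidHom.mem_ker]
    have hkey : ρ' g = 1 ↔ ∀ i : ZMod l, ρ (φ^[i.val] g) = 1 := by
      rw [Units.ext_iff, hval, Units.val_one, ← Matrix.blockDiagonal_one]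
      constructor
      · intro h i
        apply Units.ext
        have h2 := congrArg (fun M => Matrix.blockDiag M i) h
        simp only [Matrix.blockDiag_blockDiagonal] at h2
        rw [h2]
        rfl
      · intro h
        congr 1
        funext i
        rw [h i]
        rfl
    rw [hkey]
    constructor
    · intro h
      have := h 0
      simpa using this
    · intro h i
      have : ∀ k : ℕ, ρ (φ^[k] g) = 1 := by
        intro k
        induction k with
        | zero => exact h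
        | succ k ih =>
          rw [Function.iterate_succ_apply']
          exact hker _ ih
      exact this _
  · change (H.toHomUnits σ⁻¹) ^ l = 1
    rw [← map_pow, inv_pow, hσl, inv_one, map_one]
  · intro g
    apply Units.ext
    rw [Units.val_mul, Units.val_mul, hval, hval]
    have hP : (P : MZ p (Fin n × ZMod l)) = (σ.permMatrix ℤ_[p]) := by
      change Matrix.permMatrixHom σ⁻¹ = _
      change (σ⁻¹)⁻¹.permMatrix ℤ_[p] = _
      rw [inv_inv]
    have hP' : (P⁻¹ : GLZ p (Fin n × ZMod l)).val = (σ⁻¹.permMatrix ℤ_[p]) := by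
      change ((H.toHomUnits σ⁻¹)⁻¹).val = _
      rw [← map_inv, inv_inv]
      rfl
    rw [hP, hP']
    ext ⟨a, i⟩ ⟨b, j⟩
    rw [Equiv.Perm.permMatrix, Equiv.Perm.permMatrix, PEquiv.toMatrix_toPEquiv_mul,
      PEquiv.mul_toMatrix_toPEquiv]
    simp only [Matrix.submatrix_apply, id_eq]
    change _ = Matrix.blockDiagonal _ (σ (a, i)) (σ (b, j))
    rw [hσ, hσ, Matrix.blockDiagonal_apply', Matrix.blockDiagonal_apply']
    by_cases hij : i = j
    · subst hij
      rw [if_pos rfl, if_pos rfl]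
      congr 2
      rw [← Function.iterate_succ_apply, ← ind_mod' ρ φ hl, ← ind_mod' ρ φ hl (i + 1).val]
      congr 3
      rw [ZMod.val_add, Nat.mod_mod]
      congr 1
      rw [ZMod.val_one'' (by omega)]
    · rw [if_neg hij, if_neg (fun h => hij (add_right_cancel h))]

end Pool.Agent.Lib.MP_ca71b5_nt
end

section

/-!
# Induced representations from open subgroups
-/

set_option autoImplicit false

namespace Pool.Agent.Lib.MP_ca71b5_nt

variable {p : ℕ} [Fact p.Prime] {Γ G : Type} [Group Γ] [TopologicalSpace Γ]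
  [IsTopologicalGroup Γ] [Group G] [TopologicalSpace G] [IsTopologicalGroup G]

theorem exists_induced_open (j : Γ →* G) (hj : Function.Injective j) (hjc : Continuous j)
    (hjo : IsOpenMap j) (hfin : j.range.index ≠ 0) (hn : j.range.Normal) {n : ℕ}
    (ρ : Γ →* Matrix.GeneralLinearGroup (Fin n) ℤ_[p]) (hρ : Continuous ρ)
    (hker : ∀ (x : G) (g h : Γ), ρ g = 1 → j h = x * j g * x⁻¹ → ρ h = 1) :
    ∃ (ι : Type) (_ : Fintype ι) (_ : DecidableEq ι) (ρ' : G →* GLZ p ι),
      Continuous ρ' ∧ ∀ g : Γ, ρ' (j g) = 1 ↔ ρ g = 1 := by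
  classical
  have hFI : j.range.FiniteIndex := ⟨hfin⟩
  have hfinQ : Finite (G ⧸ j.range) := inferInstance
  letI : Fintype (G ⧸ j.range) := Fintype.ofFinite _
  obtain ⟨s, hs⟩ : ∃ s : G ⧸ j.range → G, ∀ c, (QuotientGroup.mk (s c) : G ⧸ j.range) = c :=
    ⟨Quotient.out, fun c => QuotientGroup.out_eq' c⟩
  have hsmul : ∀ (g : G) (c : G ⧸ j.range), (QuotientGroup.mk (g * s c) : G ⧸ j.range) = g • c := by
    intro g c
    conv_rhs => rw [← hs c]
    rfl
  have hmem : ∀ (g : G) (c : G ⧸ j.range), ∃ γ : Γ, j γ = (s (g • c))⁻¹ * g * s c := by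
    intro g c
    have h1 : (QuotientGroup.mk (s (g • c)) : G ⧸ j.range) = QuotientGroup.mk (g * s c) := by
      rw [hs, hsmul]
    rw [QuotientGroup.eq, ← mul_assoc] at h1
    exact h1
  choose h hh using hmem
  -- cocycle
  have hmul : ∀ (g g' : G) (c : G ⧸ j.range), h (g * g') c = h g (g' • c) * h g' c := by
    intro g g' c
    apply hj
    rw [map_mul, hh, hh, hh, mul_smul]
    group
  have hone : ∀ c : G ⧸ j.range, h 1 c = 1 := by
    intro c
    apply hj
    rw [hh, one_smul, map_one]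
    group
  have htriv : ∀ (g : G), g ∈ j.range → ∀ c : G ⧸ j.range, g • c = c := by
    intro g hg c
    rw [← hsmul]
    conv_rhs => rw [← hs c]
    rw [QuotientGroup.eq]
    have h1 := hn.conj_mem _ (j.range.inv_mem hg) (s c)⁻¹
    rw [inv_inv] at h1
    rw [mul_inv_rev]
    exact h1
  -- the matrices
  obtain ⟨R, hR⟩ : ∃ R : G → Matrix ((G ⧸ j.range) × Fin n) ((G ⧸ j.range) × Fin n) ℤ_[p],
      ∀ g x y, R g x y = if x.1 = g • y.1 then (ρ (h g y.1) : Matrix (Fin n) (Fin n) ℤ_[p]) x.2 y.2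
        else 0 := ⟨fun g x y => if x.1 = g • y.1 then
          (ρ (h g y.1) : Matrix (Fin n) (Fin n) ℤ_[p]) x.2 y.2 else 0, fun _ _ _ => rfl⟩
  have hRone : R 1 = 1 := by
    ext x y
    rw [hR, one_smul, hone, map_one, Units.val_one, Matrix.one_apply, Matrix.one_apply]
    by_cases h1 : x.1 = y.1
    · by_cases h2 : x.2 = y.2
      · rw [if_pos h1, if_pos h2, if_pos (Prod.ext h1 h2)]
      · rw [if_pos h1, if_neg h2, if_neg fun h3 => h2 (congrArg Prod.snd h3)]
    · rw [if_neg h1, if_neg fun h3 => h1 (congrArg Prod.fst h3)]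
  have hRmul : ∀ g g', R (g * g') = R g * R g' := by
    intro g g'
    ext x y
    rw [Matrix.mul_apply, Fintype.sum_prod_type, hR, hmul, map_mul, Units.val_mul,
      Matrix.mul_apply, mul_smul]
    rw [Finset.sum_eq_single (g' • y.1)]
    · by_cases h1 : x.1 = g • g' • y.1
      · rw [if_pos h1]
        refine Finset.sum_congr rfl fun b _ => ?_
        rw [hR, hR, if_pos h1, if_pos rfl]
      · rw [if_neg h1]
        symm
        refine Finset.sum_eq_zero fun b _ => ?_
        rw [hR, if_neg h1, zero_mul]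
    · intro c _ hc
      refine Finset.sum_eq_zero fun b _ => ?_
      rw [hR g' (c, b) y, if_neg hc, mul_zero]
    · intro h1
      exact absurd (Finset.mem_univ _) h1
  obtain ⟨Rh, hRh⟩ : ∃ Rh : G →* Matrix ((G ⧸ j.range) × Fin n) ((G ⧸ j.range) × Fin n) ℤ_[p],
      ∀ g, Rh g = R g := ⟨⟨⟨R, hRone⟩, hRmul⟩, fun _ => rfl⟩
  -- continuity
  have hop : IsOpen (j.range : Set G) := by
    rw [MonoidHom.coe_range]
    exact hjo.isOpen_range
  have hev : ∀ (g0 : G) (c : G ⧸ j.range), ∀ᶠ g in nhds g0, g • c = g0 • c := by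
    intro g0 c
    have hopen : IsOpen ((fun g : G => g0⁻¹ * g) ⁻¹' (j.range : Set G)) :=
      hop.preimage (continuous_const.mul continuous_id)
    have hmem : g0 ∈ ((fun g : G => g0⁻¹ * g) ⁻¹' (j.range : Set G)) := by
      show g0⁻¹ * g0 ∈ j.range
      rw [inv_mul_cancel]
      exact j.range.one_mem
    filter_upwards [hopen.mem_nhds hmem] with g hg
    have h1 : g0⁻¹ * g ∈ j.range := hg
    have h2 := htriv _ h1 c
    rw [mul_smul, inv_smul_eq_iff] at h2
    exact h2
  have hemb : Topology.IsOpenEmbedding j :=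
    Topology.IsOpenEmbedding.of_continuous_injective_isOpenMap hjc hj hjo
  have hcont : ∀ (g0 : G) (c : G ⧸ j.range), ContinuousAt (fun g => h g c) g0 := by
    intro g0 c
    rw [hemb.toIsEmbedding.toIsInducing.continuousAt_iff]
    have h1 : ContinuousAt (fun g : G => (s (g0 • c))⁻¹ * g * s c) g0 :=
      ((continuous_const.mul continuous_id).mul continuous_const).continuousAt
    refine h1.congr ?_
    filter_upwards [hev g0 c] with g hg
    show _ = j (h g c)
    rw [hh, hg]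
  have hRc : Continuous R := by
    refine continuous_matrix fun x y => ?_
    rw [continuous_iff_continuousAt]
    intro g0
    have h1 : ContinuousAt (fun g : G => if x.1 = g0 • y.1 then
        (ρ (h g y.1) : Matrix (Fin n) (Fin n) ℤ_[p]) x.2 y.2 else 0) g0 := by
      by_cases h2 : x.1 = g0 • y.1
      · simp only [if_pos h2]
        have h3 : Continuous fun γ : Γ => (ρ γ : Matrix (Fin n) (Fin n) ℤ_[p]) x.2 y.2 :=
          (Units.continuous_val.comp hρ).matrix_elem x.2 y.2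
        exact h3.continuousAt.comp (f := fun g => h g y.1) (hcont g0 y.1)
      · simp only [if_neg h2]
        exact continuousAt_const
    refine h1.congr ?_
    filter_upwards [hev g0 y.1] with g hg
    rw [hR, hg]
  refine ⟨(G ⧸ j.range) × Fin n, inferInstance, inferInstance, Rh.toHomUnits, ?_, fun g => ?_⟩
  · rw [Units.continuous_iff]
    constructor
    · have h1 : (Units.val ∘ Rh.toHomUnits : G → _) = R := by
        funext g
        show Rh g = R g
        exact hRh g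
      rw [h1]
      exact hRc
    · have h1 : (fun g => (((Rh.toHomUnits g)⁻¹ : (Matrix ((G ⧸ j.range) × Fin n)
          ((G ⧸ j.range) × Fin n) ℤ_[p])ˣ) : Matrix _ _ ℤ_[p])) = fun g => R g⁻¹ := by
        funext g
        rw [← map_inv]
        show Rh g⁻¹ = R g⁻¹
        exact hRh _
      rw [h1]
      exact hRc.comp continuous_inv
  · have hjg : ∀ c : G ⧸ j.range, j g • c = c := htriv (j g) ⟨g, rfl⟩
    constructor
    · intro h1
      have h2 : R (j g) = 1 := by
        rw [← hRh]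
        exact congrArg Units.val h1
      obtain ⟨c⟩ : Nonempty (G ⧸ j.range) := ⟨QuotientGroup.mk 1⟩
      have h3 : ρ (h (j g) c) = 1 := by
        apply Units.ext
        ext a b
        have h4 := congrFun (congrFun h2 (c, a)) (c, b)
        rw [hR, if_pos (hjg c).symm, Matrix.one_apply] at h4
        rw [Units.val_one, Matrix.one_apply]
        refine h4.trans ?_
        by_cases h5 : a = b
        · rw [if_pos h5, if_pos (by rw [h5])]
        · rw [if_neg h5, if_neg fun h6 => h5 (congrArg Prod.snd h6)]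
      refine hker (s c) (h (j g) c) g h3 ?_
      rw [hh, hjg]
      group
    · intro h1
      apply Units.ext
      show Rh (j g) = 1
      rw [hRh]
      ext x y
      have h2 : ρ (h (j g) y.1) = 1 := by
        refine hker (s y.1)⁻¹ g _ h1 ?_
        rw [hh, hjg, inv_inv]
      rw [hR, hjg, h2, Units.val_one, Matrix.one_apply, Matrix.one_apply]
      by_cases h1 : x.1 = y.1
      · by_cases h2 : x.2 = y.2
        · rw [if_pos h1, if_pos h2, if_pos (Prod.ext h1 h2)]
        · rw [if_pos h1, if_neg h2, if_neg fun h3 => h2 (congrArg Prod.snd h3)]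
      · rw [if_neg h1, if_neg fun h3 => h1 (congrArg Prod.fst h3)]

end Pool.Agent.Lib.MP_ca71b5_nt
end

section

/-!
# Finite quotients of a group with deeply powerful image
-/

set_option autoImplicit false

namespace Pool.Agent.Lib.MP_ca71b5_nt

variable {p : ℕ} [Fact p.Prime]
  {Γ : Type} [Group Γ] [TopologicalSpace Γ] [IsTopologicalGroup Γ] [CompactSpace Γ]


theorem powQc_of_powDeep (c : ℕ) {n : ℕ} (ρ : Γ →* Matrix.GeneralLinearGroup (Fin n) ℤ_[p])
    (hρ : Continuous ρ) (h : PowDeep p c ρ.range) : PowQc p c ρ.ker := by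
  intro W hWn hWo hker
  refine ⟨inferInstance, ?_⟩
  intro x _ g
  obtain ⟨a, rfl⟩ := QuotientGroup.mk_surjective x
  obtain ⟨b, rfl⟩ := QuotientGroup.mk_surjective g
  set O : Set (Matrix.GeneralLinearGroup (Fin n) ℤ_[p]) := (ρ '' ((W : Set Γ)ᶜ))ᶜ with hO
  have hOo : IsOpen O := by
    rw [hO, isOpen_compl_iff]
    have h1 : IsClosed ((W : Set Γ)ᶜ) := hWo.isClosed_compl
    have h2 : IsCompact ((W : Set Γ)ᶜ) := h1.isCompact
    exact (h2.image hρ).isClosed
  have hO1 : (1 : Matrix.GeneralLinearGroup (Fin n) ℤ_[p]) ∈ O := by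
    rw [hO]
    rintro ⟨w, hw, hw1⟩
    exact hw (hker hw1)
  have hOW : ∀ t : Γ, ρ t ∈ O → t ∈ W := by
    intro t ht
    by_contra hc
    exact ht ⟨t, hc, rfl⟩
  have hc := h (ρ a) ⟨a, rfl⟩ (ρ b) ⟨b, rfl⟩
  set d : Matrix.GeneralLinearGroup (Fin n) ℤ_[p] := ρ a * ρ b * (ρ a)⁻¹ * (ρ b)⁻¹ with hddef
  have hcont : Continuous fun s : Matrix.GeneralLinearGroup (Fin n) ℤ_[p] => s⁻¹ * d :=
    continuous_inv.mul continuous_const
  obtain ⟨s, hsU, hsS⟩ := mem_closure_iff.mp hc _ (hOo.preimage hcont) (by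
    show d⁻¹ * d ∈ O
    rw [inv_mul_cancel]
    exact hO1)
  have hle : (Subgroup.closure {x | ∃ y ∈ ρ.range, x = y ^ (p ^ c)} :
      Subgroup (Matrix.GeneralLinearGroup (Fin n) ℤ_[p])) ≤
      (PS (p ^ c) (⊤ : Subgroup Γ)).map ρ := by
    rw [Subgroup.closure_le]
    rintro z ⟨y, ⟨y', rfl⟩, rfl⟩
    refine ⟨y' ^ (p ^ c), Subgroup.subset_closure ⟨y', Subgroup.mem_top _, rfl⟩, ?_⟩
    rw [map_pow]
  obtain ⟨s', hs', rfl⟩ := hle hsS
  have hW : s'⁻¹ * (a * b * a⁻¹ * b⁻¹) ∈ W := by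
    apply hOW
    have e : ρ (s'⁻¹ * (a * b * a⁻¹ * b⁻¹)) = (ρ s')⁻¹ * d := by
      simp [hddef, mul_assoc]
    rw [e]
    exact hsU
  have hmk : (QuotientGroup.mk a * QuotientGroup.mk b * (QuotientGroup.mk a)⁻¹ *
      (QuotientGroup.mk b)⁻¹ : Γ ⧸ W) = QuotientGroup.mk s' := by
    have e : (QuotientGroup.mk a * QuotientGroup.mk b * (QuotientGroup.mk a)⁻¹ *
      (QuotientGroup.mk b)⁻¹ : Γ ⧸ W) = QuotientGroup.mk (a * b * a⁻¹ * b⁻¹) := rfl
    rw [e]
    exact (QuotientGroup.eq.mpr hW).symm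
  rw [hmk]
  have hle2 : PS (p ^ c) (⊤ : Subgroup Γ) ≤
      (PS (p ^ c) (⊤ : Subgroup (Γ ⧸ W))).comap (QuotientGroup.mk' W) := by
    unfold PS
    rw [Subgroup.closure_le]
    rintro z ⟨y, _, rfl⟩
    refine Subgroup.subset_closure ⟨QuotientGroup.mk' W y, Subgroup.mem_top _, ?_⟩
    rw [map_pow]
  exact hle2 hs'

omit [Fact p.Prime] [IsTopologicalGroup Γ] [CompactSpace Γ] in
theorem powQ_of_powQc (c : ℕ) (hc : eps p ≤ c) (Z : Subgroup Γ) (h : PowQc p c Z) :
    PowQ p Z := by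
  intro W hWn hWo hZW
  obtain ⟨h1, h2⟩ := h W hWo hZW
  refine ⟨h1, fun x hx g => ?_⟩
  have hle : PS (p ^ c) (⊤ : Subgroup (Γ ⧸ W)) ≤ PS (p ^ eps p) (⊤ : Subgroup (Γ ⧸ W)) := by
    unfold PS
    rw [Subgroup.closure_le]
    rintro z ⟨y, _, rfl⟩
    refine Subgroup.subset_closure ⟨y ^ (p ^ (c - eps p)), Subgroup.mem_top _, ?_⟩
    rw [← pow_mul, ← pow_add, Nat.sub_add_cancel hc]
  exact hle (h2 x hx g)

end Pool.Agent.Lib.MP_ca71b5_nt
end

section

/-!
# Fixed points of dimension at most two commute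
-/

set_option autoImplicit false

namespace Pool.Agent.Lib.MP_ca71b5_nt

variable {k : Type*} [Field k] [CharZero k] {L : Type*} [LieRing L] [LieAlgebra k L]
  [FiniteDimensional k L]

theorem solvable_of_finrank_le_two (h : Module.finrank k L ≤ 2) : LieAlgebra.IsSolvable L := by
  by_contra hs
  have hkill : LieAlgebra.IsKilling k (L ⧸ LieAlgebra.radical k L) := by
    have := quot_radical_trivial (k := k) (L := L)
    infer_instance
  have hnt : Nontrivial (L ⧸ LieAlgebra.radical k L) := by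
    by_contra hcon
    rw [not_nontrivial_iff_subsingleton] at hcon
    exact hs (solvable_of_quot_subsingleton (k := k) fun y => Subsingleton.elim _ _)
  have h3 := three_le_finrank (k := k) (L := L ⧸ LieAlgebra.radical k L)
  have h4 : Module.finrank k (L ⧸ LieAlgebra.radical k L) ≤ Module.finrank k L :=
    Submodule.finrank_quotient_le (LieAlgebra.radical k L).toSubmodule
  omega

/-- the fixed points as a Lie subalgebra -/
private def cpfFix (T : L ≃ₗ⁅k⁆ L) : LieSubalgebra k L :=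
  { fixS T with
    lie_mem' := by
      intro x y hx hy
      have hx' : T x = x := hx
      have hy' : T y = y := hy
      show T ⁅x, y⁆ = ⁅x, y⁆
      rw [LieEquiv.map_lie, hx', hy'] }

theorem fix_comm_of_le_two [LieAlgebra.IsKilling k L] (m : ℕ) (hm : 0 < m) (T : L ≃ₗ⁅k⁆ L)
    (hT : ∀ x, T^[m] x = x) (h2 : Module.finrank k (fixS T) ≤ 2) (x y : L) (hx : T x = x)
    (hy : T y = y) : ⁅x, y⁆ = 0 := by
  have h2' : Module.finrank k (cpfFix T) ≤ 2 := h2
  have hs : LieAlgebra.IsSolvable (cpfFix T) := solvable_of_finrank_le_two h2'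
  have hv : T ⁅x, y⁆ = ⁅x, y⁆ := by rw [LieEquiv.map_lie, hx, hy]
  have h3 : ∀ z : L, T z = z → killingForm k L ⁅x, y⁆ z = 0 := by
    intro z hz
    exact killing_solvable (cpfFix T) hs x y z hx hy hz
  have h5 : ∀ z : L, killingForm k L ⁅x, y⁆ z = 0 := by
    intro z
    have h6 : T (∑ i ∈ Finset.range m, T^[i] z) = ∑ i ∈ Finset.range m, T^[i] z := by
      rw [map_sum]
      have h7 : ∑ i ∈ Finset.range m, T (T^[i] z) = ∑ i ∈ Finset.range m, T^[i + 1] z :=
        Finset.sum_congr rfl fun i _ => by rw [Function.iterate_succ_apply']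
      rw [h7]
      have h8 := Finset.sum_range_succ (fun i => T^[i] z) m
      have h9 := Finset.sum_range_succ' (fun i => T^[i] z) m
      have h10 : ∑ i ∈ Finset.range m, T^[i + 1] z + T^[0] z =
          ∑ i ∈ Finset.range m, T^[i] z + T^[m] z := by rw [← h8, ← h9]
      rw [hT z] at h10
      exact add_right_cancel h10
    have h11 := h3 _ h6
    rw [map_sum, Finset.sum_congr rfl fun i _ => killing_iterate T ⁅x, y⁆ z hv i,
      Finset.sum_const, Finset.card_range, nsmul_eq_mul] at h11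
    rcases mul_eq_zero.mp h11 with h12 | h12
    · exact absurd (Nat.cast_eq_zero.mp h12) hm.ne'
    · exact h12
  have h6 : ⁅x, y⁆ ∈ LinearMap.ker (killingForm k L) := by
    rw [LinearMap.mem_ker]
    ext z
    exact h5 z
  rw [LieAlgebra.IsKilling.ker_killingForm_eq_bot] at h6
  exact h6

/-- iterates of an automorphism -/
theorem exists_iterate_equiv {k : Type*} [Field k] {L : Type*} [LieRing L] [LieAlgebra k L]
    (T : L ≃ₗ⁅k⁆ L) (n : ℕ) : ∃ U : L ≃ₗ⁅k⁆ L, ∀ x, U x = T^[n] x := by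
  induction n with
  | zero => exact ⟨LieEquiv.refl, fun x => rfl⟩
  | succ n ih =>
    obtain ⟨U, hU⟩ := ih
    refine ⟨U.trans T, fun x => ?_⟩
    rw [Function.iterate_succ_apply', ← hU]
    rfl

/-- the least period of an automorphism on a stable set -/
theorem exists_least_period {X : Type*} (f : X → X) (A : Set X) (hA : ∀ x ∈ A, f x ∈ A) (m : ℕ)
    (hm : 0 < m) (hf : ∀ x ∈ A, f^[m] x = x) (hne : ∃ x ∈ A, f x ≠ x) :
    ∃ l k : ℕ, l.Prime ∧ l ∣ m ∧ (∀ x ∈ A, f^[k * l] x = x) ∧ ∃ x ∈ A, f^[k] x ≠ x := by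
  classical
  have hex : ∃ n : ℕ, 0 < n ∧ ∀ x ∈ A, f^[n] x = x := ⟨m, hm, hf⟩
  obtain ⟨hn0, hn⟩ := Nat.find_spec hex
  set n := Nat.find hex with hnd
  have hAk : ∀ (k : ℕ), ∀ x ∈ A, f^[k] x ∈ A := by
    intro k
    induction k with
    | zero => intro x hx; exact hx
    | succ k ih =>
      intro x hx
      rw [Function.iterate_succ_apply']
      exact hA _ (ih x hx)
  have hmul : ∀ (q : ℕ), ∀ x ∈ A, f^[n * q] x = x := by
    intro q
    induction q with
    | zero => intro x _; rfl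
    | succ q ih =>
      intro x hx
      rw [Nat.mul_succ, Function.iterate_add_apply, hn x hx, ih x hx]
  have hdvd : n ∣ m := by
    by_contra hcon
    have h1 : 0 < m % n := by
      rcases Nat.eq_zero_or_pos (m % n) with h | h
      · exact absurd (Nat.dvd_of_mod_eq_zero h) hcon
      · exact h
    have h2 : ∀ x ∈ A, f^[m % n] x = x := by
      intro x hx
      have h3 := hf x hx
      rw [← Nat.mod_add_div m n, Function.iterate_add_apply, hmul _ x hx] at h3
      exact h3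
    exact Nat.find_min hex (Nat.mod_lt m hn0) ⟨h1, h2⟩
  have hn1 : n ≠ 1 := by
    intro h
    obtain ⟨x, hx, hx'⟩ := hne
    apply hx'
    have := hn x hx
    rw [h] at this
    exact this
  have hl := Nat.minFac_prime hn1
  obtain ⟨k, hk⟩ := Nat.minFac_dvd n
  have hk0 : 0 < k := by
    rcases Nat.eq_zero_or_pos k with h | h
    · rw [h, mul_zero] at hk
      omega
    · exact h
  refine ⟨n.minFac, k, hl, (Nat.minFac_dvd n).trans hdvd, ?_, ?_⟩
  · intro x hx
    rw [mul_comm, ← hk]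
    exact hn x hx
  · by_contra hcon
    push Not at hcon
    have hlt : k < n := by
      conv_rhs => rw [hk]
      have := hl.one_lt
      nlinarith
    exact Nat.find_min hex hlt ⟨hk0, hcon⟩

end Pool.Agent.Lib.MP_ca71b5_nt
end

section

/-!
# No p-adic characters on open subgroups
-/

set_option autoImplicit false
open scoped NumberField

namespace Pool.Agent.Lib.MP_ca71b5_nt

section key

variable (K : Type) [Field K] [NumberField K]

/-- restriction of the automorphisms over the fixed field of an open subgroup -/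
private noncomputable def c5θ (H : Subgroup (GK K)) (hH : IsOpen (H : Set (GK K))) :
    (AlgebraicClosure K ≃ₐ[IntermediateField.fixedField H] AlgebraicClosure K) →* H :=
  (AlgEquiv.restrictScalarsHom K).codRestrict H (fun σ =>
    ((fixedField_open K H hH).2.2 _).2 (fun x hx => σ.commutes ⟨x, hx⟩))

private theorem c5θ_apply (H : Subgroup (GK K)) (hH : IsOpen (H : Set (GK K)))
    (σ : AlgebraicClosure K ≃ₐ[IntermediateField.fixedField H] AlgebraicClosure K)
    (x : AlgebraicClosure K) : (c5θ K H hH σ : GK K) x = σ x := rfl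

private theorem c5θ_surj (H : Subgroup (GK K)) (hH : IsOpen (H : Set (GK K))) :
    Function.Surjective (c5θ K H hH) := by
  intro h
  refine ⟨AlgEquiv.ofRingEquiv (f := (h : GK K).toRingEquiv) (fun e => ?_), ?_⟩
  · exact ((fixedField_open K H hH).2.2 _).1 h.2 e e.2
  · apply Subtype.ext
    ext x
    rfl

private theorem c5_key (H : Subgroup (GK K)) (hH : IsOpen (H : Set (GK K))) {C : Type} [CommGroup C]
    [IsCyclic C] (χ : H →* C) (hχ : Function.Surjective χ)
    (hWo : IsOpen ((χ.ker.map H.subtype : Subgroup (GK K)) : Set (GK K)))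
    (hu : Algebra.Unramified (𝓞 K) (𝓞 (IntermediateField.fixedField (χ.ker.map H.subtype))))
    [NumberField (IntermediateField.fixedField H)] (B : ℕ)
    (hB : ∀ (E' : Type) [Field E'] [NumberField E'] [Algebra (IntermediateField.fixedField H) E']
      [IsGalois (IntermediateField.fixedField H) E']
      [IsCyclic (E' ≃ₐ[IntermediateField.fixedField H] E')],
      Algebra.Unramified (𝓞 (IntermediateField.fixedField H)) (𝓞 E') →
        Module.finrank (IntermediateField.fixedField H) E' ≤ B) : Nat.card C ≤ B := by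
  classical
  obtain ⟨hfinE, hrkE, hmemE⟩ := fixedField_open K H hH
  obtain ⟨hfinW, hrkW, hmemW⟩ := fixedField_open K _ hWo
  set W : Subgroup (GK K) := χ.ker.map H.subtype with hW
  have hWH : W ≤ H := Subgroup.map_subtype_le _
  have hle : IntermediateField.fixedField H ≤ IntermediateField.fixedField W := by
    intro x hx
    rw [IntermediateField.mem_fixedField_iff] at hx ⊢
    exact fun f hf => hx f (hWH hf)
  let E := IntermediateField.fixedField H
  let Ω := AlgebraicClosure K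
  have hgal : IsGalois E Ω := inferInstance
  let χ' : (Ω ≃ₐ[E] Ω) →* C := χ.comp (c5θ K H hH)
  have hχ' : Function.Surjective χ' := hχ.comp (c5θ_surj K H hH)
  let F' : IntermediateField E Ω := IntermediateField.extendScalars hle
  let eqv : IntermediateField.fixedField W ≃ₐ[K] F' :=
    { toFun := fun x => ⟨x.1, x.2⟩
      invFun := fun x => ⟨x.1, x.2⟩
      left_inv := fun _ => rfl
      right_inv := fun _ => rfl
      map_mul' := fun _ _ => rfl
      map_add' := fun _ _ => rfl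
      commutes' := fun _ => rfl }
  have hfK : Module.Finite K F' := Module.Finite.equiv eqv.toLinearEquiv
  have hfE : FiniteDimensional E F' := Module.Finite.of_restrictScalars_finite K E F'
  have hfix : F'.fixingSubgroup = χ'.ker := by
    ext σ
    rw [IntermediateField.mem_fixingSubgroup_iff, MonoidHom.mem_ker]
    have h1 : (∀ x ∈ F', σ x = x) ↔ ((c5θ K H hH σ : H) : GK K) ∈ W := by
      rw [hmemW]
      rfl
    rw [h1, hW]
    constructor
    · rintro ⟨g, hg, hgσ⟩
      have : g = c5θ K H hH σ := Subtype.ext hgσ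
      show χ (c5θ K H hH σ) = 1
      rw [← this]
      exact hg
    · intro hg
      exact ⟨c5θ K H hH σ, hg, rfl⟩
  have hopen : IsOpen ((χ'.ker : Subgroup (Ω ≃ₐ[E] Ω)) : Set (Ω ≃ₐ[E] Ω)) := by
    rw [← hfix]
    exact IntermediateField.fixingSubgroup_isOpen F'
  have hfF : IntermediateField.fixedField χ'.ker = F' := by
    rw [← hfix]
    exact InfiniteGalois.fixedField_fixingSubgroup F'
  obtain ⟨-, hrk, -⟩ := fixedField_open_gen χ'.ker hopen
  obtain ⟨hg, ⟨e⟩⟩ := fixedField_open_normal_gen χ'.ker hopen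
  rw [hfF] at hrk hg e
  have hidx : χ'.ker.index = Nat.card C := by
    rw [Subgroup.index_ker, MonoidHom.range_eq_top.2 hχ']
    exact Nat.card_congr (Equiv.Set.univ C)
  have e2 : ((Ω ≃ₐ[E] Ω) ⧸ χ'.ker) ≃* C := QuotientGroup.quotientKerEquivOfSurjective χ' hχ'
  have hcyc : IsCyclic (F' ≃ₐ[E] F') := (MulEquiv.isCyclic (e.trans e2)).2 inferInstance
  have hNF : NumberField F' := NumberField.of_module_finite K F'
  have hNW : NumberField (IntermediateField.fixedField W) := NumberField.of_module_finite K _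
  have hu1 : Algebra.Unramified (𝓞 K) (𝓞 F') :=
    Algebra.Unramified.of_equiv (NumberField.RingOfIntegers.mapAlgEquiv eqv)
  have hu2 : Algebra.Unramified (𝓞 E) (𝓞 F') :=
    { formallyUnramified := by
        have := hu1.formallyUnramified
        exact Algebra.FormallyUnramified.of_restrictScalars (𝓞 K) (𝓞 E) (𝓞 F')
      finiteType := by
        have := hu1.finiteType
        exact Algebra.FiniteType.of_restrictScalars_finiteType (𝓞 K) (𝓞 E) (𝓞 F') }
  have := hB F' hu2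
  rwa [hrk, hidx] at this

end key

variable {p : ℕ} [Fact p.Prime] (K : Type) [Field K] [NumberField K]

theorem fAb_of_unrPro {n : ℕ} (ρ : GK K →* Matrix.GeneralLinearGroup (Fin n) ℤ_[p])
    (hρ : Continuous ρ) (h : UnrPro p K ρ) : FAb p ρ.ker := by
  intro H hH hker ψ hψc hψa hψk
  by_contra hcon
  push Not at hcon
  obtain ⟨a0, ha0⟩ := hcon
  have hHc : IsCompact (H : Set (GK K)) := (Subgroup.isClosed_of_isOpen H hH).isCompact
  have : CompactSpace H := isCompact_iff_compactSpace.1 hHc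
  obtain ⟨a1, -, ha1⟩ := (isCompact_univ (X := H)).exists_isMaxOn Set.univ_nonempty
    (f := fun a : H => ‖ψ a‖) hψc.norm.continuousOn
  have hmax : ∀ a : H, ‖ψ a‖ ≤ ‖ψ a1‖ := fun a => ha1 (Set.mem_univ a)
  have h1 : ψ a1 ≠ 0 := by
    intro h0
    have := hmax a0
    rw [h0, norm_zero] at this
    exact ha0 (norm_le_zero_iff.1 this)
  have h1n : 0 < ‖ψ a1‖ := norm_pos_iff.2 h1
  have hle1 : ∀ a : H, ‖(ψ a1)⁻¹ * ψ a‖ ≤ 1 := by
    intro a
    rw [norm_mul, norm_inv, inv_mul_le_iff₀ h1n, mul_one]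
    exact hmax a
  -- the integral character
  let φ : H → ℤ_[p] := fun a => ⟨(ψ a1)⁻¹ * ψ a, hle1 a⟩
  have hφa : ∀ a b : H, φ (a * b) = φ a + φ b := by
    intro a b
    apply Subtype.ext
    show (ψ a1)⁻¹ * ψ (a * b) = (ψ a1)⁻¹ * ψ a + (ψ a1)⁻¹ * ψ b
    rw [hψa, mul_add]
  have hφc : Continuous φ := by
    refine Continuous.subtype_mk ?_ _
    exact continuous_const.mul hψc
  have hφ1 : φ a1 = 1 := by
    apply Subtype.ext
    show (ψ a1)⁻¹ * ψ a1 = 1
    exact inv_mul_cancel₀ h1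
  have hφ0 : φ 1 = 0 := by
    have := hφa 1 1
    rw [mul_one] at this
    exact left_eq_add.1 this
  let χ : ∀ m : ℕ, H →* Multiplicative (ZMod (p ^ m)) := fun m =>
    { toFun := fun a => Multiplicative.ofAdd (PadicInt.toZModPow m (φ a))
      map_one' := by rw [hφ0, map_zero]; rfl
      map_mul' := fun a b => by rw [hφa, map_add]; rfl }
  have hpow : ∀ (a : H) (k : ℕ), φ (a ^ k) = k * φ a := by
    intro a k
    induction k with
    | zero => rw [pow_zero, hφ0]; simp
    | succ k ih => rw [pow_succ, hφa, ih]; push_cast; ring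
  have hχs : ∀ m, Function.Surjective (χ m) := by
    intro m z
    have hne : NeZero (p ^ m) := ⟨pow_ne_zero _ (Fact.out : p.Prime).ne_zero⟩
    refine ⟨a1 ^ (Multiplicative.toAdd z).val, ?_⟩
    show Multiplicative.ofAdd (PadicInt.toZModPow m (φ (a1 ^ (Multiplicative.toAdd z).val))) = z
    rw [hpow, hφ1, mul_one, map_natCast, ZMod.natCast_zmod_val]
    rfl
  have hopen : ∀ m, IsOpen (((χ m).ker.map H.subtype : Subgroup (GK K)) : Set (GK K)) := by
    intro m
    rw [Subgroup.coe_map]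
    have hemb : IsOpenMap (H.subtype : H → GK K) := hH.isOpenMap_subtype_val
    refine hemb _ ?_
    have hset : (((χ m).ker : Subgroup H) : Set H) =
        φ ⁻¹' (Metric.closedBall 0 ((p : ℝ) ^ (-m : ℤ))) := by
      ext a
      rw [SetLike.mem_coe, MonoidHom.mem_ker, Set.mem_preimage, mem_closedBall_zero_iff,
        PadicInt.norm_le_pow_iff_mem_span_pow, ← PadicInt.ker_toZModPow, RingHom.mem_ker]
      rfl
    rw [hset]
    refine (IsUltrametricDist.isOpen_closedBall _ ?_).preimage hφc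
    have : (0:ℝ) < p := by exact_mod_cast (Fact.out : p.Prime).pos
    positivity
  have hkerW : ∀ m, ρ.ker ≤ (χ m).ker.map H.subtype := by
    intro m g hg
    refine ⟨⟨g, hker hg⟩, ?_, rfl⟩
    rw [SetLike.mem_coe, MonoidHom.mem_ker]
    have h2 : φ ⟨g, hker hg⟩ = 0 := by
      apply Subtype.ext
      show (ψ a1)⁻¹ * ψ ⟨g, hker hg⟩ = 0
      rw [hψk ⟨g, hker hg⟩ hg, mul_zero]
    show Multiplicative.ofAdd (PadicInt.toZModPow m (φ ⟨g, hker hg⟩)) = 1
    rw [h2, map_zero]
    rfl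
  obtain ⟨hfinE, -, -⟩ := fixedField_open K H hH
  have hNE : NumberField (IntermediateField.fixedField H) := NumberField.of_module_finite K _
  obtain ⟨B, hB⟩ := cyclic_bound (IntermediateField.fixedField H)
  have hall : ∀ m : ℕ, p ^ m ≤ B := by
    intro m
    obtain ⟨hfinW, -, -⟩ := fixedField_open K _ (hopen m)
    have hu := (h (IntermediateField.fixedField ((χ m).ker.map H.subtype)) (by
      intro x hx
      rw [IntermediateField.mem_fixedField_iff] at hx ⊢
      exact fun f hf => hx f (hkerW m hf)) hfinW).2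
    have := c5_key K H hH (χ m) (hχs m) (hopen m) hu B (fun E' _ _ _ _ _ hE' => hB E' hE')
    have hc : Nat.card (Multiplicative (ZMod (p ^ m))) = p ^ m := by
      rw [Nat.card_congr Multiplicative.toAdd, Nat.card_zmod]
    rwa [hc] at this
  have h3 := hall B
  have h4 : B < p ^ B := Nat.lt_pow_self (Fact.out : p.Prime).one_lt
  omega

end Pool.Agent.Lib.MP_ca71b5_nt
end

section

/-!
# An automorphism whose l-th power is in the kernel
-/

set_option autoImplicit false
open scoped NumberField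

namespace Pool.Agent.Lib.MP_ca71b5_nt

variable {p : ℕ} [Fact p.Prime] {F K : Type} [Field F] [NumberField F] [Field K] [NumberField K]
  [Algebra F K] [IsGalois F K]

/-- evaluation at a point is locally constant for the Krull topology -/
theorem krull_eval {k L : Type*} [Field k] [Field L] [Algebra k L] [Algebra.IsIntegral k L]
    (g : L ≃ₐ[k] L) (x : L) : ∀ᶠ h in nhds g, h x = g x := by
  have h1 : IsOpen (MulAction.stabilizer (L ≃ₐ[k] L) x : Set (L ≃ₐ[k] L)) :=
    stabilizer_isOpen_of_isIntegral x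
  have h2 : IsOpen ((fun h : L ≃ₐ[k] L => g⁻¹ * h) ⁻¹'
      (MulAction.stabilizer (L ≃ₐ[k] L) x : Set (L ≃ₐ[k] L))) :=
    h1.preimage (continuous_mul_left g⁻¹)
  have h3 : g ∈ ((fun h : L ≃ₐ[k] L => g⁻¹ * h) ⁻¹'
      (MulAction.stabilizer (L ≃ₐ[k] L) x : Set (L ≃ₐ[k] L))) := by
    simp
  filter_upwards [h2.mem_nhds h3] with h hh
  have h4 : g⁻¹ (h x) = x := hh
  have h5 : g (g⁻¹ (h x)) = g x := by rw [h4]
  rw [← AlgEquiv.mul_apply, mul_inv_cancel, AlgEquiv.one_apply] at h5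
  exact h5

theorem exists_tau (l : ℕ) [Fact l.Prime] (hpl : p ≠ l) (hl : Module.finrank F K = l)
    {n : ℕ} (ρ : GK K →* Matrix.GeneralLinearGroup (Fin n) ℤ_[p]) (hρ : Continuous ρ)
    (h : ProP p ρ.ker) :
    ∃ τ : GF F K,
      (∃ a : K, τ (algebraMap K (AlgebraicClosure K) a) ≠
        algebraMap K (AlgebraicClosure K) a) ∧
      ∃ t : GK K, toGF F K t = τ ^ l ∧ ρ t = 1 := by
  have hpp : p.Prime := Fact.out
  have hlp : l.Prime := Fact.out
  -- an automorphism of `K`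
  have hcard : Nat.card (K ≃ₐ[F] K) = l := by rw [IsGalois.card_aut_eq_finrank, hl]
  have hnt : Nontrivial (K ≃ₐ[F] K) := by
    rw [← Finite.one_lt_card_iff_nontrivial, hcard]
    exact hlp.one_lt
  obtain ⟨σ, hσ⟩ := exists_ne (1 : K ≃ₐ[F] K)
  obtain ⟨a, ha⟩ : ∃ a : K, σ a ≠ a := by
    by_contra hcon
    push Not at hcon
    exact hσ (AlgEquiv.ext hcon)
  have hσl : σ ^ l = 1 := by
    rw [← hcard]
    exact pow_card_eq_one'
  -- its lift
  let τ₀ : GF F K := σ.liftNormal (AlgebraicClosure K)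
  have hτ₀ : ∀ (m : ℕ) (x : K), (τ₀ ^ m) (algebraMap K (AlgebraicClosure K) x) =
      algebraMap K (AlgebraicClosure K) ((σ ^ m) x) := by
    intro m
    induction m with
    | zero => intro x; simp
    | succ m ih =>
      intro x
      rw [pow_succ, AlgEquiv.mul_apply, pow_succ, AlgEquiv.mul_apply]
      have h1 : τ₀ (algebraMap K (AlgebraicClosure K) x) =
          algebraMap K (AlgebraicClosure K) (σ x) := AlgEquiv.liftNormal_commutes σ _ x
      rw [h1, ih]
  -- the element t₀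
  let t₀ : GK K := AlgEquiv.ofRingEquiv (f := (τ₀ ^ l).toRingEquiv) (by
    intro x
    have := hτ₀ l x
    rw [hσl] at this
    exact this)
  have ht₀ : toGF F K t₀ = τ₀ ^ l := by
    ext x
    rfl
  -- exponents
  let e : ℕ → ℕ := fun j => p ^ ((l - 1) * j)
  have he : ∀ j, e j ≡ 1 [MOD l] := by
    intro j
    have hcop : Nat.Coprime p l := (Nat.coprime_primes hpp hlp).mpr hpl
    have h1 := Nat.ModEq.pow_totient hcop
    rw [Nat.totient_prime hlp] at h1
    have h2 := h1.pow j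
    rw [← pow_mul, one_pow] at h2
    exact h2
  have hσe : ∀ j, σ ^ (e j) = σ := by
    intro j
    have h1 : σ ^ (e j) = σ ^ (1 : ℕ) := by
      rw [pow_eq_pow_iff_modEq]
      exact (he j).of_dvd (orderOf_dvd_of_pow_eq_one hσl)
    rw [h1, pow_one]
  -- limits along an ultrafilter
  let U : Ultrafilter ℕ := Filter.hyperfilter ℕ
  have hU : ∀ N : ℕ, ∀ᶠ j in (U : Filter ℕ), N ≤ j := by
    intro N
    have h1 : (U : Filter ℕ) ≤ Filter.atTop := by
      rw [← Nat.cofinite_eq_atTop]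
      exact Filter.hyperfilter_le_cofinite
    exact h1 (Filter.eventually_ge_atTop N)
  obtain ⟨τ, -, hτ⟩ := isCompact_univ.ultrafilter_le_nhds (U.map fun j => τ₀ ^ (e j))
    (by simp)
  obtain ⟨t, -, ht⟩ := isCompact_univ.ultrafilter_le_nhds (U.map fun j => t₀ ^ (e j))
    (by simp)
  have hτ' : Filter.Tendsto (fun j => τ₀ ^ (e j)) (U : Filter ℕ) (nhds τ) := hτ
  have ht' : Filter.Tendsto (fun j => t₀ ^ (e j)) (U : Filter ℕ) (nhds t) := ht
  refine ⟨τ, ⟨a, ?_⟩, t, ?_, ?_⟩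
  · have h1 := hτ'.eventually (krull_eval τ (algebraMap K (AlgebraicClosure K) a))
    obtain ⟨j, hj⟩ := h1.exists
    rw [← hj, hτ₀, hσe]
    intro hcon
    exact ha ((algebraMap K (AlgebraicClosure K)).injective hcon)
  · ext x
    have h1 := ht'.eventually (krull_eval t x)
    have h2 : Filter.Tendsto (fun j => (τ₀ ^ (e j)) ^ l) (U : Filter ℕ) (nhds (τ ^ l)) :=
      hτ'.pow l
    have h3 := h2.eventually (krull_eval (τ ^ l) x)
    obtain ⟨j, hj1, hj3⟩ := (h1.and h3).exists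
    rw [← hj3, toGF_apply, ← hj1, ← pow_mul, mul_comm, pow_mul, ← ht₀, ← map_pow]
    rfl
  · apply gm_injective
    rw [gm_one, ← sub_eq_zero]
    apply eq_zero_of_small
    intro s
    obtain ⟨W, hWn, hWo, hWk, hW⟩ := exists_open_reduction ρ hρ s
    rw [← hW]
    obtain ⟨b, hb⟩ := h W hWn hWo hWk
    have hcl : IsClosed (W : Set (GK K)) := W.isClosed_of_isOpen hWo
    refine hcl.mem_of_tendsto ht' ?_
    filter_upwards [hU b] with j hj
    have h1 : t₀ ^ (p ^ b) ∈ W := by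
      rw [← hb]
      exact W.pow_index_mem t₀
    have h2 : p ^ b ∣ e j := by
      apply pow_dvd_pow
      have h3 : 1 ≤ l - 1 := by
        have := hlp.two_le
        omega
      calc b ≤ j := hj
        _ = 1 * j := (one_mul j).symm
        _ ≤ (l - 1) * j := Nat.mul_le_mul_right j h3
    obtain ⟨c, hc⟩ := h2
    change t₀ ^ (e j) ∈ W
    rw [hc, pow_mul]
    exact W.pow_mem h1 c

end Pool.Agent.Lib.MP_ca71b5_nt
end

section

/-!
# Finiteness of the adjoint image implies solvability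
-/

set_option autoImplicit false

namespace Pool.Agent.Lib.MP_ca71b5_nt

variable {p : ℕ} [Fact p.Prime] {ι : Type} [Fintype ι] [DecidableEq ι]
  {Γ : Type} [Group Γ] [TopologicalSpace Γ] [IsTopologicalGroup Γ] [CompactSpace Γ]


attribute [local instance 100] LieRing.ofAssociativeRing

/-- the radical of a Lie algebra of matrices, as a space of matrices -/
private noncomputable def G7R (L : LieSubalgebra ℚ_[p] (MQ p ι)) : Submodule ℚ_[p] (MQ p ι) :=
  ((LieAlgebra.radical ℚ_[p] L).toSubmodule).map L.toSubmodule.subtype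

omit [Fact p.Prime] in
private theorem G7R_mem [Fact p.Prime] (L : LieSubalgebra ℚ_[p] (MQ p ι)) (y : MQ p ι) :
    y ∈ G7R L ↔ ∃ h : y ∈ L, (⟨y, h⟩ : L) ∈ LieAlgebra.radical ℚ_[p] L := by
  unfold G7R
  constructor
  · rintro ⟨z, hz, rfl⟩
    exact ⟨z.2, hz⟩
  · rintro ⟨h, hy⟩
    exact ⟨⟨y, h⟩, hy, rfl⟩

/-- solvability from brackets in the radical -/
private theorem G7_solv {L : Type} [LieRing L] [LieAlgebra ℚ_[p] L] [IsNoetherian ℚ_[p] L]
    (h : ∀ x y : L, ⁅x, y⁆ ∈ LieAlgebra.radical ℚ_[p] L) : LieAlgebra.IsSolvable L := by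
  obtain ⟨k, hk⟩ := LieAlgebra.IsSolvable.solvable ℚ_[p] (LieAlgebra.radical ℚ_[p] L)
  rw [LieIdeal.derivedSeries_eq_bot_iff] at hk
  refine LieAlgebra.IsSolvable.mk (R := ℚ_[p]) (k := k + 1) ?_
  rw [LieAlgebra.derivedSeries_def, LieAlgebra.derivedSeriesOfIdeal_add, eq_bot_iff, ← hk]
  apply LieAlgebra.derivedSeriesOfIdeal_mono
  rw [LieAlgebra.derivedSeriesOfIdeal_succ, LieAlgebra.derivedSeriesOfIdeal_zero,
    LieSubmodule.lie_le_iff]
  intro x _ y _
  exact h x y

/-- if a subgroup of finite index acts trivially modulo the radical, the Lie algebra is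
solvable -/
theorem solvable_of_finite_ad (ρ : Γ →* GLZ p ι) (N : ℕ) (hN : ∀ g : Γ, Deep 2 N (ρ g)) (M : ℕ)
    (hM : 0 < M)
    (h : ∀ (g : Γ) (x y : gg ρ), (y : MQ p ι) = gm (ρ g) ^ M * x * gm (ρ g)⁻¹ ^ M →
      y - x ∈ LieAlgebra.radical ℚ_[p] (gg ρ)) : LieAlgebra.IsSolvable (gg ρ) := by
  have hgg : ∀ x : MQ p ι, x ∈ gg ρ ↔ x ∈ logSpan ρ := by
    intro x
    rw [← gg_eq_logSpan ρ N hN]
    rfl
  set R' : Submodule ℚ_[p] (MQ p ι) := G7R (gg ρ) with hR'
  have hRclosed : IsClosed (R' : Set (MQ p ι)) := Submodule.closed_of_finiteDimensional _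
  have cg : ∀ a : Γ, ∀ x ∈ gg ρ, gm (ρ a) * x * gm (ρ a)⁻¹ ∈ gg ρ := fun a x hx =>
    (hgg _).mpr (conj_mem_logSpan ρ N hN a x ((hgg x).mp hx))
  have hinvpow : ∀ (g : GLZ p ι) (k : ℕ), gm g⁻¹ ^ k = gm (g ^ k)⁻¹ := by
    intro g k
    rw [← gm_pow, inv_pow]
  -- the conjugation by the `M`-th powers
  have cM : ∀ a : Γ, ∀ x ∈ gg ρ, gm (ρ (a ^ M)) * x * gm (ρ (a ^ M))⁻¹ - x ∈ R' := by
    intro a x hx
    have h0 : gm (ρ (a ^ M)) * x * gm (ρ (a ^ M))⁻¹ ∈ gg ρ := cg (a ^ M) x hx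
    have h1 := h a ⟨x, hx⟩ ⟨_, h0⟩ (by
      show gm (ρ (a ^ M)) * x * gm (ρ (a ^ M))⁻¹ = gm (ρ a) ^ M * x * gm (ρ a)⁻¹ ^ M
      rw [hinvpow, map_pow, gm_pow])
    rw [hR', G7R_mem]
    refine ⟨(gg ρ).sub_mem h0 hx, ?_⟩
    exact h1
  -- the bracket with a logarithm is in the radical
  have hbr : ∀ a : Γ, ∀ x ∈ gg ρ, ell (ρ a) * x - x * ell (ρ a) ∈ R' := by
    intro a x hx
    set b : Γ := a ^ M with hb
    have hlim := conj_tendsto (ρ b) N (hN b) x
    have hmem : ell (ρ b) * x - x * ell (ρ b) ∈ (R' : Set (MQ p ι)) := by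
      refine hRclosed.mem_of_tendsto hlim (Filter.Eventually.of_forall fun m => ?_)
      refine R'.smul_mem _ ?_
      have h2 := cM (a ^ (p ^ m)) x hx
      rw [← pow_mul, mul_comm (p ^ m) M, pow_mul, ← hb] at h2
      rw [map_pow, gm_pow, ← inv_pow, gm_pow] at h2
      exact h2
    have hell : ell (ρ b) = (M : ℚ_[p]) • ell (ρ a) := by
      rw [hb, map_pow]
      exact ell_pow (ρ a) N (hN a) _
    rw [hell, smul_mul_assoc, mul_smul_comm, ← smul_sub] at hmem
    have hne : (M : ℚ_[p]) ≠ 0 := by exact_mod_cast hM.ne'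
    have h3 := R'.smul_mem ((M : ℚ_[p])⁻¹) hmem
    rw [inv_smul_smul₀ hne] at h3
    exact h3
  have hall : ∀ y ∈ logSpan ρ, ∀ x ∈ gg ρ, y * x - x * y ∈ R' := by
    intro y hy x hx
    unfold logSpan at hy
    induction hy using Submodule.span_induction with
    | mem y hy =>
      obtain ⟨a, rfl⟩ := hy
      exact hbr a x hx
    | zero => simp
    | add c d _ _ hc hd =>
      have e : (c + d) * x - x * (c + d) = (c * x - x * c) + (d * x - x * d) := by noncomm_ring
      rw [e]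
      exact R'.add_mem hc hd
    | smul t c _ hc =>
      have e : (t • c) * x - x * (t • c) = t • (c * x - x * c) := by
        rw [smul_mul_assoc, mul_smul_comm, smul_sub]
      rw [e]
      exact R'.smul_mem _ hc
  apply G7_solv (p := p)
  intro x y
  have h1 := hall x ((hgg _).mp x.2) y y.2
  rw [hR', G7R_mem] at h1
  obtain ⟨h2, h3⟩ := h1
  exact h3

end Pool.Agent.Lib.MP_ca71b5_nt
end

section

/-!
# Bounded quotients with trivial action from the tower

Proof of `towerF_cyclic`. Let `m = finrank F K` and take `B` from `bounded_of_tower ρ hρ h hT`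
(TG.lean). Let `W` be a normal open subgroup of `GK K` with `ρ.ker ≤ W` and
`conjK τ a * a⁻¹ ∈ W` for all `a`. Let `W' = W.map (toGF F K)`: it is normal in `GF F K` (conjugate
by `τ` and by `toGF g`, see the private lemma `map_normal` in `AN.lean`, copy it), open
(`toGF_isOpenMap`). Let `V = {x | ∃ k w, w ∈ W ∧ x = τ ^ k * toGF w}` (`k : ℕ`), equivalently
`V = zpowers τ ⊔ W'`. `V` is a subgroup, open, and normal: `toGF g * τ * (toGF g)⁻¹ ∈ τ W'` by
`toGF_conjK` and `hτW`. For `g : GK K`, `toGF g ∈ V ↔ g ∈ W`: if `toGF g = τ ^ k * toGF w` then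
`τ ^ k ∈ range toGF`; write `τ ^ k = toGF u`; the index of the range is `m` (`toGF_index`) and by
`hτ` the quotient is cyclic of order `m` generated by `τ`, so `m ∣ k` and
`τ ^ k = toGF (t ^ (k / m)) ∈ toGF (ρ.ker) ≤ W'`; use `toGF_injective`. Hence
`V.index = W.index` (the map `GK K ⧸ W → GF F K ⧸ V` is bijective, surjective by `hτ` and
normality), it is a power of `p` (`proP_of_unrPro`). If `h : GF F K` is `Good (toGF F K) ρ.ker h`,
then `h ^ m ∈ range toGF` (`Subgroup.pow_index_mem`), so `h ^ m ∈ toGF ρ.ker ≤ V`; as `p` does not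
divide `m` and the order of `GF F K ⧸ V` is a power of `p`, `h ∈ V` (`G6a_coprime`). So
`V.index ≤ B`, i.e. `W.index ≤ B`.
-/

set_option autoImplicit false
open scoped NumberField

namespace Pool.Agent.Lib.MP_ca71b5_nt

variable {p : ℕ} [Fact p.Prime] {F K : Type} [Field F] [NumberField F] [Field K] [NumberField K]
  [Algebra F K] [IsGalois F K]

omit [Fact p.Prime] in
private theorem cp4_map_normal (τ : GF F K)
    (hτ : ∀ σ : GF F K, ∃ (k : ℕ) (g : GK K), σ = τ ^ k * toGF F K g)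
    (W : Subgroup (GK K)) (hWn : W.Normal)
    (hconj : ∀ a : GK K, conjK τ a * a⁻¹ ∈ W) : (W.map (toGF F K)).Normal := by
  have hstep : ∀ w ∈ W, τ * toGF F K w * τ⁻¹ ∈ W.map (toGF F K) := by
    intro w hw
    rw [← toGF_conjK]
    refine Subgroup.mem_map_of_mem _ ?_
    have h := W.mul_mem (hconj w) hw
    rwa [inv_mul_cancel_right] at h
  have hpow : ∀ (k : ℕ), ∀ w ∈ W, τ ^ k * toGF F K w * (τ ^ k)⁻¹ ∈ W.map (toGF F K) := by
    intro k
    induction k with
    | zero =>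
      intro w hw
      rw [pow_zero, one_mul, inv_one, mul_one]
      exact Subgroup.mem_map_of_mem _ hw
    | succ k ih =>
      intro w hw
      obtain ⟨w', hw', he⟩ := ih w hw
      have h := hstep w' hw'
      have e : τ ^ (k + 1) * toGF F K w * (τ ^ (k + 1))⁻¹ =
          τ * (τ ^ k * toGF F K w * (τ ^ k)⁻¹) * τ⁻¹ := by
        rw [pow_succ']
        group
      rw [e, ← he]
      exact h
  constructor
  rintro _ ⟨w, hw, rfl⟩ x
  obtain ⟨k, g, rfl⟩ := hτ x
  have e : τ ^ k * toGF F K g * toGF F K w * (τ ^ k * toGF F K g)⁻¹ =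
      τ ^ k * toGF F K (g * w * g⁻¹) * (τ ^ k)⁻¹ := by
    rw [map_mul, map_mul, map_inv]
    group
  rw [e]
  exact hpow k _ (hWn.conj_mem w hw g)

omit [Fact p.Prime] in
/-- the generator is central modulo the image of `W` -/
private theorem cp4_central (τ : GF F K)
    (hτ : ∀ σ : GF F K, ∃ (k : ℕ) (g : GK K), σ = τ ^ k * toGF F K g)
    (W : Subgroup (GK K)) [hN : (W.map (toGF F K)).Normal]
    (hconj : ∀ a : GK K, conjK τ a * a⁻¹ ∈ W) (x : GF F K ⧸ W.map (toGF F K)) :
    Commute ((τ : GF F K) : GF F K ⧸ W.map (toGF F K)) x := by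
  obtain ⟨x, rfl⟩ := QuotientGroup.mk_surjective x
  obtain ⟨k, a, rfl⟩ := hτ x
  have hta : Commute ((τ : GF F K) : GF F K ⧸ W.map (toGF F K))
      ((toGF F K a : GF F K) : GF F K ⧸ W.map (toGF F K)) := by
    have h := Subgroup.mem_map_of_mem (toGF F K) (hconj a)
    rw [← QuotientGroup.eq_one_iff, map_mul, map_inv, toGF_conjK] at h
    simp only [QuotientGroup.mk_mul, QuotientGroup.mk_inv] at h
    rw [mul_inv_eq_one, mul_inv_eq_iff_eq_mul] at h
    exact h
  rw [QuotientGroup.mk_mul, QuotientGroup.mk_pow]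
  exact ((Commute.refl _).pow_right k).mul_right hta

omit [Fact p.Prime] in
/-- powers of the generator in the image of the small Galois group -/
private theorem cp4_dvd (τ : GF F K)
    (hτ : ∀ σ : GF F K, ∃ (k : ℕ) (g : GK K), σ = τ ^ k * toGF F K g) (k : ℤ)
    (hk : τ ^ k ∈ (toGF F K).range) : ((Module.finrank F K : ℕ) : ℤ) ∣ k := by
  have hn : (toGF F K).range.Normal := toGF_range_normal
  have htop : Subgroup.zpowers ((τ : GF F K) : GF F K ⧸ (toGF F K).range) = ⊤ := by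
    rw [eq_top_iff]
    intro x _
    obtain ⟨x, rfl⟩ := QuotientGroup.mk_surjective x
    obtain ⟨i, g, rfl⟩ := hτ x
    have hg1 : ((toGF F K g : GF F K) : GF F K ⧸ (toGF F K).range) = 1 :=
      (QuotientGroup.eq_one_iff (toGF F K g)).2 (MonoidHom.mem_range.2 ⟨g, rfl⟩)
    rw [QuotientGroup.mk_mul, QuotientGroup.mk_pow, hg1, mul_one]
    exact Subgroup.npow_mem_zpowers _ _
  have hord : orderOf ((τ : GF F K) : GF F K ⧸ (toGF F K).range) = Module.finrank F K := by
    rw [← Nat.card_zpowers, htop, Subgroup.card_top, ← toGF_index (F := F) (K := K)]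
    rfl
  rw [← hord]
  rw [orderOf_dvd_iff_zpow_eq_one, ← QuotientGroup.mk_zpow]
  exact (QuotientGroup.eq_one_iff _).2 hk

theorem towerF_cyclic (hpm : ¬ p ∣ Module.finrank F K)
    {n : ℕ} (ρ : GK K →* Matrix.GeneralLinearGroup (Fin n) ℤ_[p]) (hρ : Continuous ρ)
    (h : UnrPro p K ρ) (τ : GF F K)
    (hτ : ∀ σ : GF F K, ∃ (k : ℕ) (g : GK K), σ = τ ^ k * toGF F K g)
    (ht : ∃ t : GK K, toGF F K t = τ ^ (Module.finrank F K) ∧ ρ t = 1) (hT : FiniteTower p F) :
    TowerF ρ.ker (conjK τ) := by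
  have hp : p.Prime := Fact.out
  obtain ⟨B, hB⟩ := bounded_of_tower ρ hρ h hT
  obtain ⟨t, ht1, ht2⟩ := ht
  refine ⟨B, fun W hWn hWo hker hconj => ?_⟩
  have hN : (W.map (toGF F K)).Normal := cp4_map_normal τ hτ W hWn hconj
  have hc := cp4_central τ hτ W hconj
  let tb : GF F K ⧸ W.map (toGF F K) := ((τ : GF F K) : GF F K ⧸ W.map (toGF F K))
  let V : Subgroup (GF F K) := (Subgroup.zpowers tb).comap (QuotientGroup.mk' (W.map (toGF F K)))
  have hV : ∀ x : GF F K, x ∈ V ↔ ∃ k : ℤ, τ ^ k * x ∈ W.map (toGF F K) := by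
    intro x
    change QuotientGroup.mk' (W.map (toGF F K)) x ∈ Subgroup.zpowers tb ↔ _
    rw [Subgroup.mem_zpowers_iff]
    constructor
    · rintro ⟨k, hk⟩
      refine ⟨-k, ?_⟩
      rw [← QuotientGroup.eq_one_iff, QuotientGroup.mk_mul, QuotientGroup.mk_zpow]
      change tb ^ (-k) * QuotientGroup.mk' (W.map (toGF F K)) x = 1
      rw [← hk, ← zpow_add, neg_add_cancel, zpow_zero]
    · rintro ⟨k, hk⟩
      refine ⟨-k, ?_⟩
      rw [← QuotientGroup.eq_one_iff, QuotientGroup.mk_mul, QuotientGroup.mk_zpow] at hk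
      rw [zpow_neg, inv_eq_iff_mul_eq_one]
      exact hk
  have hWV : W.map (toGF F K) ≤ V := by
    intro x hx
    rw [hV]
    exact ⟨0, by rwa [zpow_zero, one_mul]⟩
  have hτV : τ ∈ V := by
    rw [hV]
    refine ⟨-1, ?_⟩
    rw [zpow_neg, zpow_one, inv_mul_cancel]
    exact Subgroup.one_mem _
  have hVn : V.Normal := by
    have hz : (Subgroup.zpowers tb).Normal := by
      constructor
      intro x hx y
      obtain ⟨k, rfl⟩ := Subgroup.mem_zpowers_iff.1 hx
      have h1 : Commute y (tb ^ k) := ((hc y).zpow_left k).symm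
      rw [h1.eq, mul_inv_cancel_right]
      exact hx
    exact hz.comap _
  have hWo' : IsOpen ((W.map (toGF F K) : Subgroup (GF F K)) : Set (GF F K)) := by
    rw [Subgroup.coe_map]
    exact toGF_isOpenMap _ hWo
  have hVo : IsOpen (V : Set (GF F K)) := Subgroup.isOpen_mono hWV hWo'
  have hgW : ∀ g : GK K, toGF F K g ∈ V → g ∈ W := by
    intro g hg
    rw [hV] at hg
    obtain ⟨k, w, hw, hwe⟩ := hg
    have hr : τ ^ k ∈ (toGF F K).range := by
      refine ⟨w * g⁻¹, ?_⟩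
      rw [map_mul, map_inv, hwe, mul_inv_cancel_right]
    obtain ⟨i, hi⟩ := cp4_dvd τ hτ k hr
    have h1 : τ ^ k = toGF F K (t ^ i) := by
      rw [map_zpow, ht1, hi, zpow_mul, zpow_natCast]
    rw [h1, ← map_mul] at hwe
    have h2 := toGF_injective F K hwe
    rw [h2] at hw
    have h3 : t ^ i ∈ W := W.zpow_mem (hker ht2) i
    exact (W.mul_mem_cancel_left h3).1 hw
  have hidx : W.index = V.index := by
    let φ : GK K →* GF F K ⧸ V := (QuotientGroup.mk' V).comp (toGF F K)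
    have hφs : Function.Surjective φ := by
      intro x
      obtain ⟨x, rfl⟩ := QuotientGroup.mk_surjective x
      obtain ⟨k, g, rfl⟩ := hτ x
      refine ⟨g, ?_⟩
      change ((toGF F K g : GF F K) : GF F K ⧸ V) = _
      rw [QuotientGroup.mk_mul, (QuotientGroup.eq_one_iff (τ ^ k)).2 (V.pow_mem hτV k), one_mul]
    have hφk : φ.ker = W := by
      ext g
      rw [MonoidHom.mem_ker]
      change ((toGF F K g : GF F K) : GF F K ⧸ V) = 1 ↔ _
      rw [QuotientGroup.eq_one_iff]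
      exact ⟨hgW g, fun hg => hWV (Subgroup.mem_map_of_mem _ hg)⟩
    rw [← hφk, Subgroup.index_ker, MonoidHom.range_eq_top.2 hφs, Subgroup.card_top]
    rfl
  obtain ⟨k, hk⟩ := proP_of_unrPro K ρ h W hWn hWo hker
  rw [hidx]
  apply hB V hVn hVo
  · intro g hg
    exact hWV (Subgroup.mem_map_of_mem _ (hker hg))
  · intro x hx
    have hnr : (toGF F K).range.Normal := toGF_range_normal
    have h1 := Subgroup.pow_index_mem (toGF F K).range x
    rw [toGF_index] at h1
    obtain ⟨g, hg⟩ := h1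
    have hgk := hx _ g hg
    refine G6a_coprime V x (Module.finrank F K) V.index ?_ ?_ (Subgroup.pow_index_mem V x)
    · rw [← hidx, hk]
      exact Nat.Coprime.pow_right k ((Nat.Prime.coprime_iff_not_dvd hp).2 hpm).symm
    · rw [← hg]
      exact hWV (Subgroup.mem_map_of_mem _ (hker hgk))

end Pool.Agent.Lib.MP_ca71b5_nt
end

section

/-!
# Logarithms lie in ideals with commutative quotient
-/

set_option autoImplicit false

namespace Pool.Agent.Lib.MP_ca71b5_nt

variable {p : ℕ} [Fact p.Prime] {ι : Type} [Fintype ι] [DecidableEq ι]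
  {Γ : Type} [Group Γ] [TopologicalSpace Γ] [IsTopologicalGroup Γ] [CompactSpace Γ]


theorem ell_mem_ideal (ρ : Γ →* GLZ p ι) (hρ : Continuous ρ) (N : ℕ)
    (hN : ∀ g : Γ, Deep 2 N (ρ g)) (hF : FAb p ρ.ker) (C : Subalgebra ℚ_[p] (MQ p ι))
    (I : Submodule ℚ_[p] (MQ p ι)) (hl : ∀ a ∈ C, ∀ x ∈ I, a * x ∈ I)
    (hr : ∀ a ∈ C, ∀ x ∈ I, x * a ∈ I) (hc : ∀ a ∈ C, ∀ b ∈ C, a * b - b * a ∈ I)
    (hC : ∀ g : Γ, ell (ρ g) ∈ C) (g : Γ) : ell (ρ g) ∈ I := by
  obtain ⟨H, -, hHo, hHk, hH⟩ := exists_open_reduction ρ hρ 2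
  -- on `H`
  have hgm : ∀ h ∈ H, gm (ρ h) ∈ C := fun h hh =>
    gm_mem_of_ell_mem C (ρ h) (by exact_mod_cast (hH h).1 hh) (hC h)
  have hadd : ∀ a ∈ H, ∀ b ∈ H, ell (ρ (a * b)) - ell (ρ a) - ell (ρ b) ∈ I := by
    intro a ha b hb
    rw [map_mul]
    exact ell_mul_mem_ideal C I hl hr hc (ρ a) (ρ b) N (hgm a ha) (hgm b hb) (hN a) (hN b)
      (by rw [← map_mul]; exact hN (a * b))
  have hHI : ∀ h ∈ H, ell (ρ h) ∈ I := by
    intro h hh
    by_contra hne
    obtain ⟨f, hf1, hf2⟩ := Submodule.exists_le_ker_of_notMem hne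
    have hfc : Continuous f := LinearMap.continuous_of_finiteDimensional f
    have h0 := hF H hHo hHk (fun a => f (ell (ρ (a : Γ))))
      (hfc.comp ((ell_continuous ρ hρ N hN).comp continuous_subtype_val))
      (fun a b => by
        have h1 := hf2 (hadd a a.2 b b.2)
        rw [LinearMap.mem_ker, map_sub, map_sub] at h1
        show f (ell (ρ ((a : Γ) * (b : Γ)))) = _
        linear_combination h1)
      (fun a ha => by
        show f (ell (ρ (a : Γ))) = 0
        rw [MonoidHom.mem_ker.1 ha, ell_one, map_zero]) ⟨h, hh⟩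
    exact hf1 h0
  have hgp : g ^ (p ^ N) ∈ H := by
    rw [hH, map_pow, gm_pow]
    exact hN g
  have h1 := hHI _ hgp
  rw [map_pow, ell_pow (ρ g) N (hN g)] at h1
  have hp : ((p ^ N : ℕ) : ℚ_[p]) ≠ 0 := by
    exact_mod_cast pow_ne_zero _ (Fact.out : p.Prime).ne_zero
  exact (Submodule.smul_mem_iff I hp).1 h1

end Pool.Agent.Lib.MP_ca71b5_nt
end
end
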