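import Mathlib
import Pool.Agent.Lib.MP_ca71b5_nt.Base
import Pool.Agent.Lib.MP_ca71b5_nt.LPM
import Pool.Agent.Lib.MP_ca71b5_nt.E2
import Pool.Agent.Lib.MP_ca71b5_nt.E7
import Pool.Agent.Lib.MP_ca71b5_nt.S2b
import Pool.Agent.Lib.MP_ca71b5_nt.Q2

section

section

/-!
# The integral matrix on the orbits of a stable base (pure combinatorics)

Proof of `exists_orbit_matrix`. Choose `o : X → X` with `o β = o (τ β)`, `∃ k : ℕ, (τ^k) (o β) = β`
and `∃ k, (τ^k) β = o β` (a representative of each cycle: e.g. `Quotient.out` for the setoid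
`Equiv.Perm.SameCycle.setoid τ`; as `X` is finite natural powers suffice,
`Equiv.Perm.SameCycle.exists_pow_eq'` or similar). `R = s.image o ⊆ s` (`s` is `τ`-stable, so
`o β ∈ s` for `β ∈ s`). For `β : X` and `ρ ∈ R` let
`cb β ρ = ∑ γ ∈ s with o γ = ρ, c β γ`. Then: (i) `cb (τ β) = cb β` (substitute `γ = τ γ'` in the sum
and use `h2`); (ii) for `α ∈ s`, `cb α ρ = if ρ = o α then 1 else 0` (by `h1`); (iii) with the
matrix `M ρ' ρ = cb (π ρ) ρ'` (indexed by `R`), `cb (π β) = M *ᵥ (cb β)`: by `h3`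
`cb (π β) ρ' = ∑ α ∈ s, c β α * cb (π α) ρ'`, and `cb (π α) = cb (π (o α))` because
`π α = (τ ^ k) (π (o α))` (`h4`) and (i); group the sum by the values of `o`
(`Finset.sum_fiberwise_of_maps_to`); (iv) so `cb ((π ^ n) β) = (M ^ n) *ᵥ (cb β)`; (v) for
`n = orderOf π`: `(M ^ n) *ᵥ e_ρ = e_ρ` for all `ρ ∈ R`, so `M ^ n = 1` and `M` has finite order.
(vi) With `n = orderOf M` and `α ∈ s`, `β = (π ^ n) α` satisfies `cb β = cb α`, i.e.
`∑ γ ∈ s with o γ = ρ, c β γ = if ρ = o α then 1 else 0` for all `ρ ∈ R`. By `h5` all `c β γ` are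
`≥ 0` (if all are `≤ 0`, the sum over the `γ` with `o γ = o α` would be `≤ 0`, but it is `1`), so
there is exactly one `γ₀ ∈ s` with `c β γ₀ = 1`, all other `c β γ`, `γ ∈ s`, vanish, and
`o γ₀ = o α`. By `h6` and `h1`, `β = γ₀`. Since `o γ₀ = o α`, `γ₀ = (τ ^ k) α` for some `k : ℕ`.
Finally transport `M` to `Fin R.card` (`Matrix.reindex` or `Matrix.submatrix` with
`R.equivFin`; the order is preserved: `MulEquiv` `Matrix.reindexAlgEquiv` and
`MulEquiv.orderOf_eq`).
-/

set_option autoImplicit false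

namespace Pool.Agent.Lib.MP_ca71b5_nt

open Classical in
private noncomputable def cbo {X : Type*} (s : Finset X) (c : X → X → ℤ) (o : X → X) (β ρ : X) : ℤ :=
  ∑ γ ∈ s.filter (fun γ => o γ = ρ), c β γ

private theorem exists_repr {X : Type*} [Finite X] (τ : Equiv.Perm X) :
    ∃ o : X → X, (∀ β, o (τ β) = o β) ∧ (∀ β, ∃ k : ℕ, (τ ^ k) (o β) = β) ∧
      ∀ β, ∃ k : ℕ, (τ ^ k) β = o β := by
  have key : ∀ x y : X, τ.SameCycle x y → ∃ k : ℕ, (τ ^ k) x = y := by
    rintro x y ⟨i, hi⟩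
    have h1 : 0 < orderOf τ := orderOf_pos τ
    refine ⟨(i % (orderOf τ : ℤ)).toNat, ?_⟩
    have h2 : 0 ≤ i % (orderOf τ : ℤ) := Int.emod_nonneg _ (by exact_mod_cast h1.ne')
    rw [← zpow_natCast, Int.toNat_of_nonneg h2, zpow_mod_orderOf, hi]
  let S := Equiv.Perm.SameCycle.setoid τ
  let o : X → X := fun β => (Quotient.mk S β).out
  have ho : ∀ β, τ.SameCycle (o β) β := fun β => Quotient.exact (Quotient.out_eq (Quotient.mk S β))
  refine ⟨o, fun β => ?_, fun β => key _ _ (ho β), fun β => key _ _ (ho β).symm⟩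
  have h : Quotient.mk S (τ β) = Quotient.mk S β :=
    Quotient.sound (⟨-1, by simp⟩ : τ.SameCycle (τ β) β)
  show (Quotient.mk S (τ β)).out = (Quotient.mk S β).out
  rw [h]

private theorem cbo_tau {X : Type*} {s : Finset X} {c : X → X → ℤ} {τ : Equiv.Perm X} {o : X → X}
    (h2 : ∀ β, ∀ α ∈ s, c (τ β) (τ α) = c β α) (h2s : ∀ α, τ α ∈ s ↔ α ∈ s)
    (ho : ∀ β, o (τ β) = o β) (β ρ : X) : cbo s c o (τ β) ρ = cbo s c o β ρ := by
  classical
  unfold cbo
  symm
  refine Finset.sum_bij (fun γ _ => τ γ) ?_ ?_ ?_ ?_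
  · intro γ hγ
    rw [Finset.mem_filter] at hγ ⊢
    exact ⟨(h2s γ).2 hγ.1, by rw [ho]; exact hγ.2⟩
  · intro γ _ γ' _ h
    exact τ.injective h
  · intro γ hγ
    rw [Finset.mem_filter] at hγ
    refine ⟨τ.symm γ, ?_, τ.apply_symm_apply γ⟩
    rw [Finset.mem_filter]
    refine ⟨(h2s _).1 (by rw [τ.apply_symm_apply]; exact hγ.1), ?_⟩
    rw [← ho, τ.apply_symm_apply]
    exact hγ.2
  · intro γ hγ
    rw [Finset.mem_filter] at hγ
    exact (h2 β γ hγ.1).symm

private theorem cbo_tau_pow {X : Type*} {s : Finset X} {c : X → X → ℤ} {τ : Equiv.Perm X}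
    {o : X → X} (h2 : ∀ β, ∀ α ∈ s, c (τ β) (τ α) = c β α) (h2s : ∀ α, τ α ∈ s ↔ α ∈ s)
    (ho : ∀ β, o (τ β) = o β) (k : ℕ) (β ρ : X) : cbo s c o ((τ ^ k) β) ρ = cbo s c o β ρ := by
  induction k with
  | zero => rw [pow_zero, Equiv.Perm.one_apply]
  | succ k ih => rw [pow_succ', Equiv.Perm.mul_apply, cbo_tau h2 h2s ho, ih]

theorem exists_orbit_matrix {X : Type*} [Finite X] (s : Finset X) (hs : s.Nonempty)
    (c : X → X → ℤ) (π τ : Equiv.Perm X)
    (h1 : ∀ α ∈ s, ∀ γ ∈ s, c α γ = (open Classical in if γ = α then 1 else 0))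
    (h2 : ∀ β, ∀ α ∈ s, c (τ β) (τ α) = c β α) (h2s : ∀ α, τ α ∈ s ↔ α ∈ s)
    (h3 : ∀ β, ∀ γ ∈ s, c (π β) γ = ∑ α ∈ s, c β α * c (π α) γ)
    (h4 : ∀ β, π (τ β) = τ (π β))
    (h5 : ∀ β, (∀ γ ∈ s, 0 ≤ c β γ) ∨ (∀ γ ∈ s, c β γ ≤ 0))
    (h6 : ∀ β β', (∀ γ ∈ s, c β γ = c β' γ) → β = β') :
    ∃ (R : Finset X) (M : Matrix (Fin R.card) (Fin R.card) ℤ), R ⊆ s ∧ R.Nonempty ∧
      (∀ ρ ∈ R, ∀ ρ' ∈ R, ∀ k : ℕ, (τ ^ k) ρ = ρ' → ρ = ρ') ∧ IsOfFinOrder M ∧
      ∀ α ∈ s, ∃ k : ℕ, (π ^ orderOf M) α = (τ ^ k) α := by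
  classical
  obtain ⟨o, ho, ho1, ho2⟩ := exists_repr τ
  have hok : ∀ (k : ℕ) β, o ((τ ^ k) β) = o β := by
    intro k β
    induction k with
    | zero => rw [pow_zero, Equiv.Perm.one_apply]
    | succ k ih => rw [pow_succ', Equiv.Perm.mul_apply, ho, ih]
  have hoo : ∀ β, o (o β) = o β := by
    intro β
    obtain ⟨k, hk⟩ := ho2 β
    have h := hok k β
    rwa [hk] at h
  have hsk : ∀ (k : ℕ) α, (τ ^ k) α ∈ s ↔ α ∈ s := by
    intro k α
    induction k with
    | zero => rw [pow_zero, Equiv.Perm.one_apply]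
    | succ k ih => rw [pow_succ', Equiv.Perm.mul_apply, h2s, ih]
  have hos : ∀ α ∈ s, o α ∈ s := by
    intro α hα
    obtain ⟨k, hk⟩ := ho2 α
    rw [← hk, hsk]
    exact hα
  have hπk : ∀ (k : ℕ) β, π ((τ ^ k) β) = (τ ^ k) (π β) := by
    intro k β
    induction k with
    | zero => rw [pow_zero, Equiv.Perm.one_apply, Equiv.Perm.one_apply]
    | succ k ih => rw [pow_succ', Equiv.Perm.mul_apply, Equiv.Perm.mul_apply, h4, ih]
  set R : Finset X := s.image o with hR
  have hRs : R ⊆ s := by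
    intro ρ hρ
    rw [hR, Finset.mem_image] at hρ
    obtain ⟨α, hα, rfl⟩ := hρ
    exact hos α hα
  have hRo : ∀ ρ ∈ R, o ρ = ρ := by
    intro ρ hρ
    rw [hR, Finset.mem_image] at hρ
    obtain ⟨α, hα, rfl⟩ := hρ
    exact hoo α
  have hoR : ∀ α ∈ s, o α ∈ R := fun α hα => Finset.mem_image_of_mem o hα
  -- the value on the elements of `s`
  have hcs : ∀ α ∈ s, ∀ ρ, cbo s c o α ρ = if ρ = o α then 1 else 0 := by
    intro α hα ρ
    unfold cbo
    have e : ∑ γ ∈ s.filter (fun γ => o γ = ρ), c α γ =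
        ∑ γ ∈ s.filter (fun γ => o γ = ρ), if γ = α then 1 else 0 := by
      refine Finset.sum_congr rfl fun γ hγ => ?_
      have := h1 α hα γ (Finset.mem_filter.1 hγ).1
      rw [this]
    rw [e, Finset.sum_ite_eq']
    by_cases h : ρ = o α
    · rw [if_pos h, if_pos (Finset.mem_filter.2 ⟨hα, h.symm⟩)]
    · rw [if_neg h, if_neg fun h' => h (Finset.mem_filter.1 h').2.symm]
  set M : Matrix R R ℤ := fun ρ' ρ => cbo s c o (π ρ) ρ' with hM
  have hcpi : ∀ α, ∀ ρ, cbo s c o (π α) ρ = cbo s c o (π (o α)) ρ := by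
    intro α ρ
    obtain ⟨k, hk⟩ := ho1 α
    conv_lhs => rw [← hk, hπk, cbo_tau_pow h2 h2s ho]
  have hstep : ∀ β, (fun ρ : R => cbo s c o (π β) ρ) =
      M.mulVec (fun ρ : R => cbo s c o β ρ) := by
    intro β
    funext ρ'
    show cbo s c o (π β) ρ' = ∑ ρ : R, M ρ' ρ * cbo s c o β ρ
    have e1 : cbo s c o (π β) ρ' = ∑ α ∈ s, c β α * cbo s c o (π α) ρ' := by
      unfold cbo
      rw [Finset.sum_congr rfl fun γ hγ => h3 β γ (Finset.mem_filter.1 hγ).1, Finset.sum_comm]
      refine Finset.sum_congr rfl fun α _ => ?_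
      rw [Finset.mul_sum]
    rw [e1, ← Finset.sum_fiberwise_of_maps_to (g := o) (t := R) hoR,
      ← Finset.sum_coe_sort R]
    refine Finset.sum_congr rfl fun ρ _ => ?_
    show _ = cbo s c o (π ρ) ρ' * ∑ γ ∈ s.filter (fun γ => o γ = ρ), c β γ
    rw [Finset.mul_sum]
    refine Finset.sum_congr rfl fun α hα => ?_
    rw [hcpi α, (Finset.mem_filter.1 hα).2, mul_comm]
  have hpow : ∀ (n : ℕ) β, (fun ρ : R => cbo s c o ((π ^ n) β) ρ) =
      (M ^ n).mulVec (fun ρ : R => cbo s c o β ρ) := by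
    intro n
    induction n with
    | zero => intro β; rw [pow_zero, pow_zero, Matrix.one_mulVec, Equiv.Perm.one_apply]
    | succ n ih =>
      intro β
      rw [pow_succ', Equiv.Perm.mul_apply, hstep, ih β, Matrix.mulVec_mulVec, pow_succ']
  have hMn : M ^ orderOf π = 1 := by
    ext ρ' ρ
    have h := congrFun (hpow (orderOf π) ρ) ρ'
    rw [pow_orderOf_eq_one, Equiv.Perm.one_apply] at h
    have e : (fun ρ₂ : R => cbo s c o ρ ρ₂) = Pi.single ρ 1 := by
      funext ρ₂
      show cbo s c o ρ ρ₂ = _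
      rw [hcs ρ (hRs ρ.2), hRo ρ ρ.2, Pi.single_apply]
      by_cases h : ρ₂ = ρ
      · rw [if_pos h, if_pos (congrArg Subtype.val h)]
      · rw [if_neg h, if_neg fun h' => h (Subtype.ext h')]
    have e' := congrFun e ρ'
    rw [e, Matrix.mulVec_single_one] at h
    rw [Matrix.one_apply]
    have h5 : (M ^ orderOf π) ρ' ρ = cbo s c o ρ ρ' := by
      rw [h]; rfl
    rw [h5, e', Pi.single_apply]
  have hMf : IsOfFinOrder M := isOfFinOrder_iff_pow_eq_one.2 ⟨orderOf π, orderOf_pos π, hMn⟩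
  have hmain : ∀ α ∈ s, ∃ k : ℕ, (π ^ orderOf M) α = (τ ^ k) α := by
    intro α hα
    set β := (π ^ orderOf M) α with hβ
    have hcb : ∀ ρ ∈ R, cbo s c o β ρ = if ρ = o α then 1 else 0 := by
      intro ρ hρ
      have h := congrFun (hpow (orderOf M) α) ⟨ρ, hρ⟩
      rw [pow_orderOf_eq_one, Matrix.one_mulVec] at h
      rw [← hcs α hα ρ]
      exact h
    have hsum1 : ∑ γ ∈ s.filter (fun γ => o γ = o α), c β γ = 1 := by
      have := hcb (o α) (hoR α hα)
      rw [if_pos rfl] at this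
      exact this
    have hpos : ∀ γ ∈ s, 0 ≤ c β γ := by
      rcases h5 β with h | h
      · exact h
      · exfalso
        have : ∑ γ ∈ s.filter (fun γ => o γ = o α), c β γ ≤ 0 :=
          Finset.sum_nonpos fun γ hγ => h γ (Finset.mem_filter.1 hγ).1
        omega
    obtain ⟨γ₀, hγ₀, hne⟩ : ∃ γ₀ ∈ s.filter (fun γ => o γ = o α), c β γ₀ ≠ 0 := by
      by_contra hcon
      push Not at hcon
      rw [Finset.sum_eq_zero hcon] at hsum1
      exact zero_ne_one hsum1
    have hγs := (Finset.mem_filter.1 hγ₀).1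
    have hγo := (Finset.mem_filter.1 hγ₀).2
    have hge : 1 ≤ c β γ₀ := by
      have := hpos γ₀ hγs
      omega
    have hoth : ∀ γ ∈ s.filter (fun γ => o γ = o α), γ ≠ γ₀ → c β γ = 0 := by
      intro γ hγ hne'
      have h6 := Finset.add_sum_erase (s.filter (fun γ => o γ = o α)) (c β) hγ₀
      have h7 : c β γ ≤ ∑ γ' ∈ (s.filter (fun γ => o γ = o α)).erase γ₀, c β γ' :=
        Finset.single_le_sum (f := c β)
          (fun γ' hγ' => hpos γ' (Finset.mem_filter.1 (Finset.mem_of_mem_erase hγ')).1)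
          (Finset.mem_erase.2 ⟨hne', hγ⟩)
      have h8 := hpos γ (Finset.mem_filter.1 hγ).1
      omega
    have hγ1 : c β γ₀ = 1 := by
      rw [← hsum1]
      exact (Finset.sum_eq_single_of_mem γ₀ hγ₀ hoth).symm
    have hall : ∀ γ ∈ s, c β γ = if γ = γ₀ then 1 else 0 := by
      intro γ hγ
      by_cases hg : γ = γ₀
      · rw [if_pos hg, hg, hγ1]
      · rw [if_neg hg]
        by_cases hg2 : o γ = o α
        · exact hoth γ (Finset.mem_filter.2 ⟨hγ, hg2⟩) hg
        · have h6 := hcb (o γ) (hoR γ hγ)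
          rw [if_neg hg2] at h6
          have h7 : ∑ γ' ∈ s.filter (fun γ' => o γ' = o γ), c β γ' = 0 := h6
          have h8 := (Finset.sum_eq_zero_iff_of_nonneg
            (fun γ' hγ' => hpos γ' (Finset.mem_filter.1 hγ').1)).1 h7
          exact h8 γ (Finset.mem_filter.2 ⟨hγ, rfl⟩)
    have hβγ : β = γ₀ := by
      refine h6 β γ₀ fun γ hγ => ?_
      rw [hall γ hγ, h1 γ₀ hγs γ hγ]
    obtain ⟨k1, hk1⟩ := ho2 α
    obtain ⟨k2, hk2⟩ := ho1 γ₀
    refine ⟨k2 + k1, ?_⟩
    rw [hβγ, pow_add, Equiv.Perm.mul_apply, hk1, ← hγo, hk2]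
  let e : R ≃ Fin R.card := R.equivFin
  let Φ := Matrix.reindexAlgEquiv ℤ ℤ e
  have hord : orderOf (Φ M) = orderOf M :=
    orderOf_injective (Φ : Matrix R R ℤ →* Matrix (Fin R.card) (Fin R.card) ℤ) Φ.injective M
  refine ⟨R, Φ M, hRs, hs.image o, ?_, ?_, ?_⟩
  · intro ρ hρ ρ' hρ' k hk
    rw [← hRo ρ hρ, ← hRo ρ' hρ', ← hk, hok]
  · rw [← orderOf_pos_iff, hord, orderOf_pos_iff]
    exact hMf
  · rw [hord]
    exact hmain

end Pool.Agent.Lib.MP_ca71b5_nt
end

section

/-!
# The number of orbits is at most the dimension of the fixed points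

Proof of `card_le_fix`. Let `Hf` be the submodule of the `T`-fixed elements of `H`; it embeds in
`fixS T`, so it suffices that `R.card ≤ finrank Hf = finrank (Module.Dual E Hf)`, and for this that
the restrictions of the `ρ ∈ R` to `Hf` are linearly independent (as functions; each weight is
linear, `Weight.toLinear`). Let `∑ ρ ∈ R, x ρ * ρ h = 0` for all `h ∈ Hf`. For `h : H`,
`∑ j ∈ range m, T^[j] h` is in `Hf` (`hTm`), so
`∑ ρ ∈ R, ∑ j ∈ range m, x ρ * ρ (T^[j] h) = 0`. Now `ρ (T^[j] h) = ((π ^ j).symm ρ) h`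
(from `hπ` by induction), and `(π ^ j).symm ρ ∈ s`. So
`∑ α ∈ s, (∑ ρ ∈ R, x ρ * #{j < m | (π ^ j) α = ρ}) * α h = 0`; by `hlin` for
`α = ρ₀ ∈ R`: `∑ ρ ∈ R, x ρ * #{j < m | (π ^ j) ρ₀ = ρ} = 0`, and by `hcyc` only `ρ = ρ₀`
contributes, with a positive count (`j = 0`), so `x ρ₀ = 0`.
-/

set_option autoImplicit false

namespace Pool.Agent.Lib.MP_ca71b5_nt

variable {E : Type*} [Field E] [CharZero E] [IsAlgClosed E] {L : Type*} [LieRing L]
  [LieAlgebra E L] [FiniteDimensional E L] [LieAlgebra.IsKilling E L]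
  (H : LieSubalgebra E L) [H.IsCartanSubalgebra]

open LieAlgebra LieModule LieAlgebra.IsKilling

theorem card_le_fix (m : ℕ) (hm : 0 < m) (T : L ≃ₗ⁅E⁆ L) (hTm : ∀ x, T^[m] x = x)
    (hTH : ∀ x ∈ H, T x ∈ H) (π : Equiv.Perm (Weight E H L))
    (hπ : ∀ (α : Weight E H L) (h : H), π α ⟨T h, hTH h h.2⟩ = α h)
    (s : Finset (Weight E H L)) (hsπ : ∀ α, π α ∈ s ↔ α ∈ s)
    (hlin : ∀ x : Weight E H L → E, (∀ h : H, ∑ α ∈ s, x α * α h = 0) → ∀ α ∈ s, x α = 0)
    (R : Finset (Weight E H L)) (hR : R ⊆ s)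
    (hcyc : ∀ ρ ∈ R, ∀ ρ' ∈ R, ∀ k : ℕ, (π ^ k) ρ = ρ' → ρ = ρ') :
    R.card ≤ Module.finrank E (fixS T) := by
  classical
  have happ : ∀ (σ : Equiv.Perm (Weight E H L)) (β : Weight E H L), σ (σ⁻¹ β) = β :=
    fun σ β => by simp
  -- the restriction of `T` to `H`
  let τ : H → H := fun h => ⟨T h, hTH h h.2⟩
  have hτ : ∀ (j : ℕ) (h : H), ((τ^[j] h : H) : L) = T^[j] (h : L) := by
    intro j
    induction j with
    | zero => intro h; rfl
    | succ j ih =>
      intro h
      rw [Function.iterate_succ_apply', Function.iterate_succ_apply']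
      change T ((τ^[j] h : H) : L) = _
      rw [ih]
  have hπ' : ∀ (β : Weight E H L) (h : H), β (τ h) = (π⁻¹ β) h := by
    intro β h
    have h1 := hπ (π⁻¹ β) h
    rw [happ] at h1
    exact h1
  have hπj : ∀ (j : ℕ) (β : Weight E H L) (h : H), β (τ^[j] h) = ((π ^ j)⁻¹ β) h := by
    intro j
    induction j with
    | zero => intro β h; simp
    | succ j ih =>
      intro β h
      rw [Function.iterate_succ_apply', hπ', ih, pow_succ', mul_inv_rev]
      rfl
  have hsj : ∀ (j : ℕ) (α : Weight E H L), α ∈ s → (π ^ j)⁻¹ α ∈ s := by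
    intro j
    induction j with
    | zero => intro α hα; simpa using hα
    | succ j ih =>
      intro α hα
      have h1 : π⁻¹ α ∈ s := by
        rw [← hsπ, happ]
        exact hα
      rw [pow_succ', mul_inv_rev]
      exact ih _ h1
  -- the fixed points in `H`
  let Hf : Submodule E L := H.toSubmodule ⊓ (fixS T)
  have hle : Module.finrank E Hf ≤ Module.finrank E (fixS T) :=
    Submodule.finrank_mono inf_le_right
  refine le_trans ?_ hle
  let inc : Hf →ₗ[E] H :=
    { toFun := fun x => ⟨x.1, x.2.1⟩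
      map_add' := fun x y => rfl
      map_smul' := fun c x => rfl }
  let ψ : R → Module.Dual E Hf := fun ρ => (Weight.toLinear E H L ρ.1).comp inc
  have hli : LinearIndependent E ψ := by
    rw [Fintype.linearIndependent_iff]
    intro x hx
    let X : Weight E H L → E := fun α => if h : α ∈ R then x ⟨α, h⟩ else 0
    let y : Weight E H L → E := fun α =>
      ∑ ρ ∈ R, ∑ j ∈ Finset.range m, if (π ^ j)⁻¹ ρ = α then X ρ else 0
    have hy : ∀ h : H, ∑ α ∈ s, y α * α h = 0 := by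
      intro h
      have hsum : (∑ j ∈ Finset.range m, T^[j] (h : L)) ∈ Hf := by
        refine ⟨?_, ?_⟩
        · refine Submodule.sum_mem _ fun j _ => ?_
          rw [← hτ]
          exact (τ^[j] h).2
        · change T (∑ j ∈ Finset.range m, T^[j] (h : L)) = ∑ j ∈ Finset.range m, T^[j] (h : L)
          rw [map_sum]
          have h1 : ∀ j, T (T^[j] (h : L)) = T^[j + 1] (h : L) := fun j => by
            rw [Function.iterate_succ_apply']
          simp only [h1]
          have h2 := Finset.sum_range_succ (fun j => T^[j] (h : L)) m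
          have h3 := Finset.sum_range_succ' (fun j => T^[j] (h : L)) m
          rw [h2, hTm] at h3
          simp only [Function.iterate_zero, id_eq] at h3
          exact (add_right_cancel h3).symm
      have hev := congrArg (fun f => f ⟨_, hsum⟩) hx
      simp only [LinearMap.sum_apply, LinearMap.smul_apply, LinearMap.zero_apply,
        smul_eq_mul] at hev
      have hval : ∀ ρ : R, ψ ρ ⟨_, hsum⟩ = ∑ j ∈ Finset.range m, ((π ^ j)⁻¹ ρ.1) h := by
        intro ρ
        have h4 : inc ⟨_, hsum⟩ = ∑ j ∈ Finset.range m, τ^[j] h := by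
          apply Subtype.ext
          change (∑ j ∈ Finset.range m, T^[j] (h : L)) = _
          rw [AddSubmonoidClass.coe_finsetSum]
          exact Finset.sum_congr rfl fun j _ => (hτ j h).symm
        change (Weight.toLinear E H L ρ.1) (inc ⟨_, hsum⟩) = _
        rw [h4, map_sum]
        exact Finset.sum_congr rfl fun j _ => hπj j ρ.1 h
      simp only [hval] at hev
      have h5 : ∑ ρ ∈ R, X ρ * ∑ j ∈ Finset.range m, ((π ^ j)⁻¹ ρ) h = 0 := by
        rw [← hev, ← Finset.sum_coe_sort R]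
        refine Finset.sum_congr rfl fun ρ _ => ?_
        have : X ρ.1 = x ρ := by
          change (if h : ρ.1 ∈ R then x ⟨ρ.1, h⟩ else 0) = x ρ
          rw [dif_pos ρ.2]
        rw [this]
      rw [← h5]
      have h6 : ∀ α, y α * α h = ∑ ρ ∈ R, ∑ j ∈ Finset.range m,
          (if (π ^ j)⁻¹ ρ = α then X ρ * α h else 0) := by
        intro α
        change (∑ ρ ∈ R, ∑ j ∈ Finset.range m, if (π ^ j)⁻¹ ρ = α then X ρ else 0) * α h = _
        rw [Finset.sum_mul]
        refine Finset.sum_congr rfl fun ρ _ => ?_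
        rw [Finset.sum_mul]
        refine Finset.sum_congr rfl fun j _ => ?_
        rw [ite_mul, zero_mul]
      simp only [h6]
      rw [Finset.sum_comm]
      refine Finset.sum_congr rfl fun ρ hρ => ?_
      rw [Finset.sum_comm, Finset.mul_sum]
      refine Finset.sum_congr rfl fun j _ => ?_
      rw [Finset.sum_ite_eq, if_pos (hsj j ρ (hR hρ))]
    have hy0 := hlin y hy
    rintro ⟨ρ₀, hρ₀⟩
    have h7 := hy0 ρ₀ (hR hρ₀)
    have h8 : y ρ₀ = (((Finset.range m).filter fun j => (π ^ j)⁻¹ ρ₀ = ρ₀).card : E) * X ρ₀ := by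
      change (∑ ρ ∈ R, ∑ j ∈ Finset.range m, if (π ^ j)⁻¹ ρ = ρ₀ then X ρ else 0) = _
      rw [Finset.sum_eq_single ρ₀]
      · rw [← Finset.sum_filter, Finset.sum_const, nsmul_eq_mul]
      · intro ρ hρ hne
        refine Finset.sum_eq_zero fun j _ => ?_
        rw [if_neg]
        intro h9
        apply hne
        have h10 : (π ^ j) ρ₀ = ρ := by
          rw [← h9, happ]
        exact (hcyc ρ₀ hρ₀ ρ hρ j h10).symm
      · intro h
        exact absurd hρ₀ h
    rw [h8] at h7
    have h11 : (((Finset.range m).filter fun j => (π ^ j)⁻¹ ρ₀ = ρ₀).card : E) ≠ 0 := by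
      rw [Nat.cast_ne_zero]
      have : 0 ∈ (Finset.range m).filter fun j => (π ^ j)⁻¹ ρ₀ = ρ₀ := by
        rw [Finset.mem_filter, Finset.mem_range]
        exact ⟨hm, by simp⟩
      exact (Finset.card_pos.2 ⟨0, this⟩).ne'
    have h12 : X ρ₀ = 0 := (mul_eq_zero.1 h7).resolve_left h11
    have h13 : X ρ₀ = x ⟨ρ₀, hρ₀⟩ := by
      change (if h : ρ₀ ∈ R then x ⟨ρ₀, h⟩ else 0) = x ⟨ρ₀, hρ₀⟩
      rw [dif_pos hρ₀]
    rw [← h13]
    exact h12
  have h14 := hli.fintype_card_le_finrank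
  rw [Fintype.card_coe, Subspace.dual_finrank_eq] at h14
  exact h14

end Pool.Agent.Lib.MP_ca71b5_nt
end

section

/-!
# The eigenvalue on an orbit of root spaces

Proof of `eigen_of_orbit`. Compare `exists_matrix_of_trivial` in `L3.lean` and
`dim_of_nontrivial` in `L4.lean` for the techniques. Let `x ≠ 0` be in `rootSpace H α` (which has
dimension one, `finrank_rootSpace_eq_one α hα`) and `n > 0` the minimal period of `α` under
`πT` (`Function.minimalPeriod`, positive as `πT` is a permutation of a finite set). By `hπT`,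
`T^[j] x ∈ rootSpace H (πT^[j] α)` and so `T^[n] x = c • x` for some `c`. From `T^[m] x = x` for all
`x` one gets `T^[n * m] x = x`, so `c ^ m = 1`. If `c = 1`, then `y = ∑ j ∈ range n, T^[j] x` is
fixed by `T`, so `y ∈ H`, i.e. `y` is in the weight space of `0`; but the weights
`0, α, πT α, ..., πT^[n-1] α` are pairwise distinct (`πT^[j] α` is a nonzero weight because
otherwise `T^[j] x ∈ H` would give `x ∈ H`: apply `T^[m * j - j]`, `hTH`, and `x ∈ H ∩ rootSpace α`
is `0`), the weight spaces are independent (`LieModule.iSupIndep_genWeightSpace`) and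
`T^[j] x ≠ 0`, a contradiction. (It is enough to compare the component in `rootSpace H α`.)
Finally `S^[N] x` and `T^[k] x` are both nonzero elements of the root space of
`(πS ^ N) α = (πT ^ k) α`, which is one-dimensional (it is a nonzero weight), so
`S^[N] x = κ • T^[k] x` with `κ ≠ 0`. Compute `T^[n] (S^[N] x)` in two ways: it is
`κ • T^[k] (T^[n] x) = (κ * c) • T^[k] x`, and (by `hST`, `hS1`)
`S^[N] (T^[n] x) = S^[N] (c • x) = (σ^[N] c) • S^[N] x = (σ^[N] c * κ) • T^[k] x`. Hence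
`σ^[N] c = c`.
-/

set_option autoImplicit false

namespace Pool.Agent.Lib.MP_ca71b5_nt

variable {E : Type*} [Field E] [CharZero E] [IsAlgClosed E] {L : Type*} [LieRing L]
  [LieAlgebra E L] [FiniteDimensional E L] [LieAlgebra.IsKilling E L]
  (H : LieSubalgebra E L) [H.IsCartanSubalgebra]

open LieAlgebra LieModule LieAlgebra.IsKilling

private theorem cpb4_shift {A : Type*} [AddCommGroup A] (l : ℕ) (g : ℕ → A) (hg : g l = g 0) :
    ∑ k ∈ Finset.range l, g (k + 1) = ∑ k ∈ Finset.range l, g k := by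
  have h1 := Finset.sum_range_succ g l
  rw [Finset.sum_range_succ' g l, hg] at h1
  exact add_right_cancel h1

private theorem cpb4_iter_S {E : Type*} [Field E] {L : Type*} [AddCommGroup L] [Module E L]
    (σ : E ≃+* E) (S : L ≃+ L)
    (hS1 : ∀ (c : E) (x : L), S (c • x) = σ c • S x) (c : E) (x : L) (n : ℕ) :
    S^[n] (c • x) = (σ^[n] c) • S^[n] x := by
  induction n with
  | zero => rfl
  | succ n ih => rw [Function.iterate_succ_apply', ih, hS1, Function.iterate_succ_apply',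
      Function.iterate_succ_apply']

private theorem cpb4_iter_zero {A : Type*} [AddCommGroup A] (S : A ≃+ A) (n : ℕ) :
    S^[n] (0 : A) = 0 := by
  induction n with
  | zero => rfl
  | succ n ih => rw [Function.iterate_succ_apply', ih, map_zero]

private theorem cpb4_iter_smul (T : L ≃ₗ⁅E⁆ L) (c : E) (x : L) (n : ℕ) :
    T^[n] (c • x) = c • T^[n] x := by
  induction n with
  | zero => rfl
  | succ n ih => rw [Function.iterate_succ_apply', ih, map_smul, Function.iterate_succ_apply']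

private theorem cpb4_mem_zero (x : L) : x ∈ rootSpace H (0 : H → E) ↔ x ∈ H := by
  rw [rootSpace_zero_eq]
  exact LieSubalgebra.mem_toLieSubmodule x

theorem eigen_of_orbit (m : ℕ) (hm : 0 < m) (T : L ≃ₗ⁅E⁆ L) (hTm : ∀ x, T^[m] x = x)
    (hTH : ∀ x ∈ H, T x ∈ H) (hfix : ∀ x, T x = x → x ∈ H) (πT : Equiv.Perm (Weight E H L))
    (hπT : ∀ (α : Weight E H L) (x : L), x ∈ rootSpace H α → T x ∈ rootSpace H (πT α))
    (α : Weight E H L) (hα : α.IsNonZero) :
    ∃ c : E, c ≠ 1 ∧ c ^ m = 1 ∧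
      ∀ (σ : E ≃+* E) (S : L ≃+ L) (_ : ∀ (c : E) (x : L), S (c • x) = σ c • S x)
        (_ : ∀ x, S (T x) = T (S x)) (πS : Equiv.Perm (Weight E H L))
        (_ : ∀ (α : Weight E H L) (x : L), x ∈ rootSpace H α → S x ∈ rootSpace H (πS α))
        (N k : ℕ) (_ : (πS ^ N) α = (πT ^ k) α), σ^[N] c = c := by
  classical
  obtain ⟨x, hx, hx0⟩ := α.exists_ne_zero
  have hTmem : ∀ (j : ℕ) (β : Weight E H L) (z : L), z ∈ rootSpace H β →
      T^[j] z ∈ rootSpace H ((πT ^ j) β) := by
    intro j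
    induction j with
    | zero => intro β z hz; simpa using hz
    | succ j ih =>
      intro β z hz
      rw [Function.iterate_succ_apply', pow_succ', Equiv.Perm.mul_apply]
      exact hπT _ _ (ih β z hz)
  have hTH' : ∀ (j : ℕ) (z : L), z ∈ H → T^[j] z ∈ H := by
    intro j
    induction j with
    | zero => intro z hz; exact hz
    | succ j ih =>
      intro z hz
      rw [Function.iterate_succ_apply']
      exact hTH _ (ih z hz)
  have hTmul : ∀ (j : ℕ) (z : L), T^[m * j] z = z := by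
    intro j
    induction j with
    | zero => intro z; rfl
    | succ j ih =>
      intro z
      rw [Nat.mul_succ, Function.iterate_add_apply, hTm, ih]
  have hT0 : ∀ (j : ℕ) (z : L), z ≠ 0 → T^[j] z ≠ 0 := by
    intro j
    induction j with
    | zero => intro z hz; exact hz
    | succ j ih =>
      intro z hz h
      rw [Function.iterate_succ_apply'] at h
      exact ih z hz ((map_eq_zero_iff T T.injective).1 h)
  have hind := iSupIndep_genWeightSpace E H L
  -- an element of `H` and of the root space is zero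
  have hα0 : (⇑α : H → E) ≠ 0 := hα
  have hxH : x ∉ H := by
    intro h
    have h1 := (hind (⇑α)).le_bot (show x ∈ genWeightSpace L (⇑α) ⊓
      ⨆ (χ : H → E) (_ : χ ≠ ⇑α), genWeightSpace L χ from ⟨hx, by
        have h2 : rootSpace H (0 : H → E) ≤
            ⨆ (χ : H → E) (_ : χ ≠ ⇑α), genWeightSpace L χ :=
          le_iSup₂_of_le (0 : H → E) hα0.symm le_rfl
        exact h2 ((cpb4_mem_zero H x).2 h)⟩)
    exact hx0 ((LieSubmodule.mem_bot x).1 h1)
  have hnz : ∀ j : ℕ, ((πT ^ j) α).IsNonZero := by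
    intro j hz
    have h1 := hTmem j α x hx
    have hz' : (⇑((πT ^ j) α) : H → E) = 0 := hz
    rw [hz'] at h1
    have h2 : T^[j] x ∈ H := (cpb4_mem_zero H _).1 h1
    have h3 := hTH' (m * j - j) _ h2
    rw [← Function.iterate_add_apply, Nat.sub_add_cancel (Nat.le_mul_of_pos_left j hm), hTmul] at h3
    exact hxH h3
  -- the period
  set n := Function.minimalPeriod (⇑πT) α with hn
  have hn0 : 0 < n := by
    refine Function.IsPeriodicPt.minimalPeriod_pos (orderOf_pos πT) ?_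
    show (⇑πT)^[orderOf πT] α = α
    rw [Equiv.Perm.iterate_eq_pow, pow_orderOf_eq_one, Equiv.Perm.one_apply]
  have hnα : (πT ^ n) α = α := by
    rw [← Equiv.Perm.iterate_eq_pow]
    exact Function.iterate_minimalPeriod
  have hone : ∀ (β : Weight E H L), β.IsNonZero → ∀ z ∈ rootSpace H β, z ≠ 0 →
      ∀ y ∈ rootSpace H β, ∃ k : E, y = k • z := by
    intro β hβ z hz hz0 y hy
    obtain ⟨k, hk⟩ := (finrank_eq_one_iff_of_nonzero' (⟨z, hz⟩ : rootSpace H β)
        (by rwa [ne_eq, LieSubmodule.mk_eq_zero])).mp (finrank_rootSpace_eq_one β hβ) ⟨y, hy⟩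
    exact ⟨k, by simpa using hk.symm⟩
  have hTnx := hTmem n α x hx
  rw [hnα] at hTnx
  obtain ⟨c, hc⟩ := hone α hα x hx hx0 _ hTnx
  have hcj : ∀ j : ℕ, T^[n * j] x = c ^ j • x := by
    intro j
    induction j with
    | zero => simp
    | succ j ih =>
      rw [Nat.mul_succ, Function.iterate_add_apply, hc, cpb4_iter_smul, ih, smul_smul, pow_succ,
        mul_comm]
  refine ⟨c, ?_, ?_, ?_⟩
  · intro hc1
    rw [hc1, one_smul] at hc
    have hy : T (∑ j ∈ Finset.range n, T^[j] x) = ∑ j ∈ Finset.range n, T^[j] x := by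
      rw [map_sum]
      have h1 := cpb4_shift n (fun j => T^[j] x) hc
      rw [← h1]
      exact Finset.sum_congr rfl fun j _ => (Function.iterate_succ_apply' _ _ _).symm
    have hyH := hfix _ hy
    obtain ⟨k, hk⟩ : ∃ k, n = k + 1 := ⟨n - 1, by omega⟩
    have h1 := Finset.sum_range_succ' (fun j => T^[j] x) k
    rw [← hk] at h1
    have h2 : x = (∑ j ∈ Finset.range n, T^[j] x) - ∑ j ∈ Finset.range k, T^[j + 1] x := by
      rw [h1]
      simp
    have h3 : x ∈ ⨆ (χ : H → E) (_ : χ ≠ ⇑α), genWeightSpace L χ := by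
      have h4 : ∀ (χ : H → E) (z : L), χ ≠ ⇑α → z ∈ rootSpace H χ →
          z ∈ ⨆ (χ : H → E) (_ : χ ≠ ⇑α), genWeightSpace L χ := by
        intro χ z hχ hz
        have h5 : rootSpace H χ ≤ ⨆ (χ : H → E) (_ : χ ≠ ⇑α), genWeightSpace L χ :=
          le_iSup₂_of_le χ hχ le_rfl
        exact h5 hz
      rw [h2]
      refine sub_mem (h4 0 _ hα0.symm ((cpb4_mem_zero H _).2 hyH)) (sum_mem fun j hj => ?_)
      refine h4 _ _ ?_ (hTmem (j + 1) α x hx)
      intro h6
      have h7 : (πT ^ (j + 1)) α = α := Weight.ext fun h => congrFun h6 h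
      have h8 : (⇑πT)^[j + 1] α = (⇑πT)^[0] α := by
        rw [Equiv.Perm.iterate_eq_pow, h7]
        rfl
      have h9 := Function.iterate_injOn_Iio_minimalPeriod (f := ⇑πT) (x := α)
        (show j + 1 ∈ Set.Iio _ by
          show j + 1 < n
          have := Finset.mem_range.1 hj
          omega) (show 0 ∈ Set.Iio _ from hn0) h8
      omega
    have h10 := (hind (⇑α)).le_bot (show x ∈ genWeightSpace L (⇑α) ⊓
      ⨆ (χ : H → E) (_ : χ ≠ ⇑α), genWeightSpace L χ from ⟨hx, h3⟩)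
    exact hx0 ((LieSubmodule.mem_bot x).1 h10)
  · have h1 := hcj m
    rw [mul_comm, hTmul] at h1
    have h2 : (c ^ m - 1) • x = 0 := by rw [sub_smul, one_smul, ← h1, sub_self]
    rcases smul_eq_zero.1 h2 with h3 | h3
    · exact sub_eq_zero.1 h3
    · exact absurd h3 hx0
  · intro σ S hS1 hST πS hπS N k hk
    have hSmem : ∀ (j : ℕ) (β : Weight E H L) (z : L), z ∈ rootSpace H β →
        S^[j] z ∈ rootSpace H ((πS ^ j) β) := by
      intro j
      induction j with
      | zero => intro β z hz; simpa using hz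
      | succ j ih =>
        intro β z hz
        rw [Function.iterate_succ_apply', pow_succ', Equiv.Perm.mul_apply]
        exact hπS _ _ (ih β z hz)
    have hSx : S^[N] x ≠ 0 := by
      intro h
      rw [← cpb4_iter_zero S N] at h
      exact hx0 (S.injective.iterate N h)
    have h1 := hSmem N α x hx
    rw [hk] at h1
    obtain ⟨κ, hκ⟩ := hone _ (hnz k) (T^[k] x) (hTmem k α x hx) (hT0 k x hx0) _ h1
    have hκ0 : κ ≠ 0 := by
      rintro rfl
      rw [zero_smul] at hκ
      exact hSx hκ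
    have hcomm : T^[n] (S^[N] x) = S^[N] (T^[n] x) := by
      have h2 : Function.Commute (⇑T) (⇑S) := fun z => (hST z).symm
      exact h2.iterate_iterate n N x
    have h3 : T^[n] (S^[N] x) = c • (κ • T^[k] x) := by
      rw [hκ, cpb4_iter_smul, ← Function.iterate_add_apply, add_comm, Function.iterate_add_apply,
        hc, cpb4_iter_smul, smul_comm]
    have h4 : T^[n] (S^[N] x) = (σ^[N] c) • (κ • T^[k] x) := by
      rw [hcomm, hc, cpb4_iter_S σ S hS1, hκ]
    have h5 : (σ^[N] c - c) • (κ • T^[k] x) = 0 := by rw [sub_smul, ← h3, ← h4, sub_self]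
    rcases smul_eq_zero.1 h5 with h6 | h6
    · exact sub_eq_zero.1 h6
    · exact absurd h6 (smul_ne_zero hκ0 (hT0 k x hx0))

end Pool.Agent.Lib.MP_ca71b5_nt
end

section

/-!
# A base of the root system stable under an automorphism

Proof of `exists_stable_base`. Let `P = LieAlgebra.IsKilling.rootSystem H` (index type `H.root`,
compare `LRB.lean`). Give `E` (and `Module.Dual E H`) the `ℚ`-module structure
`Module.compHom _ (algebraMap ℚ E)`; by `Module.exists_dual_forall_apply_ne_zero` (used in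
`RootPairing.nonempty_base`, Mathlib/LinearAlgebra/RootSystem/BaseExists.lean) there is an additive
`g : E → ℚ` with `g (α a) ≠ 0` for all roots `α`. Put `f : Module.Dual E H →+ ℚ`,
`f χ = g (χ a)`, and let `s₀ = IsAddIndecomposable.baseOf P.root f : Set H.root`. By
`RootPairing.linearIndepOn_root_baseOf` the roots of `s₀` are linearly independent over `E` and by
`IsAddIndecomposable.mem_or_neg_mem_closure_baseOf` every root or its negative is in the additive
submonoid generated by `s₀` (so a combination with coefficients in `ℕ`; use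
`AddSubmonoid.closure_induction` or `AddSubmonoid.mem_closure_image...`; see also
`RootPairing.Base.mk'` and `b.exists_root_eq_sum_int` / `exists_root_eq_sum_nat_or_neg`, which
give the coefficients directly). `s` is the image of `s₀` in the weights. Stability under `π`: `f`
is `π`-invariant since `(π α) a = (π α) (U a) = α a`; if `α ∈ s` and `π α = β + γ` with roots
`β, γ` of positive `f`, then `α = π⁻¹ β + π⁻¹ γ` (evaluate at `h`: `(π⁻¹ β) h = β (U h)`), which
contradicts the indecomposability of `α`. (`π` maps nonzero weights to nonzero weights, because `U`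
is surjective.) For the zero weight take `c = 0`.
-/

set_option autoImplicit false

namespace Pool.Agent.Lib.MP_ca71b5_nt

variable {E : Type*} [Field E] [CharZero E] [IsAlgClosed E] {L : Type*} [LieRing L]
  [LieAlgebra E L] [FiniteDimensional E L] [LieAlgebra.IsKilling E L]
  (H : LieSubalgebra E L) [H.IsCartanSubalgebra]

open LieAlgebra LieModule LieAlgebra.IsKilling

theorem exists_stable_base (a : H) (hreg : ∀ α : Weight E H L, α.IsNonZero → α a ≠ 0)
    (π : Equiv.Perm (Weight E H L)) (U : H → H) (hU : Function.Surjective U)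
    (hπ : ∀ (α : Weight E H L) (h : H), π α (U h) = α h) (ha : U a = a) :
    ∃ s : Finset (Weight E H L), (∀ α ∈ s, α.IsNonZero) ∧ (∀ α, π α ∈ s ↔ α ∈ s) ∧
      (∀ x : Weight E H L → E, (∀ h : H, ∑ α ∈ s, x α * α h = 0) → ∀ α ∈ s, x α = 0) ∧
      ∀ β : Weight E H L, ∃ c : Weight E H L → ℤ, (∀ h : H, β h = ∑ α ∈ s, (c α : E) * α h) ∧
        ((∀ α, 0 ≤ c α) ∨ (∀ α, c α ≤ 0)) := by
  classical
  -- a rational functional
  have hroot : ∀ i : H.root, (i : Weight E H L).IsNonZero := fun i =>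
    (Finset.mem_filter.1 i.2).2
  obtain ⟨g, hg⟩ : ∃ g : Module.Dual ℚ E, ∀ i : H.root, g ((i : Weight E H L) a) ≠ 0 :=
    Module.exists_dual_forall_apply_ne_zero (fun i : H.root => (i : Weight E H L) a)
      fun i => hreg _ (hroot i)
  set P := LieAlgebra.IsKilling.rootSystem H with hP
  have hPr : ∀ (i : H.root) (h : H), P.root i h = (i : Weight E H L) h := fun i h => rfl
  let f : Module.Dual E H →+ ℚ :=
    { toFun := fun χ => g (χ a)
      map_zero' := by simp
      map_add' := fun x y => by simp }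
  have hfv : ∀ i : H.root, f (P.root i) = g ((i : Weight E H L) a) := fun i => rfl
  have hf : ∀ i : H.root, f (P.root i) ≠ 0 := fun i => by rw [hfv]; exact hg i
  let _i := P.indexNeg
  let b : P.Base := RootPairing.Base.mk' P (IsAddIndecomposable.baseOf P.root f)
    (P.linearIndepOn_root_baseOf f hf)
    (fun i => IsAddIndecomposable.mem_or_neg_mem_closure_baseOf P.root f i (hf i) (by simp))
  have hbs : ∀ i : H.root, i ∈ b.support ↔ i ∈ IsAddIndecomposable.baseOf P.root f := by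
    intro i
    exact Set.Finite.mem_toFinset _
  -- description of the base
  have hgood : ∀ i : H.root, i ∈ b.support ↔ (0 < g ((i : Weight E H L) a) ∧
      ∀ β γ : Weight E H L, β.IsNonZero → γ.IsNonZero → 0 < g (β a) → 0 < g (γ a) →
        ¬ ∀ h : H, (i : Weight E H L) h = β h + γ h) := by
    intro i
    rw [hbs]
    constructor
    · rintro ⟨h1, h2⟩
      refine ⟨h1, fun β γ hβ hγ hβa hγa hsum => ?_⟩
      have hβr : β ∈ H.root := Finset.mem_filter.2 ⟨Finset.mem_univ _, hβ⟩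
      have hγr : γ ∈ H.root := Finset.mem_filter.2 ⟨Finset.mem_univ _, hγ⟩
      have h3 := h2 ⟨β, hβr⟩ hβa ⟨γ, hγr⟩ hγa (LinearMap.ext fun h => hsum h)
      rcases h3 with h3 | h3
      · exact P.ne_zero _ h3
      · exact P.ne_zero _ h3
    · rintro ⟨h1, h2⟩
      refine ⟨h1, fun j hj k hk hjk => ?_⟩
      exfalso
      refine h2 j k (hroot j) (hroot k) hj hk fun h => ?_
      exact congrArg (fun φ : Module.Dual E H => φ h) hjk
  -- the permutation and nonzero weights
  have hπnz : ∀ α : Weight E H L, (π α).IsNonZero ↔ α.IsNonZero := by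
    intro α
    have h1 : (π α).IsZero ↔ α.IsZero := by
      constructor
      · intro h0
        show (α : H → E) = 0
        funext h
        rw [← hπ α h]
        exact congrFun h0 (U h)
      · intro h0
        show (π α : H → E) = 0
        funext h
        obtain ⟨h', rfl⟩ := hU h
        rw [hπ α h']
        exact congrFun h0 h'
    exact not_congr h1
  have hπa : ∀ α : Weight E H L, π α a = α a := by
    intro α
    have h1 := hπ α a
    rw [ha] at h1
    exact h1
  set s : Finset (Weight E H L) := b.support.image (fun i : H.root => (i : Weight E H L)) with hs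
  have hmem : ∀ α : Weight E H L, α ∈ s ↔ (α.IsNonZero ∧ 0 < g (α a) ∧
      ∀ β γ : Weight E H L, β.IsNonZero → γ.IsNonZero → 0 < g (β a) → 0 < g (γ a) →
        ¬ ∀ h : H, α h = β h + γ h) := by
    intro α
    rw [hs, Finset.mem_image]
    constructor
    · rintro ⟨i, hi, rfl⟩
      exact ⟨hroot i, (hgood i).1 hi⟩
    · rintro ⟨h0, h1⟩
      exact ⟨⟨α, Finset.mem_filter.2 ⟨Finset.mem_univ _, h0⟩⟩, (hgood _).2 h1, rfl⟩
  have hsum : ∀ F : Weight E H L → E, ∑ α ∈ s, F α = ∑ i ∈ b.support, F (i : Weight E H L) := by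
    intro F
    rw [hs, Finset.sum_image fun i _ j _ hij => Subtype.ext hij]
  refine ⟨s, fun α hα => ((hmem α).1 hα).1, ?_, ?_, ?_⟩
  · intro α
    rw [hmem, hmem, hπnz, hπa]
    refine and_congr_right fun h0 => and_congr_right fun h1 => ?_
    constructor
    · intro h2 β γ hβ hγ hβa hγa hs'
      refine h2 (π β) (π γ) ((hπnz β).2 hβ) ((hπnz γ).2 hγ) ?_ ?_ fun h => ?_
      · rw [hπa]; exact hβa
      · rw [hπa]; exact hγa
      · obtain ⟨h', rfl⟩ := hU h
        rw [hπ, hπ, hπ]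
        exact hs' h'
    · intro h2 β γ hβ hγ hβa hγa hs'
      obtain ⟨β', rfl⟩ := π.surjective β
      obtain ⟨γ', rfl⟩ := π.surjective γ
      rw [hπnz] at hβ hγ
      rw [hπa] at hβa hγa
      refine h2 β' γ' hβ hγ hβa hγa fun h => ?_
      have h3 := hs' (U h)
      rw [hπ, hπ, hπ] at h3
      exact h3
  · intro x hx α hα
    rw [hs, Finset.mem_image] at hα
    obtain ⟨i, hi, rfl⟩ := hα
    have h1 : LinearIndepOn E P.root (b.support : Set H.root) := b.linearIndepOn_root
    rw [linearIndepOn_finset_iff] at h1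
    refine h1 (fun j => x (j : Weight E H L)) ?_ i hi
    refine LinearMap.ext fun h => ?_
    rw [LinearMap.sum_apply, LinearMap.zero_apply, ← hx h, hsum]
    rfl
  · intro β
    by_cases hβ : β.IsZero
    · refine ⟨0, fun h => ?_, Or.inl fun α => le_rfl⟩
      rw [hβ.eq]
      simp
    · let i : H.root := ⟨β, Finset.mem_filter.2 ⟨Finset.mem_univ _, hβ⟩⟩
      obtain ⟨φ, -, hφ⟩ := b.exists_root_eq_sum_nat_or_neg i
      let c0 : Weight E H L → ℤ := fun α => if hα : α ∈ H.root then (φ ⟨α, hα⟩ : ℤ) else 0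
      have hc0 : ∀ j : H.root, c0 (j : Weight E H L) = (φ j : ℤ) := fun j => dif_pos j.2
      have hc0n : ∀ α, 0 ≤ c0 α := by
        intro α
        show 0 ≤ (if hα : α ∈ H.root then (φ ⟨α, hα⟩ : ℤ) else 0)
        split_ifs
        · exact Int.natCast_nonneg _
        · exact le_rfl
      have hval : ∀ h : H, (∑ j ∈ b.support, φ j • P.root j) h = ∑ α ∈ s, (c0 α : E) * α h := by
        intro h
        rw [hsum (fun α => (c0 α : E) * α h), LinearMap.sum_apply]
        refine Finset.sum_congr rfl fun j _ => ?_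
        rw [hc0, LinearMap.smul_apply, hPr, nsmul_eq_mul, Int.cast_natCast]
      rcases hφ with hφ | hφ
      · refine ⟨c0, fun h => ?_, Or.inl hc0n⟩
        rw [← hval h, ← hφ]
        rfl
      · refine ⟨fun α => -c0 α, fun h => ?_, Or.inr fun α => by have := hc0n α; simp only; omega⟩
        have h1 : ∑ α ∈ s, ((-c0 α : ℤ) : E) * α h = -∑ α ∈ s, (c0 α : E) * α h := by
          rw [← Finset.sum_neg_distrib]
          refine Finset.sum_congr rfl fun α _ => ?_
          rw [Int.cast_neg, neg_mul]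
        rw [h1, ← hval h, ← LinearMap.neg_apply, ← hφ]
        rfl

end Pool.Agent.Lib.MP_ca71b5_nt
end

section

/-!
# Automorphisms whose fixed points lie in a Cartan subalgebra
-/

set_option autoImplicit false

namespace Pool.Agent.Lib.MP_ca71b5_nt

variable {E : Type*} [Field E] [CharZero E] [IsAlgClosed E] {L : Type*} [LieRing L]
  [LieAlgebra E L] [FiniteDimensional E L] [LieAlgebra.IsKilling E L]
  (H : LieSubalgebra E L) [H.IsCartanSubalgebra]

open LieAlgebra LieModule LieAlgebra.IsKilling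

private theorem cpe_exists_root [Nontrivial L] : ∃ α : Weight E H L, α.IsNonZero := by
  by_contra hcon
  push Not at hcon
  have h1 : (⊤ : LieSubmodule E H L) ≤ H.toLieSubmodule := by
    rw [← cartan_sup_iSup_rootSpace_eq_top (H := H)]
    refine sup_le le_rfl ?_
    refine iSup_le fun α => iSup_le fun hα => ?_
    exact absurd (hcon α) hα
  have h2 : ∀ x : L, x ∈ H := fun x => h1 (LieSubmodule.mem_top x)
  have h3 : H.toSubmodule = ⊤ := by
    rw [eq_top_iff]
    intro x _
    exact h2 x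
  have h4 := three_mul_rank_le H
  have h5 : Module.finrank E H = Module.finrank E L := by
    have : Module.finrank E H.toSubmodule = Module.finrank E L := by rw [h3, finrank_top]
    exact this
  have h6 : 0 < Module.finrank E L := Module.finrank_pos
  omega

theorem exists_matrix_fix (m : ℕ) (hm : 0 < m) (D : ℕ → ℕ) [Nontrivial L] (T : L ≃ₗ⁅E⁆ L)
    (hTm : ∀ x, T^[m] x = x) (hTH : ∀ x ∈ H, T x ∈ H) (a : H) (hTa : T a = a)
    (hreg : ∀ α : Weight E H L, α.IsNonZero → α a ≠ 0) (hfix : ∀ x, T x = x → x ∈ H)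
    (hD : ∀ l : ℕ, l.Prime → l ∣ m → ∃ (σ : E ≃+* E) (S : L ≃+ L),
      (∀ (c : E) (x : L), S (c • x) = σ c • S x) ∧ (∀ x y : L, S ⁅x, y⁆ = ⁅S x, S y⁆) ∧
      (∀ x, S (T x) = T (S x)) ∧ (∀ x ∈ H, S x ∈ H) ∧ (∀ x ∈ H, S.symm x ∈ H) ∧
      ∀ (z : E) (N : ℕ), IsPrimitiveRoot z l → σ^[N] z = z → D l ∣ N) :
    ∃ (d : ℕ) (M : Matrix (Fin d) (Fin d) ℤ), 1 ≤ d ∧ d ≤ Module.finrank E (fixS T) ∧
      3 * d ≤ Module.finrank E L ∧ IsOfFinOrder M ∧
      ∃ l : ℕ, l.Prime ∧ l ∣ m ∧ D l ∣ orderOf M := by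
  classical
  -- the inverse of `T` on `H`
  have hTk : ∀ (k : ℕ), ∀ x ∈ H, T^[k] x ∈ H := by
    intro k
    induction k with
    | zero => intro x hx; exact hx
    | succ k ih =>
      intro x hx
      rw [Function.iterate_succ_apply']
      exact hTH _ (ih x hx)
  have hTT : ∀ x, T (T^[m-1] x) = x := by
    intro x
    have h1 := Function.iterate_succ_apply' T (m-1) x
    rw [Nat.succ_eq_add_one, Nat.sub_add_cancel hm, hTm] at h1
    exact h1.symm
  have hsymm : ∀ x, T.symm x = T^[m-1] x := by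
    intro x
    conv_lhs => rw [← hTT x]
    exact T.symm_apply_apply _
  have hTH' : ∀ x ∈ H, T.symm x ∈ H := by
    intro x hx
    rw [hsymm]
    exact hTk _ x hx
  obtain ⟨πT, hπT1, hπT2⟩ := exists_weight_map H (RingEquiv.refl E) T.toLinearEquiv.toAddEquiv
    (fun c x => by simp) (fun x y => by
      change T ⁅x, y⁆ = ⁅T x, T y⁆
      exact T.map_lie x y) hTH hTH'
  have hπT1' : ∀ (α : Weight E H L) (h : H), πT α ⟨T h, hTH h h.2⟩ = α h := hπT1
  have hπT2' : ∀ (α : Weight E H L) (x : L), x ∈ rootSpace H α → T x ∈ rootSpace H (πT α) := hπT2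
  have hUs : Function.Surjective (fun h : H => (⟨T h, hTH h h.2⟩ : H)) := by
    intro h
    exact ⟨⟨T.symm h, hTH' h h.2⟩, Subtype.ext (T.apply_symm_apply (h : L))⟩
  obtain ⟨s, hs0, hsπ, hlin, hc⟩ := exists_stable_base H a hreg πT
    (fun h : H => (⟨T h, hTH h h.2⟩ : H)) hUs hπT1' (Subtype.ext hTa)
  choose c hc1 hc2 using hc
  -- uniqueness of the coefficients
  have huniq : ∀ d d' : Weight E H L → ℤ,
      (∀ h : H, ∑ γ ∈ s, (d γ : E) * γ h = ∑ γ ∈ s, (d' γ : E) * γ h) → ∀ γ ∈ s, d γ = d' γ := by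
    intro d d' h γ hγ
    have h1 := hlin (fun γ => (d γ : E) - (d' γ : E)) (by
      intro x
      simp only [sub_mul, Finset.sum_sub_distrib]
      rw [h x, sub_self]) γ hγ
    exact Int.cast_injective (sub_eq_zero.1 h1)
  have hne : s.Nonempty := by
    rw [Finset.nonempty_iff_ne_empty]
    rintro rfl
    obtain ⟨α, hα⟩ := cpe_exists_root H
    apply hα
    funext h
    have := hc1 α h
    simpa using this
  obtain ⟨α, hα⟩ := hne
  obtain ⟨z, hz1, hzm, hzσ⟩ := eigen_of_orbit H m hm T hTm hTH hfix πT hπT2' α (hs0 α hα)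
  have ho : orderOf z ∣ m := orderOf_dvd_of_pow_eq_one hzm
  have ho1 : orderOf z ≠ 1 := by
    intro h
    exact hz1 (orderOf_eq_one_iff.1 h)
  have hl : (orderOf z).minFac.Prime := Nat.minFac_prime ho1
  have hlm : (orderOf z).minFac ∣ m := (Nat.minFac_dvd _).trans ho
  obtain ⟨σ, S, hS1, hS2, hST, hSH, hSH', hDl⟩ := hD _ hl hlm
  obtain ⟨πS, hπS1, hπS2⟩ := exists_weight_map H σ S hS1 hS2 hSH hSH'
  have hVs : Function.Surjective (fun h : H => (⟨S h, hSH h h.2⟩ : H)) := by
    intro h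
    exact ⟨⟨S.symm h, hSH' h h.2⟩, Subtype.ext (S.apply_symm_apply (h : L))⟩
  have hcomm : ∀ β, πS (πT β) = πT (πS β) := by
    intro β
    apply Weight.ext
    intro h
    obtain ⟨h', rfl⟩ := hUs h
    obtain ⟨h'', rfl⟩ := hVs h'
    have e1 : (⟨T ((⟨S h'', hSH h'' h''.2⟩ : H) : L), hTH _ (hSH h'' h''.2)⟩ : H) =
        ⟨S ((⟨T h'', hTH h'' h''.2⟩ : H) : L), hSH _ (hTH h'' h''.2)⟩ := by
      apply Subtype.ext
      exact (hST h'').symm
    show πS (πT β) (⟨T ((⟨S h'', hSH h'' h''.2⟩ : H) : L), hTH _ (hSH h'' h''.2)⟩ : H) =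
      πT (πS β) (⟨T ((⟨S h'', hSH h'' h''.2⟩ : H) : L), hTH _ (hSH h'' h''.2)⟩ : H)
    rw [hπT1' (πS β) ⟨S h'', hSH h'' h''.2⟩, e1, hπS1 (πT β) ⟨T h'', hTH h'' h''.2⟩,
      hπT1' β h'', hπS1 β h'']
  obtain ⟨R, M, hRs, hRne, hRcyc, hMfin, hMk⟩ := exists_orbit_matrix s ⟨α, hα⟩ c πS πT (by
      intro α hα γ hγ
      refine huniq (c α) (fun γ => if γ = α then 1 else 0) ?_ γ hγ
      intro h
      rw [← hc1 α h]
      rw [Finset.sum_eq_single α]
      · simp
      · intro b _ hb
        simp [hb]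
      · intro h; exact absurd hα h) (by
      intro β α hα
      have h1 := huniq (c (πT β)) (fun γ => c β (πT.symm γ)) (by
        intro h
        rw [← hc1 (πT β) h]
        obtain ⟨h', rfl⟩ := hUs h
        show πT β ⟨T h', hTH h' h'.2⟩ = _
        rw [hπT1' β h', hc1 β h']
        refine Finset.sum_equiv πT (fun i => (hsπ i).symm) ?_
        intro i _
        rw [Equiv.symm_apply_apply]
        congr 1
        exact (hπT1' i h').symm) (πT α) ((hsπ α).2 hα)
      rw [h1]
      simp) hsπ (by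
      intro β γ hγ
      refine huniq (c (πS β)) (fun γ => ∑ α ∈ s, c β α * c (πS α) γ) ?_ γ hγ
      intro h
      rw [← hc1 (πS β) h]
      obtain ⟨h', rfl⟩ := hVs h
      show πS β ⟨S h', hSH h' h'.2⟩ = ∑ γ ∈ s, ((∑ α ∈ s, c β α * c (πS α) γ : ℤ) : E) *
        γ ⟨S h', hSH h' h'.2⟩
      rw [hπS1 β h', hc1 β h', map_sum]
      have h1 : ∀ α ∈ s, σ ((c β α : E) * α h') =
          ∑ γ ∈ s, ((c β α : E) * (c (πS α) γ : E)) * γ ⟨S h', hSH h' h'.2⟩ := by
        intro α _
        rw [map_mul, map_intCast, ← hπS1 α h', hc1 (πS α), Finset.mul_sum]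
        refine Finset.sum_congr rfl fun i _ => ?_
        ring
      rw [Finset.sum_congr rfl h1, Finset.sum_comm]
      refine Finset.sum_congr rfl fun i _ => ?_
      push_cast
      rw [Finset.sum_mul]) hcomm (by
      intro β
      rcases hc2 β with h | h
      · exact Or.inl fun γ _ => h γ
      · exact Or.inr fun γ _ => h γ) (by
      intro β β' h
      apply Weight.ext
      intro x
      rw [hc1 β x, hc1 β' x]
      exact Finset.sum_congr rfl fun γ hγ => by rw [h γ hγ])
  refine ⟨R.card, M, hRne.card_pos, card_le_fix H m hm T hTm hTH πT hπT1' s hsπ hlin R hRs hRcyc,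
    ?_, hMfin, ?_⟩
  · have h1 : R.card ≤ s.card := Finset.card_le_card hRs
    have h2 : s.card ≤ Module.finrank E H := by
      have hli : LinearIndependent E (fun α : s => (α : Weight E H L).toLinear) := by
        rw [Fintype.linearIndependent_iff]
        intro g hg i
        have h3 := hlin (fun α => if h : α ∈ s then g ⟨α, h⟩ else 0) (by
          intro h
          have h4 := congrArg (fun f : Module.Dual E H => f h) hg
          simp only [LinearMap.coe_sum, Finset.sum_apply, LinearMap.smul_apply,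
            LinearMap.zero_apply] at h4
          rw [← h4, ← Finset.sum_coe_sort s]
          refine Finset.sum_congr rfl fun j _ => ?_
          rw [dif_pos j.2]
          rfl) i i.2
        simpa using h3
      have h5 := hli.fintype_card_le_finrank
      rw [Subspace.dual_finrank_eq] at h5
      simpa using h5
    have h3 := three_mul_rank_le H
    omega
  · obtain ⟨k, hk⟩ := hMk α hα
    refine ⟨(orderOf z).minFac, hl, hlm, ?_⟩
    have hfixz := hzσ σ S hS1 hST πS hπS2 (orderOf M) k hk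
    have hz0 : 0 < orderOf z := Nat.pos_of_dvd_of_pos ho hm
    have hprim : IsPrimitiveRoot (z ^ (orderOf z / (orderOf z).minFac)) (orderOf z).minFac := by
      have h1 := (IsPrimitiveRoot.orderOf z).pow hz0
        (Nat.div_mul_cancel (Nat.minFac_dvd (orderOf z))).symm
      exact h1
    have hpowit : ∀ (n i : ℕ), σ^[n] (z ^ i) = (σ^[n] z) ^ i := by
      intro n i
      induction n with
      | zero => rfl
      | succ n ih => rw [Function.iterate_succ_apply', ih, map_pow, Function.iterate_succ_apply']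
    exact hDl _ (orderOf M) hprim (by rw [hpowit, hfixz])

end Pool.Agent.Lib.MP_ca71b5_nt
end
end

section

section

/-!
# The logarithm of a product
-/

set_option autoImplicit false

namespace Pool.Agent.Lib.MP_ca71b5_nt

variable {p : ℕ} [Fact p.Prime] {ι : Type} [Fintype ι] [DecidableEq ι]

/-- expansion of a power of `1 + P + E` to first order in `E` -/
theorem small_pow_expand_two {s t : ℤ} (hs : 0 ≤ s) (hst : s ≤ t) {P E : MQ p ι}
    (hP : Small s P) (hE : Small t E) (n : ℕ) :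
    Small (s + t) ((1 + P + E) ^ n - (1 + P) ^ n - (n : ℚ_[p]) • E) := by
  have hP0 : Small 0 P := hP.mono hs
  have hE0 : Small 0 E := hE.mono (hs.trans hst)
  have hX0 : Small 0 (1 + P + E) := (Small.one.add hP0).add hE0
  have hZ : ∀ n : ℕ, Small s ((1 + P) ^ n - 1) := by
    intro n
    have h1 := (small_pow_expand hs hP n).mono (s := s) (by omega)
    have h2 := h1.add (hP.nat_smul n)
    rwa [sub_add_cancel] at h2
  have hEE : Small (s + t) (E * (P + E)) := by
    have h1 := hE.mul (hP.add (hE.mono hst))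
    rwa [add_comm t s] at h1
  induction n with
  | zero => simpa using Small.zero (p := p) (ι := ι) (s + t)
  | succ n ih =>
    set F := (1 + P + E) ^ n - (1 + P) ^ n - (n : ℚ_[p]) • E with hF
    have h1 : (1 + P + E) ^ (n + 1) - (1 + P) ^ (n + 1) - ((n + 1 : ℕ) : ℚ_[p]) • E
        = ((1 + P) ^ n - 1) * E + (n : ℚ_[p]) • (E * (P + E)) + F * (1 + P + E) := by
      have h2 : (1 + P + E) ^ n = F + (1 + P) ^ n + (n : ℚ_[p]) • E := by rw [hF]; abel
      rw [pow_succ, pow_succ (1 + P), h2]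
      generalize (1 + P) ^ n = Z
      push_cast
      simp only [add_mul, mul_add, sub_mul, mul_one, one_mul, smul_mul_assoc, add_smul, one_smul,
        smul_add]
      abel
    rw [h1]
    refine ((hZ n).mul hE |>.add (hEE.nat_smul n)).add ?_
    have := ih.mul hX0
    rwa [add_zero] at this

theorem ell_mul_small (u v : GLZ p ι) (a b : ℕ) (ha : 2 ≤ a) (hab : a ≤ b)
    (hu : Small (a : ℤ) (gm u - 1)) (hv : Small (b : ℤ) (gm v - 1)) :
    Small (a + b - 1 : ℤ) (ell (u * v) - ell u - ell v) := by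
  have hp0 : (p : ℚ_[p]) ≠ 0 := by
    exact_mod_cast (Fact.out : p.Prime).ne_zero
  have hv' : Small (a : ℤ) (gm v - 1) := hv.mono (by omega)
  have huv : Small (a : ℤ) (gm (u * v) - 1) := by
    have h1 : gm (u * v) - 1 = gm u * (gm v - 1) + (gm u - 1) := by
      rw [gm_mul, mul_sub, mul_one]; abel
    rw [h1]
    have h2 := (small_gm u).mul hv'
    rw [zero_add] at h2
    exact h2.add hu
  -- the approximations
  set Y : GLZ p ι → ℕ → MQ p ι := fun w m => ((p : ℚ_[p]) ^ m)⁻¹ • (gm w ^ (p ^ m) - 1) with hY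
  have hYm : ∀ w m, gm w ^ (p ^ m) = 1 + ((p : ℚ_[p]) ^ m) • Y w m := by
    intro w m
    rw [hY]
    simp only
    rw [smul_smul, mul_inv_cancel₀ (pow_ne_zero m hp0), one_smul]
    abel
  have hYell : ∀ (w : GLZ p ι) (t : ℕ), 2 ≤ t → Small (t : ℤ) (gm w - 1) → ∀ m : ℕ,
      Small (m + 2 * t - 1 : ℤ) (Y w m - ell w) := by
    intro w t ht hw m
    have h1 := ((ell_expand w t ht hw).1 m).p_inv_smul m
    have h2 : ((p : ℚ_[p]) ^ m)⁻¹ • (gm w ^ (p ^ m) - 1 - ((p : ℚ_[p]) ^ m) • ell w)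
        = Y w m - ell w := by
      rw [smul_sub, smul_smul, inv_mul_cancel₀ (pow_ne_zero m hp0), one_smul]
    rw [h2] at h1
    exact h1.mono (by omega)
  have hYt : ∀ (w : GLZ p ι) (t : ℕ), 2 ≤ t → Small (t : ℤ) (gm w - 1) → ∀ m : ℕ,
      Small (t : ℤ) (Y w m) := by
    intro w t ht hw m
    have h1 := ((hYell w t ht hw m).mono (s := (t : ℤ)) (by omega)).add (ell_expand w t ht hw).2
    rwa [sub_add_cancel] at h1
  set D : ℕ → MQ p ι := fun m => Y (u * v) m - Y u m - Y v m with hD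
  have hDm : ∀ m, Small (a + b - 1 : ℤ) (D m) := by
    intro m
    induction m with
    | zero =>
      have h1 : D 0 = (gm u - 1) * (gm v - 1) := by
        simp only [hD, hY, pow_zero, inv_one, one_smul, pow_one]
        rw [gm_mul, sub_mul, mul_sub, mul_one, one_mul]
        abel
      rw [h1]
      exact (hu.mul hv).mono (by omega)
    | succ m ih =>
      set P := ((p : ℚ_[p]) ^ m) • Y u m with hP
      set Q := ((p : ℚ_[p]) ^ m) • Y v m with hQ
      set R := ((p : ℚ_[p]) ^ m) • Y (u * v) m with hR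
      have hPs : Small ((m : ℤ) + a) P := (hYt u a ha hu m).p_smul m
      have hQs : Small ((m : ℤ) + b) Q := (hYt v b (by omega) hv m).p_smul m
      have hRP : Small ((m : ℤ) + b) (R - P) := by
        have h1 : R - P = ((p : ℚ_[p]) ^ m) • (D m + Y v m) := by
          rw [hR, hP, ← smul_sub]
          congr 1
          simp only [hD]
          abel
        rw [h1]
        exact ((ih.mono (by omega)).add (hYt v b (by omega) hv m)).p_smul m
      have h1 := small_pow_expand_two (by omega) (by omega) hPs hRP p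
      have h2 : 1 + P + (R - P) = 1 + R := by abel
      rw [h2] at h1
      have h3 := (small_pow_expand (by omega) hQs p).mono (s := (m : ℤ) + a + (m + b)) (by omega)
      have h4 := (h1.sub h3).p_inv_smul (m + 1)
      have hYs : ∀ w, (1 + ((p : ℚ_[p]) ^ m) • Y w m) ^ p - 1
          = ((p : ℚ_[p]) ^ (m + 1)) • Y w (m + 1) := by
        intro w
        rw [← hYm, ← pow_mul, ← pow_succ, hYm w (m + 1)]
        abel
      have h5 : ((p : ℚ_[p]) ^ (m + 1))⁻¹ • ((1 + R) ^ p - (1 + P) ^ p - (p : ℚ_[p]) • (R - P)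
          - ((1 + Q) ^ p - 1 - (p : ℚ_[p]) • Q)) = D (m + 1) - D m := by
        have e1 : (1 + R) ^ p = 1 + ((p : ℚ_[p]) ^ (m + 1)) • Y (u * v) (m + 1) := by
          rw [← hYs (u * v)]; abel
        have e2 : (1 + P) ^ p = 1 + ((p : ℚ_[p]) ^ (m + 1)) • Y u (m + 1) := by
          rw [← hYs u]; abel
        have e3 : (1 + Q) ^ p = 1 + ((p : ℚ_[p]) ^ (m + 1)) • Y v (m + 1) := by
          rw [← hYs v]; abel
        rw [e1, e2, e3, hP, hQ, hR]
        have e4 : (1 + (p : ℚ_[p]) ^ (m + 1) • Y (u * v) (m + 1)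
            - (1 + (p : ℚ_[p]) ^ (m + 1) • Y u (m + 1))
            - (p : ℚ_[p]) • ((p : ℚ_[p]) ^ m • Y (u * v) m - (p : ℚ_[p]) ^ m • Y u m)
            - (1 + (p : ℚ_[p]) ^ (m + 1) • Y v (m + 1) - 1
              - (p : ℚ_[p]) • (p : ℚ_[p]) ^ m • Y v m))
            = ((p : ℚ_[p]) ^ (m + 1)) • (D (m + 1) - D m) := by
          simp only [hD, smul_sub, smul_smul, ← pow_succ']
          abel
        rw [e4, smul_smul, inv_mul_cancel₀ (pow_ne_zero _ hp0), one_smul]
      rw [h5] at h4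
      have h6 := (h4.mono (s := (a + b - 1 : ℤ)) (by push_cast; omega)).add ih
      rwa [sub_add_cancel] at h6
  have h1 := hYell u a ha hu b
  have h2 := hYell v b (by omega) hv b
  have h3 := hYell (u * v) a ha huv b
  have h4 : ell (u * v) - ell u - ell v
      = D b - (Y (u * v) b - ell (u * v)) + (Y u b - ell u) + (Y v b - ell v) := by
    simp only [hD]
    abel
  rw [h4]
  exact (((hDm b).sub (h3.mono (by omega))).add (h1.mono (by omega))).add (h2.mono (by omega))

end Pool.Agent.Lib.MP_ca71b5_nt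
end

section

/-!
# The logarithm is injective and preserves depth
-/

set_option autoImplicit false

namespace Pool.Agent.Lib.MP_ca71b5_nt

variable {p : ℕ} [Fact p.Prime] {ι : Type} [Fintype ι] [DecidableEq ι]


theorem small_ell_iff (u : GLZ p ι) (hu : Small 2 (gm u - 1)) (t : ℕ) (ht : 2 ≤ t) :
    Small (t : ℤ) (ell u) ↔ Small (t : ℤ) (gm u - 1) := by
  constructor
  · intro h
    by_cases hA : gm u - 1 = 0
    · rw [hA]
      exact Small.zero _
    obtain ⟨s, hs2, hs, hns⟩ := exists_exact (s := 2) (by exact_mod_cast hu) hA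
    by_cases hst : t ≤ s
    · exact hs.mono (by exact_mod_cast hst)
    · exfalso
      apply hns
      have h1 := (ell_expand u s hs2 hs).1 0
      rw [pow_zero, pow_zero, pow_one, one_smul] at h1
      have h2 : gm u - 1 = (gm u - 1 - ell u) + ell u := by abel
      rw [h2]
      refine Small.add (h1.mono ?_) (h.mono ?_)
      · push_cast
        omega
      · omega
  · intro h
    exact (ell_expand u t ht h).2

theorem ell_injective (u v : GLZ p ι) (hu : Small 2 (gm u - 1)) (hv : Small 2 (gm v - 1))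
    (h : ell u = ell v) : u = v := by
  have hdeep : ∀ g : GLZ p ι, Small 2 (gm g - 1) → Deep 2 0 g := by
    intro g hg
    unfold Deep
    simpa using hg
  have hinv : ell v⁻¹ = -ell v := ell_inv v 0 (hdeep v hv)
  have hv' : Small 2 (gm v⁻¹ - 1) := by
    have e : gm v⁻¹ - 1 = -(gm v⁻¹ * (gm v - 1)) := by
      rw [mul_sub, gm_inv_mul_gm, mul_one]
      abel
    rw [e]
    have := ((small_gm v⁻¹).mul hv).neg
    simpa using this
  have huv : Small 2 (gm (u * v⁻¹) - 1) := by
    have e : gm (u * v⁻¹) - 1 = (gm u - 1) * gm v⁻¹ + (gm v⁻¹ - 1) := by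
      rw [gm_mul]
      noncomm_ring
    rw [e]
    have := (hu.mul (small_gm v⁻¹))
    exact Small.add (by simpa using this) hv'
  let C : Subalgebra ℚ_[p] (MQ p ι) := Algebra.adjoin ℚ_[p] {ell u}
  have hmu : ell u ∈ C := Algebra.subset_adjoin rfl
  have hmv : ell v⁻¹ ∈ C := by
    rw [hinv, ← h]
    exact C.neg_mem hmu
  have hC : ∀ a ∈ C, ∀ b ∈ C, a * b = b * a := by
    intro a ha b hb
    have h1 : ∀ x ∈ ({ell u} : Set (MQ p ι)), ∀ y ∈ ({ell u} : Set (MQ p ι)), x * y = y * x := by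
      intro x hx y hy
      rw [Set.mem_singleton_iff] at hx hy
      rw [hx, hy]
    letI := Algebra.adjoinCommRingOfComm ℚ_[p] h1
    exact congrArg Subtype.val (mul_comm (⟨a, ha⟩ : Algebra.adjoin ℚ_[p] {ell u}) ⟨b, hb⟩)
  have key := ell_mul_mem_ideal C ⊥
    (fun a _ x hx => by
      rw [Submodule.mem_bot] at hx ⊢
      rw [hx, mul_zero])
    (fun a _ x hx => by
      rw [Submodule.mem_bot] at hx ⊢
      rw [hx, zero_mul])
    (fun a ha b hb => by
      rw [Submodule.mem_bot, hC a ha b hb, sub_self])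
    u v⁻¹ 0 (gm_mem_of_ell_mem C u hu hmu) (gm_mem_of_ell_mem C v⁻¹ hv' hmv)
    (hdeep u hu) (hdeep _ hv') (hdeep _ huv)
  rw [Submodule.mem_bot, hinv, h] at key
  have h0 : ell (u * v⁻¹) = 0 := by
    have : ell (u * v⁻¹) - ell v - -ell v = ell (u * v⁻¹) := by abel
    rw [← this, key]
  have := eq_one_of_ell_eq_zero (u * v⁻¹) huv h0
  exact mul_inv_eq_one.1 this

end Pool.Agent.Lib.MP_ca71b5_nt
end

section

/-!
# Small elements of the span are logarithms
-/

set_option autoImplicit false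

namespace Pool.Agent.Lib.MP_ca71b5_nt

variable {p : ℕ} [Fact p.Prime] {ι : Type} [Fintype ι] [DecidableEq ι]
  {Γ : Type} [Group Γ] [TopologicalSpace Γ] [IsTopologicalGroup Γ] [CompactSpace Γ]

/-- coordinates with respect to a linearly independent family are bounded -/
private theorem st2_coord {d : ℕ} (x : Fin d → MQ p ι) (hx : LinearIndependent ℚ_[p] x) :
    ∃ c : ℕ, ∀ (j : ℤ) (a : Fin d → ℚ_[p]), Small j (∑ i, a i • x i) →
      ∀ i, ‖a i‖ ≤ (p : ℝ) ^ (-(j - c)) := by
  have hker : (Fintype.linearCombination ℚ_[p] x).ker = ⊥ := by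
    rw [LinearMap.ker_eq_bot']
    intro m hm
    rw [Fintype.linearCombination_apply] at hm
    exact funext (Fintype.linearIndependent_iff.1 hx m hm)
  obtain ⟨Ψ, hΨ⟩ := LinearMap.exists_leftInverse_of_injective _ hker
  set C : ℝ := ∑ i, ∑ u, ∑ v, ‖Ψ (Matrix.single u v 1) i‖ with hC
  have hp1 := pR_one_lt p
  have hp0 := pR_pos p
  obtain ⟨c, hc⟩ := pow_unbounded_of_one_lt C hp1
  refine ⟨c, fun j a ha i => ?_⟩
  have h1 : Ψ (∑ i, a i • x i) = a := by
    have := LinearMap.congr_fun hΨ a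
    rw [LinearMap.comp_apply, Fintype.linearCombination_apply] at this
    exact this
  set A : MQ p ι := ∑ i, a i • x i with hA
  have h2 : a i = ∑ u, ∑ v, A u v * Ψ (Matrix.single u v 1) i := by
    conv_lhs => rw [← h1, Matrix.matrix_eq_sum_single A]
    rw [map_sum, Finset.sum_apply]
    refine Finset.sum_congr rfl fun u _ => ?_
    rw [map_sum, Finset.sum_apply]
    refine Finset.sum_congr rfl fun v _ => ?_
    have h3 : (Matrix.single u v (A u v) : MQ p ι) = A u v • Matrix.single u v 1 := by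
      rw [Matrix.smul_single, smul_eq_mul, mul_one]
    rw [h3, map_smul, Pi.smul_apply, smul_eq_mul]
  have h3 : ‖a i‖ ≤ (p : ℝ) ^ (-j) * C := by
    rw [h2]
    have h4 : ∀ u v, ‖A u v * Ψ (Matrix.single u v 1) i‖ ≤
        (p : ℝ) ^ (-j) * ‖Ψ (Matrix.single u v 1) i‖ := fun u v => by
      rw [norm_mul]
      exact mul_le_mul_of_nonneg_right (ha u v) (norm_nonneg _)
    calc ‖∑ u, ∑ v, A u v * Ψ (Matrix.single u v 1) i‖
        ≤ ∑ u, ∑ v, (p : ℝ) ^ (-j) * ‖Ψ (Matrix.single u v 1) i‖ := by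
          refine (norm_sum_le _ _).trans (Finset.sum_le_sum fun u _ => ?_)
          exact (norm_sum_le _ _).trans (Finset.sum_le_sum fun v _ => h4 u v)
      _ = (p : ℝ) ^ (-j) * ∑ u, ∑ v, ‖Ψ (Matrix.single u v 1) i‖ := by
          simp_rw [Finset.mul_sum]
      _ ≤ (p : ℝ) ^ (-j) * C := by
          refine mul_le_mul_of_nonneg_left ?_ (by positivity)
          rw [hC]
          exact Finset.single_le_sum (f := fun i => ∑ u, ∑ v, ‖Ψ (Matrix.single u v 1) i‖)
            (fun i _ => Finset.sum_nonneg fun u _ => Finset.sum_nonneg fun v _ => norm_nonneg _)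
            (Finset.mem_univ i)
  refine h3.trans ?_
  have h5 : (p : ℝ) ^ (-(j - c)) = (p : ℝ) ^ (-j) * (p : ℝ) ^ c := by
    rw [neg_sub, sub_eq_add_neg, zpow_add₀ hp0.ne', zpow_natCast, mul_comm]
  rw [h5]
  exact mul_le_mul_of_nonneg_left hc.le (by positivity)

theorem exists_preimage (ρ : Γ →* GLZ p ι) (hρ : Continuous ρ) (N : ℕ)
    (hN : ∀ g : Γ, Deep 2 N (ρ g)) :
    ∃ k0 : ℕ, 2 ≤ k0 ∧ ∀ k : ℕ, k0 ≤ k → ∀ y ∈ logSpan ρ, Small (k : ℤ) y →
      ∃ z : Γ, Small (k : ℤ) (gm (ρ z) - 1) ∧ ell (ρ z) = y := by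
  classical
  have hp0 := pR_pos p
  choose W hWn hWo hWk hW using fun t : ℕ => exists_open_reduction ρ hρ t
  have hanti : ∀ {s t : ℕ}, s ≤ t → W t ≤ W s := fun {s t} hst g hg => by
    rw [hW] at hg ⊢
    exact hg.mono (by exact_mod_cast hst)
  have hcell : Continuous fun g : Γ => ell (ρ g) := ell_continuous ρ hρ N hN
  have hLcl : ∀ t, IsClosed ((fun g : Γ => ell (ρ g)) '' (W t : Set Γ)) := fun t =>
    (((W t).isClosed_of_isOpen (hWo t)).isCompact.image hcell).isClosed
  -- powers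
  have hpow : ∀ (m : ℕ) (g : Γ), g ∈ W 2 → g ^ (p ^ m) ∈ W (2 + m) := by
    intro m g hg
    rw [hW] at hg ⊢
    have h2 : Small ((2:ℕ) : ℤ) (gm (ρ g) - 1) := hg
    obtain ⟨h3, h4⟩ := ell_expand (ρ g) 2 le_rfl h2
    rw [map_pow, gm_pow]
    have h5 := h3 m
    have h6 := h4.p_smul m
    have h7 : gm (ρ g) ^ p ^ m - 1 =
        (gm (ρ g) ^ p ^ m - 1 - (p : ℚ_[p]) ^ m • ell (ρ g)) + (p : ℚ_[p]) ^ m • ell (ρ g) := by
      abel
    rw [h7]
    refine (h5.mono ?_).add (h6.mono ?_)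
    · push_cast; omega
    · push_cast; omega
  -- p-adic powers
  have hpad : ∀ (m : ℕ) (g : Γ), g ∈ W 2 → ∀ b : ℤ_[p],
      ∃ z ∈ W (2 + m), ell (ρ z) = ((p : ℚ_[p]) ^ m * (b : ℚ_[p])) • ell (ρ g) := by
    intro m g hg b
    have hcont : Continuous fun b : ℤ_[p] => ((p : ℚ_[p]) ^ m * (b : ℚ_[p])) • ell (ρ g) :=
      (continuous_const.mul continuous_subtype_val).smul continuous_const
    have hcl := (hLcl (2 + m)).preimage hcont
    have hnat : Set.range (Nat.cast : ℕ → ℤ_[p]) ⊆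
        (fun b : ℤ_[p] => ((p : ℚ_[p]) ^ m * (b : ℚ_[p])) • ell (ρ g)) ⁻¹'
          ((fun g : Γ => ell (ρ g)) '' (W (2 + m) : Set Γ)) := by
      rintro _ ⟨n, rfl⟩
      refine ⟨(g ^ (p ^ m)) ^ n, (W (2 + m)).pow_mem (hpow m g hg) n, ?_⟩
      show ell (ρ ((g ^ p ^ m) ^ n)) = ((p : ℚ_[p]) ^ m * (((n : ℤ_[p])) : ℚ_[p])) • ell (ρ g)
      rw [← pow_mul, map_pow, ell_pow (ρ g) N (hN g)]
      push_cast
      rfl
    have h1 : b ∈ closure (Set.range (Nat.cast : ℕ → ℤ_[p])) := PadicInt.denseRange_natCast b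
    obtain ⟨z, hz, hz2⟩ := closure_minimal hnat hcl h1
    exact ⟨z, hz, hz2⟩
  -- finite products
  have hprod : ∀ (a : ℕ), 2 ≤ a → ∀ {d : ℕ} (z : Fin d → Γ), (∀ i, z i ∈ W a) →
      ∀ s : Finset (Fin d), ∃ w ∈ W a,
        Small (2 * a - 1 : ℤ) (ell (ρ w) - ∑ i ∈ s, ell (ρ (z i))) := by
    intro a ha d z hz s
    induction s using Finset.induction_on with
    | empty =>
      refine ⟨1, (W a).one_mem, ?_⟩
      rw [map_one, ell_one, Finset.sum_empty, sub_zero]
      exact Small.zero _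
    | insert i s hi ih =>
      obtain ⟨w, hw, hw2⟩ := ih
      refine ⟨z i * w, (W a).mul_mem (hz i) hw, ?_⟩
      rw [Finset.sum_insert hi, map_mul]
      have h1 := ell_mul_small (ρ (z i)) (ρ w) a a ha le_rfl ((hW a _).1 (hz i)) ((hW a _).1 hw)
      have h2 : ell (ρ (z i) * ρ w) - (ell (ρ (z i)) + ∑ i ∈ s, ell (ρ (z i))) =
          (ell (ρ (z i) * ρ w) - ell (ρ (z i)) - ell (ρ w)) +
            (ell (ρ w) - ∑ i ∈ s, ell (ρ (z i))) := by abel
      rw [h2]
      exact (h1.mono (by omega)).add hw2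
  -- a spanning family
  have hspan : logSpan ρ = Submodule.span ℚ_[p] ((fun g : Γ => ell (ρ g)) '' (W 2 : Set Γ)) := by
    refine le_antisymm ?_ (Submodule.span_mono ?_)
    · rw [logSpan, Submodule.span_le]
      rintro _ ⟨g, rfl⟩
      have hpN : ((p : ℚ_[p]) ^ N) ≠ 0 := by
        have : (p : ℚ_[p]) ≠ 0 := by
          exact_mod_cast (Fact.out : p.Prime).ne_zero
        exact pow_ne_zero _ this
      have h1 : g ^ (p ^ N) ∈ W 2 := by
        rw [hW, map_pow, gm_pow]
        exact hN g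
      have h2 : ell (ρ g) = ((p : ℚ_[p]) ^ N)⁻¹ • ell (ρ (g ^ p ^ N)) := by
        rw [map_pow, ell_pow (ρ g) N (hN g), smul_smul]
        push_cast
        rw [inv_mul_cancel₀ hpN, one_smul]
      show ell (ρ g) ∈ Submodule.span ℚ_[p] ((fun g : Γ => ell (ρ g)) '' (W 2 : Set Γ))
      rw [h2]
      exact Submodule.smul_mem _ _ (Submodule.subset_span ⟨_, h1, rfl⟩)
    · rintro _ ⟨g, -, rfl⟩
      exact ⟨g, rfl⟩
  obtain ⟨x, hx1, hx2, hx3⟩ := Submodule.exists_fun_fin_finrank_span_eq ℚ_[p]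
    ((fun g : Γ => ell (ρ g)) '' (W 2 : Set Γ))
  choose g hg hgx using hx1
  obtain ⟨c0, hc0⟩ := st2_coord x hx3
  obtain ⟨c, hc2, hc⟩ : ∃ c : ℕ, 2 ≤ c ∧ c0 ≤ c := ⟨max 2 c0, le_max_left _ _, le_max_right _ _⟩
  -- first approximation
  have hP1 : ∀ j : ℕ, c ≤ j → ∀ y ∈ logSpan ρ, Small (j : ℤ) y →
      ∃ w ∈ W (2 + (j - c)), Small (2 * (j : ℤ) - 2 * c + 3) (ell (ρ w) - y) := by
    intro j hj y hy hyj
    rw [hspan, ← hx2] at hy
    obtain ⟨a, ha⟩ := (Submodule.mem_span_range_iff_exists_fun ℚ_[p]).1 hy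
    rw [← ha] at hyj
    have h1 := hc0 j a hyj
    have h2 : ∀ i, ∃ b : ℤ_[p], a i = (p : ℚ_[p]) ^ (j - c) * (b : ℚ_[p]) := by
      intro i
      have hpne : ((p : ℚ_[p]) ^ (j - c)) ≠ 0 := by
        have : (p : ℚ_[p]) ≠ 0 := by
          exact_mod_cast (Fact.out : p.Prime).ne_zero
        exact pow_ne_zero _ this
      have h3 : ‖((p : ℚ_[p]) ^ (j - c))⁻¹ * a i‖ ≤ 1 := by
        rw [norm_mul, norm_p_pow_inv]
        calc (p : ℝ) ^ (((j - c : ℕ)) : ℤ) * ‖a i‖
            ≤ (p : ℝ) ^ (((j - c : ℕ)) : ℤ) * (p : ℝ) ^ (-((j : ℤ) - c0)) :=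
              mul_le_mul_of_nonneg_left (h1 i) (by positivity)
          _ = (p : ℝ) ^ ((((j - c : ℕ)) : ℤ) + (-((j : ℤ) - c0))) := by
              rw [zpow_add₀ hp0.ne']
          _ ≤ 1 := by
              refine zpow_le_one_of_nonpos₀ (pR_one_lt p).le ?_
              push_cast [hj]
              omega
      refine ⟨⟨_, h3⟩, ?_⟩
      show a i = (p : ℚ_[p]) ^ (j - c) * (((p : ℚ_[p]) ^ (j - c))⁻¹ * a i)
      rw [mul_inv_cancel_left₀ hpne]
    choose b hb using h2
    choose z hz hz2 using fun i => hpad (j - c) (g i) (hg i) (b i)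
    obtain ⟨w, hw, hw2⟩ := hprod (2 + (j - c)) (by omega) z hz Finset.univ
    refine ⟨w, hw, ?_⟩
    have h3 : ∑ i, ell (ρ (z i)) = y := by
      rw [← ha]
      refine Finset.sum_congr rfl fun i _ => ?_
      rw [hz2, ← hb]
      have h4 : ell (ρ (g i)) = x i := hgx i
      rw [h4]
    rw [h3] at hw2
    exact hw2.mono (by push_cast [hj]; omega)
  -- iteration
  have hP2 : ∀ j : ℕ, 2 * c ≤ j → ∀ y ∈ logSpan ρ, Small (j : ℤ) y → ∀ n : ℕ,
      ∃ z ∈ W (2 + (j - c)), Small ((j : ℤ) + 3 * n) (ell (ρ z) - y) := by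
    intro j hj y hy hyj n
    induction n with
    | zero =>
      refine ⟨1, (W _).one_mem, ?_⟩
      rw [map_one, ell_one, zero_sub]
      exact (hyj.neg).mono (by simp)
    | succ n ih =>
      obtain ⟨z, hz, hz2⟩ := ih
      have he : y - ell (ρ z) ∈ logSpan ρ :=
        (logSpan ρ).sub_mem hy (Submodule.subset_span ⟨z, rfl⟩)
      have he2 : Small (((j + 3 * n : ℕ)) : ℤ) (y - ell (ρ z)) := by
        have := hz2.neg
        rw [neg_sub] at this
        exact this.mono (by push_cast; omega)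
      obtain ⟨w, hw, hw2⟩ := hP1 (j + 3 * n) (by omega) _ he he2
      refine ⟨z * w, (W _).mul_mem hz (hanti (by omega) hw), ?_⟩
      have h1 := ell_mul_small (ρ z) (ρ w) (2 + (j - c)) (2 + (j + 3 * n - c)) (by omega)
        (by omega) ((hW _ _).1 hz) ((hW _ _).1 hw)
      have h2 : ell (ρ (z * w)) - y = (ell (ρ z * ρ w) - ell (ρ z) - ell (ρ w)) +
          (ell (ρ w) - (y - ell (ρ z))) := by
        rw [map_mul]
        abel
      rw [h2]
      have h3 : ((j - c : ℕ) : ℤ) = j - c := by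
        rw [Nat.cast_sub (by omega)]
      have h4 : ((j + 3 * n - c : ℕ) : ℤ) = j + 3 * n - c := by
        rw [Nat.cast_sub (by omega)]
        push_cast
        ring
      refine (h1.mono ?_).add (hw2.mono ?_)
      · push_cast
        rw [h3, h4]
        omega
      · push_cast
        omega
  -- the preimage
  refine ⟨2 * c, by omega, fun k hk y hy hyk => ?_⟩
  have hmem : y ∈ (fun g : Γ => ell (ρ g)) '' (W (2 + (k - c)) : Set Γ) := by
    choose z hz hz2 using hP2 k hk y hy hyk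
    have htend : Filter.Tendsto (fun n => ell (ρ (z n))) Filter.atTop (nhds y) := by
      have h1 : Filter.Tendsto (fun n => ell (ρ (z n)) - y) Filter.atTop (nhds 0) := by
        refine tendsto_zero_of_small fun t => ?_
        filter_upwards [Filter.eventually_ge_atTop t.toNat] with n hn
        exact (hz2 n).mono (by omega)
      have h2 := h1.add_const y
      simpa using h2
    exact (hLcl _).mem_of_tendsto htend (Filter.Eventually.of_forall fun n => ⟨z n, hz n, rfl⟩)
  obtain ⟨z, hz, hz2⟩ := hmem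
  have hz3 : ell (ρ z) = y := hz2
  refine ⟨z, ?_, hz3⟩
  have h1 : Small 2 (gm (ρ z) - 1) := (hW 2 z).1 (hanti (by omega) hz)
  rw [← small_ell_iff (ρ z) h1 k (by omega), hz3]
  exact hyk

end Pool.Agent.Lib.MP_ca71b5_nt
end

section

/-!
# The index of the congruence subgroups
-/

set_option autoImplicit false

namespace Pool.Agent.Lib.MP_ca71b5_nt

variable {p : ℕ} [Fact p.Prime] {ι : Type} [Fintype ι] [DecidableEq ι]
  {Γ : Type} [Group Γ] [TopologicalSpace Γ] [IsTopologicalGroup Γ] [CompactSpace Γ]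

/-- the lattice of the small elements of a subspace -/
private noncomputable def st4_lat (S : Submodule ℚ_[p] (MQ p ι)) (k : ℕ) :
    Submodule ℤ_[p] (MQ p ι) where
  carrier := {y | y ∈ S ∧ Small (k : ℤ) y}
  add_mem' := fun h1 h2 => ⟨S.add_mem h1.1 h2.1, h1.2.add h2.2⟩
  zero_mem' := ⟨S.zero_mem, Small.zero _⟩
  smul_mem' := fun c x hx => ⟨by
      have h : c • x = (c : ℚ_[p]) • x := by
        ext i j
        rfl
      rw [h]
      exact S.smul_mem _ hx.1, hx.2.padicInt_smul c⟩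

private theorem st4_basis (S : Submodule ℚ_[p] (MQ p ι)) (k : ℕ) :
    Nonempty (Module.Basis (Fin (Module.finrank ℚ_[p] S)) ℤ_[p] (st4_lat S k)) := by
  classical
  have hp0 : (p : ℚ_[p]) ≠ 0 := by
    exact_mod_cast (Fact.out : p.Prime).ne_zero
  let f : ι × ι → MQ p ι := fun q => Matrix.single q.1 q.2 1
  have hle : st4_lat S k ≤ Submodule.span ℤ_[p] (Set.range f) := by
    intro x hx
    have hc : ∀ q : ι × ι, ‖x q.1 q.2‖ ≤ 1 := by
      intro q
      refine (hx.2 q.1 q.2).trans ?_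
      exact zpow_le_one_of_nonpos₀ (pR_one_lt p).le (by omega)
    let c : ι × ι → ℤ_[p] := fun q => ⟨x q.1 q.2, hc q⟩
    have e : x = ∑ q : ι × ι, c q • f q := by
      conv_lhs => rw [Matrix.matrix_eq_sum_single x]
      rw [← Finset.univ_product_univ, Finset.sum_product]
      refine Finset.sum_congr rfl fun i _ => Finset.sum_congr rfl fun j _ => ?_
      ext a b
      show Matrix.single i j (x i j) a b = x i j * Matrix.single i j 1 a b
      rw [Matrix.single_apply, Matrix.single_apply]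
      split_ifs <;> simp
    rw [e]
    exact Submodule.sum_mem _ fun q _ =>
      Submodule.smul_mem _ _ (Submodule.subset_span ⟨q, rfl⟩)
  have hN : IsNoetherian ℤ_[p] (Submodule.span ℤ_[p] (Set.range f)) :=
    isNoetherian_span_of_finite ℤ_[p] (Set.finite_range f)
  have hMfg : (st4_lat S k).FG := Submodule.FG.of_le_of_isNoetherian hle
  have hfin : Module.Finite ℤ_[p] (st4_lat S k) := Module.Finite.iff_fg.mpr hMfg
  have hsm : ∀ (c : ℤ_[p]) (x : MQ p ι), c • x = (c : ℚ_[p]) • x := by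
    intro c x
    ext i j
    rfl
  have htf : Module.IsTorsionFree ℤ_[p] (st4_lat S k) := by
    refine ⟨fun r hr x y hxy => ?_⟩
    have hr0 : (r : ℚ_[p]) ≠ 0 := by
      have := hr.ne_zero
      intro h
      exact this (Subtype.ext h)
    have h1 : r • (x : MQ p ι) = r • (y : MQ p ι) := congrArg (Submodule.subtype _) hxy
    rw [hsm, hsm] at h1
    exact Subtype.ext (smul_right_injective (MQ p ι) hr0 h1)
  have hfree : Module.Free ℤ_[p] (st4_lat S k) := Module.free_of_finite_type_torsion_free'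
  let B := Module.finBasis ℤ_[p] (st4_lat S k)
  let v : Fin (Module.finrank ℤ_[p] (st4_lat S k)) → MQ p ι := fun i => (B i : MQ p ι)
  have hv1 : LinearIndependent ℤ_[p] v :=
    B.linearIndependent.map' (st4_lat S k).subtype (Submodule.ker_subtype _)
  have hv2 : LinearIndependent ℚ_[p] v :=
    (LinearIndependent.iff_fractionRing ℤ_[p] ℚ_[p]).1 hv1
  have hspan : Submodule.span ℚ_[p] (Set.range v) = S := by
    refine le_antisymm (Submodule.span_le.2 ?_) ?_
    · rintro _ ⟨i, rfl⟩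
      exact (B i).2.1
    · intro y hy
      obtain ⟨t, ht⟩ := exists_small y
      have h1 : Small (k : ℤ) ((p : ℚ_[p]) ^ ((k : ℤ) - t).toNat • y) :=
        (ht.p_smul _).mono (by omega)
      have h2 : ((p : ℚ_[p]) ^ ((k : ℤ) - t).toNat • y) ∈ st4_lat S k :=
        ⟨S.smul_mem _ hy, h1⟩
      have h3 : ((p : ℚ_[p]) ^ ((k : ℤ) - t).toNat • y) ∈ Submodule.span ℚ_[p] (Set.range v) := by
        have h4 := B.sum_repr ⟨_, h2⟩
        have h5 := congrArg (Submodule.subtype (st4_lat S k)) h4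
        rw [map_sum] at h5
        have h6 : (Submodule.subtype (st4_lat S k)) ⟨_, h2⟩ =
          ((p : ℚ_[p]) ^ ((k : ℤ) - t).toNat • y) := rfl
        rw [← h6, ← h5]
        refine Submodule.sum_mem _ fun i _ => ?_
        rw [map_smul, hsm]
        exact Submodule.smul_mem _ _ (Submodule.subset_span ⟨i, rfl⟩)
      have h4 := Submodule.smul_mem _ (((p : ℚ_[p]) ^ ((k : ℤ) - t).toNat)⁻¹) h3
      rwa [smul_smul, inv_mul_cancel₀ (pow_ne_zero _ hp0), one_smul] at h4
  have hrank : Module.finrank ℚ_[p] S = Module.finrank ℤ_[p] (st4_lat S k) := by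
    have h1 := finrank_span_eq_card hv2
    rw [hspan, Fintype.card_fin] at h1
    exact h1
  rw [hrank]
  exact ⟨B⟩

private theorem st4_hom (S : Submodule ℚ_[p] (MQ p ι)) (k : ℕ) :
    ∃ φ : st4_lat S k →+ (Fin (Module.finrank ℚ_[p] S) → ZMod p), Function.Surjective φ ∧
      ∀ x : st4_lat S k, φ x = 0 ↔ Small ((k : ℤ) + 1) (x : MQ p ι) := by
  classical
  have hp0 : (p : ℚ_[p]) ≠ 0 := by
    exact_mod_cast (Fact.out : p.Prime).ne_zero
  obtain ⟨B⟩ := st4_basis S k
  have hsm : ∀ (c : ℤ_[p]) (x : MQ p ι), c • x = (c : ℚ_[p]) • x := by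
    intro c x
    ext i j
    rfl
  let φ : st4_lat S k →+ (Fin (Module.finrank ℚ_[p] S) → ZMod p) :=
    { toFun := fun x i => PadicInt.toZMod (B.repr x i)
      map_zero' := by
        funext i
        simp
      map_add' := by
        intro x y
        funext i
        simp }
  have hφ : ∀ x i, φ x i = PadicInt.toZMod (B.repr x i) := fun x i => rfl
  refine ⟨φ, ?_, ?_⟩
  · intro c
    refine ⟨B.equivFun.symm fun i => (((c i).val : ℕ) : ℤ_[p]), ?_⟩
    funext i
    rw [hφ, ← B.equivFun_apply, LinearEquiv.apply_symm_apply, map_natCast, ZMod.natCast_zmod_val]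
  · intro x
    constructor
    · intro h
      have h1 : ∀ i, ∃ b : ℤ_[p], B.repr x i = (p : ℤ_[p]) * b := by
        intro i
        have h2 : PadicInt.toZMod (B.repr x i) = 0 := by rw [← hφ, h]; rfl
        have h3 : B.repr x i ∈ RingHom.ker (PadicInt.toZMod (p := p)) := h2
        rw [PadicInt.ker_toZMod, PadicInt.maximalIdeal_eq_span_p, Ideal.mem_span_singleton] at h3
        exact h3
      choose b hb using h1
      have h2 : x = (p : ℤ_[p]) • (∑ i, b i • B i) := by
        conv_lhs => rw [← B.sum_repr x]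
        rw [Finset.smul_sum]
        exact Finset.sum_congr rfl fun i _ => by rw [hb i, mul_smul]
      have h3 : (x : MQ p ι) = (p : ℚ_[p]) ^ 1 • ((∑ i, b i • B i : st4_lat S k) : MQ p ι) := by
        rw [pow_one]
        conv_lhs => rw [h2]
        rw [Submodule.coe_smul, hsm]
        push_cast
        rfl
      rw [h3]
      exact ((∑ i, b i • B i : st4_lat S k).2.2.p_smul 1).mono (by push_cast; omega)
    · intro h
      have h1 : ((p : ℚ_[p]) ^ 1)⁻¹ • (x : MQ p ι) ∈ st4_lat S k :=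
        ⟨S.smul_mem _ x.2.1, (h.p_inv_smul 1).mono (by push_cast; omega)⟩
      have h2 : x = (p : ℤ_[p]) • (⟨_, h1⟩ : st4_lat S k) := by
        apply Subtype.ext
        rw [Submodule.coe_smul, hsm]
        show (x : MQ p ι) = ((p : ℤ_[p]) : ℚ_[p]) • ((p : ℚ_[p]) ^ 1)⁻¹ • (x : MQ p ι)
        rw [smul_smul, pow_one, PadicInt.coe_natCast, mul_inv_cancel₀ hp0, one_smul]
      funext i
      rw [hφ, h2, map_smul, Finsupp.smul_apply, smul_eq_mul, map_mul, map_natCast,
        ZMod.natCast_self, zero_mul]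
      rfl

theorem index_reduction (ρ : Γ →* GLZ p ι) (hρ : Continuous ρ) (N : ℕ)
    (hN : ∀ g : Γ, Deep 2 N (ρ g)) (H : ℕ → Subgroup Γ)
    (hH : ∀ (t : ℕ) (g : Γ), g ∈ H t ↔ Small (t : ℤ) (gm (ρ g) - 1)) :
    ∃ k0 : ℕ, ∀ k : ℕ, k0 ≤ k → ∀ j : ℕ,
      (H (k + j)).relIndex (H k) = p ^ (j * Module.finrank ℚ_[p] (logSpan ρ)) := by
  classical
  obtain ⟨k0, hk02, hk0⟩ := exists_preimage ρ hρ N hN
  have hle : ∀ s t : ℕ, s ≤ t → H t ≤ H s := by
    intro s t hst g hg
    rw [hH] at hg ⊢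
    exact hg.mono (by omega)
  have hstep : ∀ k : ℕ, k0 ≤ k →
      (H (k + 1)).relIndex (H k) = p ^ Module.finrank ℚ_[p] (logSpan ρ) := by
    intro k hk
    obtain ⟨φ, hφs, hφ0⟩ := st4_hom (logSpan ρ) k
    have hs2 : ∀ g : Γ, Small (k : ℤ) (gm (ρ g) - 1) → Small 2 (gm (ρ g) - 1) :=
      fun g hg => hg.mono (by omega)
    have hmem : ∀ g : H k, ell (ρ (g : Γ)) ∈ st4_lat (logSpan ρ) k := by
      intro g
      have h1 := (hH k g).1 g.2
      exact ⟨Submodule.subset_span ⟨(g : Γ), rfl⟩,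
        (small_ell_iff (ρ (g : Γ)) (hs2 _ h1) k (by omega)).2 h1⟩
    let f : H k →* Multiplicative (Fin (Module.finrank ℚ_[p] (logSpan ρ)) → ZMod p) :=
      MonoidHom.mk' (fun g => Multiplicative.ofAdd (φ ⟨ell (ρ (g : Γ)), hmem g⟩)) (by
        intro g h
        rw [← ofAdd_add]
        congr 1
        rw [← sub_eq_zero, ← map_add, ← map_sub, hφ0]
        have h1 := (hH k g).1 g.2
        have h2 := (hH k h).1 h.2
        have h3 := ell_mul_small (ρ (g : Γ)) (ρ (h : Γ)) k k (by omega) le_rfl h1 h2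
        have h4 : (((⟨ell (ρ ((g * h : H k) : Γ)), hmem (g * h)⟩ : st4_lat (logSpan ρ) k) -
            ((⟨ell (ρ (g : Γ)), hmem g⟩ : st4_lat (logSpan ρ) k) +
              ⟨ell (ρ (h : Γ)), hmem h⟩) : st4_lat (logSpan ρ) k) : MQ p ι) =
            ell (ρ (g : Γ) * ρ (h : Γ)) - ell (ρ (g : Γ)) - ell (ρ (h : Γ)) := by
          rw [← map_mul]
          show ell (ρ ((g : Γ) * (h : Γ))) - (ell (ρ (g : Γ)) + ell (ρ (h : Γ))) = _
          abel
        rw [h4]
        exact h3.mono (by omega))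
    have hf : ∀ g, f g = Multiplicative.ofAdd (φ ⟨ell (ρ (g : Γ)), hmem g⟩) := fun g => rfl
    have hsurj : Function.Surjective f := by
      intro c
      obtain ⟨x, hx⟩ := hφs (Multiplicative.toAdd c)
      obtain ⟨z, hz1, hz2⟩ := hk0 k hk x x.2.1 x.2.2
      refine ⟨⟨z, (hH k z).2 hz1⟩, ?_⟩
      rw [hf]
      have e : (⟨ell (ρ z), hmem ⟨z, (hH k z).2 hz1⟩⟩ : st4_lat (logSpan ρ) k) = x :=
        Subtype.ext hz2
      rw [e, hx]
      rfl
    have hker : f.ker = (H (k + 1)).subgroupOf (H k) := by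
      ext g
      rw [MonoidHom.mem_ker, hf, Subgroup.mem_subgroupOf, hH]
      have h1 := (hH k g).1 g.2
      have e1 : Multiplicative.ofAdd (φ ⟨ell (ρ (g : Γ)), hmem g⟩) = 1 ↔
          φ ⟨ell (ρ (g : Γ)), hmem g⟩ = 0 := ofAdd_eq_one
      rw [e1, hφ0]
      have h2 := small_ell_iff (ρ (g : Γ)) (hs2 _ h1) (k + 1) (by omega)
      push_cast at h2 ⊢
      exact h2
    rw [Subgroup.relIndex, ← hker, Subgroup.index_ker]
    have hr : (f.range : Subgroup _) = ⊤ := MonoidHom.range_eq_top.2 hsurj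
    rw [hr, Nat.card_congr (Subgroup.topEquiv (G := Multiplicative
      (Fin (Module.finrank ℚ_[p] (logSpan ρ)) → ZMod p))).toEquiv]
    rw [Nat.card_congr Multiplicative.toAdd, Nat.card_fun, Nat.card_zmod, Nat.card_fin]
  refine ⟨k0, fun k hk j => ?_⟩
  induction j with
  | zero => rw [add_zero, Subgroup.relIndex_self, zero_mul, pow_zero]
  | succ j ih =>
    rw [← Subgroup.relIndex_mul_relIndex (H (k + (j + 1))) (H (k + j)) (H k)
      (hle _ _ (by omega)) (hle _ _ (by omega)), ih]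
    have h1 := hstep (k + j) (by omega)
    rw [← add_assoc, h1, ← pow_add]
    congr 1
    ring

end Pool.Agent.Lib.MP_ca71b5_nt
end

section

/-!
# The dimension depends only on the kernel
-/

set_option autoImplicit false

namespace Pool.Agent.Lib.MP_ca71b5_nt

variable {p : ℕ} [Fact p.Prime] {ι ι' : Type} [Fintype ι] [DecidableEq ι] [Fintype ι']
  [DecidableEq ι'] {Γ : Type} [Group Γ] [TopologicalSpace Γ] [IsTopologicalGroup Γ]
  [CompactSpace Γ]

omit [IsTopologicalGroup Γ] [CompactSpace Γ] [TopologicalSpace Γ] in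
private theorem st6_mono (ρ : Γ →* GLZ p ι) (H : ℕ → Subgroup Γ)
    (hH : ∀ (t : ℕ) (g : Γ), g ∈ H t ↔ Small (t : ℤ) (gm (ρ g) - 1)) {s t : ℕ} (h : s ≤ t) :
    H t ≤ H s := by
  intro g hg
  rw [hH] at hg ⊢
  exact hg.mono (by exact_mod_cast h)

private theorem st6_compact (ρ : Γ →* GLZ p ι) (H : ℕ → Subgroup Γ)
    (hHo : ∀ t, IsOpen (H t : Set Γ))
    (hH : ∀ (t : ℕ) (g : Γ), g ∈ H t ↔ Small (t : ℤ) (gm (ρ g) - 1))
    (U : Subgroup Γ) (hU : IsOpen (U : Set Γ)) (hker : ρ.ker ≤ U) (K : ℕ) :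
    ∃ k : ℕ, K ≤ k ∧ H k ≤ U := by
  by_contra hcon
  push Not at hcon
  have hcl : ∀ t, IsClosed ((H t : Set Γ) ∩ (U : Set Γ)ᶜ) := fun t =>
    (Subgroup.isClosed_of_isOpen _ (hHo t)).inter hU.isClosed_compl
  have h1 := IsCompact.nonempty_iInter_of_sequence_nonempty_isCompact_isClosed
    (fun t : ℕ => (H (K + t) : Set Γ) ∩ (U : Set Γ)ᶜ)
    (fun t z hz => ⟨st6_mono ρ H hH (by omega) hz.1, hz.2⟩)
    (fun t => by
      obtain ⟨z, hz, hz'⟩ := Set.not_subset.1 (hcon (K + t) (by omega))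
      exact ⟨z, hz, hz'⟩)
    ((hcl _).isCompact) (fun t => hcl _)
  obtain ⟨z, hz⟩ := h1
  rw [Set.mem_iInter] at hz
  refine (hz 0).2 (hker ?_)
  rw [MonoidHom.mem_ker]
  apply gm_injective
  rw [gm_one]
  refine sub_eq_zero.1 (eq_zero_of_small fun t => ?_)
  have h2 := (hz t).1
  have h3 := (hH (K + t) z).1 h2
  exact h3.mono (by push_cast; omega)

theorem finrank_le_of_ker (ρ : Γ →* GLZ p ι) (hρ : Continuous ρ) (N : ℕ)
    (hN : ∀ g : Γ, Deep 2 N (ρ g)) (ρ' : Γ →* GLZ p ι') (hρ' : Continuous ρ') (N' : ℕ)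
    (hN' : ∀ g : Γ, Deep 2 N' (ρ' g)) (hker : ρ'.ker = ρ.ker) :
    Module.finrank ℚ_[p] (logSpan ρ') ≤ Module.finrank ℚ_[p] (logSpan ρ) := by
  choose H hHn hHo hHk hH using exists_open_reduction ρ hρ
  choose H' hHn' hHo' hHk' hH' using exists_open_reduction ρ' hρ'
  obtain ⟨k0, hk0⟩ := index_reduction ρ hρ N hN H hH
  obtain ⟨k0', hk0'⟩ := index_reduction ρ' hρ' N' hN' H' hH'
  obtain ⟨k2, hk2, hpre⟩ := exists_preimage ρ hρ N hN
  obtain ⟨k1, hk1, hle⟩ := st6_compact ρ H hHo hH (H' (max k0' 2)) (hHo' _)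
    (hker ▸ hHk' _) (max k0 k2)
  set k := max k0' 2 with hk
  have hk2' : 2 ≤ k := le_max_right _ _
  have hk0k : k0' ≤ k := le_max_left _ _
  have hk1a : k0 ≤ k1 := (le_max_left _ _).trans hk1
  have hk1b : k2 ≤ k1 := (le_max_right _ _).trans hk1
  have hp0 : (p : ℚ_[p]) ≠ 0 := by exact_mod_cast (Fact.out : p.Prime).ne_zero
  -- the key claim
  have hclaim : ∀ j : ℕ, H (k1 + j) ≤ H' (k + j) := by
    intro j g hg
    have hg1 : Small (((k1 + j : ℕ)) : ℤ) (gm (ρ g) - 1) := (hH _ _).1 hg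
    have hg2 : Small (2 : ℤ) (gm (ρ g) - 1) := hg1.mono (by push_cast; omega)
    have hell : Small (((k1 + j : ℕ)) : ℤ) (ell (ρ g)) :=
      (ell_expand (ρ g) (k1 + j) (by omega) hg1).2
    have hy : ((p : ℚ_[p]) ^ j)⁻¹ • ell (ρ g) ∈ logSpan ρ :=
      Submodule.smul_mem _ _ (Submodule.subset_span ⟨g, rfl⟩)
    have hys : Small (k1 : ℤ) (((p : ℚ_[p]) ^ j)⁻¹ • ell (ρ g)) :=
      (hell.p_inv_smul j).mono (by push_cast; omega)
    obtain ⟨z, hz1, hz2⟩ := hpre k1 hk1b _ hy hys
    -- `ρ (z ^ (p ^ j)) = ρ g`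
    have hzH : z ∈ H k1 := (hH _ _).2 hz1
    have hz2s : Small (2 : ℤ) (gm (ρ z) - 1) := hz1.mono (by omega)
    have hzp : z ^ (p ^ j) ∈ H k1 := Subgroup.pow_mem _ hzH _
    have hzp2 : Small (2 : ℤ) (gm (ρ (z ^ (p ^ j))) - 1) :=
      ((hH _ _).1 hzp).mono (by omega)
    have hdeep : Deep 2 0 (ρ z) := by
      unfold Deep
      simpa using hz2s
    have hell2 : ell (ρ (z ^ (p ^ j))) = ell (ρ g) := by
      rw [map_pow, ell_pow (ρ z) 0 hdeep, hz2, smul_smul]
      push_cast
      rw [mul_inv_cancel₀ (pow_ne_zero _ hp0), one_smul]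
    have heq : ρ (z ^ (p ^ j)) = ρ g := ell_injective _ _ hzp2 hg2 hell2
    have hker2 : ρ' (z ^ (p ^ j)) = ρ' g := by
      have h1 : (z ^ (p ^ j))⁻¹ * g ∈ ρ.ker := by
        rw [MonoidHom.mem_ker, map_mul, map_inv, heq, inv_mul_cancel]
      rw [← hker, MonoidHom.mem_ker, map_mul, map_inv] at h1
      exact (inv_mul_eq_one.1 h1)
    -- depth of `ρ' z ^ (p ^ j)`
    have hz' : Small (k : ℤ) (gm (ρ' z) - 1) := (hH' _ _).1 (hle hzH)
    obtain ⟨he, hes⟩ := ell_expand (ρ' z) k hk2' hz'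
    rw [hH', ← hker2, map_pow, gm_pow]
    have h1 := he j
    have h2 := hes.p_smul j
    have h3 : gm (ρ' z) ^ (p ^ j) - 1 = (gm (ρ' z) ^ (p ^ j) - 1 - ((p : ℚ_[p]) ^ j) •
        ell (ρ' z)) + ((p : ℚ_[p]) ^ j) • ell (ρ' z) := by abel
    rw [h3]
    exact (h1.mono (by push_cast; omega)).add (h2.mono (by push_cast; omega))
  -- comparison of the indices
  have hfin : (H k1).index ≠ 0 := by
    have := Subgroup.quotient_finite_of_isOpen (H k1) (hHo k1)
    exact Subgroup.index_ne_zero_of_finite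
  have hfin' : (H' k).index ≠ 0 := by
    have := Subgroup.quotient_finite_of_isOpen (H' k) (hHo' k)
    exact Subgroup.index_ne_zero_of_finite
  by_contra hlt
  push Not at hlt
  set d := Module.finrank ℚ_[p] (logSpan ρ) with hd
  set d' := Module.finrank ℚ_[p] (logSpan ρ') with hd'
  have hbound : ∀ j : ℕ, p ^ j ≤ (H k1).index := by
    intro j
    have e1 : (H (k1 + j)).index = p ^ (j * d) * (H k1).index := by
      rw [← hk0 k1 hk1a j, Subgroup.relIndex_mul_index (st6_mono ρ H hH (by omega))]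
    have e2 : (H' (k + j)).index = p ^ (j * d') * (H' k).index := by
      rw [← hk0' k hk0k j, Subgroup.relIndex_mul_index (st6_mono ρ' H' hH' (by omega))]
    have h1 : (H' (k + j)).index ∣ (H (k1 + j)).index := Subgroup.index_dvd_of_le (hclaim j)
    rw [e1, e2] at h1
    have hpp : 0 < p := (Fact.out : p.Prime).pos
    have h2 : p ^ (j * d') ≤ p ^ (j * d) * (H k1).index :=
      (Nat.le_mul_of_pos_right _ (Nat.pos_of_ne_zero hfin')).trans
        (Nat.le_of_dvd (Nat.mul_pos (pow_pos hpp _) (Nat.pos_of_ne_zero hfin)) h1)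
    have h3 : p ^ (j * d) * p ^ j ≤ p ^ (j * d') := by
      rw [← pow_add]
      refine Nat.pow_le_pow_right hpp ?_
      have : j * (d + 1) ≤ j * d' := Nat.mul_le_mul_left j hlt
      rw [mul_add, mul_one] at this
      exact this
    exact Nat.le_of_mul_le_mul_left (h3.trans h2) (pow_pos hpp _)
  have := hbound (H k1).index
  exact absurd this (not_le.2 (Nat.lt_pow_self (Fact.out : p.Prime).one_lt))

end Pool.Agent.Lib.MP_ca71b5_nt
end
end
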