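import Mathlib
import Pool.Agent.Lib.MP_ca71b5_nt.S1
import Pool.Agent.Lib.MP_ca71b5_nt.S2b
import Pool.Agent.Lib.MP_ca71b5_nt.E2
import Pool.Agent.Lib.MP_ca71b5_nt.Q2
import Pool.Agent.Lib.MP_ca71b5_nt.KR2
import Pool.Agent.Lib.MP_ca71b5_nt.LD
import Pool.Agent.Lib.MP_ca71b5_nt.CPa
import Pool.Agent.Lib.MP_ca71b5_nt.D3
import Pool.Agent.Lib.MP_ca71b5_nt.Defs2
import Pool.Agent.Lib.MP_ca71b5_nt.ST6
import Pool.Agent.Lib.MP_ca71b5_nt.L1a
import Pool.Agent.Lib.MP_ca71b5_nt.AP2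
import Pool.Agent.Lib.MP_ca71b5_nt.CPDefs

section

/-!
# Solvable Lie algebra and finite abelianisations imply finite image
-/

set_option autoImplicit false

namespace Pool.Agent.Lib.MP_ca71b5_nt

variable {p : ℕ} [Fact p.Prime] {ι : Type} [Fintype ι] [DecidableEq ι]
  {Γ : Type} [Group Γ] [TopologicalSpace Γ] [IsTopologicalGroup Γ] [CompactSpace Γ]


attribute [local instance 100] LieRing.ofAssociativeRing

theorem finite_of_solvable (ρ : Γ →* GLZ p ι) (hρ : Continuous ρ) (N : ℕ)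
    (hN : ∀ g : Γ, Deep 2 N (ρ g)) (hF : FAb p ρ.ker) (hs : LieAlgebra.IsSolvable (gg ρ)) :
    (Set.range ρ).Finite := by
  obtain ⟨m, C, I, hsC, hl, hr, hc, hI, hm⟩ := exists_chain (gg ρ) hs
  have key : ∀ j, (∀ g : Γ, ell (ρ g) ∈ C j) ∧ (∀ g : Γ, ell (ρ g) ∈ I j) := by
    intro j
    induction j with
    | zero =>
      have h0 : ∀ g : Γ, ell (ρ g) ∈ C 0 := fun g =>
        hsC _ (LieSubalgebra.subset_lieSpan (Set.mem_range_self g))
      exact ⟨h0, fun g => ell_mem_ideal ρ hρ N hN hF (C 0) (I 0) (hl 0) (hr 0) (hc 0) h0 g⟩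
    | succ j ih =>
      have h1 : ∀ g : Γ, ell (ρ g) ∈ C (j + 1) := fun g => hI j _ (ih.2 g)
      exact ⟨h1, fun g => ell_mem_ideal ρ hρ N hN hF (C (j + 1)) (I (j + 1)) (hl _) (hr _)
        (hc _) h1 g⟩
  obtain ⟨W, hWn, hWo, hker, hW⟩ := exists_open_reduction ρ hρ 2
  have hWker : W ≤ ρ.ker := by
    intro g hg
    rw [MonoidHom.mem_ker]
    exact eq_one_of_ell_eq_zero (ρ g) ((hW g).1 hg) (hm _ ((key m).2 g))
  have hfW : Finite (Γ ⧸ W) := W.quotient_finite_of_isOpen hWo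
  have hiW : W.FiniteIndex := Subgroup.finiteIndex_of_finite_quotient
  have hik : ρ.ker.FiniteIndex := Subgroup.finiteIndex_of_le hWker
  have hfk : Finite (Γ ⧸ ρ.ker) := Subgroup.finite_quotient_of_finiteIndex
  have hfr : Finite ρ.range := Finite.of_equiv _ (QuotientGroup.quotientKerEquivRange ρ).toEquiv
  have : (ρ.range : Set (GLZ p ι)).Finite := Set.toFinite _
  rwa [MonoidHom.coe_range] at this

end Pool.Agent.Lib.MP_ca71b5_nt
end

section

/-!
# The main theorem on automorphisms of finite order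
-/

set_option autoImplicit false

namespace Pool.Agent.Lib.MP_ca71b5_nt

open TensorProduct LieAlgebra LieModule LieAlgebra.IsKilling

private theorem cpg_regular {E : Type*} [Field E] [CharZero E] [IsAlgClosed E] {L : Type*}
    [LieRing L] [LieAlgebra E L] [FiniteDimensional E L] [LieAlgebra.IsKilling E L] (a : L)
    [(LieSubalgebra.engel E a).IsCartanSubalgebra]
    (α : Weight E (LieSubalgebra.engel E a) L) (hα : α.IsNonZero) :
    α ⟨a, LieSubalgebra.self_mem_engel E a⟩ ≠ 0 := by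
  intro h0
  obtain ⟨x, hx, hx0⟩ := α.exists_ne_zero
  have h1 := lie_eq_smul_of_mem_rootSpace hx ⟨a, LieSubalgebra.self_mem_engel E a⟩
  have h2 : ⁅a, x⁆ = (α ⟨a, LieSubalgebra.self_mem_engel E a⟩) • x := h1
  rw [h0, zero_smul] at h2
  have h3 : x ∈ LieSubalgebra.engel E a := by
    rw [LieSubalgebra.mem_engel_iff]
    exact ⟨1, by rw [pow_one]; exact h2⟩
  have h4 : x ∈ rootSpace (LieSubalgebra.engel E a) (0 : LieSubalgebra.engel E a → E) := by
    rw [rootSpace_zero_eq]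
    exact h3
  have h5 : Disjoint (genWeightSpace L (α : LieSubalgebra.engel E a → E))
      (genWeightSpace L (0 : LieSubalgebra.engel E a → E)) :=
    disjoint_genWeightSpace E (LieSubalgebra.engel E a) L (fun h => hα h)
  have h6 : x ∈ (⊥ : LieSubmodule E (LieSubalgebra.engel E a) L) :=
    (disjoint_iff_inf_le.1 h5) ⟨hx, h4⟩
  rw [LieSubmodule.mem_bot] at h6
  exact hx0 h6

/-- for every prime `l` there is an automorphism acting on the roots of unity of order `l` with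
order `cycDeg p l` -/
theorem exists_galois_prime (p l : ℕ) [Fact p.Prime] [Fact l.Prime] :
    ∃ (a : ℕ) (ζ : AlgebraicClosure ℚ_[p])
      (σ : AlgebraicClosure ℚ_[p] ≃ₐ[ℚ_[p]] AlgebraicClosure ℚ_[p]),
      IsPrimitiveRoot ζ l ∧ σ ζ = ζ ^ a ∧ orderOf (a : ZMod l) = cycDeg p l := by
  by_cases h : l = p
  · subst h
    obtain ⟨a, ζ, σ, h1, h2, h3⟩ := exists_generator l
    exact ⟨a, ζ, σ, h1, h2, by rw [h3, cycDeg, if_pos rfl]⟩
  · obtain ⟨ζ, σ, h1, h2⟩ := exists_frobenius p l (fun h' => h h'.symm)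
    exact ⟨p, ζ, σ, h1, h2, by rw [cycDeg, if_neg h]⟩

theorem cycDeg_dvd_of_fixed (p l : ℕ) [Fact p.Prime] [Fact l.Prime] (a : ℕ)
    (ζ : AlgebraicClosure ℚ_[p])
    (σ : AlgebraicClosure ℚ_[p] ≃ₐ[ℚ_[p]] AlgebraicClosure ℚ_[p]) (h1 : IsPrimitiveRoot ζ l)
    (h2 : σ ζ = ζ ^ a) (h3 : orderOf (a : ZMod l) = cycDeg p l) (z : AlgebraicClosure ℚ_[p])
    (N : ℕ) (hz : IsPrimitiveRoot z l) (hN : σ^[N] z = z) : cycDeg p l ∣ N := by
  have hl : l.Prime := Fact.out
  have hlz : NeZero l := ⟨hl.ne_zero⟩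
  obtain ⟨i, hi, rfl⟩ := h1.eq_pow_of_pow_eq_one hz.pow_eq_one
  have hit : ∀ n : ℕ, σ^[n] (ζ ^ i) = (ζ ^ i) ^ (a ^ n) := by
    intro n
    induction n with
    | zero => simp
    | succ n ih =>
      rw [Function.iterate_succ_apply', ih, map_pow, map_pow, h2]
      simp only [← pow_mul]
      congr 1
      ring
  rw [hit] at hN
  have hu : IsPrimitiveRoot (Units.mk0 (ζ ^ i) (hz.ne_zero hl.ne_zero)) l :=
    IsPrimitiveRoot.coe_units_iff.1 hz
  have h6 : (Units.mk0 (ζ ^ i) (hz.ne_zero hl.ne_zero)) ^ (a ^ N) =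
      (Units.mk0 (ζ ^ i) (hz.ne_zero hl.ne_zero)) ^ (1 : ℕ) := Units.ext (by simpa using hN)
  rw [pow_eq_pow_iff_modEq, ← hu.eq_orderOf] at h6
  have h8 := (ZMod.natCast_eq_natCast_iff _ _ _).2 h6
  push_cast at h8
  rw [← h3]
  exact orderOf_dvd_of_pow_eq_one h8

theorem auto_main_cyclic (p m : ℕ) [Fact p.Prime] (hm : 0 < m)
    {L : Type} [LieRing L] [LieAlgebra ℚ_[p] L] [FiniteDimensional ℚ_[p] L]
    [LieAlgebra.IsKilling ℚ_[p] L] (T : L ≃ₗ⁅ℚ_[p]⁆ L) (hT : ∀ x, T^[m] x = x)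
    (hT1 : ∃ x, T x ≠ x) :
    (∃ d : ℕ, 1 ≤ d ∧ d ≤ Module.finrank ℚ_[p] (fixS T) ∧ 3 * d ≤ Module.finrank ℚ_[p] L ∧
      ∃ M : Matrix (Fin d) (Fin d) ℤ, IsOfFinOrder M ∧
        ∃ l : ℕ, l.Prime ∧ l ∣ m ∧ cycDeg p l ∣ orderOf M) ∨
    ((∃ l : ℕ, l.Prime ∧ l ∣ m ∧ 3 * l ≤ Module.finrank ℚ_[p] L) ∧
      3 ≤ Module.finrank ℚ_[p] (fixS T)) := by
  classical
  obtain ⟨x₀, hx₀⟩ := hT1
  have hnt : Nontrivial L := ⟨⟨T x₀, x₀, hx₀⟩⟩
  obtain ⟨a, ha0, hTa, hac⟩ := exists_cartan_gen m hm T hT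
  have h3L := three_le_finrank (k := ℚ_[p]) (L := L)
  -- even order
  by_cases h2m : 2 ∣ m
  · left
    refine ⟨1, le_rfl, ?_, by omega, 1, isOfFinOrder_iff_pow_eq_one.mpr ⟨1, one_pos, by simp⟩, 2,
      Nat.prime_two, h2m, ?_⟩
    · rw [Nat.one_le_iff_ne_zero]
      intro h0
      rw [Submodule.finrank_eq_zero] at h0
      have h1 : a ∈ fixS T := hTa
      rw [h0, Submodule.mem_bot] at h1
      exact ha0 h1
    · have hc : cycDeg p 2 = 1 := by
        unfold cycDeg
        split_ifs with h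
        · omega
        · have hp : (p : ZMod 2) = 1 := by
            have hodd : p % 2 = 1 := by
              rcases (Fact.out : p.Prime).eq_two_or_odd with h' | h'
              · exact absurd h'.symm h
              · exact h'
            have := ZMod.natCast_mod p 2
            rw [← this, hodd]
            rfl
          rw [hp, orderOf_one]
      rw [hc]
      exact one_dvd _
  have hl2 : ∀ l : ℕ, l ∣ m → l ≠ 2 := fun l hl h => h2m (h ▸ hl)
  have hch : CharZero (AlgebraicClosure ℚ_[p]) := charZero_of_injective_algebraMap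
    (algebraMap ℚ_[p] (AlgebraicClosure ℚ_[p])).injective
  have hK : LieAlgebra.IsKilling (AlgebraicClosure ℚ_[p]) (AlgebraicClosure ℚ_[p] ⊗[ℚ_[p]] L) :=
    isKilling_baseChange
  obtain ⟨T', hT'1, hT'2⟩ := exists_auto_baseChange (E := AlgebraicClosure ℚ_[p]) T
  have hT'm := iterate_baseChange T T' hT'1 m hT
  have hH := cartan_baseChange (E := AlgebraicClosure ℚ_[p]) a hac
  set aE : AlgebraicClosure ℚ_[p] ⊗[ℚ_[p]] L := (1 : AlgebraicClosure ℚ_[p]) ⊗ₜ[ℚ_[p]] a with haE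
  set H := LieSubalgebra.engel (AlgebraicClosure ℚ_[p]) aE with hHdef
  have hinj : Function.Injective
      (fun x : L => ((1 : AlgebraicClosure ℚ_[p]) ⊗ₜ[ℚ_[p]] x : AlgebraicClosure ℚ_[p] ⊗[ℚ_[p]] L)) :=
    Module.FaithfullyFlat.tensorProduct_mk_injective (A := ℚ_[p]) (B := AlgebraicClosure ℚ_[p]) L
  have haE0 : aE ≠ 0 := by
    intro h
    apply ha0
    apply hinj
    show ((1 : AlgebraicClosure ℚ_[p]) ⊗ₜ[ℚ_[p]] a : AlgebraicClosure ℚ_[p] ⊗[ℚ_[p]] L) =
      (1 : AlgebraicClosure ℚ_[p]) ⊗ₜ[ℚ_[p]] (0 : L)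
    rw [TensorProduct.tmul_zero]
    exact h
  have haH : aE ∈ H := LieSubalgebra.self_mem_engel _ aE
  have hTaE : T' aE = aE := by rw [haE, hT'1, hTa]
  have hdim : Module.finrank (AlgebraicClosure ℚ_[p]) (AlgebraicClosure ℚ_[p] ⊗[ℚ_[p]] L) =
      Module.finrank ℚ_[p] L := Module.finrank_baseChange
  have hT'ne : ∃ x, T' x ≠ x := by
    refine ⟨(1 : AlgebraicClosure ℚ_[p]) ⊗ₜ[ℚ_[p]] x₀, fun h => hx₀ (hinj ?_)⟩
    rw [hT'1] at h
    exact h
  have hntE : Nontrivial (AlgebraicClosure ℚ_[p] ⊗[ℚ_[p]] L) := by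
    obtain ⟨x, hx⟩ := hT'ne
    exact ⟨⟨T' x, x, hx⟩⟩
  have hTH : ∀ x ∈ H, T' x ∈ H := by
    intro x hx
    refine LM_engel_map (AddMonoidHomClass.toAddMonoidHom T') ?_ aE hTaE x hx
    intro x y
    exact LieEquiv.map_lie T' x y
  -- semilinear automorphisms
  have hSem : ∀ σ : AlgebraicClosure ℚ_[p] ≃ₐ[ℚ_[p]] AlgebraicClosure ℚ_[p],
      ∃ S : (AlgebraicClosure ℚ_[p] ⊗[ℚ_[p]] L) ≃+ (AlgebraicClosure ℚ_[p] ⊗[ℚ_[p]] L),
        (∀ (c : AlgebraicClosure ℚ_[p]) (x : AlgebraicClosure ℚ_[p] ⊗[ℚ_[p]] L),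
          S (c • x) = (σ : AlgebraicClosure ℚ_[p] ≃+* AlgebraicClosure ℚ_[p]) c • S x) ∧
        (∀ x y : AlgebraicClosure ℚ_[p] ⊗[ℚ_[p]] L, S ⁅x, y⁆ = ⁅S x, S y⁆) ∧
        (∀ x, S (T' x) = T' (S x)) ∧ (∀ x ∈ H, S x ∈ H) ∧ (∀ x ∈ H, S.symm x ∈ H) := by
    intro σ
    let S₀ : (AlgebraicClosure ℚ_[p] ⊗[ℚ_[p]] L) ≃ₗ[ℚ_[p]] (AlgebraicClosure ℚ_[p] ⊗[ℚ_[p]] L) :=
      TensorProduct.congr σ.toLinearEquiv (LinearEquiv.refl ℚ_[p] L)
    let S : (AlgebraicClosure ℚ_[p] ⊗[ℚ_[p]] L) ≃+ (AlgebraicClosure ℚ_[p] ⊗[ℚ_[p]] L) :=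
      S₀.toAddEquiv
    have hSp : ∀ (c : AlgebraicClosure ℚ_[p]) (x : L), S (c ⊗ₜ[ℚ_[p]] x) = σ c ⊗ₜ[ℚ_[p]] x :=
      fun c x => rfl
    have hS1 : ∀ (c : AlgebraicClosure ℚ_[p]) (x : AlgebraicClosure ℚ_[p] ⊗[ℚ_[p]] L),
        S (c • x) = (σ : AlgebraicClosure ℚ_[p] ≃+* AlgebraicClosure ℚ_[p]) c • S x := by
      intro c x
      induction x using TensorProduct.induction_on with
      | zero => rw [smul_zero, map_zero, smul_zero]
      | tmul s y =>
        rw [TensorProduct.smul_tmul', hSp, hSp, smul_eq_mul, map_mul, TensorProduct.smul_tmul']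
        rfl
      | add u v hu hv => rw [smul_add, map_add, hu, hv, map_add, smul_add]
    have hS2 : ∀ x y : AlgebraicClosure ℚ_[p] ⊗[ℚ_[p]] L, S ⁅x, y⁆ = ⁅S x, S y⁆ := by
      intro x y
      induction x using TensorProduct.induction_on with
      | zero => rw [zero_lie, map_zero, zero_lie]
      | tmul s u =>
        induction y using TensorProduct.induction_on with
        | zero => rw [lie_zero, map_zero, lie_zero]
        | tmul t v =>
          rw [LieAlgebra.ExtendScalars.bracket_tmul, hSp, hSp, hSp,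
            LieAlgebra.ExtendScalars.bracket_tmul, map_mul]
        | add y z hy hz => rw [lie_add, map_add, hy, hz, map_add, lie_add]
      | add u v hu hv => rw [add_lie, map_add, hu, hv, map_add, add_lie]
    have hST : ∀ x, S (T' x) = T' (S x) := by
      intro x
      induction x using TensorProduct.induction_on with
      | zero => simp only [map_zero]
      | tmul s y => rw [hT'1, hSp, hSp, hT'1]
      | add u v hu hv => rw [map_add, map_add, map_add, map_add, hu, hv]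
    have hSa : S aE = aE := by rw [haE, hSp, map_one]
    have hSH : ∀ x ∈ H, S x ∈ H := by
      intro x hx
      exact LM_engel_map (S : (AlgebraicClosure ℚ_[p] ⊗[ℚ_[p]] L) →+ _) hS2 aE hSa x hx
    have hSH' : ∀ x ∈ H, S.symm x ∈ H := by
      intro x hx
      refine LM_engel_map (S.symm : (AlgebraicClosure ℚ_[p] ⊗[ℚ_[p]] L) →+ _) ?_ aE ?_ x hx
      · intro x y
        show S.symm ⁅x, y⁆ = ⁅S.symm x, S.symm y⁆
        rw [AddEquiv.symm_apply_eq, hS2, AddEquiv.apply_symm_apply, AddEquiv.apply_symm_apply]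
      · show S.symm aE = aE
        rw [AddEquiv.symm_apply_eq]
        exact hSa.symm
    exact ⟨S, hS1, hS2, hST, hSH, hSH'⟩
  by_cases hcase : ∀ x ∈ H, T' x = x
  · -- trivial on the Cartan subalgebra
    left
    obtain ⟨l, k, hl, hlm, hkl, x, -, hx⟩ := exists_least_period (fun x => T' x) Set.univ
      (fun x _ => trivial) m hm (fun x _ => hT'm x) (by
        obtain ⟨x, hx⟩ := hT'ne
        exact ⟨x, trivial, hx⟩)
    have : Fact l.Prime := ⟨hl⟩
    obtain ⟨U, hU⟩ := exists_iterate_equiv T' k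
    have hUit : ∀ (n : ℕ) (y : AlgebraicClosure ℚ_[p] ⊗[ℚ_[p]] L), U^[n] y = T'^[k * n] y := by
      intro n
      induction n with
      | zero => intro y; rfl
      | succ n ih =>
        intro y
        rw [Function.iterate_succ_apply', hU, ih, Nat.mul_succ, Nat.add_comm,
          Function.iterate_add_apply]
    obtain ⟨b, ζ, σ, hζ, hσ, hord⟩ := exists_galois_prime p l
    obtain ⟨S, hS1, hS2, hST, hSH, hSH'⟩ := hSem σ
    have hSTk : ∀ (n : ℕ) (y : AlgebraicClosure ℚ_[p] ⊗[ℚ_[p]] L),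
        S (T'^[n] y) = T'^[n] (S y) := by
      intro n
      induction n with
      | zero => intro y; rfl
      | succ n ih =>
        intro y
        rw [Function.iterate_succ_apply', hST, ih, Function.iterate_succ_apply']
    have hHk : ∀ (n : ℕ), ∀ y ∈ H, T'^[n] y = y := by
      intro n
      induction n with
      | zero => intro y _; rfl
      | succ n ih =>
        intro y hy
        rw [Function.iterate_succ_apply', ih y hy, hcase y hy]
    obtain ⟨M, hM1, hM2⟩ := exists_matrix_of_trivial H b l U (fun y => by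
        rw [hUit]
        exact hkl y trivial) (fun y hy => by rw [hU]; exact hHk k y hy)
      ⟨x, by rw [hU]; exact hx⟩
      (σ : AlgebraicClosure ℚ_[p] ≃+* AlgebraicClosure ℚ_[p]) ζ hζ hσ S hS1 hS2
      (fun y => by rw [hU, hU, hSTk]) hSH hSH'
    refine ⟨Module.finrank (AlgebraicClosure ℚ_[p]) H, ?_, ?_, ?_, M, hM1, l, hl, hlm, by rw [← hord]; exact hM2⟩
    · rw [Nat.one_le_iff_ne_zero]
      intro h0
      have h1 : Subsingleton H := Module.finrank_zero_iff.1 h0
      have h2 : (⟨aE, haH⟩ : H) = 0 := Subsingleton.elim _ _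
      exact haE0 (congrArg Subtype.val h2)
    · rw [← hT'2]
      exact Submodule.finrank_mono (s := H.toSubmodule) (t := fixS T') fun x hx => hcase x hx
    · rw [← hdim]
      exact three_mul_rank_le H
  · push Not at hcase
    by_cases hfix3 : 3 ≤ Module.finrank ℚ_[p] (fixS T)
    · right
      refine ⟨?_, hfix3⟩
      obtain ⟨l, k, hl, hlm, hkl, x, hxH, hx⟩ := exists_least_period (fun x => T' x)
        (H : Set (AlgebraicClosure ℚ_[p] ⊗[ℚ_[p]] L)) hTH m hm (fun x _ => hT'm x) hcase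
      have : Fact l.Prime := ⟨hl⟩
      obtain ⟨U, hU⟩ := exists_iterate_equiv T' k
      have hUit : ∀ (n : ℕ) (y : AlgebraicClosure ℚ_[p] ⊗[ℚ_[p]] L), U^[n] y = T'^[k * n] y := by
        intro n
        induction n with
        | zero => intro y; rfl
        | succ n ih =>
          intro y
          rw [Function.iterate_succ_apply', hU, ih, Nat.mul_succ, Nat.add_comm,
            Function.iterate_add_apply]
      have hTHk : ∀ (n : ℕ), ∀ y ∈ H, T'^[n] y ∈ H := by
        intro n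
        induction n with
        | zero => intro y hy; exact hy
        | succ n ih =>
          intro y hy
          rw [Function.iterate_succ_apply']
          exact hTH _ (ih y hy)
      have hak : ∀ n : ℕ, T'^[n] aE = aE := fun n => Function.iterate_fixed hTaE n
      refine ⟨l, hl, hlm, ?_⟩
      rw [← hdim]
      refine three_mul_le_of_nontrivial H l (hl2 l hlm) U ?_ ?_ ⟨x, hxH, by rw [hU]; exact hx⟩
        ⟨aE, haH, haE0, by rw [hU]; exact hak k⟩
      · intro y hy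
        rw [hUit]
        exact hkl y hy
      · intro y hy
        rw [hU]
        exact hTHk k y hy
    · left
      have hfix2 : Module.finrank (AlgebraicClosure ℚ_[p]) (fixS T') ≤ 2 := by
        rw [hT'2]
        omega
      have hfixH : ∀ x, T' x = x → x ∈ H := by
        intro x hx
        have h1 := fix_comm_of_le_two m hm T' hT'm hfix2 aE x hTaE hx
        rw [hHdef, LieSubalgebra.mem_engel_iff]
        exact ⟨1, by rw [pow_one]; exact h1⟩
      obtain ⟨d, M, h1, h2, h3, h4, h5⟩ := exists_matrix_fix H m hm (cycDeg p) T' hT'm hTH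
        ⟨aE, haH⟩ hTaE (fun α hα => cpg_regular aE α hα) hfixH (by
          intro l hl _
          have : Fact l.Prime := ⟨hl⟩
          obtain ⟨b, ζ, σ, hζ, hσ, hord⟩ := exists_galois_prime p l
          obtain ⟨S, hS1, hS2, hST, hSH, hSH'⟩ := hSem σ
          exact ⟨(σ : AlgebraicClosure ℚ_[p] ≃+* AlgebraicClosure ℚ_[p]), S, hS1, hS2, hST, hSH,
            hSH', fun z N hz hN => cycDeg_dvd_of_fixed p l b ζ σ hζ hσ hord z N hz hN⟩)
      refine ⟨d, h1, ?_, ?_, M, h4, h5⟩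
      · rw [← hT'2]
        exact h2
      · rw [← hdim]
        exact h3

end Pool.Agent.Lib.MP_ca71b5_nt
end

section

/-!
# The theorem on cyclic extensions in abstract form
-/

set_option autoImplicit false

namespace Pool.Agent.Lib.MP_ca71b5_nt

attribute [local instance 100] LieRing.ofAssociativeRing

variable {p : ℕ} [Fact p.Prime] {ι : Type} [Fintype ι] [DecidableEq ι] {Γ G : Type} [Group Γ]
  [TopologicalSpace Γ] [IsTopologicalGroup Γ] [CompactSpace Γ] [Group G]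

theorem main_cyclic (j : Γ →* G) (ρ : G →* GLZ p ι) (hρ : Continuous (ρ.comp j))
    (hpro : ProP p (ρ.comp j).ker) (hF : FAb p (ρ.comp j).ker) (t : ℕ)
    (hpow : PowQc p (t + eps p) (ρ.comp j).ker) (φ : Γ →* Γ) (τ : G)
    (hφ : ∀ g : Γ, j (φ g) = τ * j g * τ⁻¹) (m : ℕ) (hm : 0 < m) (g₀ : Γ) (hτ : τ ^ m = j g₀)
    (hexp : ∀ W : Subgroup Γ, W.Normal → IsOpen (W : Set Γ) → (ρ.comp j).ker ≤ W →
      (∀ a b : Γ, a * b * a⁻¹ * b⁻¹ ∈ W) → (∀ a : Γ, φ a * a⁻¹ ∈ W) →
      ∀ a : Γ, a ^ (p ^ t) ∈ W) : (Set.range (ρ.comp j)).Finite := by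
  obtain ⟨N, hN⟩ := exists_deep (ρ.comp j) hρ hpro
  have hPQ : PowQ p (ρ.comp j).ker := powQ_of_powQc (t + eps p) (by omega) _ hpow
  obtain ⟨hmul, _⟩ := pow_props (ρ.comp j) hρ hpro hPQ
  have hpow' : PowQc p (t + 1 + eps p - 1) (ρ.comp j).ker := by
    have h1 : t + 1 + eps p - 1 = t + eps p := by omega
    rw [h1]
    exact hpow
  have hpw := pow_props_deep (ρ.comp j) hρ hpro (t + 1) (by omega) hpow'
  set r : Γ →* GLZ p ι := ρ.comp j with hr
  have hφ' : ∀ g : Γ, r (φ g) = ρ τ * r g * (ρ τ)⁻¹ := by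
    intro g
    rw [hr, MonoidHom.comp_apply, MonoidHom.comp_apply, hφ, map_mul, map_mul, map_inv]
  obtain ⟨T, hT⟩ := exists_conj_auto r N hN (ρ τ) (fun g => ⟨φ g, hφ' g⟩)
  have hnofix : ∀ x : MQ p ι, x ∈ gg r → gm (ρ τ) * x * gm (ρ τ)⁻¹ = x → x = 0 :=
    fun x hx hfix => no_fixed_points r hρ N hN (t + 1) t le_rfl hmul hpw φ (ρ τ) hφ' hexp x hx hfix
  -- the logarithm of `τ ^ m` vanishes
  have hj : j (φ g₀) = j g₀ := by
    rw [hφ, ← hτ]
    group
  have hfix0 : gm (ρ τ) * ell (r g₀) * gm (ρ τ)⁻¹ = ell (r g₀) := by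
    rw [← ell_conj (r g₀) (ρ τ) N (hN g₀), ← hφ', hr, MonoidHom.comp_apply, hj,
      MonoidHom.comp_apply]
  have hmem0 : ell (r g₀) ∈ gg r := LieSubalgebra.subset_lieSpan ⟨g₀, rfl⟩
  have hell0 : ell (r g₀) = 0 := hnofix _ hmem0 hfix0
  have hone : r g₀ ^ (p ^ N) = 1 := by
    apply eq_one_of_ell_eq_zero
    · have := hN g₀
      unfold Deep at this
      rw [gm_pow]
      exact_mod_cast this
    · rw [ell_pow (r g₀) N (hN g₀), hell0, smul_zero]
  have hfin : ρ τ ^ (m * p ^ N) = 1 := by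
    rw [pow_mul, ← map_pow, hτ]
    exact hone
  have hiter : ∀ (k : ℕ) (x : gg r), ((T^[k] x : gg r) : MQ p ι) =
      gm (ρ τ) ^ k * x * gm (ρ τ)⁻¹ ^ k := by
    intro k
    induction k with
    | zero => intro x; simp
    | succ k ih =>
      intro x
      rw [Function.iterate_succ_apply', hT, ih, pow_succ' (gm (ρ τ)) k, pow_succ (gm (ρ τ)⁻¹) k]
      simp only [mul_assoc]
  have hTm : ∀ x : gg r, T^[m * p ^ N] x = x := by
    intro x
    apply Subtype.ext
    rw [hiter, ← gm_pow, ← gm_pow, inv_pow, hfin, inv_one, gm_one, one_mul, mul_one]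
  have hpos : 0 < m * p ^ N := Nat.mul_pos hm (pow_pos (Fact.out : p.Prime).pos _)
  have hs : LieAlgebra.IsSolvable (gg r) := by
    refine solvable_of_fixed_point_free (k := ℚ_[p]) (m * p ^ N) hpos T hTm ?_
    intro x hx
    apply Subtype.ext
    apply hnofix _ x.2
    rw [← hT, hx]
  exact finite_of_solvable r hρ N hN hF hs

end Pool.Agent.Lib.MP_ca71b5_nt
end

section

/-!
# The main theorem in abstract form
-/

set_option autoImplicit false

namespace Pool.Agent.Lib.MP_ca71b5_nt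

variable {p : ℕ} [Fact p.Prime] {ι : Type} [Fintype ι] [DecidableEq ι]
  {Γ : Type} [Group Γ] [TopologicalSpace Γ] [IsTopologicalGroup Γ] [CompactSpace Γ]
  [T2Space Γ] [TotallyDisconnectedSpace Γ]

attribute [local instance 100] LieRing.ofAssociativeRing

theorem orderOf_ne_two_helper (l : ℕ) [Fact l.Prime] {R r : ℕ} (hr1 : 1 ≤ r) (hR3 : 3 ≤ R)
    (hi : ∀ m : ℕ, 1 ≤ m → m ≤ r → 3 * m ≤ R → ∀ M : Matrix (Fin m) (Fin m) ℤ,
      IsOfFinOrder M → ¬ orderOf (p : ZMod l) ∣ orderOf M) (hpl : p ≠ l) : l ≠ 2 := by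
  rintro rfl
  have h1 := hi 1 le_rfl hr1 (by omega) 1 (isOfFinOrder_iff_pow_eq_one.mpr ⟨1, by norm_num, by simp⟩)
  apply h1
  have hp : (p : ZMod 2) = 1 := by
    have hodd : p % 2 = 1 := by
      rcases (Fact.out : p.Prime).eq_two_or_odd with h | h
      · exact absurd h hpl
      · exact h
    have := ZMod.natCast_mod p 2
    rw [← this, hodd]
    rfl
  rw [hp, orderOf_one]
  exact one_dvd _

theorem main_abs (l : ℕ) [Fact l.Prime] (hpl : p ≠ l) (ρ : Γ →* GLZ p ι) (hρ : Continuous ρ)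
    (φ : Γ →* Γ) (P : GLZ p ι) (hP : P ^ l = 1) (hφ : ∀ g : Γ, ρ (φ g) = P * ρ g * P⁻¹)
    (hpro : ProP p ρ.ker) (hpow : PowQ p ρ.ker) (r R : ℕ) (hr : RankF p r ρ.ker φ)
    (hR : RankG p R ρ.ker)
    (hi : ∀ m : ℕ, 1 ≤ m → m ≤ r → 3 * m ≤ R → ∀ M : Matrix (Fin m) (Fin m) ℤ,
      IsOfFinOrder M → ¬ orderOf (p : ZMod l) ∣ orderOf M)
    (hii : r ≤ 2 ∨ (R < 3 * l ∧ TowerF ρ.ker φ)) (hF : FAb p ρ.ker) :
    (Set.range ρ).Finite := by
  have hlpos : 0 < l := (Fact.out : l.Prime).pos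
  have hp1 : 1 < p := (Fact.out : p.Prime).one_lt
  obtain ⟨N, hN⟩ := exists_deep ρ hρ hpro
  obtain ⟨hmul, hpw⟩ := pow_props ρ hρ hpro hpow
  obtain ⟨T, hT, hTl⟩ := exists_auto ρ N hN l φ P hP hφ hlpos
  -- dimension of the whole Lie algebra
  have hdimR : Module.finrank ℚ_[p] (gg ρ) ≤ R := by
    obtain ⟨W, hWn, hWo, hWk, hWc, hWp, _, hW⟩ := exists_large_quotient ρ hρ N hN hmul hpw
      (MonoidHom.id Γ) 1 (by intro g; simp) (LieEquiv.refl : gg ρ ≃ₗ⁅ℚ_[p]⁆ gg ρ)
      (by intro x; simp)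
    have h1 := hR W hWn hWo hWk hWc hWp
    have h2 : fixS (LieEquiv.refl : gg ρ ≃ₗ⁅ℚ_[p]⁆ gg ρ) = ⊤ := by
      rw [eq_top_iff]
      intro x _
      rw [mem_fixS]
      rfl
    rw [h2, finrank_top] at hW
    exact (Nat.pow_le_pow_iff_right hp1).mp (hW.trans h1)
  -- dimension of the fixed points
  have hdimr : Module.finrank ℚ_[p] (fixS T) ≤ r := by
    obtain ⟨W, hWn, hWo, hWk, hWc, hWp, hWφ, hW⟩ := exists_large_quotient ρ hρ N hN hmul hpw
      φ P hφ T hT
    have h1 := hr W hWn hWo hWk hWc hWp hWφ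
    exact (Nat.pow_le_pow_iff_right hp1).mp (hW.trans h1)
  by_cases hs : LieAlgebra.IsSolvable (gg ρ)
  · exact finite_of_solvable ρ hρ N hN hF hs
  exfalso
  have hkill : LieAlgebra.IsKilling ℚ_[p] (gg ρ ⧸ LieAlgebra.radical ℚ_[p] (gg ρ)) := by
    have := quot_radical_trivial (k := ℚ_[p]) (L := gg ρ)
    infer_instance
  have hnt : Nontrivial (gg ρ ⧸ LieAlgebra.radical ℚ_[p] (gg ρ)) := by
    by_contra hcon
    rw [not_nontrivial_iff_subsingleton] at hcon
    exact hs (solvable_of_quot_subsingleton (k := ℚ_[p]) fun y => Subsingleton.elim _ _)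
  obtain ⟨T', hT'mk, hT'l, hT'lift, hT'fix⟩ :=
    exists_quot_auto (k := ℚ_[p]) (L := gg ρ) l hlpos T hTl
  have hdimQ : Module.finrank ℚ_[p] (gg ρ ⧸ LieAlgebra.radical ℚ_[p] (gg ρ)) ≤ R := by
    refine le_trans ?_ hdimR
    exact Submodule.finrank_quotient_le (LieAlgebra.radical ℚ_[p] (gg ρ)).toSubmodule
  have hdim3 := three_le_finrank (k := ℚ_[p])
    (L := gg ρ ⧸ LieAlgebra.radical ℚ_[p] (gg ρ))
  have hR3 : 3 ≤ R := hdim3.trans hdimQ
  have hfix1 : 1 ≤ Module.finrank ℚ_[p] (fixS T') := by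
    by_contra hcon
    have h0 : Module.finrank ℚ_[p] (fixS T') = 0 := by omega
    rw [Submodule.finrank_eq_zero] at h0
    obtain ⟨x, hx⟩ := exists_ne (0 : gg ρ ⧸ LieAlgebra.radical ℚ_[p] (gg ρ))
    apply hx
    refine eq_zero_of_no_fixed l T' hT'l ?_ x
    intro y hy
    have : y ∈ fixS T' := hy
    rw [h0] at this
    simpa using this
  have hr1 : 1 ≤ r := hfix1.trans (hT'fix.trans hdimr)
  have hl2 : l ≠ 2 := orderOf_ne_two_helper l hr1 hR3 hi hpl
  by_cases hT1 : ∀ y, T' y = y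
  · -- trivial action
    have hfixtop : fixS T' = ⊤ := by
      rw [eq_top_iff]
      intro x _
      exact hT1 x
    rw [hfixtop, finrank_top] at hT'fix
    rcases hii with h2 | ⟨_, htow⟩
    · omega
    · apply hs
      refine solvable_of_tower ρ hρ N hN φ P hφ T hT ?_ htow
      intro x
      have h1 := hT1 (LieSubmodule.Quotient.mk x)
      rw [hT'mk] at h1
      have h2 : (LieSubmodule.Quotient.mk (T x - x) :
          gg ρ ⧸ LieAlgebra.radical ℚ_[p] (gg ρ)) = 0 := by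
        rw [show (LieSubmodule.Quotient.mk (T x - x) :
          gg ρ ⧸ LieAlgebra.radical ℚ_[p] (gg ρ)) = LieSubmodule.Quotient.mk (T x) -
            LieSubmodule.Quotient.mk x from rfl, h1, sub_self]
      rwa [LieSubmodule.Quotient.mk_eq_zero'] at h2
  · push Not at hT1
    rcases auto_main p l hpl hl2 T' hT'l hT1 with ⟨m, hm1, hm2, hm3, M, hM1, hM2⟩ | ⟨h3l, h3⟩
    · exact hi m hm1 (hm2.trans (hT'fix.trans hdimr)) (hm3.trans hdimQ) M hM1 hM2
    · rcases hii with h2 | ⟨hR', _⟩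
      · have := h3.trans (hT'fix.trans hdimr)
        omega
      · have := h3l.trans hdimQ
        omega

end Pool.Agent.Lib.MP_ca71b5_nt
end

section

/-!
# The theorem on quotients of small dimension in abstract form
-/

set_option autoImplicit false

namespace Pool.Agent.Lib.MP_ca71b5_nt

attribute [local instance 100] LieRing.ofAssociativeRing

variable {p : ℕ} [Fact p.Prime] {ι : Type} [Fintype ι] [DecidableEq ι] {Γ G : Type} [Group Γ]
  [TopologicalSpace Γ] [IsTopologicalGroup Γ] [CompactSpace Γ] [T2Space Γ]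
  [TotallyDisconnectedSpace Γ] [Group G] [TopologicalSpace G] [IsTopologicalGroup G]
  [CompactSpace G] [T2Space G] [TotallyDisconnectedSpace G]

theorem main_good (j : Γ →* G) (hj : Function.Injective j) (hjc : Continuous j)
    (hjo : IsOpenMap j) (hn : j.range.Normal) (ρ : G →* GLZ p ι) (hρ : Continuous ρ)
    (hpro : ProP p (ρ.comp j).ker) (hF : FAb p (ρ.comp j).ker) (d : ℕ)
    (hd : Module.finrank ℚ_[p] (logSpan (ρ.comp j)) ≤ d) (hg : GoodDim p d j.range.index)
    (htow : ∃ B : ℕ, ∀ V : Subgroup G, V.Normal → IsOpen (V : Set G) →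
      (∀ g ∈ (ρ.comp j).ker, j g ∈ V) → (∀ h : G, Good j (ρ.comp j).ker h → h ∈ V) →
      V.index ≤ B) : (Set.range (ρ.comp j)).Finite := by
  classical
  have hrc : Continuous (ρ.comp j) := hρ.comp hjc
  obtain ⟨N, hN⟩ := exists_deep (ρ.comp j) hrc hpro
  by_cases hs : LieAlgebra.IsSolvable (gg (ρ.comp j))
  · exact finite_of_solvable (ρ.comp j) hrc N hN hF hs
  exfalso
  set r : Γ →* GLZ p ι := ρ.comp j with hr
  have hfr : Module.finrank ℚ_[p] (gg r) ≤ d := by
    have h1 : (gg r).toSubmodule = logSpan r := gg_eq_logSpan r N hN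
    have h2 : Module.finrank ℚ_[p] (gg r) = Module.finrank ℚ_[p] (gg r).toSubmodule := rfl
    rw [h2, h1]
    exact hd
  -- conjugations
  have hconj : ∀ σ : G, ∀ g : Γ, ∃ g' : Γ, r g' = ρ σ * r g * (ρ σ)⁻¹ := by
    intro σ g
    have h1 : σ * j g * σ⁻¹ ∈ j.range := hn.conj_mem _ ⟨g, rfl⟩ σ
    obtain ⟨g', hg'⟩ := h1
    refine ⟨g', ?_⟩
    rw [hr, MonoidHom.comp_apply, MonoidHom.comp_apply, hg', map_mul, map_mul, map_inv]
  choose T hT using fun σ : G => exists_conj_auto r N hN (ρ σ) (hconj σ)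
  have hTmul : ∀ (σ τ : G) (x : gg r), T (σ * τ) x = T σ (T τ x) := by
    intro σ τ x
    apply Subtype.ext
    rw [hT, hT, hT, map_mul, gm_mul, mul_inv_rev, gm_mul]
    simp only [mul_assoc]
  have hTone : ∀ x : gg r, T 1 x = x := by
    intro x
    apply Subtype.ext
    rw [hT, map_one, gm_one, inv_one, gm_one, one_mul, mul_one]
  -- the automorphisms preserve the radical
  have hrad : ∀ (σ : G) (x : gg r), x ∈ LieAlgebra.radical ℚ_[p] (gg r) →
      T σ x ∈ LieAlgebra.radical ℚ_[p] (gg r) := by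
    intro σ x hx
    refine radical_of_auto (T σ).symm _ ?_
    rw [LieEquiv.symm_apply_apply]
    exact hx
  -- the subgroup acting trivially modulo the radical
  let Z : Subgroup G :=
    { carrier := {σ | ∀ x : gg r, T σ x - x ∈ LieAlgebra.radical ℚ_[p] (gg r)}
      mul_mem' := by
        intro a b ha hb x
        have h1 : T (a * b) x - x = (T a (T b x) - T b x) + (T b x - x) := by
          rw [hTmul]; abel
        rw [h1]
        exact add_mem (ha _) (hb _)
      one_mem' := by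
        intro x
        rw [hTone, sub_self]
        exact zero_mem _
      inv_mem' := by
        intro a ha x
        have h1 : T a (T a⁻¹ x) = x := by rw [← hTmul, mul_inv_cancel, hTone]
        have h2 : T a⁻¹ x - x = -(T a (T a⁻¹ x) - T a⁻¹ x) := by rw [h1]; abel
        rw [h2]
        exact neg_mem (ha _) }
  have hZmem : ∀ σ : G, σ ∈ Z ↔ ∀ x : gg r, T σ x - x ∈ LieAlgebra.radical ℚ_[p] (gg r) :=
    fun σ => Iff.rfl
  have hZn : Z.Normal := by
    constructor
    intro a ha b x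
    have h1 : T (b * a * b⁻¹) x - x = T b (T a (T b⁻¹ x) - T b⁻¹ x) := by
      rw [map_sub, ← hTmul, ← hTmul, ← hTmul, mul_inv_cancel, hTone, mul_assoc]
    rw [h1]
    exact hrad b _ (ha _)
  have hZc : IsClosed (Z : Set G) := by
    have h1 : (Z : Set G) = ⋂ x : gg r, {σ | gm (ρ σ) * (x : MQ p ι) * gm (ρ σ)⁻¹ - x ∈
        ((LieAlgebra.radical ℚ_[p] (gg r)).toSubmodule.map
          (gg r).toSubmodule.subtype : Set (MQ p ι))} := by
      ext σ
      simp only [Set.mem_iInter]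
      constructor
      · intro h x
        refine ⟨T σ x - x, h x, ?_⟩
        have := hT σ x
        rw [← this]
        rfl
      · intro h x
        obtain ⟨y, hy1, hy2⟩ := h x
        have h3 : y = T σ x - x := by
          apply Subtype.ext
          have h4 : ((T σ x - x : gg r) : MQ p ι) = (T σ x : MQ p ι) - (x : MQ p ι) := rfl
          rw [h4, hT]
          exact hy2
        rw [← h3]
        exact hy1
    rw [h1]
    refine isClosed_iInter fun x => ?_
    have hcl : IsClosed ((LieAlgebra.radical ℚ_[p] (gg r)).toSubmodule.map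
          (gg r).toSubmodule.subtype : Set (MQ p ι)) := Submodule.closed_of_finiteDimensional _
    refine hcl.preimage ?_
    have hc1 : Continuous fun σ : G => gm (ρ σ) := continuous_gm.comp hρ
    have hc2 : Continuous fun σ : G => gm (ρ σ)⁻¹ := continuous_gm.comp hρ.inv
    exact ((hc1.mul continuous_const).mul hc2).sub continuous_const
  -- the quotient
  have hkill : LieAlgebra.IsKilling ℚ_[p] (gg r ⧸ LieAlgebra.radical ℚ_[p] (gg r)) := by
    have := quot_radical_trivial (k := ℚ_[p]) (L := gg r)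
    infer_instance
  have hdimQ : Module.finrank ℚ_[p] (gg r ⧸ LieAlgebra.radical ℚ_[p] (gg r)) ≤ d := by
    refine le_trans ?_ hfr
    exact Submodule.finrank_quotient_le (LieAlgebra.radical ℚ_[p] (gg r)).toSubmodule
  have hopen : IsOpen (j.range : Set G) := by
    rw [MonoidHom.coe_range]
    exact hjo.isOpen_range
  have hindex : j.range.index ≠ 0 := by
    have : Finite (G ⧸ j.range) := Subgroup.quotient_finite_of_isOpen _ hopen
    exact Subgroup.index_ne_zero_of_finite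
  -- good elements lie in Z
  have hgoodZ : ∀ h : G, Good j r.ker h → h ∈ Z := by
    intro h hh
    have h1 : h ^ j.range.index ∈ j.range := by
      have := Subgroup.pow_index_mem (H := j.range) h
      exact this
    obtain ⟨g, hg'⟩ := h1
    have h2 : ρ (h ^ j.range.index) = 1 := by
      rw [← hg']
      exact hh _ g hg'
    have hiter : ∀ (k : ℕ) (x : gg r), (T h)^[k] x = T (h ^ k) x := by
      intro k
      induction k with
      | zero => intro x; rw [pow_zero, hTone]; rfl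
      | succ k ih =>
        intro x
        rw [Function.iterate_succ_apply', ih, pow_succ', hTmul]
    have hTm : ∀ x : gg r, (T h)^[j.range.index] x = x := by
      intro x
      rw [hiter]
      apply Subtype.ext
      rw [hT, h2, gm_one, inv_one, gm_one, one_mul, mul_one]
    obtain ⟨T', hT'mk, hT'l, _, _⟩ :=
      exists_quot_auto (k := ℚ_[p]) (L := gg r) j.range.index (Nat.pos_of_ne_zero hindex) (T h) hTm
    intro x
    have h3 := auto_trivial p j.range.index d (Nat.pos_of_ne_zero hindex) hdimQ hg T' hT'l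
      (LieSubmodule.Quotient.mk x)
    rw [hT'mk] at h3
    have h4 : (LieSubmodule.Quotient.mk (T h x - x) :
        gg r ⧸ LieAlgebra.radical ℚ_[p] (gg r)) = 0 := by
      rw [show (LieSubmodule.Quotient.mk (T h x - x) :
        gg r ⧸ LieAlgebra.radical ℚ_[p] (gg r)) = LieSubmodule.Quotient.mk (T h x) -
          LieSubmodule.Quotient.mk x from rfl, h3, sub_self]
    rwa [LieSubmodule.Quotient.mk_eq_zero'] at h4
  -- the kernel lies in Z
  have hkerZ : ∀ g ∈ r.ker, j g ∈ Z := by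
    intro g hg' x
    have h1 : ρ (j g) = 1 := hg'
    have h2 : T (j g) x = x := by
      apply Subtype.ext
      rw [hT, h1, gm_one, inv_one, gm_one, one_mul, mul_one]
    rw [h2, sub_self]
    exact zero_mem _
  obtain ⟨B, hB⟩ := htow
  have hZi : Z.index ≠ 0 := by
    refine finiteIndex_of_bounded Z hZn hZc B ?_
    intro W hWn hWo hZW
    exact hB W hWn hWo (fun g hg' => hZW (hkerZ g hg')) (fun h hh => hZW (hgoodZ h hh))
  apply hs
  refine solvable_of_finite_ad r N hN Z.index (Nat.pos_of_ne_zero hZi) ?_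
  intro g x y hy
  have h1 : (j g) ^ Z.index ∈ Z := by
    exact Subgroup.pow_index_mem (H := Z) (j g)
  have h2 : y = T (j g ^ Z.index) x := by
    apply Subtype.ext
    rw [hy, hT, map_pow, ← inv_pow, gm_pow, gm_pow]
    rfl
  rw [h2]
  exact h1 x

end Pool.Agent.Lib.MP_ca71b5_nt
end

section

/-!
# The theorem of Boston type
-/

set_option autoImplicit false
open scoped NumberField

namespace Pool.Agent.Lib.MP_ca71b5_nt

theorem toGF_iterate {F K : Type} [Field F] [NumberField F] [Field K] [NumberField K]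
    [Algebra F K] [IsGalois F K] (τ : GF F K) (g : GK K) (i : ℕ) :
    toGF F K ((conjK τ)^[i] g) = τ ^ i * toGF F K g * (τ ^ i)⁻¹ := by
  induction i with
  | zero => simp
  | succ i ih =>
    rw [Function.iterate_succ_apply', toGF_conjK, ih, pow_succ' τ i, mul_inv_rev]
    simp only [mul_assoc]

theorem finite_range_of_ker_eq {Γ G G' : Type*} [Group Γ] [Group G] [Group G'] (f : Γ →* G)
    (f' : Γ →* G') (h : f'.ker = f.ker) (hf : (Set.range f').Finite) : (Set.range f).Finite := by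
  have h1 : Finite f'.range := hf
  have h2 : Finite (Γ ⧸ f'.ker) := Finite.of_equiv _ (QuotientGroup.quotientKerEquivRange f').symm.toEquiv
  rw [h] at h2
  have h3 : Finite f.range := Finite.of_equiv _ (QuotientGroup.quotientKerEquivRange f).toEquiv
  exact h3

theorem boston_rank_two : ∀ (p l : ℕ) [Fact p.Prime] [Fact l.Prime], p ≠ l →
    ∀ (F K : Type) [Field F] [NumberField F] [Field K] [NumberField K] [Algebra F K]
      [IsGalois F K], Module.finrank F K = l →
    ∀ r R : ℕ, RankLE p F r → RankLE p K R →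
    (∀ m : ℕ, 1 ≤ m → m ≤ r → 3 * m ≤ R → ∀ M : Matrix (Fin m) (Fin m) ℤ,
      IsOfFinOrder M → ¬ orderOf (p : ZMod l) ∣ orderOf M) →
    (r ≤ 2 ∨ (R < 3 * l ∧ FiniteTower p F)) →
    ∀ (n : ℕ) (ρ : (AlgebraicClosure K ≃ₐ[K] AlgebraicClosure K) →*
      Matrix.GeneralLinearGroup (Fin n) ℤ_[p]), Continuous ρ →
    UnrPro p K ρ → CutNormal p F K ρ → Powerful p ρ.range → (Set.range ρ).Finite := by
  intro p l _ _ hpl F K _ _ _ _ _ _ hl r R hrF hRK hi hii n ρ hρ hunr hcut hpow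
  have hpro : ProP p ρ.ker := proP_of_unrPro K ρ hunr
  have hpq : PowQ p ρ.ker := powQ_of_powerful ρ hρ hpow
  obtain ⟨τ, hτ, t, ht, htρ⟩ := exists_tau l hpl hl ρ hρ hpro
  have hiter : ∀ g : GK K, ρ ((conjK τ)^[l] g) = ρ g := by
    intro g
    have h1 : (conjK τ)^[l] g = t * g * t⁻¹ := by
      apply toGF_injective F K
      rw [toGF_iterate, map_mul, map_mul, map_inv, ht]
    rw [h1, map_mul, map_mul, map_inv, htρ]
    simp
  obtain ⟨ι, hι1, hι2, ρ', P, hρ'c, hker, hP, hφ⟩ := exists_induced (l := l) ρ hρ (conjK τ)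
    (conjK_continuous τ) hiter (fun g hg => conjK_ker ρ hρ hcut τ g hg)
  apply finite_range_of_ker_eq ρ ρ' hker
  refine main_abs l hpl ρ' hρ'c (conjK τ) P hP hφ ?_ ?_ r R ?_ ?_ hi ?_ ?_
  · rw [hker]; exact hpro
  · rw [hker]; exact hpq
  · rw [hker]
    exact rankF_of_rankLE l hpl hl ρ hunr τ hτ ⟨t, ht, htρ⟩ r hrF
  · rw [hker]
    exact rankG_of_unrPro K ρ hunr R hRK
  · rcases hii with h | ⟨h1, h2⟩
    · exact Or.inl h
    · refine Or.inr ⟨h1, ?_⟩
      rw [hker]
      exact towerF_of_finiteTower l hpl hl ρ hunr τ hτ ⟨t, ht, htρ⟩ h2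
  · rw [hker]
    exact fAb_of_unrPro K ρ hρ hunr

end Pool.Agent.Lib.MP_ca71b5_nt
end

section

/-!
# The theorem on cyclic extensions in abstract form, non-zero rank
-/

set_option autoImplicit false

namespace Pool.Agent.Lib.MP_ca71b5_nt

variable {p : ℕ} [Fact p.Prime] {ι : Type} [Fintype ι] [DecidableEq ι]
  {Γ : Type} [Group Γ] [TopologicalSpace Γ] [IsTopologicalGroup Γ] [CompactSpace Γ]
  [T2Space Γ] [TotallyDisconnectedSpace Γ]

attribute [local instance 100] LieRing.ofAssociativeRing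

theorem main_abs_cyclic (m : ℕ) (hm : 0 < m) (ρ : Γ →* GLZ p ι)
    (hρ : Continuous ρ) (φ : Γ →* Γ) (P : GLZ p ι) (hP : P ^ m = 1)
    (hφ : ∀ g : Γ, ρ (φ g) = P * ρ g * P⁻¹) (hpro : ProP p ρ.ker) (s : ℕ)
    (hpow : PowQc p (s + eps p) ρ.ker) (r d : ℕ)
    (hr : ∀ W V : Subgroup Γ, W.Normal → IsOpen (W : Set Γ) → ρ.ker ≤ W →
      (∀ a b : Γ, a * b * a⁻¹ * b⁻¹ ∈ W) → (∀ a : Γ, φ a * a⁻¹ ∈ W) →
      (∀ a : Γ, a ^ (p ^ (s + 1)) ∈ W) → (∀ a : Γ, a ∈ V ↔ a ^ (p ^ s) ∈ W) →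
      V.index ≤ p ^ r)
    (hd : Module.finrank ℚ_[p] (logSpan ρ) ≤ d)
    (hi : ∀ l : ℕ, l.Prime → l ∣ m → ∀ j : ℕ, 1 ≤ j → j ≤ r → 3 * j ≤ d →
      ∀ M : Matrix (Fin j) (Fin j) ℤ, IsOfFinOrder M → ¬ cycDeg p l ∣ orderOf M)
    (hii : r ≤ 2 ∨ ((∀ l : ℕ, l.Prime → l ∣ m → d < 3 * l) ∧ TowerF ρ.ker φ))
    (hF : FAb p ρ.ker) : (Set.range ρ).Finite := by
  have hp1 : 1 < p := (Fact.out : p.Prime).one_lt
  obtain ⟨N, hN⟩ := exists_deep ρ hρ hpro
  have hPQ : PowQ p ρ.ker := powQ_of_powQc (s + eps p) (by omega) _ hpow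
  obtain ⟨hmul, _⟩ := pow_props ρ hρ hpro hPQ
  have hpow' : PowQc p (s + 1 + eps p - 1) ρ.ker := by
    have h1 : s + 1 + eps p - 1 = s + eps p := by omega
    rw [h1]
    exact hpow
  have hpw := pow_props_deep ρ hρ hpro (s + 1) (by omega) hpow'
  obtain ⟨T, hT, hTl⟩ := exists_auto ρ N hN m φ P hP hφ hm
  -- dimension of the whole Lie algebra
  have hdimR : Module.finrank ℚ_[p] (gg ρ) ≤ d := by
    have h1 : (gg ρ).toSubmodule = logSpan ρ := gg_eq_logSpan ρ N hN
    have h2 : Module.finrank ℚ_[p] (gg ρ) = Module.finrank ℚ_[p] (gg ρ).toSubmodule := rfl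
    rw [h2, h1]
    exact hd
  -- dimension of the fixed points
  have hdimr : Module.finrank ℚ_[p] (fixS T) ≤ r :=
    fix_le_of_index ρ hρ N hN s hmul hpw φ P hφ T hT r hr
  by_cases hs : LieAlgebra.IsSolvable (gg ρ)
  · exact finite_of_solvable ρ hρ N hN hF hs
  exfalso
  have hkill : LieAlgebra.IsKilling ℚ_[p] (gg ρ ⧸ LieAlgebra.radical ℚ_[p] (gg ρ)) := by
    have := quot_radical_trivial (k := ℚ_[p]) (L := gg ρ)
    infer_instance
  have hnt : Nontrivial (gg ρ ⧸ LieAlgebra.radical ℚ_[p] (gg ρ)) := by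
    by_contra hcon
    rw [not_nontrivial_iff_subsingleton] at hcon
    exact hs (solvable_of_quot_subsingleton (k := ℚ_[p]) fun y => Subsingleton.elim _ _)
  obtain ⟨T', hT'mk, hT'l, hT'lift, hT'fix⟩ :=
    exists_quot_auto (k := ℚ_[p]) (L := gg ρ) m hm T hTl
  have hdimQ : Module.finrank ℚ_[p] (gg ρ ⧸ LieAlgebra.radical ℚ_[p] (gg ρ)) ≤ d := by
    refine le_trans ?_ hdimR
    exact Submodule.finrank_quotient_le (LieAlgebra.radical ℚ_[p] (gg ρ)).toSubmodule
  have hdim3 := three_le_finrank (k := ℚ_[p])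
    (L := gg ρ ⧸ LieAlgebra.radical ℚ_[p] (gg ρ))
  by_cases hT1 : ∀ y, T' y = y
  · -- trivial action
    have hfixtop : fixS T' = ⊤ := by
      rw [eq_top_iff]
      intro x _
      exact hT1 x
    rw [hfixtop, finrank_top] at hT'fix
    rcases hii with h2 | ⟨_, htow⟩
    · omega
    · apply hs
      refine solvable_of_tower ρ hρ N hN φ P hφ T hT ?_ htow
      intro x
      have h1 := hT1 (LieSubmodule.Quotient.mk x)
      rw [hT'mk] at h1
      have h2 : (LieSubmodule.Quotient.mk (T x - x) :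
          gg ρ ⧸ LieAlgebra.radical ℚ_[p] (gg ρ)) = 0 := by
        rw [show (LieSubmodule.Quotient.mk (T x - x) :
          gg ρ ⧸ LieAlgebra.radical ℚ_[p] (gg ρ)) = LieSubmodule.Quotient.mk (T x) -
            LieSubmodule.Quotient.mk x from rfl, h1, sub_self]
      rwa [LieSubmodule.Quotient.mk_eq_zero'] at h2
  · push Not at hT1
    rcases auto_main_cyclic p m hm T' hT'l hT1 with
      ⟨j, hj1, hj2, hj3, M, hM1, l, hl, hlm, hM2⟩ | ⟨⟨l, hl, hlm, h3l⟩, h3⟩
    · exact hi l hl hlm j hj1 (hj2.trans (hT'fix.trans hdimr)) (hj3.trans hdimQ) M hM1 hM2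
    · rcases hii with h2 | ⟨hR', _⟩
      · have := h3.trans (hT'fix.trans hdimr)
        omega
      · have := h3l.trans hdimQ
        have := hR' l hl hlm
        omega

end Pool.Agent.Lib.MP_ca71b5_nt
end

section

/-!
# The theorem on quotients of small dimension
-/

set_option autoImplicit false
open scoped NumberField

namespace Pool.Agent.Lib.MP_ca71b5_nt

theorem small_dimension : ∀ (p : ℕ) [Fact p.Prime] (F K : Type) [Field F] [NumberField F]
      [Field K] [NumberField K] [Algebra F K] [IsGalois F K], FiniteTower p F →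
    ∀ (n : ℕ) (ρ : (AlgebraicClosure K ≃ₐ[K] AlgebraicClosure K) →*
      Matrix.GeneralLinearGroup (Fin n) ℤ_[p]), Continuous ρ → UnrPro p K ρ → CutNormal p F K ρ →
    ∀ d : ℕ, Module.finrank ℚ_[p] (logSpan ρ) ≤ d → GoodDim p d (Module.finrank F K) →
    (Set.range ρ).Finite := by
  intro p _ F K _ _ _ _ _ _ hT n ρ hρ hunr hcut d hd hgood
  have hpro : ProP p ρ.ker := proP_of_unrPro K ρ hunr
  have hidx : (toGF F K).range.index = Module.finrank F K := toGF_index
  have hidx0 : (toGF F K).range.index ≠ 0 := by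
    rw [hidx]
    exact Module.finrank_pos.ne'
  obtain ⟨ι, hι1, hι2, ρ', hρ'c, hker⟩ := exists_induced_open (toGF F K) (toGF_injective F K)
    toGF_continuous toGF_isOpenMap hidx0 toGF_range_normal ρ hρ (by
      intro x g h hg hx
      have h1 : h = conjK x g := by
        apply toGF_injective F K
        rw [hx, toGF_conjK]
      rw [h1]
      exact conjK_ker ρ hρ hcut x g hg)
  have hkereq : (ρ'.comp (toGF F K)).ker = ρ.ker := by
    ext g
    rw [MonoidHom.mem_ker, MonoidHom.mem_ker, MonoidHom.comp_apply]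
    exact hker g
  apply finite_range_of_ker_eq ρ (ρ'.comp (toGF F K)) hkereq
  have hrc : Continuous (ρ'.comp (toGF F K)) := hρ'c.comp toGF_continuous
  have hpro' : ProP p (ρ'.comp (toGF F K)).ker := by rw [hkereq]; exact hpro
  obtain ⟨N, hN⟩ := exists_deep ρ hρ hpro
  obtain ⟨N', hN'⟩ := exists_deep (ρ'.comp (toGF F K)) hrc hpro'
  refine main_good (toGF F K) (toGF_injective F K) toGF_continuous toGF_isOpenMap
    toGF_range_normal ρ' hρ'c hpro' ?_ d ?_ ?_ ?_
  · rw [hkereq]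
    exact fAb_of_unrPro K ρ hρ hunr
  · exact (finrank_le_of_ker ρ hρ N hN (ρ'.comp (toGF F K)) hrc N' hN' hkereq).trans hd
  · rw [hidx]
    exact hgood
  · rw [hkereq]
    exact bounded_of_tower ρ hρ hunr hT

end Pool.Agent.Lib.MP_ca71b5_nt
end

section

/-!
# The theorem on cyclic extensions
-/

set_option autoImplicit false
open scoped NumberField

namespace Pool.Agent.Lib.MP_ca71b5_nt

theorem exists_toGF_of_restrict {F K : Type} [Field F] [NumberField F] [Field K] [NumberField K]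
    [Algebra F K] [IsGalois F K] (h : GF F K)
    (hh : AlgEquiv.restrictNormalHom (F := F) (K₁ := AlgebraicClosure K) K h = 1) :
    ∃ g : GK K, toGF F K g = h := by
  refine ⟨AlgEquiv.ofRingEquiv (f := h.toRingEquiv) ?_, ?_⟩
  · intro a
    have h1 := AlgEquiv.restrictNormal_commutes h K a
    have h2 : h.restrictNormal K = 1 := hh
    rw [h2] at h1
    exact h1.symm
  · ext x
    rfl

theorem exists_generator_lift (F K : Type) [Field F] [NumberField F] [Field K] [NumberField K]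
    [Algebra F K] [IsGalois F K] [IsCyclic (K ≃ₐ[F] K)] :
    ∃ τ : GF F K, (∀ σ : GF F K, ∃ (k : ℕ) (g : GK K), σ = τ ^ k * toGF F K g) ∧
      ∃ g₀ : GK K, τ ^ (Module.finrank F K) = toGF F K g₀ := by
  obtain ⟨σ₀, hσ₀⟩ := IsCyclic.exists_generator (α := K ≃ₐ[F] K)
  obtain ⟨τ, hτ⟩ : ∃ τ : GF F K,
      AlgEquiv.restrictNormalHom (F := F) (K₁ := AlgebraicClosure K) K τ = σ₀ :=
    AlgEquiv.restrictNormalHom_surjective (AlgebraicClosure K) σ₀
  refine ⟨τ, ?_, ?_⟩
  · intro σ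
    have hmem : AlgEquiv.restrictNormalHom (F := F) (K₁ := AlgebraicClosure K) K σ ∈
        Submonoid.powers σ₀ := by
      rw [mem_powers_iff_mem_zpowers]
      exact hσ₀ _
    obtain ⟨k, hk⟩ := hmem
    have hk' : σ₀ ^ k = AlgEquiv.restrictNormalHom (F := F) (K₁ := AlgebraicClosure K) K σ := hk
    have h2 : AlgEquiv.restrictNormalHom (F := F) (K₁ := AlgebraicClosure K) K
        ((τ ^ k)⁻¹ * σ) = 1 := by
      rw [map_mul, map_inv, map_pow, hτ, hk', inv_mul_cancel]
    obtain ⟨g, hg⟩ := exists_toGF_of_restrict _ h2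
    exact ⟨k, g, by rw [hg, mul_inv_cancel_left]⟩
  · have h2 : AlgEquiv.restrictNormalHom (F := F) (K₁ := AlgebraicClosure K) K
        (τ ^ (Module.finrank F K)) = 1 := by
      rw [map_pow, hτ, ← IsGalois.card_aut_eq_finrank]
      exact pow_card_eq_one'
    obtain ⟨g, hg⟩ := exists_toGF_of_restrict _ h2
    exact ⟨g, hg.symm⟩

theorem cyclic_deep : ∀ (p : ℕ) [Fact p.Prime] (F K : Type) [Field F] [NumberField F]
      [Field K] [NumberField K] [Algebra F K] [IsGalois F K] [IsCyclic (K ≃ₐ[F] K)] (s : ℕ),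
      ExpLE p F s →
    ∀ (n : ℕ) (ρ : (AlgebraicClosure K ≃ₐ[K] AlgebraicClosure K) →*
      Matrix.GeneralLinearGroup (Fin n) ℤ_[p]), Continuous ρ → UnrPro p K ρ → CutNormal p F K ρ →
    PowDeep p (s + padicValNat p (Module.finrank F K) + (if p = 2 then 2 else 1)) ρ.range →
    (Set.range ρ).Finite := by
  intro p _ F K _ _ _ _ _ _ _ s hs n ρ hρ hunr hcut hdeep
  have hpro : ProP p ρ.ker := proP_of_unrPro K ρ hunr
  have hidx : (toGF F K).range.index = Module.finrank F K := toGF_index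
  have hidx0 : (toGF F K).range.index ≠ 0 := by
    rw [hidx]
    exact Module.finrank_pos.ne'
  obtain ⟨ι, hι1, hι2, ρ', hρ'c, hker⟩ := exists_induced_open (toGF F K) (toGF_injective F K)
    toGF_continuous toGF_isOpenMap hidx0 toGF_range_normal ρ hρ (by
      intro x g h hg hx
      have h1 : h = conjK x g := by
        apply toGF_injective F K
        rw [hx, toGF_conjK]
      rw [h1]
      exact conjK_ker ρ hρ hcut x g hg)
  have hkereq : (ρ'.comp (toGF F K)).ker = ρ.ker := by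
    ext g
    rw [MonoidHom.mem_ker, MonoidHom.mem_ker, MonoidHom.comp_apply]
    exact hker g
  apply finite_range_of_ker_eq ρ (ρ'.comp (toGF F K)) hkereq
  have hrc : Continuous (ρ'.comp (toGF F K)) := hρ'c.comp toGF_continuous
  obtain ⟨τ, hτ, g₀, hg₀⟩ := exists_generator_lift F K
  have hq : PowQc p (s + padicValNat p (Module.finrank F K) + eps p) ρ.ker :=
    powQc_of_powDeep _ ρ hρ hdeep
  refine main_cyclic (toGF F K) ρ' hrc ?_ ?_ (s + padicValNat p (Module.finrank F K)) ?_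
    (conjK τ) τ (toGF_conjK τ) (Module.finrank F K) Module.finrank_pos g₀ hg₀ ?_
  · rw [hkereq]; exact hpro
  · rw [hkereq]; exact fAb_of_unrPro K ρ hρ hunr
  · rw [hkereq]; exact hq
  · rw [hkereq]
    intro W hWn hWo hW hcomm hconj a
    exact exp_of_expLE ρ hρ hunr s hs τ hτ W hWn hWo hW hcomm hconj a

end Pool.Agent.Lib.MP_ca71b5_nt
end

section

/-!
# A lift of a generator whose power is in the kernel

Proof of `exists_tau_cyclic`. Modify the proof of `exists_tau` in `N4.lean`. Let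
`m = finrank F K`. By `exists_generator_lift F K` (FINA.lean) there are `τ₀ : GF F K` with
`∀ σ, ∃ k g, σ = τ₀ ^ k * toGF F K g` and `t₀ : GK K` with `τ₀ ^ m = toGF F K t₀`. Put
`e j = p ^ (φ(m) * j)` (Euler's function), so that `e j ≡ 1 [MOD m]` (`p` is prime to `m`). Let
`U` be the hyperfilter, `τ` and `t` the limits of `τ₀ ^ (e j)` and `t₀ ^ (e j)` along `U`
(compactness), as in `N4.lean`. As there `toGF F K t = τ ^ m` and `ρ t = 1`. Moreover
`τ = τ₀ * toGF F K g₁` for some `g₁`: the subgroup `(toGF F K).range` is open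
(`toGF_isOpenMap`), hence closed, and `τ₀⁻¹ * τ₀ ^ (e j) = (τ₀ ^ m) ^ i` (where `e j = 1 + m * i`)
lies in it, so `τ₀⁻¹ * τ` does. The generation property of `τ₀` passes to `τ`: if
`σ = τ₀ ^ k * toGF g` then `τ ^ k ∈ τ₀ ^ k * (toGF F K).range` as the range is normal
(`toGF_range_normal`), so `(τ ^ k)⁻¹ * σ` is in the range.
-/

set_option autoImplicit false
open scoped NumberField

namespace Pool.Agent.Lib.MP_ca71b5_nt

variable {p : ℕ} [Fact p.Prime] {F K : Type} [Field F] [NumberField F] [Field K] [NumberField K]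
  [Algebra F K] [IsGalois F K]

theorem exists_tau_cyclic [IsCyclic (K ≃ₐ[F] K)] (hpm : ¬ p ∣ Module.finrank F K)
    {n : ℕ} (ρ : GK K →* Matrix.GeneralLinearGroup (Fin n) ℤ_[p]) (hρ : Continuous ρ)
    (h : ProP p ρ.ker) :
    ∃ τ : GF F K, (∀ σ : GF F K, ∃ (k : ℕ) (g : GK K), σ = τ ^ k * toGF F K g) ∧
      ∃ t : GK K, toGF F K t = τ ^ (Module.finrank F K) ∧ ρ t = 1 := by
  have hpp : p.Prime := Fact.out
  obtain ⟨τ₀, hgen, t₀, ht₀⟩ := exists_generator_lift F K
  set m : ℕ := Module.finrank F K with hm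
  have hm0 : 0 < m := Module.finrank_pos
  -- exponents
  let e : ℕ → ℕ := fun j => p ^ (m.totient * j)
  have he : ∀ j, e j ≡ 1 [MOD m] := by
    intro j
    have hcop : Nat.Coprime p m := (Nat.Prime.coprime_iff_not_dvd hpp).2 hpm
    have h1 := Nat.ModEq.pow_totient hcop
    have h2 := h1.pow j
    rw [← pow_mul, one_pow] at h2
    exact h2
  have he1 : ∀ j, ∃ i, e j = 1 + m * i := by
    intro j
    have h1 : 1 ≤ e j := Nat.one_le_pow _ _ hpp.pos
    obtain ⟨i, hi⟩ := (Nat.modEq_iff_dvd' h1).1 (he j).symm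
    exact ⟨i, by omega⟩
  -- limits along an ultrafilter
  let U : Ultrafilter ℕ := Filter.hyperfilter ℕ
  have hU : ∀ N : ℕ, ∀ᶠ j in (U : Filter ℕ), N ≤ j := by
    intro N
    have h1 : (U : Filter ℕ) ≤ Filter.atTop := by
      rw [← Nat.cofinite_eq_atTop]
      exact Filter.hyperfilter_le_cofinite
    exact h1 (Filter.eventually_ge_atTop N)
  obtain ⟨τ, -, hτ⟩ := isCompact_univ.ultrafilter_le_nhds (U.map fun j => τ₀ ^ (e j))
    (by simp)
  obtain ⟨t, -, ht⟩ := isCompact_univ.ultrafilter_le_nhds (U.map fun j => t₀ ^ (e j))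
    (by simp)
  have hτ' : Filter.Tendsto (fun j => τ₀ ^ (e j)) (U : Filter ℕ) (nhds τ) := hτ
  have ht' : Filter.Tendsto (fun j => t₀ ^ (e j)) (U : Filter ℕ) (nhds t) := ht
  refine ⟨τ, ?_, t, ?_, ?_⟩
  · -- the generation property
    have hro : IsOpen ((toGF F K).range : Set (GF F K)) := by
      have h1 := toGF_isOpenMap (F := F) (K := K) Set.univ isOpen_univ
      rwa [Set.image_univ] at h1
    have hrc : IsClosed ((toGF F K).range : Set (GF F K)) := (toGF F K).range.isClosed_of_isOpen hro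
    have h1 : Filter.Tendsto (fun j => τ₀⁻¹ * τ₀ ^ (e j)) (U : Filter ℕ) (nhds (τ₀⁻¹ * τ)) :=
      hτ'.const_mul _
    have h2 : τ₀⁻¹ * τ ∈ (toGF F K).range := by
      refine hrc.mem_of_tendsto h1 (Filter.Eventually.of_forall fun j => ?_)
      obtain ⟨i, hi⟩ := he1 j
      refine ⟨t₀ ^ i, ?_⟩
      rw [hi, map_pow, ← ht₀, pow_add, pow_one, inv_mul_cancel_left, pow_mul]
    have hnr : (toGF F K).range.Normal := toGF_range_normal
    intro σ
    obtain ⟨k, g, hg⟩ := hgen σ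
    have h3 : (QuotientGroup.mk τ₀ : GF F K ⧸ (toGF F K).range) = QuotientGroup.mk τ :=
      QuotientGroup.eq.2 h2
    have h4 : (QuotientGroup.mk (τ ^ k) : GF F K ⧸ (toGF F K).range) =
        QuotientGroup.mk (τ₀ ^ k) := by
      rw [QuotientGroup.mk_pow, QuotientGroup.mk_pow, h3]
    obtain ⟨g', hg'⟩ := QuotientGroup.eq.1 h4
    refine ⟨k, g' * g, ?_⟩
    rw [map_mul, hg', hg, ← mul_assoc, mul_inv_cancel_left]
  · ext x
    have h1 := ht'.eventually (krull_eval t x)
    have h2 : Filter.Tendsto (fun j => (τ₀ ^ (e j)) ^ m) (U : Filter ℕ) (nhds (τ ^ m)) :=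
      hτ'.pow m
    have h3 := h2.eventually (krull_eval (τ ^ m) x)
    obtain ⟨j, hj1, hj3⟩ := (h1.and h3).exists
    rw [← hj3, toGF_apply, ← hj1, ← pow_mul, mul_comm, pow_mul, ht₀, ← map_pow]
    rfl
  · apply gm_injective
    rw [gm_one, ← sub_eq_zero]
    apply eq_zero_of_small
    intro s
    obtain ⟨W, hWn, hWo, hWk, hW⟩ := exists_open_reduction ρ hρ s
    rw [← hW]
    obtain ⟨b, hb⟩ := h W hWn hWo hWk
    have hcl : IsClosed (W : Set (GK K)) := W.isClosed_of_isOpen hWo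
    refine hcl.mem_of_tendsto ht' ?_
    filter_upwards [hU b] with j hj
    have h1 : t₀ ^ (p ^ b) ∈ W := by
      rw [← hb]
      exact W.pow_index_mem t₀
    have h2 : p ^ b ∣ e j := by
      apply pow_dvd_pow
      have h3 : 1 ≤ m.totient := Nat.totient_pos.2 hm0
      calc b ≤ j := hj
        _ = 1 * j := (one_mul j).symm
        _ ≤ m.totient * j := Nat.mul_le_mul_right j h3
    obtain ⟨c, hc⟩ := h2
    change t₀ ^ (e j) ∈ W
    rw [hc, pow_mul]
    exact W.pow_mem h1 c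

end Pool.Agent.Lib.MP_ca71b5_nt
end

section

/-!
# A lift of a generator in an inertia group
-/

set_option autoImplicit false
open scoped NumberField

namespace Pool.Agent.Lib.MP_ca71b5_nt

variable {p : ℕ} [Fact p.Prime] {F K : Type} [Field F] [NumberField F] [Field K] [NumberField K]
  [Algebra F K] [IsGalois F K]

theorem exists_inertial_lift (hram : TotRam F K) (σ₀ : K ≃ₐ[F] K) :
    ∃ τ : GF F K, Pool.Agent.MPca71W.Inertial (AlgebraicClosure K) τ.toRingEquiv ∧
      AlgEquiv.restrictNormalHom (F := F) (K₁ := AlgebraicClosure K) K τ = σ₀ := by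
  obtain ⟨P, hP, hI⟩ := hram
  have halg : Algebra.IsAlgebraic F (AlgebraicClosure K) := Algebra.IsAlgebraic.trans F K _
  have hgal : IsGalois F (imK F K) := IsGalois.of_algEquiv (imKEquiv F K)
  let e : K ≃ₐ[F] imK F K := imKEquiv F K
  let e' : 𝓞 K ≃+* 𝓞 (imK F K) := NumberField.RingOfIntegers.mapRingEquiv e.toRingEquiv
  have he' : ∀ x : 𝓞 K, ((e' x : 𝓞 (imK F K)) : imK F K) = e (x : K) := fun x => rfl
  let P' : Ideal (𝓞 (imK F K)) := P.comap (e'.symm : 𝓞 (imK F K) →+* 𝓞 K)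
  have hP' : P'.IsMaximal := Ideal.comap_isMaximal_of_equiv e'.symm
  let g : imK F K ≃ₐ[F] imK F K := (e.symm.trans σ₀).trans e
  have hg : g ∈ P'.inertia (imK F K ≃ₐ[F] imK F K) := by
    have h0 : σ₀ ∈ P.inertia (K ≃ₐ[F] K) := by
      rw [hI]
      exact Subgroup.mem_top _
    intro x
    have h1 : σ₀ • (e'.symm x) - e'.symm x ∈ P := h0 (e'.symm x)
    show e'.symm (g • x - x) ∈ P
    have h2 : e'.symm (g • x - x) = σ₀ • (e'.symm x) - e'.symm x := by
      rw [map_sub]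
      congr 1
      apply e'.injective
      rw [e'.apply_symm_apply]
      apply NumberField.RingOfIntegers.ext
      rw [he']
      have h3 : ((g • x : 𝓞 (imK F K)) : imK F K) = g (x : imK F K) := rfl
      have h4 : ((σ₀ • (e'.symm x) : 𝓞 K) : K) = σ₀ ((e'.symm x : 𝓞 K) : K) := rfl
      rw [h3, h4]
      have h5 : ((e'.symm x : 𝓞 K) : K) = e.symm (x : imK F K) := rfl
      rw [h5]
      rfl
    rw [h2]
    exact h1
  obtain ⟨τ, hτ1, hτ2⟩ := Pool.Agent.MPca71W.exists_lift_inertial (imK F K) P' hP' g hg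
  refine ⟨τ, hτ1, ?_⟩
  ext x
  apply (algebraMap K (AlgebraicClosure K)).injective
  have h1 := AlgEquiv.restrictNormal_commutes τ K x
  have h2 := hτ2 (e x)
  have h3 : ((e x : imK F K) : AlgebraicClosure K) = algebraMap K (AlgebraicClosure K) x := rfl
  rw [h3] at h2
  have h4 : ((g (e x) : imK F K) : AlgebraicClosure K) =
      algebraMap K (AlgebraicClosure K) (σ₀ x) := by
    have h5 : g (e x) = e (σ₀ x) := by
      show e (σ₀ (e.symm (e x))) = e (σ₀ x)
      rw [AlgEquiv.symm_apply_apply]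
    rw [h5]
    rfl
  rw [h4] at h2
  rw [← h2, ← h1]
  rfl

theorem exists_tau_ram [IsCyclic (K ≃ₐ[F] K)] (hram : TotRam F K) {n : ℕ}
    (ρ : GK K →* Matrix.GeneralLinearGroup (Fin n) ℤ_[p]) (hρ : Continuous ρ)
    (h : UnrPro p K ρ) :
    ∃ τ : GF F K, (∀ σ : GF F K, ∃ (k : ℕ) (g : GK K), σ = τ ^ k * toGF F K g) ∧
      ∃ t : GK K, toGF F K t = τ ^ (Module.finrank F K) ∧ ρ t = 1 := by
  obtain ⟨σ₀, hσ₀⟩ := IsCyclic.exists_generator (α := K ≃ₐ[F] K)
  obtain ⟨τ, hin, hτ⟩ := exists_inertial_lift hram σ₀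
  refine ⟨τ, ?_, ?_⟩
  · intro σ
    have hmem : AlgEquiv.restrictNormalHom (F := F) (K₁ := AlgebraicClosure K) K σ ∈
        Submonoid.powers σ₀ := by
      rw [mem_powers_iff_mem_zpowers]
      exact hσ₀ _
    obtain ⟨k, hk⟩ := hmem
    have hk' : σ₀ ^ k = AlgEquiv.restrictNormalHom (F := F) (K₁ := AlgebraicClosure K) K σ := hk
    have h2 : AlgEquiv.restrictNormalHom (F := F) (K₁ := AlgebraicClosure K) K
        ((τ ^ k)⁻¹ * σ) = 1 := by
      rw [map_mul, map_inv, map_pow, hτ, hk', inv_mul_cancel]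
    obtain ⟨g, hg⟩ := exists_toGF_of_restrict _ h2
    exact ⟨k, g, by rw [hg, mul_inv_cancel_left]⟩
  · have h2 : AlgEquiv.restrictNormalHom (F := F) (K₁ := AlgebraicClosure K) K
        (τ ^ (Module.finrank F K)) = 1 := by
      rw [map_pow, hτ, ← IsGalois.card_aut_eq_finrank]
      exact pow_card_eq_one'
    obtain ⟨g, hg⟩ := exists_toGF_of_restrict _ h2
    refine ⟨g, hg, ?_⟩
    have halg : Algebra.IsAlgebraic F (AlgebraicClosure K) := Algebra.IsAlgebraic.trans F K _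
    have hfm := Pool.Agent.MPca71W.inertial_pow τ hin (Module.finrank F K)
    rw [← hg] at hfm
    exact inertial_mem_ker ρ hρ h g hfm

end Pool.Agent.Lib.MP_ca71b5_nt
end

section

/-!
# The theorem on cyclic extensions and multiples of the class group
-/

set_option autoImplicit false
open scoped NumberField

namespace Pool.Agent.Lib.MP_ca71b5_nt

theorem expLE_of_rankPow {p : ℕ} [Fact p.Prime] {F : Type} [Field F] [NumberField F] {s : ℕ}
    (h : RankPow p F s 0) : ExpLE p F s := by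
  intro M _ _ _ _ hcomm hk hunr σ
  have h1 := h M hcomm hk hunr
  rw [pow_zero] at h1
  obtain ⟨k, hk⟩ := hk
  have hcard : Nat.card (M ≃ₐ[F] M) = p ^ k := by rw [IsGalois.card_aut_eq_finrank, hk]
  by_contra hne
  -- a power of `σ ^ (p ^ s)` of order `p`
  set x := σ ^ (p ^ s) with hx
  have hxk : x ^ (p ^ k) = 1 := by
    rw [← hcard]
    exact pow_card_eq_one'
  obtain ⟨j, hj1, hj2⟩ : ∃ j : ℕ, x ^ (p ^ j) ≠ 1 ∧ x ^ (p ^ (j + 1)) = 1 := by
    classical
    have hex : ∃ i : ℕ, x ^ (p ^ i) = 1 := ⟨k, hxk⟩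
    have h0 : Nat.find hex ≠ 0 := by
      intro h0
      have := Nat.find_spec hex
      rw [h0, pow_zero, pow_one] at this
      exact hne this
    obtain ⟨j, hj⟩ := Nat.exists_eq_succ_of_ne_zero h0
    refine ⟨j, Nat.find_min hex (by omega), ?_⟩
    have := Nat.find_spec hex
    rwa [hj] at this
  have hfin : Finite {σ : M ≃ₐ[F] M // σ ^ p = 1 ∧ ∃ τ : M ≃ₐ[F] M, τ ^ (p ^ s) = σ} :=
    inferInstance
  have hsub : Subsingleton {σ : M ≃ₐ[F] M // σ ^ p = 1 ∧ ∃ τ : M ≃ₐ[F] M, τ ^ (p ^ s) = σ} :=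
    (Finite.card_le_one_iff_subsingleton).1 h1
  have e : (⟨x ^ (p ^ j), by rw [← pow_mul, ← pow_succ, hj2],
      ⟨σ ^ (p ^ j), by rw [← pow_mul, mul_comm, pow_mul]⟩⟩ :
      {σ : M ≃ₐ[F] M // σ ^ p = 1 ∧ ∃ τ : M ≃ₐ[F] M, τ ^ (p ^ s) = σ}) =
      ⟨1, one_pow _, ⟨1, one_pow _⟩⟩ := Subsingleton.elim _ _
  exact hj1 (congrArg Subtype.val e)

theorem cyclic_powerful : ∀ (p : ℕ) [Fact p.Prime] (F K : Type) [Field F] [NumberField F]
      [Field K] [NumberField K] [Algebra F K] [IsGalois F K] [IsCyclic (K ≃ₐ[F] K)] (s r : ℕ),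
      RankPow p F s r →
    ∀ (n : ℕ) (ρ : (AlgebraicClosure K ≃ₐ[K] AlgebraicClosure K) →*
      Matrix.GeneralLinearGroup (Fin n) ℤ_[p]), Continuous ρ → UnrPro p K ρ → CutNormal p F K ρ →
    PowDeep p (s + padicValNat p (Module.finrank F K) + (if p = 2 then 2 else 1)) ρ.range →
    ∀ d : ℕ, Module.finrank ℚ_[p] (logSpan ρ) ≤ d →
    (r = 0 ∨ ¬ p ∣ Module.finrank F K ∨ TotRam F K) →
    (∀ l : ℕ, l.Prime → l ∣ Module.finrank F K → ∀ j : ℕ, 1 ≤ j → j ≤ r → 3 * j ≤ d →
      ∀ M : Matrix (Fin j) (Fin j) ℤ, IsOfFinOrder M → ¬ cycDeg p l ∣ orderOf M) →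
    (r ≤ 2 ∨ (¬ p ∣ Module.finrank F K ∧ FiniteTower p F ∧
      ∀ l : ℕ, l.Prime → l ∣ Module.finrank F K → d < 3 * l)) →
    (Set.range ρ).Finite := by
  intro p _ F K _ _ _ _ _ _ _ s r hrF n ρ hρ hunr hcut hdeep d hd h0 hi hii
  by_cases hr0 : r = 0
  · subst hr0
    exact cyclic_deep p F K s (expLE_of_rankPow hrF) n ρ hρ hunr hcut hdeep
  have h0' : ¬ p ∣ Module.finrank F K ∨ TotRam F K := h0.resolve_left hr0
  have hm : 0 < Module.finrank F K := Module.finrank_pos
  have hpro : ProP p ρ.ker := proP_of_unrPro K ρ hunr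
  set v := padicValNat p (Module.finrank F K) with hv
  have hdeep' : PowDeep p (s + v + eps p) ρ.range := hdeep
  have hq : PowQc p (s + v + eps p) ρ.ker := powQc_of_powDeep _ ρ hρ hdeep'
  obtain ⟨τ, hτ, t, ht, htρ⟩ : ∃ τ : GF F K,
      (∀ σ : GF F K, ∃ (k : ℕ) (g : GK K), σ = τ ^ k * toGF F K g) ∧
      ∃ t : GK K, toGF F K t = τ ^ (Module.finrank F K) ∧ ρ t = 1 := by
    rcases h0' with h | h
    · exact exists_tau_cyclic h ρ hρ hpro
    · exact exists_tau_ram h ρ hρ hunr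
  have hidx : (toGF F K).range.index = Module.finrank F K := toGF_index
  have hidx0 : (toGF F K).range.index ≠ 0 := by
    rw [hidx]
    exact hm.ne'
  obtain ⟨ι, hι1, hι2, ρ', hρ'c, hker⟩ := exists_induced_open (toGF F K) (toGF_injective F K)
    toGF_continuous toGF_isOpenMap hidx0 toGF_range_normal ρ hρ (by
      intro x g h hg hx
      have h1 : h = conjK x g := by
        apply toGF_injective F K
        rw [hx, toGF_conjK]
      rw [h1]
      exact conjK_ker ρ hρ hcut x g hg)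
  have hkereq : (ρ'.comp (toGF F K)).ker = ρ.ker := by
    ext g
    rw [MonoidHom.mem_ker, MonoidHom.mem_ker, MonoidHom.comp_apply]
    exact hker g
  apply finite_range_of_ker_eq ρ (ρ'.comp (toGF F K)) hkereq
  have hrc : Continuous (ρ'.comp (toGF F K)) := hρ'c.comp toGF_continuous
  have hpro' : ProP p (ρ'.comp (toGF F K)).ker := by rw [hkereq]; exact hpro
  obtain ⟨N, hN⟩ := exists_deep ρ hρ hpro
  obtain ⟨N', hN'⟩ := exists_deep (ρ'.comp (toGF F K)) hrc hpro'
  have hP : ρ' τ ^ Module.finrank F K = 1 := by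
    rw [← map_pow, ← ht]
    exact (hker t).2 htρ
  refine main_abs_cyclic (Module.finrank F K) hm (ρ'.comp (toGF F K)) hrc (conjK τ) (ρ' τ) hP
    ?_ hpro' (s + v) ?_ r d ?_ ?_ hi ?_ ?_
  · intro g
    rw [MonoidHom.comp_apply, MonoidHom.comp_apply, toGF_conjK, map_mul, map_mul, map_inv]
  · rw [hkereq]; exact hq
  · rw [hkereq]
    intro W V hWn hWo hW hcomm hconj hexp hV
    exact index_of_rankPow ρ hρ hunr s r hrF τ hτ W V hWn hWo hW hcomm hconj hexp hV
  · exact (finrank_le_of_ker ρ hρ N hN (ρ'.comp (toGF F K)) hrc N' hN' hkereq).trans hd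
  · rcases hii with h | ⟨hpm, h1, h2⟩
    · exact Or.inl h
    · refine Or.inr ⟨h2, ?_⟩
      rw [hkereq]
      exact towerF_cyclic hpm ρ hρ hunr τ hτ ⟨t, ht, htρ⟩ h1
  · rw [hkereq]
    exact fAb_of_unrPro K ρ hρ hunr

end Pool.Agent.Lib.MP_ca71b5_nt
end
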