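import Mathlib
import Pool.Agent.Lib.MP_ca71b5_nt.Base

/-!
# The Frobenius on roots of unity of order prime to p

Proof of `exists_frobenius_gen`: repeat the proof of `exists_frobenius` in `N5.lean` with `m` in
place of `l` (only `(m : ZMod p) ≠ 0` is used) for a primitive `m`-th root of unity `ζ`; every `z`
with `z ^ m = 1` is a power of `ζ` (`IsPrimitiveRoot.eq_pow_of_pow_eq_one`).
-/

set_option autoImplicit false

namespace Pool.Agent.Lib.MP_ca71b5_nt

open Polynomial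

theorem exists_frobenius_gen (p m : ℕ) [Fact p.Prime] (hm : 0 < m) (hpm : ¬ p ∣ m) :
    ∃ σ : AlgebraicClosure ℚ_[p] ≃ₐ[ℚ_[p]] AlgebraicClosure ℚ_[p],
      ∀ z : AlgebraicClosure ℚ_[p], z ^ m = 1 → σ z = z ^ p := by
  have hl0 : m ≠ 0 := hm.ne'
  have hlm : NeZero m := ⟨hl0⟩
  have hlz : NeZero (m : AlgebraicClosure ℚ_[p]) := ⟨by exact_mod_cast hl0⟩
  obtain ⟨ζ, hζ⟩ := HasEnoughRootsOfUnity.exists_primitiveRoot (AlgebraicClosure ℚ_[p]) m
  have hroot : aeval ζ ((X : ℤ_[p][X]) ^ m - 1) = 0 := by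
    simp [hζ.pow_eq_one]
  have hint : IsIntegral ℤ_[p] ζ :=
    ⟨X ^ m - 1, monic_X_pow_sub_C 1 hl0, by
      have := hroot
      rwa [aeval_def] at this⟩
  have htf : Module.IsTorsionFree ℤ_[p] (AlgebraicClosure ℚ_[p]) := by
    rw [Module.isTorsionFree_iff_algebraMap_injective,
      IsScalarTower.algebraMap_eq ℤ_[p] ℚ_[p] (AlgebraicClosure ℚ_[p])]
    exact (algebraMap ℚ_[p] (AlgebraicClosure ℚ_[p])).injective.comp
      (IsFractionRing.injective ℤ_[p] ℚ_[p])
  obtain ⟨h, hh⟩ := minpoly.isIntegrallyClosed_dvd hint hroot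
  have hmon : (minpoly ℤ_[p] ζ).Monic := minpoly.monic hint
  have hkey : aeval (ζ ^ p) (minpoly ℤ_[p] ζ) = 0 := by
    by_contra hne
    have h1 : aeval (ζ ^ p) ((X : ℤ_[p][X]) ^ m - 1) = 0 := by
      have : (ζ ^ p) ^ m = 1 := by rw [← pow_mul, mul_comm, pow_mul, hζ.pow_eq_one, one_pow]
      simp [this]
    rw [hh, map_mul] at h1
    have h2 : aeval (ζ ^ p) h = 0 := (mul_eq_zero.1 h1).resolve_left hne
    have h3 : aeval ζ (expand ℤ_[p] p h) = 0 := by
      rw [expand_aeval]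
      exact h2
    have h4 : minpoly ℤ_[p] ζ ∣ expand ℤ_[p] p h := minpoly.isIntegrallyClosed_dvd hint h3
    have h5 : (minpoly ℤ_[p] ζ).map (PadicInt.toZMod (p := p)) ∣
        (h.map (PadicInt.toZMod (p := p))) ^ p := by
      rw [← ZMod.expand_card, ← map_expand]
      exact Polynomial.map_dvd _ h4
    have h6 : (X : (ZMod p)[X]) ^ m - 1 = (minpoly ℤ_[p] ζ).map (PadicInt.toZMod (p := p)) *
        h.map (PadicInt.toZMod (p := p)) := by
      rw [← Polynomial.map_mul, ← hh]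
      simp
    have hlp : (m : ZMod p) ≠ 0 := by
      intro h0
      rw [ZMod.natCast_eq_zero_iff] at h0
      exact hpm h0
    have hsf : Squarefree ((X : (ZMod p)[X]) ^ m - 1) :=
      (separable_X_pow_sub_C 1 hlp one_ne_zero).squarefree
    rw [h6, squarefree_mul_iff] at hsf
    have h7 : IsUnit ((minpoly ℤ_[p] ζ).map (PadicInt.toZMod (p := p))) :=
      (hsf.1.pow_right (n := p)).isUnit_of_dvd h5
    have h8 := degree_eq_zero_of_isUnit h7
    rw [hmon.degree_map] at h8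
    exact (minpoly.degree_pos hint).ne' h8
  have hintQ : IsIntegral ℚ_[p] ζ := hint.tower_top
  have hconj : IsConjRoot ℚ_[p] ζ (ζ ^ p) := by
    apply isConjRoot_of_aeval_eq_zero hintQ
    rw [minpoly.isIntegrallyClosed_eq_field_fractions' ℚ_[p] hint, aeval_map_algebraMap]
    exact hkey
  obtain ⟨σ, hσ⟩ := hconj.symm.exists_algEquiv
  refine ⟨σ, fun z hz => ?_⟩
  obtain ⟨i, -, hi⟩ := hζ.eq_pow_of_pow_eq_one hz
  rw [← hi, map_pow, hσ, ← pow_mul, ← pow_mul, mul_comm]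

end Pool.Agent.Lib.MP_ca71b5_nt
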